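import Pool.Agent.Lib.MP_4ed7e0_lc_U.Defs

/-!
# MP_4ed7e0_lc, project U: reduction modulo the elements `y ^ p - y`
-/

set_option autoImplicit false

namespace Pool.Agent.R4U

noncomputable section

universe u

variable {Ω : Type u} [NormedField Ω]

open Classical in
/-- The `p`-th root. -/
def rt (p : ℕ) (x : Ω) : Ω := if h : ∃ y, y ^ p = x then Classical.choose h else 0

/-- Proof. `IsAlgClosed.exists_pow_nat_eq`. -/
theorem rt_pow (p : ℕ) [Fact p.Prime] [IsAlgClosed Ω] (x : Ω) : rt p x ^ p = x := by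
  have h : ∃ y : Ω, y ^ p = x :=
    IsAlgClosed.exists_pow_nat_eq x (Fact.out (p := p.Prime)).pos
  unfold rt
  rw [dif_pos h]
  exact Classical.choose_spec h

/-- Proof. The Frobenius map is injective. -/
theorem rt_unique (p : ℕ) [Fact p.Prime] [CharP Ω p] [IsAlgClosed Ω] {x y : Ω} (h : y ^ p = x) :
    y = rt p x := by
  apply frobenius_inj Ω p
  rw [frobenius_def, frobenius_def, rt_pow, h]

theorem rt_zero (p : ℕ) [Fact p.Prime] [CharP Ω p] [IsAlgClosed Ω] : rt p (0 : Ω) = 0 := by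
  symm
  apply rt_unique
  exact zero_pow (Fact.out (p := p.Prime)).ne_zero

theorem rt_mem {p : ℕ} [Fact p.Prime] [CharP Ω p] [IsAlgClosed Ω] {A : Subfield Ω}
    (hA : Perf p A) {x : Ω} (hx : x ∈ A) (s : ℕ) : (rt p)^[s] x ∈ A := by
  induction s with
  | zero => simpa using hx
  | succ s ih =>
    rw [Function.iterate_succ_apply']
    obtain ⟨y, hy, hyx⟩ := hA _ ih
    rw [← rt_unique p hyx]
    exact hy

theorem rt_iter_pow (p : ℕ) [Fact p.Prime] [IsAlgClosed Ω] (x : Ω) (s : ℕ) :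
    ((rt p)^[s] x) ^ p ^ s = x := by
  induction s with
  | zero => simp
  | succ s ih =>
    rw [Function.iterate_succ_apply', pow_succ', pow_mul, rt_pow, ih]

/-- Proof. Take `y = ∑ l < s, (rt p)^[l + 1] c * x ^ (i * p ^ (s - l - 1))`: the difference of
`(rt p)^[l] c * x ^ (i * p ^ (s - l))` and `(rt p)^[l + 1] c * x ^ (i * p ^ (s - l - 1))` is
`y_l ^ p - y_l`, and `a ↦ a ^ p - a` is additive. Induction on `s` is easiest:
`c * x ^ (i * p ^ (s + 1)) = (rt p c * x ^ (i * p ^ s)) ^ p`. -/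
theorem red_mono (p : ℕ) [Fact p.Prime] [CharP Ω p] [IsAlgClosed Ω] {N : Subfield Ω} {c x : Ω}
    (hc : ∀ s, (rt p)^[s] c ∈ N) (hx : x ∈ N) (i s : ℕ) :
    ∃ y ∈ N, c * x ^ (i * p ^ s) = (rt p)^[s] c * x ^ i + (y ^ p - y) := by
  induction s generalizing c with
  | zero =>
    refine ⟨0, N.zero_mem, ?_⟩
    rw [zero_pow (Fact.out (p := p.Prime)).ne_zero]
    simp
  | succ s ih =>
    have hc' : ∀ t, (rt p)^[t] (rt p c) ∈ N := fun t => by
      rw [← Function.iterate_succ_apply]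
      exact hc (t + 1)
    obtain ⟨y, hy, he⟩ := ih hc'
    refine ⟨y + rt p c * x ^ (i * p ^ s), N.add_mem hy (N.mul_mem (hc' 0) (pow_mem hx _)), ?_⟩
    have h1 : (rt p c * x ^ (i * p ^ s)) ^ p = c * x ^ (i * p ^ (s + 1)) := by
      rw [mul_pow, rt_pow, ← pow_mul, pow_succ, mul_assoc]
    rw [Function.iterate_succ_apply, add_pow_expChar, h1]
    linear_combination he

/-- The coefficients of the reduced form of the polynomial `Q`:
`∑ s, (Q.coeff (i p ^ s)) ^ (1/p^s)`. -/
def Dc (p : ℕ) (Q : Polynomial Ω) (i : ℕ) : Ω :=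
  ∑ s ∈ Finset.range (Q.natDegree + 1), (rt p)^[s] (Q.coeff (i * p ^ s))

theorem Dc_mem {p : ℕ} [Fact p.Prime] [CharP Ω p] [IsAlgClosed Ω] {E : Subfield Ω}
    (hE : Perf p E) {Q : Polynomial Ω} (hQ : Coef E Q) (i : ℕ) : Dc p Q i ∈ E := by
  unfold Dc
  exact E.sum_mem fun s _ => rt_mem hE (hQ _) s

private theorem Red_sum {p : ℕ} [Fact p.Prime] [CharP Ω p] {N : Subfield Ω} {ι : Type*}
    (s : Finset ι) (f g : ι → Ω) (h : ∀ i ∈ s, ∃ y ∈ N, f i = g i + (y ^ p - y)) :
    ∃ y ∈ N, ∑ i ∈ s, f i = ∑ i ∈ s, g i + (y ^ p - y) := by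
  classical
  induction s using Finset.induction_on with
  | empty =>
    refine ⟨0, N.zero_mem, ?_⟩
    rw [zero_pow (Fact.out (p := p.Prime)).ne_zero]
    simp
  | insert a s ha ih =>
    obtain ⟨y, hy, he⟩ := h a (Finset.mem_insert_self a s)
    obtain ⟨z, hz, hf⟩ := ih fun i hi => h i (Finset.mem_insert_of_mem hi)
    refine ⟨y + z, N.add_mem hy hz, ?_⟩
    rw [Finset.sum_insert ha, Finset.sum_insert ha, he, hf, add_pow_expChar]
    ring

private theorem Red_rt_zero {p : ℕ} [Fact p.Prime] [CharP Ω p] [IsAlgClosed Ω] (s : ℕ) :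
    (rt p)^[s] (0 : Ω) = 0 := by
  induction s with
  | zero => rfl
  | succ s ih => rw [Function.iterate_succ_apply', ih, rt_zero]

/-- Every `n ≥ 1` is `i * p ^ s` for exactly one pair `(i, s)` with `p ∤ i`. -/
private theorem Red_sum_split {p : ℕ} [Fact p.Prime] (d : ℕ) (f : ℕ → Ω)
    (hf : ∀ n, d < n → f n = 0) :
    ∑ n ∈ Finset.range (d + 1), f n = f 0 +
      ∑ i ∈ (Finset.range (d + 1)).filter (fun i => ¬ p ∣ i),
        ∑ s ∈ Finset.range (d + 1), f (i * p ^ s) := by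
  have hp : p.Prime := Fact.out
  rw [Finset.sum_range_succ', add_comm]
  congr 1
  rw [← Finset.sum_product']
  -- restrict the right side to the pairs with `i * p ^ s ≤ d`
  rw [← Finset.sum_filter_of_ne (p := fun q : ℕ × ℕ => q.1 * p ^ q.2 ≤ d)]
  · symm
    refine Finset.sum_bij' (fun q _ => q.1 * p ^ q.2 - 1)
      (fun n _ => ((n + 1) / p ^ (padicValNat p (n + 1)), padicValNat p (n + 1)))
      ?_ ?_ ?_ ?_ ?_
    · rintro ⟨i, s⟩ hq
      simp only [Finset.mem_filter, Finset.mem_product, Finset.mem_range] at hq ⊢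
      have h0 : 0 < i := Nat.pos_of_ne_zero fun h => hq.1.1.2 (h ▸ dvd_zero p)
      have h1 : 0 < i * p ^ s := Nat.mul_pos h0 (pow_pos hp.pos _)
      omega
    · intro n hn
      simp only [Finset.mem_filter, Finset.mem_product, Finset.mem_range] at hn ⊢
      have hd : p ^ padicValNat p (n + 1) ∣ n + 1 := pow_padicValNat_dvd
      have he : (n + 1) / p ^ padicValNat p (n + 1) * p ^ padicValNat p (n + 1) = n + 1 :=
        Nat.div_mul_cancel hd
      refine ⟨⟨⟨?_, ?_⟩, ?_⟩, ?_⟩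
      · exact lt_of_le_of_lt (Nat.div_le_self _ _) (by omega)
      · intro h
        have h2 : p ^ (padicValNat p (n + 1) + 1) ∣ n + 1 := by
          rw [pow_succ, mul_comm]
          conv_rhs => rw [← he]
          exact mul_dvd_mul_right h _
        have h3 := pow_succ_padicValNat_not_dvd (p := p) (n := n + 1) (Nat.succ_ne_zero n)
        exact h3 h2
      · have h4 : p ^ padicValNat p (n + 1) ≤ n + 1 := Nat.le_of_dvd (Nat.succ_pos n) hd
        have h5 : padicValNat p (n + 1) < p ^ padicValNat p (n + 1) :=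
          Nat.lt_pow_self hp.one_lt
        omega
      · rw [he]
        omega
    · rintro ⟨i, s⟩ hq
      simp only [Finset.mem_filter, Finset.mem_product, Finset.mem_range] at hq
      have h0 : 0 < i := Nat.pos_of_ne_zero fun h => hq.1.1.2 (h ▸ dvd_zero p)
      have h1 : 0 < i * p ^ s := Nat.mul_pos h0 (pow_pos hp.pos _)
      have h2 : i * p ^ s - 1 + 1 = i * p ^ s := by omega
      have h3 : padicValNat p (i * p ^ s) = s := by
        rw [padicValNat.mul h0.ne' (pow_pos hp.pos _).ne', padicValNat.prime_pow,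
          padicValNat.eq_zero_of_not_dvd hq.1.1.2, zero_add]
      simp only [h2, h3]
      rw [Nat.mul_div_cancel _ (pow_pos hp.pos _)]
    · intro n hn
      have hd : p ^ padicValNat p (n + 1) ∣ n + 1 := pow_padicValNat_dvd
      simp only [Nat.div_mul_cancel hd, Nat.add_sub_cancel]
    · rintro ⟨i, s⟩ hq
      simp only [Finset.mem_filter, Finset.mem_product, Finset.mem_range] at hq
      have h0 : 0 < i := Nat.pos_of_ne_zero fun h => hq.1.1.2 (h ▸ dvd_zero p)
      have h1 : 0 < i * p ^ s := Nat.mul_pos h0 (pow_pos hp.pos _)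
      have h2 : i * p ^ s - 1 + 1 = i * p ^ s := by omega
      simp only [h2]
  · rintro ⟨i, s⟩ _ hne
    by_contra h
    exact hne (hf _ (not_le.mp h))

/-- Reduction of a polynomial value.

Proof. Every `n` with `1 ≤ n ≤ d = natDegree Q` is `i * p ^ s` for exactly one pair `(i, s)` with
`p ∤ i`, and `i, s ≤ d`. So `Q.eval x = Q.coeff 0 + ∑ i, ∑ s, Q.coeff (i * p ^ s) * x ^ (i * p ^ s)`
over all `i ≤ d` prime to `p` and `s ≤ d` (the additional coefficients are zero, and
`(rt p)^[s] 0 = 0`). Apply `red_mono` to each term; `a ↦ a ^ p - a` is additive. -/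
theorem red {p : ℕ} [Fact p.Prime] [CharP Ω p] [IsAlgClosed Ω] {E N : Subfield Ω}
    (hE : Perf p E) (hEN : E ≤ N) {Q : Polynomial Ω} (hQ : Coef E Q) {x : Ω} (hx : x ∈ N) :
    ∃ y ∈ N, Q.eval x = Q.coeff 0 +
      (∑ i ∈ (Finset.range (Q.natDegree + 1)).filter (fun i => ¬ p ∣ i), Dc p Q i * x ^ i) +
      (y ^ p - y) := by
  have hev : Q.eval x = ∑ n ∈ Finset.range (Q.natDegree + 1), Q.coeff n * x ^ n :=
    Polynomial.eval_eq_sum_range x
  rw [Red_sum_split (p := p) Q.natDegree (fun n => Q.coeff n * x ^ n)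
    (fun n hn => by rw [Polynomial.coeff_eq_zero_of_natDegree_lt hn, zero_mul])] at hev
  obtain ⟨y, hy, he⟩ := Red_sum (p := p) (N := N)
    ((Finset.range (Q.natDegree + 1)).filter (fun i => ¬ p ∣ i))
    (fun i => ∑ s ∈ Finset.range (Q.natDegree + 1), Q.coeff (i * p ^ s) * x ^ (i * p ^ s))
    (fun i => Dc p Q i * x ^ i)
    (fun i _ => by
      obtain ⟨y, hy, he⟩ := Red_sum (p := p) (N := N) (Finset.range (Q.natDegree + 1))
        (fun s => Q.coeff (i * p ^ s) * x ^ (i * p ^ s))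
        (fun s => (rt p)^[s] (Q.coeff (i * p ^ s)) * x ^ i)
        (fun s _ => red_mono p (fun t => hEN (rt_mem hE (hQ _) t)) hx i s)
      refine ⟨y, hy, ?_⟩
      rw [he]
      unfold Dc
      rw [Finset.sum_mul])
  refine ⟨y, hy, ?_⟩
  rw [hev]
  simp only [pow_zero, mul_one]
  rw [add_assoc, ← he]

end

end Pool.Agent.R4U
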