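import Pool.Agent.Lib.MP_4ed7e0_lc_U.Stab
import Pool.Agent.Lib.MP_4ed7e0_lc_U.Red

/-!
# MP_4ed7e0_lc, project U: the reduced coefficients have stable norms
-/

set_option autoImplicit false

namespace Pool.Agent.R4U

universe u

open Filter Topology

variable {Ω : Type u} [NormedField Ω] [IsUltrametricDist Ω]

omit [IsUltrametricDist Ω] in
private theorem DcS_lifts (E : Subfield Ω) (Q : Polynomial Ω) :
    Coef E Q ↔ Q ∈ Polynomial.lifts E.subtype := by
  rw [Polynomial.lifts_iff_coeff_lifts]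
  constructor
  · intro h n
    exact ⟨⟨Q.coeff n, h n⟩, rfl⟩
  · intro h n
    obtain ⟨x, hx⟩ := h n
    rw [← hx]
    exact x.2

omit [IsUltrametricDist Ω] in
private theorem DcS_hasse (E : Subfield Ω) {Q : Polynomial Ω} (hQ : Coef E Q) (n : ℕ) :
    Coef E (Polynomial.hasseDeriv n Q) := by
  intro m
  rw [Polynomial.hasseDeriv_coeff]
  exact mul_mem (natCast_mem E _) (hQ _)

/-- The norm of a reduced coefficient of the expansion of `Q` at `e` is constant for `e` near `z`.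

Proof. Let `d = natDegree Q = natDegree (taylor e Q)`. With `F n = Polynomial.hasseDeriv n Q`, a
polynomial over `E`, `(taylor e Q).coeff n = (F n).eval e` (`Polynomial.taylor_coeff`). So
`(Dc p (taylor e Q) i) ^ p ^ d = ∑ s ≤ d, ((F (i * p ^ s)).eval e) ^ p ^ (d - s) = G.eval e` for the
polynomial `G = ∑ s ≤ d, (F (i * p ^ s)) ^ p ^ (d - s)` over `E` (`rt_iter_pow`, additivity of
`p ^ d`-th powers). By `stab_norm` `‖G.eval e‖ = ‖G.eval z‖` for `e` near `z`. Take the real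
`p ^ d`-th root. -/
theorem Dc_stab {p : ℕ} [Fact p.Prime] [CharP Ω p] [IsAlgClosed Ω] {k E H : Subfield Ω}
    (ht : Tame p k E H) {z : Ω} (hz : z ∈ H) (hI : TyI E z) {Q : Polynomial Ω} (hQ : Coef E Q)
    (i : ℕ) : ∃ δ : ℝ, 0 ≤ δ ∧ ∀ᶠ e in nr E z, ‖Dc p (Polynomial.taylor e Q) i‖ = δ := by
  classical
  have hp : Nat.Prime p := Fact.out
  obtain ⟨d, hd⟩ : ∃ d, d = Q.natDegree := ⟨_, rfl⟩
  obtain ⟨G, hG⟩ : ∃ G : Polynomial Ω, G = ∑ s ∈ Finset.range (d + 1),
      (Polynomial.hasseDeriv (i * p ^ s) Q) ^ p ^ (d - s) := ⟨_, rfl⟩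
  have hGc : Coef E G := by
    rw [DcS_lifts, hG]
    exact sum_mem fun s _ => pow_mem ((DcS_lifts E _).1 (DcS_hasse E hQ _)) _
  have hpow : ∀ e : Ω, Dc p (Polynomial.taylor e Q) i ^ p ^ d = G.eval e := by
    intro e
    unfold Dc
    rw [Polynomial.natDegree_taylor, ← hd, sum_pow_char_pow, hG, Polynomial.eval_finsetSum]
    refine Finset.sum_congr rfl fun s hs => ?_
    have hsd : s ≤ d := Nat.lt_succ_iff.1 (Finset.mem_range.1 hs)
    rw [Polynomial.eval_pow, Polynomial.taylor_coeff]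
    have h1 : p ^ d = p ^ s * p ^ (d - s) := by
      rw [← pow_add]
      congr 1
      omega
    rw [h1, pow_mul, rt_iter_pow]
  refine ⟨‖G.eval z‖ ^ (((p ^ d : ℕ) : ℝ)⁻¹), Real.rpow_nonneg (norm_nonneg _) _, ?_⟩
  filter_upwards [(stab_norm ht hz hI hGc).1] with e he
  rw [← he, ← hpow e, norm_pow]
  exact (Real.pow_rpow_inv_natCast (norm_nonneg _) (pow_ne_zero _ hp.ne_zero)).symm

end Pool.Agent.R4U
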