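import Pool.Agent.Lib.MP_4ed7e0_lc_U.Defs

/-!
# MP_4ed7e0_lc, project U: dominating monomials, real lemmas
-/

set_option autoImplicit false

namespace Pool.Agent.R4U

open Filter Topology in
/-- Comparison of two monomials to the right of `γ`. -/
private theorem Dom_pair (δ : ℕ → ℝ) (hδ : ∀ i, 0 ≤ δ i) {γ : ℝ} (hγ : 0 < γ) {i j : ℕ}
    (hij : i < j) (hj : δ j ≠ 0) :
    (∀ᶠ ρ in 𝓝[>] γ, δ i * ρ ^ i < δ j * ρ ^ j) ∨
      (∀ᶠ ρ in 𝓝[>] γ, δ j * ρ ^ j < δ i * ρ ^ i) := by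
  have hdj : 0 < δ j := lt_of_le_of_ne (hδ j) (Ne.symm hj)
  rcases le_or_gt (δ i * γ ^ i) (δ j * γ ^ j) with h | h
  · left
    filter_upwards [self_mem_nhdsWithin] with ρ hρ
    have hρ' : γ < ρ := hρ
    have hρ0 : 0 < ρ := lt_trans hγ hρ'
    have e1 : ∀ x : ℝ, x ^ j = x ^ i * x ^ (j - i) := by
      intro x
      rw [← pow_add]
      congr 1
      omega
    have h1 : δ i ≤ δ j * γ ^ (j - i) := by
      rw [e1 γ] at h
      have hp : 0 < γ ^ i := pow_pos hγ i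
      have h' : δ i * γ ^ i ≤ (δ j * γ ^ (j - i)) * γ ^ i := by linarith [h]
      exact le_of_mul_le_mul_right h' hp
    have h2 : γ ^ (j - i) < ρ ^ (j - i) :=
      pow_lt_pow_left₀ hρ' hγ.le (by omega)
    have h3 : δ i < δ j * ρ ^ (j - i) :=
      lt_of_le_of_lt h1 (mul_lt_mul_of_pos_left h2 hdj)
    rw [e1 ρ]
    have hp : 0 < ρ ^ i := pow_pos hρ0 i
    nlinarith [mul_lt_mul_of_pos_right h3 hp]
  · right
    have hc : ContinuousAt (fun ρ : ℝ => δ i * ρ ^ i - δ j * ρ ^ j) γ := by fun_prop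
    have h0 : 0 < (fun ρ : ℝ => δ i * ρ ^ i - δ j * ρ ^ j) γ := by
      simpa using h
    have h4 : ∀ᶠ ρ in 𝓝 γ, 0 < (fun ρ : ℝ => δ i * ρ ^ i - δ j * ρ ^ j) ρ :=
      hc.eventually (lt_mem_nhds h0)
    have h5 := h4.filter_mono (nhdsWithin_le_nhds (s := Set.Ioi γ))
    filter_upwards [h5] with ρ hρ
    have : 0 < δ i * ρ ^ i - δ j * ρ ^ j := hρ
    linarith

open Filter Topology in
/-- Comparison of two different monomials, symmetric form. -/
private theorem Dom_pair' (δ : ℕ → ℝ) (hδ : ∀ i, 0 ≤ δ i) {γ : ℝ} (hγ : 0 < γ) {i j : ℕ}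
    (hij : i ≠ j) (hi : δ i ≠ 0) (hj : δ j ≠ 0) :
    (∀ᶠ ρ in 𝓝[>] γ, δ i * ρ ^ i < δ j * ρ ^ j) ∨
      (∀ᶠ ρ in 𝓝[>] γ, δ j * ρ ^ j < δ i * ρ ^ i) := by
  rcases lt_or_gt_of_ne hij with h | h
  · exact Dom_pair δ hδ hγ h hj
  · exact (Dom_pair δ hδ hγ h hi).symm

open Filter Topology in
/-- Slightly to the right of `γ` exactly one of the monomials `δ i * ρ ^ i` dominates.

Proof. Compare two indices `i < j` with `δ i, δ j > 0`: the quotient
`δ j * ρ ^ j / (δ i * ρ ^ i) = (δ j / δ i) * ρ ^ (j - i)` is strictly increasing in `ρ > 0`. If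
`δ j * γ ^ j ≥ δ i * γ ^ i` then `j` dominates `i` for all `ρ > γ`; otherwise `i` dominates `j` on an
interval to the right of `γ` (continuity). So for each pair there is an interval `(γ, γ')` on
which one of the two strictly dominates the other; take the smallest of these finitely many
intervals and the index which is the largest at one point of it (`Finset.exists_max_image` at this
point). Indices with `δ i = 0` are dominated by every index with `δ j ≠ 0`. -/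
theorem dom {I : Finset ℕ} (δ : ℕ → ℝ) (hδ : ∀ i, 0 ≤ δ i) (hne : ∃ i ∈ I, δ i ≠ 0) {γ : ℝ}
    (hγ : 0 < γ) : ∃ j ∈ I, δ j ≠ 0 ∧ ∃ γ' > γ, ∀ ρ, γ < ρ → ρ < γ' →
      ∀ i ∈ I, i ≠ j → δ i * ρ ^ i < δ j * ρ ^ j := by
  classical
  set I' : Finset ℕ := I.filter (fun i => δ i ≠ 0) with hI'
  have hI'ne : I'.Nonempty := by
    obtain ⟨i, hi, hi0⟩ := hne
    exact ⟨i, Finset.mem_filter.2 ⟨hi, hi0⟩⟩
  -- a point at which all decided comparisons hold
  have hev : ∀ᶠ ρ in 𝓝[>] γ, ∀ i ∈ I', ∀ j ∈ I',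
      (∀ᶠ ρ in 𝓝[>] γ, δ i * ρ ^ i < δ j * ρ ^ j) → δ i * ρ ^ i < δ j * ρ ^ j := by
    rw [Filter.eventually_all_finset]
    intro i _
    rw [Filter.eventually_all_finset]
    intro j _
    by_cases h : ∀ᶠ ρ in 𝓝[>] γ, δ i * ρ ^ i < δ j * ρ ^ j
    · filter_upwards [h] with ρ hρ _
      exact hρ
    · exact Filter.Eventually.of_forall (fun ρ h' => absurd h' h)
  obtain ⟨ρ₀, hρ₀⟩ := hev.exists
  obtain ⟨j, hj, hmax⟩ := Finset.exists_max_image I' (fun i => δ i * ρ₀ ^ i) hI'ne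
  have hjI : j ∈ I := (Finset.mem_filter.1 hj).1
  have hj0 : δ j ≠ 0 := (Finset.mem_filter.1 hj).2
  have hdj : 0 < δ j := lt_of_le_of_ne (hδ j) (Ne.symm hj0)
  refine ⟨j, hjI, hj0, ?_⟩
  have hall : ∀ᶠ ρ in 𝓝[>] γ, ∀ i ∈ I, i ≠ j → δ i * ρ ^ i < δ j * ρ ^ j := by
    rw [Filter.eventually_all_finset]
    intro i hi
    by_cases hij : i = j
    · exact Filter.Eventually.of_forall (fun ρ h' => absurd hij h')
    · by_cases hi0 : δ i = 0
      · filter_upwards [self_mem_nhdsWithin] with ρ hρ _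
        have hρ' : γ < ρ := hρ
        have hρ0 : 0 < ρ := lt_trans hγ hρ'
        rw [hi0, zero_mul]
        exact mul_pos hdj (pow_pos hρ0 j)
      · have hiI' : i ∈ I' := Finset.mem_filter.2 ⟨hi, hi0⟩
        rcases Dom_pair' δ hδ hγ hij hi0 hj0 with h | h
        · filter_upwards [h] with ρ hρ _
          exact hρ
        · exfalso
          have h1 := hρ₀ j hj i hiI' h
          have h2 := hmax i hiI'
          exact absurd h1 (not_lt.2 h2)
  obtain ⟨γ', hγ', hsub⟩ := (mem_nhdsGT_iff_exists_Ioo_subset (a := γ)).1 hall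
  exact ⟨γ', hγ', fun ρ h1 h2 => hsub ⟨h1, h2⟩⟩

/-- Proof. Divide: `(ρ₁ / ρ₂) = (ρ₁ / ρ₂) ^ n` with `ρ₁ / ρ₂ ≠ 1` positive; so `n = 1`
(`pow_right_injective₀`-like lemmas). -/
theorem pow_eq_one_of_two {ρ₁ ρ₂ c : ℝ} (h1 : 0 < ρ₁) (h2 : 0 < ρ₂) (hne : ρ₁ ≠ ρ₂) {n : ℕ}
    (e1 : ρ₁ = c * ρ₁ ^ n) (e2 : ρ₂ = c * ρ₂ ^ n) : n = 1 := by
  rcases n with _ | m
  · exfalso
    apply hne
    rw [pow_zero, mul_one] at e1 e2
    rw [e1, e2]
  · have f1 : c * ρ₁ ^ m = 1 := by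
      have h : (c * ρ₁ ^ m) * ρ₁ = 1 * ρ₁ := by
        rw [one_mul]
        calc (c * ρ₁ ^ m) * ρ₁ = c * ρ₁ ^ (m + 1) := by ring
          _ = ρ₁ := e1.symm
      exact mul_right_cancel₀ h1.ne' h
    have f2 : c * ρ₂ ^ m = 1 := by
      have h : (c * ρ₂ ^ m) * ρ₂ = 1 * ρ₂ := by
        rw [one_mul]
        calc (c * ρ₂ ^ m) * ρ₂ = c * ρ₂ ^ (m + 1) := by ring
          _ = ρ₂ := e2.symm
      exact mul_right_cancel₀ h2.ne' h
    have hc : c ≠ 0 := by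
      intro h
      rw [h, zero_mul] at f1
      exact zero_ne_one f1
    have f3 : ρ₁ ^ m = ρ₂ ^ m := mul_left_cancel₀ hc (f1.trans f2.symm)
    by_cases hm : m = 0
    · rw [hm]
    · exact absurd ((pow_left_inj₀ h1.le h2.le hm).1 f3) hne

end Pool.Agent.R4U
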