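import Pool.Agent.Lib.MP_4ed7e0_lc_U.Ban

/-!
# MP_4ed7e0_lc, project U: the Banach ultrapower is spherically complete
-/

set_option autoImplicit false

namespace Pool.Agent.R4U

universe u

open Filter Topology

/-- Spherical completeness for sequences of balls.

Proof. Choose `f k : bdd C` with `π (f k) = c k`. For `j ≤ k` the limit of `‖f j n - f k n‖` is
`‖c j - c k‖ ≤ r j`. Let `A k` be the set of all `n ≥ k` such that
`‖f j n - f l n‖ ≤ r j + 1 / (k + 1)` for all `j ≤ l ≤ k`; it belongs to the ultrafilter (a finite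
intersection; `{n | k ≤ n}` is cofinite, `Filter.hyperfilter_le_cofinite`), but the sets `A k` need
not be decreasing, so let `A' k = ⋂ i ≤ k, A i`. For `n` let `m n` be the largest `k ≤ n` with
`n ∈ A' k` (or `0` if there is none) and `g n = f (m n) n`. For `n ∈ A' 0` the value
`‖g n‖ ≤ max ‖f 0 n‖ ‖f 0 n - f (m n) n‖ ≤ max ‖f 0 n‖ (r 0 + 1)` is bounded (put `g n = 0` for the
other `n`), so `g ∈ bdd C`. For each `j` and each `k ≥ j` and `n ∈ A' k` we have `m n ≥ k` and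
`‖g n - f j n‖ ≤ r j + 1 / (m n + 1) ≤ r j + 1 / (k + 1)`. So the limit `‖π g - c j‖` is at most
`r j + 1 / (k + 1)` for all `k`. -/
theorem IsBan.sph_seq {C B : Type u} [NormedField C] [IsUltrametricDist C] [NormedField B]
    {π : bdd C →+* B} (h : IsBan C B π) (c : ℕ → B) (r : ℕ → ℝ)
    (hc : ∀ j k, j ≤ k → ‖c j - c k‖ ≤ r j) : ∃ z : B, ∀ j, ‖z - c j‖ ≤ r j := by
  classical
  choose f hf using fun k => h.surj (c k)
  have hr : ∀ j, 0 ≤ r j := fun j => (norm_nonneg _).trans (hc j j le_rfl)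
  have hP0 : ∀ n : ℕ, ∀ j ≤ 0,
      ‖(f j : ℕ → C) n - (f 0 : ℕ → C) n‖ ≤ r j + 1 / (((0 : ℕ) : ℝ) + 1) := by
    intro n j hj
    obtain rfl : j = 0 := by omega
    rw [sub_self, norm_zero]
    have := hr 0
    positivity
  let m : ℕ → ℕ := fun n => Nat.findGreatest
    (fun k => ∀ j ≤ k, ‖(f j : ℕ → C) n - (f k : ℕ → C) n‖ ≤ r j + 1 / ((k : ℝ) + 1)) n
  have hm : ∀ n, ∀ j ≤ m n,
      ‖(f j : ℕ → C) n - (f (m n) : ℕ → C) n‖ ≤ r j + 1 / ((m n : ℝ) + 1) := fun n =>
    Nat.findGreatest_spec (P := fun k => ∀ j ≤ k,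
      ‖(f j : ℕ → C) n - (f k : ℕ → C) n‖ ≤ r j + 1 / ((k : ℝ) + 1)) (Nat.zero_le n) (hP0 n)
  have hg : ∃ M : ℝ, ∀ n, ‖(fun n => (f (m n) : ℕ → C) n) n‖ ≤ M := by
    obtain ⟨M, hM⟩ := (f 0).2
    refine ⟨max M (r 0 + 1), fun n => ?_⟩
    have h1 := hm n 0 (Nat.zero_le _)
    have h2 : (f (m n) : ℕ → C) n = (f 0 : ℕ → C) n
        - ((f 0 : ℕ → C) n - (f (m n) : ℕ → C) n) := by ring
    have h3 : 1 / ((m n : ℝ) + 1) ≤ 1 := by
      rw [div_le_one (by positivity)]
      have : (0 : ℝ) ≤ m n := Nat.cast_nonneg _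
      linarith
    show ‖(f (m n) : ℕ → C) n‖ ≤ _
    rw [h2, sub_eq_add_neg]
    refine (IsUltrametricDist.norm_add_le_max _ _).trans (max_le_max (hM n) ?_)
    rw [norm_neg]
    linarith
  let g : bdd C := ⟨fun n => (f (m n) : ℕ → C) n, hg⟩
  refine ⟨π g, fun j => ?_⟩
  have hlim : Tendsto (fun n => ‖(f (m n) : ℕ → C) n - (f j : ℕ → C) n‖)
      (hyperfilter ℕ : Filter ℕ) (𝓝 ‖π g - c j‖) := by
    have h1 := h.norm (g - f j)
    rw [map_sub, hf] at h1
    exact h1
  have hk : ∀ k, j ≤ k → ‖π g - c j‖ ≤ r j + 1 / ((k : ℝ) + 1) := by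
    intro k hjk
    refine le_of_tendsto hlim ?_
    have hev : ∀ᶠ n in (hyperfilter ℕ : Filter ℕ), ∀ i ≤ k,
        ‖(f i : ℕ → C) n - (f k : ℕ → C) n‖ ≤ r i + 1 / ((k : ℝ) + 1) := by
      have h1 : ∀ i ∈ Set.Iic k, ∀ᶠ n in (hyperfilter ℕ : Filter ℕ),
          ‖(f i : ℕ → C) n - (f k : ℕ → C) n‖ ≤ r i + 1 / ((k : ℝ) + 1) := by
        intro i hi
        have h2 := h.norm (f i - f k)
        rw [map_sub, hf, hf] at h2
        have h3 : ‖c i - c k‖ < r i + 1 / ((k : ℝ) + 1) :=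
          lt_of_le_of_lt (hc i k hi) (lt_add_of_pos_right _ (by positivity))
        filter_upwards [h2.eventually_lt_const h3] with n hn
        exact hn.le
      exact (eventually_all_finite (Set.finite_Iic k)).2 h1
    filter_upwards [hev, (eventually_ge_atTop k).filter_mono Nat.hyperfilter_le_atTop]
      with n hn1 hn2
    have hkm : k ≤ m n := Nat.le_findGreatest hn2 hn1
    have h4 := hm n j (hjk.trans hkm)
    have h5 : 1 / ((m n : ℝ) + 1) ≤ 1 / ((k : ℝ) + 1) := by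
      apply one_div_le_one_div_of_le (by positivity)
      have : (k : ℝ) ≤ m n := by exact_mod_cast hkm
      linarith
    rw [norm_sub_rev]
    linarith
  refine le_of_forall_pos_le_add fun ε hε => ?_
  obtain ⟨k, hk1⟩ := exists_nat_one_div_lt hε
  have h6 := hk (max j k) (le_max_left _ _)
  have h7 : 1 / (((max j k : ℕ) : ℝ) + 1) ≤ 1 / ((k : ℝ) + 1) := by
    apply one_div_le_one_div_of_le (by positivity)
    have : (k : ℝ) ≤ ((max j k : ℕ) : ℝ) := by exact_mod_cast le_max_right _ _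
    linarith
  linarith

/-- Proof. Let `S` be a family of balls as in the definition of `Sph`; if it is empty take `0`. All
radii are `≥ 0` (take `b = c` in the hypothesis). Let `R` be the infimum of the radii. If some ball
`b ∈ S` has radius `R` then its centre `b.1` works: `‖b.1 - c.1‖ ≤ max b.2 c.2 = c.2`. Otherwise
choose balls `b n ∈ S` with decreasing radii tending to `R`; `‖(b j).1 - (b k).1‖ ≤ (b j).2` for
`j ≤ k`, so there is `z` with `‖z - (b j).1‖ ≤ (b j).2` for all `j`. For any `c ∈ S` choose `j` with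
`(b j).2 ≤ c.2` (possible as `c.2 > R`): `‖z - c.1‖ ≤ max ((b j).2) (max (b j).2 c.2) = c.2`. -/
theorem IsBan.sph {C B : Type u} [NormedField C] [IsUltrametricDist C] [NormedField B]
    [IsUltrametricDist B] {π : bdd C →+* B} (h : IsBan C B π) : Sph (Set.univ : Set B) := by
  intro S _ hS
  rcases S.eq_empty_or_nonempty with rfl | hne
  · exact ⟨0, Set.mem_univ _, by simp⟩
  have hpos : ∀ b ∈ S, 0 ≤ b.2 := by
    intro b hb
    have h1 := hS b hb b hb
    rwa [sub_self, norm_zero, max_self] at h1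
  have hbd : BddBelow (Prod.snd '' S) := by
    refine ⟨0, ?_⟩
    rintro _ ⟨b, hb, rfl⟩
    exact hpos b hb
  by_cases hmin : ∃ b ∈ S, ∀ c ∈ S, b.2 ≤ c.2
  · obtain ⟨b, hb, hbm⟩ := hmin
    refine ⟨b.1, Set.mem_univ _, fun c hc => ?_⟩
    have h1 := hS b hb c hc
    rwa [max_eq_right (hbm c hc)] at h1
  push Not at hmin
  obtain ⟨u, hu1, hu2, hu3⟩ := exists_seq_tendsto_sInf (hne.image Prod.snd) hbd
  choose b hb1 hb2 using hu3
  obtain ⟨z, hz⟩ := h.sph_seq (fun j => (b j).1) u (fun j k hjk => by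
    have h1 := hS (b j) (hb1 j) (b k) (hb1 k)
    rwa [hb2, hb2, max_eq_left (hu1 hjk)] at h1)
  refine ⟨z, Set.mem_univ _, fun c hc => ?_⟩
  obtain ⟨d, hd, hdc⟩ := hmin c hc
  have h2 : sInf (Prod.snd '' S) < c.2 :=
    lt_of_le_of_lt (csInf_le hbd (Set.mem_image_of_mem _ hd)) hdc
  obtain ⟨j, hj⟩ := (hu2.eventually_lt_const h2).exists
  have h3 := hS (b j) (hb1 j) c hc
  rw [hb2, max_eq_right hj.le] at h3
  have h4 : z - c.1 = (z - (b j).1) + ((b j).1 - c.1) := by ring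
  rw [h4]
  exact (IsUltrametricDist.norm_add_le_max _ _).trans (max_le ((hz j).trans hj.le) h3)

/-- Spherically complete fields are complete.

Proof. Let `u` be a Cauchy sequence. For each `ε > 0` there is `N` with `‖u n - u m‖ ≤ ε` for all
`n, m ≥ N`; let `S` be the set of all such balls `(u N, ε)`, `ε > 0`. The hypothesis of `Sph` holds
and the point is the limit. -/
theorem complete_of_sph {B : Type u} [NormedField B] [IsUltrametricDist B]
    (h : Sph (Set.univ : Set B)) : CompleteSpace B := by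
  refine Metric.complete_of_cauchySeq_tendsto fun u hu => ?_
  obtain ⟨x, -, hx⟩ := h {b | 0 < b.2 ∧ ∃ N : ℕ, b.1 = u N ∧ ∀ n ≥ N, ∀ m ≥ N,
    ‖u n - u m‖ ≤ b.2} (fun _ _ => Set.mem_univ _) (by
    rintro b ⟨_, N, hN, hb⟩ c ⟨_, M, hM, hc⟩
    rw [hN, hM]
    rcases le_total N M with hNM | hNM
    · exact (hb N le_rfl M hNM).trans (le_max_left _ _)
    · exact (hc N hNM M le_rfl).trans (le_max_right _ _))
  refine ⟨x, Metric.tendsto_atTop.2 fun ε hε => ?_⟩
  obtain ⟨N, hN⟩ := Metric.cauchySeq_iff.1 hu (ε / 2) (half_pos hε)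
  refine ⟨N, fun n hn => ?_⟩
  have h1 := hx (u n, ε / 2) ⟨half_pos hε, n, rfl, fun a ha b hb => by
    rw [← dist_eq_norm]
    exact (hN a (le_trans hn ha) b (le_trans hn hb)).le⟩
  rw [dist_comm, dist_eq_norm]
  exact lt_of_le_of_lt h1 (half_lt_self hε)

/-- Spherically complete subfields are closed. Proof. As before. -/
theorem closed_of_sph {B : Type u} [NormedField B] [IsUltrametricDist B] {H : Subfield B}
    (h : Sph (H : Set B)) : IsClosed (H : Set B) := by
  refine isClosed_of_closure_subset fun x hx => ?_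
  obtain ⟨y, hyH, hy⟩ := h {b | b.1 ∈ H ∧ ‖x - b.1‖ ≤ b.2} (fun b hb => hb.1) (by
    rintro b ⟨_, hb⟩ c ⟨_, hc⟩
    have h1 : b.1 - c.1 = -(x - b.1) + (x - c.1) := by ring
    rw [h1]
    refine (IsUltrametricDist.norm_add_le_max _ _).trans (max_le_max ?_ hc)
    rwa [norm_neg])
  have hxy : x = y := by
    rw [← sub_eq_zero, ← norm_le_zero_iff]
    refine le_of_forall_pos_le_add fun ε hε => ?_
    obtain ⟨a, ha, hxa⟩ := Metric.mem_closure_iff.1 hx ε hε
    rw [dist_eq_norm] at hxa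
    have h1 := hy (a, ε) ⟨ha, hxa.le⟩
    have h2 : x - y = (x - a) + -(y - a) := by ring
    rw [h2, zero_add]
    refine (IsUltrametricDist.norm_add_le_max _ _).trans (max_le hxa.le ?_)
    rwa [norm_neg]
  rw [hxy]
  exact hyH

end Pool.Agent.R4U
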