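import Pool.Agent.Lib.MP_4ed7e0_lc_U.MaxH

/-!
# MP_4ed7e0_lc, project U: maximal fields are spherically complete (Kaplansky)
-/

set_option autoImplicit false

namespace Pool.Agent.R4U

universe u

variable {Ω : Type u} [NormedField Ω] [IsUltrametricDist Ω]

/-- If `h` is closer to `z` than to all roots of `f` then `f(z)` is close to `f(h)`.

Proof. `f = C a * ∏ (X - C v)` over its roots (`IsAlgClosed.splits`), and
`(z - v) / (h - v) = 1 + (z - h) / (h - v)` is a 1-unit, so the quotient `f(z) / f(h)` is a
1-unit (induction over the multiset of the roots). -/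
theorem close_eval [IsAlgClosed Ω] {f : Polynomial Ω} (hf : f ≠ 0) {z h : Ω}
    (hr : ∀ v, f.eval v = 0 → ‖z - h‖ < ‖h - v‖) : ‖f.eval z - f.eval h‖ < ‖f.eval h‖ := by
  have key : ∀ s : Multiset Ω, (∀ v ∈ s, ‖z - h‖ < ‖h - v‖) →
      ‖(s.map fun v => z - v).prod - (s.map fun v => h - v).prod‖ <
        ‖(s.map fun v => h - v).prod‖ := by
    intro s
    induction s using Multiset.induction_on with
    | empty => intro _; simp
    | cons a s ih =>
      intro hs
      have h1 := ih fun v hv => hs v (Multiset.mem_cons_of_mem hv)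
      have h2 := hs a (Multiset.mem_cons_self a s)
      rw [Multiset.map_cons, Multiset.map_cons, Multiset.prod_cons, Multiset.prod_cons]
      set P := (s.map fun v => z - v).prod
      set Q := (s.map fun v => h - v).prod
      have hPQ : ‖P‖ ≤ ‖Q‖ := by
        have e : P = (P - Q) + Q := by ring
        rw [e]
        exact (IsUltrametricDist.norm_add_le_max _ _).trans (max_le h1.le le_rfl)
      have hQ : 0 < ‖Q‖ := lt_of_le_of_lt (norm_nonneg _) h1
      have e : (z - a) * P - (h - a) * Q = (z - h) * P + (h - a) * (P - Q) := by ring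
      rw [e]
      refine lt_of_le_of_lt (IsUltrametricDist.norm_add_le_max _ _) (max_lt ?_ ?_)
      · rw [norm_mul, norm_mul]
        calc ‖z - h‖ * ‖P‖ ≤ ‖z - h‖ * ‖Q‖ :=
              mul_le_mul_of_nonneg_left hPQ (norm_nonneg _)
          _ < ‖h - a‖ * ‖Q‖ := mul_lt_mul_of_pos_right h2 hQ
      · rw [norm_mul, norm_mul]
        exact mul_lt_mul_of_pos_left h1 (lt_of_le_of_lt (norm_nonneg _) h2)
  have hsp := IsAlgClosed.splits f
  have hev : ∀ x, f.eval x = f.leadingCoeff * (f.roots.map fun v => x - v).prod := by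
    intro x
    conv_lhs => rw [hsp.eq_prod_roots]
    rw [Polynomial.eval_mul, Polynomial.eval_C, Polynomial.eval_multiset_prod,
      Multiset.map_map]
    simp
  have hlc : 0 < ‖f.leadingCoeff‖ := norm_pos_iff.2 (Polynomial.leadingCoeff_ne_zero.2 hf)
  rw [hev z, hev h, ← mul_sub, norm_mul, norm_mul]
  refine mul_lt_mul_of_pos_left (key _ fun v hv => hr v ?_) hlc
  exact (Polynomial.mem_roots'.1 hv).2

private theorem Kap_adj {H : Subfield Ω} {z x : Ω} (hx : x ∈ adj H z) :
    x ∈ IntermediateField.adjoin H ({z} : Set Ω) := by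
  have hle : adj H z ≤ (IntermediateField.adjoin H ({z} : Set Ω)).toSubfield := by
    refine Subfield.closure_le.2 ?_
    rintro y (hy | hy)
    · exact (IntermediateField.adjoin H ({z} : Set Ω)).algebraMap_mem ⟨y, hy⟩
    · rw [Set.mem_singleton_iff.1 hy]
      exact IntermediateField.mem_adjoin_simple_self H z
  exact hle hx

private theorem Kap_aeval {H : Subfield Ω} (g : Polynomial H) {h : Ω} (hh : h ∈ H) :
    Polynomial.aeval h g ∈ H := by
  have : Polynomial.aeval h g = ((g.eval ⟨h, hh⟩ : H) : Ω) := by
    have := Polynomial.aeval_algebraMap_apply_eq_algebraMap_eval (A := Ω) (⟨h, hh⟩ : H) g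
    exact this
  rw [this]
  exact Subtype.coe_prop _

/-- Maximal subfields with residue field `k` of a spherically complete algebraically closed field are
spherically complete.

Proof. Let `B` be a family of balls as in the definition of `Sph` with centres in `H`, and let `Z`
be the set of all points of `Ω` in all these balls, nonempty by `hΩ`. Suppose `Z` does not meet `H`;
in particular `B` is not empty. If `Z` contains elements algebraic over `H` let `z ∈ Z` be one of
minimal degree `n` over `H`; otherwise let `z ∈ Z` be arbitrary.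
Claim: if `f` is a nonzero polynomial over `H` (of degree less than `n` in the first case) then there
is `h ∈ H` with `‖f(z) - f(h)‖ < ‖f(h)‖`. No root `v` of `f` is in `Z`, since `v` is algebraic over
`H` of degree at most `deg f`. So for every root `v` there is `b v ∈ B` with
`‖v - (b v).1‖ > (b v).2`. If `f` has no roots it is constant, clear. Otherwise let `b` be the ball
among the finitely many `b v` with the smallest radius and `h = b.1`. For every root `v`,
`‖b.1 - (b v).1‖ ≤ max b.2 (b v).2 = (b v).2 < ‖v - (b v).1‖`, so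
`‖v - h‖ = ‖v - (b v).1‖ > (b v).2 ≥ b.2 ≥ ‖z - h‖`; use `close_eval`.
In the first case every element of `adj H z` is `f(z)` with `deg f < n`; in the second case it is
`f(z) / g(z)`. In both cases for `x ≠ 0` there is `h ∈ H` with `‖x - h‖ < ‖x‖`. By
`MaxH.mem_of_unit` we get `z ∈ H`, a contradiction. -/
theorem MaxH.sph {p : ℕ} [IsAlgClosed Ω] {k H : Subfield Ω} (hm : MaxH p k H)
    (hΩ : Sph (Set.univ : Set Ω)) : Sph (H : Set Ω) := by
  classical
  intro B hB hBB
  by_contra hcon
  have hcon' : ∀ x ∈ H, ∃ b ∈ B, b.2 < ‖x - b.1‖ := by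
    intro x hx
    by_contra hx'
    push Not at hx'
    exact hcon ⟨x, hx, hx'⟩
  -- the claim
  have claim : ∀ (z : Ω), (∀ b ∈ B, ‖z - b.1‖ ≤ b.2) → ∀ g : Polynomial H, g ≠ 0 →
      (∀ v : Ω, Polynomial.aeval v g = 0 → ∃ b ∈ B, b.2 < ‖v - b.1‖) →
      ∃ y ∈ H, ‖Polynomial.aeval z g - y‖ < ‖y‖ := by
    intro z hz g hg hroots
    have hg' : g.map (algebraMap H Ω) ≠ 0 := (Polynomial.map_ne_zero_iff
      (algebraMap H Ω).injective).2 hg
    have hae : ∀ v : Ω, (g.map (algebraMap H Ω)).eval v = Polynomial.aeval v g := by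
      intro v
      rw [Polynomial.eval_map_algebraMap]
    obtain ⟨h, hh, hclose⟩ : ∃ h ∈ H, ∀ v, (g.map (algebraMap H Ω)).eval v = 0 →
        ‖z - h‖ < ‖h - v‖ := by
      choose! b hbB hb using hroots
      rcases (g.map (algebraMap H Ω)).roots.toFinset.eq_empty_or_nonempty with he | hne
      · refine ⟨0, H.zero_mem, fun v hv => ?_⟩
        have : v ∈ (g.map (algebraMap H Ω)).roots.toFinset := by
          rw [Multiset.mem_toFinset]
          exact (Polynomial.mem_roots hg').2 hv
        rw [he] at this
        exact absurd this (Finset.notMem_empty v)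
      · obtain ⟨v0, hv0, hmin⟩ := Finset.exists_min_image
          (g.map (algebraMap H Ω)).roots.toFinset (fun v => (b v).2) hne
        have hr0 : ∀ v ∈ (g.map (algebraMap H Ω)).roots.toFinset,
            Polynomial.aeval v g = 0 := by
          intro v hv
          rw [Multiset.mem_toFinset] at hv
          rw [← hae]
          exact (Polynomial.mem_roots'.1 hv).2
        refine ⟨(b v0).1, hB _ (hbB v0 (hr0 v0 hv0)), fun v hv => ?_⟩
        have hvm : v ∈ (g.map (algebraMap H Ω)).roots.toFinset := by
          rw [Multiset.mem_toFinset]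
          exact (Polynomial.mem_roots hg').2 hv
        have hb0 := hbB v0 (hr0 v0 hv0)
        have hbv := hbB v (hr0 v hvm)
        have h1 : ‖(b v0).1 - (b v).1‖ ≤ (b v).2 :=
          (hBB _ hb0 _ hbv).trans (max_le (hmin v hvm) le_rfl)
        have h2 := hb v (hr0 v hvm)
        have h3 : (b v).2 < ‖(b v0).1 - v‖ := by
          by_contra h4
          rw [not_lt] at h4
          have h5 : ‖v - (b v).1‖ ≤ (b v).2 := by
            have e : v - (b v).1 = -((b v0).1 - v) + ((b v0).1 - (b v).1) := by ring
            rw [e]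
            refine (IsUltrametricDist.norm_add_le_max _ _).trans (max_le ?_ h1)
            rw [norm_neg]
            exact h4
          exact absurd h2 (not_lt.2 h5)
        exact lt_of_le_of_lt ((hz _ hb0).trans (hmin v hvm)) h3
    have h6 := close_eval hg' hclose
    rw [hae, hae] at h6
    exact ⟨Polynomial.aeval h g, Kap_aeval g hh, h6⟩
  obtain ⟨z0, -, hz0⟩ := hΩ B (fun _ _ => Set.mem_univ _) hBB
  by_cases halg : ∃ n : ℕ, ∃ z : Ω, (∀ b ∈ B, ‖z - b.1‖ ≤ b.2) ∧
      ∃ f : Polynomial H, f ≠ 0 ∧ f.natDegree = n ∧ Polynomial.aeval z f = 0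
  · -- algebraic case
    obtain ⟨z, hz, f, hf0, hfn, hfz⟩ := Nat.find_spec halg
    have hmin : ∀ g : Polynomial H, g ≠ 0 → g.natDegree < Nat.find halg →
        ∀ v : Ω, Polynomial.aeval v g = 0 → ∃ b ∈ B, b.2 < ‖v - b.1‖ := by
      intro g hg hgn v hv
      by_contra hv'
      push Not at hv'
      exact Nat.find_min halg hgn ⟨v, hv', g, hg, rfl, hv⟩
    have hzH : z ∈ H := by
      refine hm.mem_of_unit fun x hx hx1 => ?_
      have hx' := Kap_adj hx
      have halgz : IsAlgebraic H z := ⟨f, hf0, hfz⟩
      have hx2 : x ∈ (IntermediateField.adjoin H ({z} : Set Ω)).toSubalgebra := hx'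
      rw [IntermediateField.adjoin_simple_toSubalgebra_of_isAlgebraic halgz,
        Algebra.adjoin_singleton_eq_range_aeval] at hx2
      obtain ⟨r, hr⟩ := hx2
      have hr' : Polynomial.aeval z r = x := hr
      have hmod : Polynomial.aeval z (r % f) = x := by
        have e := EuclideanDomain.mod_add_div r f
        have e2 : Polynomial.aeval z r = Polynomial.aeval z (r % f) := by
          conv_lhs => rw [← e]
          rw [map_add, map_mul, hfz, zero_mul, add_zero]
        rw [← e2, hr']
      have hx0 : x ≠ 0 := by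
        intro h0
        rw [h0, norm_zero] at hx1
        exact zero_ne_one hx1
      have hg0 : r % f ≠ 0 := by
        intro h0
        rw [h0, map_zero] at hmod
        exact hx0 hmod.symm
      have hdeg : (r % f).natDegree < Nat.find halg := by
        rw [← hfn]
        exact Polynomial.natDegree_lt_natDegree hg0 (EuclideanDomain.mod_lt r hf0)
      obtain ⟨y, hy, hxy⟩ := claim z hz (r % f) hg0 (hmin _ hg0 hdeg)
      rw [hmod] at hxy
      refine ⟨y, hy, ?_⟩
      have hy1 : ‖y‖ ≤ 1 := by
        by_contra h1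
        rw [not_le] at h1
        have h2 : ‖y‖ ≤ Max.max ‖y - x‖ ‖x‖ := by
          have e : y = (y - x) + x := by ring
          conv_lhs => rw [e]
          exact IsUltrametricDist.norm_add_le_max _ _
        rw [hx1, norm_sub_rev] at h2
        rcases le_max_iff.1 h2 with h3 | h3
        · exact absurd hxy (not_lt.2 h3)
        · exact absurd h1 (not_lt.2 h3)
      exact lt_of_lt_of_le hxy hy1
    obtain ⟨b, hb, hb2⟩ := hcon' z hzH
    exact absurd hb2 (not_lt.2 (hz b hb))
  · -- transcendental case
    push Not at halg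
    have hroots : ∀ g : Polynomial H, g ≠ 0 →
        ∀ v : Ω, Polynomial.aeval v g = 0 → ∃ b ∈ B, b.2 < ‖v - b.1‖ := by
      intro g hg v hv
      by_contra hv'
      push Not at hv'
      exact halg g.natDegree v hv' g hg rfl hv
    have hzH : z0 ∈ H := by
      refine hm.mem_of_unit fun x hx hx1 => ?_
      obtain ⟨r, s, hrs⟩ := (IntermediateField.mem_adjoin_simple_iff H x).1 (Kap_adj hx)
      have hx0 : x ≠ 0 := by
        intro h0
        rw [h0, norm_zero] at hx1
        exact zero_ne_one hx1
      have hr0 : r ≠ 0 := by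
        rintro rfl
        rw [map_zero, zero_div] at hrs
        exact hx0 hrs
      have hs0 : s ≠ 0 := by
        rintro rfl
        rw [map_zero, div_zero] at hrs
        exact hx0 hrs
      obtain ⟨a, ha, h1⟩ := claim z0 hz0 r hr0 (hroots r hr0)
      obtain ⟨c, hc, h2⟩ := claim z0 hz0 s hs0 (hroots s hs0)
      set R := Polynomial.aeval z0 r
      set S := Polynomial.aeval z0 s
      have ha0 : 0 < ‖a‖ := lt_of_le_of_lt (norm_nonneg _) h1
      have hc0 : 0 < ‖c‖ := lt_of_le_of_lt (norm_nonneg _) h2
      have hRa : ‖R‖ = ‖a‖ := by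
        have := IsUltrametricDist.norm_add_eq_max_of_norm_ne_norm (x := R - a) (y := a) h1.ne
        rw [sub_add_cancel, max_eq_right h1.le] at this
        exact this
      have hSc : ‖S‖ = ‖c‖ := by
        have := IsUltrametricDist.norm_add_eq_max_of_norm_ne_norm (x := S - c) (y := c) h2.ne
        rw [sub_add_cancel, max_eq_right h2.le] at this
        exact this
      have hS0 : S ≠ 0 := norm_pos_iff.1 (by rw [hSc]; exact hc0)
      have hc' : c ≠ 0 := norm_pos_iff.1 hc0
      refine ⟨a / c, div_mem ha hc, ?_⟩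
      have hac : ‖a‖ = ‖c‖ := by
        rw [hrs, norm_div, hRa, hSc, div_eq_one_iff_eq hc0.ne'] at hx1
        exact hx1
      have e : x - a / c = ((R - a) * c - a * (S - c)) / (S * c) := by
        rw [hrs]
        field_simp
        ring
      rw [e, norm_div, norm_mul S c, hSc, div_lt_one (mul_pos hc0 hc0), sub_eq_add_neg]
      refine lt_of_le_of_lt (IsUltrametricDist.norm_add_le_max _ _) (max_lt ?_ ?_)
      · rw [norm_mul]
        refine mul_lt_mul_of_pos_right ?_ hc0
        rw [← hac]
        exact h1
      · rw [norm_neg, norm_mul, hac]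
        exact mul_lt_mul_of_pos_left h2 hc0
    obtain ⟨b, hb, hb2⟩ := hcon' z0 hzH
    exact absurd hb2 (not_lt.2 (hz0 b hb))

end Pool.Agent.R4U
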