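import Pool.Agent.Lib.MP_4ed7e0_lc_U.NAlg

/-!
# MP_4ed7e0_lc, project U: power bases
-/

set_option autoImplicit false

namespace Pool.Agent.R4U

universe u

variable {Ω : Type u} [NormedField Ω]

private theorem PE_mem_iff {A : Subfield Ω} {θ x : Ω} :
    x ∈ adj A θ ↔ x ∈ IntermediateField.adjoin A {θ} := by
  have h : Set.range (algebraMap A Ω) = (A : Set Ω) := by
    ext y
    constructor
    · rintro ⟨z, rfl⟩
      exact z.2
    · intro hy
      exact ⟨⟨y, hy⟩, rfl⟩
  have h2 : (IntermediateField.adjoin A {θ}).toSubfield = adj A θ := by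
    unfold adj
    rw [IntermediateField.adjoin_toSubfield, h]
  rw [← h2]
  rfl

/-- Elements of `A(θ)` for `θ` algebraic over `k ≤ A` are polynomials in `θ` of degree less than the
degree of `θ` over `k`.

Proof. Let `q = minpoly k θ`. The set of the sums `∑ i, a i * θ ^ i`, `a i ∈ A`, is a subring which
contains `A` and `θ` (reduce `θ ^ n` with the monic relation `q`, whose coefficients are in
`k ≤ A`); it is an integral domain, finite-dimensional over `A`, so a field. Or: `adj A θ` is
`(IntermediateField.adjoin A {θ})` as a set, `θ` is integral over `A`, and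
`IntermediateField.adjoin A {θ} = Algebra.adjoin A {θ}` consists of the polynomials in `θ`; divide
by the image of `q` with remainder (`Polynomial.modByMonic`, degree of the remainder less than the
degree of `q`). -/
theorem adj_rep {k A : Subfield Ω} (hkA : k ≤ A) {θ : Ω} (hθ : θ ∈ abar k) {x : Ω}
    (hx : x ∈ adj A θ) : ∃ a : Fin (minpoly k θ).natDegree → Ω, (∀ i, a i ∈ A) ∧
      x = ∑ i, a i * θ ^ (i : ℕ) := by
  have hθi : IsIntegral k θ := by
    have h := hθ
    unfold abar at h
    exact (mem_algebraicClosure_iff.mp h).isIntegral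
  set q := (minpoly k θ).map (Subfield.inclusion hkA) with hq
  have hqm : q.Monic := (minpoly.monic hθi).map _
  have hcomp : (algebraMap A Ω).comp (Subfield.inclusion hkA) = algebraMap k Ω := rfl
  have hq0 : Polynomial.aeval θ q = 0 := by
    rw [hq, Polynomial.aeval_def, Polynomial.eval₂_map, hcomp, ← Polynomial.aeval_def,
      minpoly.aeval]
  have hθA : IsIntegral A θ := ⟨q, hqm, by rw [← Polynomial.aeval_def]; exact hq0⟩
  rw [PE_mem_iff] at hx
  have hx2 : x ∈ Algebra.adjoin A {θ} := by
    rw [← IntermediateField.adjoin_simple_toSubalgebra_of_isAlgebraic hθA.isAlgebraic]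
    exact hx
  rw [Algebra.adjoin_singleton_eq_range_aeval] at hx2
  obtain ⟨P, hP⟩ := hx2
  have hdeg : q.natDegree = (minpoly k θ).natDegree := by
    rw [hq, Polynomial.natDegree_map]
  have hpos : 0 < q.natDegree := by
    rw [hdeg]
    exact minpoly.natDegree_pos hθi
  have hq1 : q ≠ 1 := by
    intro h
    rw [h, Polynomial.natDegree_one] at hpos
    exact lt_irrefl 0 hpos
  have hlt : (P %ₘ q).natDegree < (minpoly k θ).natDegree := by
    rw [← hdeg]
    exact Polynomial.natDegree_modByMonic_lt P hqm hq1
  have hval : x = Polynomial.aeval θ (P %ₘ q) := by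
    have h1 : Polynomial.aeval θ P = x := hP
    rw [← h1]
    conv_lhs => rw [← Polynomial.modByMonic_add_div P q]
    rw [map_add, map_mul, hq0, zero_mul, add_zero]
  refine ⟨fun i => ((P %ₘ q).coeff i : A), fun i => ((P %ₘ q).coeff i).2, ?_⟩
  rw [hval, Polynomial.aeval_eq_sum_range' hlt, Finset.sum_range]
  rfl

/-- Proof. `adj_rep`, the powers of `θ` are in `abar k`. -/
theorem adj_spn {k A : Subfield Ω} (hkA : k ≤ A) {θ : Ω} (hθ : θ ∈ abar k) {x : Ω}
    (hx : x ∈ adj A θ) : x ∈ spn A k := by
  obtain ⟨a, ha, rfl⟩ := adj_rep hkA hθ hx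
  refine Submodule.sum_mem _ fun i _ => ?_
  have h : a i * θ ^ (i : ℕ) = (⟨a i, ha i⟩ : A) • θ ^ (i : ℕ) := rfl
  rw [h]
  exact Submodule.smul_mem _ _ (Submodule.subset_span (pow_mem hθ _))

theorem le_adj (A : Subfield Ω) (x : Ω) : A ≤ adj A x := by
  intro y hy
  exact Subfield.subset_closure (Or.inl hy)

theorem mem_adj (A : Subfield Ω) (x : Ω) : x ∈ adj A x :=
  Subfield.subset_closure (Or.inr rfl)

theorem adj_le {A B : Subfield Ω} {x : Ω} (h : A ≤ B) (hx : x ∈ B) : adj A x ≤ B := by
  unfold adj
  rw [Subfield.closure_le]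
  rintro y (hy | hy)
  · exact h hy
  · rw [Set.mem_singleton_iff.mp hy]
    exact hx

/-- Proof. Membership in `Subfield.closure`. -/
theorem adj_mono {A B : Subfield Ω} (h : A ≤ B) (x : Ω) : adj A x ≤ adj B x :=
  adj_le (h.trans (le_adj B x)) (mem_adj B x)

/-- Finitely many elements of the `A`-span of the algebraic closure of `k` lie in `A(θ)` with
`k(θ)` normal over `k`.

Proof. Each `w j` is a finite sum of products of elements of `A` and of `abar k`. Let `k'` be
the subfield generated over `k` by the finitely many elements of `abar k` which occur and all the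
roots in `Ω` of their minimal polynomials over `k`; it is normal and finite over `k` (as
an `IntermediateField k Ω`: `IntermediateField.adjoin k` of the root sets,
`IntermediateField.normal_iff_forall_map_le` or `Normal.of_isSplittingField`). The field `k` is
perfect (`hk`, `PerfectField`, characteristic `p`), so `k'` is separable and has a primitive
element `θ` over `k` (`Field.exists_primitive_element`), and `adj k θ = k'` as sets. -/
theorem pe_fin (p : ℕ) [Fact p.Prime] [CharP Ω p] [IsAlgClosed Ω] {k A : Subfield Ω} (hkA : k ≤ A)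
    (hk : Perf p k) {m : ℕ} (w : Fin m → Ω) (hw : ∀ j, w j ∈ spn A k) :
    ∃ θ ∈ abar k, (∀ θ', Polynomial.aeval θ' (minpoly k θ) = 0 → θ' ∈ adj k θ) ∧
      ∀ j, w j ∈ adj A θ := by
  classical
  -- finite generating set
  have h1 : ∀ j, ∃ T : Finset Ω, (T : Set Ω) ⊆ (abar k : Set Ω) ∧
      w j ∈ Submodule.span A (T : Set Ω) := fun j =>
    Submodule.mem_span_finite_of_mem_span (hw j)
  choose T hT hwT using h1
  set S : Finset Ω := Finset.univ.biUnion T with hS
  have hSa : (S : Set Ω) ⊆ (abar k : Set Ω) := by
    intro y hy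
    rw [hS, Finset.coe_biUnion] at hy
    simp only [Finset.coe_univ, Set.mem_univ, Set.iUnion_true, Set.mem_iUnion] at hy
    obtain ⟨j, hj⟩ := hy
    exact hT j hj
  have hint : ∀ y ∈ (S : Set Ω), IsIntegral k y := by
    intro y hy
    have h := hSa hy
    exact (mem_algebraicClosure_iff.mp h).isIntegral
  -- perfectness
  have : CharP k p := Subfield.charP k p
  have : ExpChar k p := ExpChar.prime Fact.out
  have : PerfectRing k p := by
    refine PerfectRing.ofSurjective k p ?_
    intro x
    obtain ⟨y, hy, hyx⟩ := hk x x.2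
    exact ⟨⟨y, hy⟩, Subtype.ext hyx⟩
  have : PerfectField k := PerfectRing.toPerfectField k p
  -- the field generated
  set F0 : IntermediateField k Ω := IntermediateField.adjoin k (S : Set Ω) with hF0
  have : Finite (S : Set Ω) := S.finite_toSet
  have hfin0 : FiniteDimensional k F0 := IntermediateField.finiteDimensional_adjoin hint
  set F : IntermediateField k Ω := IntermediateField.normalClosure k F0 Ω with hF
  have : Normal k F :=
    (Algebra.IsAlgebraic.isNormalClosure_normalClosure (F := k) (K := F0) (L := Ω)
      (fun x => IsAlgClosed.splits _)).normal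
  have : FiniteDimensional k F := inferInstance
  have : Algebra.IsSeparable k F := inferInstance
  obtain ⟨α, hα⟩ := Field.exists_primitive_element k F
  have hFmem : ∀ y : Ω, y ∈ F → y ∈ adj k (α : Ω) := by
    intro y hy
    rw [PE_mem_iff]
    have h2 : (⟨y, hy⟩ : F) ∈ IntermediateField.adjoin k {α} := by
      rw [hα]; trivial
    have h3 : IntermediateField.map F.val (IntermediateField.adjoin k {α}) =
        IntermediateField.adjoin k {(α : Ω)} := by
      rw [IntermediateField.adjoin_map]
      simp
    rw [← h3]
    exact ⟨⟨y, hy⟩, h2, rfl⟩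
  have hF0F : F0 ≤ F := IntermediateField.le_normalClosure F0
  have hαint : IsIntegral k (α : Ω) := by
    have := Algebra.IsIntegral.isIntegral (R := k) α
    exact this.map F.val
  refine ⟨(α : Ω), ?_, ?_, ?_⟩
  · exact mem_algebraicClosure_iff.mpr hαint.isAlgebraic
  · intro θ' hθ'
    apply hFmem
    have hmin : minpoly k (α : Ω) = minpoly k α := by
      exact minpoly.algebraMap_eq (algebraMap F Ω).injective α
    have hspl : ((minpoly k α).map (algebraMap k F)).Splits := Normal.splits inferInstance α
    rw [hmin] at hθ'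
    have hne : (minpoly k α).map (algebraMap k F) ≠ 0 :=
      Polynomial.map_ne_zero (minpoly.ne_zero (Algebra.IsIntegral.isIntegral α))
    have hroot : Polynomial.IsRoot (((minpoly k α).map (algebraMap k F)).map (algebraMap F Ω))
        θ' := by
      rw [Polynomial.map_map, ← IsScalarTower.algebraMap_eq k F Ω, Polynomial.IsRoot.def,
        Polynomial.eval_map, ← Polynomial.aeval_def]
      exact hθ'
    obtain ⟨z, hz⟩ := hspl.mem_range_of_isRoot hne hroot
    rw [← hz]
    exact z.2
  · intro j
    have hsub : (T j : Set Ω) ⊆ (adj A (α : Ω) : Set Ω) := by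
      intro y hy
      have hyS : y ∈ (S : Set Ω) := by
        rw [hS, Finset.coe_biUnion]
        simp only [Finset.coe_univ, Set.mem_univ, Set.iUnion_true, Set.mem_iUnion]
        exact ⟨j, hy⟩
      exact adj_mono hkA _ (hFmem y (hF0F (IntermediateField.subset_adjoin k _ hyS)))
    have hA : ∀ y ∈ Submodule.span A (T j : Set Ω), y ∈ adj A (α : Ω) := by
      intro y hy
      induction hy using Submodule.span_induction with
      | mem x hx => exact hsub hx
      | zero => exact zero_mem _
      | add x y _ _ hx hy => exact add_mem hx hy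
      | smul a x _ hx =>
        have h5 : a • x = (a : Ω) * x := rfl
        rw [h5]
        exact mul_mem (le_adj A _ a.2) hx
    exact hA _ (hwT j)

theorem le_cl (A : Subfield Ω) (x : Ω) : A ≤ cl A x :=
  (le_adj A x).trans (Subfield.le_topologicalClosure _)

theorem mem_cl (A : Subfield Ω) (x : Ω) : x ∈ cl A x :=
  Subfield.le_topologicalClosure _ (mem_adj A x)

theorem isClosed_cl (A : Subfield Ω) (x : Ω) : IsClosed (cl A x : Set Ω) :=
  Subfield.isClosed_topologicalClosure _

/-- Proof. `Subfield.topologicalClosure_minimal`. -/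
theorem cl_le {A B : Subfield Ω} {x : Ω} (hB : IsClosed (B : Set Ω)) (h : A ≤ B) (hx : x ∈ B) :
    cl A x ≤ B :=
  Subfield.topologicalClosure_minimal _ (adj_le h hx) hB

end Pool.Agent.R4U
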