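import Pool.Agent.Lib.MP_4ed7e0_lc_U.MaxH

/-!
# MP_4ed7e0_lc, project U: the values of a maximal field
-/

set_option autoImplicit false

namespace Pool.Agent.R4U

universe u

variable {Ω : Type u} [NormedField Ω] [IsUltrametricDist Ω]

/-- Sums of terms with pairwise different norms.

Proof. Let `j` be the index with the largest norm `‖f j‖` among the nonzero terms; the sum of the
others has a smaller norm. -/
theorem unique_dom {ι : Type*} (s : Finset ι) (f : ι → Ω)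
    (h : ∀ i ∈ s, ∀ j ∈ s, i ≠ j → f i ≠ 0 → ‖f i‖ ≠ ‖f j‖) (hne : ∃ i ∈ s, f i ≠ 0) :
    ∃ j ∈ s, f j ≠ 0 ∧ (∀ i ∈ s, i ≠ j → ‖f i‖ < ‖f j‖) ∧ ‖∑ i ∈ s, f i - f j‖ < ‖f j‖ ∧
      ‖∑ i ∈ s, f i‖ = ‖f j‖ := by
  classical
  obtain ⟨i0, hi0, hi0'⟩ := hne
  obtain ⟨j, hj, hmax⟩ := s.exists_max_image (fun i => ‖f i‖) ⟨i0, hi0⟩
  have hfj : 0 < ‖f j‖ := lt_of_lt_of_le (norm_pos_iff.2 hi0') (hmax i0 hi0)
  have hfj0 : f j ≠ 0 := norm_pos_iff.1 hfj
  have hlt : ∀ i ∈ s, i ≠ j → ‖f i‖ < ‖f j‖ := fun i hi hij =>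
    lt_of_le_of_ne (hmax i hi) (fun e => h j hj i hi (Ne.symm hij) hfj0 e.symm)
  have hdiff : ‖∑ i ∈ s, f i - f j‖ < ‖f j‖ := by
    have e : ∑ i ∈ s, f i - f j = ∑ i ∈ s.erase j, f i := by
      rw [← Finset.add_sum_erase s f hj]
      ring
    rw [e]
    rcases (s.erase j).eq_empty_or_nonempty with h0 | h1
    · rw [h0]
      simpa using hfj
    · obtain ⟨i, hi, hi2⟩ := IsUltrametricDist.exists_norm_finsetSum_le_of_nonempty h1 f
      rw [Finset.mem_erase] at hi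
      exact lt_of_le_of_lt hi2 (hlt i hi.2 hi.1)
  refine ⟨j, hj, hfj0, hlt, hdiff, ?_⟩
  have e : ∑ i ∈ s, f i = (∑ i ∈ s, f i - f j) + f j := by ring
  rw [e, IsUltrametricDist.norm_add_eq_max_of_norm_ne_norm hdiff.ne]
  exact max_eq_right hdiff.le

private lemma val_adj_le (H : Subfield Ω) (w : Ω) {x : Ω} (hx : x ∈ adj H w) :
    x ∈ IntermediateField.adjoin H {w} := by
  have h : adj H w ≤ (IntermediateField.adjoin H {w}).toSubfield := by
    unfold adj
    rw [Subfield.closure_le]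
    rintro y (hy | hy)
    · exact (IntermediateField.adjoin H {w}).algebraMap_mem ⟨y, hy⟩
    · rw [Set.mem_singleton_iff] at hy
      rw [hy]
      exact IntermediateField.mem_adjoin_simple_self H w
  exact h hx

private lemma val_adj_sum (H : Subfield Ω) {w h : Ω} (hh : h ∈ H) {n : ℕ} (hn : 0 < n)
    (hw : w ^ n = h) {x : Ω} (hx : x ∈ adj H w) :
    ∃ a : ℕ → Ω, (∀ i, a i ∈ H) ∧ x = ∑ i ∈ Finset.range n, a i * w ^ i := by
  have hmon : (Polynomial.X ^ n - Polynomial.C (⟨h, hh⟩ : H)).Monic :=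
    Polynomial.monic_X_pow_sub_C _ hn.ne'
  have hroot : Polynomial.aeval w (Polynomial.X ^ n - Polynomial.C (⟨h, hh⟩ : H)) = 0 := by
    simp only [map_sub, map_pow, Polynomial.aeval_X, Polynomial.aeval_C]
    rw [hw]
    exact sub_self _
  have hdeg : (Polynomial.X ^ n - Polynomial.C (⟨h, hh⟩ : H)).natDegree = n :=
    Polynomial.natDegree_X_pow_sub_C
  have halg : IsAlgebraic H w := ⟨_, hmon.ne_zero, hroot⟩
  have h1 := val_adj_le H w hx
  rw [← IntermediateField.mem_toSubalgebra,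
    IntermediateField.adjoin_simple_toSubalgebra_of_isAlgebraic halg,
    Algebra.adjoin_singleton_eq_range_aeval] at h1
  obtain ⟨q, hq⟩ := h1
  have hq' : Polynomial.aeval w q = x := hq
  have hne1 : (Polynomial.X ^ n - Polynomial.C (⟨h, hh⟩ : H)) ≠ 1 := by
    intro e
    rw [e, Polynomial.natDegree_one] at hdeg
    omega
  have hlt := Polynomial.natDegree_modByMonic_lt q hmon hne1
  rw [hdeg] at hlt
  refine ⟨fun i => ((q %ₘ (Polynomial.X ^ n - Polynomial.C (⟨h, hh⟩ : H))).coeff i : H),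
    fun i => SetLike.coe_mem _, ?_⟩
  rw [← hq', ← Polynomial.aeval_modByMonic_eq_self_of_root hroot,
    Polynomial.aeval_eq_sum_range' hlt]
  rfl

private lemma val_lead_poly (H : Subfield Ω) {w : Ω} (hw : w ≠ 0)
    (hH : ∀ n : ℕ, 0 < n → ∀ h ∈ H, ‖h‖ ≠ ‖w‖ ^ n) (q : Polynomial H)
    (hq : Polynomial.aeval w q ≠ 0) :
    ∃ (j : ℕ) (a : Ω), a ∈ H ∧ a ≠ 0 ∧ ‖Polynomial.aeval w q - a * w ^ j‖ < ‖a * w ^ j‖ ∧
      ‖Polynomial.aeval w q‖ = ‖a * w ^ j‖ := by
  have e : Polynomial.aeval w q =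
      ∑ i ∈ Finset.range (q.natDegree + 1), ((q.coeff i : H) : Ω) * w ^ i := by
    rw [Polynomial.aeval_eq_sum_range' (Nat.lt_succ_self _)]
    rfl
  have hw0 : 0 < ‖w‖ := norm_pos_iff.2 hw
  have key : ∀ i j : ℕ, i < j → ((q.coeff i : H) : Ω) * w ^ i ≠ 0 →
      ‖((q.coeff i : H) : Ω) * w ^ i‖ ≠ ‖((q.coeff j : H) : Ω) * w ^ j‖ := by
    intro i j hij hi0 heq
    have hj0 : ((q.coeff j : H) : Ω) * w ^ j ≠ 0 := by
      rw [← norm_pos_iff, ← heq]
      exact norm_pos_iff.2 hi0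
    have hcj : ((q.coeff j : H) : Ω) ≠ 0 := left_ne_zero_of_mul hj0
    have hcj' : 0 < ‖((q.coeff j : H) : Ω)‖ := norm_pos_iff.2 hcj
    refine hH (j - i) (by omega) (((q.coeff i : H) : Ω) / ((q.coeff j : H) : Ω))
      (H.div_mem (SetLike.coe_mem _) (SetLike.coe_mem _)) ?_
    rw [norm_div, div_eq_iff hcj'.ne']
    rw [norm_mul, norm_mul, norm_pow, norm_pow] at heq
    have hp : 0 < ‖w‖ ^ i := pow_pos hw0 i
    have e2 : ‖w‖ ^ j = ‖w‖ ^ (j - i) * ‖w‖ ^ i := by
      rw [← pow_add]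
      congr 1
      omega
    rw [e2] at heq
    have := mul_right_cancel₀ hp.ne' (heq.trans (by ring :
      ‖((q.coeff j : H) : Ω)‖ * (‖w‖ ^ (j - i) * ‖w‖ ^ i) =
        (‖w‖ ^ (j - i) * ‖((q.coeff j : H) : Ω)‖) * ‖w‖ ^ i))
    exact this
  obtain ⟨j, hj, hj0, -, hj1, hj2⟩ := unique_dom (Finset.range (q.natDegree + 1))
    (fun i => ((q.coeff i : H) : Ω) * w ^ i) (by
      intro i _ j _ hij hi0 heq
      rcases lt_or_gt_of_ne hij with h1 | h1
      · exact key i j h1 hi0 heq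
      · refine key j i h1 ?_ heq.symm
        rw [← norm_pos_iff]
        have : 0 < ‖((q.coeff i : H) : Ω) * w ^ i‖ := norm_pos_iff.2 hi0
        rw [heq] at this
        exact this) (by
      by_contra hcon
      push Not at hcon
      apply hq
      rw [e]
      exact Finset.sum_eq_zero hcon)
  rw [← e] at hj1 hj2
  exact ⟨j, ((q.coeff j : H) : Ω), SetLike.coe_mem _, left_ne_zero_of_mul hj0, hj1, hj2⟩

private lemma val_quot_close {f g a b v : Ω} (ha : a ≠ 0) (hb : b ≠ 0) (hv : v ≠ 0)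
    (hab : ‖a‖ = ‖b‖) (h1 : ‖f - a * v‖ < ‖a * v‖) (h2 : ‖g - b * v‖ < ‖b * v‖)
    (hg : ‖g‖ = ‖b * v‖) : ‖f / g - a / b‖ < 1 := by
  have hbv : 0 < ‖b * v‖ := norm_pos_iff.2 (mul_ne_zero hb hv)
  have hg0 : g ≠ 0 := by
    rw [← norm_pos_iff, hg]
    exact hbv
  have hb0 : 0 < ‖b‖ := norm_pos_iff.2 hb
  have ha0 : 0 < ‖a‖ := norm_pos_iff.2 ha
  have e : f / g - a / b = ((f - a * v) * b + -((g - b * v) * a)) / (g * b) := by
    field_simp
    ring
  rw [e, norm_div, div_lt_one (norm_pos_iff.2 (mul_ne_zero hg0 hb))]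
  refine lt_of_le_of_lt (IsUltrametricDist.norm_add_le_max _ _) ?_
  rw [norm_neg]
  refine max_lt ?_ ?_
  · rw [norm_mul, norm_mul, hg]
    refine mul_lt_mul_of_pos_right ?_ hb0
    rw [norm_mul] at h1 ⊢
    rw [← hab]
    exact h1
  · rw [norm_mul, norm_mul, hg, hab]
    exact mul_lt_mul_of_pos_right h2 hb0

/-- Every norm of an element of `Ω` is the norm of an element of a maximal field `H`.

Proof. Suppose not, `‖w‖ ≠ ‖h‖` for all `h ∈ H`. The set of the `n ≥ 1` with `‖w‖ ^ n = ‖h‖` for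
some `h ∈ H` may be nonempty or empty.
(a) Nonempty; let `n` be the smallest element, `n ≥ 2`, and `‖w‖ ^ n = ‖h‖`. Replace `w` by a root
`w'` of `X ^ n - h`, `‖w'‖ = ‖w‖`. Every element of `adj H w'` is a sum `∑ i < n, a i * w' ^ i`,
`a i ∈ H` (`w'` is integral over `H` of degree at most `n`). Nonzero terms have different norms:
`‖a i * w' ^ i‖ = ‖a j * w' ^ j‖`, `i < j`, gives `‖w‖ ^ (j - i) ∈ ‖H‖`, `0 < j - i < n`. So if
`‖x‖ = 1` for such a sum `x` then the dominating term (`unique_dom`) has index `0` (otherwise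
`‖w‖ ^ j = ‖(a j)⁻¹‖`), and `‖x - a 0‖ < 1`. By `MaxH.mem_of_unit` `w' ∈ H`, contradiction.
(b) Empty. For a nonzero polynomial `f` over `H` the value `f(w)` has a unique dominating term
`a j * w ^ j`. Elements of `adj H w` are quotients `x = f(w) / g(w)` (or `0`), so
`x = (a / b) * w ^ m * (1 + ε)` with `a, b ∈ H`, `m ∈ ℤ`, `‖ε‖ < 1`. If `‖x‖ = 1` then `m = 0`
(otherwise a positive power of `‖w‖` is in `‖H‖`) and `‖x - a / b‖ < 1`. Again `w ∈ H`. -/
theorem MaxH.val {p : ℕ} [IsAlgClosed Ω] {k H : Subfield Ω} (hm : MaxH p k H) {w : Ω}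
    (hw : w ≠ 0) : ∃ h ∈ H, ‖h‖ = ‖w‖ := by
  classical
  by_contra hcon
  push Not at hcon
  have hw0 : 0 < ‖w‖ := norm_pos_iff.2 hw
  by_cases hex : ∃ n : ℕ, 0 < n ∧ ∃ h ∈ H, ‖h‖ = ‖w‖ ^ n
  · obtain ⟨hn0, h, hh, hhn⟩ := Nat.find_spec hex
    have hmin : ∀ m : ℕ, 0 < m → m < Nat.find hex → ∀ g ∈ H, ‖g‖ ≠ ‖w‖ ^ m :=
      fun m hm0 hm1 g hg he => Nat.find_min hex hm1 ⟨hm0, g, hg, he⟩
    generalize Nat.find hex = n at *
    obtain ⟨z, hz⟩ := IsAlgClosed.exists_pow_nat_eq h hn0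
    have hzn : ‖z‖ = ‖w‖ := by
      have : ‖z‖ ^ n = ‖w‖ ^ n := by rw [← norm_pow, hz, hhn]
      exact (pow_left_inj₀ (norm_nonneg _) (norm_nonneg _) hn0.ne').1 this
    have hz0 : z ≠ 0 := by
      rw [← norm_pos_iff, hzn]
      exact hw0
    refine hcon z (hm.mem_of_unit ?_) hzn
    intro x hx hx1
    obtain ⟨a, ha, hxa⟩ := val_adj_sum H hh hn0 hz hx
    have key : ∀ i j : ℕ, i < j → j < n → a i * z ^ i ≠ 0 →
        ‖a i * z ^ i‖ ≠ ‖a j * z ^ j‖ := by
      intro i j hij hjn hi0 heq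
      have hj0 : a j * z ^ j ≠ 0 := by
        rw [← norm_pos_iff, ← heq]
        exact norm_pos_iff.2 hi0
      have hcj' : 0 < ‖a j‖ := norm_pos_iff.2 (left_ne_zero_of_mul hj0)
      refine hmin (j - i) (by omega) (by omega) (a i / a j) (H.div_mem (ha i) (ha j)) ?_
      rw [norm_div, div_eq_iff hcj'.ne']
      rw [norm_mul, norm_mul, norm_pow, norm_pow, hzn] at heq
      have hp : 0 < ‖w‖ ^ i := pow_pos hw0 i
      have e2 : ‖w‖ ^ j = ‖w‖ ^ (j - i) * ‖w‖ ^ i := by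
        rw [← pow_add]
        congr 1
        omega
      rw [e2] at heq
      exact mul_right_cancel₀ hp.ne' (heq.trans (by ring :
        ‖a j‖ * (‖w‖ ^ (j - i) * ‖w‖ ^ i) = (‖w‖ ^ (j - i) * ‖a j‖) * ‖w‖ ^ i))
    obtain ⟨j, hj, hj0, -, hj1, hj2⟩ := unique_dom (Finset.range n)
      (fun i => a i * z ^ i) (by
        intro i hi j hj hij hi0 heq
        rw [Finset.mem_range] at hi hj
        rcases lt_or_gt_of_ne hij with h1 | h1
        · exact key i j h1 hj hi0 heq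
        · refine key j i h1 hi ?_ heq.symm
          rw [← norm_pos_iff]
          have : 0 < ‖a i * z ^ i‖ := norm_pos_iff.2 hi0
          rw [heq] at this
          exact this) (by
        by_contra hc
        push Not at hc
        have : x = 0 := by
          rw [hxa]
          exact Finset.sum_eq_zero hc
        rw [this, norm_zero] at hx1
        exact zero_ne_one hx1)
    rw [← hxa] at hj1 hj2
    rw [Finset.mem_range] at hj
    rw [hx1] at hj2
    have hjz : j = 0 := by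
      by_contra hne
      refine hmin j (by omega) hj (a j)⁻¹ (H.inv_mem (ha j)) ?_
      have haj : 0 < ‖a j‖ := norm_pos_iff.2 (left_ne_zero_of_mul hj0)
      rw [norm_mul, norm_pow, hzn] at hj2
      rw [norm_inv]
      field_simp
      linarith
    subst hjz
    refine ⟨a 0, ha 0, ?_⟩
    rw [← hj2] at hj1
    simpa using hj1
  · push Not at hex
    refine hcon w (hm.mem_of_unit ?_) rfl
    intro x hx hx1
    obtain ⟨r, s, hrs⟩ := (IntermediateField.mem_adjoin_simple_iff H x).1 (val_adj_le H w hx)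
    have hx0 : x ≠ 0 := by
      rw [← norm_pos_iff, hx1]
      exact one_pos
    have hr0 : Polynomial.aeval w r ≠ 0 := by
      intro e
      rw [e, zero_div] at hrs
      exact hx0 hrs
    have hs0 : Polynomial.aeval w s ≠ 0 := by
      intro e
      rw [e, div_zero] at hrs
      exact hx0 hrs
    obtain ⟨j, a, haH, ha0, haj, haj'⟩ := val_lead_poly H hw hex r hr0
    obtain ⟨i, b, hbH, hb0, hbi, hbi'⟩ := val_lead_poly H hw hex s hs0
    have ha1 : 0 < ‖a‖ := norm_pos_iff.2 ha0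
    have hb1 : 0 < ‖b‖ := norm_pos_iff.2 hb0
    have heq : ‖a‖ * ‖w‖ ^ j = ‖b‖ * ‖w‖ ^ i := by
      rw [hrs, norm_div, div_eq_one_iff_eq (norm_pos_iff.2 hs0).ne', haj', hbi', norm_mul,
        norm_mul, norm_pow, norm_pow] at hx1
      exact hx1
    have hij : i = j := by
      rcases lt_trichotomy i j with h1 | h1 | h1
      · exfalso
        refine hex (j - i) (by omega) (b / a) (H.div_mem hbH haH) ?_
        rw [norm_div, div_eq_iff ha1.ne']
        have e2 : ‖w‖ ^ j = ‖w‖ ^ (j - i) * ‖w‖ ^ i := by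
          rw [← pow_add]
          congr 1
          omega
        rw [e2] at heq
        have hp : 0 < ‖w‖ ^ i := pow_pos hw0 i
        refine mul_right_cancel₀ hp.ne' ?_
        linarith
      · exact h1
      · exfalso
        refine hex (i - j) (by omega) (a / b) (H.div_mem haH hbH) ?_
        rw [norm_div, div_eq_iff hb1.ne']
        have e2 : ‖w‖ ^ i = ‖w‖ ^ (i - j) * ‖w‖ ^ j := by
          rw [← pow_add]
          congr 1
          omega
        rw [e2] at heq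
        have hp : 0 < ‖w‖ ^ j := pow_pos hw0 j
        refine mul_right_cancel₀ hp.ne' ?_
        linarith
    subst hij
    have hab : ‖a‖ = ‖b‖ := mul_right_cancel₀ (pow_pos hw0 i).ne' heq
    refine ⟨a / b, H.div_mem haH hbH, ?_⟩
    rw [hrs]
    exact val_quot_close ha0 hb0 (pow_ne_zero i hw) hab haj hbi hbi'

/-- Proof. For `x ∈ H` let `y ^ n = x` in `Ω` and apply `MaxH.val` to `y` (if `x ≠ 0`). -/
theorem MaxH.dvs {p : ℕ} [IsAlgClosed Ω] {k H : Subfield Ω} (hm : MaxH p k H) : Dvs H := by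
  intro x _ n hn
  obtain ⟨y, hy⟩ := IsAlgClosed.exists_pow_nat_eq x hn
  by_cases hy0 : y = 0
  · refine ⟨0, H.zero_mem, ?_⟩
    rw [← hy, hy0, norm_pow]
  · obtain ⟨h, hh, hhy⟩ := hm.val hy0
    exact ⟨h, hh, by rw [hhy, ← norm_pow, hy]⟩

end Pool.Agent.R4U
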