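import Pool.Agent.Lib.MP_4ed7e0_lc_U.ResAlg
import Pool.Agent.Lib.MP_4ed7e0_lc_U.PE
import Pool.Agent.Lib.MP_4ed7e0_lc_U.Val
import Pool.Agent.Lib.MP_4ed7e0_lc_U.Kap
import Pool.Agent.Lib.MP_4ed7e0_lc_U.BanSph

/-!
# MP_4ed7e0_lc, project U: algebraic extensions of a maximal field are unramified
-/

set_option autoImplicit false

namespace Pool.Agent.R4U

universe u

variable {Ω : Type u} [NormedField Ω] [IsUltrametricDist Ω]

omit [IsUltrametricDist Ω] in
private theorem HAlg_mem_iff {A : Subfield Ω} {θ x : Ω} :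
    x ∈ adj A θ ↔ x ∈ IntermediateField.adjoin A {θ} := by
  have h : Set.range (algebraMap A Ω) = (A : Set Ω) := by
    ext y
    constructor
    · rintro ⟨z, rfl⟩
      exact z.2
    · intro hy
      exact ⟨⟨y, hy⟩, rfl⟩
  have h2 : (IntermediateField.adjoin A {θ}).toSubfield = adj A θ := by
    unfold adj
    rw [IntermediateField.adjoin_toSubfield, h]
  rw [← h2]
  rfl

/-- Finite extensions of closed subfields are closed.

Proof. `A` with the induced norm is complete. If its norm is trivial, then so is ... this case is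
excluded by `hnt`: `A` is a `NontriviallyNormedField`, `Ω` is a normed space over it and `adj A x`
is a finite-dimensional `A`-subspace: `Submodule.closed_of_finiteDimensional`. -/
theorem closed_adj_alg [CompleteSpace Ω] {A : Subfield Ω} (hA : IsClosed (A : Set Ω))
    (hnt : ∃ a ∈ A, 1 < ‖a‖) {x : Ω} (hx : IsAlgebraic A x) : IsClosed (adj A x : Set Ω) := by
  obtain ⟨a, haA, ha⟩ := hnt
  let inst : NontriviallyNormedField A :=
    { SubfieldClass.toNormedField A with
      non_trivial := ⟨⟨a, haA⟩, ha⟩ }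
  have hcs : CompleteSpace A := hA.completeSpace_coe
  have hcsm : ContinuousSMul A Ω := ⟨by
    have : Continuous fun q : A × Ω => (q.1 : Ω) * q.2 :=
      (continuous_subtype_val.comp continuous_fst).mul continuous_snd
    exact this⟩
  have hfd : FiniteDimensional A (IntermediateField.adjoin A {x}) :=
    IntermediateField.adjoin.finiteDimensional hx.isIntegral
  have hfin : FiniteDimensional A
      (Subalgebra.toSubmodule (IntermediateField.adjoin A {x}).toSubalgebra) := hfd
  have h1 := Submodule.closed_of_finiteDimensional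
    (Subalgebra.toSubmodule (IntermediateField.adjoin A {x}).toSubalgebra)
  have h2 : (adj A x : Set Ω) =
      (Subalgebra.toSubmodule (IntermediateField.adjoin A {x}).toSubalgebra : Set Ω) := by
    ext y
    exact HAlg_mem_iff
  rw [h2]
  exact h1


omit [IsUltrametricDist Ω] in
private theorem HAlg_le_abar {H : Subfield Ω} {x : Ω} (hx : IsAlgebraic H x) :
    adj H x ≤ abar H := by
  refine adj_le (fun y hy => ?_) (mem_algebraicClosure_iff.2 hx)
  exact mem_algebraicClosure_iff.2 (isAlgebraic_algebraMap (⟨y, hy⟩ : H))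

private theorem HAlg_prim {p : ℕ} [Fact p.Prime] [CharP Ω p] {k H V : Subfield Ω}
    (hk : Triv k) (hkp : Perf p k) (hkH : k ≤ H) (hres : Res k H) {x : Ω}
    (hx : IsAlgebraic H x) (hV : V = adj H x) :
    ∃ θ ∈ abar k, θ ∈ V ∧ ∀ θ' ∈ abar k, θ' ∈ V → θ' ∈ adj k θ := by
  classical
  have hp : p.Prime := Fact.out
  have hchar : CharP k p := (algebraMap k Ω).charP (algebraMap k Ω).injective p
  have hexp : ExpChar k p := ExpChar.prime hp
  have hperf : PerfectRing k p := by
    refine PerfectRing.ofSurjective k p fun x => ?_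
    obtain ⟨y, hy, hyx⟩ := hkp x.1 x.2
    refine ⟨⟨y, hy⟩, ?_⟩
    rw [frobenius_def]
    exact Subtype.ext (by simpa using hyx)
  have hpf : PerfectField k := PerfectRing.toPerfectField k p
  have hkV : k ≤ V := by
    rw [hV]
    exact hkH.trans (le_adj H x)
  -- the intermediate field
  let K' : IntermediateField k Ω :=
    { (abar k ⊓ V : Subfield Ω) with
      algebraMap_mem' := fun c => ⟨(algebraicClosure k Ω).algebraMap_mem c, hkV c.2⟩ }
  have hK' : ∀ y, y ∈ K' ↔ y ∈ abar k ∧ y ∈ V := fun y => Iff.rfl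
  have hfinV : FiniteDimensional H (IntermediateField.adjoin H {x}) :=
    IntermediateField.adjoin.finiteDimensional hx.isIntegral
  have hrank : Module.rank k K' ≤ (Module.finrank H (IntermediateField.adjoin H {x}) : ℕ) := by
    refine rank_le fun s hs => ?_
    have h1 : LinearIndependent k fun i : s => ((i : K') : Ω) :=
      hs.map' (K'.val.toLinearMap) (LinearMap.ker_eq_bot.2 K'.val.injective)
    have h2 : LinearIndependent H fun i : s =>
        (⟨((i : K') : Ω), by
          have := (i : K').2.2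
          rw [hV] at this
          exact HAlg_mem_iff.1 this⟩ : IntermediateField.adjoin H {x}) := by
      rw [Fintype.linearIndependent_iff]
      intro g hg i
      have h3 : ∑ j : s, ((g j : H) : Ω) * ((j : K') : Ω) = 0 := by
        have h30 := congrArg (fun z : IntermediateField.adjoin H {x} => (z : Ω)) hg
        have h31 : ∑ j : s, (algebraMap H Ω (g j)) * ((j : K') : Ω) = 0 := by
          simpa [Algebra.smul_def] using h30
        exact h31
      have h4 := on hk hkH hres (fun j : s => ((j : K') : Ω)) (fun j => (j : K').2.1) h1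
        (fun j => ((g j : H) : Ω)) (fun j => (g j).2) i
      rw [h3, norm_zero] at h4
      exact Subtype.ext (norm_le_zero_iff.1 h4)
    have h3 := h2.fintype_card_le_finrank
    simpa using h3
  have hfin : FiniteDimensional k K' :=
    Module.rank_lt_aleph0_iff.1 (lt_of_le_of_lt hrank (Cardinal.natCast_lt_aleph0))
  have halg : Algebra.IsAlgebraic k K' := Algebra.IsAlgebraic.of_finite k K'
  have hsep : Algebra.IsSeparable k K' := inferInstance
  obtain ⟨θ, hθ⟩ := Field.exists_primitive_element k K'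
  refine ⟨(θ : Ω), θ.2.1, θ.2.2, fun θ' h1 h2 => ?_⟩
  have h3 : (⟨θ', h1, h2⟩ : K') ∈ IntermediateField.adjoin k {θ} := by
    rw [hθ]
    exact IntermediateField.mem_top
  have h4 : θ' ∈ (IntermediateField.adjoin k {θ}).map K'.val :=
    ⟨⟨θ', h1, h2⟩, h3, rfl⟩
  rw [IntermediateField.adjoin_map, Set.image_singleton] at h4
  exact HAlg_mem_iff.2 h4

/-- Elements algebraic over a maximal field `H` with residue field `k` lie in the `H`-span of the
algebraic closure of `k`.

Proof. Suppose first that `H` is not trivially normed. `H` is closed (`closed_of_sph`,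
`MaxH.sph`), so `V = adj H x` is closed; all its elements are algebraic over `H`. The field
`abar k ⊓ V` has finite degree over `k`: elements of it which are linearly independent over `k` are
linearly independent over `H` (`on`), and `V` is finite-dimensional over `H`. Since `k` is
perfect, it is generated over `k` by one element `θ ∈ abar k ∩ V` (primitive element; finite
extension). Let `A = adj H θ ≤ V` and `n` the degree of `θ` over `k`. Suppose `x ∉ A`. For `j < n`
let `B j` be the family of all balls `(a j, ‖x - a‖)` where `a = ∑ i < n, a i * θ ^ i` runs over `A`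
(`adj_rep`). By `on_pow` `‖a j - a' j‖ ≤ ‖a - a'‖ ≤ max ‖x - a‖ ‖x - a'‖`, so by spherical
completeness of `H` there is `h j ∈ H` with `‖h j - a j‖ ≤ ‖x - a‖` for all `a ∈ A`. Put
`h = ∑ h j * θ ^ j ∈ A`; then `‖h - a‖ ≤ ‖x - a‖` and `‖x - h‖ ≤ ‖x - a‖` for all `a ∈ A`. As
`x ≠ h` there is `g ∈ H` with `‖g‖ = ‖x - h‖` (`MaxH.val`), and `u = (x - h) / g ∈ V` has norm one.
By `res_abar` and `lift_mem` there is `θ' ∈ abar k ∩ V` with `‖u - θ'‖ < 1`; `θ'` is in the field
generated by `θ` over `k`, so in `A`, and `h + g * θ' ∈ A` is closer to `x` than `h`: a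
contradiction. So `x ∈ A`, and `adj_spn`.
If `H` is trivially normed then by `MaxH.val` the norm of `Ω` is trivial, so `Res k` holds for
`adj H x`... in this case `hnt` fails; the hypothesis `hnt` excludes it. -/
theorem MaxH.alg {p : ℕ} [Fact p.Prime] [CharP Ω p] [IsAlgClosed Ω] [CompleteSpace Ω]
    {k H : Subfield Ω} (hm : MaxH p k H) (hΩ : Sph (Set.univ : Set Ω)) (hnt : ∃ a : Ω, 1 < ‖a‖)
    {x : Ω} (hx : IsAlgebraic H x) : x ∈ spn H k := by
  classical
  have hS : Sph (H : Set Ω) := hm.sph hΩ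
  have hHc : IsClosed (H : Set Ω) := closed_of_sph hS
  have hntH : ∃ a ∈ H, 1 < ‖a‖ := by
    obtain ⟨a, ha⟩ := hnt
    have ha0 : a ≠ 0 := by
      rintro rfl
      rw [norm_zero] at ha
      exact absurd ha (by norm_num)
    obtain ⟨h, hh, hn⟩ := hm.val ha0
    exact ⟨h, hh, by rw [hn]; exact ha⟩
  have hVc : IsClosed (adj H x : Set Ω) := closed_adj_alg hHc hntH hx
  obtain ⟨θ, hθ, hθV, hmax⟩ := HAlg_prim hm.triv hm.kperf hm.kH hm.res hx rfl
  have hAV : adj H θ ≤ adj H x := adj_le (le_adj H x) hθV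
  have hkA : adj k θ ≤ adj H θ := adj_mono hm.kH θ
  suffices hxA : x ∈ adj H θ from adj_spn hm.kH hθ hxA
  by_contra hxA
  have hθ1 : ‖θ‖ ≤ 1 := by
    rcases eq_or_ne θ 0 with h0 | h0
    · rw [h0, norm_zero]
      exact zero_le_one
    · exact (triv_abar hm.triv θ hθ h0).le
  set n := (minpoly k θ).natDegree with hn
  let σ : (Fin n → Ω) → Ω := fun a => ∑ i, a i * θ ^ (i : ℕ)
  have hσ : ∀ a, σ a = ∑ i, a i * θ ^ (i : ℕ) := fun _ => rfl
  have hσA : ∀ a : Fin n → Ω, (∀ i, a i ∈ H) → σ a ∈ adj H θ := by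
    intro a ha
    rw [hσ]
    exact sum_mem fun i _ => mul_mem (le_adj H θ (ha i)) (pow_mem (mem_adj H θ) _)
  have hσs : ∀ a b : Fin n → Ω, σ a - σ b = σ (a - b) := by
    intro a b
    rw [hσ, hσ, hσ, ← Finset.sum_sub_distrib]
    exact Finset.sum_congr rfl fun i _ => by rw [Pi.sub_apply, sub_mul]
  -- the families of balls
  have hball : ∀ j : Fin n, ∃ h ∈ H, ∀ a : Fin n → Ω, (∀ i, a i ∈ H) →
      ‖h - a j‖ ≤ ‖x - σ a‖ := by
    intro j
    obtain ⟨h, hh, hb⟩ := hS {b | ∃ a : Fin n → Ω, (∀ i, a i ∈ H) ∧ b = (a j, ‖x - σ a‖)} (by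
      rintro b ⟨a, ha, rfl⟩
      exact ha j) (by
      rintro b ⟨a, ha, rfl⟩ c ⟨a', ha', rfl⟩
      change ‖a j - a' j‖ ≤ Max.max ‖x - σ a‖ ‖x - σ a'‖
      have h1 := on_pow hm.triv hm.kH hm.res hθ (a - a') (fun i => H.sub_mem (ha i) (ha' i)) j
      have h2 : σ (a - a') = (x - σ a') - (x - σ a) := by
        rw [← hσs]
        ring
      rw [← hσ, h2, Pi.sub_apply] at h1
      refine h1.trans ?_
      rw [sub_eq_add_neg]
      refine (IsUltrametricDist.norm_add_le_max _ _).trans ?_
      rw [norm_neg, max_comm])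
    exact ⟨h, hh, fun a ha => hb _ ⟨a, ha, rfl⟩⟩
  choose h hhH hh using hball
  have hbest : ∀ a : Fin n → Ω, (∀ i, a i ∈ H) → ‖x - σ h‖ ≤ ‖x - σ a‖ := by
    intro a ha
    have h1 : ‖σ h - σ a‖ ≤ ‖x - σ a‖ := by
      rw [hσs, hσ]
      refine IsUltrametricDist.norm_sum_le_of_forall_le_of_nonneg (norm_nonneg _) fun i _ => ?_
      rw [norm_mul, norm_pow, Pi.sub_apply]
      calc ‖h i - a i‖ * ‖θ‖ ^ (i : ℕ) ≤ ‖x - σ a‖ * 1 :=
            mul_le_mul (hh i a ha) (pow_le_one₀ (norm_nonneg _) hθ1) (by positivity)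
              (norm_nonneg _)
        _ = ‖x - σ a‖ := mul_one _
    have h2 : x - σ h = (x - σ a) + -(σ h - σ a) := by ring
    rw [h2]
    refine (IsUltrametricDist.norm_add_le_max _ _).trans (max_le le_rfl ?_)
    rwa [norm_neg]
  have hhA : σ h ∈ adj H θ := hσA h hhH
  have hne : x - σ h ≠ 0 := by
    intro h0
    rw [sub_eq_zero] at h0
    rw [h0] at hxA
    exact hxA hhA
  obtain ⟨g, hgH, hg⟩ := hm.val hne
  have hg0 : g ≠ 0 := by
    intro h0
    rw [h0, norm_zero] at hg
    exact hne (norm_eq_zero.1 hg.symm)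
  have huV : (x - σ h) / g ∈ adj H x :=
    div_mem (sub_mem (mem_adj H x) (hAV hhA)) (le_adj H x hgH)
  have hu1 : ‖(x - σ h) / g‖ ≤ 1 := by
    rw [norm_div, hg, div_self (norm_ne_zero_iff.2 hne)]
  have hualg : IsAlgebraic H ((x - σ h) / g) := mem_abar.1 (HAlg_le_abar hx huV)
  obtain ⟨θ', hθ', hu⟩ := res_abar hm.triv hm.kH hm.res hualg hu1
  have hθ'V : θ' ∈ adj H x := lift_mem hm.triv hm.kperf (hm.kH.trans (le_adj H x)) hVc hθ' huV hu
  have hθ'A : θ' ∈ adj H θ := hkA (hmax θ' hθ' hθ'V)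
  have hnew : σ h + g * θ' ∈ adj H θ := add_mem hhA (mul_mem (le_adj H θ hgH) hθ'A)
  obtain ⟨a, ha, hae⟩ := adj_rep hm.kH hθ hnew
  have h1 := hbest a ha
  have h2 : x - σ a = g * ((x - σ h) / g - θ') := by
    rw [hσ, ← hae]
    field_simp
    ring
  rw [h2, norm_mul, hg] at h1
  have h3 : ‖x - σ h‖ * ‖(x - σ h) / g - θ'‖ < ‖x - σ h‖ * 1 :=
    mul_lt_mul_of_pos_left hu (norm_pos_iff.2 hne)
  rw [mul_one] at h3
  exact absurd h1 (not_le.2 h3)

/-- Summary. -/
theorem MaxH.hh {p : ℕ} [Fact p.Prime] [CharP Ω p] [IsAlgClosed Ω] [CompleteSpace Ω]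
    {k H : Subfield Ω} (hm : MaxH p k H) (hΩ : Sph (Set.univ : Set Ω)) (hnt : ∃ a : Ω, 1 < ‖a‖) :
    HH p k H where
  kH := hm.kH
  triv := hm.triv
  res := hm.res
  kperf := hm.kperf
  closed := closed_of_sph (hm.sph hΩ)
  perf := hm.perf
  dvs := hm.dvs
  alg := fun _ hx => hm.alg hΩ hnt hx

end Pool.Agent.R4U
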