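import Pool.Agent.Lib.MP_4ed7e0_lc_U.NewI
import Pool.Agent.Lib.MP_4ed7e0_lc_U.DcS
import Pool.Agent.Lib.MP_4ed7e0_lc_U.Dom
import Pool.Agent.Lib.MP_4ed7e0_lc_U.HAlg

/-!
# MP_4ed7e0_lc, project U: the Artin-Schreier step, type I
-/

set_option autoImplicit false

namespace Pool.Agent.R4U

universe u

open Filter Topology

variable {Ω : Type u} [NormedField Ω] [IsUltrametricDist Ω]

/-- Small right-hand sides are not possible.

Proof. If `‖ϑ‖ > 1` then `‖ϑ ^ p - ϑ‖ = ‖ϑ‖ ^ p > 1`. So `‖ϑ‖ ≤ 1` and there is `c ∈ k` with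
`‖ϑ - c‖ < 1`; `(ϑ - c) ^ p - (ϑ - c) = (ϑ ^ p - ϑ) - (c ^ p - c) ∈ N`, so `ϑ - c ∈ N` by
`as_small_mem`. -/
theorem as_bdd {p : ℕ} [Fact p.Prime] [CharP Ω p] {k H N : Subfield Ω} (hres : Res k H)
    (hkN : k ≤ N) (hN : IsClosed (N : Set Ω)) {ϑ : Ω} (hϑ : ϑ ∈ H) (hb : ϑ ^ p - ϑ ∈ N)
    (h1 : ‖ϑ ^ p - ϑ‖ ≤ 1) : ϑ ∈ N := by
  have hp : p.Prime := Fact.out
  have hle : ‖ϑ‖ ≤ 1 := by
    by_contra hcon
    have hgt : 1 < ‖ϑ‖ := not_le.1 hcon
    have hlt : ‖ϑ‖ < ‖ϑ ^ p‖ := by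
      rw [norm_pow]
      exact lt_self_pow₀ hgt hp.one_lt
    have h2 : ‖ϑ ^ p + -ϑ‖ = max ‖ϑ ^ p‖ ‖-ϑ‖ :=
      IsUltrametricDist.norm_add_eq_max_of_norm_ne_norm (by rw [norm_neg]; exact hlt.ne')
    rw [norm_neg, max_eq_left hlt.le, ← sub_eq_add_neg] at h2
    rw [h2] at h1
    linarith
  obtain ⟨c, hc, hc1⟩ := hres ϑ hϑ hle
  have h3 : (ϑ - c) ^ p - (ϑ - c) ∈ N := by
    have h4 : (ϑ - c) ^ p - (ϑ - c) = (ϑ ^ p - ϑ) - (c ^ p - c) := by
      rw [sub_pow_char]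
      ring
    rw [h4]
    exact N.sub_mem hb (N.sub_mem (N.pow_mem (hkN hc) p) (hkN hc))
  have h5 := N.add_mem (as_small_mem p hN hc1 h3) (hkN hc)
  rwa [sub_add_cancel] at h5

omit [IsUltrametricDist Ω] in
/-- Artin-Schreier elements are algebraic. -/
private theorem ASI_alg {p : ℕ} [Fact p.Prime] {N : Subfield Ω} {w : Ω} (h : w ^ p - w ∈ N) :
    IsAlgebraic N w := by
  have hp : p.Prime := Fact.out
  refine ⟨Polynomial.X ^ p - Polynomial.X - Polynomial.C (⟨w ^ p - w, h⟩ : N), ?_, ?_⟩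
  · have h2 : (Polynomial.X ^ p - Polynomial.X - Polynomial.C (⟨w ^ p - w, h⟩ : N)).coeff p
        = 1 := by
      rw [Polynomial.coeff_sub, Polynomial.coeff_sub, Polynomial.coeff_X_pow_self,
        Polynomial.coeff_X_of_ne_one hp.ne_one, Polynomial.coeff_C_of_ne_zero hp.ne_zero, sub_zero,
        sub_zero]
    intro h3
    rw [h3, Polynomial.coeff_zero] at h2
    exact zero_ne_one h2
  · rw [map_sub, map_sub, map_pow, Polynomial.aeval_X, Polynomial.aeval_C]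
    exact sub_self _

omit [IsUltrametricDist Ω] in
private theorem ASI_coef {E : Subfield Ω} {Q : Polynomial Ω} (hQ : Coef E Q) {e : Ω}
    (he : e ∈ E) : Coef E (Polynomial.taylor e Q) := by
  intro i
  rw [Polynomial.taylor_coeff, Polynomial.eval_eq_sum_range]
  refine E.sum_mem fun n _ => E.mul_mem ?_ (E.pow_mem he n)
  rw [Polynomial.hasseDeriv_coeff]
  exact E.mul_mem (natCast_mem E _) (hQ _)

omit [IsUltrametricDist Ω] in
private theorem ASI_eval {N : Subfield Ω} {Q : Polynomial Ω} (hQ : Coef N Q) {x : Ω}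
    (hx : x ∈ N) : Q.eval x ∈ N := by
  rw [Polynomial.eval_eq_sum_range]
  exact N.sum_mem fun n _ => N.mul_mem (hQ n) (N.pow_mem hx n)

/-- The reduced form at `e`. -/
private theorem ASI_red {p : ℕ} [Fact p.Prime] [CharP Ω p] [IsAlgClosed Ω]
    {k E H N : Subfield Ω} (ht : Tame p k E H) {z : Ω} (hzN : z ∈ N) (hEN : E ≤ N) {ϑ v : Ω}
    {Q : Polynomial Ω} (hQ : Coef E Q) (hv : v ∈ N) (hvQ : v ^ p - v = ϑ ^ p - ϑ - Q.eval z)
    {e : Ω} (he : e ∈ E) :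
    ∃ n ∈ N, ∃ d0 ∈ E, ‖d0‖ ≤ 1 ∧ (ϑ - n) ^ p - (ϑ - n) = d0 +
      ∑ i ∈ (Finset.range (Q.natDegree + 1)).filter (fun i => ¬ p ∣ i),
        Dc p (Polynomial.taylor e Q) i * (z - e) ^ i := by
  have hT := ASI_coef hQ he
  obtain ⟨y, hy, hyQ⟩ := red ht.perf hEN hT (N.sub_mem hzN (hEN he))
  obtain ⟨a, ha, haQ⟩ := ht.const (hT 0)
  rw [Polynomial.natDegree_taylor, Polynomial.taylor_eval, sub_add_cancel] at hyQ
  refine ⟨v + y + a, N.add_mem (N.add_mem hv hy) (hEN ha),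
    (Polynomial.taylor e Q).coeff 0 - (a ^ p - a),
    E.sub_mem (hT 0) (E.sub_mem (E.pow_mem ha p) ha), haQ, ?_⟩
  have h1 : (ϑ - (v + y + a)) ^ p - (ϑ - (v + y + a)) =
      (ϑ ^ p - ϑ) - (v ^ p - v) - (y ^ p - y) - (a ^ p - a) := by
    rw [sub_pow_char, add_pow_char, add_pow_char]
    ring
  rw [h1, hvQ, hyQ]
  ring

/-- The Artin-Schreier step for elements of type I.

Proof. Let `N = cl E z` and `b = ϑ ^ p - ϑ ∈ N`. By `denseI` there is a polynomial `Q` over `E` with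
`‖b - Q(z)‖ < 1`, by `as_small` `b - Q(z) = v ^ p - v` with `v ∈ N`. Let `d = natDegree Q`,
`I = {i ≤ d, p ∤ i}`. For `i ∈ I` let `δ i` be the stable norm of `Dc p (taylor e Q) i` (`Dc_stab`).
For `e ∈ E` and `x = z - e` we have `Q(z) = (taylor e Q).eval x` (`Polynomial.taylor_eval`), and by
`red` and `Tame.const` (for `(taylor e Q).coeff 0 = d0 + (a ^ p - a)`, `‖d0‖ ≤ 1`, `d0 ∈ E`),
`ϑ_e = ϑ - v - y - a ∈ H` satisfies `ϑ_e ^ p - ϑ_e = d0 + ∑ i ∈ I, D i * x ^ i`,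
`D i = Dc p (taylor e Q) i ∈ E`. If all `δ i = 0` then for `e` near `z` the right-hand side is `d0`
and `ϑ_e ∈ N` by `as_bdd`, so `ϑ ∈ N`, a contradiction. Otherwise `dom` (with
`γ = Metric.infDist z E`, `nr_dist`) gives `j ∈ I`, `δ j ≠ 0`, such that for `e` near `z` the term
`D j * x ^ j` dominates the others strictly. Fix such an `e` (`Filter.Eventually.exists`, finitely
many conditions). If `‖D j * x ^ j‖ ≤ 1` then again `ϑ_e ∈ N`, a contradiction (this is not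
even needed: `newI` does not use it). There is `e'' ∈ E` with `‖z - e''‖ < ‖z - e‖`; put
`x0 = e'' - e`, `‖x - x0‖ < ‖x‖`. By `newI` `x ∈ cl E ϑ_e`, so `z ∈ cl E ϑ_e`. Let `z1 = ϑ_e`.
`cl E z1 = adj N ϑ`: the field `adj N ϑ` is closed (`closed_adj_alg`; `N` is closed, not trivially
normed by `TyI.nontriv`, `ϑ` is algebraic over `N`) and contains `E` and `z1`; conversely
`cl E z1` is closed and contains `E` and `z`, so `N`, so `v, y, a` and `ϑ`.
`z1` is of type I: `z1 ∉ E` as `ϑ ∉ N`. By `dich` otherwise `TyII E (z1 - e')` for some `e' ∈ E`;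
the element `z1 - e'` is algebraic over `N` and nonzero, by `val_alg` `‖z1 - e'‖ ^ n = ‖u‖`,
`n ≥ 1`, `u ∈ N`, and `‖u‖ = ‖e''‖` with `e'' ∈ E` by `valI`: a contradiction. -/
theorem asI {p : ℕ} [Fact p.Prime] [CharP Ω p] [IsAlgClosed Ω] [CompleteSpace Ω]
    {k E H : Subfield Ω} (ht : Tame p k E H) {z : Ω} (hz : z ∈ H) (hI : TyI E z) {ϑ : Ω}
    (hϑ : ϑ ∈ H) (hb : ϑ ^ p - ϑ ∈ cl E z) (hn : ϑ ∉ cl E z) :
    ∃ z1 ∈ H, TyI E z1 ∧ cl E z1 = adj (cl E z) ϑ := by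
  classical
  have hn' := hn
  have hNc := isClosed_cl E z
  have hEN := le_cl E z
  have hzN := mem_cl E z
  have hNH : cl E z ≤ H := cl_le ht.hh.closed ht.EH hz
  obtain ⟨Q, hQ, hQ1⟩ := denseI ht hz hI hb one_pos
  have hQE : Q.eval z ∈ cl E z := ASI_eval (fun i => hEN (hQ i)) hzN
  obtain ⟨v, hv, hvQ, -⟩ := as_small p hNc ((cl E z).sub_mem hb hQE) hQ1
  choose δ hδ0 hδ using fun i => Dc_stab ht hz hI hQ i
  obtain ⟨hγ, hγE, hγn⟩ := nr_dist ht.closed hI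
  have hδI : ∀ᶠ e in nr E z, ∀ i ∈ (Finset.range (Q.natDegree + 1)).filter (fun i => ¬ p ∣ i),
      ‖Dc p (Polynomial.taylor e Q) i‖ = δ i := by
    rw [Filter.eventually_all_finset]
    exact fun i _ => hδ i
  by_cases hall : ∃ i ∈ (Finset.range (Q.natDegree + 1)).filter (fun i => ¬ p ∣ i), δ i ≠ 0
  · obtain ⟨j, hj, hj0, γ', hγ', hdom⟩ := dom δ hδ0 hall hγ
    obtain ⟨e, ⟨he, hed⟩, heγ⟩ := ((nr_mem.and hδI).and (hγn γ' hγ')).exists
    obtain ⟨n, hn, d0, hd0, -, heq⟩ := ASI_red ht hzN hEN hQ hv hvQ he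
    obtain ⟨e2, he2, he2lt⟩ := hI.2 e he
    have hx : z - e ∈ cl E (ϑ - n) := by
      refine newI _ (fun i => Dc p (Polynomial.taylor e Q) i)
        (fun i _ => Dc_mem ht.perf (ASI_coef hQ he) i) (fun i hi => (Finset.mem_filter.1 hi).2)
        hd0 hj ?_ ?_ (E.sub_mem he2 he) (x0 := e2 - e) ?_ heq
      · intro h0
        have h1 := hed j hj
        rw [h0, norm_zero] at h1
        exact hj0 h1.symm
      · intro i hi hij
        rw [hed i hi, hed j hj]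
        exact hdom _ (hγE e he) heγ i hi hij
      · have h1 : z - e - (e2 - e) = z - e2 := by ring
        rw [h1]
        exact he2lt
    have hz1 : z ∈ cl E (ϑ - n) := by
      have h1 := (cl E (ϑ - n)).add_mem hx (le_cl E (ϑ - n) he)
      rwa [sub_add_cancel] at h1
    have hN1 : cl E z ≤ cl E (ϑ - n) := cl_le (isClosed_cl E _) (le_cl E _) hz1
    have hϑ1 : ϑ ∈ cl E (ϑ - n) := by
      have h1 := (cl E (ϑ - n)).add_mem (mem_cl E (ϑ - n)) (hN1 hn)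
      rwa [sub_add_cancel] at h1
    have hnt : ∃ a ∈ cl E z, 1 < ‖a‖ := by
      obtain ⟨a, ha, ha1⟩ := hI.nontriv
      exact ⟨a, hEN ha, ha1⟩
    have hcl : cl E (ϑ - n) = adj (cl E z) ϑ := by
      refine le_antisymm ?_ (adj_le hN1 hϑ1)
      refine cl_le (closed_adj_alg hNc hnt (ASI_alg hb)) (hEN.trans (le_adj _ _)) ?_
      exact (adj (cl E z) ϑ).sub_mem (mem_adj _ _) (le_adj _ _ hn)
    have hz1H : ϑ - n ∈ H := H.sub_mem hϑ (hNH hn)
    refine ⟨ϑ - n, hz1H, ?_, hcl⟩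
    have hz1E : ϑ - n ∉ E := by
      intro h
      have h1 := (cl E z).add_mem (hEN h) hn
      rw [sub_add_cancel] at h1
      exact hn' h1
    rcases dich ht hz1H hz1E with h | ⟨e', he', h⟩
    · exact h
    · exfalso
      have halg : IsAlgebraic (cl E z) (ϑ - n - e') := by
        refine ASI_alg (p := p) ?_
        have h1 : (ϑ - n - e') ^ p - (ϑ - n - e') =
            (ϑ ^ p - ϑ) - (n ^ p - n) - (e' ^ p - e') := by
          rw [sub_pow_char, sub_pow_char]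
          ring
        rw [h1]
        have h2 := hEN he'
        exact (cl E z).sub_mem ((cl E z).sub_mem hb
          ((cl E z).sub_mem ((cl E z).pow_mem hn p) hn))
          ((cl E z).sub_mem ((cl E z).pow_mem h2 p) h2)
      obtain ⟨m, hm1, -, u, hu, hmu⟩ := val_alg halg h.1
      have hu0 : u ≠ 0 := by
        intro h0
        rw [h0, norm_zero] at hmu
        exact (pow_pos (norm_pos_iff.2 h.1) m).ne' hmu
      obtain ⟨c, hc, hcu⟩ := valI ht hz hI hu hu0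
      refine h.2 (m : ℤ) (by omega) c hc ?_
      rw [zpow_natCast, hmu, hcu]
  · exfalso
    push Not at hall
    obtain ⟨e, he, hed⟩ := (nr_mem.and hδI).exists
    obtain ⟨n, hn, d0, hd0, hd1, heq⟩ := ASI_red ht hzN hEN hQ hv hvQ he
    have hsum : ∑ i ∈ (Finset.range (Q.natDegree + 1)).filter (fun i => ¬ p ∣ i),
        Dc p (Polynomial.taylor e Q) i * (z - e) ^ i = 0 := by
      refine Finset.sum_eq_zero fun i hi => ?_
      have h1 := hed i hi
      rw [hall i hi, norm_eq_zero] at h1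
      rw [h1, zero_mul]
    rw [hsum, add_zero] at heq
    have h2 : ϑ - n ∈ cl E z :=
      as_bdd ht.hh.res (ht.kE.trans hEN) hNc (H.sub_mem hϑ (hNH hn)) (by rw [heq]; exact hEN hd0)
        (by rw [heq]; exact hd1)
    have h3 := (cl E z).add_mem h2 hn
    rw [sub_add_cancel] at h3
    exact hn' h3

end Pool.Agent.R4U
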