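import Pool.Agent.Lib.MP_4ed7e0_lc_U.NewII
import Pool.Agent.Lib.MP_4ed7e0_lc_U.ASI

/-!
# MP_4ed7e0_lc, project U: the Artin-Schreier step, type II
-/

set_option autoImplicit false

namespace Pool.Agent.R4U

universe u

variable {Ω : Type u} [NormedField Ω] [IsUltrametricDist Ω]

private theorem asII_nsub {a b : Ω} (h : ‖b‖ < ‖a‖) : ‖a - b‖ = ‖a‖ := by
  apply le_antisymm
  · have h1 : ‖a + -b‖ ≤ max ‖a‖ ‖-b‖ := IsUltrametricDist.norm_add_le_max _ _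
    rw [norm_neg, max_eq_left h.le, ← sub_eq_add_neg] at h1
    exact h1
  · have h1 : ‖(a - b) + b‖ ≤ max ‖a - b‖ ‖b‖ := IsUltrametricDist.norm_add_le_max _ _
    rw [sub_add_cancel] at h1
    rcases le_max_iff.1 h1 with h2 | h2
    · exact h2
    · exact absurd h2 (not_le.2 h)

private theorem asII_nadd {a b : Ω} (h : ‖b‖ < ‖a‖) : ‖a + b‖ = ‖a‖ := by
  rw [← sub_neg_eq_add]
  exact asII_nsub (by rwa [norm_neg])

private theorem asII_poly {p : ℕ} (hp : 2 ≤ p) {N : Subfield Ω} {y c₁ c₂ : Ω} (h1 : c₁ ∈ N)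
    (h2 : c₂ ∈ N) (h : y ^ p = c₁ * y + c₂) : ∃ q : Polynomial Ω, Coef N q ∧
      q.Monic ∧ q.natDegree = p ∧ q.eval y = 0 := by
  classical
  have hdeg : (Polynomial.C c₁ * Polynomial.X + Polynomial.C c₂ : Polynomial Ω).degree
      < (p : WithBot ℕ) := by
    refine lt_of_le_of_lt Polynomial.degree_linear_le ?_
    exact_mod_cast hp
  refine ⟨Polynomial.X ^ p - (Polynomial.C c₁ * Polynomial.X + Polynomial.C c₂), ?_,
    Polynomial.monic_X_pow_sub hdeg, ?_, ?_⟩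
  · intro i
    rw [Polynomial.coeff_sub, Polynomial.coeff_X_pow, Polynomial.coeff_add,
      Polynomial.coeff_C_mul, Polynomial.coeff_X, Polynomial.coeff_C]
    refine N.sub_mem ?_ (N.add_mem (N.mul_mem h1 ?_) ?_)
    · split_ifs
      · exact N.one_mem
      · exact N.zero_mem
    · split_ifs
      · exact N.one_mem
      · exact N.zero_mem
    · split_ifs
      · exact h2
      · exact N.zero_mem
  · apply Polynomial.natDegree_eq_of_degree_eq_some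
    rw [Polynomial.degree_sub_eq_left_of_degree_lt]
    · exact Polynomial.degree_X_pow p
    · rwa [Polynomial.degree_X_pow]
  · simp [h]

/-- The Artin-Schreier step for elements of type II.

Proof. Let `N = cl E z`, `b = ϑ ^ p - ϑ ∈ N`. By `denseII`, `as_small` and `redII`, `Tame.const`
there are `v ∈ N` (the sum of all corrections), a finite set `I` of integers not divisible by `p`,
`D n ∈ E` and `d0 ∈ E`, `‖d0‖ ≤ 1`, such that `ϑ' = ϑ - v ∈ H` satisfies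
`ϑ' ^ p - ϑ' = d0 + ∑ n ∈ I, D n * z ^ n =: d0 + g`. If `‖g‖ ≤ 1` then `ϑ' ∈ N` by `as_bdd`, a
contradiction. So `‖g‖ > 1`; by `orthII` there is a dominating term, `‖g - D j * z ^ j‖ < ‖g‖`,
`‖g‖ = ‖D j * z ^ j‖`, `p ∤ j`. `‖ϑ'‖ ^ p = ‖g‖ > 1`, so `ϑ' ^ p = D j * z ^ j * u` with
`‖u - 1‖ < 1`. Let `D ∈ E` with `D ^ p = D j` and `y = ϑ' / D`: `y ^ p = z ^ j * u`. `y` is a root
of the monic polynomial `X ^ p - C (D ^ (1 - p)) * X - C ((d0 + g) / D ^ p)` over `N`, and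
`adj N y = adj N ϑ`. `newII`. `z1 ∈ H` because `adj N ϑ ≤ H` (`cl_le`, `H` is closed). -/
theorem asII {p : ℕ} [Fact p.Prime] [CharP Ω p] [IsAlgClosed Ω] [CompleteSpace Ω]
    {k E H : Subfield Ω} (ht : Tame p k E H) {z : Ω} (hz : z ∈ H) (hII : TyII E z) {ϑ : Ω}
    (hϑ : ϑ ∈ H) (hb : ϑ ^ p - ϑ ∈ cl E z) (hn : ϑ ∉ cl E z) :
    ∃ z1 ∈ H, TyII E z1 ∧ cl E z1 = adj (cl E z) ϑ := by
  have hp : p.Prime := Fact.out
  have hN : IsClosed (cl E z : Set Ω) := isClosed_cl E z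
  have hEN : E ≤ cl E z := le_cl E z
  have hzN : z ∈ cl E z := mem_cl E z
  have hNH : cl E z ≤ H := cl_le ht.hh.closed ht.EH hz
  have hkN : k ≤ cl E z := ht.kE.trans hEN
  have hsum : ∀ (J : Finset ℤ) (a : ℤ → Ω), (∀ n, a n ∈ E) →
      ∑ n ∈ J, a n * z ^ n ∈ cl E z := fun J a ha =>
    sum_mem fun n _ => mul_mem (hEN (ha n)) (zpow_mem hzN n)
  obtain ⟨J, a, ha, hJ⟩ := denseII hII hb one_pos
  obtain ⟨v1, hv1, hv1e, -⟩ := as_small p hN (sub_mem hb (hsum J a ha)) hJ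
  obtain ⟨I, D, c, hD, hc, hI, y, hy, hye⟩ := redII ht.perf hEN hzN J ha
  obtain ⟨a', ha', ha'1⟩ := ht.const hc
  have hgN := hsum I D hD
  obtain ⟨g, hg⟩ : ∃ g, g = ∑ n ∈ I, D n * z ^ n := ⟨_, rfl⟩
  rw [← hg] at hye hgN
  obtain ⟨d0, hd0⟩ : ∃ d0, d0 = c - (a' ^ p - a') := ⟨_, rfl⟩
  rw [← hd0] at ha'1
  have hd0E : d0 ∈ E := by
    rw [hd0]
    exact sub_mem hc (sub_mem (pow_mem ha' p) ha')
  obtain ⟨v, hv⟩ : ∃ v, v = v1 + a' + y := ⟨_, rfl⟩
  have hvN : v ∈ cl E z := by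
    rw [hv]
    exact add_mem (add_mem hv1 (hEN ha')) hy
  obtain ⟨w, hw⟩ : ∃ w, w = ϑ - v := ⟨_, rfl⟩
  have hwH : w ∈ H := by
    rw [hw]
    exact sub_mem hϑ (hNH hvN)
  have hwN : w ∉ cl E z := by
    intro h
    apply hn
    have h1 : ϑ = w + v := by rw [hw]; ring
    rw [h1]
    exact add_mem h hvN
  have hwe : w ^ p - w = d0 + g := by
    have h1 : w ^ p = ϑ ^ p - (v1 ^ p + a' ^ p + y ^ p) := by
      rw [hw, hv, sub_pow_char, add_pow_char, add_pow_char]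
    rw [h1, hw, hv, hd0]
    linear_combination hye - hv1e
  have hdg : d0 + g ∈ cl E z := add_mem (hEN hd0E) hgN
  have hg1 : 1 < ‖g‖ := by
    by_contra hcon
    push Not at hcon
    apply hwN
    refine as_bdd ht.hh.res hkN hN hwH ?_ ?_
    · rw [hwe]
      exact hdg
    · rw [hwe]
      exact (IsUltrametricDist.norm_add_le_max _ _).trans (max_le ha'1 hcon)
  have hne : ∃ j ∈ I, D j ≠ 0 := by
    by_contra hcon
    push Not at hcon
    have h1 : g = 0 := by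
      rw [hg]
      exact Finset.sum_eq_zero fun n hn => by rw [hcon n hn, zero_mul]
    rw [h1, norm_zero] at hg1
    linarith
  obtain ⟨j, hjI, hDj, -, hj2, hj3⟩ := orthII hII I hD hne
  rw [← hg] at hj2 hj3
  have hdgn : ‖d0 + g‖ = ‖g‖ := by
    rw [add_comm]
    exact asII_nadd (lt_of_le_of_lt ha'1 hg1)
  have hw1 : 1 < ‖w‖ := by
    by_contra hcon
    push Not at hcon
    have h1 : ‖w ^ p - w‖ ≤ 1 := by
      rw [sub_eq_add_neg]
      refine (IsUltrametricDist.norm_add_le_max _ _).trans (max_le ?_ ?_)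
      · rw [norm_pow]
        exact pow_le_one₀ (norm_nonneg _) hcon
      · rwa [norm_neg]
    rw [hwe, hdgn] at h1
    linarith
  have hw2 : ‖w‖ < ‖w‖ ^ p := by
    calc ‖w‖ = ‖w‖ ^ 1 := (pow_one _).symm
      _ < ‖w‖ ^ p := pow_lt_pow_right₀ hw1 hp.one_lt
  have hw3 : ‖w‖ ^ p = ‖g‖ := by
    rw [← hdgn, ← hwe, asII_nsub (by rwa [norm_pow]), norm_pow]
  obtain ⟨D0, hD0, hD0p⟩ := ht.perf (D j) (hD j)
  have hD00 : D0 ≠ 0 := by
    rintro rfl
    rw [zero_pow hp.ne_zero] at hD0p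
    exact hDj hD0p.symm
  have hz0 : z ≠ 0 := hII.1
  have hDz : D j * z ^ j ≠ 0 := mul_ne_zero hDj (zpow_ne_zero _ hz0)
  have hDzn : 0 < ‖D j * z ^ j‖ := norm_pos_iff.2 hDz
  obtain ⟨y1, hy1⟩ : ∃ y1, y1 = w / D0 := ⟨_, rfl⟩
  obtain ⟨u, hu⟩ : ∃ u, u = w ^ p / (D j * z ^ j) := ⟨_, rfl⟩
  have hy1p : y1 ^ p = z ^ j * u := by
    rw [hy1, hu, div_pow, hD0p]
    field_simp
  have hu1 : ‖u - 1‖ < 1 := by
    have h1 : u - 1 = (w + (d0 + (g - D j * z ^ j))) / (D j * z ^ j) := by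
      rw [hu, eq_div_iff hDz, sub_mul, div_mul_cancel₀ _ hDz]
      linear_combination hwe
    rw [h1, norm_div, div_lt_one hDzn]
    refine lt_of_le_of_lt (IsUltrametricDist.norm_add_le_max _ _) (max_lt ?_ ?_)
    · rw [← hj3, ← hw3]
      exact hw2
    · refine lt_of_le_of_lt (IsUltrametricDist.norm_add_le_max _ _) (max_lt ?_ hj2)
      rw [← hj3]
      exact lt_of_le_of_lt ha'1 hg1
  have hy1A : y1 ∈ adj (cl E z) y1 := mem_adj _ _
  have huA : u ∈ adj (cl E z) y1 := by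
    have h1 : u = y1 ^ p * z ^ (-j) := by
      rw [hy1p, zpow_neg]
      field_simp
    rw [h1]
    exact mul_mem (pow_mem hy1A p) (zpow_mem (le_adj _ _ hzN) _)
  have hpoly : ∃ q : Polynomial Ω, Coef (cl E z) q ∧
      q.Monic ∧ q.natDegree = p ∧ q.eval y1 = 0 := by
    refine asII_poly (c₁ := D0 / D0 ^ p) (c₂ := (d0 + g) / D0 ^ p) hp.two_le ?_ ?_ ?_
    · exact hEN (div_mem hD0 (pow_mem hD0 p))
    · exact div_mem hdg (hEN (pow_mem hD0 p))
    · have h1 : D0 ^ p ≠ 0 := pow_ne_zero _ hD00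
      rw [hy1, div_pow]
      field_simp
      linear_combination hwe
  obtain ⟨z1, hz1, hz1II, hz1e⟩ := newII hII hpoly (hI j hjI) hu1 huA hy1p
  have hadj : adj (cl E z) y1 = adj (cl E z) ϑ := by
    apply le_antisymm
    · refine adj_le (le_adj _ _) ?_
      rw [hy1, hw]
      exact div_mem (sub_mem (mem_adj _ _) (le_adj _ _ hvN)) (le_adj _ _ (hEN hD0))
    · refine adj_le (le_adj _ _) ?_
      have h1 : ϑ = y1 * D0 + v := by
        rw [hy1, div_mul_cancel₀ _ hD00, hw]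
        ring
      rw [h1]
      exact add_mem (mul_mem hy1A (le_adj _ _ (hEN hD0))) (le_adj _ _ hvN)
  refine ⟨z1, ?_, hz1II, by rw [hz1e, hadj]⟩
  have h2 : adj (cl E z) y1 ≤ H := adj_le hNH (by
    rw [hy1]
    exact div_mem hwH (ht.EH hD0))
  exact h2 hz1

/-- Both types. -/
theorem as_step {p : ℕ} [Fact p.Prime] [CharP Ω p] [IsAlgClosed Ω] [CompleteSpace Ω]
    {k E H : Subfield Ω} (ht : Tame p k E H) {z : Ω} (hz : z ∈ H) (hT : Ty E z) {ϑ : Ω}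
    (hϑ : ϑ ∈ H) (hb : ϑ ^ p - ϑ ∈ cl E z) (hn : ϑ ∉ cl E z) :
    ∃ z1 ∈ H, Ty E z1 ∧ cl E z1 = adj (cl E z) ϑ := by
  rcases hT with h | h
  · obtain ⟨z1, h1, h2, h3⟩ := asI ht hz h hϑ hb hn
    exact ⟨z1, h1, Or.inl h2, h3⟩
  · obtain ⟨z1, h1, h2, h3⟩ := asII ht hz h hϑ hb hn
    exact ⟨z1, h1, Or.inr h2, h3⟩

end Pool.Agent.R4U
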