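import Pool.Agent.Lib.MP_4ed7e0_lc_U.TameL

/-!
# MP_4ed7e0_lc, project U: unramified base change
-/

set_option autoImplicit false

namespace Pool.Agent.R4U

universe u

variable {Ω : Type u} [NormedField Ω] [IsUltrametricDist Ω]

omit [IsUltrametricDist Ω] in
private theorem BC_sum_mem {A : Subfield Ω} {θ : Ω} {n : ℕ} {a : Fin n → Ω} (ha : ∀ i, a i ∈ A) :
    ∑ i, a i * θ ^ (i : ℕ) ∈ adj A θ :=
  sum_mem fun i _ => mul_mem (le_adj A θ (ha i)) (pow_mem (mem_adj A θ) _)

omit [IsUltrametricDist Ω] in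
private theorem BC_up {A B : Subfield Ω} (hAB : A ≤ B) {y : Ω} (hy : IsAlgebraic A y) :
    IsAlgebraic B y := by
  obtain ⟨m, hm0, hm⟩ := hy
  refine ⟨m.map (Subfield.inclusion hAB),
    (Polynomial.map_ne_zero_iff (Subfield.inclusion hAB).injective).mpr hm0, ?_⟩
  rw [Polynomial.aeval_def, Polynomial.eval₂_map]
  exact hm

omit [IsUltrametricDist Ω] in
private theorem BC_trans {A B : Subfield Ω} (hAB : A ≤ B) (hB : ∀ b ∈ B, IsAlgebraic A b) {y : Ω}
    (hy : IsAlgebraic B y) : IsAlgebraic A y := by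
  let _ : Algebra A B := (Subfield.inclusion hAB).toAlgebra
  have : IsScalarTower A B Ω := IsScalarTower.of_algebraMap_eq fun _ => rfl
  have : Algebra.IsAlgebraic A B := ⟨fun b => by
    have h : IsAlgebraic A (algebraMap B Ω b) := hB b b.2
    exact (isAlgebraic_algebraMap_iff (algebraMap B Ω).injective).1 h⟩
  exact hy.restrictScalars A

private theorem BC_alg {A : Subfield Ω} {θ : Ω} (hθ : IsAlgebraic A θ) :
    ∀ b ∈ adj A θ, IsAlgebraic A b := by
  have h : A ≤ abar A := fun a ha => mem_abar.2 (isAlgebraic_algebraMap (⟨a, ha⟩ : A))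
  exact fun b hb => mem_abar.1 (adj_le h (mem_abar.2 hθ) hb)

private theorem BC_perf {p : ℕ} [Fact p.Prime] [CharP Ω p] {A : Subfield Ω} (hA : Perf p A)
    {θ : Ω} (hθ : IsAlgebraic A θ) : Perf p (adj A θ) := by
  have hc : CharP A p := (algebraMap A Ω).charP (algebraMap A Ω).injective p
  have he : ExpChar A p := ExpChar.prime (Fact.out : p.Prime)
  have hpr : PerfectRing A p := by
    refine PerfectRing.ofSurjective A p fun x => ?_
    obtain ⟨y, hy, hyx⟩ := hA x.1 x.2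
    refine ⟨⟨y, hy⟩, ?_⟩
    apply Subtype.ext
    rw [frobenius_def]
    exact hyx
  have hpf : PerfectField A := PerfectRing.toPerfectField A p
  let _ : Algebra A (adj A θ) := (Subfield.inclusion (le_adj A θ)).toAlgebra
  have : IsScalarTower A (adj A θ) Ω := IsScalarTower.of_algebraMap_eq fun _ => rfl
  have : Algebra.IsAlgebraic A (adj A θ) := ⟨fun b => by
    have h : IsAlgebraic A (algebraMap (adj A θ) Ω b) := BC_alg hθ b b.2
    exact (isAlgebraic_algebraMap_iff (algebraMap (adj A θ) Ω).injective).1 h⟩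
  have hpf2 : PerfectField (adj A θ) := Algebra.IsAlgebraic.perfectField (K := A)
  have hc2 : CharP (adj A θ) p :=
    (algebraMap (adj A θ) Ω).charP (algebraMap (adj A θ) Ω).injective p
  have he2 : ExpChar (adj A θ) p := ExpChar.prime (Fact.out : p.Prime)
  have hpr2 : PerfectRing (adj A θ) p := PerfectField.toPerfectRing p
  intro x hx
  obtain ⟨y, hy⟩ := surjective_frobenius (adj A θ) p ⟨x, hx⟩
  rw [frobenius_def] at hy
  exact ⟨y, y.2, congrArg Subtype.val hy⟩

/-- Proof. Let `x n = ∑ a n i * θ ^ i` (`adj_rep`) converge to `x`. By `on_pow` the coordinates are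
Cauchy sequences in the closed (complete) subfield `A`, with limits `a i ∈ A`, and
`x = ∑ a i * θ ^ i`. -/
theorem closed_adj [CompleteSpace Ω] {p : ℕ} {k A H : Subfield Ω} (hh : HH p k H) (hkA : k ≤ A)
    (hAH : A ≤ H) (hA : IsClosed (A : Set Ω)) {θ : Ω} (hθ : θ ∈ abar k) :
    IsClosed (adj A θ : Set Ω) := by
  refine isClosed_of_closure_subset fun x hx => ?_
  obtain ⟨y, hy, hyx⟩ := mem_closure_iff_seq_limit.1 hx
  have hkH := hkA.trans hAH
  choose a ha hya using fun n => adj_rep hkA hθ (hy n)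
  have hcau : ∀ i, CauchySeq fun n => a n i := by
    intro i
    rw [Metric.cauchySeq_iff']
    intro ε hε
    obtain ⟨N, hN⟩ := Metric.cauchySeq_iff'.1 hyx.cauchySeq ε hε
    refine ⟨N, fun n hn => ?_⟩
    have h1 := on_pow hh.triv hkH hh.res hθ (fun j => a n j - a N j)
      (fun j => sub_mem (hAH (ha n j)) (hAH (ha N j))) i
    have h2 : ∑ j, (a n j - a N j) * θ ^ (j : ℕ) = y n - y N := by
      rw [hya n, hya N, ← Finset.sum_sub_distrib]
      exact Finset.sum_congr rfl fun j _ => by ring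
    rw [h2] at h1
    rw [dist_eq_norm]
    refine h1.trans_lt ?_
    rw [← dist_eq_norm]
    exact hN n hn
  choose b hb using fun i => cauchySeq_tendsto_of_complete (hcau i)
  have hbA : ∀ i, b i ∈ A := fun i =>
    hA.mem_of_tendsto (hb i) (Filter.Eventually.of_forall fun n => ha n i)
  have hlim : Filter.Tendsto y Filter.atTop (nhds (∑ i, b i * θ ^ (i : ℕ))) := by
    have h3 : Filter.Tendsto (fun n => ∑ i, a n i * θ ^ (i : ℕ)) Filter.atTop
        (nhds (∑ i, b i * θ ^ (i : ℕ))) :=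
      tendsto_finsetSum _ fun i _ => (hb i).mul_const _
    refine h3.congr fun n => ?_
    exact (hya n).symm
  rw [tendsto_nhds_unique hyx hlim]
  exact BC_sum_mem hbA

/-- Proof. `adj_rep` and `on_pow_eq`. -/
theorem norm_adj {p : ℕ} {k A H : Subfield Ω} (hh : HH p k H) (hkA : k ≤ A) (hAH : A ≤ H)
    {θ : Ω} (hθ : θ ∈ abar k) {x : Ω} (hx : x ∈ adj A θ) : ∃ a ∈ A, ‖a‖ = ‖x‖ := by
  obtain ⟨a, ha, hxa⟩ := adj_rep hkA hθ hx
  obtain ⟨i, hi⟩ := on_pow_eq hh.triv (hkA.trans hAH) hh.res hθ a fun i => hAH (ha i)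
  exact ⟨a i, ha i, by rw [hxa, hi]⟩

/-- Proof. `x = ∑ a i * θ ^ i` with `a i ∈ A`; the coordinates of `0 = ∑ (a i - x * δ i 0) * θ ^ i`
over `H` vanish (`on_pow`), so `x = a 0`. -/
theorem mem_of_adj {p : ℕ} {k A H : Subfield Ω} (hh : HH p k H) (hkA : k ≤ A) (hAH : A ≤ H)
    {θ : Ω} (hθ : θ ∈ abar k) {x : Ω} (hx : x ∈ adj A θ) (hxH : x ∈ H) : x ∈ A := by
  obtain ⟨a, ha, hxa⟩ := adj_rep hkA hθ hx
  have hint : IsIntegral k θ := (mem_abar.1 hθ).isIntegral
  have hpos : 0 < (minpoly k θ).natDegree := minpoly.natDegree_pos hint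
  have h1 := on_pow hh.triv (hkA.trans hAH) hh.res hθ
    (fun j => a j - if j = ⟨0, hpos⟩ then x else 0)
    (fun j => sub_mem (hAH (ha j)) (by split_ifs; exacts [hxH, zero_mem _])) ⟨0, hpos⟩
  have h2 : ∑ j, (a j - if j = ⟨0, hpos⟩ then x else 0) * θ ^ (j : ℕ) = 0 := by
    have h3 : ∀ j : Fin (minpoly k θ).natDegree, (a j - if j = ⟨0, hpos⟩ then x else 0) *
        θ ^ (j : ℕ) = a j * θ ^ (j : ℕ) - if j = ⟨0, hpos⟩ then x else 0 := by
      intro j
      split_ifs with hj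
      · rw [hj]
        ring
      · ring
    rw [Finset.sum_congr rfl fun j _ => h3 j, Finset.sum_sub_distrib, ← hxa,
      Finset.sum_ite_eq' Finset.univ, if_pos (Finset.mem_univ _), sub_self]
  rw [h2, norm_zero] at h1
  have h4 : a ⟨0, hpos⟩ - x = 0 := by
    have := norm_le_zero_iff.1 h1
    simpa using this
  rw [← sub_eq_zero.1 h4]
  exact ha _

/-- Proof. `abar k` and `abar (adj k θ)` coincide. -/
theorem abar_adj {k : Subfield Ω} {θ : Ω} (hθ : θ ∈ abar k) : abar (adj k θ) = abar k := by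
  ext y
  rw [mem_abar, mem_abar]
  exact ⟨fun h => BC_trans (le_adj k θ) (BC_alg (mem_abar.1 hθ)) h, fun h => BC_up (le_adj k θ) h⟩

/-- Base change of `HH`.

Proof. `Triv (adj k θ)`: `adj k θ ≤ abar k`, `triv_abar`. `Res`: `x = ∑ h i * θ ^ i` of norm at most
one has `‖h i‖ ≤ 1` (`on_pow`), choose `c i ∈ k` with `‖h i - c i‖ < 1`; `c = ∑ c i * θ ^ i ∈ adj k θ`.
Perfect: an algebraic extension of a perfect field is perfect (`Algebra.IsAlgebraic.perfectField`);
by hand: the `p`-th powers of the elements of `adj k θ`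
form a subfield containing `k` (perfect) over which ... or: `x ∈ adj k θ` has a `p`-th root `y` in
`Ω`, `y` is separable and purely inseparable over the perfect field... For `adj H θ` the same.
Closed: `closed_adj` with `A = H`. Values: `norm_adj`. `alg`: an element algebraic over `adj H θ` is
algebraic over `H`, so in `spn H k ⊆ spn (adj H θ) (adj k θ)` (`abar_adj`). -/
theorem HH.bc [CompleteSpace Ω] {p : ℕ} [Fact p.Prime] [CharP Ω p] [IsAlgClosed Ω]
    {k H : Subfield Ω} (hh : HH p k H) {θ : Ω} (hθ : θ ∈ abar k) :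
    HH p (adj k θ) (adj H θ) := by
  have hθk : IsAlgebraic k θ := mem_abar.1 hθ
  have hθH : IsAlgebraic H θ := BC_up hh.kH hθk
  refine ⟨adj_mono hh.kH θ, ?_, ?_, BC_perf hh.kperf hθk,
    closed_adj hh hh.kH le_rfl hh.closed hθ, BC_perf hh.perf hθH, ?_, ?_⟩
  · exact fun c hc h0 => triv_abar hh.triv c (mem_abar.2 (BC_alg hθk c hc)) h0
  · intro x hx hx1
    obtain ⟨a, ha, hxa⟩ := adj_rep hh.kH hθ hx
    have h1 : ∀ i, ‖a i‖ ≤ 1 := by
      intro i
      refine (on_pow hh.triv hh.kH hh.res hθ a ha i).trans ?_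
      rw [← hxa]
      exact hx1
    choose c hc hac using fun i => hh.res (a i) (ha i) (h1 i)
    refine ⟨∑ i, c i * θ ^ (i : ℕ), BC_sum_mem hc, ?_⟩
    have h2 : x - ∑ i, c i * θ ^ (i : ℕ) = ∑ i, (a i - c i) * θ ^ (i : ℕ) := by
      rw [hxa, ← Finset.sum_sub_distrib]
      exact Finset.sum_congr rfl fun j _ => by ring
    obtain ⟨i, hi⟩ := on_pow_eq hh.triv hh.kH hh.res hθ (fun i => a i - c i)
      fun i => sub_mem (ha i) (hh.kH (hc i))
    rw [h2, hi]
    exact hac i
  · intro x hx n hn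
    obtain ⟨a, ha, hax⟩ := norm_adj hh hh.kH le_rfl hθ hx
    obtain ⟨y, hy, hyn⟩ := hh.dvs a ha n hn
    exact ⟨y, le_adj H θ hy, hyn.trans hax⟩
  · intro x hx
    have h1 : x ∈ spn H k := hh.alg x (BC_trans (le_adj H θ) (BC_alg hθH) hx)
    have h2 : ∀ y ∈ Submodule.span H (abar k : Set Ω), y ∈ spn (adj H θ) (adj k θ) := by
      intro y hy
      induction hy using Submodule.span_induction with
      | mem x hx =>
        refine Submodule.subset_span ?_
        rw [abar_adj hθ]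
        exact hx
      | zero => exact zero_mem _
      | add x y _ _ hx hy => exact add_mem hx hy
      | smul a x _ hx =>
        have h5 : a • x = (⟨a, le_adj H θ a.2⟩ : adj H θ) • x := rfl
        rw [h5]
        exact Submodule.smul_mem _ _ hx
    exact h2 x h1

/-- Base change of `Tame`.

Proof. `rac`: let `x ∈ adj H θ` be algebraic over `adj E θ`, so over `E`. `x = ∑ h i * θ ^ i`, the
`h i` are algebraic over `E` by `interp`, so in `E`. Closed: `closed_adj`. -/
theorem Tame.bc [CompleteSpace Ω] {p : ℕ} [Fact p.Prime] [CharP Ω p] [IsAlgClosed Ω]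
    {k E H : Subfield Ω} (ht : Tame p k E H) {θ : Ω} (hθ : θ ∈ abar k) :
    Tame p (adj k θ) (adj E θ) (adj H θ) := by
  have hθk : IsAlgebraic k θ := mem_abar.1 hθ
  have hθE : IsAlgebraic E θ := BC_up ht.kE hθk
  refine ⟨ht.hh.bc hθ, adj_mono ht.kE θ, adj_mono ht.EH θ,
    closed_adj ht.hh ht.kE ht.EH ht.closed hθ, ?_⟩
  intro x hx hxE
  have h1 : IsAlgebraic E x := BC_trans (le_adj E θ) (BC_alg hθE) hxE
  obtain ⟨a, ha, hxa⟩ := adj_rep ht.hh.kH hθ hx
  rw [hxa] at h1
  have h2 := interp ht.hh.triv ht.hh.kperf ht.hh.res ht.kE ht.EH hθ a ha h1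
  rw [hxa]
  exact BC_sum_mem fun i => ht.rac (a i) (ha i) (h2 i)

/-- Types are preserved by base change.

Proof. Type I: let `z ∉ adj E θ` (`mem_of_adj`: otherwise `z ∈ E`). For `w ∈ adj E θ`, algebraic over
`E`, there is `e ∈ E` with `‖z - e‖ ≤ ‖z - w‖` (`Tame.proj`) and `e' ∈ E` with
`‖z - e'‖ < ‖z - e‖`. Type II: the norms of `adj E θ` are those of `E` (`norm_adj`). -/
theorem Ty.bc {p : ℕ} [Fact p.Prime] [CharP Ω p] [IsAlgClosed Ω]
    {k E H : Subfield Ω} (ht : Tame p k E H) {θ : Ω} (hθ : θ ∈ abar k) {z : Ω} (hz : z ∈ H) :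
    (TyI E z → TyI (adj E θ) z) ∧ (TyII E z → TyII (adj E θ) z) := by
  have hθk : IsAlgebraic k θ := mem_abar.1 hθ
  have hθE : IsAlgebraic E θ := BC_up ht.kE hθk
  refine ⟨fun h => ⟨fun hz1 => h.1 (mem_of_adj ht.hh ht.kE ht.EH hθ hz1 hz), ?_⟩,
    fun h => ⟨h.1, ?_⟩⟩
  · intro w hw
    obtain ⟨e, he, hew⟩ := ht.proj (BC_alg hθE w hw)
    obtain ⟨e', he', hee⟩ := h.2 e he
    exact ⟨e', le_adj E θ he', hee.trans_le (hew z hz)⟩
  · intro n hn e he h1
    obtain ⟨a, ha, hae⟩ := norm_adj ht.hh ht.kE ht.EH hθ he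
    exact h.2 n hn a ha (h1.trans hae.symm)

end Pool.Agent.R4U
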