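import Pool.Agent.Lib.MP_4ed7e0_lc_U.Defs

/-!
# MP_4ed7e0_lc, project U: the Banach ultrapower
-/

set_option autoImplicit false

namespace Pool.Agent.R4U

noncomputable section

universe u

open Filter Topology

/-- The ring of bounded sequences. -/
def bdd (C : Type u) [NormedField C] [IsUltrametricDist C] : Subring (ℕ → C) where
  carrier := {f | ∃ M : ℝ, ∀ n, ‖f n‖ ≤ M}
  mul_mem' := by
    rintro a b ⟨M, hM⟩ ⟨N, hN⟩
    refine ⟨M * N, fun n => ?_⟩
    have h1 : (0 : ℝ) ≤ M := (norm_nonneg _).trans (hM n)
    rw [Pi.mul_apply, norm_mul]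
    exact mul_le_mul (hM n) (hN n) (norm_nonneg _) h1
  one_mem' := ⟨1, fun n => by simp⟩
  add_mem' := by
    rintro a b ⟨M, hM⟩ ⟨N, hN⟩
    exact ⟨M + N, fun n => (norm_add_le _ _).trans (add_le_add (hM n) (hN n))⟩
  zero_mem' := ⟨0, fun n => by simp⟩
  neg_mem' := by
    rintro a ⟨M, hM⟩
    exact ⟨M, fun n => by simpa using hM n⟩

/-- `B` is the quotient of the ring of bounded sequences in `C` by the sequences tending to zero
along the ultrafilter `hyperfilter ℕ`, with the limit norm. -/
structure IsBan (C B : Type u) [NormedField C] [IsUltrametricDist C] [NormedField B]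
    (π : bdd C →+* B) : Prop where
  surj : Function.Surjective π
  norm : ∀ f : bdd C, Tendsto (fun n => ‖(f : ℕ → C) n‖) (hyperfilter ℕ : Filter ℕ) (𝓝 ‖π f‖)

private theorem ban_lim {C : Type u} [NormedField C] [IsUltrametricDist C] (f : bdd C) :
    ∃ L : ℝ, Tendsto (fun n => ‖(f : ℕ → C) n‖) (hyperfilter ℕ : Filter ℕ) (𝓝 L) := by
  obtain ⟨M, hM⟩ := f.2
  have h := (isCompact_Icc (a := (0 : ℝ)) (b := M)).ultrafilter_le_nhds
    ((hyperfilter ℕ).map (fun n => ‖(f : ℕ → C) n‖)) (by
      rw [le_principal_iff, Ultrafilter.mem_coe, Ultrafilter.mem_map]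
      exact univ_mem' fun n => ⟨norm_nonneg _, hM n⟩)
  obtain ⟨L, _, hL⟩ := h
  exact ⟨L, hL⟩

private noncomputable def banN {C : Type u} [NormedField C] [IsUltrametricDist C]
    (f : bdd C) : ℝ := (ban_lim f).choose

private theorem banN_spec {C : Type u} [NormedField C] [IsUltrametricDist C] (f : bdd C) :
    Tendsto (fun n => ‖(f : ℕ → C) n‖) (hyperfilter ℕ : Filter ℕ) (𝓝 (banN f)) :=
  (ban_lim f).choose_spec

private theorem banN_eq {C : Type u} [NormedField C] [IsUltrametricDist C] {f : bdd C} {L : ℝ}
    (h : Tendsto (fun n => ‖(f : ℕ → C) n‖) (hyperfilter ℕ : Filter ℕ) (𝓝 L)) : banN f = L :=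
  tendsto_nhds_unique (banN_spec f) h

private theorem banN_nonneg {C : Type u} [NormedField C] [IsUltrametricDist C] (f : bdd C) :
    0 ≤ banN f :=
  ge_of_tendsto (banN_spec f) (Eventually.of_forall fun _ => norm_nonneg _)

private theorem banN_mul {C : Type u} [NormedField C] [IsUltrametricDist C] (f g : bdd C) :
    banN (f * g) = banN f * banN g := by
  refine banN_eq ?_
  refine ((banN_spec f).mul (banN_spec g)).congr fun n => ?_
  simp

private theorem banN_add {C : Type u} [NormedField C] [IsUltrametricDist C] (f g : bdd C) :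
    banN (f + g) ≤ max (banN f) (banN g) := by
  refine le_of_tendsto_of_tendsto' (banN_spec (f + g)) ((banN_spec f).max (banN_spec g))
    fun n => ?_
  exact IsUltrametricDist.norm_add_le_max _ _

private theorem banN_one {C : Type u} [NormedField C] [IsUltrametricDist C] :
    banN (1 : bdd C) = 1 := by
  refine banN_eq ?_
  simp

private theorem banN_zero {C : Type u} [NormedField C] [IsUltrametricDist C] :
    banN (0 : bdd C) = 0 := by
  refine banN_eq ?_
  simp

private theorem banN_neg {C : Type u} [NormedField C] [IsUltrametricDist C] (f : bdd C) :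
    banN (-f) = banN f := by
  refine banN_eq ?_
  simpa using banN_spec f

private noncomputable def banI (C : Type u) [NormedField C] [IsUltrametricDist C] :
    Ideal (bdd C) where
  carrier := {f | banN f = 0}
  add_mem' := by
    intro a b ha hb
    have h := banN_add a b
    rw [Set.mem_setOf_eq] at ha hb ⊢
    rw [ha, hb, max_self] at h
    exact le_antisymm h (banN_nonneg _)
  zero_mem' := banN_zero
  smul_mem' := by
    intro c x hx
    rw [Set.mem_setOf_eq] at hx ⊢
    rw [smul_eq_mul, banN_mul, hx, mul_zero]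

private theorem mem_banI {C : Type u} [NormedField C] [IsUltrametricDist C] {f : bdd C} :
    f ∈ banI C ↔ banN f = 0 := Iff.rfl

private theorem ban_inv {C : Type u} [NormedField C] [IsUltrametricDist C] {f : bdd C}
    (h : banN f ≠ 0) : ∃ g : bdd C, f * g - 1 ∈ banI C := by
  have hpos : 0 < banN f := lt_of_le_of_ne (banN_nonneg f) (Ne.symm h)
  have hev : ∀ᶠ n in (hyperfilter ℕ : Filter ℕ), banN f / 2 < ‖(f : ℕ → C) n‖ :=
    (banN_spec f).eventually (lt_mem_nhds (half_lt_self hpos))
  classical
  let g0 : ℕ → C := fun n => if banN f / 2 < ‖(f : ℕ → C) n‖ then ((f : ℕ → C) n)⁻¹ else 0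
  have hg : g0 ∈ bdd C := by
    refine ⟨(banN f / 2)⁻¹, fun n => ?_⟩
    by_cases hn : banN f / 2 < ‖(f : ℕ → C) n‖
    · simp only [g0, if_pos hn, norm_inv]
      exact inv_anti₀ (half_pos hpos) hn.le
    · simp only [g0, if_neg hn, norm_zero]
      exact inv_nonneg.2 (half_pos hpos).le
  refine ⟨⟨g0, hg⟩, ?_⟩
  rw [mem_banI]
  refine banN_eq ?_
  refine tendsto_const_nhds.congr' ?_
  filter_upwards [hev] with n hn
  have hne : (f : ℕ → C) n ≠ 0 := by
    intro h0
    rw [h0, norm_zero] at hn
    linarith
  have : (((f * ⟨g0, hg⟩ - 1 : bdd C) : ℕ → C)) n = 0 := by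
    simp [g0, if_pos hn, mul_inv_cancel₀ hne]
  rw [this, norm_zero]

private theorem ban_max {C : Type u} [NormedField C] [IsUltrametricDist C] :
    (banI C).IsMaximal := by
  rw [Ideal.isMaximal_iff]
  refine ⟨?_, ?_⟩
  · rw [mem_banI, banN_one]
    exact one_ne_zero
  · intro J x hIJ hx hxJ
    obtain ⟨g, hg⟩ := ban_inv (f := x) (fun h0 => hx (mem_banI.2 h0))
    have h1 : x * g - 1 ∈ J := hIJ hg
    have h2 : x * g ∈ J := J.mul_mem_right g hxJ
    have h3 := J.sub_mem h2 h1
    rwa [sub_sub_cancel] at h3

private theorem banN_congr {C : Type u} [NormedField C] [IsUltrametricDist C] {f g : bdd C}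
    (h : f - g ∈ banI C) : banN f = banN g := by
  rw [mem_banI] at h
  apply le_antisymm
  · have h1 := banN_add (f - g) g
    rw [h, sub_add_cancel, max_eq_right (banN_nonneg g)] at h1
    exact h1
  · have h2 : banN (g - f) = 0 := by
      rw [← neg_sub, banN_neg, h]
    have h1 := banN_add (g - f) f
    rw [h2, sub_add_cancel, max_eq_right (banN_nonneg f)] at h1
    exact h1

private noncomputable def banQ {C : Type u} [NormedField C] [IsUltrametricDist C] :
    (bdd C ⧸ banI C) → ℝ :=
  fun x => Quotient.liftOn' x banN (fun a b hab => banN_congr (by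
    have h := (Submodule.quotientRel_def (banI C)).1 hab
    exact h))

private theorem banQ_mk {C : Type u} [NormedField C] [IsUltrametricDist C] (f : bdd C) :
    banQ (Ideal.Quotient.mk (banI C) f) = banN f := rfl

/-- Existence of the Banach ultrapower.

Proof. For a bounded sequence `f` the bounded real sequence `‖f n‖` converges along the ultrafilter
(`Ultrafilter` and compactness of `Set.Icc 0 M`: `IsCompact.ultrafilter_le_nhds`); call the limit
`N f`. `N` is multiplicative, `N (f + g) ≤ max (N f) (N g)`, `N 1 = 1`. The elements with `N f = 0`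
form an ideal `I`; it is maximal: if `N f ≠ 0` then `‖f n‖ ≥ N f / 2` for almost all `n`, let `g n`
be the inverse of `f n` for these `n` and zero otherwise; `g` is bounded and `f * g = 1` on a set of
the ultrafilter, so `N (f * g - 1) = 0`. `B = bdd C ⧸ I` with the `Field` structure
`Ideal.Quotient.field` and the norm induced by `N` (`N f` depends only on the class of `f`), for
instance with `NormedField` built from an absolute value or by hand. Ultrametric:
`IsUltrametricDist.isUltrametricDist_of_forall_norm_add_le_max_norm` or similar. -/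
theorem ban (C : Type u) [NormedField C] [IsUltrametricDist C] :
    ∃ (B : Type u) (_ : NormedField B) (_ : IsUltrametricDist B) (π : bdd C →+* B),
      IsBan C B π := by
  haveI := ban_max (C := C)
  letI fi : Field (bdd C ⧸ banI C) := Ideal.Quotient.field (banI C)
  have hsurj : Function.Surjective (Ideal.Quotient.mk (banI C)) := Ideal.Quotient.mk_surjective
  let v : AbsoluteValue (bdd C ⧸ banI C) ℝ :=
    { toFun := banQ
      map_mul' := by
        intro x y
        obtain ⟨a, rfl⟩ := hsurj x
        obtain ⟨b, rfl⟩ := hsurj y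
        rw [← map_mul, banQ_mk, banQ_mk, banQ_mk, banN_mul]
      nonneg' := by
        intro x
        obtain ⟨a, rfl⟩ := hsurj x
        rw [banQ_mk]
        exact banN_nonneg a
      eq_zero' := by
        intro x
        obtain ⟨a, rfl⟩ := hsurj x
        rw [banQ_mk, Ideal.Quotient.eq_zero_iff_mem, mem_banI]
      add_le' := by
        intro x y
        obtain ⟨a, rfl⟩ := hsurj x
        obtain ⟨b, rfl⟩ := hsurj y
        rw [← map_add, banQ_mk, banQ_mk, banQ_mk]
        exact (banN_add a b).trans (max_le_add_of_nonneg (banN_nonneg a) (banN_nonneg b)) }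
  letI nf : NormedField (bdd C ⧸ banI C) := v.toNormedField
  have hnorm : ∀ x : bdd C ⧸ banI C, ‖x‖ = banQ x := fun x => rfl
  have hu : IsUltrametricDist (bdd C ⧸ banI C) := by
    refine IsUltrametricDist.isUltrametricDist_of_forall_norm_add_le_max_norm fun x y => ?_
    obtain ⟨a, rfl⟩ := hsurj x
    obtain ⟨b, rfl⟩ := hsurj y
    rw [← map_add, hnorm, hnorm, hnorm, banQ_mk, banQ_mk, banQ_mk]
    exact banN_add a b
  refine ⟨bdd C ⧸ banI C, nf, hu, Ideal.Quotient.mk (banI C), hsurj, fun f => ?_⟩
  rw [hnorm, banQ_mk]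
  exact banN_spec f

/-- Proof. Constant sequences. -/
theorem IsBan.emb {C B : Type u} [NormedField C] [IsUltrametricDist C] [NormedField B]
    {π : bdd C →+* B} (h : IsBan C B π) : ∃ i : C →+* B, ∀ x, ‖i x‖ = ‖x‖ := by
  let c : C →+* bdd C :=
    { toFun := fun x => ⟨fun _ => x, ‖x‖, fun _ => le_rfl⟩
      map_one' := rfl
      map_mul' := fun _ _ => rfl
      map_zero' := rfl
      map_add' := fun _ _ => rfl }
  refine ⟨π.comp c, fun x => ?_⟩
  exact tendsto_nhds_unique (h.norm (c x)) tendsto_const_nhds

end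

end Pool.Agent.R4U
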