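import Pool.Agent.Lib.MP_4ed7e0_lc_U.Ban

/-!
# MP_4ed7e0_lc, project U: the Banach ultrapower is algebraically closed
-/

set_option autoImplicit false

namespace Pool.Agent.R4U

universe u

open Filter Topology

/-- The Banach ultrapower of an algebraically closed field is algebraically closed.

Proof. `IsAlgClosed.of_exists_root`: let `P` be a monic (irreducible) polynomial over `B` of degree
`d > 0`. Choose `f i : bdd C` with `π (f i) = P.coeff i` for `i < d`, and let
`Q n = X ^ d + ∑ i < d, C (f i n) * X ^ i`, a polynomial over `C` of degree `d`; let `g n` be a root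
of `Q n`. If `M ≥ 1` bounds all `‖f i n‖` then `‖g n‖ ≤ M` (if `‖g n‖ > M` the leading term
dominates). So `g ∈ bdd C` and `g ^ d + ∑ f i * g ^ i = 0` in the ring `bdd C`; apply `π`. -/
theorem IsBan.algClosed {C B : Type u} [NormedField C] [IsUltrametricDist C] [NormedField B]
    {π : bdd C →+* B} (h : IsBan C B π) [IsAlgClosed C] : IsAlgClosed B := by
  classical
  refine IsAlgClosed.of_exists_root B (fun P hP hirr => ?_)
  set d : ℕ := P.natDegree with hd
  have hd0 : 0 < d := hirr.natDegree_pos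
  choose F hF using fun i : ℕ => h.surj (P.coeff i)
  choose N hN using fun i : ℕ => (F i).2
  -- a common bound
  obtain ⟨M, hM1, hM⟩ : ∃ M : ℝ, 1 ≤ M ∧ ∀ i < d, ∀ n, ‖(F i : ℕ → C) n‖ ≤ M := by
    refine ⟨1 + ∑ i ∈ Finset.range d, |N i|, ?_, fun i hi n => ?_⟩
    · have : 0 ≤ ∑ i ∈ Finset.range d, |N i| := Finset.sum_nonneg (fun _ _ => abs_nonneg _)
      linarith
    · have h1 : |N i| ≤ ∑ i ∈ Finset.range d, |N i| :=
        Finset.single_le_sum (f := fun i => |N i|) (fun _ _ => abs_nonneg _)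
          (Finset.mem_range.mpr hi)
      have h2 := hN i n
      have h3 := le_abs_self (N i)
      linarith
  have hM0 : 0 ≤ M := by linarith
  -- the roots
  have hroot : ∀ n : ℕ, ∃ g : C, g ^ d + ∑ i ∈ Finset.range d, (F i : ℕ → C) n * g ^ i = 0 := by
    intro n
    set Q : Polynomial C := Polynomial.X ^ d +
      ∑ i ∈ Finset.range d, Polynomial.C ((F i : ℕ → C) n) * Polynomial.X ^ i with hQ
    have hdegS : (∑ i ∈ Finset.range d,
        Polynomial.C ((F i : ℕ → C) n) * Polynomial.X ^ i).degree < (d : WithBot ℕ) := by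
      refine (Polynomial.degree_sum_le _ _).trans_lt ?_
      refine (Finset.sup_lt_iff (WithBot.bot_lt_coe d)).mpr (fun i hi => ?_)
      exact (Polynomial.degree_C_mul_X_pow_le i _).trans_lt
        (WithBot.coe_lt_coe.mpr (Finset.mem_range.mp hi))
    have hdegQ : Q.degree = d := by
      rw [hQ, Polynomial.degree_add_eq_left_of_degree_lt, Polynomial.degree_X_pow]
      rwa [Polynomial.degree_X_pow]
    obtain ⟨g, hg⟩ := IsAlgClosed.exists_root Q (by
      rw [hdegQ]
      exact_mod_cast hd0.ne')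
    refine ⟨g, ?_⟩
    have h1 : Q.eval g = 0 := hg
    rw [hQ, Polynomial.eval_add, Polynomial.eval_pow, Polynomial.eval_X,
      Polynomial.eval_finsetSum] at h1
    simpa using h1
  choose g hg using hroot
  have hgM : ∀ n, ‖g n‖ ≤ M := by
    intro n
    by_contra hcon
    rw [not_le] at hcon
    have hg0 : 0 < ‖g n‖ := by linarith
    have hg1 : 1 ≤ ‖g n‖ := by linarith
    have h1 : ‖∑ i ∈ Finset.range d, (F i : ℕ → C) n * g n ^ i‖ ≤ M * ‖g n‖ ^ (d - 1) := by
      refine IsUltrametricDist.norm_sum_le_of_forall_le_of_nonneg (by positivity)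
        (fun i hi => ?_)
      rw [norm_mul, norm_pow]
      exact mul_le_mul (hM i (Finset.mem_range.mp hi) n)
        (pow_le_pow_right₀ hg1 (by have := Finset.mem_range.mp hi; omega)) (by positivity) hM0
    have h2 : g n ^ d = -∑ i ∈ Finset.range d, (F i : ℕ → C) n * g n ^ i :=
      eq_neg_of_add_eq_zero_left (hg n)
    have h3 : ‖g n‖ ^ d ≤ M * ‖g n‖ ^ (d - 1) := by
      rw [← norm_pow, h2, norm_neg]
      exact h1
    have h4 : ‖g n‖ ^ d = ‖g n‖ * ‖g n‖ ^ (d - 1) := by
      rw [← pow_succ', Nat.sub_add_cancel hd0]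
    rw [h4] at h3
    have h5 : ‖g n‖ ≤ M := le_of_mul_le_mul_right h3 (by positivity)
    linarith
  let G : bdd C := ⟨g, M, hgM⟩
  have hG : G ^ d + ∑ i ∈ Finset.range d, F i * G ^ i = 0 := by
    apply Subtype.ext
    funext n
    have h1 := hg n
    have h2 : ((G ^ d + ∑ i ∈ Finset.range d, F i * G ^ i : bdd C) : ℕ → C) n =
        g n ^ d + ∑ i ∈ Finset.range d, (F i : ℕ → C) n * g n ^ i := by
      rw [Subring.coe_add, Pi.add_apply, Subring.coe_pow, Pi.pow_apply]
      congr 1
      rw [AddSubmonoidClass.coe_finsetSum, Finset.sum_apply]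
      rfl
    rw [h2, h1]
    rfl
  refine ⟨π G, ?_⟩
  have h1 := congrArg π hG
  rw [map_add, map_pow, map_sum, map_zero] at h1
  rw [Polynomial.eval_eq_sum_range, Finset.sum_range_succ, ← hd]
  have h2 : P.coeff d = 1 := hP
  rw [h2, one_mul, add_comm, ← h1]
  congr 1
  refine Finset.sum_congr rfl (fun i _ => ?_)
  rw [map_mul, map_pow, hF]

end Pool.Agent.R4U
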