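import Pool.Agent.Lib.MP_4ed7e0_lc_U.Lau

/-!
# MP_4ed7e0_lc, project U: the field `cl k z` for trivially normed `k` is `k((t))`
-/

set_option autoImplicit false

namespace Pool.Agent.R4U

universe u

variable {Ω : Type u} [NormedField Ω] [IsUltrametricDist Ω]

omit [IsUltrametricDist Ω] in
private theorem Base_tyII {k : Subfield Ω} (hk : Triv k) {z : Ω} (h0 : z ≠ 0) (h1 : ‖z‖ < 1) :
    TyII k z := by
  have hz : 0 < ‖z‖ := norm_pos_iff.2 h0
  refine ⟨h0, fun n hn e he heq => ?_⟩
  rcases eq_or_ne e 0 with h | h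
  · rw [h, norm_zero] at heq
    exact (zpow_pos hz n).ne' heq
  · rw [hk e he h] at heq
    exact hn ((zpow_eq_one_iff_right₀ hz.le h1.ne).1 heq)

private theorem Base_ev_le {k : Subfield Ω} (hk : Triv k) {z : Ω} (h1 : ‖z‖ ≤ 1)
    (P : Polynomial k) : ‖Polynomial.aeval z P‖ ≤ 1 := by
  rw [Polynomial.aeval_eq_sum_range]
  refine IsUltrametricDist.norm_sum_le_of_forall_le_of_nonneg zero_le_one fun i _ => ?_
  have e : P.coeff i • z ^ i = ((P.coeff i : k) : Ω) * z ^ i := rfl
  rw [e, norm_mul, norm_pow]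
  refine mul_le_one₀ ?_ (by positivity) (pow_le_one₀ (norm_nonneg _) h1)
  rcases eq_or_ne ((P.coeff i : k) : Ω) 0 with h | h
  · rw [h, norm_zero]
    exact zero_le_one
  · exact (hk _ (P.coeff i).2 h).le

/-- Polynomials with small values have vanishing first coefficients. -/
private theorem Base_coeff {k : Subfield Ω} (hk : Triv k) {z : Ω} (h0 : z ≠ 0) (h1 : ‖z‖ < 1)
    {P : Polynomial k} {n : ℕ} (h : ‖Polynomial.aeval z P‖ < ‖z‖ ^ n) (i : ℕ) (hi : i ≤ n) :
    P.coeff i = 0 := by
  classical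
  by_contra hne
  have hz : 0 < ‖z‖ := norm_pos_iff.2 h0
  have hP : P ≠ 0 := by
    rintro rfl
    exact hne (Polynomial.coeff_zero i)
  set j := P.natTrailingDegree with hj
  have hji : j ≤ i := Polynomial.natTrailingDegree_le_of_ne_zero hne
  obtain ⟨E, hE⟩ : Polynomial.X ^ j ∣ P := by
    rw [Polynomial.X_pow_dvd_iff]
    intro d hd
    exact Polynomial.coeff_eq_zero_of_lt_natTrailingDegree hd
  have hE0 : E.coeff 0 ≠ 0 := by
    have h2 : P.coeff j ≠ 0 := by
      rw [hj]
      exact Polynomial.trailingCoeff_nonzero_iff_nonzero.2 hP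
    rw [hE, Polynomial.coeff_X_pow_mul', if_pos le_rfl, Nat.sub_self] at h2
    exact h2
  have hE2 : ‖Polynomial.aeval z E‖ = 1 := by
    have h3 : Polynomial.aeval z E = z * Polynomial.aeval z E.divX + ((E.coeff 0 : k) : Ω) := by
      conv_lhs => rw [← Polynomial.divX_mul_X_add E]
      rw [map_add, map_mul, Polynomial.aeval_X, Polynomial.aeval_C, mul_comm]
      rfl
    have h4 : ‖((E.coeff 0 : k) : Ω)‖ = 1 := hk _ (E.coeff 0).2 (by
      intro h5
      exact hE0 (Subtype.ext h5))
    have h5 : ‖z * Polynomial.aeval z E.divX‖ < 1 := by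
      rw [norm_mul]
      calc ‖z‖ * ‖Polynomial.aeval z E.divX‖ ≤ ‖z‖ * 1 :=
            mul_le_mul_of_nonneg_left (Base_ev_le hk h1.le _) (norm_nonneg _)
        _ < 1 := by rwa [mul_one]
    rw [h3, IsUltrametricDist.norm_add_eq_max_of_norm_ne_norm (by rw [h4]; exact h5.ne), h4,
      max_eq_right h5.le]
  rw [hE, map_mul, map_pow, Polynomial.aeval_X, norm_mul, hE2, mul_one, norm_pow] at h
  exact absurd h (not_lt.2 (pow_le_pow_of_le_one hz.le h1.le (hji.trans hi)))

private theorem Base_approx {k : Subfield Ω} (hk : Triv k) {z : Ω} (h0 : z ≠ 0) (h1 : ‖z‖ < 1)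
    {x : Ω} (hx : x ∈ cl k z) (hx1 : ‖x‖ ≤ 1) (n : ℕ) :
    ∃ P : Polynomial k, ‖x - Polynomial.aeval z P‖ < ‖z‖ ^ n := by
  classical
  have hz : 0 < ‖z‖ := norm_pos_iff.2 h0
  have hII := Base_tyII hk h0 h1
  obtain ⟨J, a, ha, hxa⟩ := denseII hII hx (pow_pos hz n)
  set w := ∑ i ∈ J, a i * z ^ i with hw
  have hw1 : ‖w‖ ≤ 1 := by
    have e : w = x + -(x - w) := by ring
    rw [e]
    refine (IsUltrametricDist.norm_add_le_max _ _).trans (max_le hx1 ?_)
    rw [norm_neg]
    exact hxa.le.trans (pow_le_one₀ hz.le h1.le)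
  have hneg : ∀ i ∈ J, i < 0 → a i = 0 := by
    intro i hi hi0
    by_contra hai
    obtain ⟨j, hj, hj0, hdom, -, hn⟩ := orthII hII J ha ⟨i, hi, hai⟩
    have h2 : ‖a i * z ^ i‖ ≤ ‖w‖ := by
      rw [hn]
      rcases eq_or_ne i j with h | h
      · rw [h]
      · exact (hdom i hi h).le
    rw [norm_mul, hk _ (ha i) hai, one_mul, norm_zpow] at h2
    have h3 : 1 < ‖z‖ ^ i := by
      obtain ⟨m, rfl⟩ : ∃ m : ℤ, i = -m := ⟨-i, by ring⟩
      rw [zpow_neg]
      exact (one_lt_inv₀ (zpow_pos hz m)).2 (zpow_lt_one₀ hz h1 (by omega))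
    exact absurd (h2.trans hw1) (not_le.2 h3)
  refine ⟨∑ i ∈ J, if 0 ≤ i then Polynomial.C (⟨a i, ha i⟩ : k) * Polynomial.X ^ i.toNat else 0,
    ?_⟩
  have h4 : Polynomial.aeval z (∑ i ∈ J, if 0 ≤ i then
      Polynomial.C (⟨a i, ha i⟩ : k) * Polynomial.X ^ i.toNat else 0) = w := by
    rw [map_sum, hw]
    refine Finset.sum_congr rfl fun i hi => ?_
    split_ifs with h
    · rw [map_mul, map_pow, Polynomial.aeval_X, Polynomial.aeval_C]
      have h5 : z ^ i = z ^ i.toNat := by
        conv_lhs => rw [← Int.toNat_of_nonneg h]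
        exact zpow_natCast z _
      rw [h5]
      rfl
    · rw [map_zero, hneg i hi (not_le.1 h), zero_mul]
  rw [h4]
  exact hxa

private def Base_O (k : Subfield Ω) (z : Ω) : Subring ↥(cl k z) where
  carrier := {x | ‖(x : Ω)‖ ≤ 1}
  mul_mem' := fun {a b} ha hb => by
    change ‖(a : Ω) * b‖ ≤ 1
    rw [norm_mul]
    exact mul_le_one₀ ha (norm_nonneg _) hb
  one_mem' := by
    change ‖(1 : Ω)‖ ≤ 1
    rw [norm_one]
  add_mem' := fun {a b} ha hb =>
    (IsUltrametricDist.norm_add_le_max (a : Ω) b).trans (max_le ha hb)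
  zero_mem' := by
    change ‖(0 : Ω)‖ ≤ 1
    rw [norm_zero]
    exact zero_le_one
  neg_mem' := fun {a} ha => by
    change ‖-(a : Ω)‖ ≤ 1
    rw [norm_neg]
    exact ha

/-- For trivially normed `k` and `0 < ‖z‖ < 1` the closure of `k(z)` embeds in `k((t))` over `k`.

Proof. `z` is of type II over `k` (`‖z‖ ^ n ≠ 1` for `n ≠ 0`). Let `O` be the ring of all
`x ∈ cl k z` with `‖x‖ ≤ 1`, a subring with field of fractions `cl k z` (multiply by a power of
`z`, `valII`). For `x ∈ O` and `n` there is a polynomial `P` over `k` with `‖x - P(z)‖ < ‖z‖ ^ n`: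
take a Laurent polynomial `w` by `denseII`, `‖w‖ ≤ 1`, so by `orthII` it has no negative exponents.
For a polynomial `Q` over `k`, `‖Q(z)‖ = ‖z‖ ^ i`, `i` the smallest exponent with a nonzero
coefficient. So the coefficient of index `n` of `P` depends only on `x` and `n` (not on `P`); call
it `c n x`. The map `x ↦ PowerSeries.mk (fun n => c n x)` is a ring homomorphism on `O`: for the
product, if `P, Q` approximate `x, y` then `P * Q` approximates `x * y`
(`‖x * y - (P * Q)(z)‖ < ‖z‖ ^ n`, norms at most one), and `P` also serves for all smaller indices.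
It is injective (if all coefficients vanish then `‖x‖ < ‖z‖ ^ n` for all `n`), so it extends to the
field of fractions `cl k z → LaurentSeries k` (`IsFractionRing.lift`). Constants go to constants. -/
theorem base {k : Subfield Ω} (hk : Triv k) {z : Ω} (h0 : z ≠ 0) (h1 : ‖z‖ < 1) :
    ∃ φ : ↥(cl k z) →+* LaurentSeries ↥k,
      ∀ c : ↥k, φ ⟨c, le_cl k z c.2⟩ = algebraMap ↥k (LaurentSeries ↥k) c := by
  classical
  have hz : 0 < ‖z‖ := norm_pos_iff.2 h0
  have happ : ∀ (x : Base_O k z) (n : ℕ), ∃ P : Polynomial k,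
      ‖((x : ↥(cl k z)) : Ω) - Polynomial.aeval z P‖ < ‖z‖ ^ n := fun x n =>
    Base_approx hk h0 h1 (x : ↥(cl k z)).2 x.2 n
  choose A hA using happ
  have hcf : ∀ (x : Base_O k z) (n : ℕ) (P : Polynomial k),
      ‖((x : ↥(cl k z)) : Ω) - Polynomial.aeval z P‖ < ‖z‖ ^ n → ∀ i ≤ n,
        (A x i).coeff i = P.coeff i := by
    intro x n P hP i hi
    have h2 : ‖Polynomial.aeval z (A x i - P)‖ < ‖z‖ ^ i := by
      have e : Polynomial.aeval z (A x i - P) =
          (((x : ↥(cl k z)) : Ω) - Polynomial.aeval z P) +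
            -(((x : ↥(cl k z)) : Ω) - Polynomial.aeval z (A x i)) := by
        rw [map_sub]
        ring
      rw [e]
      refine lt_of_le_of_lt (IsUltrametricDist.norm_add_le_max _ _) (max_lt ?_ ?_)
      · exact hP.trans_le (pow_le_pow_of_le_one hz.le h1.le hi)
      · rw [norm_neg]
        exact hA x i
    have h3 := Base_coeff hk h0 h1 h2 i le_rfl
    rw [Polynomial.coeff_sub, sub_eq_zero] at h3
    exact h3
  have hmk : ∀ (x : Base_O k z) (n : ℕ),
      PowerSeries.coeff n (PowerSeries.mk fun n => (A x n).coeff n) = (A x n).coeff n :=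
    fun x n => PowerSeries.coeff_mk n _
  let ψ : Base_O k z →+* PowerSeries k :=
    { toFun := fun x => PowerSeries.mk fun n => (A x n).coeff n
      map_one' := by
        ext n
        rw [hmk, hcf 1 n 1 (by
          have e : (((1 : Base_O k z) : ↥(cl k z)) : Ω) = 1 := rfl
          rw [map_one, e, sub_self, norm_zero]
          exact pow_pos hz n) n le_rfl, PowerSeries.coeff_one, Polynomial.coeff_one]
      map_zero' := by
        ext n
        rw [hmk, hcf 0 n 0 (by
          have e : (((0 : Base_O k z) : ↥(cl k z)) : Ω) = 0 := rfl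
          rw [map_zero, e, sub_self, norm_zero]
          exact pow_pos hz n) n le_rfl]
        simp
      map_add' := fun x y => by
        ext n
        rw [map_add, hmk, hmk, hmk, hcf (x + y) n (A x n + A y n) (by
          have e : (((x + y : Base_O k z) : ↥(cl k z)) : Ω) -
              Polynomial.aeval z (A x n + A y n) =
              (((x : ↥(cl k z)) : Ω) - Polynomial.aeval z (A x n)) +
              (((y : ↥(cl k z)) : Ω) - Polynomial.aeval z (A y n)) := by
            rw [map_add]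
            change ((x : ↥(cl k z)) : Ω) + ((y : ↥(cl k z)) : Ω) - _ = _
            ring
          rw [e]
          exact lt_of_le_of_lt (IsUltrametricDist.norm_add_le_max _ _)
            (max_lt (hA x n) (hA y n))) n le_rfl, Polynomial.coeff_add]
      map_mul' := fun x y => by
        ext n
        rw [hmk, hcf (x * y) n (A x n * A y n) (by
          have e : (((x * y : Base_O k z) : ↥(cl k z)) : Ω) -
              Polynomial.aeval z (A x n * A y n) =
              ((x : ↥(cl k z)) : Ω) *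
                (((y : ↥(cl k z)) : Ω) - Polynomial.aeval z (A y n)) +
              (((x : ↥(cl k z)) : Ω) - Polynomial.aeval z (A x n)) *
                Polynomial.aeval z (A y n) := by
            rw [map_mul]
            change ((x : ↥(cl k z)) : Ω) * ((y : ↥(cl k z)) : Ω) - _ = _
            ring
          rw [e]
          refine lt_of_le_of_lt (IsUltrametricDist.norm_add_le_max _ _) (max_lt ?_ ?_)
          · rw [norm_mul]
            calc ‖((x : ↥(cl k z)) : Ω)‖ * ‖((y : ↥(cl k z)) : Ω) - Polynomial.aeval z (A y n)‖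
                ≤ 1 * ‖((y : ↥(cl k z)) : Ω) - Polynomial.aeval z (A y n)‖ :=
                  mul_le_mul_of_nonneg_right x.2 (norm_nonneg _)
              _ < ‖z‖ ^ n := by rw [one_mul]; exact hA y n
          · rw [norm_mul]
            calc ‖((x : ↥(cl k z)) : Ω) - Polynomial.aeval z (A x n)‖ *
                  ‖Polynomial.aeval z (A y n)‖
                ≤ ‖((x : ↥(cl k z)) : Ω) - Polynomial.aeval z (A x n)‖ * 1 :=
                  mul_le_mul_of_nonneg_left (Base_ev_le hk h1.le _) (norm_nonneg _)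
              _ < ‖z‖ ^ n := by rw [mul_one]; exact hA x n) n le_rfl, Polynomial.coeff_mul,
          PowerSeries.coeff_mul]
        refine congrArg (fun t : k => (t : Ω)) ?_
        refine Finset.sum_congr rfl fun p hp => ?_
        have hp' := Finset.HasAntidiagonal.mem_antidiagonal.1 hp
        rw [hmk, hmk, hcf x n (A x n) (hA x n) p.1 (by omega),
          hcf y n (A y n) (hA y n) p.2 (by omega)] }
  have hψ : ∀ (x : Base_O k z) (n : ℕ), PowerSeries.coeff n (ψ x) = (A x n).coeff n := hmk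
  have hinj : Function.Injective ψ := by
    refine (injective_iff_map_eq_zero ψ).2 fun x hx => ?_
    have hc : ∀ n, (A x n).coeff n = 0 := by
      intro n
      rw [← hψ, hx]
      exact map_zero (PowerSeries.coeff (R := k) n)
    have hle : ∀ n : ℕ, ‖((x : ↥(cl k z)) : Ω)‖ ≤ ‖z‖ ^ n := by
      intro n
      have h2 : ‖Polynomial.aeval z (A x n)‖ ≤ ‖z‖ ^ n := by
        obtain ⟨E, hE⟩ : Polynomial.X ^ (n + 1) ∣ A x n := by
          rw [Polynomial.X_pow_dvd_iff]
          intro d hd
          rw [← hcf x n (A x n) (hA x n) d (by omega)]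
          exact hc d
        rw [hE, map_mul, map_pow, Polynomial.aeval_X, norm_mul, norm_pow]
        calc ‖z‖ ^ (n + 1) * ‖Polynomial.aeval z E‖ ≤ ‖z‖ ^ (n + 1) * 1 :=
              mul_le_mul_of_nonneg_left (Base_ev_le hk h1.le _) (by positivity)
          _ ≤ ‖z‖ ^ n := by
            rw [mul_one]
            exact pow_le_pow_of_le_one hz.le h1.le (Nat.le_succ n)
      have e : ((x : ↥(cl k z)) : Ω) = (((x : ↥(cl k z)) : Ω) - Polynomial.aeval z (A x n)) +
          Polynomial.aeval z (A x n) := by ring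
      rw [e]
      exact (IsUltrametricDist.norm_add_le_max _ _).trans (max_le (hA x n).le h2)
    have h3 : ‖((x : ↥(cl k z)) : Ω)‖ ≤ 0 :=
      ge_of_tendsto' (tendsto_pow_atTop_nhds_zero_of_lt_one hz.le h1) hle
    have h4 : ((x : ↥(cl k z)) : Ω) = 0 := norm_le_zero_iff.1 h3
    exact Subtype.ext (Subtype.ext h4)
  have hfrac : IsFractionRing (Base_O k z) ↥(cl k z) := by
    refine IsFractionRing.of_field _ _ fun x => ?_
    obtain ⟨m, hm⟩ : ∃ m : ℕ, ‖(x : Ω)‖ * ‖z‖ ^ m ≤ 1 := by
      have h2 : Filter.Tendsto (fun m : ℕ => ‖(x : Ω)‖ * ‖z‖ ^ m) Filter.atTop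
          (nhds (‖(x : Ω)‖ * 0)) :=
        (tendsto_pow_atTop_nhds_zero_of_lt_one hz.le h1).const_mul _
      rw [mul_zero] at h2
      exact ((h2.eventually (gt_mem_nhds zero_lt_one)).mono fun m hm => le_of_lt hm).exists
    let zz : ↥(cl k z) := ⟨z, mem_cl k z⟩
    have hzz : zz ≠ 0 := fun h => h0 (congrArg Subtype.val h)
    refine ⟨⟨x * zz ^ m, ?_⟩, ⟨zz ^ m, ?_⟩, ?_⟩
    · change ‖((x * zz ^ m : ↥(cl k z)) : Ω)‖ ≤ 1
      have e : ((x * zz ^ m : ↥(cl k z)) : Ω) = (x : Ω) * z ^ m := rfl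
      rw [e, norm_mul, norm_pow]
      exact hm
    · change ‖((zz ^ m : ↥(cl k z)) : Ω)‖ ≤ 1
      have e : ((zz ^ m : ↥(cl k z)) : Ω) = z ^ m := rfl
      rw [e, norm_pow]
      exact pow_le_one₀ hz.le h1.le
    · change x = (x * zz ^ m) / (zz ^ m)
      rw [mul_div_cancel_right₀ _ (pow_ne_zero m hzz)]
  have hginj : Function.Injective ((HahnSeries.ofPowerSeries ℤ k).comp ψ) := by
    intro x y hxy
    exact hinj (HahnSeries.ofPowerSeries_injective hxy)
  refine ⟨IsFractionRing.lift (A := Base_O k z) (K := ↥(cl k z)) (L := LaurentSeries ↥k) hginj,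
    fun c => ?_⟩
  have hcO : ‖((⟨c, le_cl k z c.2⟩ : ↥(cl k z)) : Ω)‖ ≤ 1 := by
    change ‖(c : Ω)‖ ≤ 1
    rcases eq_or_ne (c : Ω) 0 with h | h
    · rw [h, norm_zero]
      exact zero_le_one
    · exact (hk c c.2 h).le
  have h5 : (⟨c, le_cl k z c.2⟩ : ↥(cl k z)) =
      algebraMap (Base_O k z) ↥(cl k z) ⟨⟨c, le_cl k z c.2⟩, hcO⟩ := rfl
  rw [h5, IsFractionRing.lift_algebraMap, RingHom.comp_apply]
  have h6 : ψ ⟨⟨c, le_cl k z c.2⟩, hcO⟩ = PowerSeries.C c := by
    ext n
    rw [hψ, hcf _ n (Polynomial.C c) (by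
      rw [Polynomial.aeval_C]
      have e : (algebraMap k Ω) c = (c : Ω) := rfl
      rw [e]
      change ‖(c : Ω) - (c : Ω)‖ < _
      rw [sub_self, norm_zero]
      exact pow_pos hz n) n le_rfl, PowerSeries.coeff_C, Polynomial.coeff_C]
  rw [h6, HahnSeries.ofPowerSeries_C]
  exact (LaurentSeries.algebraMap_apply (K := k) c).symm

end Pool.Agent.R4U
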