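import Pool.Agent.Lib.MP_4ed7e0_lc_U.Defs

/-!
# MP_4ed7e0_lc, project U: closures of subrings which are fields, density
-/

set_option autoImplicit false

namespace Pool.Agent.R4U

universe u

open Filter Topology

variable {Ω : Type u} [NormedField Ω] [IsUltrametricDist Ω]

/-- If every nonzero element of the subring `R` has an approximate inverse in `R` then the closure
of `R` is a field.

Proof. Let `C` be the closure of `R`, a closed subring (`Subring.topologicalClosure`). It suffices
that `C` is closed under inverses (then `C` is a subfield which contains `R`, so it contains the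
subfield closure, and it is closed; the other inclusion is monotonicity of the closure). First let
`r ∈ R`, `r ≠ 0`, and `u ∈ R` with `δ = 1 - u * r`, `‖δ‖ < 1`. The partial sums
`u * ∑ i < n, δ ^ i ∈ R` converge to `u / (1 - δ) = r⁻¹` (geometric sum,
`r * u * ∑ i < n, δ ^ i = 1 - δ ^ n`). For `x ∈ C`, `x ≠ 0`, take `r ∈ R` tending to `x`; then
`r⁻¹` tends to `x⁻¹` and `r⁻¹ ∈ C`. -/
theorem cl_field (R : Subring Ω) (h : ∀ r ∈ R, r ≠ 0 → ∃ u ∈ R, ‖1 - u * r‖ < 1) :
    ((Subfield.closure (R : Set Ω)).topologicalClosure : Set Ω) = closure (R : Set Ω) := by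
  have hinvR : ∀ r ∈ R, r⁻¹ ∈ closure (R : Set Ω) := by
    intro r hr
    by_cases hr0 : r = 0
    · rw [hr0, inv_zero]
      exact subset_closure R.zero_mem
    obtain ⟨u, hu, hδ⟩ := h r hr hr0
    set δ : Ω := 1 - u * r with hδdef
    have hsum := (hasSum_geometric_of_norm_lt_one hδ).tendsto_sum_nat
    have h1 : 1 - δ = u * r := by rw [hδdef]; ring
    have hur : u * r ≠ 0 := by
      intro h0
      rw [hδdef, h0, sub_zero, norm_one] at hδ
      exact lt_irrefl _ hδ
    have hu0 : u ≠ 0 := left_ne_zero_of_mul hur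
    have hlim : Tendsto (fun n => u * ∑ i ∈ Finset.range n, δ ^ i) atTop (𝓝 r⁻¹) := by
      have h2 := hsum.const_mul u
      have h3 : u * (1 - δ)⁻¹ = r⁻¹ := by
        rw [h1]
        field_simp
      rwa [h3] at h2
    refine mem_closure_of_tendsto hlim (Eventually.of_forall fun n => ?_)
    have hδR : δ ∈ R := R.sub_mem R.one_mem (R.mul_mem hu hr)
    exact R.mul_mem hu (R.sum_mem fun i _ => R.pow_mem hδR i)
  have hinv : ∀ x ∈ closure (R : Set Ω), x⁻¹ ∈ closure (R : Set Ω) := by
    intro x hx
    by_cases hx0 : x = 0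
    · rw [hx0, inv_zero]
      exact subset_closure R.zero_mem
    obtain ⟨s, hs, hlim⟩ := mem_closure_iff_seq_limit.1 hx
    exact isClosed_closure.mem_of_tendsto (hlim.inv₀ hx0)
      (Eventually.of_forall fun n => hinvR (s n) (hs n))
  let C : Subfield Ω :=
    { R.topologicalClosure with
      inv_mem' := fun x hx => by
        have hx' : x ∈ closure (R : Set Ω) := hx
        exact hinv x hx' }
  have hCcoe : (C : Set Ω) = closure (R : Set Ω) := rfl
  have hle : Subfield.closure (R : Set Ω) ≤ C := by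
    refine Subfield.closure_le.2 ?_
    rw [hCcoe]
    exact subset_closure
  apply Set.Subset.antisymm
  · have hCc : IsClosed (C : Set Ω) := by
      rw [hCcoe]
      exact isClosed_closure
    have := Subfield.topologicalClosure_minimal _ hle hCc
    intro x hx
    have hx2 := this hx
    rwa [← SetLike.mem_coe, hCcoe] at hx2
  · have h4 : (R : Set Ω) ⊆ (Subfield.closure (R : Set Ω) : Set Ω) := Subfield.subset_closure
    exact closure_mono h4

/-- A closed subfield `A` of `B` which approximates all elements of a dense subset of `B` with a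
fixed relative error is equal to `B`.

Proof. First the approximation holds for all `x ∈ B`, `x ≠ 0`, with `c' = c`: take `w ∈ W` with
`‖x - w‖ < ‖x‖` and `‖x - w‖ ≤ c * ‖x‖` if `c > 0` (if `c = 0` then `W ⊆ A` and the claim is clear
because `A` is closed); then `‖w‖ = ‖x‖` and the `a` for `w` satisfies
`‖x - a‖ ≤ max ‖x - w‖ ‖w - a‖ ≤ c * ‖x‖`. Let `x ∈ B`. By induction there are `a n ∈ A` with
`‖x - a n‖ ≤ c ^ n * ‖x‖` (apply the first step to `x - a n ∈ B`, `A ≤ B`). So `x ∈ A`. -/
theorem dense_c {A B : Subfield Ω} (hA : IsClosed (A : Set Ω)) (hAB : A ≤ B) {W : Set Ω}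
    (hW : (B : Set Ω) ⊆ closure W) {c : ℝ} (hc0 : 0 ≤ c) (hc : c < 1)
    (h : ∀ w ∈ W, ∃ a ∈ A, ‖w - a‖ ≤ c * ‖w‖) : A = B := by
  refine le_antisymm hAB fun x hx => ?_
  rcases hc0.eq_or_lt with hc00 | hcpos
  · -- `c = 0`
    have hWA : W ⊆ (A : Set Ω) := by
      intro w hw
      obtain ⟨a, ha, hwa⟩ := h w hw
      rw [← hc00, zero_mul] at hwa
      have h0 : w - a = 0 := norm_eq_zero.1 (le_antisymm hwa (norm_nonneg _))
      rw [sub_eq_zero.1 h0]
      exact ha
    have h1 : closure W ⊆ (A : Set Ω) := closure_minimal hWA hA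
    exact h1 (hW hx)
  · have step : ∀ y ∈ B, ∃ a ∈ A, ‖y - a‖ ≤ c * ‖y‖ := by
      intro y hy
      by_cases hy0 : y = 0
      · exact ⟨0, A.zero_mem, by rw [hy0]; simp⟩
      have hyn : 0 < ‖y‖ := norm_pos_iff.2 hy0
      have hε : 0 < c * ‖y‖ := mul_pos hcpos hyn
      obtain ⟨w, hw, hyw⟩ := Metric.mem_closure_iff.1 (hW hy) (c * ‖y‖) hε
      rw [dist_eq_norm] at hyw
      have hlt : c * ‖y‖ < ‖y‖ := by nlinarith
      have hwn : ‖w‖ = ‖y‖ := by
        have h2 : ‖w - y‖ < ‖y‖ := by
          rw [norm_sub_rev]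
          exact hyw.trans hlt
        have h3 := IsUltrametricDist.norm_add_eq_max_of_norm_ne_norm
          (x := y) (y := w - y) (ne_of_gt h2)
        rw [add_sub_cancel] at h3
        rw [h3]
        exact max_eq_left h2.le
      obtain ⟨a, ha, hwa⟩ := h w hw
      refine ⟨a, ha, ?_⟩
      have h4 : y - a = (y - w) + (w - a) := by ring
      rw [h4]
      refine (IsUltrametricDist.norm_add_le_max _ _).trans (max_le hyw.le ?_)
      rw [hwn] at hwa
      exact hwa
    have iter : ∀ n : ℕ, ∃ a ∈ A, ‖x - a‖ ≤ c ^ n * ‖x‖ := by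
      intro n
      induction n with
      | zero => exact ⟨0, A.zero_mem, by simp⟩
      | succ n ih =>
        obtain ⟨a, ha, hxa⟩ := ih
        have hxaB : x - a ∈ B := B.sub_mem hx (hAB ha)
        obtain ⟨b, hb, hb2⟩ := step _ hxaB
        refine ⟨a + b, A.add_mem ha hb, ?_⟩
        have h5 : x - (a + b) = x - a - b := by ring
        rw [h5]
        refine hb2.trans ?_
        calc c * ‖x - a‖ ≤ c * (c ^ n * ‖x‖) := mul_le_mul_of_nonneg_left hxa hc0
          _ = c ^ (n + 1) * ‖x‖ := by ring
    choose a ha hxa using iter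
    have hlim : Tendsto a atTop (𝓝 x) := by
      rw [tendsto_iff_norm_sub_tendsto_zero]
      have h6 : Tendsto (fun n : ℕ => c ^ n * ‖x‖) atTop (𝓝 0) := by
        have := (tendsto_pow_atTop_nhds_zero_of_lt_one hc0 hc).mul_const ‖x‖
        rwa [zero_mul] at this
      refine squeeze_zero (fun n => norm_nonneg _) (fun n => ?_) h6
      rw [norm_sub_rev]
      exact hxa n
    exact hA.mem_of_tendsto hlim (Eventually.of_forall ha)

end Pool.Agent.R4U
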