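import Pool.Agent.Lib.MP_4ed7e0_lc_U.Defs

/-!
# MP_4ed7e0_lc, project U: norms of algebraic elements, orthonormality
-/

set_option autoImplicit false

namespace Pool.Agent.R4U

universe u v

open Filter Topology

variable {Ω : Type u} [NormedField Ω] [IsUltrametricDist Ω]

/-- Auxiliary lemma. -/
private theorem nalg_le {k : Subfield Ω} (hk : Triv k) {x : Ω} (hx : IsAlgebraic k x) :
    ‖x‖ ≤ 1 := by
  by_contra h
  push Not at h
  have hint : IsIntegral k x := hx.isIntegral
  have hmon : (minpoly k x).Monic := minpoly.monic hint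
  have hpos : 0 < (minpoly k x).natDegree := minpoly.natDegree_pos hint
  have h1 : Polynomial.aeval x (minpoly k x) = 0 := minpoly.aeval k x
  rw [Polynomial.aeval_eq_sum_range, Finset.sum_range_succ, hmon.coeff_natDegree, one_smul] at h1
  have h2 : x ^ (minpoly k x).natDegree =
      -∑ i ∈ Finset.range (minpoly k x).natDegree, (minpoly k x).coeff i • x ^ i := by
    linear_combination h1
  have h3 : ‖∑ i ∈ Finset.range (minpoly k x).natDegree, (minpoly k x).coeff i • x ^ i‖ ≤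
      ‖x‖ ^ ((minpoly k x).natDegree - 1) := by
    refine IsUltrametricDist.norm_sum_le_of_forall_le_of_nonneg (by positivity) fun i hi => ?_
    rw [Finset.mem_range] at hi
    have h4 : ‖(((minpoly k x).coeff i : k) : Ω)‖ ≤ 1 := by
      by_cases h0 : (((minpoly k x).coeff i : k) : Ω) = 0
      · rw [h0, norm_zero]
        exact zero_le_one
      · exact (hk _ ((minpoly k x).coeff i).2 h0).le
    have h5 : (minpoly k x).coeff i • x ^ i = (((minpoly k x).coeff i : k) : Ω) * x ^ i := rfl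
    rw [h5, norm_mul, norm_pow]
    calc ‖(((minpoly k x).coeff i : k) : Ω)‖ * ‖x‖ ^ i ≤ 1 * ‖x‖ ^ i :=
          mul_le_mul_of_nonneg_right h4 (by positivity)
      _ = ‖x‖ ^ i := one_mul _
      _ ≤ ‖x‖ ^ ((minpoly k x).natDegree - 1) := pow_le_pow_right₀ h.le (by omega)
  have h6 : ‖x‖ ^ (minpoly k x).natDegree ≤ ‖x‖ ^ ((minpoly k x).natDegree - 1) := by
    rw [← norm_pow, h2, norm_neg]
    exact h3
  have h7 : ‖x‖ ^ ((minpoly k x).natDegree - 1) < ‖x‖ ^ (minpoly k x).natDegree :=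
    pow_lt_pow_right₀ h (by omega)
  exact absurd h6 (not_le.2 h7)

/-- Elements algebraic over a trivially normed field have norm one.

Proof. Let `q = minpoly k x`, monic with `q.coeff 0 ≠ 0` (as `x ≠ 0`), all coefficients of norm at
most one. If `‖x‖ > 1`, the leading term `x ^ n` of the relation `∑ q_i x ^ i = 0` has a larger norm
than all others, if `‖x‖ < 1` then the constant term of norm one has: contradiction with the
ultrametric inequality. -/
theorem norm_alg {k : Subfield Ω} (hk : Triv k) {x : Ω} (hx : IsAlgebraic k x) (h0 : x ≠ 0) :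
    ‖x‖ = 1 := by
  have h1 : ‖x‖ ≤ 1 := nalg_le hk hx
  have h2 : ‖x⁻¹‖ ≤ 1 := nalg_le hk hx.inv
  have h3 : 0 < ‖x‖ := norm_pos_iff.2 h0
  rw [norm_inv] at h2
  have h4 : 1 ≤ ‖x‖ := by
    by_contra h5
    push Not at h5
    have := (one_lt_inv₀ h3).2 h5
    linarith
  exact le_antisymm h1 h4

/-- Proof. `norm_alg`, membership in `abar` is algebraicity (`mem_algebraicClosure_iff` or so). -/
theorem mem_abar {k : Subfield Ω} {x : Ω} : x ∈ abar k ↔ IsAlgebraic k x := by
  exact mem_algebraicClosure_iff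

theorem triv_abar {k : Subfield Ω} (hk : Triv k) : Triv (abar k) := by
  exact fun c hc h0 => norm_alg hk (mem_abar.1 hc) h0

/-- Elements of `abar k` which are linearly independent over `k` are orthonormal over a field `H`
with residue field `k`.

Proof. Let `‖h j‖` be the largest of the norms. If `h j = 0` all is zero. Otherwise divide by `h j`:
`g i = h i / h j ∈ H` has norm at most one, `g j = 1`. Choose `c i ∈ k` with `‖g i - c i‖ < 1`; then
`c j ≠ 0`, so `∑ c i * θ i ≠ 0` by independence; it is in `abar k`, so it has norm one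
(`triv_abar`). As `‖θ i‖ ≤ 1`, the difference `∑ (g i - c i) * θ i` has norm less than one, so
`‖∑ g i * θ i‖ = 1`. -/
theorem on {k H : Subfield Ω} (hk : Triv k) (hkH : k ≤ H) (hres : Res k H) {ι : Type v} [Fintype ι]
    (θ : ι → Ω) (hθ : ∀ i, θ i ∈ abar k) (hli : LinearIndependent k θ) (h : ι → Ω)
    (hh : ∀ i, h i ∈ H) (i : ι) : ‖h i‖ ≤ ‖∑ j, h j * θ j‖ := by
  classical
  obtain ⟨j, -, hj⟩ := Finset.exists_max_image (Finset.univ : Finset ι) (fun i => ‖h i‖)
    ⟨i, Finset.mem_univ i⟩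
  have hj' : ∀ i, ‖h i‖ ≤ ‖h j‖ := fun i => hj i (Finset.mem_univ i)
  by_cases h0 : h j = 0
  · have := hj' i
    rw [h0, norm_zero] at this
    exact this.trans (norm_nonneg _)
  have hn : 0 < ‖h j‖ := norm_pos_iff.2 h0
  have hg : ∀ i, h i / h j ∈ H := fun i => H.div_mem (hh i) (hh j)
  have hg1 : ∀ i, ‖h i / h j‖ ≤ 1 := by
    intro i
    rw [norm_div, div_le_one hn]
    exact hj' i
  choose c hc hgc using fun i => hres (h i / h j) (hg i) (hg1 i)
  have hcj : c j ≠ 0 := by
    intro h1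
    have h2 := hgc j
    rw [h1, div_self h0, sub_zero, norm_one] at h2
    exact lt_irrefl _ h2
  have hk1 : ∀ a ∈ k, a ∈ abar k := fun a ha =>
    mem_abar.2 (isAlgebraic_algebraMap (⟨a, ha⟩ : k))
  have hs0 : ∑ i, c i * θ i ≠ 0 := by
    intro h1
    have h2 := Fintype.linearIndependent_iff.1 hli (fun i => (⟨c i, hc i⟩ : k)) h1 j
    exact hcj (congrArg Subtype.val h2)
  have hs1 : ‖∑ i, c i * θ i‖ = 1 :=
    triv_abar hk _ (sum_mem fun i _ => mul_mem (hk1 _ (hc i)) (hθ i)) hs0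
  have hθ1 : ∀ i, ‖θ i‖ ≤ 1 := by
    intro i
    by_cases h1 : θ i = 0
    · rw [h1, norm_zero]
      exact zero_le_one
    · exact (triv_abar hk _ (hθ i) h1).le
  have hd : ‖∑ i, (h i / h j - c i) * θ i‖ < 1 := by
    obtain ⟨l, -, hl⟩ := IsUltrametricDist.exists_norm_finsetSum_le_of_nonempty
      (t := (Finset.univ : Finset ι)) ⟨i, Finset.mem_univ i⟩ (fun i => (h i / h j - c i) * θ i)
    refine hl.trans_lt ?_
    rw [norm_mul]
    calc ‖h l / h j - c l‖ * ‖θ l‖ ≤ ‖h l / h j - c l‖ * 1 :=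
          mul_le_mul_of_nonneg_left (hθ1 l) (norm_nonneg _)
      _ = ‖h l / h j - c l‖ := mul_one _
      _ < 1 := hgc l
  have hs : ∑ i, h i / h j * θ i = ∑ i, c i * θ i + ∑ i, (h i / h j - c i) * θ i := by
    rw [← Finset.sum_add_distrib]
    exact Finset.sum_congr rfl fun i _ => by ring
  have hg2 : 1 ≤ ‖∑ i, h i / h j * θ i‖ := by
    by_contra h1
    push Not at h1
    have h2 : ∑ i, c i * θ i = ∑ i, h i / h j * θ i - ∑ i, (h i / h j - c i) * θ i := by
      rw [hs]
      ring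
    have h3 : ‖∑ i, c i * θ i‖ < 1 := by
      rw [h2, sub_eq_add_neg]
      refine (IsUltrametricDist.norm_add_le_max _ _).trans_lt (max_lt h1 ?_)
      rw [norm_neg]
      exact hd
    rw [hs1] at h3
    exact lt_irrefl _ h3
  have he : ∑ i, h i * θ i = h j * ∑ i, h i / h j * θ i := by
    rw [Finset.mul_sum]
    refine Finset.sum_congr rfl fun i _ => ?_
    field_simp
  rw [he, norm_mul]
  calc ‖h i‖ ≤ ‖h j‖ := hj' i
    _ = ‖h j‖ * 1 := (mul_one _).symm
    _ ≤ ‖h j‖ * ‖∑ i, h i / h j * θ i‖ := mul_le_mul_of_nonneg_left hg2 (norm_nonneg _)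

/-- The case of the powers of one element.

Proof. `on` with `linearIndependent_pow`. -/
theorem on_pow {k H : Subfield Ω} (hk : Triv k) (hkH : k ≤ H) (hres : Res k H) {θ : Ω}
    (hθ : θ ∈ abar k) (a : Fin (minpoly k θ).natDegree → Ω) (ha : ∀ i, a i ∈ H)
    (i : Fin (minpoly k θ).natDegree) : ‖a i‖ ≤ ‖∑ j, a j * θ ^ (j : ℕ)‖ := by
  exact on hk hkH hres (fun j : Fin (minpoly k θ).natDegree => θ ^ (j : ℕ))
    (fun j => pow_mem hθ _) (linearIndependent_pow θ) a ha i

/-- The norm of the sum is attained by one of the coefficients.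

Proof. `≤` for some `i`: ultrametric inequality for the finite sum and `‖θ ^ j‖ ≤ 1`
(the index type is nonempty because the degree is positive). `≥`: `on_pow`. -/
theorem on_pow_eq {k H : Subfield Ω} (hk : Triv k) (hkH : k ≤ H) (hres : Res k H) {θ : Ω}
    (hθ : θ ∈ abar k) (a : Fin (minpoly k θ).natDegree → Ω) (ha : ∀ i, a i ∈ H) :
    ∃ i, ‖∑ j, a j * θ ^ (j : ℕ)‖ = ‖a i‖ := by
  have hint : IsIntegral k θ := (mem_abar.1 hθ).isIntegral
  have hpos : 0 < (minpoly k θ).natDegree := minpoly.natDegree_pos hint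
  obtain ⟨l, -, hl⟩ := IsUltrametricDist.exists_norm_finsetSum_le_of_nonempty
    (t := (Finset.univ : Finset (Fin (minpoly k θ).natDegree))) ⟨⟨0, hpos⟩, Finset.mem_univ _⟩
    (fun j => a j * θ ^ (j : ℕ))
  refine ⟨l, le_antisymm ?_ (on_pow hk hkH hres hθ a ha l)⟩
  refine hl.trans ?_
  have hθ1 : ‖θ‖ ≤ 1 := nalg_le hk (mem_abar.1 hθ)
  rw [norm_mul, norm_pow]
  calc ‖a l‖ * ‖θ‖ ^ (l : ℕ) ≤ ‖a l‖ * 1 :=
        mul_le_mul_of_nonneg_left (pow_le_one₀ (norm_nonneg _) hθ1) (norm_nonneg _)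
    _ = ‖a l‖ := mul_one _

end Pool.Agent.R4U
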