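import Pool.Agent.Lib.MP_4ed7e0_lc_U.Newt
import Pool.Agent.Lib.MP_4ed7e0_lc_U.NAlg

/-!
# MP_4ed7e0_lc, project U: residues of algebraic elements
-/

set_option autoImplicit false

namespace Pool.Agent.R4U

universe u

variable {Ω : Type u} [NormedField Ω] [IsUltrametricDist Ω]

private theorem ResAlg_norm_le {A : Subfield Ω} (hA : Triv A) {c : Ω} (hc : c ∈ A) : ‖c‖ ≤ 1 := by
  rcases eq_or_ne c 0 with h | h
  · rw [h, norm_zero]
    exact zero_le_one
  · exact (hA c hc h).le

private theorem ResAlg_sum_le {ι : Type*} (s : Finset ι) (f : ι → Ω) {C : ℝ} (hC : 0 ≤ C)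
    (h : ∀ i ∈ s, ‖f i‖ ≤ C) : ‖∑ i ∈ s, f i‖ ≤ C :=
  IsUltrametricDist.norm_sum_le_of_forall_le_of_nonneg hC h

private theorem ResAlg_pow_le {x : Ω} (hx : ‖x‖ ≤ 1) (n : ℕ) : ‖x ^ n‖ ≤ 1 := by
  rw [norm_pow]
  exact pow_le_one₀ (norm_nonneg _) hx

private theorem ResAlg_lip {R : Polynomial Ω} (hR : ∀ i, ‖R.coeff i‖ ≤ 1) {a b : Ω}
    (ha : ‖a‖ ≤ 1) (hb : ‖b‖ ≤ 1) : ‖R.eval a - R.eval b‖ ≤ ‖a - b‖ := by
  rw [Polynomial.eval_eq_sum_range, Polynomial.eval_eq_sum_range, ← Finset.sum_sub_distrib]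
  refine ResAlg_sum_le _ _ (norm_nonneg _) fun i _ => ?_
  rw [← mul_sub, ← (Commute.all a b).mul_geom_sum₂, norm_mul, norm_mul]
  have h1 : ‖∑ j ∈ Finset.range i, a ^ j * b ^ (i - 1 - j)‖ ≤ 1 := by
    refine ResAlg_sum_le _ _ zero_le_one fun j _ => ?_
    rw [norm_mul]
    exact mul_le_one₀ (ResAlg_pow_le ha _) (norm_nonneg _) (ResAlg_pow_le hb _)
  calc ‖R.coeff i‖ * (‖a - b‖ * ‖∑ j ∈ Finset.range i, a ^ j * b ^ (i - 1 - j)‖)
      ≤ 1 * (‖a - b‖ * 1) := by
        refine mul_le_mul (hR i) ?_ (by positivity) zero_le_one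
        exact mul_le_mul_of_nonneg_left h1 (norm_nonneg _)
    _ = ‖a - b‖ := by ring

private theorem ResAlg_hasse {R : Polynomial Ω} (hR : ∀ i, ‖R.coeff i‖ ≤ 1) (n i : ℕ) :
    ‖(Polynomial.hasseDeriv n R).coeff i‖ ≤ 1 := by
  rw [Polynomial.hasseDeriv_coeff, norm_mul]
  exact mul_le_one₀ (IsUltrametricDist.norm_natCast_le_one Ω _) (norm_nonneg _) (hR _)

private theorem ResAlg_eval_le {R : Polynomial Ω} (hR : ∀ i, ‖R.coeff i‖ ≤ 1) {a : Ω}
    (ha : ‖a‖ ≤ 1) : ‖R.eval a‖ ≤ 1 := by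
  rw [Polynomial.eval_eq_sum_range]
  refine ResAlg_sum_le _ _ zero_le_one fun i _ => ?_
  rw [norm_mul]
  exact mul_le_one₀ (hR i) (norm_nonneg _) (ResAlg_pow_le ha _)

/-- Simple roots lift: an element of `abar k` close to an element of a closed field `V ≥ k` is in
`V`.

Proof. Let `q = minpoly k θ`, mapped to `Ω`; its coefficients are in `k`, of norm at most one. As `k`
is perfect, `q` is separable, `q'(θ) ≠ 0` is in `abar k`, so of norm one (`triv_abar`). Since
`‖u - θ‖ < 1` and `‖θ‖ ≤ 1`, all Taylor coefficients of `q` at `u` have norm at most one and the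
first one, `q'(u)`, has norm one. `newton_mem` with `b = u`, `w = θ`. -/
theorem lift_mem {p : ℕ} [Fact p.Prime] [CharP Ω p] {k V : Subfield Ω} (hk : Triv k)
    (hkp : Perf p k) (hkV : k ≤ V) (hV : IsClosed (V : Set Ω)) {θ u : Ω} (hθ : θ ∈ abar k)
    (hu : u ∈ V) (h : ‖u - θ‖ < 1) : θ ∈ V := by
  have hp : p.Prime := Fact.out
  have hchar : CharP k p := (algebraMap k Ω).charP (algebraMap k Ω).injective p
  have hexp : ExpChar k p := ExpChar.prime hp
  have hperf : PerfectRing k p := by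
    refine PerfectRing.ofSurjective k p fun x => ?_
    obtain ⟨y, hy, hyx⟩ := hkp x.1 x.2
    refine ⟨⟨y, hy⟩, ?_⟩
    rw [frobenius_def]
    exact Subtype.ext (by simpa using hyx)
  have hpf : PerfectField k := PerfectRing.toPerfectField k p
  have halg : IsAlgebraic k θ := mem_abar.1 hθ
  have hint : IsIntegral k θ := halg.isIntegral
  set q0 := minpoly k θ with hq0
  have hsep : q0.Separable := PerfectField.separable_of_irreducible (minpoly.irreducible hint)
  have hder : Polynomial.aeval θ (Polynomial.derivative q0) ≠ 0 :=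
    hsep.aeval_derivative_ne_zero (minpoly.aeval k θ)
  have hderm : Polynomial.aeval θ (Polynomial.derivative q0) ∈ abar k := by
    rw [mem_abar]
    have h1 : Algebra.adjoin k {θ} ≤ (algebraicClosure k Ω).toSubalgebra := by
      refine Algebra.adjoin_le ?_
      rintro x hx
      rw [Set.mem_singleton_iff] at hx
      rw [hx]
      exact (mem_algebraicClosure_iff (F := k) (E := Ω)).2 halg
    exact (mem_algebraicClosure_iff (F := k) (E := Ω)).1
      (h1 (Polynomial.aeval_mem_adjoin_singleton k θ))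
  have hdern := triv_abar hk _ hderm hder
  set Q : Polynomial Ω := q0.map (algebraMap k Ω) with hQ
  have hQc : ∀ i, Q.coeff i ∈ k := fun i => by
    rw [hQ, Polynomial.coeff_map]
    exact (q0.coeff i).2
  have hQn : ∀ i, ‖Q.coeff i‖ ≤ 1 := fun i => ResAlg_norm_le hk (hQc i)
  have hθn : ‖θ‖ ≤ 1 := ResAlg_norm_le (triv_abar hk) hθ
  have hun : ‖u‖ ≤ 1 := by
    have h1 : u = (u - θ) + θ := by ring
    rw [h1]
    exact (IsUltrametricDist.norm_add_le_max _ _).trans (max_le h.le hθn)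
  have hroot : Q.eval θ = 0 := by
    rw [hQ, Polynomial.eval_map_algebraMap]
    exact minpoly.aeval k θ
  have hd : Polynomial.derivative Q = (Polynomial.derivative q0).map (algebraMap k Ω) := by
    rw [hQ, Polynomial.derivative_map]
  have hdθ : ‖(Polynomial.derivative Q).eval θ‖ = 1 := by
    rw [hd, Polynomial.eval_map_algebraMap]
    exact hdern
  have hdu : ‖(Polynomial.derivative Q).eval u‖ = 1 := by
    have h1 : ‖(Polynomial.derivative Q).eval u - (Polynomial.derivative Q).eval θ‖ < 1 := by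
      refine lt_of_le_of_lt (ResAlg_lip (fun i => ?_) hun hθn) h
      rw [← Polynomial.hasseDeriv_one]
      exact ResAlg_hasse hQn 1 i
    have h3 : (Polynomial.derivative Q).eval u = ((Polynomial.derivative Q).eval u -
        (Polynomial.derivative Q).eval θ) + (Polynomial.derivative Q).eval θ := by ring
    rw [h3, IsUltrametricDist.norm_add_eq_max_of_norm_ne_norm (by rw [hdθ]; exact h1.ne), hdθ,
      max_eq_right h1.le]
  refine newton_mem hV (Q := Q) (fun i => hkV (hQc i)) hu hroot fun i hi => ?_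
  rw [Polynomial.taylor_coeff, Polynomial.taylor_coeff, Polynomial.hasseDeriv_one, hdu]
  have h1 : ‖(Polynomial.hasseDeriv i Q).eval u‖ ≤ 1 := ResAlg_eval_le (ResAlg_hasse hQn i) hun
  have h2 : ‖θ - u‖ ^ (i - 1) < 1 := by
    refine pow_lt_one₀ (norm_nonneg _) ?_ (by omega)
    rwa [norm_sub_rev]
  calc _ ≤ 1 * ‖θ - u‖ ^ (i - 1) := mul_le_mul_of_nonneg_right h1 (by positivity)
    _ < 1 := by rwa [one_mul]

/-- Residues of elements algebraic over `H` are algebraic over the residue field `k`.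

Proof. Let `∑ i ≤ n, h i * u ^ i = 0` be a nontrivial relation over `H`, scaled such that the largest
norm of a coefficient is one. Choose `c i ∈ k` with `‖h i - c i‖ < 1`, not all zero. As `‖u‖ ≤ 1`,
`‖∑ c i * u ^ i‖ < 1`. The nonzero polynomial `∑ c i * X ^ i` over `k` factors in `Ω` as
`a * ∏ (X - v j)` with `a ∈ k` nonzero, `‖a‖ = 1`, and `v j ∈ abar k`. So some `‖u - v j‖ < 1`. -/
theorem res_abar [IsAlgClosed Ω] {k H : Subfield Ω} (hk : Triv k) (hkH : k ≤ H) (hres : Res k H)
    {u : Ω} (hu : IsAlgebraic H u) (h1 : ‖u‖ ≤ 1) : ∃ θ ∈ abar k, ‖u - θ‖ < 1 := by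
  obtain ⟨P, hP0, hPu⟩ := hu
  obtain ⟨i0, hi0, hmax⟩ := Finset.exists_max_image P.support (fun i => ‖((P.coeff i : H) : Ω)‖)
    (Polynomial.nonempty_support_iff.2 hP0)
  have hc0 : ((P.coeff i0 : H) : Ω) ≠ 0 := by
    have := Polynomial.mem_support_iff.1 hi0
    exact fun h => this (Subtype.ext h)
  have hmax' : ∀ i, ‖((P.coeff i : H) : Ω)‖ ≤ ‖((P.coeff i0 : H) : Ω)‖ := by
    intro i
    by_cases hi : i ∈ P.support
    · exact hmax i hi
    · rw [Polynomial.notMem_support_iff.1 hi]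
      simp
  set h : ℕ → Ω := fun i => ((P.coeff i : H) : Ω) / ((P.coeff i0 : H) : Ω) with hh
  have hhH : ∀ i, h i ∈ H := fun i => H.div_mem (P.coeff i).2 (P.coeff i0).2
  have hhn : ∀ i, ‖h i‖ ≤ 1 := fun i => by
    rw [hh]
    simp only [norm_div]
    exact div_le_one_of_le₀ (hmax' i) (norm_nonneg _)
  choose c hck hcn using fun i => hres (h i) (hhH i) (hhn i)
  have hci0 : c i0 ≠ 0 := by
    intro h0
    have h2 := hcn i0
    rw [h0, sub_zero] at h2
    have h3 : h i0 = 1 := div_self hc0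
    rw [h3, norm_one] at h2
    exact lt_irrefl _ h2
  have hrel : ∑ i ∈ Finset.range (P.natDegree + 1), h i * u ^ i = 0 := by
    have h2 : ∑ i ∈ Finset.range (P.natDegree + 1), ((P.coeff i : H) : Ω) * u ^ i = 0 := by
      rw [Polynomial.aeval_eq_sum_range] at hPu
      rw [← hPu]
      exact Finset.sum_congr rfl fun i _ => by rw [Algebra.smul_def]; rfl
    have h3 : ∑ i ∈ Finset.range (P.natDegree + 1), h i * u ^ i =
        (∑ i ∈ Finset.range (P.natDegree + 1), ((P.coeff i : H) : Ω) * u ^ i) /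
          ((P.coeff i0 : H) : Ω) := by
      rw [Finset.sum_div]
      exact Finset.sum_congr rfl fun i _ => by rw [hh]; ring
    rw [h3, h2, zero_div]
  set f0 : Polynomial k := ∑ i ∈ Finset.range (P.natDegree + 1),
    Polynomial.monomial i (⟨c i, hck i⟩ : k) with hf0
  have hi0n : i0 ∈ Finset.range (P.natDegree + 1) := by
    rw [Finset.mem_range, Nat.lt_succ_iff]
    exact Polynomial.le_natDegree_of_mem_supp _ hi0
  have hf0ne : f0 ≠ 0 := by
    intro h0
    have h2 : f0.coeff i0 = ⟨c i0, hck i0⟩ := by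
      rw [hf0, Polynomial.finsetSum_coeff, Finset.sum_eq_single i0]
      · rw [Polynomial.coeff_monomial, if_pos rfl]
      · intro j _ hj
        rw [Polynomial.coeff_monomial, if_neg hj]
      · intro h3
        exact absurd hi0n h3
    rw [h0, Polynomial.coeff_zero] at h2
    exact hci0 (congrArg Subtype.val h2).symm
  set f : Polynomial Ω := f0.map (algebraMap k Ω) with hf
  have hfne : f ≠ 0 := (Polynomial.map_ne_zero_iff (algebraMap k Ω).injective).2 hf0ne
  have hfu : f.eval u = ∑ i ∈ Finset.range (P.natDegree + 1), c i * u ^ i := by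
    rw [hf, Polynomial.eval_map_algebraMap, hf0, map_sum]
    refine Finset.sum_congr rfl fun i _ => ?_
    rw [Polynomial.aeval_monomial]
    rfl
  have hfun : ‖f.eval u‖ < 1 := by
    have h2 : f.eval u = ∑ i ∈ Finset.range (P.natDegree + 1), (c i - h i) * u ^ i := by
      rw [hfu]
      simp only [sub_mul]
      rw [Finset.sum_sub_distrib, hrel, sub_zero]
    rw [h2]
    obtain ⟨j, _, hj⟩ := IsUltrametricDist.exists_norm_finsetSum_le_of_nonempty
      (t := Finset.range (P.natDegree + 1)) ⟨0, by simp⟩ (fun i => (c i - h i) * u ^ i)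
    refine lt_of_le_of_lt hj ?_
    rw [norm_mul, norm_sub_rev]
    calc ‖h j - c j‖ * ‖u ^ j‖ ≤ ‖h j - c j‖ * 1 :=
          mul_le_mul_of_nonneg_left (ResAlg_pow_le h1 j) (norm_nonneg _)
      _ < 1 := by rw [mul_one]; exact hcn j
  have hlead : ‖f.leadingCoeff‖ = 1 := by
    refine hk _ ?_ (Polynomial.leadingCoeff_ne_zero.2 hfne)
    rw [Polynomial.leadingCoeff, hf, Polynomial.coeff_map]
    exact (f0.coeff _).2
  have hprod := (IsAlgClosed.splits f).eval_eq_prod_roots u
  by_contra hcon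
  push Not at hcon
  have hall : ∀ v ∈ f.roots, 1 ≤ ‖u - v‖ := by
    intro v hv
    refine hcon v ?_
    rw [mem_abar]
    refine ⟨f0, hf0ne, ?_⟩
    have h2 := (Polynomial.mem_roots hfne).1 hv
    rw [Polynomial.IsRoot.def, hf, Polynomial.eval_map_algebraMap] at h2
    exact h2
  have hge : ∀ s : Multiset Ω, (∀ v ∈ s, 1 ≤ ‖u - v‖) → 1 ≤ ‖(s.map (u - ·)).prod‖ := by
    intro s
    induction s using Multiset.induction_on with
    | empty => intro _; simp
    | cons a s ih =>
      intro hs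
      rw [Multiset.map_cons, Multiset.prod_cons, norm_mul]
      exact one_le_mul_of_one_le_of_one_le (hs a (Multiset.mem_cons_self a s))
        (ih fun v hv => hs v (Multiset.mem_cons_of_mem hv))
  have h3 := hge f.roots hall
  rw [hprod, norm_mul, hlead, one_mul] at hfun
  exact absurd hfun (not_lt.2 h3)

end Pool.Agent.R4U
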