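import Pool.Agent.Lib.MP_4ed7e0_lc_U.PE
import Pool.Agent.Lib.MP_4ed7e0_lc_U.ResAlg

/-!
# MP_4ed7e0_lc, project U: coefficient fields
-/

set_option autoImplicit false

namespace Pool.Agent.R4U

universe u

variable {Ω : Type u} [NormedField Ω] [IsUltrametricDist Ω]

private theorem Coef1_mem_iff {A : Subfield Ω} {θ x : Ω} :
    x ∈ adj A θ ↔ x ∈ IntermediateField.adjoin A {θ} := by
  have h : Set.range (algebraMap A Ω) = (A : Set Ω) := by
    ext y
    constructor
    · rintro ⟨z, rfl⟩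
      exact z.2
    · intro hy
      exact ⟨⟨y, hy⟩, rfl⟩
  have h2 : (IntermediateField.adjoin A {θ}).toSubfield = adj A θ := by
    unfold adj
    rw [IntermediateField.adjoin_toSubfield, h]
  rw [← h2]
  rfl

private theorem Coef1_norm_le {A : Subfield Ω} (hA : Triv A) {c : Ω} (hc : c ∈ A) : ‖c‖ ≤ 1 := by
  rcases eq_or_ne c 0 with h | h
  · rw [h, norm_zero]
    exact zero_le_one
  · exact (hA c hc h).le

/-- A polynomial over a trivially normed field which is small at `x` has a root close to `x`. -/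
private theorem Coef1_root [IsAlgClosed Ω] {k : Subfield Ω} (hk : Triv k) {x : Ω}
    {f0 : Polynomial k} (hf0 : f0 ≠ 0) (hx : ‖Polynomial.aeval x f0‖ < 1) :
    ∃ v ∈ abar k, ‖x - v‖ < 1 := by
  set f : Polynomial Ω := f0.map (algebraMap k Ω) with hf
  have hfne : f ≠ 0 := (Polynomial.map_ne_zero_iff (algebraMap k Ω).injective).2 hf0
  have hfun : ‖f.eval x‖ < 1 := by
    rw [hf, Polynomial.eval_map_algebraMap]
    exact hx
  have hlead : ‖f.leadingCoeff‖ = 1 := by
    refine hk _ ?_ (Polynomial.leadingCoeff_ne_zero.2 hfne)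
    rw [Polynomial.leadingCoeff, hf, Polynomial.coeff_map]
    exact (f0.coeff _).2
  have hprod := (IsAlgClosed.splits f).eval_eq_prod_roots x
  by_contra hcon
  push Not at hcon
  have hall : ∀ v ∈ f.roots, 1 ≤ ‖x - v‖ := by
    intro v hv
    refine hcon v ?_
    rw [mem_abar]
    refine ⟨f0, hf0, ?_⟩
    have h2 := (Polynomial.mem_roots hfne).1 hv
    rw [Polynomial.IsRoot.def, hf, Polynomial.eval_map_algebraMap] at h2
    exact h2
  have hge : ∀ s : Multiset Ω, (∀ v ∈ s, 1 ≤ ‖x - v‖) → 1 ≤ ‖(s.map (x - ·)).prod‖ := by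
    intro s
    induction s using Multiset.induction_on with
    | empty => intro _; simp
    | cons a s ih =>
      intro hs
      rw [Multiset.map_cons, Multiset.prod_cons, norm_mul]
      exact one_le_mul_of_one_le_of_one_le (hs a (Multiset.mem_cons_self a s))
        (ih fun v hv => hs v (Multiset.mem_cons_of_mem hv))
  have h3 := hge f.roots hall
  rw [hprod, norm_mul, hlead, one_mul] at hfun
  exact absurd hfun (not_lt.2 h3)

private theorem Coef1_aeval_le {k : Subfield Ω} (hk : Triv k) {x : Ω} (hx : ‖x‖ ≤ 1)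
    (q : Polynomial k) : ‖Polynomial.aeval x q‖ ≤ 1 := by
  rw [Polynomial.aeval_eq_sum_range]
  refine IsUltrametricDist.norm_sum_le_of_forall_le_of_nonneg zero_le_one fun i _ => ?_
  rw [Algebra.smul_def, norm_mul, norm_pow]
  exact mul_le_one₀ (Coef1_norm_le hk (q.coeff i).2) (by positivity)
    (pow_le_one₀ (norm_nonneg _) hx)

/-- If all nonzero polynomials have norm one at `x` then `k(x)` is trivially normed. -/
private theorem Coef1_triv {k : Subfield Ω} {x : Ω}
    (h : ∀ q : Polynomial k, q ≠ 0 → ‖Polynomial.aeval x q‖ = 1) : Triv (adj k x) := by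
  intro y hy hy0
  rw [Coef1_mem_iff, IntermediateField.mem_adjoin_simple_iff] at hy
  obtain ⟨r, s, hrs⟩ := hy
  have hr : r ≠ 0 := by
    rintro rfl
    apply hy0
    rw [hrs, map_zero, zero_div]
  have hs : s ≠ 0 := by
    rintro rfl
    apply hy0
    rw [hrs, map_zero, div_zero]
  rw [hrs, norm_div, h r hr, h s hs, div_one]

/-- Existence of a coefficient field in a closed perfect field.

Proof. Zorn: the set of the trivially normed subfields `C` with `k ≤ C ≤ F` has a maximal element `k₁`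
(unions of chains). `k₁` is perfect: the field of all `u ∈ Ω` with `u ^ p ∈ k₁` is contained in `F`
(perfect, uniqueness of `p`-th roots) and trivially normed, so it is `k₁`. Residues: let `x ∈ F`,
`‖x‖ ≤ 1`. If `‖q(x)‖ = 1` for all nonzero polynomials `q` over `k₁` then `adj k₁ x ≤ F` is trivially
normed (its elements are quotients `q(x) / r(x)`), so `x ∈ k₁`, and `c = x` works. Otherwise there
is a nonzero `q` over `k₁` with `‖q(x)‖ < 1`; factor `q = a * ∏ (X - v j)` in `Ω`, `‖a‖ = 1`,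
`v j ∈ abar k₁`: some `‖x - v j‖ < 1`. By `lift_mem` (`V = F`) `v j ∈ F`; the field `adj k₁ (v j) ≤ F` is
contained in `abar k₁`, trivially normed (`triv_abar`), so `v j ∈ k₁`; take `c = v j`. -/
theorem coef {p : ℕ} [Fact p.Prime] [CharP Ω p] [IsAlgClosed Ω] {k F : Subfield Ω}
    (hF : IsClosed (F : Set Ω)) (hperf : Perf p F) (hkF : k ≤ F) (hk : Triv k) :
    ∃ k₁ : Subfield Ω, k ≤ k₁ ∧ k₁ ≤ F ∧ Triv k₁ ∧ Perf p k₁ ∧ Res k₁ F := by
  classical
  have hp : p.Prime := Fact.out
  have hp0 : p ≠ 0 := hp.ne_zero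
  have hexp : ExpChar Ω p := ExpChar.prime hp
  obtain ⟨k₁, hkk, hmax⟩ := zorn_le_nonempty₀ {C : Subfield Ω | k ≤ C ∧ C ≤ F ∧ Triv C} (by
    intro c hc hch C₀ hC₀
    have hdir : DirectedOn (· ≤ ·) c := hch.directedOn
    have hne : c.Nonempty := ⟨C₀, hC₀⟩
    refine ⟨sSup c, ⟨?_, ?_, ?_⟩, fun z hz => le_sSup hz⟩
    · exact (hc hC₀).1.trans (le_sSup hC₀)
    · exact sSup_le fun z hz => (hc hz).2.1
    · intro u hu hu0
      obtain ⟨C, hC, huC⟩ := (Subfield.mem_sSup_of_directedOn hne hdir).1 hu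
      exact (hc hC).2.2 u huC hu0) k ⟨le_rfl, hkF, hk⟩
  obtain ⟨⟨h1, h2, h3⟩, hmx⟩ := hmax
  have hmx' : ∀ C : Subfield Ω, C ≤ F → Triv C → k₁ ≤ C → C ≤ k₁ :=
    fun C hC hCt hle => hmx ⟨h1.trans hle, hC, hCt⟩ hle
  have hP : Perf p k₁ := by
    have hU : k₁.comap (frobenius Ω p) ≤ k₁ := by
      refine hmx' _ ?_ ?_ ?_
      · intro u hu
        rw [Subfield.mem_comap, frobenius_def] at hu
        obtain ⟨y, hy, hyu⟩ := hperf _ (h2 hu)
        have : y = u := by
          apply frobenius_inj Ω p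
          rw [frobenius_def, frobenius_def]
          exact hyu
        rw [← this]
        exact hy
      · intro u hu hu0
        rw [Subfield.mem_comap, frobenius_def] at hu
        have h4 := h3 _ hu (pow_ne_zero p hu0)
        rw [norm_pow] at h4
        exact (pow_eq_one_iff_of_nonneg (norm_nonneg u) hp0).1 h4
      · intro u hu
        rw [Subfield.mem_comap, frobenius_def]
        exact pow_mem hu p
    intro x hx
    obtain ⟨y, hy, hyx⟩ := hperf x (h2 hx)
    refine ⟨y, hU ?_, hyx⟩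
    rw [Subfield.mem_comap, frobenius_def, hyx]
    exact hx
  refine ⟨k₁, h1, h2, h3, hP, ?_⟩
  intro x hx hx1
  by_cases hq : ∀ q : Polynomial k₁, q ≠ 0 → ‖Polynomial.aeval x q‖ = 1
  · have hle := hmx' (adj k₁ x) (adj_le h2 hx) (Coef1_triv hq) (le_adj k₁ x)
    refine ⟨x, hle (mem_adj k₁ x), ?_⟩
    rw [sub_self, norm_zero]
    exact one_pos
  · push Not at hq
    obtain ⟨q, hq0, hq1⟩ := hq
    obtain ⟨v, hv, hxv⟩ := Coef1_root h3 hq0
      (lt_of_le_of_ne (Coef1_aeval_le h3 hx1 q) hq1)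
    have hvF : v ∈ F := lift_mem h3 hP h2 hF hv hx hxv
    have hkab : k₁ ≤ abar k₁ := by
      intro y hy
      rw [mem_abar]
      exact isAlgebraic_algebraMap (⟨y, hy⟩ : k₁)
    have htr : Triv (adj k₁ v) := fun y hy hy0 =>
      triv_abar h3 y (adj_le hkab hv hy) hy0
    have hle := hmx' (adj k₁ v) (adj_le h2 hvF) htr (le_adj k₁ v)
    exact ⟨v, hle (mem_adj k₁ v), hxv⟩

end Pool.Agent.R4U
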