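import Pool.Agent.Lib.MP_4ed7e0_lc_U.HAlg

/-!
# MP_4ed7e0_lc, project U: conjugate elements have the same norm
-/

set_option autoImplicit false

namespace Pool.Agent.R4U

universe u

variable {Ω : Type u} [NormedField Ω] [IsUltrametricDist Ω]

/-- Conjugate elements over a closed subfield have the same norm.

Proof. `N` with the induced norm is a complete nontrivially normed ultrametric field. Let `L` be
the algebraic closure of `N` in `Ω` (`algebraicClosure N Ω`), a normed field with the norm of `Ω` and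
an algebraic normed algebra over `N`. By `NormedAlgebra.norm_eq_spectralNorm`
`‖x‖ = spectralNorm N L x = spectralValue (minpoly N x)`, and the same for `x'`, which has the same
minimal polynomial (`minpoly.eq_of_irreducible_of_monic`). -/
theorem norm_conj [CompleteSpace Ω] {N : Subfield Ω} (hN : IsClosed (N : Set Ω))
    (hnt : ∃ a ∈ N, 1 < ‖a‖) {x x' : Ω} (hx : IsAlgebraic N x)
    (h : Polynomial.aeval x' (minpoly N x) = 0) : ‖x'‖ = ‖x‖ := by
  let i1 : NontriviallyNormedField N :=
    { (inferInstance : NormedField N) with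
      non_trivial := by
        obtain ⟨a, ha, h⟩ := hnt
        exact ⟨⟨a, ha⟩, h⟩ }
  have i2 : CompleteSpace N := hN.completeSpace_coe
  have i3 : IsUltrametricDist N :=
    ⟨fun x y z => IsUltrametricDist.dist_triangle_max (x : Ω) (y : Ω) (z : Ω)⟩
  let i4 : NormedField (algebraicClosure N Ω) := inferInstance
  let i5 : NormedAlgebra N (algebraicClosure N Ω) :=
    { (inferInstance : Algebra N (algebraicClosure N Ω)) with
      norm_smul_le := fun a b => by
        have : ((a • b : algebraicClosure N Ω) : Ω) = (a : Ω) * (b : Ω) := rfl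
        change ‖((a • b : algebraicClosure N Ω) : Ω)‖ ≤ ‖(a : Ω)‖ * ‖(b : Ω)‖
        rw [this, norm_mul] }
  have key : ∀ y : Ω, IsAlgebraic N y → ‖y‖ = spectralValue (minpoly N y) := by
    intro y hy
    have hy' : y ∈ algebraicClosure N Ω := mem_algebraicClosure_iff.2 hy
    have h1 := NormedAlgebra.norm_eq_spectralNorm N (⟨y, hy'⟩ : algebraicClosure N Ω)
    have h2 : minpoly N (⟨y, hy'⟩ : algebraicClosure N Ω) = minpoly N y :=
      IntermediateField.minpoly_eq ⟨y, hy'⟩
    rw [spectralNorm, h2] at h1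
    exact h1
  have hi : IsIntegral N x := hx.isIntegral
  have hx' : IsAlgebraic N x' := ⟨minpoly N x, minpoly.ne_zero hi, h⟩
  have h3 : minpoly N x = minpoly N x' :=
    minpoly.eq_of_irreducible_of_monic (minpoly.irreducible hi) h (minpoly.monic hi)
  rw [key x hx, key x' hx', h3]

/-- Homomorphisms over a closed subfield are isometric.

Proof. `norm_conj`. -/
theorem norm_hom [CompleteSpace Ω] {N M : Subfield Ω} (hN : IsClosed (N : Set Ω))
    (hnt : ∃ a ∈ N, 1 < ‖a‖) (hNM : N ≤ M) (halg : ∀ x ∈ M, IsAlgebraic N x) (f : M →+* Ω)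
    (hf : ∀ x : M, (x : Ω) ∈ N → f x = x) (x : M) : ‖f x‖ = ‖(x : Ω)‖ := by
  have hx := halg x x.2
  refine norm_conj hN hnt hx ?_
  have h1 : Polynomial.aeval (x : Ω) (minpoly N (x : Ω)) = 0 := minpoly.aeval N _
  rw [Polynomial.aeval_def, Polynomial.eval₂_eq_sum_range] at h1 ⊢
  have h2 : (∑ i ∈ Finset.range ((minpoly N (x : Ω)).natDegree + 1),
      (⟨((minpoly N (x : Ω)).coeff i : Ω), hNM ((minpoly N (x : Ω)).coeff i).2⟩ : M) * x ^ i) =
        0 := by
    apply Subtype.ext
    rw [AddSubmonoidClass.coe_finsetSum]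
    exact h1
  have h3 := congrArg f h2
  rw [map_sum, map_zero] at h3
  rw [← h3]
  refine Finset.sum_congr rfl fun i _ => ?_
  have h4 : ∀ c : N, f ⟨(c : Ω), hNM c.2⟩ = c := fun c => hf _ c.2
  rw [map_mul, map_pow, h4]
  rfl

end Pool.Agent.R4U
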