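import Pool.Agent.Lib.MP_4ed7e0_lc_U.Stab
import Pool.Agent.Lib.MP_4ed7e0_lc_U.Dom

/-!
# MP_4ed7e0_lc, project U: type I, dominating Taylor coefficient and distance of polynomial values
-/

set_option autoImplicit false

namespace Pool.Agent.R4U

universe u

open Filter Topology

variable {Ω : Type u} [NormedField Ω] [IsUltrametricDist Ω]

omit [IsUltrametricDist Ω] in
private theorem DPoly_coef {E : Subfield Ω} {P : Polynomial Ω} (hP : Coef E P) (i : ℕ) :
    Coef E (Polynomial.hasseDeriv i P) := by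
  intro n
  rw [Polynomial.hasseDeriv_coeff]
  exact E.mul_mem (natCast_mem E _) (hP _)

omit [IsUltrametricDist Ω] in
private theorem DPoly_eval_mem {E : Subfield Ω} {P : Polynomial Ω} (hP : Coef E P) {e : Ω}
    (he : e ∈ E) : P.eval e ∈ E := by
  rw [Polynomial.eval_eq_sum]
  exact E.sum_mem fun i _ => E.mul_mem (hP i) (E.pow_mem he i)

/-- A sum with one dominating term. -/
private theorem DPoly_dom {s : Finset ℕ} {f : ℕ → Ω} {j : ℕ} (hj : j ∈ s)
    (h : ∀ i ∈ s, i ≠ j → ‖f i‖ < ‖f j‖) : ‖∑ i ∈ s, f i‖ = ‖f j‖ := by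
  classical
  rw [← Finset.add_sum_erase s f hj]
  rcases (s.erase j).eq_empty_or_nonempty with h0 | h1
  · rw [h0, Finset.sum_empty, add_zero]
  · obtain ⟨i, hi, hi2⟩ := IsUltrametricDist.exists_norm_finsetSum_le_of_nonempty h1 f
    rw [Finset.mem_erase] at hi
    have hlt : ‖∑ i ∈ s.erase j, f i‖ < ‖f j‖ := lt_of_le_of_lt hi2 (h i hi.2 hi.1)
    rw [IsUltrametricDist.norm_add_eq_max_of_norm_ne_norm hlt.ne']
    exact max_eq_left hlt.le

/-- The dominating index of a nonconstant polynomial at an element of type I.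

Proof. `(taylor e P).coeff i = (hasseDeriv i P).eval e`, so by `stab_norm` for the finitely many
`i ≤ natDegree P` the norms are eventually equal to those at `ζ` (for larger `i` both are zero).
Some coefficient with `i ≥ 1` is not zero at `ζ`: the leading coefficient of `P`,
`i = natDegree P`. `dom` for `δ i = ‖(taylor ζ P).coeff i‖`, `I = {1, ..., natDegree P}`,
`γ = infDist ζ E` gives `j` and `γ'`; eventually `γ < ‖ζ - e‖ < γ'` (`nr_dist`). With
`P(ζ) - P(e) = ∑ i ≥ 1, (taylor e P).coeff i * (ζ - e) ^ i` the third property follows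
(ultrametric: the term `j` dominates). Distance: `≤` because
`infDist ≤ ‖P(ζ) - P(e)‖ = ‖c j‖ * ‖ζ - e‖ ^ j` with `P(e) ∈ E` and `‖ζ - e‖` tends to `γ`
(continuity of `ρ ↦ ρ ^ j`; `nr_dist`). `≥`: suppose `‖P(ζ) - e''‖ < ‖c j‖ * γ ^ j` with `e'' ∈ E`.
By `stab_norm` for `P - C e''` eventually `‖P(e) - e''‖ = ‖P(ζ) - e''‖`, so
`‖c j‖ * ‖ζ - e‖ ^ j = ‖P(ζ) - P(e)‖ < ‖c j‖ * γ ^ j`, a contradiction to `γ < ‖ζ - e‖`. -/
theorem dpoly {p : ℕ} [Fact p.Prime] [CharP Ω p] [IsAlgClosed Ω] {k E H : Subfield Ω}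
    (ht : Tame p k E H) {ζ : Ω} (hζ : ζ ∈ H) (hI : TyI E ζ) {P : Polynomial Ω} (hP : Coef E P)
    (hd : 1 ≤ P.natDegree) : ∃ j, 1 ≤ j ∧ (Polynomial.taylor ζ P).coeff j ≠ 0 ∧
      (∀ᶠ e in nr E ζ, (∀ i, ‖(Polynomial.taylor e P).coeff i‖ =
          ‖(Polynomial.taylor ζ P).coeff i‖) ∧
        (∀ i, 1 ≤ i → i ≠ j → ‖(Polynomial.taylor ζ P).coeff i‖ * ‖ζ - e‖ ^ i <
          ‖(Polynomial.taylor ζ P).coeff j‖ * ‖ζ - e‖ ^ j) ∧
        ‖P.eval ζ - P.eval e‖ = ‖(Polynomial.taylor ζ P).coeff j‖ * ‖ζ - e‖ ^ j) ∧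
      Metric.infDist (P.eval ζ) (E : Set Ω) =
        ‖(Polynomial.taylor ζ P).coeff j‖ * Metric.infDist ζ (E : Set Ω) ^ j := by
  classical
  have hP0 : P ≠ 0 := by
    rintro rfl
    simp at hd
  obtain ⟨hγ0, hγ1, hγ2⟩ := nr_dist ht.closed hI
  set γ : ℝ := Metric.infDist ζ (E : Set Ω) with hγ
  -- the norms of the Taylor coefficients are stable
  have hst : ∀ᶠ e in nr E ζ, ∀ i, ‖(Polynomial.taylor e P).coeff i‖ =
      ‖(Polynomial.taylor ζ P).coeff i‖ := by
    have h1 : ∀ᶠ e in nr E ζ, ∀ i ∈ Finset.range (P.natDegree + 1),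
        ‖(Polynomial.taylor e P).coeff i‖ = ‖(Polynomial.taylor ζ P).coeff i‖ := by
      rw [Filter.eventually_all_finset]
      intro i _
      refine (stab_norm ht hζ hI (DPoly_coef hP i)).1.mono fun e he => ?_
      rw [Polynomial.taylor_coeff, Polynomial.taylor_coeff]
      exact he
    refine h1.mono fun e he i => ?_
    by_cases hi : i < P.natDegree + 1
    · exact he i (Finset.mem_range.2 hi)
    · rw [Polynomial.taylor_coeff, Polynomial.taylor_coeff,
        Polynomial.hasseDeriv_eq_zero_of_lt_natDegree P i (by omega), Polynomial.eval_zero,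
        Polynomial.eval_zero]
  have hzero : ∀ i, P.natDegree < i → (Polynomial.taylor ζ P).coeff i = 0 := by
    intro i hi
    rw [Polynomial.taylor_coeff, Polynomial.hasseDeriv_eq_zero_of_lt_natDegree P i hi,
      Polynomial.eval_zero]
  obtain ⟨j, hjI, hj0, γ', hγ', hdom⟩ := dom (I := Finset.Icc 1 P.natDegree)
    (fun i => ‖(Polynomial.taylor ζ P).coeff i‖) (fun i => norm_nonneg _)
    ⟨P.natDegree, Finset.mem_Icc.2 ⟨hd, le_refl _⟩, by
      rw [Polynomial.coeff_taylor_natDegree]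
      exact norm_ne_zero_iff.2 (Polynomial.leadingCoeff_ne_zero.2 hP0)⟩ hγ0
  rw [Finset.mem_Icc] at hjI
  have hjc : (Polynomial.taylor ζ P).coeff j ≠ 0 := norm_ne_zero_iff.1 hj0
  have hjp : 0 < ‖(Polynomial.taylor ζ P).coeff j‖ := norm_pos_iff.2 hjc
  have hev : ∀ᶠ e in nr E ζ, (∀ i, ‖(Polynomial.taylor e P).coeff i‖ =
          ‖(Polynomial.taylor ζ P).coeff i‖) ∧
        (∀ i, 1 ≤ i → i ≠ j → ‖(Polynomial.taylor ζ P).coeff i‖ * ‖ζ - e‖ ^ i <
          ‖(Polynomial.taylor ζ P).coeff j‖ * ‖ζ - e‖ ^ j) ∧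
        ‖P.eval ζ - P.eval e‖ = ‖(Polynomial.taylor ζ P).coeff j‖ * ‖ζ - e‖ ^ j := by
    filter_upwards [hst, nr_mem, hγ2 γ' hγ'] with e h1 h2 h3
    have h4 := hγ1 e h2
    have h5 : 0 < ‖ζ - e‖ := hγ0.trans h4
    have h6 : ∀ i, 1 ≤ i → i ≠ j → ‖(Polynomial.taylor ζ P).coeff i‖ * ‖ζ - e‖ ^ i <
        ‖(Polynomial.taylor ζ P).coeff j‖ * ‖ζ - e‖ ^ j := by
      intro i hi hij
      by_cases hin : i ≤ P.natDegree
      · exact hdom _ h4 h3 i (Finset.mem_Icc.2 ⟨hi, hin⟩) hij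
      · rw [hzero i (by omega), norm_zero, zero_mul]
        exact mul_pos hjp (pow_pos h5 j)
    refine ⟨h1, h6, ?_⟩
    have h7 : P.eval ζ - P.eval e = ∑ i ∈ Finset.Icc 1 P.natDegree,
        (Polynomial.taylor e P).coeff i * (ζ - e) ^ i := by
      have h8 : P.eval ζ = ∑ i ∈ Finset.range (P.natDegree + 1),
          (Polynomial.taylor e P).coeff i * (ζ - e) ^ i := by
        rw [← Polynomial.taylor_eval_sub (r := e) (f := P) ζ, Polynomial.eval_eq_sum_range,
          Polynomial.natDegree_taylor]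
      have h9 : Finset.range (P.natDegree + 1) = insert 0 (Finset.Icc 1 P.natDegree) := by
        ext i
        simp only [Finset.mem_range, Finset.mem_insert, Finset.mem_Icc]
        omega
      rw [h8, h9, Finset.sum_insert (by simp), Polynomial.taylor_coeff_zero, pow_zero, mul_one,
        add_sub_cancel_left]
    rw [h7, DPoly_dom (j := j) (Finset.mem_Icc.2 hjI), norm_mul, norm_pow, h1 j]
    intro i hi hij
    rw [norm_mul, norm_mul, norm_pow, norm_pow, h1 i, h1 j]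
    exact h6 i (Finset.mem_Icc.1 hi).1 hij
  refine ⟨j, hjI.1, hjc, hev, le_antisymm ?_ ?_⟩
  · -- upper bound
    have hc : Tendsto (fun ρ : ℝ => ‖(Polynomial.taylor ζ P).coeff j‖ * ρ ^ j) (𝓝[>] γ)
        (𝓝 (‖(Polynomial.taylor ζ P).coeff j‖ * γ ^ j)) := by
      have h1 : ContinuousAt (fun ρ : ℝ => ‖(Polynomial.taylor ζ P).coeff j‖ * ρ ^ j) γ := by
        fun_prop
      exact h1.tendsto.mono_left nhdsWithin_le_nhds
    refine ge_of_tendsto hc ?_
    filter_upwards [self_mem_nhdsWithin] with ρ hρ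
    obtain ⟨e, ⟨-, -, h3⟩, he, h4⟩ := (hev.and (nr_mem.and (hγ2 ρ hρ))).exists
    calc Metric.infDist (P.eval ζ) (E : Set Ω) ≤ dist (P.eval ζ) (P.eval e) :=
          Metric.infDist_le_dist_of_mem (DPoly_eval_mem hP he)
      _ = ‖(Polynomial.taylor ζ P).coeff j‖ * ‖ζ - e‖ ^ j := by rw [dist_eq_norm, h3]
      _ ≤ ‖(Polynomial.taylor ζ P).coeff j‖ * ρ ^ j :=
          mul_le_mul_of_nonneg_left (pow_le_pow_left₀ (norm_nonneg _) h4.le j) (norm_nonneg _)
  · -- lower bound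
    refine (Metric.le_infDist (s := (E : Set Ω)) ⟨0, E.zero_mem⟩).2 fun e' he' => ?_
    rw [dist_eq_norm]
    by_contra hlt
    rw [not_le] at hlt
    have hC : Coef E (P - Polynomial.C e') := by
      intro i
      rw [Polynomial.coeff_sub, Polynomial.coeff_C]
      refine E.sub_mem (hP i) ?_
      split_ifs
      · exact he'
      · exact E.zero_mem
    obtain ⟨e, ⟨-, -, h3⟩, he, h4⟩ := (hev.and (nr_mem.and (stab_norm ht hζ hI hC).1)).exists
    rw [Polynomial.eval_sub, Polynomial.eval_sub, Polynomial.eval_C, Polynomial.eval_C] at h4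
    have h5 : γ ^ j ≤ ‖ζ - e‖ ^ j := pow_le_pow_left₀ hγ0.le (hγ1 e he).le j
    have h6 : P.eval ζ - P.eval e = (P.eval ζ - e') + -(P.eval e - e') := by ring
    have h7 : ‖P.eval ζ - P.eval e‖ ≤ ‖P.eval ζ - e'‖ := by
      rw [h6]
      refine (IsUltrametricDist.norm_add_le_max _ _).trans ?_
      rw [norm_neg, h4, max_self]
    have h8 : ‖(Polynomial.taylor ζ P).coeff j‖ * γ ^ j ≤
        ‖(Polynomial.taylor ζ P).coeff j‖ * ‖ζ - e‖ ^ j :=
      mul_le_mul_of_nonneg_left h5 (norm_nonneg _)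
    linarith

end Pool.Agent.R4U
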