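import Mathlib
import Pool.Agent.Lib.MP_4ed7e0_lc_F.Defs

/-!
# MP_4ed7e0_lc, project U: perfect large fields (Kuhlmann's theorem). Definitions.

Everything takes place in a normed field `Ω` (ultrametric, algebraically closed, of
characteristic `p`). Subfields of `Ω` are terms of `Subfield Ω`.
-/

set_option autoImplicit false

namespace Pool.Agent.R4U

noncomputable section

universe u v

open Filter Topology

variable {Ω : Type u} [NormedField Ω]

/-- `A` is trivially normed. -/
def Triv (A : Subfield Ω) : Prop := ∀ c ∈ A, c ≠ 0 → ‖c‖ = 1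

/-- Every element of `H` of norm at most one is congruent to an element of `k`. -/
def Res (k H : Subfield Ω) : Prop := ∀ x ∈ H, ‖x‖ ≤ 1 → ∃ c ∈ k, ‖x - c‖ < 1

/-- Every element of `A` has a `p`-th root in `A`. -/
def Perf (p : ℕ) (A : Subfield Ω) : Prop := ∀ x ∈ A, ∃ y ∈ A, y ^ p = x

/-- The values of `A` are divisible. -/
def Dvs (A : Subfield Ω) : Prop := ∀ x ∈ A, ∀ n : ℕ, 0 < n → ∃ y ∈ A, ‖y‖ ^ n = ‖x‖

/-- Spherical completeness: for every family `B` of pairwise intersecting closed balls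
(pairs of a centre in `H` and a radius) there is a point of `H` in all of them. -/
def Sph (H : Set Ω) : Prop :=
  ∀ B : Set (Ω × ℝ), (∀ b ∈ B, b.1 ∈ H) → (∀ b ∈ B, ∀ c ∈ B, ‖b.1 - c.1‖ ≤ max b.2 c.2) →
    ∃ x ∈ H, ∀ b ∈ B, ‖x - b.1‖ ≤ b.2

/-- The coefficients of the polynomial `Q` belong to `A`. -/
def Coef (A : Subfield Ω) (Q : Polynomial Ω) : Prop := ∀ i, Q.coeff i ∈ A

/-- The algebraic closure of `k` in `Ω`. -/
def abar (k : Subfield Ω) : Subfield Ω := (algebraicClosure k Ω).toSubfield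

/-- The field `A(x)`. -/
def adj (A : Subfield Ω) (x : Ω) : Subfield Ω := Subfield.closure ((A : Set Ω) ∪ {x})

/-- The topological closure of the field `A(x)`. -/
def cl (A : Subfield Ω) (x : Ω) : Subfield Ω := (adj A x).topologicalClosure

/-- The algebraic elements over `k` in `Ω`, with coefficients in `A`. -/
def spn (A k : Subfield Ω) : Submodule A Ω := Submodule.span A (abar k : Set Ω)

/-- `z` is of type I over `E`: it is not in `E` and has no best approximation in `E`. -/
def TyI (E : Subfield Ω) (z : Ω) : Prop := z ∉ E ∧ ∀ e ∈ E, ∃ e' ∈ E, ‖z - e'‖ < ‖z - e‖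

/-- `z` is of type II over `E`: no power `‖z‖ ^ n`, `n ≠ 0`, is the norm of an element of `E`. -/
def TyII (E : Subfield Ω) (z : Ω) : Prop := z ≠ 0 ∧ ∀ n : ℤ, n ≠ 0 → ∀ e ∈ E, ‖z‖ ^ n ≠ ‖e‖

/-- `z` is of type I or of type II over `E`. -/
def Ty (E : Subfield Ω) (z : Ω) : Prop := TyI E z ∨ TyII E z

/-- The neighbourhoods of `z` in `E`: `P e` holds eventually in `nr E z` if and only if there is
`e0 ∈ E` such that `P e` holds for all `e ∈ E` with `‖z - e‖ ≤ ‖z - e0‖`. -/
def nr (E : Subfield Ω) (z : Ω) : Filter Ω :=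
  ⨅ e0 : E, 𝓟 {e | e ∈ E ∧ ‖z - e‖ ≤ ‖z - (e0 : Ω)‖}

/-- The big field `H` with residue field `k`. -/
structure HH (p : ℕ) (k H : Subfield Ω) : Prop where
  kH : k ≤ H
  triv : Triv k
  res : Res k H
  kperf : Perf p k
  closed : IsClosed (H : Set Ω)
  perf : Perf p H
  dvs : Dvs H
  alg : ∀ x : Ω, IsAlgebraic H x → x ∈ spn H k

/-- A closed relatively algebraically closed subfield `E` of `H`. -/
structure Tame (p : ℕ) (k E H : Subfield Ω) : Prop where
  hh : HH p k H
  kE : k ≤ E
  EH : E ≤ H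
  closed : IsClosed (E : Set Ω)
  rac : ∀ x ∈ H, IsAlgebraic E x → x ∈ E

/-- The finite system `S` over `K` has a solution with coordinates in the subfield `A`. -/
def SolvIn (K : Type v) [Field K] [Algebra K Ω] (A : Subfield Ω) {n : ℕ}
    (S : Finset (MvPolynomial (Fin n) K)) : Prop :=
  ∃ x : Fin n → Ω, (∀ i, x i ∈ A) ∧ ∀ q ∈ S, MvPolynomial.aeval x q = 0

/-- Every finite system over `K` solvable in `A` is solvable in `B`. -/
def TrIn (K : Type v) [Field K] [Algebra K Ω] (A B : Subfield Ω) : Prop :=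
  ∀ (n : ℕ) (S : Finset (MvPolynomial (Fin n) K)), SolvIn K A S → SolvIn K B S

end

end Pool.Agent.R4U
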