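import Pool.Agent.Lib.MP_4ed7e0_lc_U.Defs

/-!
# MP_4ed7e0_lc, project U: Newton's method in closed subfields
-/

set_option autoImplicit false

namespace Pool.Agent.R4U

universe u

open Filter Topology

variable {Ω : Type u} [NormedField Ω]

/-- A fixed point of a contraction (with respect to this point) which maps the closed set `S` to
itself belongs to `S`.

Proof. Induction: `T^[n] x0 ∈ S` and `‖T^[n] x0 - x‖ ≤ c ^ n * ‖x0 - x‖ ≤ ‖x0 - x‖`. So
`T^[n] x0` tends to `x`; `IsClosed.mem_of_tendsto`. -/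
theorem closed_iter {S : Set Ω} (hS : IsClosed S) {x x0 : Ω} {c : ℝ} (hc0 : 0 ≤ c) (hc : c < 1)
    (T : Ω → Ω) (hT : ∀ y ∈ S, ‖y - x‖ ≤ ‖x0 - x‖ → T y ∈ S)
    (hcon : ∀ y, ‖y - x‖ ≤ ‖x0 - x‖ → ‖T y - x‖ ≤ c * ‖y - x‖) (hx0 : x0 ∈ S) : x ∈ S := by
  have key : ∀ n : ℕ, T^[n] x0 ∈ S ∧ ‖T^[n] x0 - x‖ ≤ c ^ n * ‖x0 - x‖ := by
    intro n
    induction n with
    | zero => exact ⟨hx0, by simp⟩
    | succ n ih =>
      have h1 : ‖T^[n] x0 - x‖ ≤ ‖x0 - x‖ := by
        refine ih.2.trans ?_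
        exact mul_le_of_le_one_left (norm_nonneg _) (pow_le_one₀ hc0 hc.le)
      rw [Function.iterate_succ_apply']
      refine ⟨hT _ ih.1 h1, (hcon _ h1).trans ?_⟩
      rw [pow_succ', mul_assoc]
      exact mul_le_mul_of_nonneg_left ih.2 hc0
  have hlim : Tendsto (fun n : ℕ => T^[n] x0) atTop (𝓝 x) := by
    rw [tendsto_iff_norm_sub_tendsto_zero]
    have h2 : Tendsto (fun n : ℕ => c ^ n * ‖x0 - x‖) atTop (𝓝 (0 * ‖x0 - x‖)) :=
      (tendsto_pow_atTop_nhds_zero_of_lt_one hc0 hc).mul_const _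
    rw [zero_mul] at h2
    exact squeeze_zero (fun n => norm_nonneg _) (fun n => (key n).2) h2
  exact hS.mem_of_tendsto hlim (Eventually.of_forall fun n => (key n).1)

variable [IsUltrametricDist Ω]

private theorem newt_bound (a : ℕ → ℝ) (s : Finset ℕ) (h : ∀ i ∈ s, a i < 1) :
    ∃ c : ℝ, 0 ≤ c ∧ c < 1 ∧ ∀ i ∈ s, a i ≤ c := by
  induction s using Finset.induction_on with
  | empty => exact ⟨0, le_rfl, one_pos, by simp⟩
  | insert j s _ ih =>
    obtain ⟨c, hc0, hc1, hc⟩ := ih fun i hi => h i (Finset.mem_insert_of_mem hi)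
    refine ⟨max c (a j), le_max_of_le_left hc0, max_lt hc1 (h j (Finset.mem_insert_self _ _)), ?_⟩
    intro i hi
    rcases Finset.mem_insert.1 hi with rfl | hi
    · exact le_max_right _ _
    · exact (hc i hi).trans (le_max_left _ _)

private theorem newt_pow_sub {s t : Ω} {r : ℝ} (hs : ‖s‖ ≤ r) (ht : ‖t‖ ≤ r) (i : ℕ) :
    ‖s ^ (i + 1) - t ^ (i + 1)‖ ≤ ‖s - t‖ * r ^ i := by
  have hr : 0 ≤ r := (norm_nonneg _).trans hs
  induction i with
  | zero => simp
  | succ i ih =>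
    have h1 : s ^ (i + 1 + 1) - t ^ (i + 1 + 1) =
        s ^ (i + 1) * (s - t) + (s ^ (i + 1) - t ^ (i + 1)) * t := by ring
    rw [h1]
    refine (IsUltrametricDist.norm_add_le_max _ _).trans (max_le ?_ ?_)
    · rw [norm_mul, norm_pow, mul_comm]
      gcongr
    · rw [norm_mul, pow_succ r i, ← mul_assoc]
      gcongr

private theorem newt_mult {m : ℝ} (hm : 0 ≤ m) (s : Multiset Ω) (h : ∀ v ∈ s, m < ‖v‖) :
    ‖((s.map fun v => Polynomial.X - Polynomial.C v).prod).coeff 1‖ * m <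
      ‖((s.map fun v => Polynomial.X - Polynomial.C v).prod).coeff 0‖ := by
  induction s using Multiset.induction_on with
  | empty =>
    simp [Polynomial.coeff_one]
  | cons v s ih =>
    have ih' := ih fun u hu => h u (Multiset.mem_cons_of_mem hu)
    have hv := h v (Multiset.mem_cons_self v s)
    rw [Multiset.map_cons, Multiset.prod_cons]
    set R := (s.map fun v => Polynomial.X - Polynomial.C v).prod with hR
    have hR0 : 0 < ‖R.coeff 0‖ := lt_of_le_of_lt (by positivity) ih'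
    have h1 : ((Polynomial.X - Polynomial.C v) * R).coeff 1 = R.coeff 0 - v * R.coeff 1 := by
      rw [sub_mul, Polynomial.coeff_sub, Polynomial.coeff_C_mul]
      congr 1
      exact Polynomial.coeff_X_mul R 0
    have h0 : ((Polynomial.X - Polynomial.C v) * R).coeff 0 = -(v * R.coeff 0) := by
      rw [sub_mul, Polynomial.coeff_sub, Polynomial.coeff_C_mul, Polynomial.coeff_X_mul_zero,
        zero_sub]
    rw [h1, h0, norm_neg, norm_mul]
    have h2 : ‖R.coeff 0 - v * R.coeff 1‖ ≤ max ‖R.coeff 0‖ ‖v * R.coeff 1‖ := by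
      rw [sub_eq_add_neg]
      refine (IsUltrametricDist.norm_add_le_max _ _).trans ?_
      rw [norm_neg]
    refine (mul_le_mul_of_nonneg_right h2 hm).trans_lt ?_
    rw [max_mul_of_nonneg _ _ hm]
    refine max_lt ?_ ?_
    · rw [mul_comm]
      exact mul_lt_mul_of_pos_right hv hR0
    · rw [norm_mul, mul_assoc]
      exact mul_lt_mul_of_pos_left ih' (hm.trans_lt hv)

omit [IsUltrametricDist Ω] in
private theorem newt_natCast_norm (p : ℕ) [Fact p.Prime] [CharP Ω p] {n : ℕ} (hn : ¬ p ∣ n) :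
    ‖(n : Ω)‖ = 1 := by
  have hp := (Fact.out : p.Prime)
  have h1 : (n : ZMod p) ≠ 0 := by
    rwa [Ne, ZMod.natCast_eq_zero_iff]
  have h2 := ZMod.pow_card_sub_one_eq_one h1
  have h3 : (n : Ω) ^ (p - 1) = 1 := by
    have h4 := congrArg (ZMod.castHom (dvd_refl p) Ω) h2
    simpa using h4
  have h5 : ‖(n : Ω)‖ ^ (p - 1) = 1 := by rw [← norm_pow, h3, norm_one]
  exact (pow_eq_one_iff_of_nonneg (norm_nonneg _) (by have := hp.two_le; omega)).1 h5

omit [IsUltrametricDist Ω] in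
private theorem newt_as_coeff_one (p : ℕ) [Fact p.Prime] (x : Ω) :
    ‖(Polynomial.X ^ p - Polynomial.X - Polynomial.C x : Polynomial Ω).coeff 1‖ = 1 := by
  have hp := (Fact.out : p.Prime)
  rw [Polynomial.coeff_sub, Polynomial.coeff_sub, Polynomial.coeff_X_pow, Polynomial.coeff_C,
    Polynomial.coeff_X_one, if_neg hp.one_lt.ne, if_neg one_ne_zero]
  simp

omit [IsUltrametricDist Ω] in
private theorem newt_as_coeff_le (p : ℕ) [Fact p.Prime] (x : Ω) (i : ℕ) (hi : 2 ≤ i) :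
    ‖(Polynomial.X ^ p - Polynomial.X - Polynomial.C x : Polynomial Ω).coeff i‖ ≤ 1 := by
  rw [Polynomial.coeff_sub, Polynomial.coeff_sub, Polynomial.coeff_X_pow, Polynomial.coeff_C,
    Polynomial.coeff_X, if_neg (by omega : ¬ 1 = i), if_neg (by omega : ¬ i = 0)]
  split_ifs <;> simp

omit [IsUltrametricDist Ω] in
private theorem newt_as_coef (p : ℕ) {A : Subfield Ω} {x : Ω} (hx : x ∈ A) :
    Coef A (Polynomial.X ^ p - Polynomial.X - Polynomial.C x : Polynomial Ω) := by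
  intro i
  rw [Polynomial.coeff_sub, Polynomial.coeff_sub, Polynomial.coeff_X_pow, Polynomial.coeff_C,
    Polynomial.coeff_X]
  refine A.sub_mem (A.sub_mem ?_ ?_) ?_
  · split_ifs
    · exact A.one_mem
    · exact A.zero_mem
  · split_ifs
    · exact A.one_mem
    · exact A.zero_mem
  · split_ifs
    · exact hx
    · exact A.zero_mem

/-- A root `w` of a polynomial with coefficients in a closed subfield `A` which is close to an
element `b` of `A` belongs to `A`.

Proof. Let `r = ‖w - b‖`, `q i = (Polynomial.taylor b Q).coeff i`, so that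
`Q.eval (b + s) = ∑ i, q i * s ^ i` (`Polynomial.taylor_eval`, `Polynomial.eval_eq_sum_range`).
Let `T y = y - Q.eval y / q 1`. If `‖y - w‖ ≤ r` put `s = y - b`, `t = w - b`; then `‖s‖, ‖t‖ ≤ r`
and `Q.eval y = Q.eval y - Q.eval w = ∑ i ≥ 1, q i * (s ^ i - t ^ i)`, where
`s ^ i - t ^ i = (s - t) * (∑ l < i, s ^ l * t ^ (i - 1 - l))` (`Commute.mul_geom_sum₂` or
`geom_sum₂_mul`), so `T y - w = - (s - t) * ∑ i ≥ 2, (q i / q 1) * (∑ l < i, ...)` has norm at most
`c * ‖y - w‖` with `c = max (0, max_{2 ≤ i ≤ deg} ‖q i‖ * r ^ (i - 1) / ‖q 1‖) < 1`. Use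
`closed_iter` with `S = A`, `x0 = b` (`T` maps `A` to itself since the `q i` are in `A`,
`Polynomial.taylor_coeff`, or because `Q.eval y ∈ A`). -/
theorem newton_mem {A : Subfield Ω} (hA : IsClosed (A : Set Ω)) {Q : Polynomial Ω}
    (hQ : Coef A Q) {b w : Ω} (hb : b ∈ A) (hw : Q.eval w = 0)
    (h : ∀ i, 2 ≤ i → ‖(Polynomial.taylor b Q).coeff i‖ * ‖w - b‖ ^ (i - 1) <
      ‖(Polynomial.taylor b Q).coeff 1‖) : w ∈ A := by
  have hq1 : 0 < ‖(Polynomial.taylor b Q).coeff 1‖ :=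
    lt_of_le_of_lt (by positivity) (h 2 le_rfl)
  have hq1' : (Polynomial.taylor b Q).coeff 1 ≠ 0 := norm_pos_iff.1 hq1
  set P := Polynomial.taylor b Q with hP
  have hrr : ‖b - w‖ = ‖w - b‖ := norm_sub_rev b w
  obtain ⟨c, hc0, hc1, hc⟩ := newt_bound (fun i => ‖P.coeff i‖ * ‖w - b‖ ^ (i - 1) / ‖P.coeff 1‖)
    (Finset.Ico 2 (P.natDegree + 2)) (fun i hi => by
      rw [div_lt_one hq1]
      exact h i (Finset.mem_Ico.1 hi).1)
  have hev : ∀ y, Q.eval y = P.coeff 0 + P.coeff 1 * (y - b) +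
      ∑ i ∈ Finset.Ico 2 (P.natDegree + 2), P.coeff i * (y - b) ^ i := by
    intro y
    have h1 : Q.eval y = P.eval (y - b) := by
      rw [hP, Polynomial.taylor_eval, sub_add_cancel]
    rw [h1, Polynomial.eval_eq_sum_range' (n := P.natDegree + 2) (by omega),
      Finset.range_eq_Ico, Finset.sum_eq_sum_Ico_succ_bot (by omega),
      Finset.sum_eq_sum_Ico_succ_bot (by omega)]
    simp only [pow_zero, mul_one, zero_add, pow_one]
    rw [← add_assoc]
  refine closed_iter hA hc0 hc1 (fun y => y - Q.eval y / P.coeff 1) ?_ ?_ hb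
  · intro y hy _
    refine A.sub_mem hy (A.div_mem ?_ ?_)
    · rw [Polynomial.eval_eq_sum_range]
      exact A.sum_mem fun i _ => A.mul_mem (hQ i) (A.pow_mem hy i)
    · rw [hP, Polynomial.taylor_coeff_one, Polynomial.eval_eq_sum_range]
      refine A.sum_mem fun i _ => A.mul_mem ?_ (A.pow_mem hb i)
      rw [Polynomial.coeff_derivative]
      exact A.mul_mem (hQ _) (A.add_mem (natCast_mem A i) A.one_mem)
  · intro y hy
    rw [hrr] at hy
    have hs : ‖y - b‖ ≤ ‖w - b‖ := by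
      have h1 : y - b = (y - w) + (w - b) := by ring
      rw [h1]
      exact (IsUltrametricDist.norm_add_le_max _ _).trans (max_le hy le_rfl)
    have h2 : (y - Q.eval y / P.coeff 1) - w =
        -∑ i ∈ Finset.Ico 2 (P.natDegree + 2),
          P.coeff i * ((y - b) ^ i - (w - b) ^ i) / P.coeff 1 := by
      have h3 : Q.eval y = Q.eval y - Q.eval w := by rw [hw, sub_zero]
      rw [h3, hev y, hev w, ← Finset.sum_div]
      simp only [mul_sub, Finset.sum_sub_distrib]
      field_simp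
      ring
    rw [h2, norm_neg]
    refine IsUltrametricDist.norm_sum_le_of_forall_le_of_nonneg (by positivity) fun i hi => ?_
    have hi2 := (Finset.mem_Ico.1 hi).1
    obtain ⟨j, rfl⟩ : ∃ j, i = j + 1 := ⟨i - 1, by omega⟩
    have h4 := newt_pow_sub hs (le_refl ‖w - b‖) j
    have h5 : y - b - (w - b) = y - w := by ring
    rw [h5] at h4
    have h6 := hc (j + 1) hi
    simp only [Nat.add_sub_cancel] at h6
    rw [norm_div, norm_mul]
    calc ‖P.coeff (j + 1)‖ * ‖(y - b) ^ (j + 1) - (w - b) ^ (j + 1)‖ / ‖P.coeff 1‖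
        ≤ ‖P.coeff (j + 1)‖ * (‖y - w‖ * ‖w - b‖ ^ j) / ‖P.coeff 1‖ := by gcongr
      _ = (‖P.coeff (j + 1)‖ * ‖w - b‖ ^ j / ‖P.coeff 1‖) * ‖y - w‖ := by ring
      _ ≤ c * ‖y - w‖ := mul_le_mul_of_nonneg_right h6 (norm_nonneg _)

/-- Existence of a root close to `b` in the algebraically closed field `Ω`.

Proof. If `Q.eval b = 0` take `w = b`. Otherwise let `P = Polynomial.taylor b Q`, so
`P.coeff 0 = Q.eval b ≠ 0` and the roots of `P` are the `v - b`, `v` a root of `Q`. Let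
`P = C a * ∏ (X - C (v i))` over its multiset of roots (`IsAlgClosed.splits`). Then
`P.coeff 0 = a * ∏ (- v i)` and `P.coeff 1 = - P.coeff 0 * ∑ (v i)⁻¹` (compare
`Polynomial.Splits`-lemmas on the logarithmic derivative
`eval_derivative_div_eval_of_ne_zero...`, or prove by induction on the multiset). By the
ultrametric inequality some `i` has `‖P.coeff 1‖ ≤ ‖P.coeff 0‖ * ‖v i‖⁻¹`; take `w = b + v i`. -/
theorem newton_exists [IsAlgClosed Ω] {Q : Polynomial Ω} {b : Ω}
    (h : (Polynomial.taylor b Q).coeff 1 ≠ 0) :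
    ∃ w, Q.eval w = 0 ∧ ‖w - b‖ * ‖(Polynomial.taylor b Q).coeff 1‖ ≤ ‖Q.eval b‖ := by
  by_cases h0 : Q.eval b = 0
  · exact ⟨b, h0, by simp [h0]⟩
  set P := Polynomial.taylor b Q with hP
  have hP0 : P.coeff 0 = Q.eval b := Polynomial.taylor_coeff_zero b Q
  have hPne : P ≠ 0 := by
    intro h1
    rw [h1] at h
    exact h (Polynomial.coeff_zero 1)
  have hp1 : 0 < ‖P.coeff 1‖ := norm_pos_iff.2 h
  by_contra hcon
  push Not at hcon
  have hroot : ∀ v ∈ P.roots, ‖Q.eval b‖ / ‖P.coeff 1‖ < ‖v‖ := by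
    intro v hv
    rw [Polynomial.mem_roots hPne, Polynomial.IsRoot.def, hP, Polynomial.taylor_eval] at hv
    have h1 := hcon _ hv
    rw [add_sub_cancel_right] at h1
    rwa [div_lt_iff₀ hp1]
  have h2 := newt_mult (by positivity) P.roots hroot
  have h3 : P = Polynomial.C P.leadingCoeff *
      (P.roots.map (fun v => Polynomial.X - Polynomial.C v)).prod :=
    (IsAlgClosed.splits P).eq_prod_roots
  set R := (P.roots.map (fun v => Polynomial.X - Polynomial.C v)).prod with hR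
  have hlc : 0 < ‖P.leadingCoeff‖ := norm_pos_iff.2 (Polynomial.leadingCoeff_ne_zero.2 hPne)
  have h4 : P.coeff 1 = P.leadingCoeff * R.coeff 1 := by
    conv_lhs => rw [h3]
    rw [Polynomial.coeff_C_mul]
  have h5 : P.coeff 0 = P.leadingCoeff * R.coeff 0 := by
    conv_lhs => rw [h3]
    rw [Polynomial.coeff_C_mul]
  have h6 : ‖P.coeff 1‖ * (‖Q.eval b‖ / ‖P.coeff 1‖) < ‖P.coeff 0‖ := by
    conv_lhs => rw [h4, norm_mul, mul_assoc, ← norm_mul, ← h4]
    rw [h5, norm_mul]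
    exact mul_lt_mul_of_pos_left h2 hlc
  rw [mul_div_cancel₀ _ hp1.ne', hP0] at h6
  exact lt_irrefl _ h6

/-- Newton's method in a closed subfield.

Proof. `newton_exists` gives a root `w` in `Ω` with `‖w - b‖ ≤ η`, `newton_mem` gives `w ∈ A`. -/
theorem newton [IsAlgClosed Ω] {A : Subfield Ω} (hA : IsClosed (A : Set Ω)) {Q : Polynomial Ω}
    (hQ : Coef A Q) {b : Ω} (hb : b ∈ A) {η : ℝ}
    (hη : ‖Q.eval b‖ ≤ η * ‖(Polynomial.taylor b Q).coeff 1‖)
    (h : ∀ i, 2 ≤ i → ‖(Polynomial.taylor b Q).coeff i‖ * η ^ (i - 1) <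
      ‖(Polynomial.taylor b Q).coeff 1‖) : ∃ w ∈ A, Q.eval w = 0 ∧ ‖w - b‖ ≤ η := by
  have hp1 : 0 < ‖(Polynomial.taylor b Q).coeff 1‖ :=
    lt_of_le_of_lt (mul_nonneg (norm_nonneg _) (sq_nonneg η)) (h 3 (by norm_num))
  obtain ⟨w, hw, hw1⟩ := newton_exists (Q := Q) (b := b) (norm_pos_iff.1 hp1)
  have hwη : ‖w - b‖ ≤ η := le_of_mul_le_mul_right (hw1.trans hη) hp1
  refine ⟨w, newton_mem hA hQ hb hw fun i hi => lt_of_le_of_lt ?_ (h i hi), hw, hwη⟩
  gcongr

/-- Roots of 1-units of order prime to `p`.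

Proof. `newton` for `X ^ n - C x` and `b = 1`: `Q.eval 1 = 1 - x`, the Taylor coefficients at `1`
are the binomial coefficients `n.choose i` for `i ≥ 1`, of norm at most one (natural numbers have
norm at most one), and `‖(n : Ω)‖ = 1` because `n` is not zero in the prime field (finite, so all
its nonzero elements are roots of unity). Take `η = ‖x - 1‖`; if `η = 0` then the claim is
trivial (`v = 1`). -/
theorem root_unit [IsAlgClosed Ω] (p : ℕ) [Fact p.Prime] [CharP Ω p] {A : Subfield Ω}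
    (hA : IsClosed (A : Set Ω)) {x : Ω} (hx : x ∈ A) (h1 : ‖x - 1‖ < 1) {n : ℕ} (hn : ¬ p ∣ n) :
    ∃ v ∈ A, v ^ n = x ∧ ‖v - 1‖ < 1 := by
  have hn0 : n ≠ 0 := by
    rintro rfl
    exact hn (dvd_zero p)
  have hnn : ‖(n : Ω)‖ = 1 := newt_natCast_norm p hn
  have hT : Polynomial.taylor (1 : Ω) (Polynomial.X ^ n - Polynomial.C x) =
      (Polynomial.X + 1) ^ n - Polynomial.C x := by
    simp [Polynomial.taylor_apply]
  have hco : ∀ i, 1 ≤ i → (Polynomial.taylor (1 : Ω) (Polynomial.X ^ n - Polynomial.C x)).coeff i =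
      (n.choose i : Ω) := by
    intro i hi
    rw [hT, Polynomial.coeff_sub, Polynomial.coeff_X_add_one_pow, Polynomial.coeff_C,
      if_neg (by omega), sub_zero]
  have hc1 : ‖(Polynomial.taylor (1 : Ω) (Polynomial.X ^ n - Polynomial.C x)).coeff 1‖ = 1 := by
    rw [hco 1 le_rfl, Nat.choose_one_right, hnn]
  obtain ⟨w, hwA, hw, hw1⟩ := newton hA (Q := Polynomial.X ^ n - Polynomial.C x) (b := 1)
    (η := ‖x - 1‖) (by
      intro i
      rw [Polynomial.coeff_sub, Polynomial.coeff_X_pow, Polynomial.coeff_C]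
      refine A.sub_mem ?_ ?_
      · split_ifs
        · exact A.one_mem
        · exact A.zero_mem
      · split_ifs
        · exact hx
        · exact A.zero_mem) A.one_mem (by
      rw [hc1, mul_one]
      simp only [Polynomial.eval_sub, Polynomial.eval_pow, Polynomial.eval_X, one_pow,
        Polynomial.eval_C]
      rw [norm_sub_rev]) (by
      intro i hi
      rw [hc1, hco i (by omega)]
      have h2 : ‖((n.choose i : ℕ) : Ω)‖ ≤ 1 := IsUltrametricDist.norm_natCast_le_one Ω _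
      have h3 : ‖x - 1‖ ^ (i - 1) < 1 := pow_lt_one₀ (norm_nonneg _) h1 (by omega)
      calc ‖((n.choose i : ℕ) : Ω)‖ * ‖x - 1‖ ^ (i - 1) ≤ 1 * ‖x - 1‖ ^ (i - 1) := by gcongr
        _ < 1 := by rwa [one_mul])
  refine ⟨w, hwA, ?_, hw1.trans_lt h1⟩
  simpa [sub_eq_zero] using hw

/-- Artin-Schreier equations with small right-hand side.

Proof. `newton` for `X ^ p - X - C x`, `b = 0`, `η = ‖x‖`. The coefficients `2 ≤ i < p` are zero,
the coefficient `p` is one. -/
theorem as_small [IsAlgClosed Ω] (p : ℕ) [Fact p.Prime] [CharP Ω p] {A : Subfield Ω}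
    (hA : IsClosed (A : Set Ω)) {x : Ω} (hx : x ∈ A) (h : ‖x‖ < 1) :
    ∃ v ∈ A, v ^ p - v = x ∧ ‖v‖ < 1 := by
  have hp := (Fact.out : p.Prime)
  have hc1 := newt_as_coeff_one p x
  obtain ⟨w, hwA, hw, hw1⟩ := newton hA (Q := Polynomial.X ^ p - Polynomial.X - Polynomial.C x)
    (b := 0) (η := ‖x‖) (newt_as_coef p hx) A.zero_mem (by
      rw [Polynomial.taylor_zero, hc1, mul_one]
      simp [hp.ne_zero]) (by
      intro i hi
      rw [Polynomial.taylor_zero, hc1]
      calc ‖(Polynomial.X ^ p - Polynomial.X - Polynomial.C x : Polynomial Ω).coeff i‖ *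
            ‖x‖ ^ (i - 1) ≤ 1 * ‖x‖ ^ (i - 1) := by
            gcongr
            exact newt_as_coeff_le p x i hi
        _ < 1 := by
            rw [one_mul]
            exact pow_lt_one₀ (norm_nonneg _) h (by omega))
  refine ⟨w, hwA, ?_, ?_⟩
  · simpa [sub_eq_zero] using hw
  · rw [sub_zero] at hw1
    exact hw1.trans_lt h

/-- Proof. `newton_mem` for `X ^ p - X - C (w ^ p - w)`, `b = 0`. -/
theorem as_small_mem (p : ℕ) [Fact p.Prime] {A : Subfield Ω}
    (hA : IsClosed (A : Set Ω)) {w : Ω} (hw : ‖w‖ < 1) (h : w ^ p - w ∈ A) : w ∈ A := by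
  have hp := (Fact.out : p.Prime)
  refine newton_mem hA (Q := Polynomial.X ^ p - Polynomial.X - Polynomial.C (w ^ p - w))
    (newt_as_coef p h) (b := 0) A.zero_mem (by simp) ?_
  intro i hi
  rw [Polynomial.taylor_zero, newt_as_coeff_one, sub_zero]
  calc ‖(Polynomial.X ^ p - Polynomial.X - Polynomial.C (w ^ p - w) : Polynomial Ω).coeff i‖ *
        ‖w‖ ^ (i - 1) ≤ 1 * ‖w‖ ^ (i - 1) := by
        gcongr
        exact newt_as_coeff_le p _ i hi
    _ < 1 := by
        rw [one_mul]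
        exact pow_lt_one₀ (norm_nonneg _) hw (by omega)

end Pool.Agent.R4U
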