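import Pool.Agent.Lib.MP_4ed7e0_lc_U.Hyp
import Pool.Agent.Lib.MP_4ed7e0_lc_U.Newt

/-!
# MP_4ed7e0_lc, project U: relatively algebraically closed subfields and their closures
-/

set_option autoImplicit false

namespace Pool.Agent.R4U

universe u v

open Pool.Agent.R4F Filter Topology

section aux

variable {Ω : Type u} [NormedField Ω]

private theorem dens_taylor {N : ℕ} {q : Polynomial Ω} (hq : q.natDegree ≤ N) (w : Ω) (j : ℕ) :
    (Polynomial.taylor w q).coeff j =
      ∑ k ∈ Finset.range (N + 1), (q.coeff (k + j) * ((k + j).choose j : Ω)) * w ^ k := by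
  have h1 : (Polynomial.hasseDeriv j q).natDegree < N + 1 :=
    Nat.lt_succ_of_le (((Polynomial.natDegree_hasseDeriv_le q j).trans (Nat.sub_le _ _)).trans hq)
  rw [Polynomial.taylor_coeff, Polynomial.eval_eq_sum_range' h1]
  refine Finset.sum_congr rfl fun k _ => ?_
  rw [Polynomial.hasseDeriv_coeff, mul_comm (q.coeff (k + j))]

/-- A root of `Q` with `Q ≠ 0` over `A` is algebraic over `A`. -/
private theorem dens_alg {A : Subfield Ω} {Q : Polynomial Ω} (hQ : Coef A Q) (h0 : Q ≠ 0) {w : Ω}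
    (hw : Q.eval w = 0) : IsAlgebraic A w := by
  have h1 : Q ∈ Polynomial.lifts (algebraMap A Ω) := by
    rw [Polynomial.lifts_iff_coeff_lifts]
    exact fun n => ⟨⟨Q.coeff n, hQ n⟩, rfl⟩
  rw [Polynomial.mem_lifts] at h1
  obtain ⟨Q0, hQ0⟩ := h1
  refine ⟨Q0, ?_, ?_⟩
  · rintro rfl
    rw [Polynomial.map_zero] at hQ0
    exact h0 hQ0.symm
  · rw [Polynomial.aeval_def, ← Polynomial.eval_map, hQ0, hw]

variable [IsUltrametricDist Ω]

/-- Newton's method for a convergent family of polynomials. -/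
private theorem dens_newton [IsAlgClosed Ω] {H : Subfield Ω} (hH : IsClosed (H : Set Ω))
    {ι : Type*} {l : Filter ι} {q : Polynomial Ω} {Q : ι → Polynomial Ω} {N : ℕ}
    (hN : ∀ i, (Q i).natDegree ≤ N) (hNq : q.natDegree ≤ N)
    (hc : ∀ j, Tendsto (fun i => (Q i).coeff j) l (𝓝 (q.coeff j)))
    (hQ : ∀ᶠ i in l, Coef H (Q i)) {w : Ω} (hw : w ∈ H) (h0 : q.eval w = 0)
    (h1 : q.derivative.eval w ≠ 0) {ε : ℝ} (hε : 0 < ε) :
    ∀ᶠ i in l, Q i ≠ 0 ∧ ∃ w₁ ∈ H, (Q i).eval w₁ = 0 ∧ ‖w₁ - w‖ ≤ ε := by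
  have hT : ∀ j, Tendsto (fun i => (Polynomial.taylor w (Q i)).coeff j) l
      (𝓝 ((Polynomial.taylor w q).coeff j)) := by
    intro j
    simp only [dens_taylor (hN _) w j, dens_taylor hNq w j]
    exact tendsto_finsetSum _ fun k _ => ((hc (k + j)).mul_const _).mul_const _
  have hT1 : (Polynomial.taylor w q).coeff 1 ≠ 0 := by
    rw [Polynomial.taylor_coeff_one]
    exact h1
  have hT1' : 0 < ‖(Polynomial.taylor w q).coeff 1‖ := norm_pos_iff.2 hT1
  have hT0 : (Polynomial.taylor w q).coeff 0 = 0 := by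
    rw [Polynomial.taylor_coeff_zero]
    exact h0
  obtain ⟨η, hη0, hηε, hη⟩ : ∃ η : ℝ, 0 < η ∧ η ≤ ε ∧ ∀ j ∈ Finset.Icc 2 N,
      ‖(Polynomial.taylor w q).coeff j‖ * η ^ (j - 1) < ‖(Polynomial.taylor w q).coeff 1‖ := by
    have e1 : ∀ᶠ η : ℝ in 𝓝[>] 0, ∀ j ∈ Finset.Icc 2 N,
        ‖(Polynomial.taylor w q).coeff j‖ * η ^ (j - 1) < ‖(Polynomial.taylor w q).coeff 1‖ := by
      rw [Filter.eventually_all_finset]
      intro j hj
      have hj2 := (Finset.mem_Icc.1 hj).1
      have e2 : Tendsto (fun η : ℝ => ‖(Polynomial.taylor w q).coeff j‖ * η ^ (j - 1)) (𝓝 0)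
          (𝓝 (‖(Polynomial.taylor w q).coeff j‖ * 0 ^ (j - 1))) :=
        ((continuous_id.pow (j - 1)).tendsto 0).const_mul _
      rw [zero_pow (by omega), mul_zero] at e2
      exact (e2.mono_left nhdsWithin_le_nhds).eventually_lt_const hT1'
    have e3 : ∀ᶠ η : ℝ in 𝓝[>] 0, η ≤ ε :=
      (Iic_mem_nhds hε : Set.Iic ε ∈ 𝓝 (0 : ℝ)) |> fun h => nhdsWithin_le_nhds h
    have e4 : ∀ᶠ η : ℝ in 𝓝[>] 0, 0 < η := eventually_mem_nhdsWithin
    obtain ⟨η, ⟨ha, hb⟩, hcc⟩ := ((e1.and e3).and e4).exists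
    exact ⟨η, hcc, hb, ha⟩
  have f1 : ∀ᶠ i in l, ∀ j ∈ Finset.Icc 2 N, ‖(Polynomial.taylor w (Q i)).coeff j‖ * η ^ (j - 1) <
      ‖(Polynomial.taylor w (Q i)).coeff 1‖ := by
    rw [Filter.eventually_all_finset]
    intro j hj
    exact ((hT j).norm.mul_const _).eventually_lt ((hT 1).norm) (hη j hj)
  have f2 : ∀ᶠ i in l, ‖(Polynomial.taylor w (Q i)).coeff 0‖ <
      η * ‖(Polynomial.taylor w (Q i)).coeff 1‖ := by
    refine (hT 0).norm.eventually_lt ((hT 1).norm.const_mul η) ?_
    rw [hT0, norm_zero]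
    positivity
  have f3 : ∀ᶠ i in l, 0 < ‖(Polynomial.taylor w (Q i)).coeff 1‖ :=
    (hT 1).norm.eventually_const_lt hT1'
  filter_upwards [f1, f2, f3, hQ] with i g1 g2 g3 g4
  refine ⟨?_, ?_⟩
  · intro h
    rw [h, map_zero, Polynomial.coeff_zero, norm_zero] at g3
    exact lt_irrefl _ g3
  · rw [Polynomial.taylor_coeff_zero] at g2
    obtain ⟨w₁, hw₁, hr, hd⟩ := newton hH g4 hw g2.le (fun j hj => by
      by_cases hjN : j ≤ N
      · exact g1 j (Finset.mem_Icc.2 ⟨hj, hjN⟩)
      · have : (Polynomial.taylor w (Q i)).coeff j = 0 := by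
          apply Polynomial.coeff_eq_zero_of_natDegree_lt
          rw [Polynomial.natDegree_taylor]
          exact lt_of_le_of_lt (hN i) (by omega)
        rw [this, norm_zero, zero_mul]
        exact g3)
    exact ⟨w₁, hw₁, hr, hd.trans hηε⟩

end aux

variable {Ω : Type u} [NormedField Ω] [IsUltrametricDist Ω]

omit [IsUltrametricDist Ω] in
private theorem dens_perfA {p : ℕ} [Fact p.Prime] {A H : Subfield Ω}
    (hperf : Perf p H) (hA : A ≤ H) (hrac : ∀ x ∈ H, IsAlgebraic A x → x ∈ A) : Perf p A := by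
  have hp := (Fact.out : p.Prime)
  intro x hx
  obtain ⟨y, hy, hyx⟩ := hperf x (hA hx)
  refine ⟨y, hrac y hy ?_, hyx⟩
  have h1 : IsAlgebraic A (y ^ p) := by
    rw [hyx]
    exact isAlgebraic_algebraMap (⟨x, hx⟩ : A)
  exact IsAlgebraic.of_pow hp.pos h1

omit [IsUltrametricDist Ω] in
private theorem dens_perfB {p : ℕ} [Fact p.Prime] [CharP Ω p] {A H : Subfield Ω}
    (hH : IsClosed (H : Set Ω)) (hperf : Perf p H) (hA : A ≤ H)
    (hrac : ∀ x ∈ H, IsAlgebraic A x → x ∈ A) : Perf p A.topologicalClosure := by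
  have hp := (Fact.out : p.Prime)
  have hpA := dens_perfA hperf hA hrac
  intro x hx
  have hxH : x ∈ H := A.topologicalClosure_minimal hA hH hx
  obtain ⟨y, hy, hyx⟩ := hperf x hxH
  refine ⟨y, ?_, hyx⟩
  have h1 : y ∈ closure (A : Set Ω) := by
    rw [Metric.mem_closure_iff]
    intro ε hε
    have h2 : x ∈ closure (A : Set Ω) := hx
    rw [Metric.mem_closure_iff] at h2
    obtain ⟨a, ha, hxa⟩ := h2 (ε ^ p) (pow_pos hε p)
    obtain ⟨b, hb, hba⟩ := hpA a ha
    refine ⟨b, hb, ?_⟩
    rw [dist_eq_norm] at hxa ⊢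
    have h3 : ‖y - b‖ ^ p < ε ^ p := by
      rw [← norm_pow, sub_pow_char y b (p := p), hyx, hba]
      exact hxa
    exact lt_of_pow_lt_pow_left₀ p hε.le h3
  exact h1

/-- The closure of a relatively algebraically closed subfield is relatively algebraically closed.

Proof. Let `B` be the closure of `A`; it is perfect (`p`-th roots in `H`; if `x n ∈ A` tends to
`x` then the `p`-th roots, which are in `A` because they are algebraic over `A`, form a Cauchy
sequence with limit in the closed field `H`, hence in `B`). Let `w ∈ H` be algebraic over `B`, `q`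
its minimal polynomial over `B`, separable, so `q'(w) ≠ 0`. Given `ε > 0`, approximate the
coefficients of `q` by elements of `A` (monic, same degree): `q₁` over `A` with `‖q₁(w)‖` small and
the Taylor coefficients at `w` close to those of `q`. `newton` in the closed field `H` at `b = w`
gives a root `w₁ ∈ H` of `q₁` with `‖w₁ - w‖ ≤ ε`. `w₁` is algebraic over `A`, so in `A`. Hence
`w ∈ B`. -/
theorem dens_rac {p : ℕ} [Fact p.Prime] [CharP Ω p] [IsAlgClosed Ω] {A H : Subfield Ω}
    (hH : IsClosed (H : Set Ω)) (hperf : Perf p H) (hA : A ≤ H)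
    (hrac : ∀ x ∈ H, IsAlgebraic A x → x ∈ A) :
    A.topologicalClosure ≤ H ∧
      ∀ x ∈ H, IsAlgebraic A.topologicalClosure x → x ∈ A.topologicalClosure := by
  refine ⟨A.topologicalClosure_minimal hA hH, fun w hw hwa => ?_⟩
  have hpB := dens_perfB hH hperf hA hrac
  set B := A.topologicalClosure with hB
  have hchar : CharP B p := Subfield.charP B p
  have hperfR : PerfectRing B p := PerfectRing.ofSurjective B p (by
    intro x
    obtain ⟨y, hy, hyx⟩ := hpB x x.2
    exact ⟨⟨y, hy⟩, Subtype.ext hyx⟩)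
  have hperfF : PerfectField B := PerfectRing.toPerfectField B p
  have hsep : (minpoly B w).Separable :=
    PerfectField.separable_of_irreducible (minpoly.irreducible hwa.isIntegral)
  set q : Polynomial Ω := (minpoly B w).map (algebraMap B Ω) with hq
  have hq0 : q.eval w = 0 := by
    rw [hq, Polynomial.eval_map, ← Polynomial.aeval_def, minpoly.aeval]
  have hq1 : q.derivative.eval w ≠ 0 := by
    rw [hq, Polynomial.derivative_map, Polynomial.eval_map, ← Polynomial.aeval_def]
    exact hsep.aeval_derivative_ne_zero (minpoly.aeval B w)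
  have hqB : ∀ j, q.coeff j ∈ closure (A : Set Ω) := by
    intro j
    rw [hq, Polynomial.coeff_map]
    exact ((minpoly B w).coeff j).2
  let N := q.natDegree
  let x : Fin (N + 1) → Ω := fun j => q.coeff j
  let s : Set (Fin (N + 1) → Ω) := Set.pi Set.univ fun _ => (A : Set Ω)
  have hxs : x ∈ closure s := by
    rw [closure_pi_set]
    exact fun j _ => hqB j
  have hne : (𝓝[s] x).NeBot := mem_closure_iff_nhdsWithin_neBot.1 hxs
  let Q : (Fin (N + 1) → Ω) → Polynomial Ω :=
    fun c => ∑ j : Fin (N + 1), Polynomial.C (c j) * Polynomial.X ^ (j : ℕ)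
  have hQc : ∀ c j, (Q c).coeff j = if h : j < N + 1 then c ⟨j, h⟩ else 0 := by
    intro c j
    simp only [Q, Polynomial.finsetSum_coeff, Polynomial.coeff_C_mul, Polynomial.coeff_X_pow]
    split_ifs with h
    · rw [Finset.sum_eq_single (⟨j, h⟩ : Fin (N + 1))]
      · simp
      · intro i _ hi
        have : ¬ (j = (i : ℕ)) := fun h' => hi (Fin.ext h'.symm)
        simp [this]
      · simp
    · refine Finset.sum_eq_zero fun i _ => ?_
      have : ¬ (j = (i : ℕ)) := by
        have := i.2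
        omega
      simp [this]
  have hQd : ∀ c, (Q c).natDegree ≤ N := by
    intro c
    rw [Polynomial.natDegree_le_iff_coeff_eq_zero]
    intro j hj
    rw [hQc, dif_neg (by omega)]
  have hlim : ∀ j, Tendsto (fun c => (Q c).coeff j) (𝓝[s] x) (𝓝 (q.coeff j)) := by
    intro j
    by_cases h : j < N + 1
    · have e : (fun c => (Q c).coeff j) = fun c => c ⟨j, h⟩ := by
        funext c
        rw [hQc, dif_pos h]
      rw [e]
      exact ((continuous_apply (⟨j, h⟩ : Fin (N + 1))).tendsto x).mono_left nhdsWithin_le_nhds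
    · have e : (fun c => (Q c).coeff j) = fun _ => 0 := by
        funext c
        rw [hQc, dif_neg h]
      rw [e, Polynomial.coeff_eq_zero_of_natDegree_lt (by omega : q.natDegree < j)]
      exact tendsto_const_nhds
  have hcA : ∀ᶠ c in 𝓝[s] x, Coef A (Q c) := by
    filter_upwards [eventually_mem_nhdsWithin] with c hc j
    rw [hQc]
    split_ifs with h
    · exact hc _ (Set.mem_univ _)
    · exact A.zero_mem
  have hgoal : w ∈ closure (A : Set Ω) := by
    rw [Metric.mem_closure_iff]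
    intro ε hε
    have h2 := dens_newton hH hQd le_rfl hlim (hcA.mono fun c hc j => hA (hc j)) hw hq0 hq1
      (half_pos hε)
    obtain ⟨c, ⟨h3, w₁, hw₁, h4, h5⟩, h6⟩ := (h2.and hcA).exists
    refine ⟨w₁, hrac w₁ hw₁ (dens_alg h6 h3 h4), ?_⟩
    rw [dist_comm, dist_eq_norm]
    exact h5.trans_lt (half_lt_self hε)
  exact hgoal

/-- Naturality of `ev2`. -/
private theorem dens_ev2 {K R T : Type*} [CommRing K] [CommRing R] [CommRing T] [Algebra K R]
    [Algebra K T] (φ : R →ₐ[K] T) {m : ℕ} (x : Fin m → R) (y : R)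
    (F : Polynomial (MvPolynomial (Fin m) K)) :
    φ ((F.map (MvPolynomial.aeval x : MvPolynomial (Fin m) K →ₐ[K] R).toRingHom).eval y) =
      (F.map (MvPolynomial.aeval (fun i => φ (x i)) :
        MvPolynomial (Fin m) K →ₐ[K] T).toRingHom).eval (φ y) := by
  rw [Polynomial.eval_map, Polynomial.eval_map]
  have h1 := Polynomial.hom_eval₂ F
    ((MvPolynomial.aeval x : MvPolynomial (Fin m) K →ₐ[K] R).toRingHom) (φ : R →+* T) y
  have h2 : ((φ : R →+* T).comp
      ((MvPolynomial.aeval x : MvPolynomial (Fin m) K →ₐ[K] R).toRingHom)) =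
      (MvPolynomial.aeval (fun i => φ (x i)) : MvPolynomial (Fin m) K →ₐ[K] T).toRingHom := by
    have h3 := MvPolynomial.comp_aeval x φ
    exact congrArg (fun f : MvPolynomial (Fin m) K →ₐ[K] T => f.toRingHom) h3
  rw [h2] at h1
  exact h1

/-- A relatively algebraically closed subfield is existentially closed in its closure.

Proof. `A` is perfect. Map the system to `A` and apply `hyp` (`sepa_perf`, valuation ring `⊤`) to
`A` and its closure `B`: `F, G` over `A`, `x i, y ∈ B`, `F(x, y) = 0`, `F_Y(x, y) ≠ 0 ≠ G(x, y)`.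
Approximate `x` by `a` with coordinates in `A`: then `‖F(a, y)‖` is small, `F_Y(a, y)` and the other
Taylor coefficients are close to those at `(x, y)`, and `newton` in `H` gives `y₀ ∈ H` close to `y`
with `F(a, y₀) = 0`; `G(a, y₀) ≠ 0` by continuity. `F(a, Y)` is a nonzero polynomial over `A`, so
`y₀ ∈ A`. -/
theorem dens {p : ℕ} [Fact p.Prime] [CharP Ω p] [IsAlgClosed Ω] {A H : Subfield Ω}
    (hH : IsClosed (H : Set Ω)) (hperf : Perf p H) (hA : A ≤ H)
    (hrac : ∀ x ∈ H, IsAlgebraic A x → x ∈ A) {K : Type u} [Field K] [Algebra K Ω]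
    (hK : ∀ c : K, algebraMap K Ω c ∈ A) : TrIn K A.topologicalClosure A := by
  intro n S hS
  have hAB : A ≤ A.topologicalClosure := A.le_topologicalClosure
  have hBH : A.topologicalClosure ≤ H := A.topologicalClosure_minimal hA hH
  let φ : K →+* A := (algebraMap K Ω).codRestrict A hK
  have hchar : CharP A p := Subfield.charP A p
  have hpA := dens_perfA hperf hA hrac
  let _ : Algebra A A.topologicalClosure := (Subfield.inclusion hAB).toAlgebra
  have hAlg : ∀ c : A, ((algebraMap A A.topologicalClosure c : A.topologicalClosure) : Ω) = c :=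
    fun c => rfl
  let ψ : A.topologicalClosure →ₐ[A] Ω :=
    { toRingHom := A.topologicalClosure.subtype
      commutes' := fun c => rfl }
  have hψ : ∀ b, ψ b = (b : Ω) := fun b => rfl
  let ψA : A →ₐ[A] Ω := Algebra.ofId A Ω
  have hψA : ∀ b, ψA b = (b : Ω) := fun b => rfl
  have hsepa : Sepa p A A.topologicalClosure := sepa_perf p (by
    intro x
    obtain ⟨y, hy, hyx⟩ := hpA x x.2
    exact ⟨⟨y, hy⟩, Subtype.ext hyx⟩)
  classical
  let S' : Finset (MvPolynomial (Fin n) A) := S.image (MvPolynomial.map φ)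
  have hev : ∀ (z : Fin n → Ω) (P : MvPolynomial (Fin n) K),
      MvPolynomial.aeval z (MvPolynomial.map φ P) = MvPolynomial.aeval z P := by
    intro z P
    rw [MvPolynomial.aeval_def, MvPolynomial.aeval_def, MvPolynomial.eval₂_map]
    rfl
  have hS' : Solv A A.topologicalClosure S' := by
    obtain ⟨z, hz, hzS⟩ := hS
    refine ⟨fun i => ⟨z i, hz i⟩, fun P hP => ?_⟩
    obtain ⟨P0, hP0, rfl⟩ := Finset.mem_image.1 hP
    apply Subtype.ext
    have h1 := MvPolynomial.comp_aeval_apply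
      (fun i => (⟨z i, hz i⟩ : A.topologicalClosure)) ψ (MvPolynomial.map φ P0)
    rw [hψ] at h1
    rw [h1]
    have h2 := hev z P0
    rw [hzS P0 hP0] at h2
    exact h2
  obtain ⟨m, F, G, x, y, -, -, hF, hF', hG, hpt⟩ := hyp p hsepa ⊤
    (fun c => ValuationSubring.mem_top _) S' hS'
  have hB : ∀ E : Polynomial (MvPolynomial (Fin m) A),
      ((ev2 x y E : A.topologicalClosure) : Ω) =
        (E.map (MvPolynomial.aeval (fun i => (x i : Ω)) :
          MvPolynomial (Fin m) A →ₐ[A] Ω).toRingHom).eval (y : Ω) :=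
    fun E => dens_ev2 ψ x y E
  have hAA : ∀ (x' : Fin m → A) (y' : A) (E : Polynomial (MvPolynomial (Fin m) A)),
      ((ev2 x' y' E : A) : Ω) =
        (E.map (MvPolynomial.aeval (fun i => (x' i : Ω)) :
          MvPolynomial (Fin m) A →ₐ[A] Ω).toRingHom).eval (y' : Ω) :=
    fun x' y' E => dens_ev2 ψA x' y' E
  let Q : Polynomial (MvPolynomial (Fin m) A) → (Fin m → Ω) → Polynomial Ω := fun E a =>
    E.map (MvPolynomial.aeval a : MvPolynomial (Fin m) A →ₐ[A] Ω).toRingHom
  have hQc : ∀ (E : Polynomial (MvPolynomial (Fin m) A)) (a : Fin m → Ω) (j : ℕ),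
      (Q E a).coeff j = MvPolynomial.aeval a (E.coeff j) := by
    intro E a j
    exact Polynomial.coeff_map _ j
  have hcont : ∀ P : MvPolynomial (Fin m) A,
      Continuous fun a : Fin m → Ω => MvPolynomial.aeval a P := by
    intro P
    have h1 : (fun a : Fin m → Ω => MvPolynomial.aeval a P) =
        fun a => MvPolynomial.eval a (MvPolynomial.map (algebraMap A Ω) P) := by
      funext a
      rw [MvPolynomial.eval_map, MvPolynomial.aeval_def]
    rw [h1]
    exact MvPolynomial.continuous_eval _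
  let x0 : Fin m → Ω := fun i => (x i : Ω)
  let s : Set (Fin m → Ω) := Set.pi Set.univ fun _ => (A : Set Ω)
  have hxs : x0 ∈ closure s := by
    rw [closure_pi_set]
    exact fun j _ => (x j).2
  have hne : (𝓝[s] x0).NeBot := mem_closure_iff_nhdsWithin_neBot.1 hxs
  have hQd : ∀ a, (Q F a).natDegree ≤ F.natDegree := fun a => Polynomial.natDegree_map_le
  have hlim : ∀ j, Tendsto (fun a => (Q F a).coeff j) (𝓝[s] x0) (𝓝 ((Q F x0).coeff j)) := by
    intro j
    simp only [hQc]
    exact ((hcont (F.coeff j)).tendsto x0).mono_left nhdsWithin_le_nhds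
  have hcA : ∀ᶠ a in 𝓝[s] x0, Coef A (Q F a) := by
    filter_upwards [eventually_mem_nhdsWithin] with a ha j
    rw [hQc]
    have h1 := MvPolynomial.comp_aeval_apply
      (fun i => (⟨a i, ha i (Set.mem_univ _)⟩ : A)) ψA (F.coeff j)
    rw [hψA] at h1
    have h2 : (MvPolynomial.aeval a) (F.coeff j) =
      (((MvPolynomial.aeval fun i => (⟨a i, ha i (Set.mem_univ _)⟩ : A)) (F.coeff j) : A) : Ω) :=
      h1.symm
    rw [h2]
    exact Subtype.coe_prop _
  have hq0 : (Q F x0).eval (y : Ω) = 0 := by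
    have h1 := hB F
    rw [hF] at h1
    exact h1.symm
  have hq1 : (Q F x0).derivative.eval (y : Ω) ≠ 0 := by
    have h1 := hB F.derivative
    have h2 : (Q F x0).derivative = Q F.derivative x0 := by
      simp only [Q, Polynomial.derivative_map]
    rw [h2]
    have h3 : (Q F.derivative x0).eval (y : Ω) =
      ((ev2 x y F.derivative : A.topologicalClosure) : Ω) := h1.symm
    rw [h3]
    intro h4
    exact hF' (Subtype.ext h4)
  have hGc : Continuous fun z : (Fin m → Ω) × Ω => (Q G z.1).eval z.2 := by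
    have h1 : (fun z : (Fin m → Ω) × Ω => (Q G z.1).eval z.2) =
        fun z => ∑ j ∈ Finset.range (G.natDegree + 1),
          MvPolynomial.aeval z.1 (G.coeff j) * z.2 ^ j := by
      funext z
      rw [Polynomial.eval_eq_sum_range' (Nat.lt_succ_of_le Polynomial.natDegree_map_le)]
      exact Finset.sum_congr rfl fun j _ => by rw [hQc]
    rw [h1]
    exact continuous_finsetSum _ fun j _ =>
      ((hcont (G.coeff j)).comp continuous_fst).mul (continuous_snd.pow j)
  have hG0 : (Q G x0).eval (y : Ω) ≠ 0 := by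
    have h1 := hB G
    intro h2
    have h3 : ((ev2 x y G : A.topologicalClosure) : Ω) = (Q G x0).eval (y : Ω) := h1
    rw [h2] at h3
    exact hG (Subtype.ext h3)
  have hGn : ∀ᶠ z in 𝓝 (x0, (y : Ω)), (Q G z.1).eval z.2 ≠ 0 :=
    (hGc.tendsto (x0, (y : Ω))).eventually_ne hG0
  rw [nhds_prod_eq, Filter.eventually_prod_iff] at hGn
  obtain ⟨pa, hpa, pb, hpb, hGn⟩ := hGn
  obtain ⟨ε, hε, hεb⟩ := Metric.eventually_nhds_iff.1 hpb
  have h2 := dens_newton hH hQd (hQd x0) hlim (hcA.mono fun c hc j => hA (hc j)) (hBH y.2) hq0 hq1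
    (half_pos hε)
  obtain ⟨a, ⟨⟨⟨h3, w₁, hw₁, h4, h5⟩, h6⟩, h7⟩, h8⟩ :=
    (((h2.and hcA).and (nhdsWithin_le_nhds hpa)).and
      (eventually_mem_nhdsWithin : ∀ᶠ a in 𝓝[s] x0, a ∈ s)).exists
  have hwA : w₁ ∈ A := hrac w₁ hw₁ (dens_alg h6 h3 h4)
  have h9 : (Q G a).eval w₁ ≠ 0 := by
    refine hGn h7 (hεb ?_)
    rw [dist_eq_norm]
    exact h5.trans_lt (half_lt_self hε)
  obtain ⟨z, hz⟩ := hpt A (fun i => ⟨a i, h8 i (Set.mem_univ _)⟩) ⟨w₁, hwA⟩
    (Subtype.ext ((hAA _ _ F).trans h4)) (by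
      intro h
      have h10 := hAA (fun i => ⟨a i, h8 i (Set.mem_univ _)⟩) ⟨w₁, hwA⟩ G
      rw [h] at h10
      exact h9 h10.symm)
  refine ⟨fun i => (z i : Ω), fun i => (z i).2, fun P hP => ?_⟩
  have h11 := hz (MvPolynomial.map φ P) (Finset.mem_image_of_mem _ hP)
  rw [← hev]
  have h12 := MvPolynomial.comp_aeval_apply z ψA (MvPolynomial.map φ P)
  rw [h11] at h12
  exact h12.symm.trans (map_zero ψA)

end Pool.Agent.R4U
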