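import Pool.Agent.Lib.MP_4ed7e0_lc_U.DPoly

/-!
# MP_4ed7e0_lc, project U: nearly linear elements are generators
-/

set_option autoImplicit false

namespace Pool.Agent.R4U

universe u

open Filter Topology

variable {Ω : Type u} [NormedField Ω] [IsUltrametricDist Ω]

private theorem GenI_pow {s t : Ω} {c r : ℝ} (hc : 0 ≤ c) (hs : ‖s‖ ≤ r) (ht : ‖t‖ ≤ r)
    (hst : ‖s - t‖ ≤ c * r) (i : ℕ) : ‖s ^ i - t ^ i‖ ≤ c * r ^ i := by
  have hr : 0 ≤ r := (norm_nonneg _).trans hs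
  induction i with
  | zero =>
    rw [pow_zero, pow_zero, sub_self, norm_zero]
    positivity
  | succ i ih =>
    have h1 : s ^ (i + 1) - t ^ (i + 1) = s * (s ^ i - t ^ i) + (s - t) * t ^ i := by ring
    rw [h1]
    refine (IsUltrametricDist.norm_add_le_max _ _).trans (max_le ?_ ?_)
    · rw [norm_mul]
      calc ‖s‖ * ‖s ^ i - t ^ i‖ ≤ r * (c * r ^ i) :=
            mul_le_mul hs ih (norm_nonneg _) hr
        _ = c * r ^ (i + 1) := by ring
    · rw [norm_mul, norm_pow]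
      calc ‖s - t‖ * ‖t‖ ^ i ≤ (c * r) * r ^ i :=
            mul_le_mul hst (pow_le_pow_left₀ (norm_nonneg _) ht i) (by positivity)
              (by positivity)
        _ = c * r ^ (i + 1) := by ring

omit [IsUltrametricDist Ω] in
private theorem GenI_taylor (P : Polynomial Ω) (ζ e : Ω) :
    P.eval ζ = ∑ i ∈ Finset.range (P.natDegree + 1),
      (Polynomial.taylor e P).coeff i * (ζ - e) ^ i := by
  rw [← Polynomial.taylor_eval_sub (r := e) (f := P) ζ, Polynomial.eval_eq_sum_range,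
    Polynomial.natDegree_taylor]

omit [IsUltrametricDist Ω] in
private theorem GenI_coef {E : Subfield Ω} {P : Polynomial Ω} (hP : Coef E P) {e : Ω}
    (he : e ∈ E) (i : ℕ) : (Polynomial.taylor e P).coeff i ∈ E := by
  rw [Polynomial.taylor_coeff, Polynomial.eval_eq_sum_range]
  refine E.sum_mem fun n _ => E.mul_mem ?_ (E.pow_mem he n)
  rw [Polynomial.hasseDeriv_coeff]
  exact E.mul_mem (natCast_mem E _) (hP _)

/-- The constant `c`. -/
private theorem GenI_c {γ δ : ℝ} (hδ : δ < γ) (a : ℕ → ℝ) (d : ℕ)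
    (h : ∀ i, 2 ≤ i → a i * γ ^ (i - 1) < 1) :
    ∃ c, 0 < c ∧ c < 1 ∧ δ ≤ c * γ ∧ ∃ γ' > γ, ∀ ρ, γ < ρ → ρ < γ' →
      ∀ i, 2 ≤ i → i ≤ d → a i * ρ ^ (i - 1) ≤ c := by
  have h1 : ∀ᶠ c in 𝓝[<] (1 : ℝ), 0 < c ∧ δ < c * γ ∧
      ∀ i ∈ Finset.Icc 2 d, a i * γ ^ (i - 1) < c := by
    refine Filter.Eventually.and ?_ (Filter.Eventually.and ?_ ?_)
    · exact (lt_mem_nhds one_pos).filter_mono nhdsWithin_le_nhds
    · have hc : ContinuousAt (fun c : ℝ => c * γ) 1 := by fun_prop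
      have h2 : δ < (fun c : ℝ => c * γ) 1 := by simpa using hδ
      exact (hc.eventually (lt_mem_nhds h2)).filter_mono nhdsWithin_le_nhds
    · rw [Filter.eventually_all_finset]
      intro i hi
      exact (lt_mem_nhds (h i (Finset.mem_Icc.1 hi).1)).filter_mono nhdsWithin_le_nhds
  obtain ⟨c, ⟨hc0, hcδ, hci⟩, hc1⟩ := (h1.and self_mem_nhdsWithin).exists
  have h3 : ∀ᶠ ρ in 𝓝[>] γ, ∀ i ∈ Finset.Icc 2 d, a i * ρ ^ (i - 1) < c := by
    rw [Filter.eventually_all_finset]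
    intro i hi
    have hc : ContinuousAt (fun ρ : ℝ => a i * ρ ^ (i - 1)) γ := by fun_prop
    exact (hc.eventually (gt_mem_nhds (hci i hi))).filter_mono nhdsWithin_le_nhds
  obtain ⟨γ', hγ', hsub⟩ := (mem_nhdsGT_iff_exists_Ioo_subset (a := γ)).1 h3
  exact ⟨c, hc0, hc1, hcδ.le, γ', hγ', fun ρ r1 r2 i i1 i2 =>
    (hsub ⟨r1, r2⟩ i (Finset.mem_Icc.2 ⟨i1, i2⟩)).le⟩

/-- An element `w` of `cl E ζ` which is a nearly linear function of `ζ` is a generator.

Proof. Let `γ = infDist ζ E > 0`, `A = cl E w ≤ B = cl E ζ`, both closed. Let `c < 1` be larger than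
`‖w - F(ζ)‖ / γ` and all `‖(taylor ζ F).coeff i‖ * γ ^ (i - 1)`, `2 ≤ i ≤ natDegree F`; by
continuity there is `γ₁ > γ` with `‖(taylor ζ F).coeff i‖ * ρ ^ (i - 1) ≤ c` for `γ ≤ ρ ≤ γ₁`. For
`e ∈ E` near `ζ` let `ρ = ‖ζ - e‖ ∈ (γ, γ₁)`, `F₁ = (taylor e F).coeff 1`, of norm one (stable), and
`w₁ = (w - F(e)) / F₁ ∈ A`. As `F(ζ) - F(e) = F₁ * (ζ - e) + ∑ i ≥ 2, ...` we get
`‖w₁ - (ζ - e)‖ ≤ c * ρ` (the norms of the Taylor coefficients at `e` and `ζ` agree, as in
`dpoly`). So `‖w₁‖ = ρ` and `‖w₁ ^ i - (ζ - e) ^ i‖ ≤ c * ρ ^ i` for `i ≥ 1`.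
Claim 1: for a nonconstant polynomial `P` over `E` and `λ > 1` there is `a ∈ A` with
`‖P(ζ) - a‖ ≤ c * λ * infDist (P(ζ)) E`. Take `e` near `ζ` as in `dpoly`,
`a = P(e) + ∑ i ≥ 1, (taylor e P).coeff i * w₁ ^ i`; then
`‖P(ζ) - a‖ ≤ c * max_i ‖(taylor e P).coeff i‖ * ρ ^ i = c * ‖c j‖ * ρ ^ j`, which is at most
`c * λ * ‖c j‖ * γ ^ j` for `e` close enough.
Claim 2: `A = B`. Suppose `x ∈ B`, `x ∉ A`, `d = infDist x A > 0`. Choose `λ > 1` with
`c * λ ^ 3 < 1`, `a₀ ∈ A` with `‖x - a₀‖ < λ * d`, `x₁ = x - a₀ ∈ B`, and a polynomial `P` over `E`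
with `‖x₁ - P(ζ)‖ < ε`, `ε` smaller than `d * (1 - c * λ ^ 3)` and than `d / 2`, `(λ - 1) * d`
(`denseI`). `P` is not constant (otherwise `infDist x A ≤ ε`). With `infDist (P(ζ)) E ≤ ‖P(ζ)‖ <
λ ^ 2 * d` claim 1 gives `a ∈ A` with `‖P(ζ) - a‖ ≤ c * λ ^ 3 * d < d`, so
`‖x - a₀ - a‖ ≤ max ε (c * λ ^ 3 * d) < d`, a contradiction.
Type I: `w ∈ H` (`cl E ζ ≤ H`); `w ∉ E`, since otherwise `A = E` and `ζ ∈ E`. By `dich` otherwise
`TyII E (w - e)` for some `e ∈ E`, but `w - e ∈ cl E ζ` is nonzero and has the norm of an element of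
`E` by `valI`. -/
theorem genI {p : ℕ} [Fact p.Prime] [CharP Ω p] [IsAlgClosed Ω] {k E H : Subfield Ω}
    (ht : Tame p k E H) {ζ w : Ω} (hζ : ζ ∈ H) (hI : TyI E ζ) (hw : w ∈ cl E ζ)
    {F : Polynomial Ω} (hF : Coef E F)
    (h0 : ‖w - F.eval ζ‖ < Metric.infDist ζ (E : Set Ω))
    (h1 : ‖(Polynomial.taylor ζ F).coeff 1‖ = 1)
    (h2 : ∀ i, 2 ≤ i → ‖(Polynomial.taylor ζ F).coeff i‖ *
        Metric.infDist ζ (E : Set Ω) ^ (i - 1) < 1) : cl E w = cl E ζ ∧ TyI E w := by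
  classical
  obtain ⟨hγ, hγE, hγn⟩ := nr_dist ht.closed hI
  have hAB : cl E w ≤ cl E ζ := cl_le (isClosed_cl E ζ) (le_cl E ζ) hw
  have hEA : E ≤ cl E w := le_cl E w
  obtain ⟨c, hc0, hc1, hcw, γ', hγ', hcρ⟩ := GenI_c h0
    (fun i => ‖(Polynomial.taylor ζ F).coeff i‖) F.natDegree h2
  have hFd : 1 ≤ F.natDegree := by
    by_contra hcon
    have h3 : (Polynomial.taylor ζ F).coeff 1 = 0 :=
      Polynomial.coeff_eq_zero_of_natDegree_lt (by rw [Polynomial.natDegree_taylor]; omega)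
    rw [h3, norm_zero] at h1
    exact zero_ne_one h1
  -- the generator near `ζ - e`
  have hstep : ∀ᶠ e in nr E ζ, e ∈ E ∧ ∃ w1 ∈ cl E w,
      ∀ i, ‖w1 ^ i - (ζ - e) ^ i‖ ≤ c * ‖ζ - e‖ ^ i := by
    obtain ⟨j0, -, -, hst, -⟩ := dpoly ht hζ hI hF hFd
    filter_upwards [hst, nr_mem, hγn γ' hγ'] with e he1 he he2
    have hρ := hγE e he
    have hρ0 : 0 < ‖ζ - e‖ := hγ.trans hρ
    have hF1 : ‖(Polynomial.taylor e F).coeff 1‖ = 1 := by rw [he1.1, h1]
    have hF10 : (Polynomial.taylor e F).coeff 1 ≠ 0 := by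
      rw [← norm_pos_iff, hF1]
      exact one_pos
    have hwA : (w - F.eval e) / (Polynomial.taylor e F).coeff 1 ∈ cl E w := by
      refine (cl E w).div_mem ((cl E w).sub_mem (mem_cl E w) (hEA ?_)) (hEA (GenI_coef hF he 1))
      have h4 := GenI_coef hF he 0
      rwa [Polynomial.taylor_coeff_zero] at h4
    have hnear : ‖(w - F.eval e) / (Polynomial.taylor e F).coeff 1 - (ζ - e)‖ ≤
        c * ‖ζ - e‖ := by
      have h5 : (w - F.eval e) / (Polynomial.taylor e F).coeff 1 - (ζ - e) =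
          ((w - F.eval ζ) + ∑ i ∈ (Finset.range (F.natDegree + 1)).filter (fun i => 2 ≤ i),
            (Polynomial.taylor e F).coeff i * (ζ - e) ^ i) /
              (Polynomial.taylor e F).coeff 1 := by
        have h6 : F.eval ζ = F.eval e + (Polynomial.taylor e F).coeff 1 * (ζ - e) +
            ∑ i ∈ (Finset.range (F.natDegree + 1)).filter (fun i => 2 ≤ i),
              (Polynomial.taylor e F).coeff i * (ζ - e) ^ i := by
          have h7 : (Finset.range (F.natDegree + 1)).filter (fun i => ¬ 2 ≤ i) = {0, 1} := by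
            ext i
            simp only [Finset.mem_filter, Finset.mem_range, Finset.mem_insert,
              Finset.mem_singleton]
            omega
          have h8 : ∑ i ∈ (Finset.range (F.natDegree + 1)).filter (fun i => ¬ 2 ≤ i),
              (Polynomial.taylor e F).coeff i * (ζ - e) ^ i =
              F.eval e + (Polynomial.taylor e F).coeff 1 * (ζ - e) := by
            rw [h7, Finset.sum_pair (by norm_num), Polynomial.taylor_coeff_zero, pow_zero,
              mul_one, pow_one]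
          rw [GenI_taylor F ζ e, ← Finset.sum_filter_add_sum_filter_not
            (Finset.range (F.natDegree + 1)) (fun i => 2 ≤ i), h8, add_comm]
        rw [h6]
        field_simp
        ring
      rw [h5, norm_div, hF1, div_one]
      refine (IsUltrametricDist.norm_add_le_max _ _).trans (max_le ?_ ?_)
      · exact hcw.trans (mul_le_mul_of_nonneg_left hρ.le hc0.le)
      · refine IsUltrametricDist.norm_sum_le_of_forall_le_of_nonneg (by positivity)
          fun i hi => ?_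
        rw [Finset.mem_filter, Finset.mem_range] at hi
        have h8 := hcρ _ hρ he2 i hi.2 (by omega)
        rw [norm_mul, norm_pow, he1.1]
        have h9 : ‖ζ - e‖ ^ i = ‖ζ - e‖ ^ (i - 1) * ‖ζ - e‖ := by
          rw [← pow_succ]
          congr 1
          omega
        rw [h9, ← mul_assoc]
        exact mul_le_mul_of_nonneg_right h8 hρ0.le
    refine ⟨he, _, hwA, GenI_pow hc0.le ?_ le_rfl hnear⟩
    have h10 : (w - F.eval e) / (Polynomial.taylor e F).coeff 1 =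
        ((w - F.eval e) / (Polynomial.taylor e F).coeff 1 - (ζ - e)) + (ζ - e) := by ring
    rw [h10]
    refine (IsUltrametricDist.norm_add_le_max _ _).trans (max_le (hnear.trans ?_) le_rfl)
    exact mul_le_of_le_one_left hρ0.le hc1.le
  -- claim 1
  have hclaim : ∀ P : Polynomial Ω, Coef E P → 1 ≤ P.natDegree → ∀ l : ℝ, 1 < l →
      ∃ a ∈ cl E w, ‖P.eval ζ - a‖ ≤ c * l * Metric.infDist (P.eval ζ) (E : Set Ω) := by
    intro P hP hPd l hl
    obtain ⟨j, hj1, hj0, hst, hdist⟩ := dpoly ht hζ hI hP hPd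
    have hcont : ∀ᶠ ρ in 𝓝[>] Metric.infDist ζ (E : Set Ω),
        ρ ^ j < l * Metric.infDist ζ (E : Set Ω) ^ j := by
      have h3 : ContinuousAt (fun ρ : ℝ => ρ ^ j) (Metric.infDist ζ (E : Set Ω)) := by fun_prop
      have h4 : (fun ρ : ℝ => ρ ^ j) (Metric.infDist ζ (E : Set Ω)) <
          l * Metric.infDist ζ (E : Set Ω) ^ j := lt_mul_left (pow_pos hγ j) hl
      exact (h3.eventually (gt_mem_nhds h4)).filter_mono nhdsWithin_le_nhds
    obtain ⟨γ2, hγ2, hsub⟩ := (mem_nhdsGT_iff_exists_Ioo_subset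
      (a := Metric.infDist ζ (E : Set Ω))).1 hcont
    obtain ⟨e, ⟨⟨he1, he2, -⟩, he, w1, hw1, hw1i⟩, he3⟩ :=
      ((hst.and hstep).and (hγn γ2 hγ2)).exists
    have hρ := hγE e he
    have hρ0 : 0 < ‖ζ - e‖ := hγ.trans hρ
    refine ⟨∑ i ∈ Finset.range (P.natDegree + 1), (Polynomial.taylor e P).coeff i * w1 ^ i,
      (cl E w).sum_mem fun i _ => (cl E w).mul_mem (hEA (GenI_coef hP he i))
        ((cl E w).pow_mem hw1 i), ?_⟩
    rw [GenI_taylor P ζ e, ← Finset.sum_sub_distrib, ← GenI_taylor P ζ e, hdist]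
    have hj : c * (‖(Polynomial.taylor ζ P).coeff j‖ * ‖ζ - e‖ ^ j) ≤
        c * l * (‖(Polynomial.taylor ζ P).coeff j‖ * Metric.infDist ζ (E : Set Ω) ^ j) := by
      have h5 : ‖ζ - e‖ ^ j < l * Metric.infDist ζ (E : Set Ω) ^ j := hsub ⟨hρ, he3⟩
      have h6 : c * l * (‖(Polynomial.taylor ζ P).coeff j‖ *
          Metric.infDist ζ (E : Set Ω) ^ j) = c * (‖(Polynomial.taylor ζ P).coeff j‖ *
          (l * Metric.infDist ζ (E : Set Ω) ^ j)) := by ring
      rw [h6]
      gcongr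
    refine IsUltrametricDist.norm_sum_le_of_forall_le_of_nonneg ?_ fun i _ => ?_
    · exact le_trans (by positivity) hj
    · rw [← mul_sub, norm_mul, norm_sub_rev, he1]
      rcases Nat.eq_zero_or_pos i with rfl | hi
      · rw [pow_zero, pow_zero, sub_self, norm_zero, mul_zero]
        exact le_trans (by positivity) hj
      · refine le_trans ?_ hj
        calc ‖(Polynomial.taylor ζ P).coeff i‖ * ‖w1 ^ i - (ζ - e) ^ i‖
            ≤ ‖(Polynomial.taylor ζ P).coeff i‖ * (c * ‖ζ - e‖ ^ i) :=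
              mul_le_mul_of_nonneg_left (hw1i i) (norm_nonneg _)
          _ = c * (‖(Polynomial.taylor ζ P).coeff i‖ * ‖ζ - e‖ ^ i) := by ring
          _ ≤ c * (‖(Polynomial.taylor ζ P).coeff j‖ * ‖ζ - e‖ ^ j) := by
              refine mul_le_mul_of_nonneg_left ?_ hc0.le
              by_cases hij : i = j
              · rw [hij]
              · exact (he2 i hi hij).le
  -- claim 2
  have hBA : cl E ζ ≤ cl E w := by
    intro x hx
    by_contra hxA
    have hne : ((cl E w : Subfield Ω) : Set Ω).Nonempty := ⟨0, (cl E w).zero_mem⟩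
    have hd : 0 < Metric.infDist x ((cl E w : Subfield Ω) : Set Ω) :=
      ((isClosed_cl E w).notMem_iff_infDist_pos hne).1 hxA
    obtain ⟨l, hl1, hl2⟩ : ∃ l : ℝ, 1 < l ∧ c * l ^ 2 < 1 := by
      have h3 : ContinuousAt (fun l : ℝ => c * l ^ 2) 1 := by fun_prop
      have h4 : (fun l : ℝ => c * l ^ 2) 1 < 1 := by simpa using hc1
      have h5 := (h3.eventually (gt_mem_nhds h4)).filter_mono
        (nhdsWithin_le_nhds (s := Set.Ioi (1 : ℝ)))
      obtain ⟨l, hl, hl'⟩ := (h5.and self_mem_nhdsWithin).exists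
      exact ⟨l, hl', hl⟩
    obtain ⟨a0, ha0, ha0d⟩ := (Metric.infDist_lt_iff hne).1
      (show Metric.infDist x ((cl E w : Subfield Ω) : Set Ω) <
        l * Metric.infDist x ((cl E w : Subfield Ω) : Set Ω) from lt_mul_left hd hl1)
    rw [dist_eq_norm] at ha0d
    have hfar : ∀ a ∈ cl E w, Metric.infDist x ((cl E w : Subfield Ω) : Set Ω) ≤
        ‖x - a0 - a‖ := by
      intro a ha
      have h3 := Metric.infDist_le_dist_of_mem (x := x) ((cl E w).add_mem ha0 ha)
      rw [dist_eq_norm] at h3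
      rwa [sub_sub]
    obtain ⟨P, hP, hPx⟩ := denseI ht hζ hI ((cl E ζ).sub_mem hx (hAB ha0)) (half_pos hd)
    have hPd : 1 ≤ P.natDegree := by
      by_contra hcon
      have h3 : P = Polynomial.C (P.coeff 0) :=
        Polynomial.eq_C_of_natDegree_eq_zero (by omega)
      have h4 := hfar (P.coeff 0) (hEA (hP 0))
      rw [h3, Polynomial.eval_C] at hPx
      linarith
    obtain ⟨a, ha, haP⟩ := hclaim P hP hPd l hl1
    have h3 : Metric.infDist (P.eval ζ) (E : Set Ω) ≤ ‖P.eval ζ‖ := by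
      have h4 := Metric.infDist_le_dist_of_mem (x := P.eval ζ) (E.zero_mem)
      rwa [dist_zero_right] at h4
    have h4 : ‖P.eval ζ‖ ≤ l * Metric.infDist x ((cl E w : Subfield Ω) : Set Ω) := by
      have h5 : P.eval ζ = (x - a0) + -(x - a0 - P.eval ζ) := by ring
      rw [h5]
      refine (IsUltrametricDist.norm_add_le_max _ _).trans (max_le ha0d.le ?_)
      rw [norm_neg]
      nlinarith
    have h6 : ‖x - a0 - a‖ < Metric.infDist x ((cl E w : Subfield Ω) : Set Ω) := by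
      have h7 : x - a0 - a = (x - a0 - P.eval ζ) + (P.eval ζ - a) := by ring
      rw [h7]
      refine (IsUltrametricDist.norm_add_le_max _ _).trans_lt (max_lt (by linarith) ?_)
      refine haP.trans_lt ?_
      have hl0 : 0 < l := one_pos.trans hl1
      calc c * l * Metric.infDist (P.eval ζ) (E : Set Ω)
          ≤ c * l * (l * Metric.infDist x ((cl E w : Subfield Ω) : Set Ω)) :=
            mul_le_mul_of_nonneg_left (h3.trans h4) (by positivity)
        _ = c * l ^ 2 * Metric.infDist x ((cl E w : Subfield Ω) : Set Ω) := by ring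
        _ < 1 * Metric.infDist x ((cl E w : Subfield Ω) : Set Ω) :=
            mul_lt_mul_of_pos_right hl2 hd
        _ = Metric.infDist x ((cl E w : Subfield Ω) : Set Ω) := one_mul _
    exact absurd (hfar a ha) (not_le.2 h6)
  have hcl : cl E w = cl E ζ := le_antisymm hAB hBA
  have hBH : cl E ζ ≤ H := cl_le ht.hh.closed ht.EH hζ
  have hwE : w ∉ E := by
    intro h
    have h3 : cl E w ≤ E := cl_le ht.closed le_rfl h
    exact hI.1 (h3 (hBA (mem_cl E ζ)))
  refine ⟨hcl, ?_⟩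
  rcases dich ht (hBH hw) hwE with h | ⟨e, he, h⟩
  · exact h
  · exfalso
    obtain ⟨b, hb, hbw⟩ := valI ht hζ hI ((cl E ζ).sub_mem hw (le_cl E ζ he)) h.1
    exact h.2 1 one_ne_zero b hb (by rw [zpow_one, hbw])

end Pool.Agent.R4U
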