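import Pool.Agent.Lib.MP_4ed7e0_lc_U.DPoly

/-!
# MP_4ed7e0_lc, project U: two generators are related by a nearly linear polynomial
-/

set_option autoImplicit false

namespace Pool.Agent.R4U

universe u

open Filter Topology

variable {Ω : Type u} [NormedField Ω] [IsUltrametricDist Ω]

omit [IsUltrametricDist Ω] in
private theorem nl_lift {E : Subfield Ω} {Q : Polynomial Ω} (hQ : Coef E Q) :
    ∃ q : Polynomial E, q.map (algebraMap E Ω) = Q := by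
  have hl : Q ∈ Polynomial.lifts (algebraMap E Ω) := by
    rw [Polynomial.lifts_iff_coeff_lifts]
    exact fun n => ⟨⟨Q.coeff n, hQ n⟩, rfl⟩
  exact (Polynomial.mem_lifts Q).1 hl

omit [IsUltrametricDist Ω] in
private theorem nl_coef_map {E : Subfield Ω} (q : Polynomial E) :
    Coef E (q.map (algebraMap E Ω)) := by
  intro i
  rw [Polynomial.coeff_map]
  exact (q.coeff i).2

omit [IsUltrametricDist Ω] in
private theorem nl_eval_mem {E : Subfield Ω} {Q : Polynomial Ω} (hQ : Coef E Q) {e : Ω}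
    (he : e ∈ E) : Q.eval e ∈ E := by
  rw [Polynomial.eval_eq_sum]
  exact E.sum_mem fun i _ => E.mul_mem (hQ i) (E.pow_mem he i)

private theorem nl_add {a b : Ω} (h : ‖a‖ < ‖b‖) : ‖a + b‖ = ‖b‖ := by
  rw [IsUltrametricDist.norm_add_eq_max_of_norm_ne_norm (ne_of_lt h)]
  exact max_eq_right h.le

omit [IsUltrametricDist Ω] in
private theorem nl_deg {E : Subfield Ω} {f : Polynomial Ω} (hf : Coef E f) {z w : Ω}
    (hE : IsClosed (E : Set Ω)) (hI : TyI E w)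
    (h : ‖w - f.eval z‖ < Metric.infDist w (E : Set Ω)) : 1 ≤ f.natDegree := by
  by_contra hcon
  have h0 : f.natDegree = 0 := by omega
  have h1 : f = Polynomial.C (f.coeff 0) := Polynomial.eq_C_of_natDegree_eq_zero h0
  rw [h1, Polynomial.eval_C] at h
  exact absurd h (not_lt.2 ((nr_dist hE hI).2.1 _ (hf 0)).le)

private theorem nl_inf {E : Subfield Ω} {z w : Ω} (hE : IsClosed (E : Set Ω)) (hI : TyI E w)
    (h : ‖w - z‖ < Metric.infDist w (E : Set Ω)) :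
    Metric.infDist z (E : Set Ω) = Metric.infDist w (E : Set Ω) := by
  have h1 : ∀ y : (E : Set Ω), dist z y = dist w y := by
    rintro ⟨y, hy⟩
    have h2 := (nr_dist hE hI).2.1 y hy
    have h3 : ‖z - w‖ < ‖w - y‖ := by
      rw [norm_sub_rev]
      exact h.trans h2
    have h4 := nl_add h3
    rw [sub_add_sub_cancel] at h4
    simpa [dist_eq_norm] using h4
  rw [Metric.infDist_eq_iInf, Metric.infDist_eq_iInf]
  exact iInf_congr h1

/-- Near-linearity.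

Proof. Let `γ = infDist ζ E = infDist ζ' E > 0`. By `denseI` there is a polynomial `g` over `E` with
`‖ζ - g(ζ')‖ < γ`, and (continuity of `g` at `ζ'`) a polynomial `f` over `E` with
`‖ζ' - f(ζ)‖ < γ` and `‖g(ζ') - g(f(ζ))‖ < γ`. `f` is not constant, since `‖ζ' - e‖ ≥ γ` for
`e ∈ E`; the same for `g`. `dpoly` for `f` at `ζ`: index `j`, `c i = ‖(taylor ζ f).coeff i‖`,
`infDist (f ζ) E = c j * γ ^ j`; this is `γ` because `‖ζ' - f(ζ)‖ < γ ≤ ‖ζ' - e‖` gives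
`‖f(ζ) - e‖ = ‖ζ' - e‖` for all `e ∈ E`. In the same way `dpoly` for `g` at `ζ'`: index `l`,
`d l * γ ^ l = γ`. For `e` near `ζ`, with `ρ = ‖ζ - e‖ > γ`: `‖f(ζ) - f(e)‖ = c j * ρ ^ j`, larger
than `c j * γ ^ j = γ`, so `‖ζ' - f(e)‖ = c j * ρ ^ j`, which tends to `γ`; so `f(e) ∈ E` is
eventually in the neighbourhood of `ζ'` on which
`‖g(ζ') - g(e')‖ = d l * ‖ζ' - e'‖ ^ l` (`nr_iff`, `nr_dist`), and
`‖g(ζ') - g(f(e))‖ = d l * (c j * ρ ^ j) ^ l`. On the other hand `G = g.comp f - X` is a polynomial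
over `E` with `‖G(ζ)‖ < γ`, so eventually `‖g(f(e)) - e‖ = ‖G(ζ)‖ < γ < ρ` (`stab_norm`), and
`‖ζ - g(ζ')‖ < γ`, so `‖g(ζ') - g(f(e))‖ = ρ`. So `ρ = d l * (c j) ^ l * ρ ^ (j * l)` for all `e` near
`ζ`, and there are two such `e` with different `ρ` (`nr_lt`): `j * l = 1` by
`pow_eq_one_of_two`. Hence `j = 1`, `c 1 * γ = γ`, `c 1 = 1`; and for `i ≥ 2`
`c i * ρ ^ i < ρ` for some `ρ > γ`, so `c i * γ ^ (i - 1) ≤ c i * ρ ^ (i - 1) < 1`. -/
theorem nl {p : ℕ} [Fact p.Prime] [CharP Ω p] [IsAlgClosed Ω] {k E H : Subfield Ω}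
    (ht : Tame p k E H) {ζ ζ' : Ω} (hζ : ζ ∈ H) (hI : TyI E ζ) (hζ' : ζ' ∈ cl E ζ)
    (hζH : ζ' ∈ H) (hI' : TyI E ζ')
    (hd : Metric.infDist ζ' (E : Set Ω) = Metric.infDist ζ (E : Set Ω)) (hb : ζ ∈ cl E ζ') :
    ∃ f : Polynomial Ω, Coef E f ∧ ‖ζ' - f.eval ζ‖ < Metric.infDist ζ (E : Set Ω) ∧
      ‖(Polynomial.taylor ζ f).coeff 1‖ = 1 ∧
      ∀ i, 2 ≤ i → ‖(Polynomial.taylor ζ f).coeff i‖ *
        Metric.infDist ζ (E : Set Ω) ^ (i - 1) < 1 := by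
  have hEc := ht.closed
  obtain ⟨hγ, hγlt, hγev⟩ := nr_dist hEc hI
  obtain ⟨hγ', hγlt', -⟩ := nr_dist hEc hI'
  rw [hd] at hγ' hγlt'
  set γ := Metric.infDist ζ (E : Set Ω) with hγdef
  obtain ⟨g, hg, hgζ⟩ := denseI ht hζH hI' hb hγ
  have hcont : ContinuousAt (fun x => g.eval x) ζ' := g.continuous.continuousAt
  obtain ⟨δ, hδ, hδg⟩ := Metric.continuousAt_iff.1 hcont γ hγ
  obtain ⟨f, hf, hfζ⟩ := denseI ht hζ hI hζ' (lt_min hδ hγ)
  have hfγ : ‖ζ' - f.eval ζ‖ < γ := lt_of_lt_of_le hfζ (min_le_right _ _)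
  have hgf : ‖g.eval (f.eval ζ) - g.eval ζ'‖ < γ := by
    have h1 : dist (f.eval ζ) ζ' < δ := by
      rw [dist_eq_norm, norm_sub_rev]
      exact lt_of_lt_of_le hfζ (min_le_left _ _)
    have h2 := hδg h1
    rwa [dist_eq_norm] at h2
  have hfdeg : 1 ≤ f.natDegree := nl_deg hf hEc hI' (by rw [hd]; exact hfγ)
  have hgdeg : 1 ≤ g.natDegree := nl_deg hg hEc hI hgζ
  obtain ⟨j, hj1, hcj, hA, hinfA⟩ := dpoly ht hζ hI hf hfdeg
  obtain ⟨l, hl1, hdl, hB, hinfB⟩ := dpoly ht hζH hI' hg hgdeg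
  rw [nl_inf hEc hI' (by rw [hd]; exact hfγ), hd] at hinfA
  rw [← hγdef] at hinfA
  set c : ℕ → ℝ := fun i => ‖(Polynomial.taylor ζ f).coeff i‖ with hc
  have hcjpos : 0 < c j := norm_pos_iff.2 hcj
  have hinfA' : γ = c j * γ ^ j := hinfA
  obtain ⟨e0', he0', hB'⟩ := nr_iff.1 hB
  have hγe0 : γ < ‖ζ' - e0'‖ := hγlt' e0' he0'
  -- continuity of the monomial at `γ`
  have hcont2 : ContinuousAt (fun x : ℝ => c j * x ^ j) γ := by fun_prop
  have hev2 : ∀ᶠ x in 𝓝 γ, c j * x ^ j < ‖ζ' - e0'‖ := by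
    refine hcont2.eventually_lt continuousAt_const ?_
    rw [← hinfA']
    exact hγe0
  obtain ⟨γ2, hγ2, hsub⟩ := (mem_nhdsGE_iff_exists_Ico_subset (a := γ)).1
    (hev2.filter_mono (nhdsWithin_le_nhds (s := Set.Ici γ)))
  -- the polynomial `G`
  obtain ⟨g0, hg0⟩ := nl_lift hg
  obtain ⟨f0, hf0⟩ := nl_lift hf
  have hGc : Coef E (g.comp f - Polynomial.X) := by
    have h1 : g.comp f - Polynomial.X = (g0.comp f0 - Polynomial.X).map (algebraMap E Ω) := by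
      rw [Polynomial.map_sub, Polynomial.map_comp, hg0, hf0, Polynomial.map_X]
    rw [h1]
    exact nl_coef_map _
  have hGev : ∀ x, (g.comp f - Polynomial.X).eval x = g.eval (f.eval x) - x := by
    intro x
    rw [Polynomial.eval_sub, Polynomial.eval_comp, Polynomial.eval_X]
  have hGζ : ‖g.eval (f.eval ζ) - ζ‖ < γ := by
    have h1 : g.eval (f.eval ζ) - ζ = (g.eval (f.eval ζ) - g.eval ζ') + (g.eval ζ' - ζ) := by
      ring
    rw [h1]
    refine lt_of_le_of_lt (IsUltrametricDist.norm_add_le_max _ _) (max_lt hgf ?_)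
    rw [norm_sub_rev]
    exact hgζ
  have hG := (stab_norm ht hζ hI hGc).1
  -- all conditions together
  have hall : ∀ᶠ e in nr E ζ, e ∈ E ∧
      (∀ i, 1 ≤ i → i ≠ j → c i * ‖ζ - e‖ ^ i < c j * ‖ζ - e‖ ^ j) ∧
      ‖ζ - e‖ = (‖(Polynomial.taylor ζ' g).coeff l‖ * c j ^ l) * ‖ζ - e‖ ^ (j * l) := by
    filter_upwards [nr_mem (E := E) (z := ζ), hA, hG, hγev γ2 hγ2] with e heE hAe hGe hρ2
    refine ⟨heE, hAe.2.1, ?_⟩
    have hργ : γ < ‖ζ - e‖ := hγlt e heE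
    set ρ := ‖ζ - e‖ with hρ
    have h1 : ‖f.eval ζ - f.eval e‖ = c j * ρ ^ j := hAe.2.2
    have h2 : γ < c j * ρ ^ j := by
      have h3 : γ ^ j < ρ ^ j := pow_lt_pow_left₀ hργ hγ.le (by omega)
      calc γ = c j * γ ^ j := hinfA'
        _ < c j * ρ ^ j := mul_lt_mul_of_pos_left h3 hcjpos
    have h4 : ‖ζ' - f.eval e‖ = c j * ρ ^ j := by
      have h5 : ‖ζ' - f.eval ζ‖ < ‖f.eval ζ - f.eval e‖ := by
        rw [h1]
        exact hfγ.trans h2
      have h6 := nl_add h5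
      rw [sub_add_sub_cancel, h1] at h6
      exact h6
    have h7 : c j * ρ ^ j < ‖ζ' - e0'‖ := hsub ⟨hργ.le, hρ2⟩
    have h8 := (hB' (f.eval e) (nl_eval_mem hf heE) (by rw [h4]; exact h7.le)).2.2
    rw [h4] at h8
    have h9 : ‖g.eval (f.eval e) - e‖ < γ := by
      rw [hGev, hGev] at hGe
      rw [hGe]
      exact hGζ
    have h10 : ‖g.eval ζ' - g.eval (f.eval e)‖ = ρ := by
      have h11 : g.eval ζ' - g.eval (f.eval e) =
          ((g.eval ζ' - ζ) + (e - g.eval (f.eval e))) + (ζ - e) := by ring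
      have h12 : ‖(g.eval ζ' - ζ) + (e - g.eval (f.eval e))‖ < ‖ζ - e‖ := by
        refine lt_of_le_of_lt (IsUltrametricDist.norm_add_le_max _ _) (max_lt ?_ ?_)
        · rw [norm_sub_rev]
          exact hgζ.trans hργ
        · rw [norm_sub_rev]
          exact h9.trans hργ
      rw [h11, nl_add h12]
    rw [h10, mul_pow, ← pow_mul, ← mul_assoc] at h8
    exact h8
  obtain ⟨e1, he1E, -, he1⟩ := hall.exists
  obtain ⟨e2, ⟨he2E, he2dom, he2⟩, hlt⟩ := (hall.and (nr_lt hI he1E)).exists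
  have hjl : j * l = 1 :=
    pow_eq_one_of_two (lt_trans hγ (hγlt e1 he1E)) (lt_trans hγ (hγlt e2 he2E))
      (ne_of_gt hlt) he1 he2
  have hj : j = 1 := Nat.eq_one_of_mul_eq_one_right hjl
  subst hj
  have hc1 : c 1 = 1 := by
    rw [pow_one] at hinfA'
    have h1 : c 1 * γ = 1 * γ := by rw [one_mul]; exact hinfA'.symm
    exact mul_right_cancel₀ hγ.ne' h1
  refine ⟨f, hf, hfγ, hc1, fun i hi => ?_⟩
  have hργ : γ < ‖ζ - e2‖ := hγlt e2 he2E
  have hρ0 : 0 < ‖ζ - e2‖ := hγ.trans hργ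
  have h1 := he2dom i (by omega) (by omega)
  rw [hc1, one_mul, pow_one] at h1
  have h2 : c i * ‖ζ - e2‖ ^ (i - 1) < 1 := by
    have h3 : ‖ζ - e2‖ ^ i = ‖ζ - e2‖ ^ (i - 1) * ‖ζ - e2‖ := by
      rw [← pow_succ]
      congr 1
      omega
    rw [h3, ← mul_assoc] at h1
    by_contra hcon
    have h4 : 1 * ‖ζ - e2‖ ≤ c i * ‖ζ - e2‖ ^ (i - 1) * ‖ζ - e2‖ :=
      mul_le_mul_of_nonneg_right (not_lt.1 hcon) hρ0.le
    rw [one_mul] at h4
    exact absurd h1 (not_lt.2 h4)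
  refine lt_of_le_of_lt ?_ h2
  exact mul_le_mul_of_nonneg_left (pow_le_pow_left₀ hγ.le hργ.le _) (norm_nonneg _)

end Pool.Agent.R4U
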