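import Pool.Agent.Lib.MP_4ed7e0_lc_U.Emb
import Pool.Agent.Lib.MP_4ed7e0_lc_U.NL
import Pool.Agent.Lib.MP_4ed7e0_lc_U.GenI

/-!
# MP_4ed7e0_lc, project U: descent of generators, type I
-/

set_option autoImplicit false

namespace Pool.Agent.R4U

universe u

open Filter Topology

variable {Ω : Type u} [NormedField Ω] [IsUltrametricDist Ω]

/-- The conjugates of a generator of type I are nearly linear functions of it.

Proof. Write `E' = adj E θ` etc. `f` maps `M` into `M`, its inverse (`emb_inv`) too, so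
`f(M) = M`, and in the same way `f(E') = E'` (`emb_mem` with `A = E`, for `f` and its inverse). `f`
is isometric (`emb_norm`), so `ζ' = f ζ ∈ M` has the same distance to `E'` as `ζ`, and it is of type
I; and `f` maps `cl E' ζ` into `cl E' ζ'` (the preimage of the closed subfield `cl E' ζ'` is
closed and contains `E'` and `ζ`), so `ζ ∈ M = f(M) ⊆ cl E' ζ'`. Apply `nl` for
`Tame p (adj k θ) E' (adj H θ)` (`Tame.bc`). -/
theorem descI_nl {p : ℕ} [Fact p.Prime] [CharP Ω p] [IsAlgClosed Ω] [CompleteSpace Ω]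
    {k E H : Subfield Ω} (ht : Tame p k E H) {θ : Ω} (hθ : θ ∈ abar k) (hn : NormalG k θ)
    {M : Subfield Ω} (hMH : M ≤ adj H θ) (hEM : adj E θ ≤ M)
    (hst : ∀ f : ↥(adj H θ) →+* Ω, FixH H θ f → ∀ x : ↥(adj H θ), (x : Ω) ∈ M → f x ∈ M)
    {ζ : Ω} (hζ : ζ ∈ adj H θ) (hI : TyI (adj E θ) ζ) (hM : M = cl (adj E θ) ζ)
    (f : ↥(adj H θ) →+* Ω) (hf : FixH H θ f) :
    ∃ F : Polynomial Ω, Coef (adj E θ) F ∧
      ‖f ⟨ζ, hζ⟩ - F.eval ζ‖ < Metric.infDist ζ (adj E θ : Set Ω) ∧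
      ‖(Polynomial.taylor ζ F).coeff 1‖ = 1 ∧
      ∀ i, 2 ≤ i → ‖(Polynomial.taylor ζ F).coeff i‖ *
        Metric.infDist ζ (adj E θ : Set Ω) ^ (i - 1) < 1 := by
  have hkH : k ≤ H := ht.hh.kH
  obtain ⟨g, hg, hfg, hsurj⟩ := emb_inv hkH hθ hn f hf
  have hiso : ∀ x, ‖f x‖ = ‖(x : Ω)‖ := emb_norm ht.hh hθ f hf
  have hEH' : adj E θ ≤ adj H θ := adj_mono ht.EH θ
  have hfE : ∀ e : Ω, e ∈ adj E θ → ∃ e0 : ↥(adj H θ), (e0 : Ω) ∈ adj E θ ∧ f e0 = e := by
    intro e he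
    obtain ⟨x, hx⟩ := hsurj ⟨e, hEH' he⟩
    have hgx := hfg x ⟨e, hEH' he⟩ hx
    refine ⟨x, ?_, hx⟩
    rw [← hgx]
    exact emb_mem ht.kE ht.EH hθ hn g hg _ he
  have hfE' : ∀ x : ↥(adj H θ), (x : Ω) ∈ adj E θ → f x ∈ adj E θ :=
    fun x hx => emb_mem ht.kE ht.EH hθ hn f hf x hx
  have hsubn : ∀ x y : ↥(adj H θ), ‖f x - f y‖ = ‖(x : Ω) - y‖ := by
    intro x y
    rw [← map_sub, hiso]
    rfl
  have hζM : ζ ∈ M := by
    rw [hM]
    exact Subfield.le_topologicalClosure _ (mem_adj _ ζ)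
  have hζ'M : f ⟨ζ, hζ⟩ ∈ M := hst f hf ⟨ζ, hζ⟩ hζM
  have hne : ((adj E θ : Subfield Ω) : Set Ω).Nonempty := ⟨0, zero_mem _⟩
  have hd : Metric.infDist (f ⟨ζ, hζ⟩) (adj E θ : Set Ω)
      = Metric.infDist ζ (adj E θ : Set Ω) := by
    apply le_antisymm
    · rw [Metric.le_infDist hne]
      intro e he
      have h1 := Metric.infDist_le_dist_of_mem (x := f ⟨ζ, hζ⟩) (hfE' ⟨e, hEH' he⟩ he)
      rw [dist_eq_norm, hsubn] at h1
      rw [dist_eq_norm]
      exact h1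
    · rw [Metric.le_infDist hne]
      intro e he
      obtain ⟨e0, he0, rfl⟩ := hfE e he
      have h1 := Metric.infDist_le_dist_of_mem (x := ζ) he0
      rw [dist_eq_norm] at h1
      rw [dist_eq_norm, hsubn]
      exact h1
  have hI' : TyI (adj E θ) (f ⟨ζ, hζ⟩) := by
    refine ⟨fun h => ?_, ?_⟩
    · obtain ⟨e0, he0, h1⟩ := hfE _ h
      have h2 := f.injective h1
      apply hI.1
      rw [h2] at he0
      exact he0
    · intro e he
      obtain ⟨e0, he0, rfl⟩ := hfE e he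
      obtain ⟨e1, he1, hlt⟩ := hI.2 e0 he0
      refine ⟨f ⟨e1, hEH' he1⟩, hfE' _ he1, ?_⟩
      rw [hsubn, hsubn]
      exact hlt
  have hcl : IsClosed ((adj H θ : Subfield Ω) : Set Ω) :=
    closed_adj ht.hh hkH le_rfl ht.hh.closed hθ
  have hb : ζ ∈ cl (adj E θ) (f ⟨ζ, hζ⟩) := by
    set N : Subfield Ω := cl (adj E θ) (f ⟨ζ, hζ⟩) with hN
    have hNc : IsClosed (N : Set Ω) := Subfield.isClosed_topologicalClosure _
    have hisom : Isometry f := AddMonoidHomClass.isometry_of_norm f (fun x => hiso x)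
    set P : Subfield Ω := (N.comap f).map (adj H θ).subtype with hP
    have hPc : IsClosed (P : Set Ω) := by
      have h1 : (P : Set Ω) = ((↑) : ↥(adj H θ) → Ω) '' (f ⁻¹' (N : Set Ω)) := rfl
      rw [h1]
      exact hcl.isClosedEmbedding_subtypeVal.isClosedMap _ (hNc.preimage hisom.continuous)
    have hEP : adj E θ ≤ P := by
      intro e he
      refine ⟨⟨e, hEH' he⟩, ?_, rfl⟩
      change f ⟨e, hEH' he⟩ ∈ N
      exact Subfield.le_topologicalClosure _ (le_adj _ _ (hfE' _ he))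
    have hζP : ζ ∈ P := by
      refine ⟨⟨ζ, hζ⟩, ?_, rfl⟩
      change f ⟨ζ, hζ⟩ ∈ N
      exact Subfield.le_topologicalClosure _ (mem_adj _ _)
    have hMP : M ≤ P := by
      rw [hM]
      exact cl_le hPc hEP hζP
    obtain ⟨x, hx⟩ := hsurj ⟨ζ, hζ⟩
    have hgx := hfg x ⟨ζ, hζ⟩ hx
    have hxM : (x : Ω) ∈ M := by
      rw [← hgx]
      exact hst g hg ⟨ζ, hζ⟩ hζM
    obtain ⟨y, hy, hyx⟩ := hMP hxM
    have hyx' : y = x := Subtype.ext hyx
    have h2 : f y ∈ N := hy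
    rw [hyx', hx] at h2
    exact h2
  have hζ'cl : f ⟨ζ, hζ⟩ ∈ cl (adj E θ) ζ := by rw [← hM]; exact hζ'M
  exact nl (ht.bc hθ) hζ hI hζ'cl (hMH hζ'M) hI' hd hb

omit [IsUltrametricDist Ω] in
private theorem DescI_taylor {n : ℕ} (a : Fin n → Ω) (F : Fin n → Polynomial Ω) (ζ : Ω) (i : ℕ) :
    (Polynomial.taylor ζ (∑ j, Polynomial.C (a j) * F j)).coeff i
      = ∑ j, a j * (Polynomial.taylor ζ (F j)).coeff i := by
  rw [map_sum, Polynomial.finsetSum_coeff]
  refine Finset.sum_congr rfl fun j _ => ?_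
  rw [Polynomial.taylor_mul, Polynomial.taylor_C, Polynomial.coeff_C_mul]

/-- Descent of the generator, type I.

Proof. Write `k' = adj k θ`, `E' = adj E θ`, `H' = adj H θ`, `γ = infDist ζ E'`. Let `f j` be the
embeddings of `emb_exists`, and for each `j` let `F j` be the polynomial of `descI_nl`,
`b j = (taylor ζ (F j)).coeff 1 ∈ H'`, of norm one. By `Res k' H'` (`HH.bc`) there is `c j ∈ k'`
with
`‖b j - c j‖ < 1`; `c j ≠ 0`. The restrictions of the `f j` to `k'` are pairwise different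
homomorphisms of `k'` to `Ω` (they differ at `θ`), so they are linearly independent over `Ω`
(`linearIndependent_monoidHom`), and there is `η ∈ k'` with `∑ j, f j η * c j ≠ 0`. The `f j η` are
in `k'` (`emb_mem`), which is trivially normed (`HH.bc`), so this sum has norm one and
`‖∑ j, f j η * b j‖ = 1`. Put `w = ∑ j, f j (η * ζ) ∈ H` (`emb_exists`), in `M` by `hst`, and
`F = ∑ j, C (f j η) * F j`, a polynomial over `E'`:
`w - F(ζ) = ∑ j, f j η * (f j ζ - F j (ζ))` has norm less than `γ` (`‖f j η‖ ≤ 1`), the first Taylor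
coefficient `∑ j, f j η * b j` at `ζ` has norm one, and the others satisfy the estimate by the
ultrametric inequality (the number of `j` is positive and finite). `genI` for
`Tame p k' E' H'` gives `cl E' w = cl E' ζ = M` and `TyI E' w`. -/
theorem descI {p : ℕ} [Fact p.Prime] [CharP Ω p] [IsAlgClosed Ω] [CompleteSpace Ω]
    {k E H : Subfield Ω} (ht : Tame p k E H) {θ : Ω} (hθ : θ ∈ abar k) (hn : NormalG k θ)
    {M : Subfield Ω} (hMH : M ≤ adj H θ) (hEM : adj E θ ≤ M)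
    (hst : ∀ f : ↥(adj H θ) →+* Ω, FixH H θ f → ∀ x : ↥(adj H θ), (x : Ω) ∈ M → f x ∈ M)
    {ζ : Ω} (hζ : ζ ∈ adj H θ) (hI : TyI (adj E θ) ζ) (hM : M = cl (adj E θ) ζ) :
    ∃ w ∈ H, TyI (adj E θ) w ∧ M = cl (adj E θ) w := by
  classical
  have hkH : k ≤ H := ht.hh.kH
  obtain ⟨f, hf, hinj, hsum⟩ := emb_exists ht.hh hθ
  have hn0 : 0 < (minpoly k θ).natDegree := minpoly.natDegree_pos (mem_abar.1 hθ).isIntegral
  have : Nonempty (Fin (minpoly k θ).natDegree) := ⟨⟨0, hn0⟩⟩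
  choose F hFc hF0 hF1 hF2 using fun j => descI_nl ht hθ hn hMH hEM hst hζ hI hM (f j) (hf j)
  have hbc := ht.hh.bc hθ
  have hkE' : adj k θ ≤ adj E θ := adj_mono ht.kE θ
  have hEH' : adj E θ ≤ adj H θ := adj_mono ht.EH θ
  have hkH' : adj k θ ≤ adj H θ := hkE'.trans hEH'
  -- the coefficients `b j` are in `H'`
  have hbH : ∀ j, (Polynomial.taylor ζ (F j)).coeff 1 ∈ adj H θ := by
    intro j
    rw [Polynomial.taylor_coeff, Polynomial.eval_eq_sum, Polynomial.sum]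
    refine sum_mem fun i _ => mul_mem ?_ (pow_mem hζ i)
    rw [Polynomial.hasseDeriv_coeff]
    exact mul_mem (natCast_mem _ _) (hEH' (hFc j _))
  choose c hc hbc1 using fun j => hbc.res _ (hbH j) (hF1 j).le
  have hc0 : ∀ j, c j ≠ 0 := by
    intro j h0
    have h1 := hbc1 j
    rw [h0, sub_zero, hF1 j] at h1
    exact lt_irrefl _ h1
  -- independence of the restrictions
  let φ : Fin (minpoly k θ).natDegree → (↥(adj k θ) →* Ω) := fun j =>
    ((f j).comp (Subfield.inclusion hkH')).toMonoidHom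
  have hφinj : Function.Injective φ := by
    intro i j hij
    apply hinj
    exact DFunLike.congr_fun hij ⟨θ, mem_adj k θ⟩
  have hind : LinearIndependent Ω (fun j => (φ j : ↥(adj k θ) → Ω)) :=
    (linearIndependent_monoidHom ↥(adj k θ) Ω).comp φ hφinj
  obtain ⟨η, hη⟩ : ∃ η : ↥(adj k θ), ∑ j, c j * φ j η ≠ 0 := by
    by_contra hcon
    push Not at hcon
    rw [Fintype.linearIndependent_iff] at hind
    have h1 := hind c (by
      funext x
      rw [Finset.sum_apply]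
      exact hcon x) ⟨0, hn0⟩
    exact hc0 _ h1
  have hηφ : ∀ j, φ j η = f j ⟨η, hkH' η.2⟩ := fun j => rfl
  have hak : ∀ j, f j ⟨η, hkH' η.2⟩ ∈ adj k θ := fun j =>
    emb_mem le_rfl hkH hθ hn (f j) (hf j) _ η.2
  set a : Fin (minpoly k θ).natDegree → Ω := fun j => f j ⟨η, hkH' η.2⟩ with ha
  have han : ∀ j, ‖a j‖ ≤ 1 := by
    intro j
    by_cases h0 : a j = 0
    · rw [h0, norm_zero]; exact zero_le_one
    · exact (hbc.triv _ (hak j) h0).le
  have hs0 : ∑ j, a j * c j ≠ 0 := by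
    intro h0
    apply hη
    rw [← h0]
    exact Finset.sum_congr rfl fun j _ => mul_comm _ _
  have hs1 : ‖∑ j, a j * c j‖ = 1 :=
    hbc.triv _ (sum_mem fun j _ => mul_mem (hak j) (hc j)) hs0
  have hlt : ∀ (d : Fin (minpoly k θ).natDegree → Ω) (r : ℝ), (∀ j, ‖d j‖ < r) →
      ‖∑ j, a j * d j‖ < r := by
    intro d r hd
    obtain ⟨j, _, hj⟩ := IsUltrametricDist.exists_norm_finsetSum_le_of_nonempty
      (t := Finset.univ) Finset.univ_nonempty (fun j => a j * d j)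
    refine hj.trans_lt ?_
    rw [norm_mul]
    calc ‖a j‖ * ‖d j‖ ≤ 1 * ‖d j‖ := mul_le_mul_of_nonneg_right (han j) (norm_nonneg _)
      _ = ‖d j‖ := one_mul _
      _ < r := hd j
  have hb1 : ‖∑ j, a j * (Polynomial.taylor ζ (F j)).coeff 1‖ = 1 := by
    have h1 : ‖∑ j, a j * ((Polynomial.taylor ζ (F j)).coeff 1 - c j)‖ < 1 := hlt _ 1 hbc1
    have h2 : ∑ j, a j * (Polynomial.taylor ζ (F j)).coeff 1
        = ∑ j, a j * c j + ∑ j, a j * ((Polynomial.taylor ζ (F j)).coeff 1 - c j) := by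
      rw [← Finset.sum_add_distrib]
      exact Finset.sum_congr rfl fun j _ => by ring
    rw [h2, IsUltrametricDist.norm_add_eq_max_of_norm_ne_norm
      (by rw [hs1]; exact (ne_of_lt h1).symm), hs1]
    exact max_eq_left h1.le
  have hζM : ζ ∈ M := by
    rw [hM]
    exact Subfield.le_topologicalClosure _ (mem_adj _ ζ)
  have hηM : (η : Ω) ∈ M := hEM (hkE' η.2)
  set xi : ↥(adj H θ) := ⟨η, hkH' η.2⟩ * ⟨ζ, hζ⟩ with hxi
  have hxiM : (xi : Ω) ∈ M := by
    rw [hxi]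
    exact mul_mem hηM hζM
  have hfx : ∀ j, f j xi = a j * f j ⟨ζ, hζ⟩ := fun j => by rw [hxi, map_mul]
  have hwM : ∑ j, f j xi ∈ M := sum_mem fun j _ => hst (f j) (hf j) xi hxiM
  have hFE : Coef (adj E θ) (∑ j, Polynomial.C (a j) * F j) := by
    intro i
    rw [Polynomial.finsetSum_coeff]
    refine sum_mem fun j _ => ?_
    rw [Polynomial.coeff_C_mul]
    exact mul_mem (hkE' (hak j)) (hFc j i)
  have h0 : ‖∑ j, f j xi - (∑ j, Polynomial.C (a j) * F j).eval ζ‖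
      < Metric.infDist ζ (adj E θ : Set Ω) := by
    have h1 : ∑ j, f j xi - (∑ j, Polynomial.C (a j) * F j).eval ζ
        = ∑ j, a j * (f j ⟨ζ, hζ⟩ - (F j).eval ζ) := by
      rw [Polynomial.eval_finsetSum, ← Finset.sum_sub_distrib]
      refine Finset.sum_congr rfl fun j _ => ?_
      rw [hfx, Polynomial.eval_mul, Polynomial.eval_C]
      ring
    rw [h1]
    exact hlt _ _ hF0
  have h1 : ‖(Polynomial.taylor ζ (∑ j, Polynomial.C (a j) * F j)).coeff 1‖ = 1 := by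
    rw [DescI_taylor]
    exact hb1
  have h2 : ∀ i, 2 ≤ i → ‖(Polynomial.taylor ζ (∑ j, Polynomial.C (a j) * F j)).coeff i‖ *
      Metric.infDist ζ (adj E θ : Set Ω) ^ (i - 1) < 1 := by
    intro i hi
    rw [DescI_taylor]
    obtain ⟨j, _, hj⟩ := IsUltrametricDist.exists_norm_finsetSum_le_of_nonempty
      (t := Finset.univ) Finset.univ_nonempty
      (fun j => a j * (Polynomial.taylor ζ (F j)).coeff i)
    have h3 : ‖∑ j, a j * (Polynomial.taylor ζ (F j)).coeff i‖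
        ≤ ‖(Polynomial.taylor ζ (F j)).coeff i‖ := by
      refine hj.trans ?_
      rw [norm_mul]
      calc ‖a j‖ * ‖(Polynomial.taylor ζ (F j)).coeff i‖
          ≤ 1 * ‖(Polynomial.taylor ζ (F j)).coeff i‖ :=
            mul_le_mul_of_nonneg_right (han j) (norm_nonneg _)
        _ = _ := one_mul _
    exact (mul_le_mul_of_nonneg_right h3 (pow_nonneg Metric.infDist_nonneg _)).trans_lt
      (hF2 j i hi)
  have hwcl : ∑ j, f j xi ∈ cl (adj E θ) ζ := by rw [← hM]; exact hwM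
  obtain ⟨hcl, hty⟩ := genI (ht.bc hθ) hζ hI hwcl hFE h0 h1 h2
  exact ⟨∑ j, f j xi, hsum xi, hty, by rw [hcl, hM]⟩

end Pool.Agent.R4U
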