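import Pool.Agent.Lib.MP_4ed7e0_lc_U.PE
import Pool.Agent.Lib.MP_4ed7e0_lc_U.Val
import Pool.Agent.Lib.MP_4ed7e0_lc_U.ClF
import Pool.Agent.Lib.MP_4ed7e0_lc_U.Red

/-!
# MP_4ed7e0_lc, project U: type II, Laurent polynomials
-/

set_option autoImplicit false

namespace Pool.Agent.R4U

universe u

variable {Ω : Type u} [NormedField Ω] [IsUltrametricDist Ω]

omit [IsUltrametricDist Ω] in
private theorem lau_ne {E : Subfield Ω} {z : Ω} (hII : TyII E z) {a b : Ω} (ha : a ∈ E)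
    (hb : b ∈ E) {i j : ℤ} (hij : i ≠ j) (h0 : a * z ^ i ≠ 0) : ‖a * z ^ i‖ ≠ ‖b * z ^ j‖ := by
  intro heq
  have hz : 0 < ‖z‖ := norm_pos_iff.2 hII.1
  have ha0 : 0 < ‖a‖ := norm_pos_iff.2 (left_ne_zero_of_mul h0)
  refine hII.2 (i - j) (sub_ne_zero.2 hij) (b / a) (E.div_mem hb ha) ?_
  rw [norm_div, zpow_sub₀ hz.ne', div_eq_div_iff (zpow_pos hz _).ne' ha0.ne']
  rw [norm_mul, norm_mul, norm_zpow, norm_zpow] at heq
  rw [mul_comm]
  exact heq

/-- Orthogonality of the powers of an element of type II.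

Proof. Nonzero terms have different norms: `‖a i * z ^ i‖ = ‖a j * z ^ j‖` gives
`‖z‖ ^ (i - j) = ‖a j / a i‖`. `unique_dom`. -/
theorem orthII {E : Subfield Ω} {z : Ω} (hII : TyII E z) (J : Finset ℤ) {a : ℤ → Ω}
    (ha : ∀ n, a n ∈ E) (hne : ∃ j ∈ J, a j ≠ 0) :
    ∃ j ∈ J, a j ≠ 0 ∧ (∀ i ∈ J, i ≠ j → ‖a i * z ^ i‖ < ‖a j * z ^ j‖) ∧
      ‖∑ i ∈ J, a i * z ^ i - a j * z ^ j‖ < ‖a j * z ^ j‖ ∧
      ‖∑ i ∈ J, a i * z ^ i‖ = ‖a j * z ^ j‖ := by
  refine unique_dom J (fun n => a n * z ^ n)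
    (fun i _ j _ hij h0 => lau_ne hII (ha i) (ha j) hij h0) ?_ |>.imp fun j hj => ?_
  · obtain ⟨j, hj, hj0⟩ := hne
    exact ⟨j, hj, mul_ne_zero hj0 (zpow_ne_zero _ hII.1)⟩
  · exact ⟨hj.1, left_ne_zero_of_mul hj.2.1, hj.2.2⟩

private noncomputable def lau_hom (E : Subfield Ω) (z : Ω) (hz : z ≠ 0) :
    AddMonoidAlgebra E ℤ →ₐ[E] Ω :=
  AddMonoidAlgebra.lift E Ω ℤ ((Units.coeHom Ω).comp (zpowersHom Ωˣ (Units.mk0 z hz)))

omit [IsUltrametricDist Ω] in
private theorem lau_hom_apply (E : Subfield Ω) (z : Ω) (hz : z ≠ 0) (f : AddMonoidAlgebra E ℤ) :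
    lau_hom E z hz f = ∑ n ∈ f.coeff.support, ((f.coeff n : E) : Ω) * z ^ n := by
  unfold lau_hom
  rw [AddMonoidAlgebra.lift_apply, Finsupp.sum]
  refine Finset.sum_congr rfl fun n _ => ?_
  have h : (((Units.coeHom Ω).comp (zpowersHom Ωˣ (Units.mk0 z hz))) (Multiplicative.ofAdd n))
      = z ^ n := by
    simp [zpowersHom_apply]
  rw [h]
  rfl

omit [IsUltrametricDist Ω] in
private theorem lau_hom_single (E : Subfield Ω) (z : Ω) (hz : z ≠ 0) (n : ℤ) (e : E) :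
    lau_hom E z hz (AddMonoidAlgebra.single n e) = (e : Ω) * z ^ n := by
  unfold lau_hom
  rw [AddMonoidAlgebra.lift_single]
  have h : (((Units.coeHom Ω).comp (zpowersHom Ωˣ (Units.mk0 z hz))) (Multiplicative.ofAdd n))
      = z ^ n := by
    simp [zpowersHom_apply]
  rw [h]
  rfl

/-- The Laurent polynomials are dense.

Proof. `cl_field` for the subring `R` of all sums `∑ n ∈ J, a n * z ^ n`: for `r ≠ 0` in `R` with
dominating term `a j * z ^ j` (`orthII`) take `u = (a j)⁻¹ * z ^ (-j)`. The field `cl E z` is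
contained in the topological closure of the field generated by `R`. -/
theorem denseII {E : Subfield Ω} {z : Ω} (hII : TyII E z) {x : Ω} (hx : x ∈ cl E z) {ε : ℝ}
    (hε : 0 < ε) : ∃ (J : Finset ℤ) (a : ℤ → Ω), (∀ n, a n ∈ E) ∧
      ‖x - ∑ n ∈ J, a n * z ^ n‖ < ε := by
  set R : Subring Ω := (lau_hom E z hII.1).range.toSubring with hR
  have hmem : ∀ (n : ℤ) (e : Ω), e ∈ E → e * z ^ n ∈ R := fun n e he =>
    ⟨AddMonoidAlgebra.single n ⟨e, he⟩, lau_hom_single E z hII.1 n ⟨e, he⟩⟩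
  have hrep : ∀ r ∈ R, ∃ (J : Finset ℤ) (a : ℤ → Ω), (∀ n, a n ∈ E) ∧
      r = ∑ n ∈ J, a n * z ^ n := by
    rintro r ⟨f, hf⟩
    refine ⟨f.coeff.support, fun n => ((f.coeff n : E) : Ω), fun n => SetLike.coe_mem _, ?_⟩
    rw [← lau_hom_apply E z hII.1 f]
    exact hf.symm
  have hcl := cl_field R (by
    intro r hr hr0
    obtain ⟨J, a, ha, rfl⟩ := hrep r hr
    have hne : ∃ j ∈ J, a j ≠ 0 := by
      by_contra hcon
      push Not at hcon
      apply hr0
      refine Finset.sum_eq_zero fun j hj => ?_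
      rw [hcon j hj, zero_mul]
    obtain ⟨j, hj, hj0, -, h1, -⟩ := orthII hII J ha hne
    refine ⟨(a j)⁻¹ * z ^ (-j), hmem _ _ (E.inv_mem (ha j)), ?_⟩
    have hz0 : z ^ j ≠ 0 := zpow_ne_zero _ hII.1
    have e : 1 - (a j)⁻¹ * z ^ (-j) * ∑ n ∈ J, a n * z ^ n
        = -(∑ n ∈ J, a n * z ^ n - a j * z ^ j) / (a j * z ^ j) := by
      rw [zpow_neg]
      field_simp
      ring
    rw [e, norm_div, norm_neg, div_lt_one (norm_pos_iff.2 (mul_ne_zero hj0 hz0))]
    exact h1)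
  have hle : adj E z ≤ Subfield.closure (R : Set Ω) := by
    refine adj_le ?_ ?_
    · intro e he
      refine Subfield.subset_closure ?_
      have := hmem 0 e he
      simpa using this
    · refine Subfield.subset_closure ?_
      have := hmem 1 1 E.one_mem
      simpa using this
  have hx2 : x ∈ closure (R : Set Ω) := by
    rw [← hcl]
    exact closure_mono (show ((adj E z : Subfield Ω) : Set Ω) ⊆ _ from hle) hx
  obtain ⟨r, hr, hxr⟩ := Metric.mem_closure_iff.1 hx2 ε hε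
  obtain ⟨J, a, ha, rfl⟩ := hrep r hr
  rw [dist_eq_norm] at hxr
  exact ⟨J, a, ha, hxr⟩

/-- Proof. `denseII` with `ε = ‖x‖`, `orthII`. -/
theorem valII {E : Subfield Ω} {z : Ω} (hII : TyII E z) {x : Ω} (hx : x ∈ cl E z)
    (h0 : x ≠ 0) : ∃ e ∈ E, e ≠ 0 ∧ ∃ n : ℤ, ‖x‖ = ‖e‖ * ‖z‖ ^ n := by
  obtain ⟨J, a, ha, hxa⟩ := denseII hII hx (norm_pos_iff.2 h0)
  have hnorm : ‖∑ n ∈ J, a n * z ^ n‖ = ‖x‖ := by
    have h2 : ‖∑ n ∈ J, a n * z ^ n - x‖ < ‖x‖ := by
      rw [norm_sub_rev]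
      exact hxa
    have h3 := IsUltrametricDist.norm_add_eq_max_of_norm_ne_norm
      (x := x) (y := ∑ n ∈ J, a n * z ^ n - x) (ne_of_gt h2)
    rw [add_sub_cancel] at h3
    rw [h3]
    exact max_eq_left h2.le
  have hne : ∃ j ∈ J, a j ≠ 0 := by
    by_contra hcon
    push Not at hcon
    have h4 : ∑ n ∈ J, a n * z ^ n = 0 :=
      Finset.sum_eq_zero fun j hj => by rw [hcon j hj, zero_mul]
    rw [h4, norm_zero] at hnorm
    exact h0 (norm_eq_zero.1 hnorm.symm)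
  obtain ⟨j, hj, hj0, -, -, h1⟩ := orthII hII J ha hne
  refine ⟨a j, ha j, hj0, j, ?_⟩
  rw [← hnorm, h1, norm_mul, norm_zpow]

omit [IsUltrametricDist Ω] in
private theorem lau_sum (z : Ω) (I K : Finset ℤ) (hIK : I ⊆ K) (D : ℤ → Ω) :
    ∑ n ∈ K, (if n ∈ I then D n else 0) * z ^ n = ∑ n ∈ I, D n * z ^ n := by
  classical
  have h : ∀ n ∈ K, (if n ∈ I then D n else 0) * z ^ n = if n ∈ I then D n * z ^ n else 0 := by
    intro n _
    split_ifs <;> simp
  rw [Finset.sum_congr rfl h, ← Finset.sum_filter, Finset.filter_mem_eq_inter,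
    Finset.inter_eq_right.2 hIK]

/-- The elements with a reduced form. -/
private def lau_P (p : ℕ) (E N : Subfield Ω) (z x : Ω) : Prop :=
  ∃ (I : Finset ℤ) (D : ℤ → Ω) (c : Ω), (∀ n, D n ∈ E) ∧ c ∈ E ∧
    (∀ n ∈ I, ¬ (p : ℤ) ∣ n) ∧ ∃ y ∈ N, x = c + ∑ n ∈ I, D n * z ^ n + (y ^ p - y)

omit [IsUltrametricDist Ω] in
private theorem lau_add {p : ℕ} [Fact p.Prime] [CharP Ω p] {E N : Subfield Ω} {z x x' : Ω}
    (h : lau_P p E N z x) (h' : lau_P p E N z x') : lau_P p E N z (x + x') := by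
  classical
  obtain ⟨I, D, c, hD, hc, hI, y, hy, rfl⟩ := h
  obtain ⟨I', D', c', hD', hc', hI', y', hy', rfl⟩ := h'
  refine ⟨I ∪ I', fun n => (if n ∈ I then D n else 0) + (if n ∈ I' then D' n else 0), c + c',
    ?_, E.add_mem hc hc', ?_, y + y', N.add_mem hy hy', ?_⟩
  · intro n
    refine E.add_mem ?_ ?_
    · split_ifs
      · exact hD n
      · exact E.zero_mem
    · split_ifs
      · exact hD' n
      · exact E.zero_mem
  · intro n hn
    rcases Finset.mem_union.1 hn with h | h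
    · exact hI n h
    · exact hI' n h
  · have e : ∑ n ∈ I ∪ I', ((if n ∈ I then D n else 0) + (if n ∈ I' then D' n else 0)) * z ^ n
        = ∑ n ∈ I, D n * z ^ n + ∑ n ∈ I', D' n * z ^ n := by
      rw [← lau_sum z I (I ∪ I') Finset.subset_union_left D,
        ← lau_sum z I' (I ∪ I') Finset.subset_union_right D', ← Finset.sum_add_distrib]
      exact Finset.sum_congr rfl fun n _ => add_mul _ _ _
    rw [e, add_pow_char]
    ring

omit [IsUltrametricDist Ω] in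
private theorem lau_zero {p : ℕ} [Fact p.Prime] {E N : Subfield Ω} {z c : Ω} (hc : c ∈ E) :
    lau_P p E N z c := by
  refine ⟨∅, fun _ => 0, c, fun _ => E.zero_mem, hc, by simp, 0, N.zero_mem, ?_⟩
  rw [zero_pow (Nat.Prime.pos Fact.out).ne']
  simp

omit [IsUltrametricDist Ω] in
private theorem lau_one {p : ℕ} [Fact p.Prime] [CharP Ω p] [IsAlgClosed Ω] {E N : Subfield Ω}
    (hE : Perf p E) (hEN : E ≤ N) {z : Ω} (hz : z ∈ N) {b : Ω} (hb : b ∈ E) (n : ℤ) :
    lau_P p E N z (b * z ^ n) := by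
  have hp : p.Prime := Fact.out
  have hs : ∀ s, (rt p)^[s] b ∈ N := fun s => hEN (rt_mem hE hb s)
  rcases eq_or_ne n 0 with h0 | h0
  · rw [h0, zpow_zero, mul_one]
    exact lau_zero hb
  · obtain ⟨s, i, hi, hn⟩ := Nat.exists_eq_pow_mul_and_not_dvd (Int.natAbs_ne_zero.2 h0) p
      hp.one_lt.ne'
    rcases Int.natAbs_eq n with h1 | h1
    · obtain ⟨y, hy, hyx⟩ := red_mono p hs hz i s
      refine ⟨{(i : ℤ)}, fun _ => (rt p)^[s] b, 0, fun _ => rt_mem hE hb s, E.zero_mem, ?_,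
        y, hy, ?_⟩
      · intro m hm
        rw [Finset.mem_singleton] at hm
        rw [hm]
        exact fun h => hi (Int.natCast_dvd_natCast.1 h)
      · rw [h1, hn, zpow_natCast, mul_comm (p ^ s) i, hyx, Finset.sum_singleton, zpow_natCast]
        ring
    · obtain ⟨y, hy, hyx⟩ := red_mono p hs (N.inv_mem hz) i s
      refine ⟨{-(i : ℤ)}, fun _ => (rt p)^[s] b, 0, fun _ => rt_mem hE hb s, E.zero_mem, ?_,
        y, hy, ?_⟩
      · intro m hm
        rw [Finset.mem_singleton] at hm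
        rw [hm]
        exact fun h => hi (Int.natCast_dvd_natCast.1 ((dvd_neg).1 h))
      · rw [h1, hn, zpow_neg, zpow_natCast, ← inv_pow, mul_comm (p ^ s) i, hyx,
          Finset.sum_singleton, zpow_neg, zpow_natCast, ← inv_pow]
        ring

/-- Reduction of Laurent polynomials.

Proof. Split the sum into the part with positive exponents, a polynomial in `z`, the part with
negative exponents, a polynomial in `z⁻¹`, and the constant term. Use `red` for the two polynomials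
without constant term; or directly `red_mono` for each term (with `x = z` or `x = z⁻¹`; every
nonzero integer is `i * p ^ s` with `p ∤ i`), collecting equal exponents. -/
theorem redII {p : ℕ} [Fact p.Prime] [CharP Ω p] [IsAlgClosed Ω] {E N : Subfield Ω}
    (hE : Perf p E) (hEN : E ≤ N) {z : Ω} (hz : z ∈ N) (J : Finset ℤ) {a : ℤ → Ω}
    (ha : ∀ n, a n ∈ E) : ∃ (I : Finset ℤ) (D : ℤ → Ω) (c : Ω), (∀ n, D n ∈ E) ∧ c ∈ E ∧
      (∀ n ∈ I, ¬ (p : ℤ) ∣ n) ∧ ∃ y ∈ N, ∑ n ∈ J, a n * z ^ n =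
        c + ∑ n ∈ I, D n * z ^ n + (y ^ p - y) := by
  have h : lau_P p E N z (∑ n ∈ J, a n * z ^ n) :=
    Finset.sum_induction _ (lau_P p E N z) (fun _ _ h h' => lau_add h h')
      (lau_zero E.zero_mem) fun n _ => lau_one hE hEN hz (ha n) n
  exact h

end Pool.Agent.R4U
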