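import Pool.Agent.Lib.MP_4ed7e0_lc_U.Emb
import Pool.Agent.Lib.MP_4ed7e0_lc_U.Lau

/-!
# MP_4ed7e0_lc, project U: descent of generators, type II
-/

set_option autoImplicit false

namespace Pool.Agent.R4U

universe u

variable {Ω : Type u} [NormedField Ω] [IsUltrametricDist Ω]

/-- Powers of a one-unit are close to one. -/
private theorem DescII_nat {e : Ω} (h1 : ‖1 + e‖ = 1) (n : ℕ) :
    ‖(1 + e) ^ n - 1‖ ≤ ‖e‖ := by
  induction n with
  | zero => simp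
  | succ n ih =>
    have h : (1 + e) ^ (n + 1) - 1 = (1 + e) ^ n * e + ((1 + e) ^ n - 1) := by ring
    rw [h]
    refine (IsUltrametricDist.norm_add_le_max _ _).trans (max_le ?_ ih)
    rw [norm_mul, norm_pow, h1, one_pow, one_mul]

private theorem DescII_one {e : Ω} (he : ‖e‖ < 1) : ‖1 + e‖ = 1 := by
  have hne : ‖(1 : Ω)‖ ≠ ‖e‖ := by
    rw [norm_one]
    exact he.ne'
  rw [IsUltrametricDist.norm_add_eq_max_of_norm_ne_norm hne, norm_one]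
  exact max_eq_left he.le

private theorem DescII_zpow {e : Ω} (he : ‖e‖ < 1) (n : ℤ) : ‖(1 + e) ^ n - 1‖ ≤ ‖e‖ := by
  have h1 := DescII_one he
  obtain ⟨m, rfl | rfl⟩ := n.eq_nat_or_neg
  · rw [zpow_natCast]
    exact DescII_nat h1 m
  · have hne : (1 + e) ^ m ≠ 0 := by
      refine pow_ne_zero _ ?_
      rw [← norm_pos_iff, h1]
      exact one_pos
    have h : (1 + e) ^ (-(m : ℤ)) - 1 = -((1 + e) ^ m - 1) / (1 + e) ^ m := by
      rw [zpow_neg, zpow_natCast]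
      field_simp
      ring
    rw [h, norm_div, norm_neg, norm_pow, h1, one_pow, div_one]
    exact DescII_nat h1 m

/-- Replacing `ζ = v * (1 + e)` by `v` changes a Laurent polynomial by little. -/
private theorem DescII_sum {E : Subfield Ω} {z v e : Ω} (hII : TyII E z) (he : ‖e‖ < 1)
    (hz : z = v * (1 + e)) (J : Finset ℤ) {b : ℤ → Ω} (hb : ∀ n, b n ∈ E) :
    ‖∑ n ∈ J, b n * z ^ n - ∑ n ∈ J, b n * v ^ n‖ ≤ ‖e‖ * ‖∑ n ∈ J, b n * z ^ n‖ := by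
  have h1 := DescII_one he
  have hnv : ‖z‖ = ‖v‖ := by rw [hz, norm_mul, h1, mul_one]
  have hle : ∀ n ∈ J, ‖b n * z ^ n‖ ≤ ‖∑ n ∈ J, b n * z ^ n‖ := by
    intro n hn
    by_cases hne : ∃ j ∈ J, b j ≠ 0
    · obtain ⟨j, -, -, hlt, -, heq⟩ := orthII hII J hb hne
      rw [heq]
      rcases eq_or_ne n j with rfl | h
      · exact le_rfl
      · exact (hlt n hn h).le
    · push Not at hne
      rw [hne n hn, zero_mul, norm_zero]
      exact norm_nonneg _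
  rw [← Finset.sum_sub_distrib]
  refine IsUltrametricDist.norm_sum_le_of_forall_le_of_nonneg
    (mul_nonneg (norm_nonneg _) (norm_nonneg _)) fun n hn => ?_
  have h : b n * z ^ n - b n * v ^ n = ((1 + e) ^ n - 1) * (b n * v ^ n) := by
    rw [hz, mul_zpow]
    ring
  have h2 : ‖b n * v ^ n‖ = ‖b n * z ^ n‖ := by
    rw [norm_mul, norm_mul, norm_zpow, norm_zpow, hnv]
  rw [h, norm_mul, h2]
  exact mul_le_mul (DescII_zpow he n) (hle n hn) (norm_nonneg _) (norm_nonneg _)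

/-- Descent of the generator, type II.

Proof. Write `E' = adj E θ`, `k' = adj k θ`, `H' = adj H θ`. `ζ = ∑ a i * θ ^ i` with
`a i ∈ H` (`adj_rep`). By `emb_coord` (with `hst`; `ζ ∈ M`, `k' ≤ E' ≤ M`) the `a i` are in `M`.
By `on_pow_eq` there is `i` with `‖a i‖ = ‖ζ‖`; put `w = a i ∈ H ∩ M`. `w` is of type II over
`E'` since it has the norm of `ζ`. `ζ / w ∈ H'` has norm one, so there is `c ∈ k'` with
`‖ζ / w - c‖ < 1` (`HH.bc`), `‖c‖ = 1`; let `ε = ζ / (c * w) - 1`, `‖ε‖ < 1`. `A = cl E' w ≤ M` is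
closed. The finite sums `x = ∑ n ∈ J, b n * ζ ^ n`, `b n ∈ E'`, are dense in `M` (`denseII`); put
`x'' = ∑ n ∈ J, b n * (c * w) ^ n ∈ A`. As `ζ ^ n = (c * w) ^ n * (1 + ε) ^ n` and
`‖(1 + ε) ^ n - 1‖ ≤ ‖ε‖`, `‖x - x''‖ ≤ ‖ε‖ * max ‖b n * ζ ^ n‖ = ‖ε‖ * ‖x‖` (`orthII`).
Then `dense_c`. -/
theorem descII {p : ℕ} [Fact p.Prime] [CharP Ω p] [IsAlgClosed Ω] [CompleteSpace Ω]
    {k E H : Subfield Ω} (ht : Tame p k E H) {θ : Ω} (hθ : θ ∈ abar k) (hn : NormalG k θ)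
    {M : Subfield Ω} (hMH : M ≤ adj H θ) (hEM : adj E θ ≤ M)
    (hst : ∀ f : ↥(adj H θ) →+* Ω, FixH H θ f → ∀ x : ↥(adj H θ), (x : Ω) ∈ M → f x ∈ M)
    {ζ : Ω} (hζ : ζ ∈ adj H θ) (hII : TyII (adj E θ) ζ) (hM : M = cl (adj E θ) ζ) :
    ∃ w ∈ H, TyII (adj E θ) w ∧ M = cl (adj E θ) w := by
  classical
  have hk' : adj k θ ≤ adj E θ := adj_mono ht.kE θ
  have hζM : ζ ∈ M := hM ▸ mem_cl (adj E θ) ζ
  obtain ⟨a, ha, hrep⟩ := adj_rep ht.hh.kH hθ hζ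
  obtain ⟨i, hi⟩ := on_pow_eq ht.hh.triv ht.hh.kH ht.hh.res hθ a ha
  rw [← hrep] at hi
  have haM : a i ∈ M := emb_coord ht.hh hθ hn (hk'.trans hEM) (x := ⟨ζ, hζ⟩)
    (fun f hf => hst f hf ⟨ζ, hζ⟩ hζM) a ha hrep i
  have hζ0 : ζ ≠ 0 := hII.1
  have hw0 : a i ≠ 0 := by
    rw [← norm_pos_iff, ← hi]
    exact norm_pos_iff.2 hζ0
  have hwII : TyII (adj E θ) (a i) := by
    refine ⟨hw0, fun n hn0 e he => ?_⟩
    rw [← hi]
    exact hII.2 n hn0 e he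
  -- the constant
  have hb := ht.hh.bc hθ
  have hquot : ‖ζ / a i‖ = 1 := by
    rw [norm_div, hi]
    exact div_self (norm_pos_iff.2 hw0).ne'
  obtain ⟨c, hc, hcl⟩ := hb.res (ζ / a i)
    ((adj H θ).div_mem hζ (le_adj H θ (ha i))) hquot.le
  have hc0 : c ≠ 0 := by
    rintro rfl
    rw [sub_zero, hquot] at hcl
    exact lt_irrefl _ hcl
  have hc1 : ‖c‖ = 1 := hb.triv c hc hc0
  have hcw : c * a i ≠ 0 := mul_ne_zero hc0 hw0
  set e : Ω := ζ / (c * a i) - 1 with he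
  have he1 : ‖e‖ < 1 := by
    have h : e = (ζ / a i - c) / c := by
      rw [he]
      field_simp
    rw [h, norm_div, hc1, div_one]
    exact hcl
  have hze : ζ = c * a i * (1 + e) := by
    rw [he]
    field_simp
    ring
  refine ⟨a i, ha i, hwII, ?_⟩
  have hMc : IsClosed (M : Set Ω) := by
    rw [hM]
    exact isClosed_cl _ _
  refine (dense_c (W := {x | ∃ (J : Finset ℤ) (b : ℤ → Ω), (∀ n, b n ∈ adj E θ) ∧
    x = ∑ n ∈ J, b n * ζ ^ n}) (isClosed_cl (adj E θ) (a i)) (cl_le hMc hEM haM) ?_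
    (norm_nonneg e) he1 ?_).symm
  · intro x hx
    rw [Metric.mem_closure_iff]
    intro ε hε
    have hx' : x ∈ cl (adj E θ) ζ := by
      rw [← hM]
      exact hx
    obtain ⟨J, b, hbE, hlt⟩ := denseII hII hx' hε
    exact ⟨_, ⟨J, b, hbE, rfl⟩, by rwa [dist_eq_norm]⟩
  · rintro x ⟨J, b, hbE, rfl⟩
    refine ⟨∑ n ∈ J, b n * (c * a i) ^ n, ?_, DescII_sum hII he1 hze J hbE⟩
    have hcA : c * a i ∈ cl (adj E θ) (a i) :=
      Subfield.mul_mem _ (le_cl _ _ (hk' hc)) (mem_cl _ _)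
    exact Subfield.sum_mem _ fun n _ =>
      Subfield.mul_mem _ (le_cl _ _ (hbE n)) (Subfield.zpow_mem _ hcA n)

end Pool.Agent.R4U
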