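import Pool.Agent.Lib.MP_4ed7e0_lc_U.TameL
import Pool.Agent.Lib.MP_4ed7e0_lc_U.Val

/-!
# MP_4ed7e0_lc, project U: the two types
-/

set_option autoImplicit false

namespace Pool.Agent.R4U

universe u

variable {Ω : Type u} [NormedField Ω] [IsUltrametricDist Ω]

/-- Every element of `H` outside of `E` is of type I or a translate of it is of type II.

Proof. If `z` has no best approximation in `E` then it is of type I. Otherwise let `e ∈ E` be a best
approximation, `z ≠ e`. Suppose `‖z - e‖ ^ n = ‖e₁‖`, `n ≠ 0`, `e₁ ∈ E`; we may assume `n > 0`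
(inverse). By `Tame.dvs` there is `e₂ ∈ E` with `‖e₂‖ ^ n = ‖e₁‖`, so `‖e₂‖ = ‖z - e‖`. There is
`c ∈ k` with `‖(z - e) / e₂ - c‖ < 1`, so `‖z - (e + c * e₂)‖ < ‖z - e‖`, a contradiction. -/
theorem dich {p : ℕ} [Fact p.Prime] [CharP Ω p] [IsAlgClosed Ω] {k E H : Subfield Ω}
    (ht : Tame p k E H) {z : Ω} (hz : z ∈ H) (hzE : z ∉ E) :
    TyI E z ∨ ∃ e ∈ E, TyII E (z - e) := by
  by_cases hI : ∀ e ∈ E, ∃ e' ∈ E, ‖z - e'‖ < ‖z - e‖
  · exact Or.inl ⟨hzE, hI⟩
  · right
    push Not at hI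
    obtain ⟨e, he, hmin⟩ := hI
    refine ⟨e, he, ?_, ?_⟩
    · intro h0
      exact hzE (by rw [sub_eq_zero.1 h0]; exact he)
    · have hpos : 0 < ‖z - e‖ := by
        rw [norm_pos_iff]
        intro h0
        exact hzE (by rw [sub_eq_zero.1 h0]; exact he)
      -- no element of `E` has the norm of `z - e`
      have key : ∀ e2 ∈ E, ‖e2‖ ≠ ‖z - e‖ := by
        intro e2 he2 heq
        have h20 : 0 < ‖e2‖ := by rw [heq]; exact hpos
        have h2 : e2 ≠ 0 := norm_pos_iff.1 h20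
        obtain ⟨c, hc, hc1⟩ := ht.hh.res ((z - e) / e2)
          (H.div_mem (H.sub_mem hz (ht.EH he)) (ht.EH he2))
          (by rw [norm_div, heq, div_self hpos.ne'])
        have h3 : z - (e + c * e2) = ((z - e) / e2 - c) * e2 := by
          field_simp
          ring
        have h4 : ‖z - (e + c * e2)‖ < ‖z - e‖ := by
          rw [h3, norm_mul, heq]
          exact mul_lt_of_lt_one_left hpos hc1
        exact absurd (hmin _ (E.add_mem he (E.mul_mem (ht.kE hc) he2))) (not_le.2 h4)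
      have key2 : ∀ m : ℕ, 0 < m → ∀ e1 ∈ E, ‖z - e‖ ^ m ≠ ‖e1‖ := by
        intro m hm e1 he1 heq
        obtain ⟨y, hy, hym⟩ := ht.dvs e1 he1 m hm
        refine key y hy ?_
        rw [← heq] at hym
        exact (pow_left_inj₀ (norm_nonneg _) (norm_nonneg _) hm.ne').1 hym
      intro n hn e1 he1 heq
      rcases lt_trichotomy n 0 with h1 | h1 | h1
      · obtain ⟨m, rfl⟩ : ∃ m : ℕ, n = -(m : ℤ) := ⟨n.natAbs, by omega⟩
        have hm : 0 < m := by omega
        refine key2 m hm e1⁻¹ (E.inv_mem he1) ?_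
        rw [norm_inv, ← heq, zpow_neg, inv_inv, zpow_natCast]
      · exact hn h1
      · obtain ⟨m, rfl⟩ : ∃ m : ℕ, n = (m : ℤ) := ⟨n.natAbs, by omega⟩
        have hm : 0 < m := by omega
        refine key2 m hm e1 he1 ?_
        rw [← heq, zpow_natCast]

/-- Proof. `‖z‖ ^ 1 ≠ ‖z‖`. -/
theorem TyII.notMem {E : Subfield Ω} {z : Ω} (h : TyII E z) : z ∉ E := by
  intro hz
  exact h.2 1 one_ne_zero z hz (zpow_one _)

theorem Ty.notMem {E : Subfield Ω} {z : Ω} (h : Ty E z) : z ∉ E := by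
  rcases h with h | h
  · exact h.1
  · exact h.notMem

/-- Proof. `cl_le` and `mem_cl` in both directions. -/
theorem cl_sub {E : Subfield Ω} {z e : Ω} (he : e ∈ E) : cl E (z - e) = cl E z := by
  refine le_antisymm (cl_le (isClosed_cl E z) (le_cl E z)
    ((cl E z).sub_mem (mem_cl E z) (le_cl E z he))) ?_
  refine cl_le (isClosed_cl E (z - e)) (le_cl E (z - e)) ?_
  have h := (cl E (z - e)).add_mem (mem_cl E (z - e)) (le_cl E (z - e) he)
  rwa [sub_add_cancel] at h

/-- Norms of algebraic elements are torsion modulo the norms of the base field.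

Proof. Let `∑ i ≤ d, a i * x ^ i = 0` be the minimal polynomial of `x` over `N`. By `unique_dom` two
nonzero terms have the same norm, `‖a i * x ^ i‖ = ‖a j * x ^ j‖`, `i < j`, so
`‖x‖ ^ (j - i) = ‖a i / a j‖`, `1 ≤ j - i ≤ d`. -/
theorem val_alg {N : Subfield Ω} {x : Ω} (hx : IsAlgebraic N x) (h0 : x ≠ 0) :
    ∃ n : ℕ, 1 ≤ n ∧ n ≤ (minpoly N x).natDegree ∧ ∃ u ∈ N, ‖x‖ ^ n = ‖u‖ := by
  classical
  have hx0 : 0 < ‖x‖ := norm_pos_iff.2 h0
  have hint : IsIntegral N x := hx.isIntegral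
  have hsum : ∑ i ∈ Finset.range ((minpoly N x).natDegree + 1),
      (((minpoly N x).coeff i : N) : Ω) * x ^ i = 0 := by
    have h1 := minpoly.aeval N x
    rw [Polynomial.aeval_eq_sum_range' (Nat.lt_succ_self _)] at h1
    exact h1
  by_contra hcon
  push Not at hcon
  have key : ∀ i j : ℕ, i < j → j < (minpoly N x).natDegree + 1 →
      (((minpoly N x).coeff i : N) : Ω) * x ^ i ≠ 0 →
      ‖(((minpoly N x).coeff i : N) : Ω) * x ^ i‖ ≠
        ‖(((minpoly N x).coeff j : N) : Ω) * x ^ j‖ := by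
    intro i j hij hjd hi0 heq
    have hj0 : (((minpoly N x).coeff j : N) : Ω) * x ^ j ≠ 0 := by
      rw [← norm_pos_iff, ← heq]
      exact norm_pos_iff.2 hi0
    have hcj : 0 < ‖(((minpoly N x).coeff j : N) : Ω)‖ :=
      norm_pos_iff.2 (left_ne_zero_of_mul hj0)
    refine hcon (j - i) (by omega) (by omega)
      ((((minpoly N x).coeff i : N) : Ω) / (((minpoly N x).coeff j : N) : Ω))
      (N.div_mem (SetLike.coe_mem _) (SetLike.coe_mem _)) ?_
    rw [norm_div, eq_div_iff hcj.ne']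
    rw [norm_mul, norm_mul, norm_pow, norm_pow] at heq
    have hp : 0 < ‖x‖ ^ i := pow_pos hx0 i
    have e2 : ‖x‖ ^ j = ‖x‖ ^ (j - i) * ‖x‖ ^ i := by
      rw [← pow_add]
      congr 1
      omega
    rw [e2] at heq
    refine mul_right_cancel₀ hp.ne' ?_
    linarith
  obtain ⟨j, hj, hj0, -, -, hj2⟩ := unique_dom
    (Finset.range ((minpoly N x).natDegree + 1))
    (fun i => (((minpoly N x).coeff i : N) : Ω) * x ^ i) (by
      intro i hi j hj hij hi0 heq
      rw [Finset.mem_range] at hi hj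
      rcases lt_or_gt_of_ne hij with h1 | h1
      · exact key i j h1 hj hi0 heq
      · refine key j i h1 hi ?_ heq.symm
        rw [← norm_pos_iff]
        have : 0 < ‖(((minpoly N x).coeff i : N) : Ω) * x ^ i‖ := norm_pos_iff.2 hi0
        rw [heq] at this
        exact this) ⟨(minpoly N x).natDegree, Finset.self_mem_range_succ _, by
      have h1 : (minpoly N x).coeff (minpoly N x).natDegree = 1 := (minpoly.monic hint).leadingCoeff
      rw [h1, OneMemClass.coe_one, one_mul]
      exact pow_ne_zero _ h0⟩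
  rw [hsum, norm_zero] at hj2
  exact hj0 (norm_eq_zero.1 hj2.symm)

end Pool.Agent.R4U
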