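import Pool.Agent.Lib.MP_4ed7e0_lc_U.BC

/-!
# MP_4ed7e0_lc, project U: the embeddings of `H(θ)` over `H`
-/

set_option autoImplicit false

namespace Pool.Agent.R4U

universe u

variable {Ω : Type u} [NormedField Ω]

/-- The homomorphism `f : H(θ) → Ω` fixes `H`. -/
def FixH (H : Subfield Ω) (θ : Ω) (f : ↥(adj H θ) →+* Ω) : Prop :=
  ∀ x : ↥(adj H θ), (x : Ω) ∈ H → f x = x

/-- All conjugates of `θ` over `k` are in `k(θ)`. -/
def NormalG (k : Subfield Ω) (θ : Ω) : Prop :=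
  ∀ θ', Polynomial.aeval θ' (minpoly k θ) = 0 → θ' ∈ adj k θ

private theorem Emb_val {H : Subfield Ω} {θ : Ω} {n : ℕ} (f : ↥(adj H θ) →+* Ω)
    (hf : FixH H θ f) (a : Fin n → Ω) (ha : ∀ i, a i ∈ H) (x : ↥(adj H θ))
    (hx : (x : Ω) = ∑ i, a i * θ ^ (i : ℕ)) :
    f x = ∑ i, a i * (f ⟨θ, mem_adj H θ⟩) ^ (i : ℕ) := by
  have h1 : x = ∑ i, (⟨a i, le_adj H θ (ha i)⟩ : ↥(adj H θ)) *
      (⟨θ, mem_adj H θ⟩ : ↥(adj H θ)) ^ (i : ℕ) := by
    apply (adj H θ).subtype.injective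
    rw [map_sum]
    exact hx
  conv_lhs => rw [h1]
  rw [map_sum]
  refine Finset.sum_congr rfl fun i _ => ?_
  rw [map_mul, map_pow, hf _ (ha i)]

private theorem Emb_up {A B : Subfield Ω} (hAB : A ≤ B) {y : Ω} (hy : IsAlgebraic A y) :
    IsAlgebraic B y := by
  obtain ⟨m, hm0, hm⟩ := hy
  refine ⟨m.map (Subfield.inclusion hAB),
    (Polynomial.map_ne_zero_iff (Subfield.inclusion hAB).injective).mpr hm0, ?_⟩
  rw [Polynomial.aeval_def, Polynomial.eval₂_map]
  exact hm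

private theorem Emb_alg {A : Subfield Ω} {θ : Ω} (hθ : IsAlgebraic A θ) :
    ∀ b ∈ adj A θ, IsAlgebraic A b := by
  have hm : ∀ x : Ω, x ∈ abar A ↔ IsAlgebraic A x := fun x => mem_algebraicClosure_iff
  have h : A ≤ abar A := fun a ha => (hm a).2 (isAlgebraic_algebraMap (⟨a, ha⟩ : A))
  exact fun b hb => (hm b).1 (adj_le h ((hm θ).2 hθ) hb)

private theorem Emb_perf {p : ℕ} [Fact p.Prime] [CharP Ω p] {A : Subfield Ω} (hA : Perf p A) :
    PerfectField A := by
  have hc : CharP A p := (algebraMap A Ω).charP (algebraMap A Ω).injective p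
  have he : ExpChar A p := ExpChar.prime (Fact.out : p.Prime)
  have hpr : PerfectRing A p := by
    refine PerfectRing.ofSurjective A p fun x => ?_
    obtain ⟨y, hy, hyx⟩ := hA x.1 x.2
    refine ⟨⟨y, hy⟩, ?_⟩
    apply Subtype.ext
    rw [frobenius_def]
    exact hyx
  exact PerfectRing.toPerfectField A p

/-- Proof. `f` fixes the coefficients of `minpoly k θ`, which are in `k ≤ H`. -/
theorem emb_root {k H : Subfield Ω} (hkH : k ≤ H) {θ : Ω} (f : ↥(adj H θ) →+* Ω)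
    (hf : FixH H θ f) (hθ : θ ∈ abar k) :
    Polynomial.aeval (f ⟨θ, mem_adj H θ⟩) (minpoly k θ) = 0 := by
  have hcomp : f.comp (Subfield.inclusion (hkH.trans (le_adj H θ))) = algebraMap k Ω := by
    ext c
    exact hf _ (hkH c.2)
  have h0 : (minpoly k θ).eval₂ (Subfield.inclusion (hkH.trans (le_adj H θ)))
      (⟨θ, mem_adj H θ⟩ : ↥(adj H θ)) = 0 := by
    apply (adj H θ).subtype.injective
    rw [Polynomial.hom_eval₂, map_zero]
    exact minpoly.aeval k θ
  have h1 := congrArg f h0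
  rw [Polynomial.hom_eval₂, hcomp, map_zero] at h1
  exact h1

variable [IsUltrametricDist Ω]

private theorem Emb_nrm {k H : Subfield Ω} (hk : Triv k) (hkH : k ≤ H) (hres : Res k H) {θ : Ω}
    (hθ : θ ∈ abar k) {n : ℕ} (hn : (minpoly k θ).natDegree = n) (a : Fin n → Ω)
    (ha : ∀ i, a i ∈ H) : (∀ i, ‖a i‖ ≤ ‖∑ j, a j * θ ^ (j : ℕ)‖) ∧
      ∃ i, ‖∑ j, a j * θ ^ (j : ℕ)‖ = ‖a i‖ := by
  subst hn
  exact ⟨fun i => on_pow hk hkH hres hθ a ha i, on_pow_eq hk hkH hres hθ a ha⟩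

/-- The embeddings are isometric.

Proof. `x = ∑ h i * θ ^ i` with `h i ∈ H` (`adj_rep`), `f x = ∑ h i * (f θ) ^ i`; both norms are the
largest of the `‖h i‖` (`on_pow`, `on_pow_eq`, for `θ` and for its conjugate `f θ`, which has the same
minimal polynomial over `k`). -/
theorem emb_norm {p : ℕ} {k H : Subfield Ω} (hh : HH p k H) {θ : Ω} (hθ : θ ∈ abar k)
    (f : ↥(adj H θ) →+* Ω) (hf : FixH H θ f) (x : ↥(adj H θ)) : ‖f x‖ = ‖(x : Ω)‖ := by
  obtain ⟨a, ha, hx⟩ := adj_rep hh.kH hθ x.2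
  rw [Emb_val f hf a ha x hx, hx]
  have hint : IsIntegral k θ := (mem_abar.1 hθ).isIntegral
  have hroot := emb_root hh.kH f hf hθ
  have hmin : minpoly k θ = minpoly k (f ⟨θ, mem_adj H θ⟩) :=
    minpoly.eq_of_irreducible_of_monic (minpoly.irreducible hint) hroot (minpoly.monic hint)
  have hθ' : f ⟨θ, mem_adj H θ⟩ ∈ abar k :=
    mem_abar.2 ⟨minpoly k θ, minpoly.ne_zero hint, hroot⟩
  obtain ⟨h1, i1, h2⟩ := Emb_nrm hh.triv hh.kH hh.res hθ rfl a ha
  obtain ⟨h3, i3, h4⟩ := Emb_nrm hh.triv hh.kH hh.res hθ' (by rw [← hmin]) a ha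
  refine le_antisymm ?_ ?_
  · rw [h4]
    exact h1 i3
  · rw [h2]
    exact h3 i1

/-- Proof. `x = ∑ a i * θ ^ i`, `a i ∈ A`, `f θ ∈ adj k θ ≤ adj A θ`. -/
theorem emb_mem {k A H : Subfield Ω} (hkA : k ≤ A) (hAH : A ≤ H) {θ : Ω} (hθ : θ ∈ abar k)
    (hn : NormalG k θ) (f : ↥(adj H θ) →+* Ω) (hf : FixH H θ f) (x : ↥(adj H θ))
    (hx : (x : Ω) ∈ adj A θ) : f x ∈ adj A θ := by
  obtain ⟨a, ha, hxa⟩ := adj_rep hkA hθ hx
  rw [Emb_val f hf a (fun i => hAH (ha i)) x hxa]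
  have h1 : f ⟨θ, mem_adj H θ⟩ ∈ adj A θ :=
    adj_mono hkA θ (hn _ (emb_root (hkA.trans hAH) f hf hθ))
  exact sum_mem fun i _ => mul_mem (le_adj A θ (ha i)) (pow_mem h1 _)

/-- The embeddings are automorphisms: existence of the inverse.

Proof. `f` maps `adj H θ` into itself (`emb_mem` with `A = H`), is injective and `H`-linear, and
`adj H θ` is finite-dimensional over `H`, so `f` is bijective onto `adj H θ`; `g` is the inverse
followed by the inclusion. -/
theorem emb_inv {k H : Subfield Ω} (hkH : k ≤ H) {θ : Ω} (hθ : θ ∈ abar k)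
    (hn : NormalG k θ) (f : ↥(adj H θ) →+* Ω) (hf : FixH H θ f) :
    ∃ g : ↥(adj H θ) →+* Ω, FixH H θ g ∧ (∀ x y : ↥(adj H θ), f x = y → g y = x) ∧
      ∀ y : ↥(adj H θ), ∃ x : ↥(adj H θ), f x = y := by
  have hθH : IsAlgebraic H θ := Emb_up hkH (mem_abar.1 hθ)
  let _ : Algebra H (adj H θ) := (Subfield.inclusion (le_adj H θ)).toAlgebra
  have : IsScalarTower H (adj H θ) Ω := IsScalarTower.of_algebraMap_eq fun _ => rfl
  have : Algebra.IsAlgebraic H (adj H θ) := ⟨fun b => by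
    have h : IsAlgebraic H (algebraMap (adj H θ) Ω b) := Emb_alg hθH b b.2
    exact (isAlgebraic_algebraMap_iff (algebraMap (adj H θ) Ω).injective).1 h⟩
  have hmem : ∀ x : ↥(adj H θ), f x ∈ adj H θ := fun x => emb_mem hkH le_rfl hθ hn f hf x x.2
  let F : ↥(adj H θ) →ₐ[H] ↥(adj H θ) :=
    { toRingHom := f.codRestrict (adj H θ) hmem
      commutes' := fun c => Subtype.ext (hf _ c.2) }
  have hFv : ∀ x, (F x : Ω) = f x := fun _ => rfl
  let e : ↥(adj H θ) ≃ₐ[H] ↥(adj H θ) :=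
    AlgEquiv.ofBijective F (Algebra.IsAlgebraic.algHom_bijective F)
  have hev : ∀ x, (e x : Ω) = f x := fun _ => rfl
  refine ⟨(adj H θ).subtype.comp (e.symm : ↥(adj H θ) →+* ↥(adj H θ)), ?_, ?_, ?_⟩
  · intro x hx
    have h1 : e.symm x = x := by
      rw [AlgEquiv.symm_apply_eq]
      apply Subtype.ext
      rw [hev]
      exact (hf x hx).symm
    change ((e.symm x : ↥(adj H θ)) : Ω) = x
    rw [h1]
  · intro x y hxy
    have h1 : e.symm y = x := by
      rw [AlgEquiv.symm_apply_eq]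
      apply Subtype.ext
      rw [hev]
      exact hxy.symm
    change ((e.symm y : ↥(adj H θ)) : Ω) = x
    rw [h1]
  · intro y
    obtain ⟨x, hx⟩ := e.surjective y
    refine ⟨x, ?_⟩
    rw [← hev, hx]

/-- The family of all embeddings.

Proof. `n = deg (minpoly k θ)`. The powers `θ ^ i`, `i < n`, are linearly independent over `H`
(`on_pow`), so `minpoly k θ` (mapped to `H`) is the minimal polynomial of `θ` over `H`. Since `k` is
perfect it has `n` different roots `θ j` in `Ω`; for each there is a unique homomorphism over `H`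
(`IntermediateField.adjoin.powerBasis` or `AdjoinRoot.lift`) with `f j θ = θ j`. For
`x = ∑ i, h i * θ ^ i` we get `∑ j, f j x = ∑ i, h i * ∑ j, θ j ^ i ∈ H`, as the power sums of all
roots are in `k` (they are traces: `PowerBasis`, `Algebra.trace_eq_sum_embeddings`, or Newton's
identities; or: the sum of all `f j x` is the trace of `x` from `H(θ)` to `H`). -/
theorem emb_exists {p : ℕ} [Fact p.Prime] [CharP Ω p] [IsAlgClosed Ω] {k H : Subfield Ω}
    (hh : HH p k H) {θ : Ω} (hθ : θ ∈ abar k) :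
    ∃ f : Fin (minpoly k θ).natDegree → (↥(adj H θ) →+* Ω), (∀ j, FixH H θ (f j)) ∧
      Function.Injective (fun j => f j ⟨θ, mem_adj H θ⟩) ∧ ∀ x, ∑ j, f j x ∈ H := by
  have hθk : IsAlgebraic k θ := mem_abar.1 hθ
  have hθH : IsAlgebraic H θ := Emb_up hh.kH hθk
  let _ : Algebra H (adj H θ) := (Subfield.inclusion (le_adj H θ)).toAlgebra
  have : IsScalarTower H (adj H θ) Ω := IsScalarTower.of_algebraMap_eq fun _ => rfl
  have : Algebra.IsAlgebraic H (adj H θ) := ⟨fun b => by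
    have h : IsAlgebraic H (algebraMap (adj H θ) Ω b) := Emb_alg hθH b b.2
    exact (isAlgebraic_algebraMap_iff (algebraMap (adj H θ) Ω).injective).1 h⟩
  have hpf : PerfectField H := Emb_perf hh.perf
  have hsep : Algebra.IsSeparable H (adj H θ) := inferInstance
  have hli : LinearIndependent H (fun i : Fin (minpoly k θ).natDegree =>
      (⟨θ, mem_adj H θ⟩ : ↥(adj H θ)) ^ (i : ℕ)) := by
    rw [Fintype.linearIndependent_iff]
    intro g hg i
    have h1 := on_pow hh.triv hh.kH hh.res hθ (fun j => (g j : Ω)) (fun j => (g j).2) i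
    have h2 : ∑ j, (g j : Ω) * θ ^ (j : ℕ) = 0 := by
      have h3 := congrArg (adj H θ).subtype hg
      rw [map_sum, map_zero] at h3
      rw [← h3]
      rfl
    rw [h2, norm_zero] at h1
    exact Subtype.ext (norm_le_zero_iff.1 h1)
  have hspan : ⊤ ≤ Submodule.span H (Set.range (fun i : Fin (minpoly k θ).natDegree =>
      (⟨θ, mem_adj H θ⟩ : ↥(adj H θ)) ^ (i : ℕ))) := by
    intro x _
    obtain ⟨a, ha, hx⟩ := adj_rep hh.kH hθ x.2
    have h1 : x = ∑ i, (⟨a i, ha i⟩ : H) • (⟨θ, mem_adj H θ⟩ : ↥(adj H θ)) ^ (i : ℕ) := by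
      apply (adj H θ).subtype.injective
      rw [map_sum]
      exact hx
    rw [h1]
    exact Submodule.sum_mem _ fun i _ =>
      Submodule.smul_mem _ _ (Submodule.subset_span ⟨i, rfl⟩)
  let b := Module.Basis.mk hli hspan
  have hfd : FiniteDimensional H (adj H θ) := Module.Finite.of_basis b
  have hfr : Module.finrank H (adj H θ) = (minpoly k θ).natDegree := by
    rw [Module.finrank_eq_card_basis b, Fintype.card_fin]
  have hcard : Fintype.card (↥(adj H θ) →ₐ[H] Ω) = (minpoly k θ).natDegree := by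
    rw [AlgHom.card, hfr]
  let e := Fintype.equivFinOfCardEq hcard
  have hfix : ∀ s : ↥(adj H θ) →ₐ[H] Ω, FixH H θ (s : ↥(adj H θ) →+* Ω) := by
    intro s x hx
    exact s.commutes ⟨x, hx⟩
  refine ⟨fun j => ((e.symm j : ↥(adj H θ) →ₐ[H] Ω) : ↥(adj H θ) →+* Ω), fun j => hfix _, ?_, ?_⟩
  · intro i j hij
    apply e.symm.injective
    apply AlgHom.ext
    intro x
    obtain ⟨a, ha, hx⟩ := adj_rep hh.kH hθ x.2
    have h1 := Emb_val _ (hfix (e.symm i)) a ha x hx
    have h2 := Emb_val _ (hfix (e.symm j)) a ha x hx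
    have h3 : ((e.symm i : ↥(adj H θ) →ₐ[H] Ω) : ↥(adj H θ) →+* Ω) ⟨θ, mem_adj H θ⟩ =
      ((e.symm j : ↥(adj H θ) →ₐ[H] Ω) : ↥(adj H θ) →+* Ω) ⟨θ, mem_adj H θ⟩ := hij
    rw [h3, ← h2] at h1
    exact h1
  · intro x
    have h1 : ∑ j, ((e.symm j : ↥(adj H θ) →ₐ[H] Ω) : ↥(adj H θ) →+* Ω) x =
        ∑ s : ↥(adj H θ) →ₐ[H] Ω, s x :=
      Equiv.sum_comp e.symm fun s : ↥(adj H θ) →ₐ[H] Ω => s x
    rw [h1, ← trace_eq_sum_embeddings Ω]
    exact (Algebra.trace H (adj H θ) x).2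

/-- Coordinates are expressed by the conjugates.

Proof. With the embeddings `f j` of `emb_exists` and `θ j = f j θ`, pairwise different, the
polynomial `P = ∑ h i * X ^ i` of degree less than `n` has the values `P(θ j) = f j x ∈ M`. Lagrange
interpolation; `θ j ∈ adj k θ ≤ M`. -/
theorem emb_coord {p : ℕ} [Fact p.Prime] [CharP Ω p] [IsAlgClosed Ω] {k H M : Subfield Ω}
    (hh : HH p k H) {θ : Ω} (hθ : θ ∈ abar k) (hn : NormalG k θ) (hkM : adj k θ ≤ M)
    {x : ↥(adj H θ)} (hM : ∀ f : ↥(adj H θ) →+* Ω, FixH H θ f → f x ∈ M)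
    (a : Fin (minpoly k θ).natDegree → Ω) (ha : ∀ i, a i ∈ H)
    (hx : (x : Ω) = ∑ i, a i * θ ^ (i : ℕ)) (i) : a i ∈ M := by
  obtain ⟨f, hf, hinj, -⟩ := emb_exists hh hθ
  have hint : IsIntegral k θ := (mem_abar.1 hθ).isIntegral
  have hθM : ∀ j, f j ⟨θ, mem_adj H θ⟩ ∈ M := fun j =>
    hkM (hn _ (emb_root hh.kH (f j) (hf j) hθ))
  set v : Fin (minpoly k θ).natDegree → M := fun j => ⟨f j ⟨θ, mem_adj H θ⟩, hθM j⟩ with hv
  set w : Fin (minpoly k θ).natDegree → M := fun j => ⟨f j x, hM (f j) (hf j)⟩ with hw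
  have hvinj : Function.Injective v := fun i j hij => hinj (congrArg Subtype.val hij)
  have hdet : (Matrix.vandermonde v).det ≠ 0 := Matrix.det_vandermonde_ne_zero_iff.2 hvinj
  have hdet' : IsUnit (Matrix.vandermonde v).det := isUnit_iff_ne_zero.2 hdet
  set c : Fin (minpoly k θ).natDegree → M := Matrix.mulVec (Matrix.vandermonde v)⁻¹ w with hc
  have hcw : Matrix.mulVec (Matrix.vandermonde v) c = w := by
    rw [hc, Matrix.mulVec_mulVec, Matrix.mul_nonsing_inv _ hdet', Matrix.one_mulVec]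
  have hinj2 : Function.Injective fun j => f j ⟨θ, mem_adj H θ⟩ := hinj
  have hdet2 : (Matrix.vandermonde fun j => f j ⟨θ, mem_adj H θ⟩).det ≠ 0 :=
    Matrix.det_vandermonde_ne_zero_iff.2 hinj2
  have hz : Matrix.mulVec (Matrix.vandermonde fun j => f j ⟨θ, mem_adj H θ⟩)
      (fun i => a i - (c i : Ω)) = 0 := by
    funext j
    have h1 := Emb_val (f j) (hf j) a ha x hx
    have h2 := congrArg (M.subtype) (congrFun hcw j)
    rw [Matrix.mulVec, dotProduct, map_sum] at h2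
    have h3 : ∑ i, (c i : Ω) * (f j ⟨θ, mem_adj H θ⟩) ^ (i : ℕ) = f j x := by
      refine Eq.trans (Finset.sum_congr rfl fun i _ => ?_) h2
      rw [map_mul, Matrix.vandermonde_apply, map_pow]
      exact mul_comm _ _
    rw [Matrix.mulVec, dotProduct]
    simp only [Matrix.vandermonde_apply, Pi.zero_apply]
    rw [← sub_eq_zero.2 (h1.symm.trans h3.symm), ← Finset.sum_sub_distrib]
    exact Finset.sum_congr rfl fun i _ => by ring
  have h4 := congrFun (Matrix.eq_zero_of_mulVec_eq_zero hdet2 hz) i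
  have h5 : a i = (c i : Ω) := sub_eq_zero.1 h4
  rw [h5]
  exact (c i).2

end Pool.Agent.R4U
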