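import Pool.Agent.Lib.MP_4ed7e0_lc_U.Dich
import Pool.Agent.Lib.MP_4ed7e0_lc_U.Kap
import Pool.Agent.Lib.MP_4ed7e0_lc_U.ClF

/-!
# MP_4ed7e0_lc, project U: type I, stable values of polynomials
-/

set_option autoImplicit false

namespace Pool.Agent.R4U

universe u

open Filter Topology

variable {Ω : Type u} [NormedField Ω]

/-- Proof. `Filter.mem_iInf_of_directed`: the family is directed since norms are comparable, the
index type is nonempty. -/
theorem nr_iff {E : Subfield Ω} {z : Ω} {P : Ω → Prop} :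
    (∀ᶠ e in nr E z, P e) ↔ ∃ e0 ∈ E, ∀ e ∈ E, ‖z - e‖ ≤ ‖z - e0‖ → P e := by
  unfold nr
  constructor
  · intro h
    rw [Filter.Eventually, Filter.mem_iInf_of_directed] at h
    · obtain ⟨e0, h0⟩ := h
      rw [Filter.mem_principal] at h0
      exact ⟨e0, e0.2, fun e he hle => h0 ⟨he, hle⟩⟩
    · intro a b
      rcases le_total ‖z - (a : Ω)‖ ‖z - (b : Ω)‖ with hab | hab
      · refine ⟨a, le_refl _, ?_⟩
        exact Filter.principal_mono.2 fun e he => ⟨he.1, he.2.trans hab⟩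
      · refine ⟨b, ?_, le_refl _⟩
        exact Filter.principal_mono.2 fun e he => ⟨he.1, he.2.trans hab⟩
  · rintro ⟨e0, he0, h⟩
    refine Filter.mem_iInf_of_mem (⟨e0, he0⟩ : E) ?_
    rw [Filter.mem_principal]
    exact fun e he => h e he.1 he.2

instance nr_neBot {E : Subfield Ω} {z : Ω} : (nr E z).NeBot := by
  rw [Filter.neBot_iff]
  intro hbot
  have h1 : ∀ᶠ e in nr E z, False := by
    rw [hbot]
    exact Filter.eventually_bot
  obtain ⟨e0, he0, h2⟩ := nr_iff.1 h1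
  exact h2 e0 he0 (le_refl _)

theorem nr_mem {E : Subfield Ω} {z : Ω} : ∀ᶠ e in nr E z, e ∈ E := by
  exact nr_iff.2 ⟨0, E.zero_mem, fun e he _ => he⟩

theorem nr_lt {E : Subfield Ω} {z : Ω} (h : TyI E z) {e1 : Ω} (he : e1 ∈ E) :
    ∀ᶠ e in nr E z, ‖z - e‖ < ‖z - e1‖ := by
  obtain ⟨e2, he2, h2⟩ := h.2 e1 he
  exact nr_iff.2 ⟨e2, he2, fun e _ hle => lt_of_le_of_lt hle h2⟩

/-- The distance of `z` to `E`: positive, not attained, approached.

Proof. `E` is closed and `z ∉ E`: `IsClosed.notMem_iff_infDist_pos`. Strict inequality: there is a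
better approximation, and `Metric.infDist_le_dist_of_mem`. Last part: `Metric.infDist_lt_iff`. -/
theorem nr_dist {E : Subfield Ω} {z : Ω} (hE : IsClosed (E : Set Ω)) (h : TyI E z) :
    0 < Metric.infDist z (E : Set Ω) ∧ (∀ e ∈ E, Metric.infDist z (E : Set Ω) < ‖z - e‖) ∧
      ∀ γ', Metric.infDist z (E : Set Ω) < γ' → ∀ᶠ e in nr E z, ‖z - e‖ < γ' := by
  have hne : (E : Set Ω).Nonempty := ⟨0, E.zero_mem⟩
  refine ⟨(hE.notMem_iff_infDist_pos hne).1 h.1, ?_, ?_⟩
  · intro e he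
    obtain ⟨e2, he2, h2⟩ := h.2 e he
    refine lt_of_le_of_lt ?_ h2
    rw [← dist_eq_norm]
    exact Metric.infDist_le_dist_of_mem he2
  · intro γ' hγ
    obtain ⟨y, hy, hyd⟩ := (Metric.infDist_lt_iff hne).1 hγ
    rw [dist_eq_norm] at hyd
    exact nr_iff.2 ⟨y, hy, fun e _ hle => lt_of_le_of_lt hle hyd⟩

variable [IsUltrametricDist Ω]

/-- Nonzero polynomials over `E` have stable values near `z`.

Proof. For each root `v` of `Q` in `Ω`, algebraic over `E`, there is `e_v ∈ E` with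
`‖z - e_v‖ ≤ ‖z - v‖` (`Tame.proj`), and `e'_v ∈ E` with `‖z - e'_v‖ < ‖z - e_v‖`. Let `e0` be the
closest to `z` of the finitely many `e'_v`. If `‖z - e‖ ≤ ‖z - e0‖` then `‖z - e‖ < ‖z - v‖`, hence
`‖e - v‖ = ‖z - v‖ > ‖z - e‖` for all roots `v`; `close_eval`. -/
theorem stab {p : ℕ} [Fact p.Prime] [CharP Ω p] [IsAlgClosed Ω] {k E H : Subfield Ω}
    (ht : Tame p k E H) {z : Ω} (hz : z ∈ H) (hI : TyI E z) {Q : Polynomial Ω} (hQ : Coef E Q)
    (h0 : Q ≠ 0) : ∀ᶠ e in nr E z, ‖Q.eval z - Q.eval e‖ < ‖Q.eval e‖ := by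
  classical
  have halg : ∀ v, Q.eval v = 0 → IsAlgebraic E v := by
    intro v hv
    have hl : Q ∈ Polynomial.lifts (algebraMap E Ω) := by
      rw [Polynomial.lifts_iff_coeff_lifts]
      exact fun n => ⟨⟨Q.coeff n, hQ n⟩, rfl⟩
    rw [Polynomial.mem_lifts] at hl
    obtain ⟨q, hq⟩ := hl
    refine ⟨q, ?_, ?_⟩
    · rintro rfl
      rw [Polynomial.map_zero] at hq
      exact h0 hq.symm
    · rw [Polynomial.aeval_def, ← Polynomial.eval_map, hq, hv]
  have hev : ∀ v, Q.eval v = 0 → ∃ e' ∈ E, ‖z - e'‖ < ‖z - v‖ := by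
    intro v hv
    obtain ⟨ev, hev, h1⟩ := ht.proj (halg v hv)
    obtain ⟨e', he', h2⟩ := hI.2 ev hev
    exact ⟨e', he', lt_of_lt_of_le h2 (h1 z hz)⟩
  choose! g hgE hg using hev
  have hfin : ∀ s : Finset Ω, (∀ v ∈ s, Q.eval v = 0) →
      ∃ e0 ∈ E, ∀ v ∈ s, ‖z - e0‖ < ‖z - v‖ := by
    intro s
    induction s using Finset.induction_on with
    | empty => exact fun _ => ⟨0, E.zero_mem, fun v hv => absurd hv (Finset.notMem_empty v)⟩
    | insert a s ha ih =>
      intro hs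
      obtain ⟨e1, he1, h1⟩ := ih fun v hv => hs v (Finset.mem_insert_of_mem hv)
      have hga := hg a (hs a (Finset.mem_insert_self a s))
      have hgaE := hgE a (hs a (Finset.mem_insert_self a s))
      rcases le_total ‖z - e1‖ ‖z - g a‖ with hle | hle
      · refine ⟨e1, he1, fun v hv => ?_⟩
        rcases Finset.mem_insert.1 hv with rfl | hv
        · exact lt_of_le_of_lt hle hga
        · exact h1 v hv
      · refine ⟨g a, hgaE, fun v hv => ?_⟩
        rcases Finset.mem_insert.1 hv with rfl | hv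
        · exact hga
        · exact lt_of_le_of_lt hle (h1 v hv)
  obtain ⟨e0, he0, h1⟩ := hfin Q.roots.toFinset fun v hv => by
    rw [Multiset.mem_toFinset, Polynomial.mem_roots h0] at hv
    exact hv
  refine nr_iff.2 ⟨e0, he0, fun e _ hle => ?_⟩
  refine close_eval h0 fun v hv => ?_
  have hv' : v ∈ Q.roots.toFinset := by
    rw [Multiset.mem_toFinset, Polynomial.mem_roots h0]
    exact hv
  have h2 : ‖z - e‖ < ‖z - v‖ := lt_of_le_of_lt hle (h1 v hv')
  have h3 : ‖e - v‖ = ‖z - v‖ := by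
    have e1 : e - v = (z - v) - (z - e) := by ring
    have h4 := IsUltrametricDist.norm_add_eq_max_of_norm_ne_norm
      (x := z - v) (y := -(z - e)) (by rw [norm_neg]; exact (ne_of_lt h2).symm)
    rw [e1, sub_eq_add_neg, h4, norm_neg]
    exact max_eq_left h2.le
  rw [h3]
  exact h2

/-- Proof. `stab`, ultrametric equality. -/
theorem stab_norm {p : ℕ} [Fact p.Prime] [CharP Ω p] [IsAlgClosed Ω] {k E H : Subfield Ω}
    (ht : Tame p k E H) {z : Ω} (hz : z ∈ H) (hI : TyI E z) {Q : Polynomial Ω}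
    (hQ : Coef E Q) : (∀ᶠ e in nr E z, ‖Q.eval e‖ = ‖Q.eval z‖) ∧ (Q ≠ 0 → Q.eval z ≠ 0) := by
  by_cases h0 : Q = 0
  · subst h0
    refine ⟨Filter.Eventually.of_forall fun e => ?_, fun h => absurd rfl h⟩
    rw [Polynomial.eval_zero, Polynomial.eval_zero]
  · have h1 := stab ht hz hI hQ h0
    have key : ∀ e : Ω, ‖Q.eval z - Q.eval e‖ < ‖Q.eval e‖ → ‖Q.eval e‖ = ‖Q.eval z‖ := by
      intro e he
      have h4 := IsUltrametricDist.norm_add_eq_max_of_norm_ne_norm
        (x := Q.eval z - Q.eval e) (y := Q.eval e) (ne_of_lt he)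
      rw [sub_add_cancel] at h4
      rw [h4]
      exact (max_eq_right he.le).symm
    refine ⟨h1.mono fun e he => key e he, fun _ hz0 => ?_⟩
    obtain ⟨e, he⟩ := h1.exists
    have h5 := key e he
    rw [hz0, norm_zero] at h5
    rw [h5] at he
    exact absurd he (not_lt.2 (norm_nonneg _))

/-- The polynomials in `z` are dense in `cl E z`.

Proof. `cl_field` for the subring `R` of all `Q(z)`, `Q` a polynomial over `E`: for `r = Q(z) ≠ 0`
choose `e ∈ E` by `stab` and `u = (Q(e))⁻¹ ∈ E`: `‖1 - u * r‖ < 1`. `cl E z` is contained in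
the topological closure of the field generated by `R`. -/
theorem denseI {p : ℕ} [Fact p.Prime] [CharP Ω p] [IsAlgClosed Ω] {k E H : Subfield Ω}
    (ht : Tame p k E H) {z : Ω} (hz : z ∈ H) (hI : TyI E z) {x : Ω} (hx : x ∈ cl E z) {ε : ℝ}
    (hε : 0 < ε) : ∃ Q : Polynomial Ω, Coef E Q ∧ ‖x - Q.eval z‖ < ε := by
  let φ : Polynomial E →+* Ω := Polynomial.eval₂RingHom (algebraMap E Ω) z
  have hφ : ∀ q : Polynomial E, φ q = (q.map (algebraMap E Ω)).eval z := by
    intro q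
    rw [Polynomial.eval_map]
    rfl
  have hcoef : ∀ q : Polynomial E, Coef E (q.map (algebraMap E Ω)) := by
    intro q i
    rw [Polynomial.coeff_map]
    exact (q.coeff i).2
  have hR : ∀ r ∈ φ.range, r ≠ 0 → ∃ u ∈ φ.range, ‖1 - u * r‖ < 1 := by
    rintro r ⟨q, rfl⟩ hr
    rw [hφ] at hr
    have hq0 : q.map (algebraMap E Ω) ≠ 0 := by
      intro h
      rw [h, Polynomial.eval_zero] at hr
      exact hr rfl
    obtain ⟨e, he1, he2⟩ := ((stab ht hz hI (hcoef q) hq0).and nr_mem).exists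
    have he0 : (q.map (algebraMap E Ω)).eval e ≠ 0 := by
      intro h
      rw [h, norm_zero] at he1
      exact absurd he1 (not_lt.2 (norm_nonneg _))
    have heE : (q.map (algebraMap E Ω)).eval e ∈ E := by
      rw [Polynomial.eval_eq_sum]
      exact E.sum_mem fun i _ => E.mul_mem (hcoef q i) (E.pow_mem he2 i)
    refine ⟨((q.map (algebraMap E Ω)).eval e)⁻¹,
      ⟨Polynomial.C ⟨((q.map (algebraMap E Ω)).eval e)⁻¹, E.inv_mem heE⟩, ?_⟩, ?_⟩
    · rw [hφ, Polynomial.map_C, Polynomial.eval_C]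
      rfl
    · rw [hφ]
      have e3 : 1 - ((q.map (algebraMap E Ω)).eval e)⁻¹ * (q.map (algebraMap E Ω)).eval z =
          -(((q.map (algebraMap E Ω)).eval z - (q.map (algebraMap E Ω)).eval e) /
            (q.map (algebraMap E Ω)).eval e) := by
        field_simp
        ring
      rw [e3, norm_neg, norm_div, div_lt_one (norm_pos_iff.2 he0)]
      exact he1
  have hcl := cl_field φ.range hR
  have hle : adj E z ≤ Subfield.closure (φ.range : Set Ω) := by
    refine Subfield.closure_le.2 ?_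
    rintro y (hy | hy)
    · refine Subfield.subset_closure ⟨Polynomial.C ⟨y, hy⟩, ?_⟩
      rw [hφ, Polynomial.map_C, Polynomial.eval_C]
      rfl
    · rw [Set.mem_singleton_iff] at hy
      subst hy
      refine Subfield.subset_closure ⟨Polynomial.X, ?_⟩
      rw [hφ, Polynomial.map_X, Polynomial.eval_X]
  have hx2 : x ∈ closure (φ.range : Set Ω) := by
    rw [← hcl]
    have h3 : x ∈ closure (adj E z : Set Ω) := hx
    exact closure_mono (SetLike.coe_subset_coe.2 hle) h3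
  obtain ⟨y, ⟨q, rfl⟩, hy⟩ := Metric.mem_closure_iff.1 hx2 ε hε
  rw [dist_eq_norm, hφ] at hy
  exact ⟨q.map (algebraMap E Ω), hcoef q, hy⟩

/-- Proof. `denseI` with `ε = ‖x‖` and `stab_norm`. -/
theorem valI {p : ℕ} [Fact p.Prime] [CharP Ω p] [IsAlgClosed Ω] {k E H : Subfield Ω}
    (ht : Tame p k E H) {z : Ω} (hz : z ∈ H) (hI : TyI E z) {x : Ω} (hx : x ∈ cl E z)
    (h0 : x ≠ 0) : ∃ e ∈ E, ‖e‖ = ‖x‖ := by
  obtain ⟨Q, hQ, hQx⟩ := denseI ht hz hI hx (norm_pos_iff.2 h0)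
  have h1 : ‖Q.eval z‖ = ‖x‖ := by
    have h4 := IsUltrametricDist.norm_add_eq_max_of_norm_ne_norm
      (x := x) (y := -(x - Q.eval z)) (by rw [norm_neg]; exact (ne_of_lt hQx).symm)
    have e1 : x + -(x - Q.eval z) = Q.eval z := by ring
    rw [e1, norm_neg] at h4
    rw [h4]
    exact max_eq_left hQx.le
  obtain ⟨e, he1, he2⟩ := ((stab_norm ht hz hI hQ).1.and nr_mem).exists
  refine ⟨Q.eval e, ?_, by rw [he1, h1]⟩
  rw [Polynomial.eval_eq_sum]
  exact E.sum_mem fun i _ => E.mul_mem (hQ i) (E.pow_mem he2 i)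

/-- `E` is not trivially normed if there are elements of type I.

Proof. There are `e, e' ∈ E` with `‖z - e'‖ < ‖z - e‖`; then `‖e - e'‖ = ‖z - e‖ > 0`. If this is
not
one we are done (take the inverse if it is less than one). Repeat: there are
`e_0, e_1, e_2` with decreasing distances, so `‖e_0 - e_1‖ > ‖e_1 - e_2‖ > 0`; one of the two
is not one. -/
theorem TyI.nontriv {E : Subfield Ω} {z : Ω} (hI : TyI E z) : ∃ a ∈ E, 1 < ‖a‖ := by
  obtain ⟨e1, he1, h1⟩ := hI.2 0 E.zero_mem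
  obtain ⟨e2, he2, h2⟩ := hI.2 e1 he1
  have key : ∀ a b : Ω, ‖z - b‖ < ‖z - a‖ → ‖a - b‖ = ‖z - a‖ := by
    intro a b h
    have h4 := IsUltrametricDist.norm_add_eq_max_of_norm_ne_norm
      (x := z - b) (y := -(z - a)) (by rw [norm_neg]; exact ne_of_lt h)
    have e3 : z - b + -(z - a) = a - b := by ring
    rw [e3, norm_neg] at h4
    rw [h4]
    exact max_eq_right h.le
  have k1 := key 0 e1 h1
  have k2 := key e1 e2 h2
  have hlt : ‖e1 - e2‖ < ‖0 - e1‖ := by
    rw [k1, k2]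
    exact h1
  have hpos : 0 < ‖e1 - e2‖ := by
    rw [k2]
    exact lt_of_le_of_lt (norm_nonneg _) h2
  have hfin : ∀ a ∈ E, 0 < ‖a‖ → ‖a‖ ≠ 1 → ∃ b ∈ E, 1 < ‖b‖ := by
    intro a ha ha0 ha1
    rcases lt_or_gt_of_ne ha1 with hl | hl
    · exact ⟨a⁻¹, E.inv_mem ha, by rw [norm_inv]; exact (one_lt_inv₀ ha0).2 hl⟩
    · exact ⟨a, ha, hl⟩
  by_cases hone : ‖e1 - e2‖ = 1
  · exact ⟨0 - e1, E.sub_mem E.zero_mem he1, by rw [← hone]; exact hlt⟩
  · exact hfin _ (E.sub_mem he1 he2) hpos hone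

end Pool.Agent.R4U
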