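import Pool.Agent.Lib.MP_4ed7e0_lc_U.Emb
import Pool.Agent.Lib.MP_4ed7e0_lc_U.Stab
import Pool.Agent.Lib.MP_4ed7e0_lc_U.Conj

/-!
# MP_4ed7e0_lc, project U: the Galois closure
-/

set_option autoImplicit false

namespace Pool.Agent.R4U

universe u

variable {Ω : Type u} [NormedField Ω] [IsUltrametricDist Ω]

/-- Proof. Type I: `TyI.nontriv`. Type II: `z ≠ 0` and `‖z‖ ≠ ‖1‖`; take `z` or `z⁻¹`. -/
theorem Ty.nontriv {E : Subfield Ω} {z : Ω} (hT : Ty E z) : ∃ a ∈ cl E z, 1 < ‖a‖ := by
  rcases hT with hI | hII
  · obtain ⟨a, ha, h1⟩ := hI.nontriv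
    exact ⟨a, le_cl E z ha, h1⟩
  · have hne : ‖z‖ ≠ 1 := by
      intro h
      have := hII.2 1 one_ne_zero 1 E.one_mem
      rw [zpow_one, norm_one] at this
      exact this h
    have hz : 0 < ‖z‖ := norm_pos_iff.2 hII.1
    rcases lt_or_gt_of_ne hne with h | h
    · refine ⟨z⁻¹, (cl E z).inv_mem (mem_cl E z), ?_⟩
      rw [norm_inv]
      exact (one_lt_inv₀ hz).2 h
    · exact ⟨z, mem_cl E z, h⟩

/-- Proof. `Submodule.closed_of_finiteDimensional` over the complete nontrivially normed field `N`. -/
theorem closed_fin [CompleteSpace Ω] {N : Subfield Ω} (hN : IsClosed (N : Set Ω))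
    (hnt : ∃ a ∈ N, 1 < ‖a‖) (M : IntermediateField N Ω) [FiniteDimensional N M] :
    IsClosed (M : Set Ω) := by
  let i1 : NontriviallyNormedField N :=
    { (inferInstance : NormedField N) with
      non_trivial := by
        obtain ⟨a, ha, h⟩ := hnt
        exact ⟨⟨a, ha⟩, h⟩ }
  have i2 : CompleteSpace N := hN.completeSpace_coe
  let i5 : NormedAlgebra N Ω :=
    { (inferInstance : Algebra N Ω) with
      norm_smul_le := fun a b => by
        have : a • b = (a : Ω) * b := rfl
        rw [this, norm_mul]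
        exact le_rfl }
  have i6 : FiniteDimensional N (Subalgebra.toSubmodule M.toSubalgebra) :=
    (inferInstance : FiniteDimensional N M)
  exact Submodule.closed_of_finiteDimensional (Subalgebra.toSubmodule M.toSubalgebra)

/-- A finite Galois extension of `N = cl E z` which contains `y` and is contained in some `H(θ)`.

Proof. `N ≤ H` (`cl_le`). The minimal polynomial `P` of `y` over `N` is separable; let `y i` be its
roots in `Ω`. They are algebraic over `H`, so in `spn H k` (`HH.alg`). By `pe_fin` there is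
`θ ∈ abar k` with all conjugates in `k(θ)` and all `y i ∈ adj H θ`. Let
`M = IntermediateField.adjoin N (P.rootSet Ω ∪ (minpoly k θ).rootSet Ω)`. It is finite-dimensional;
it is Galois: generated by separable elements (`k` is perfect, so `minpoly k θ` is separable) and
stable under all embeddings in `Ω` (or the splitting field of the product of the two polynomials,
divided by the gcd). The generators are in `adj H θ` (`θ' ∈ adj k θ ≤ adj H θ`). -/
theorem galM {p : ℕ} [Fact p.Prime] [CharP Ω p] [IsAlgClosed Ω]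
    {k E H : Subfield Ω} (ht : Tame p k E H) {z : Ω} (hz : z ∈ H) {y : Ω} (hy : y ∈ H)
    (hsep : IsSeparable (cl E z) y) : ∃ θ ∈ abar k, NormalG k θ ∧
      ∃ M : IntermediateField (cl E z) Ω, FiniteDimensional (cl E z) M ∧ IsGalois (cl E z) M ∧
        θ ∈ M ∧ y ∈ M ∧ ∀ x ∈ M, x ∈ adj H θ := by
  classical
  set N : Subfield Ω := cl E z with hNdef
  have hNH : N ≤ H := cl_le ht.hh.closed ht.EH hz
  have hkN : k ≤ N := ht.kE.trans (le_cl E z)
  set P := minpoly N y with hP
  have hPsep : P.Separable := hsep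
  have hyi : IsIntegral N y := IsSeparable.isIntegral hsep
  have hP0 : P ≠ 0 := minpoly.ne_zero hyi
  set s : Finset Ω := (P.map (algebraMap N Ω)).roots.toFinset with hs
  have hmem : ∀ v : Ω, v ∈ s ↔ Polynomial.aeval v P = 0 := by
    intro v
    rw [hs, Multiset.mem_toFinset, Polynomial.mem_roots (Polynomial.map_ne_zero hP0),
      Polynomial.IsRoot.def, Polynomial.eval_map, ← Polynomial.aeval_def]
  have halg : ∀ v ∈ s, v ∈ spn H k := by
    intro v hv
    refine ht.hh.alg v ⟨P.map (Subfield.inclusion hNH), Polynomial.map_ne_zero hP0, ?_⟩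
    have hcomp : (algebraMap H Ω).comp (Subfield.inclusion hNH) = algebraMap N Ω := rfl
    rw [Polynomial.aeval_def, Polynomial.eval₂_map, hcomp, ← Polynomial.aeval_def]
    exact (hmem v).1 hv
  obtain ⟨θ, hθ, hθn, hw⟩ := pe_fin p ht.hh.kH ht.hh.kperf
    (fun j : Fin s.card => ((s.equivFin.symm j : s) : Ω)) (fun j => halg _ (Finset.coe_mem _))
  have hroot : ∀ v ∈ s, v ∈ adj H θ := by
    intro v hv
    have h1 := hw (s.equivFin ⟨v, hv⟩)
    rwa [Equiv.symm_apply_apply] at h1
  refine ⟨θ, hθ, hθn, ?_⟩
  -- the second polynomial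
  have hθi : IsIntegral k θ := by
    have h := hθ
    unfold abar at h
    exact (mem_algebraicClosure_iff.mp h).isIntegral
  have : CharP k p := Subfield.charP k p
  have : ExpChar k p := ExpChar.prime Fact.out
  have : PerfectRing k p := by
    refine PerfectRing.ofSurjective k p ?_
    intro x
    obtain ⟨y', hy', hyx⟩ := ht.hh.kperf x x.2
    exact ⟨⟨y', hy'⟩, Subtype.ext hyx⟩
  have : PerfectField k := PerfectRing.toPerfectField k p
  set Q := (minpoly k θ).map (Subfield.inclusion hkN) with hQ
  have hQ0 : Q ≠ 0 := Polynomial.map_ne_zero (minpoly.ne_zero hθi)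
  have hQsep : Q.Separable :=
    (PerfectField.separable_of_irreducible (minpoly.irreducible hθi)).map
  have hQae : ∀ v : Ω, Polynomial.aeval v Q = Polynomial.aeval v (minpoly k θ) := by
    intro v
    have hcomp : (algebraMap N Ω).comp (Subfield.inclusion hkN) = algebraMap k Ω := rfl
    rw [hQ, Polynomial.aeval_def, Polynomial.eval₂_map, hcomp, ← Polynomial.aeval_def]
  have hR0 : P * Q ≠ 0 := mul_ne_zero hP0 hQ0
  have hsp : Polynomial.IsSplittingField N
      (IntermediateField.adjoin N ((P * Q).rootSet Ω)) (P * Q) :=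
    IntermediateField.adjoin_rootSet_isSplittingField (IsAlgClosed.splits _)
  have hsub := IntermediateField.subset_adjoin N ((P * Q).rootSet Ω)
  refine ⟨IntermediateField.adjoin N ((P * Q).rootSet Ω),
    Polynomial.IsSplittingField.finiteDimensional _ (P * Q), ?_, ?_, ?_, ?_⟩
  · rw [isGalois_iff]
    refine ⟨(IntermediateField.isSeparable_adjoin_iff_isSeparable N Ω).2 ?_,
      Normal.of_isSplittingField (P * Q)⟩
    intro x hx
    rw [Polynomial.mem_rootSet_of_ne hR0, map_mul, mul_eq_zero] at hx
    rcases hx with h | h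
    · exact hPsep.of_dvd (minpoly.dvd N x h)
    · exact hQsep.of_dvd (minpoly.dvd N x h)
  · refine hsub ?_
    rw [Polynomial.mem_rootSet_of_ne hR0, map_mul, hQae, minpoly.aeval, mul_zero]
  · refine hsub ?_
    rw [Polynomial.mem_rootSet_of_ne hR0, map_mul, minpoly.aeval, zero_mul]
  · intro x hx
    have h1 : (IntermediateField.adjoin N ((P * Q).rootSet Ω)).toSubfield ≤ adj H θ := by
      rw [IntermediateField.adjoin_toSubfield, Subfield.closure_le]
      rintro v (hv | hv)
      · obtain ⟨c, rfl⟩ := hv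
        exact le_adj H θ (hNH c.2)
      · rw [Polynomial.mem_rootSet_of_ne hR0, map_mul, mul_eq_zero] at hv
        rcases hv with h | h
        · exact hroot v ((hmem v).2 h)
        · rw [hQae] at h
          exact adj_mono ht.hh.kH θ (hθn v h)
    exact h1 hx

end Pool.Agent.R4U
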