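import Pool.Agent.Lib.MP_4ed7e0_lc_U.Defs

/-!
# MP_4ed7e0_lc, project U: Artin-Schreier generators in extensions with a `p`-group
-/

set_option autoImplicit false

namespace Pool.Agent.R4U

universe u v

private theorem Pgal_charP (p : ℕ) (M : Type u) [Field M] [CharP M p] :
    CharP (AddMonoid.End M) p := by
  constructor
  intro x
  constructor
  · intro h
    have h1 : (x : AddMonoid.End M) (1 : M) = 0 := by
      rw [h]
      rfl
    rw [AddMonoid.End.natCast_apply, nsmul_eq_mul, mul_one] at h1
    exact (CharP.cast_eq_zero_iff M p x).1 h1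
  · intro h
    refine AddMonoidHom.ext fun y => ?_
    change (x : AddMonoid.End M) y = 0
    rw [AddMonoid.End.natCast_apply, nsmul_eq_mul, (CharP.cast_eq_zero_iff M p x).2 h, zero_mul]

/-- The additive endomorphism of the ring endomorphism `s`. -/
private def PgalS {M : Type u} [Field M] (s : M →+* M) : AddMonoid.End M := s.toAddMonoidHom

/-- The difference operator of the ring endomorphism `s`. -/
private def PgalD {M : Type u} [Field M] (s : M →+* M) : AddMonoid.End M := PgalS s - 1

private theorem PgalD_apply {M : Type u} [Field M] (s : M →+* M) (y : M) :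
    PgalD s y = s y - y := rfl

private theorem Pgal_pow_succ {M : Type u} [Field M] (s : M →+* M) (k : ℕ) (y : M) :
    (PgalD s ^ (k + 1)) y = (PgalD s ^ k) (PgalD s y) := by
  rw [pow_succ]
  rfl

private theorem Pgal_pow_succ' {M : Type u} [Field M] (s : M →+* M) (k : ℕ) (y : M) :
    (PgalD s ^ (k + 1)) y = PgalD s ((PgalD s ^ k) y) := by
  rw [pow_succ']
  rfl

private theorem Pgal_pow_p (p : ℕ) [Fact p.Prime] {M : Type u} [Field M] [CharP M p]
    (s : M →+* M) (y : M) : (PgalD s ^ p) y = (s^[p]) y - y := by
  have := Pgal_charP p M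
  have h : PgalD s ^ p = PgalS s ^ p - 1 := by
    unfold PgalD
    rw [sub_pow_char_of_commute p (Commute.one_right _), one_pow]
  rw [h]
  have h2 : ∀ (n : ℕ) (z : M), (PgalS s ^ n) z = (s^[n]) z := by
    intro n
    induction n with
    | zero => intro z; rfl
    | succ n ih =>
      intro z
      rw [pow_succ, Function.iterate_succ_apply]
      exact ih (s z)
  exact congrArg (fun t => t - y) (h2 p y)

private theorem Pgal_mul {M : Type u} [Field M] (s : M →+* M) {a : M} (ha : s a = a) (k : ℕ)
    (y : M) : (PgalD s ^ k) (a * y) = a * (PgalD s ^ k) y := by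
  induction k generalizing y with
  | zero => rfl
  | succ k ih =>
    rw [Pgal_pow_succ, Pgal_pow_succ, PgalD_apply, PgalD_apply, map_mul, ha, ← mul_sub, ih]

/-- Falling factorials. -/
private def PgalP {M : Type u} [Field M] (t : M) (k : ℕ) : M :=
  ∏ i ∈ Finset.range k, (t - i)

private theorem PgalD_P {M : Type u} [Field M] (s : M →+* M) {t : M} (ht : s t = t + 1) (k : ℕ) :
    PgalD s (PgalP t (k + 1)) = ((k + 1 : ℕ) : M) * PgalP t k := by
  have h1 : s (PgalP t (k + 1)) = (t + 1) * PgalP t k := by
    unfold PgalP
    rw [map_prod, Finset.prod_range_succ', mul_comm]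
    congr 1
    · rw [map_sub, ht, map_natCast]
      simp
    · refine Finset.prod_congr rfl fun i _ => ?_
      rw [map_sub, ht, map_natCast]
      push_cast
      ring
  rw [PgalD_apply, h1]
  unfold PgalP
  rw [Finset.prod_range_succ]
  push_cast
  ring

private theorem PgalD_pow_P {M : Type u} [Field M] (s : M →+* M) {t : M} (ht : s t = t + 1)
    (k : ℕ) : (PgalD s ^ k) (PgalP t k) = (k.factorial : M) := by
  induction k with
  | zero =>
    change PgalP t 0 = _
    simp [PgalP]
  | succ k ih =>
    rw [Pgal_pow_succ, PgalD_P s ht, Pgal_mul s (map_natCast s _), ih, Nat.factorial_succ]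
    push_cast
    ring

/-- A field of characteristic `p` with a nontrivial finite `p`-group `G` of automorphisms contains an
Artin-Schreier extension of the fixed field, the fixed field of a smaller group.

Proof. Let `N` be a subgroup of index `p`, normal (`Sylow.exists_subgroup_card_pow_prime`,
`Subgroup.normal_of_index_eq_minFac_card`), `M₀` the fixed field of `G` and `M₁` the fixed field
of `N`; by Artin's theorem (`IsGaloisGroup`, `FixedPoints.finrank_eq_card`,
`IntermediateField`-lemmas for `FixedPoints.subfield`) `[M : M₀] = |G|`, `[M : M₁] = |N|`, so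
`[M₁ : M₀] = p`. Let `g ∈ G`, `g ∉ N`; then `G` is generated by `N` and `g`, `g` maps `M₁` to itself
(`N` is normal), and an element of `M₁` fixed by `g` is in `M₀`. Consider the additive map
`δ = g - 1` on `M₁`; `δ ^ p = g ^ p - 1 = 0` on `M₁` (characteristic `p`, `g ^ p ∈ N`), `δ ≠ 0`. So
there is `x ∈ M₁` with `δ x ≠ 0` and `δ (δ x) = 0` (take the last nonzero power of `δ` applied to
some element), i.e. `g x = x + c`, `c ∈ M₀`, `c ≠ 0`. Let `ϑ = x / c`: `g ϑ = ϑ + 1`,
`n ϑ = ϑ` for `n ∈ N`. So every element of `G` maps `ϑ` to `ϑ + i`, `i` in the prime field, and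
`ϑ ^ p - ϑ` is fixed by `G`. `M₀(ϑ)` is a subfield of `M₁` larger than `M₀`, and `[M₁ : M₀] = p` is
prime, so `M₀(ϑ) = M₁`. -/
theorem exists_as (p : ℕ) [Fact p.Prime] {M : Type u} [Field M] [CharP M p] {G : Type v} [Group G]
    [Finite G] [MulSemiringAction G M] [FaithfulSMul G M] (hG : IsPGroup p G) [Nontrivial G] :
    ∃ (ϑ : M) (N : Subgroup G), N ≠ ⊤ ∧ (∀ g : G, g • (ϑ ^ p - ϑ) = ϑ ^ p - ϑ) ∧
      (∃ g : G, g • ϑ ≠ ϑ) ∧
      ∀ x : M, (∀ n ∈ N, n • x = x) ↔
        x ∈ Subfield.closure ({y | ∀ g : G, g • y = y} ∪ {ϑ} : Set M) := by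
  classical
  have hp : p.Prime := Fact.out
  -- a normal subgroup of index `p`
  obtain ⟨n, hn⟩ := (IsPGroup.iff_card (p := p) (G := G)).1 hG
  have hn0 : n ≠ 0 := by
    rintro rfl
    rw [pow_zero] at hn
    have := Finite.one_lt_card (α := G)
    omega
  obtain ⟨m, rfl⟩ := Nat.exists_eq_succ_of_ne_zero hn0
  obtain ⟨N, hN⟩ := Sylow.exists_subgroup_card_pow_prime (G := G) p (n := m)
    (by rw [hn]; exact pow_dvd_pow p (Nat.le_succ m))
  have hidx : N.index = p := by
    have h1 := N.card_mul_index
    rw [hN, hn, pow_succ] at h1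
    exact Nat.eq_of_mul_eq_mul_left (pow_pos hp.pos m) h1
  have hnorm : N.Normal := by
    refine Subgroup.normal_of_index_eq_minFac_card ?_
    rw [hidx, hn, Nat.Prime.pow_minFac hp (Nat.succ_ne_zero m)]
  have hNtop : N ≠ ⊤ := by
    intro h
    rw [h, Subgroup.index_top] at hidx
    exact hp.one_lt.ne hidx
  obtain ⟨g, hg⟩ : ∃ g : G, g ∉ N := by
    by_contra h
    push Not at h
    exact hNtop (Subgroup.ext fun x => by simp [h x])
  have hgp : g ^ p ∈ N := by
    rw [← QuotientGroup.eq_one_iff (N := N)]
    have h1 : Nat.card (G ⧸ N) = p := by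
      rw [← hidx]
      rfl
    rw [QuotientGroup.mk_pow, ← h1]
    exact pow_card_eq_one'
  -- elements fixed by `N` and `g` are fixed by `G`
  have hfix : ∀ y : M, (∀ n ∈ N, n • y = y) → g • y = y → ∀ h : G, h • y = y := by
    intro y hy1 hy2
    have hle : N ≤ MulAction.stabilizer G y := fun n hn => hy1 n hn
    have h1 := Subgroup.relIndex_mul_index hle
    rw [hidx] at h1
    have h2 : (MulAction.stabilizer G y).index ∣ p := ⟨_, by rw [mul_comm]; exact h1.symm⟩
    rcases (Nat.dvd_prime hp).1 h2 with h3 | h3
    · have h4 := Subgroup.index_eq_one.1 h3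
      intro h
      have : h ∈ MulAction.stabilizer G y := by rw [h4]; trivial
      exact this
    · rw [h3] at h1
      have h4 : N.relIndex (MulAction.stabilizer G y) = 1 :=
        Nat.eq_of_mul_eq_mul_right hp.pos (by rw [h1, one_mul])
      exact absurd (Subgroup.relIndex_eq_one.1 h4 hy2) hg
  -- the automorphism
  set s : M →+* M := MulSemiringAction.toRingHom G M g with hs
  have hsa : ∀ y, s y = g • y := fun y => rfl
  have hsN : ∀ y : M, (∀ n ∈ N, n • y = y) → ∀ n ∈ N, n • s y = s y := by
    intro y hy n hn
    have h1 := hnorm.conj_mem n hn g⁻¹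
    rw [inv_inv] at h1
    have h2 := hy _ h1
    rw [hsa]
    calc n • g • y = g • ((g⁻¹ * n * g) • y) := by
          rw [smul_smul, smul_smul]
          congr 1
          group
      _ = g • y := by rw [h2]
  have hDN : ∀ y : M, (∀ n ∈ N, n • y = y) → ∀ n ∈ N, n • PgalD s y = PgalD s y := by
    intro y hy n hn
    rw [PgalD_apply, smul_sub, hsN y hy n hn, hy n hn]
  have hDkN : ∀ (k : ℕ) (y : M), (∀ n ∈ N, n • y = y) →
      ∀ n ∈ N, n • (PgalD s ^ k) y = (PgalD s ^ k) y := by
    intro k
    induction k with
    | zero =>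
      intro y hy n hn
      exact hy n hn
    | succ k ih =>
      intro y hy
      rw [Pgal_pow_succ]
      exact ih _ (hDN y hy)
  have hDfix : ∀ y : M, (∀ n ∈ N, n • y = y) → PgalD s y = 0 → ∀ h : G, h • y = y := by
    intro y hy h0
    rw [PgalD_apply, sub_eq_zero] at h0
    exact hfix y hy h0
  have hit : ∀ (k : ℕ) (y : M), (s^[k]) y = g ^ k • y := by
    intro k
    induction k with
    | zero =>
      intro y
      simp
    | succ k ih =>
      intro y
      rw [Function.iterate_succ_apply, ih, hsa, smul_smul, pow_succ]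
  have hDp : ∀ y : M, (∀ n ∈ N, n • y = y) → (PgalD s ^ p) y = 0 := by
    intro y hy
    rw [Pgal_pow_p p s y, hit, hy _ hgp, sub_self]
  -- `δ ≠ 0` on the fixed field of `N`
  obtain ⟨x₀, hx₀, hx₀'⟩ : ∃ x₀ : M, (∀ n ∈ N, n • x₀ = x₀) ∧ PgalD s x₀ ≠ 0 := by
    by_contra hcon
    push Not at hcon
    have heq : FixedPoints.subfield N M = FixedPoints.subfield G M := by
      ext y
      constructor
      · intro hy
        have hy1 : ∀ n ∈ N, n • y = y := fun n hn => hy ⟨n, hn⟩
        exact fun h => hDfix y hy1 (hcon y hy1) h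
      · intro hy
        exact fun n => hy (n : G)
    have := Fintype.ofFinite G
    have := Fintype.ofFinite N
    have e1 := FixedPoints.finrank_eq_card G M
    have e2 := FixedPoints.finrank_eq_card N M
    rw [heq, e1, Fintype.card_eq_nat_card, Fintype.card_eq_nat_card, hN, hn] at e2
    exact absurd (Nat.pow_right_injective hp.two_le e2) (by simp)
  -- an element with `δ x ≠ 0`, `δ (δ x) = 0`
  obtain ⟨x, hx, hx1, hx2⟩ : ∃ x : M, (∀ n ∈ N, n • x = x) ∧ PgalD s x ≠ 0 ∧
      PgalD s (PgalD s x) = 0 := by
    have hex : ∃ k, (PgalD s ^ k) x₀ = 0 := ⟨p, hDp x₀ hx₀⟩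
    have hk0 := Nat.find_spec hex
    set k := Nat.find hex with hk
    have hmin : ∀ i < k, (PgalD s ^ i) x₀ ≠ 0 := fun i hi => Nat.find_min hex hi
    have hk2 : 2 ≤ k := by
      by_contra hlt
      have : k = 0 ∨ k = 1 := by omega
      rcases this with h | h
      · rw [h] at hk0
        have h0 : x₀ = 0 := hk0
        rw [h0] at hx₀'
        exact hx₀' (map_zero _)
      · rw [h, pow_one] at hk0
        exact hx₀' hk0
    obtain ⟨j, hj⟩ : ∃ j, k = j + 2 := ⟨k - 2, by omega⟩
    refine ⟨(PgalD s ^ j) x₀, hDkN j x₀ hx₀, ?_, ?_⟩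
    · rw [← Pgal_pow_succ']
      exact hmin _ (by omega)
    · rw [← Pgal_pow_succ', ← Pgal_pow_succ']
      rw [hj] at hk0
      exact hk0
  set c := PgalD s x with hc
  have hcN : ∀ n ∈ N, n • c = c := hDN x hx
  have hcG : ∀ h : G, h • c = c := hDfix c hcN hx2
  have hsx : s x = x + c := by
    rw [hc, PgalD_apply]
    ring
  set t : M := x / c with ht
  have hst : s t = t + 1 := by
    rw [ht, map_div₀, hsx, hsa c, hcG g, add_div, div_self hx1]
  have hsmul_div : ∀ (h : G) (a b : M), h • (a / b) = h • a / h • b := by
    intro h a b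
    exact map_div₀ (MulSemiringAction.toRingHom G M h) a b
  have htN : ∀ n ∈ N, n • t = t := by
    intro n hn
    rw [ht, hsmul_div, hx n hn, hcG n]
  refine ⟨t, N, hNtop, ?_, ⟨g, ?_⟩, ?_⟩
  · apply hfix
    · intro n hn
      rw [smul_sub, smul_pow', htN n hn]
    · rw [← hsa, map_sub, map_pow, hst, add_pow_char, one_pow]
      ring
  · rw [← hsa, hst]
    intro h
    exact one_ne_zero (add_eq_left.1 h)
  · intro y
    constructor
    · have key : ∀ k : ℕ, k ≤ p → ∀ y : M, (∀ n ∈ N, n • y = y) → (PgalD s ^ k) y = 0 →
          y ∈ Subfield.closure ({y | ∀ g : G, g • y = y} ∪ {t} : Set M) := by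
        intro k
        induction k with
        | zero =>
          intro _ y _ h0
          have h1 : y = 0 := h0
          rw [h1]
          exact Subfield.zero_mem _
        | succ k ih =>
          intro hkp y hy h0
          set K := Subfield.closure ({y | ∀ g : G, g • y = y} ∪ {t} : Set M) with hK
          have htK : t ∈ K := Subfield.subset_closure (Or.inr rfl)
          have hPK : PgalP t k ∈ K := by
            unfold PgalP
            exact prod_mem fun i _ => K.sub_mem htK (natCast_mem K i)
          have hfac : ((k.factorial : ℕ) : M) ≠ 0 := by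
            intro h
            rw [CharP.cast_eq_zero_iff M p, hp.dvd_factorial] at h
            omega
          have hdN := hDkN k y hy
          have hdG : ∀ h : G, h • (PgalD s ^ k) y = (PgalD s ^ k) y := by
            refine hDfix _ hdN ?_
            rw [← Pgal_pow_succ']
            exact h0
          set d := (PgalD s ^ k) y with hd
          set a : M := d / (k.factorial : M) with ha
          have haG : ∀ h : G, h • a = a := by
            intro h
            rw [ha, hsmul_div, hdG h]
            congr 1
            exact map_natCast (MulSemiringAction.toRingHom G M h) _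
          have haK : a ∈ K := Subfield.subset_closure (Or.inl haG)
          have hPN : ∀ n ∈ N, n • PgalP t k = PgalP t k := by
            intro n hn
            have h1 := map_prod (MulSemiringAction.toRingHom G M n)
              (fun i : ℕ => t - (i : M)) (Finset.range k)
            change n • PgalP t k = _ at h1
            rw [h1]
            refine Finset.prod_congr rfl fun i _ => ?_
            rw [map_sub, map_natCast]
            congr 1
            exact htN n hn
          have hyK : y - a * PgalP t k ∈ K := by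
            refine ih (by omega) _ ?_ ?_
            · intro n hn
              rw [smul_sub, smul_mul', hy n hn, haG n, hPN n hn]
            · rw [map_sub, Pgal_mul s (haG g), PgalD_pow_P s hst, ← hd, ha,
                div_mul_cancel₀ _ hfac, sub_self]
          have := K.add_mem hyK (K.mul_mem haK hPK)
          rwa [sub_add_cancel] at this
      intro hy
      exact key p le_rfl y hy (hDp y hy)
    · intro hy
      have hle : Subfield.closure ({y | ∀ g : G, g • y = y} ∪ {t} : Set M) ≤
          FixedPoints.subfield N M := by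
        rw [Subfield.closure_le]
        rintro z (hz | hz)
        · exact fun n => hz (n : G)
        · rw [Set.mem_singleton_iff] at hz
          rw [hz]
          exact fun n => htN n n.2
      intro n hn
      exact hle hy ⟨n, hn⟩

end Pool.Agent.R4U
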