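import Pool.Agent.Lib.MP_4ed7e0_lc_U.ASII
import Pool.Agent.Lib.MP_4ed7e0_lc_U.Pgal

/-!
# MP_4ed7e0_lc, project U: towers of Artin-Schreier extensions
-/

set_option autoImplicit false

namespace Pool.Agent.R4U

universe u v

variable {Ω : Type u} [NormedField Ω] [IsUltrametricDist Ω]

omit [IsUltrametricDist Ω] in
private theorem ptow_closure {A M : Subfield Ω} (hle : A ≤ M) (S : Set M)
    (hS : ∀ y : M, y ∈ S ↔ (y : Ω) ∈ A) (ϑ x : M) :
    x ∈ Subfield.closure (S ∪ {ϑ}) ↔ (x : Ω) ∈ adj A (ϑ : Ω) := by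
  have h1 : M.subtype '' (S ∪ {ϑ}) = (A : Set Ω) ∪ {(ϑ : Ω)} := by
    rw [Set.image_union, Set.image_singleton]
    congr 1
    ext y
    constructor
    · rintro ⟨z, hz, rfl⟩
      exact (hS z).1 hz
    · intro hy
      exact ⟨⟨y, hle hy⟩, (hS _).2 hy, rfl⟩
  have h2 : (Subfield.closure (S ∪ {ϑ})).map M.subtype = adj A (ϑ : Ω) := by
    rw [RingHom.map_field_closure, h1]
    rfl
  rw [← h2, Subfield.mem_map]
  constructor
  · intro h
    exact ⟨x, h, rfl⟩
  · rintro ⟨y, hy, hyx⟩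
    have h3 : y = x := Subtype.ext hyx
    rwa [← h3]

private theorem ptow_aux {p : ℕ} [Fact p.Prime] [CharP Ω p] [IsAlgClosed Ω] [CompleteSpace Ω]
    {k E H : Subfield Ω} (ht : Tame p k E H) {M : Subfield Ω} (hMH : M ≤ H) (n : ℕ) :
    ∀ {z0 : Ω} (_ : z0 ∈ H) (_ : Ty E z0) (_ : cl E z0 ≤ M) {G : Type v} [Group G] [Finite G]
      [MulSemiringAction G M] [FaithfulSMul G M] (_ : IsPGroup p G) (_ : Nat.card G ≤ n)
      (_ : ∀ x : M, (∀ g : G, g • x = x) ↔ (x : Ω) ∈ cl E z0),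
      ∃ z1 ∈ H, Ty E z1 ∧ M = cl E z1 := by
  induction n with
  | zero =>
    intro z0 _ _ _ G _ _ _ _ _ hc _
    have := Nat.card_pos (α := G)
    omega
  | succ n ih =>
    intro z0 hz0 hT hle G _ _ _ _ hG hc hfix
    rcases subsingleton_or_nontrivial G with hs | hnt
    · refine ⟨z0, hz0, hT, le_antisymm ?_ hle⟩
      intro x hx
      refine (hfix ⟨x, hx⟩).1 fun g => ?_
      rw [Subsingleton.elim g 1, one_smul]
    · have : CharP M p := Subfield.charP M p
      obtain ⟨ϑ, N, hN, hϑ, ⟨g, hg⟩, hN'⟩ := exists_as p (M := M) hG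
      have hb : (ϑ : Ω) ^ p - ϑ ∈ cl E z0 := (hfix (ϑ ^ p - ϑ)).1 hϑ
      have hn : (ϑ : Ω) ∉ cl E z0 := fun h => hg ((hfix ϑ).2 h g)
      obtain ⟨z1, hz1, hT1, heq⟩ := as_step ht hz0 hT (hMH ϑ.2) hb hn
      have hle1 : cl E z1 ≤ M := by
        rw [heq]
        exact adj_le hle ϑ.2
      have hcN : Nat.card N ≤ n := by
        by_contra hcon
        push Not at hcon
        exact hN (Subgroup.eq_top_of_le_card N (by omega))
      refine ih hz1 hT1 hle1 (G := N) (hG.to_subgroup N) hcN ?_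
      intro x
      rw [heq, ← ptow_closure hle {y | ∀ g : G, g • y = y} (fun y => hfix y) ϑ x, ← hN' x]
      constructor
      · intro h m hm
        exact h ⟨m, hm⟩
      · intro h m
        exact h m m.2

/-- Galois extensions of `cl E z0` inside `H` with a `p`-group are rational.

Proof. Strong induction on the order of `G`, for all `z0` and `G`. If `G` is trivial then
`M = cl E z0`. Otherwise let `ϑ ∈ M`, `N < G` be as in `exists_as` for `M` (characteristic `p` as a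
subfield of `Ω`). `ϑ ^ p - ϑ ∈ cl E z0`, `ϑ ∉ cl E z0` by `hfix`; by `as_step` there is `z1 ∈ H`,
`Ty E z1`, with `cl E z1 = adj (cl E z0) ϑ ≤ M`. The group `N` acts faithfully on `M`, with fixed
elements exactly those in `Subfield.closure (fixed points of G ∪ {ϑ})`, i.e. in
`adj (cl E z0) ϑ = cl E z1` (compare closures in `M` and in `Ω` with `Subfield.map` of
`M.subtype`). Induction hypothesis for `N`. -/
theorem ptow {p : ℕ} [Fact p.Prime] [CharP Ω p] [IsAlgClosed Ω] [CompleteSpace Ω]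
    {k E H : Subfield Ω} (ht : Tame p k E H) {z0 : Ω} (hz0 : z0 ∈ H) (hT : Ty E z0)
    {M : Subfield Ω} (hMH : M ≤ H) (hle : cl E z0 ≤ M) {G : Type v} [Group G] [Finite G]
    [MulSemiringAction G M] [FaithfulSMul G M] (hG : IsPGroup p G)
    (hfix : ∀ x : M, (∀ g : G, g • x = x) ↔ (x : Ω) ∈ cl E z0) :
    ∃ z1 ∈ H, Ty E z1 ∧ M = cl E z1 :=
  ptow_aux ht hMH (Nat.card G) hz0 hT hle hG le_rfl hfix

end Pool.Agent.R4U
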