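import Pool.Agent.Lib.MP_4ed7e0_lc_U.TameL

/-!
# MP_4ed7e0_lc, project U: the tame part, type II
-/

set_option autoImplicit false

namespace Pool.Agent.R4U

universe u

variable {Ω : Type u} [NormedField Ω] [IsUltrametricDist Ω]

omit [IsUltrametricDist Ω] in
private theorem tam_ty {E : Subfield Ω} {z : Ω} (hII : TyII E z) {e f : Ω} (he : e ∈ E)
    (hf : f ∈ E) (he0 : e ≠ 0) {a b : ℤ} (h : ‖e‖ * ‖z‖ ^ a = ‖f‖ * ‖z‖ ^ b) : a = b := by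
  by_contra hab
  have hz : ‖z‖ ≠ 0 := norm_ne_zero_iff.2 hII.1
  have hen : ‖e‖ ≠ 0 := norm_ne_zero_iff.2 he0
  refine hII.2 (a - b) (sub_ne_zero.2 hab) (f / e) (E.div_mem hf he) ?_
  rw [zpow_sub₀ hz, norm_div, div_eq_div_iff (zpow_ne_zero _ hz) hen, mul_comm, h]

/-- In a closed field `M` in which the norms are torsion (bounded) modulo those of `cl E z` there is
`z0` such that `z` is, up to a factor in `E`, a power of `z0`, and modulo the norms of `E(z0)` the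
norms of `M` are `p`-power torsion.

Proof. Consider the set of the natural numbers `n ≥ 1`, `p ∤ n`, such that `‖x‖ ^ n = ‖e‖ * ‖z‖` for
some `x ∈ M`, `e ∈ E`. It contains `1`. It is bounded by `D`: by `hD` `‖x‖ ^ m = ‖e'‖ * ‖z‖ ^ i`,
`1 ≤ m ≤ D`, so `‖e‖ ^ m * ‖z‖ ^ m = ‖x‖ ^ (n * m) = ‖e'‖ ^ n * ‖z‖ ^ (i * n)`, so `m = i * n` by
`TyII`, hence `n ≤ m ≤ D` (`e, e' ≠ 0` because the left-hand sides are not zero). Let `n` be
the largest element and `x1`, `e` the corresponding elements. `u = x1 ^ n / (e * z) ∈ M` has norm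
one, `M ≤ H`, so there is `c ∈ k`, `‖c‖ = 1`, `‖u - c‖ < 1`; by `root_unit` in `M` there is
`v ∈ M`, `v ^ n = u / c`, `‖v - 1‖ < 1`. Put `z0 = x1 / v`: `z0 ^ n = c * e * z`, `‖z0‖ = ‖x1‖`. So
`z ∈ cl E z0` and `z0` is of type II over `E`.
Let `Γ` be the set of the `‖e‖ * ‖z0‖ ^ i` (`e ∈ E` nonzero), a subgroup, which contains `‖z‖`. For
`x ∈ M` nonzero let `m ≥ 1` be the smallest number with `‖x‖ ^ m ∈ Γ` (exists by `hD`). Suppose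
`m` is not a power of `p`; let `ℓ ≠ p` be a prime divisor and `x' = x ^ (m / ℓ)`, so `‖x'‖ ∉ Γ`,
`‖x'‖ ^ ℓ = ‖e'‖ * ‖z0‖ ^ j`. If `ℓ ∣ j` then `‖x' * z0 ^ (-j / ℓ)‖ ^ ℓ = ‖e'‖ = ‖e''‖ ^ ℓ` with
`e'' ∈ E` by `Tame.dvs` and `‖x'‖ ∈ Γ`, a contradiction. Otherwise `a * j + b * ℓ = 1` for integers
`a, b`; `x2 = x' ^ a * z0 ^ b ∈ M` has `‖x2‖ ^ ℓ = ‖e' ^ a‖ * ‖z0‖`, so
`‖x2‖ ^ (ℓ * n) = ‖e'''‖ * ‖z‖` with `e''' ∈ E`, and `ℓ * n > n` is prime to `p`: a contradiction. -/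
theorem tam {p : ℕ} [Fact p.Prime] [CharP Ω p] [IsAlgClosed Ω] {k E H : Subfield Ω}
    (ht : Tame p k E H) {z : Ω} (hII : TyII E z) {M : Subfield Ω} (hM : IsClosed (M : Set Ω))
    (hEM : E ≤ M) (hMH : M ≤ H) (hzM : z ∈ M) {D : ℕ}
    (hD : ∀ x ∈ M, x ≠ 0 → ∃ n : ℕ, 1 ≤ n ∧ n ≤ D ∧ ∃ e ∈ E, ∃ i : ℤ, ‖x‖ ^ n = ‖e‖ * ‖z‖ ^ i) :
    ∃ z0 ∈ M, TyII E z0 ∧ z ∈ cl E z0 ∧
      ∀ x ∈ M, x ≠ 0 → ∃ s : ℕ, ∃ e ∈ E, ∃ i : ℤ, ‖x‖ ^ (p ^ s) = ‖e‖ * ‖z0‖ ^ i := by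
  classical
  have hp := (Fact.out : p.Prime)
  have hz0 : z ≠ 0 := hII.1
  have hzn : ‖z‖ ≠ 0 := norm_ne_zero_iff.2 hz0
  obtain ⟨S, hS⟩ : ∃ S : Set ℕ, S = {n : ℕ | 1 ≤ n ∧ ¬ p ∣ n ∧
      ∃ x ∈ M, x ≠ 0 ∧ ∃ e ∈ E, ‖x‖ ^ n = ‖e‖ * ‖z‖} := ⟨_, rfl⟩
  have hS1 : (1 : ℕ) ∈ S := by
    rw [hS]
    refine ⟨le_rfl, ?_, z, hzM, hz0, 1, E.one_mem, ?_⟩
    · intro h
      exact hp.one_lt.ne' (Nat.dvd_one.1 h)
    · rw [norm_one, one_mul, pow_one]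
  have hSb : ∀ n ∈ S, n ≤ D := by
    intro n hn
    rw [hS] at hn
    obtain ⟨hn1, -, x, hxM, hx0, e, he, hxe⟩ := hn
    have hxn : ‖x‖ ≠ 0 := norm_ne_zero_iff.2 hx0
    have he0 : e ≠ 0 := by
      rintro rfl
      rw [norm_zero, zero_mul] at hxe
      exact hxn (pow_eq_zero_iff (by omega) |>.1 hxe)
    obtain ⟨m, hm1, hmD, e', he', i, hm⟩ := hD x hxM hx0
    have h1 : ‖e ^ m‖ * ‖z‖ ^ (m : ℤ) = ‖e' ^ n‖ * ‖z‖ ^ (i * n) := by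
      rw [norm_pow, norm_pow, zpow_natCast, zpow_mul, zpow_natCast, ← mul_pow, ← mul_pow, ← hxe,
        ← hm, ← pow_mul, ← pow_mul, mul_comm]
    have h2 : (m : ℤ) = i * n := tam_ty hII (E.pow_mem he m) (E.pow_mem he' n)
      (pow_ne_zero _ he0) h1
    have h3 : 0 < i := by
      by_contra h4
      push Not at h4
      have h5 : i * n ≤ 0 := mul_nonpos_of_nonpos_of_nonneg h4 (Int.natCast_nonneg n)
      omega
    have h6 : (n : ℤ) ≤ m := by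
      rw [h2]
      have h7 : (0 : ℤ) ≤ n := Int.natCast_nonneg n
      nlinarith
    have h8 : n ≤ m := by exact_mod_cast h6
    exact h8.trans hmD
  obtain ⟨n, hnS, hmax⟩ : ∃ n ∈ S, ∀ n' ∈ S, n' ≤ n :=
    ⟨sSup S, Nat.sSup_mem ⟨1, hS1⟩ ⟨D, hSb⟩, fun n' hn' => le_csSup ⟨D, hSb⟩ hn'⟩
  have hnS' := hnS
  rw [hS] at hnS'
  obtain ⟨hn1, hpn, x1, hx1M, hx10, e, he, hxe⟩ := hnS'
  have hn0 : n ≠ 0 := by omega
  have hx1n : ‖x1‖ ≠ 0 := norm_ne_zero_iff.2 hx10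
  have he0 : e ≠ 0 := by
    rintro rfl
    rw [norm_zero, zero_mul] at hxe
    exact hx1n (pow_eq_zero_iff hn0 |>.1 hxe)
  have hen : ‖e‖ ≠ 0 := norm_ne_zero_iff.2 he0
  have huM : x1 ^ n / (e * z) ∈ M :=
    M.div_mem (M.pow_mem hx1M n) (M.mul_mem (hEM he) hzM)
  have hu1 : ‖x1 ^ n / (e * z)‖ = 1 := by
    rw [norm_div, norm_pow, norm_mul, hxe, div_self (mul_ne_zero hen hzn)]
  obtain ⟨c, hck, hc⟩ := ht.hh.res _ (hMH huM) hu1.le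
  have hc0 : c ≠ 0 := by
    rintro rfl
    rw [sub_zero, hu1] at hc
    exact lt_irrefl _ hc
  have hc1 : ‖c‖ = 1 := ht.hh.triv c hck hc0
  have hcE : c ∈ E := ht.kE hck
  have huc : ‖x1 ^ n / (e * z) / c - 1‖ < 1 := by
    have h1 : x1 ^ n / (e * z) / c - 1 = (x1 ^ n / (e * z) - c) / c := by
      rw [sub_div, div_self hc0]
    rw [h1, norm_div, hc1, div_one]
    exact hc
  obtain ⟨v, hvM, hv, -⟩ := root_unit p hM (M.div_mem huM (hEM hcE)) huc hpn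
  have hv1 : ‖v‖ = 1 := by
    have h1 : ‖v‖ ^ n = 1 := by
      rw [← norm_pow, hv, norm_div, hu1, hc1, div_one]
    exact (pow_eq_one_iff_of_nonneg (norm_nonneg _) hn0).1 h1
  have hv0 : v ≠ 0 := by
    rintro rfl
    rw [norm_zero] at hv1
    exact zero_ne_one hv1
  obtain ⟨z0, hz0d⟩ : ∃ z0, z0 = x1 / v := ⟨_, rfl⟩
  have hz0M : z0 ∈ M := by
    rw [hz0d]
    exact M.div_mem hx1M hvM
  have hz00 : z0 ≠ 0 := by
    rw [hz0d]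
    exact div_ne_zero hx10 hv0
  have hz0p : z0 ^ n = c * e * z := by
    rw [hz0d, div_pow, hv]
    field_simp
  have hz0n : ‖z0‖ ^ n = ‖e‖ * ‖z‖ := by
    rw [← norm_pow, hz0p, norm_mul, norm_mul, hc1, one_mul]
  have hz0nn : ‖z0‖ ≠ 0 := norm_ne_zero_iff.2 hz00
  have hTy : TyII E z0 := by
    refine ⟨hz00, ?_⟩
    intro j hj e' he' h
    have h1 : ‖e ^ j‖ * ‖z‖ ^ j = ‖e' ^ n‖ * ‖z‖ ^ (0 : ℤ) := by
      rw [norm_zpow, ← mul_zpow, ← hz0n, norm_pow, ← h, zpow_zero, mul_one, ← zpow_natCast,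
        ← zpow_natCast, ← zpow_mul, ← zpow_mul, mul_comm]
    exact hj (tam_ty hII (E.zpow_mem he j) (E.pow_mem he' n) (zpow_ne_zero _ he0) h1)
  refine ⟨z0, hz0M, hTy, ?_, ?_⟩
  · have h1 : z = z0 ^ n / (c * e) := by
      rw [hz0p]
      field_simp
    rw [h1]
    exact (cl E z0).div_mem ((cl E z0).pow_mem (mem_cl E z0) n)
      (le_cl E z0 (E.mul_mem hcE he))
  intro x hxM hx0
  have hxn : ‖x‖ ≠ 0 := norm_ne_zero_iff.2 hx0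
  have hzG : ‖z‖ = ‖(c * e)⁻¹‖ * ‖z0‖ ^ (n : ℤ) := by
    rw [zpow_natCast, hz0n, norm_inv, norm_mul, hc1, one_mul, inv_mul_cancel_left₀ hen]
  have hex : ∃ m : ℕ, 1 ≤ m ∧ ∃ e' ∈ E, ∃ i : ℤ, ‖x‖ ^ m = ‖e'‖ * ‖z0‖ ^ i := by
    obtain ⟨m, hm1, -, e', he', i, hm⟩ := hD x hxM hx0
    refine ⟨m, hm1, e' * ((c * e)⁻¹) ^ i, E.mul_mem he'
      (E.zpow_mem (E.inv_mem (E.mul_mem hcE he)) i), n * i, ?_⟩
    rw [hm, hzG, mul_zpow, ← zpow_mul, norm_mul, norm_zpow]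
    ring
  obtain ⟨m, hmdef⟩ : ∃ m, m = Nat.find hex := ⟨_, rfl⟩
  have hmspec := Nat.find_spec hex
  have hmmin : ∀ m' < m, ¬ (1 ≤ m' ∧ ∃ e' ∈ E, ∃ i : ℤ, ‖x‖ ^ m' = ‖e'‖ * ‖z0‖ ^ i) := by
    intro m' hm'
    rw [hmdef] at hm'
    exact Nat.find_min hex hm'
  rw [← hmdef] at hmspec
  obtain ⟨hm1, e', he', j, hm⟩ := hmspec
  have hmp : ∀ {d : ℕ}, Nat.Prime d → d ∣ m → d = p := by
    intro ℓ hℓ hd
    by_contra hne
    obtain ⟨m', hm'⟩ := hd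
    have hm'1 : 1 ≤ m' := by
      rcases Nat.eq_zero_or_pos m' with h | h
      · rw [h, mul_zero] at hm'
        omega
      · exact h
    have hlt : m' < m := by
      rw [hm']
      have := hℓ.two_le
      nlinarith
    have hnot := hmmin m' hlt
    have hx' : (‖x‖ ^ m') ^ ℓ = ‖e'‖ * ‖z0‖ ^ j := by
      rw [← pow_mul, mul_comm m' ℓ, ← hm', hm]
    by_cases hdj : (ℓ : ℤ) ∣ j
    · obtain ⟨j', hj'⟩ := hdj
      obtain ⟨e2, he2, he2n⟩ := ht.dvs e' he' ℓ hℓ.pos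
      refine hnot ⟨hm'1, e2, he2, j', ?_⟩
      have h1 : (‖x‖ ^ m') ^ ℓ = (‖e2‖ * ‖z0‖ ^ j') ^ ℓ := by
        rw [hx', mul_pow, he2n, hj', ← zpow_natCast (‖z0‖ ^ j'), ← zpow_mul, mul_comm j']
      exact (pow_left_inj₀ (by positivity) (by positivity) hℓ.ne_zero).1 h1
    · have hcop : IsCoprime (ℓ : ℤ) j :=
        (Irreducible.coprime_iff_not_dvd (Nat.prime_iff_prime_int.1 hℓ).irreducible).2 hdj
      obtain ⟨b, a, hab⟩ := hcop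
      have hin : ℓ * n ∈ S := by
        rw [hS]
        refine ⟨Nat.mul_pos hℓ.pos hn1, ?_, (x ^ m') ^ a * z0 ^ b,
          M.mul_mem (M.zpow_mem (M.pow_mem hxM _) _) (M.zpow_mem hz0M _),
          mul_ne_zero (zpow_ne_zero _ (pow_ne_zero _ hx0)) (zpow_ne_zero _ hz00),
          (e' ^ a) ^ n * e, E.mul_mem (E.pow_mem (E.zpow_mem he' a) n) he, ?_⟩
        · intro h
          rcases (Nat.Prime.dvd_mul hp).1 h with h | h
          · rcases (Nat.dvd_prime hℓ).1 h with h | h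
            · exact hp.one_lt.ne' h
            · exact hne h.symm
          · exact hpn h
        · have h1 : ‖(x ^ m') ^ a * z0 ^ b‖ ^ ℓ = ‖e'‖ ^ a * ‖z0‖ := by
            have g1 : ((‖x‖ ^ m') ^ a) ^ ℓ = ((‖x‖ ^ m') ^ ℓ) ^ a := by
              rw [← zpow_natCast _ ℓ, ← zpow_natCast _ ℓ, ← zpow_mul, ← zpow_mul, mul_comm a]
            have g2 : (‖z0‖ ^ b) ^ ℓ = ‖z0‖ ^ (b * ℓ) := by
              rw [← zpow_natCast _ ℓ, ← zpow_mul]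
            rw [norm_mul, norm_zpow, norm_zpow, norm_pow, mul_pow, g1, g2, hx', mul_zpow,
              ← zpow_mul, mul_assoc, ← zpow_add₀ hz0nn]
            have h2 : j * a + b * ℓ = 1 := by linarith
            rw [h2, zpow_one]
          rw [pow_mul, h1, mul_pow, hz0n, norm_mul, norm_pow, norm_zpow]
          ring
      have h3 := hmax _ hin
      have h4 := hℓ.two_le
      nlinarith
  have hm0 : m ≠ 0 := by omega
  have hmpow := Nat.eq_prime_pow_of_unique_prime_dvd hm0 hmp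
  refine ⟨m.primeFactorsList.length, e', he', j, ?_⟩
  rw [← hmpow]
  exact hm

end Pool.Agent.R4U
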