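import Pool.Agent.Lib.MP_4ed7e0_lc_U.Defs

/-!
# MP_4ed7e0_lc, project U: wild automorphism groups are `p`-groups
-/

set_option autoImplicit false

namespace Pool.Agent.R4U

universe u v

variable {Ω : Type u} [NormedField Ω] [IsUltrametricDist Ω]

private theorem wild_norm (p : ℕ) [Fact p.Prime] [CharP Ω p] {l : ℕ} (hl : l.Prime)
    (hne : l ≠ p) : ‖((l : ℕ) : Ω)‖ = 1 := by
  have hp : p.Prime := Fact.out
  have hcop : Nat.Coprime l p := (Nat.coprime_primes hl hp).2 hne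
  obtain ⟨m, -, hm⟩ := Nat.exists_mul_mod_eq_one_of_coprime hcop hp.one_lt
  have h1 : ((l : ℕ) : Ω) * ((m : ℕ) : Ω) = 1 := by
    have e := CharP.cast_eq_mod Ω p (l * m)
    rw [hm] at e
    rw [← Nat.cast_mul, e, Nat.cast_one]
  have h2 : ‖((l : ℕ) : Ω)‖ * ‖((m : ℕ) : Ω)‖ = 1 := by
    rw [← norm_mul, h1, norm_one]
  have h3 : ‖((l : ℕ) : Ω)‖ ≤ 1 := IsUltrametricDist.norm_natCast_le_one Ω l
  have h4 : ‖((m : ℕ) : Ω)‖ ≤ 1 := IsUltrametricDist.norm_natCast_le_one Ω m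
  refine le_antisymm h3 ?_
  have h5 : ‖((l : ℕ) : Ω)‖ * ‖((m : ℕ) : Ω)‖ ≤ ‖((l : ℕ) : Ω)‖ * 1 :=
    mul_le_mul_of_nonneg_left h4 (norm_nonneg _)
  linarith

/-- Proof. If not, then by Cauchy's theorem there is `g ∈ G` of prime order `ℓ ≠ p`
(`IsPGroup`: order not a power of `p`, `exists_prime_orderOf_dvd_card`). As `G` acts faithfully
there is `x ∈ M` with `g • x ≠ x`. Let `T = ∑ i < ℓ, g ^ i • x` and `y = ℓ • x - T`. `T` is fixed
by `g`, so `y ≠ 0` (otherwise `ℓ • x`, and so `x`, would be fixed; `ℓ ≠ 0` in `M` of characteristic `p`) and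
`∑ i < ℓ, g ^ i • y = ℓ • T - ℓ • T = 0`. But `g ^ i • y = y + δ i` with `‖δ i‖ < ‖y‖` (hypothesis
for `g ^ i`), so the sum is `ℓ • y + ∑ δ i` of norm `‖ℓ • y‖ = ‖y‖ ≠ 0`
(`‖(ℓ : Ω)‖ = 1`: a nonzero element of the prime field is a root of unity). -/
theorem wild (p : ℕ) [Fact p.Prime] [CharP Ω p] {M : Subfield Ω} {G : Type v} [Group G] [Finite G]
    [MulSemiringAction G M] [FaithfulSMul G M]
    (h : ∀ (g : G) (x : M), x ≠ 0 → ‖((g • x - x : M) : Ω)‖ < ‖(x : Ω)‖) : IsPGroup p G := by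
  classical
  rw [IsPGroup.iff_card]
  by_contra hcon
  have hex : ∃ l : ℕ, l.Prime ∧ l ∣ Nat.card G ∧ l ≠ p := by
    by_contra hno
    push Not at hno
    exact hcon ⟨_, Nat.eq_prime_pow_of_unique_prime_dvd Nat.card_pos.ne'
      (fun {d} hd hdv => hno d hd hdv)⟩
  obtain ⟨l, hl, hdvd, hne⟩ := hex
  have : Fact l.Prime := ⟨hl⟩
  obtain ⟨g, hg⟩ := exists_prime_orderOf_dvd_card' l hdvd
  have hnorm : ‖((l : ℕ) : Ω)‖ = 1 := wild_norm p hl hne
  have hl0 : ((l : ℕ) : Ω) ≠ 0 := by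
    intro h0
    rw [h0, norm_zero] at hnorm
    exact zero_ne_one hnorm
  have hg1 : ∃ x : M, g • x ≠ x := by
    by_contra hno
    push Not at hno
    have e : g = 1 := FaithfulSMul.eq_of_smul_eq_smul (α := M) fun x => by
      rw [hno x, one_smul]
    rw [e, orderOf_one] at hg
    exact hl.one_lt.ne hg
  obtain ⟨x, hx⟩ := hg1
  have hgl : g ^ l = 1 := by
    rw [← hg]
    exact pow_orderOf_eq_one g
  obtain ⟨T, hT⟩ : ∃ T : M, T = ∑ i ∈ Finset.range l, g ^ i • x := ⟨_, rfl⟩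
  have hgT : g • T = T := by
    have h1 : g • T = ∑ i ∈ Finset.range l, g ^ (i + 1) • x := by
      rw [hT, Finset.smul_sum]
      refine Finset.sum_congr rfl fun i _ => ?_
      rw [smul_smul, pow_succ']
    have h2 := Finset.sum_range_succ (fun i => g ^ i • x) l
    have h3 := Finset.sum_range_succ' (fun i => g ^ i • x) l
    rw [h2] at h3
    simp only [hgl, one_smul, pow_zero] at h3
    rw [h1, hT]
    exact (add_right_cancel h3).symm
  have hgTi : ∀ i : ℕ, g ^ i • T = T := by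
    intro i
    induction i with
    | zero => rw [pow_zero, one_smul]
    | succ i ih => rw [pow_succ, mul_smul, hgT, ih]
  obtain ⟨y, hy⟩ : ∃ y : M, y = ((l : ℕ) : M) * x - T := ⟨_, rfl⟩
  have hsm : ∀ (k : G) (n : ℕ), k • ((n : ℕ) : M) = ((n : ℕ) : M) := by
    intro k n
    induction n with
    | zero => rw [Nat.cast_zero, smul_zero]
    | succ n ih => rw [Nat.cast_succ, smul_add, ih, smul_one]
  have hlM : ((l : ℕ) : M) ≠ 0 := by
    intro h0
    apply hl0
    have := congrArg (fun z : M => (z : Ω)) h0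
    simpa using this
  have hy0 : y ≠ 0 := by
    intro h0
    rw [hy, sub_eq_zero] at h0
    apply hx
    have h1 : g • (((l : ℕ) : M) * x) = ((l : ℕ) : M) * x := by
      rw [h0, hgT]
    rw [smul_mul', hsm] at h1
    exact mul_left_cancel₀ hlM h1
  have hsum : ∑ i ∈ Finset.range l, g ^ i • y = 0 := by
    have h1 : ∀ i ∈ Finset.range l, g ^ i • y = ((l : ℕ) : M) * (g ^ i • x) - T := by
      intro i _
      rw [hy, smul_sub, smul_mul', hsm, hgTi]
    rw [Finset.sum_congr rfl h1, Finset.sum_sub_distrib, ← Finset.mul_sum, ← hT,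
      Finset.sum_const, Finset.card_range, nsmul_eq_mul, sub_self]
  have hyΩ : (y : Ω) ≠ 0 := by
    intro h0
    exact hy0 (Subtype.ext h0)
  have hpos : 0 < ‖(y : Ω)‖ := norm_pos_iff.2 hyΩ
  have hdel : ‖∑ i ∈ Finset.range l, ((g ^ i • y - y : M) : Ω)‖ < ‖(y : Ω)‖ := by
    refine Finset.sum_induction (fun i => ((g ^ i • y - y : M) : Ω))
      (fun z => ‖z‖ < ‖(y : Ω)‖) ?_ ?_ ?_
    · intro a b ha hb
      exact lt_of_le_of_lt (IsUltrametricDist.norm_add_le_max a b) (max_lt ha hb)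
    · rw [norm_zero]
      exact hpos
    · intro i _
      exact h (g ^ i) y hy0
  have hfin : ∑ i ∈ Finset.range l, ((g ^ i • y - y : M) : Ω) = -(((l : ℕ) : Ω) * (y : Ω)) := by
    have h1 : (∑ i ∈ Finset.range l, (g ^ i • y - y) : M) = -(((l : ℕ) : M) * y) := by
      rw [Finset.sum_sub_distrib, hsum, Finset.sum_const, Finset.card_range, nsmul_eq_mul,
        zero_sub]
    have h2 := congrArg (fun z : M => (z : Ω)) h1
    simp only [AddSubmonoidClass.coe_finsetSum] at h2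
    rw [h2]
    push_cast
    rfl
  rw [hfin, norm_neg, norm_mul, hnorm, one_mul] at hdel
  exact lt_irrefl _ hdel

end Pool.Agent.R4U
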