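import Pool.Agent.Lib.MP_4ed7e0_lc_U.GalM
import Pool.Agent.Lib.MP_4ed7e0_lc_U.Tam
import Pool.Agent.Lib.MP_4ed7e0_lc_U.Wild
import Pool.Agent.Lib.MP_4ed7e0_lc_U.PTow

/-!
# MP_4ed7e0_lc, project U: after a finite extension of `k` the Galois closure is rational
-/

set_option autoImplicit false

namespace Pool.Agent.R4U

universe u

variable {Ω : Type u} [NormedField Ω] [IsUltrametricDist Ω]

omit [IsUltrametricDist Ω] in
private theorem galP_le {N : Subfield Ω} (M : IntermediateField N Ω) : N ≤ M.toSubfield :=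
  fun x hx => M.algebraMap_mem ⟨x, hx⟩

omit [IsUltrametricDist Ω] in
private theorem galP_isClosed_cl (A : Subfield Ω) (x : Ω) : IsClosed (cl A x : Set Ω) :=
  Subfield.isClosed_topologicalClosure _

omit [IsUltrametricDist Ω] in
private theorem galP_alg {N : Subfield Ω} (M : IntermediateField N Ω) [FiniteDimensional N M]
    {x : Ω} (hx : x ∈ M) : IsAlgebraic N x := by
  have h1 : IsAlgebraic N (⟨x, hx⟩ : M) := Algebra.IsAlgebraic.isAlgebraic _
  exact h1.algebraMap (A := Ω)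

omit [IsUltrametricDist Ω] in
private theorem galP_deg {N : Subfield Ω} (M : IntermediateField N Ω) [FiniteDimensional N M]
    {x : Ω} (hx : x ∈ M) : (minpoly N x).natDegree ≤ Module.finrank N M := by
  have h1 := minpoly.natDegree_le (A := N) (⟨x, hx⟩ : M)
  rwa [IntermediateField.minpoly_eq] at h1

private theorem galP_iso [CompleteSpace Ω] {N : Subfield Ω} (hN : IsClosed (N : Set Ω))
    (hnt : ∃ a ∈ N, 1 < ‖a‖) (M : IntermediateField N Ω) [FiniteDimensional N M]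
    (σ : M ≃ₐ[N] M) (x : M) : ‖((σ x : M) : Ω)‖ = ‖(x : Ω)‖ := by
  refine norm_conj hN hnt (galP_alg M x.2) ?_
  have h1 : minpoly N (x : Ω) = minpoly N x := (IntermediateField.minpoly_eq x).symm
  rw [h1]
  have h2 : ((σ x : M) : Ω) = (M.val.comp (σ : M →ₐ[N] M)) x := rfl
  rw [h2, Polynomial.aeval_algHom_apply, minpoly.aeval, map_zero]

omit [IsUltrametricDist Ω] in
/-- The fixed elements. -/
private theorem galP_fix {N : Subfield Ω} (M : IntermediateField N Ω) [FiniteDimensional N M]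
    [IsGalois N M] (S : Set M) (C : Subfield Ω) (hNC : N ≤ C) (hSC : ∀ s ∈ S, (s : Ω) ∈ C)
    (hC : ∀ L : IntermediateField N Ω, FiniteDimensional N L → (∀ s ∈ S, (s : Ω) ∈ L) →
      ∀ x ∈ C, x ∈ L) (x : M) :
    (∀ g ∈ (IntermediateField.adjoin N S).fixingSubgroup, g x = x) ↔ (x : Ω) ∈ C := by
  have h1 : (∀ g ∈ (IntermediateField.adjoin N S).fixingSubgroup, g x = x) ↔
      x ∈ IntermediateField.adjoin N S := by
    have h2 := IsGalois.fixedField_fixingSubgroup (IntermediateField.adjoin N S)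
    constructor
    · intro h
      rw [← h2, IntermediateField.mem_fixedField_iff]
      exact h
    · intro h g hg
      exact (IntermediateField.mem_fixingSubgroup_iff _ g).1 hg x h
  rw [h1]
  constructor
  · intro h
    let C' : IntermediateField N M :=
      (C.comap (algebraMap M Ω)).toIntermediateField fun n => by
        rw [Subfield.mem_comap]
        exact hNC n.2
    have h2 : IntermediateField.adjoin N S ≤ C' := by
      rw [IntermediateField.adjoin_le_iff]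
      intro s hs
      exact hSC s hs
    exact h2 h
  · intro h
    have h2 := hC (IntermediateField.lift (IntermediateField.adjoin N S))
      (LinearEquiv.finiteDimensional
        (IntermediateField.liftAlgEquiv (IntermediateField.adjoin N S)).toLinearEquiv)
      (fun s hs => (IntermediateField.mem_lift s).2 (IntermediateField.subset_adjoin N S hs))
      x h
    exact (IntermediateField.mem_lift x).1 h2

/-- The starting point of the tower.

Proof. Write `k' = adj k θ`, `E' = adj E θ`, `H' = adj H θ`; `Tame p k' E' H'` (`Tame.bc`) and `z` has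
over `E'` the same type as over `E` (`Ty.bc`). `M` is closed (`closed_fin`). Type I: `z0 = z`. For
`x ∈ M` nonzero `val_alg` gives `‖x‖ ^ n = ‖u‖`, `n ≥ 1`, `u ∈ cl E z`, `valI` gives `‖u‖ = ‖e‖`,
`e ∈ E`, and `Tame.dvs` `‖e‖ = ‖e'‖ ^ n`; so `‖x‖ = ‖e'‖`, `s = 0`. Type II: `tam` for `(k', E', H')`
and `M`, with `D` the degree of `M` over `cl E z`: by `val_alg` `‖x‖ ^ n = ‖u‖`,
`1 ≤ n ≤ natDegree ≤ D`, and `‖u‖ = ‖e‖ * ‖z‖ ^ i` by `valII`. Then `e * z0 ^ i ∈ cl E' z0`. -/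
theorem galZ {p : ℕ} [Fact p.Prime] [CharP Ω p] [IsAlgClosed Ω] [CompleteSpace Ω]
    {k E H : Subfield Ω} (ht : Tame p k E H) {z : Ω} (hz : z ∈ H) (hT : Ty E z) {θ : Ω}
    (hθ : θ ∈ abar k) (M : IntermediateField (cl E z) Ω) [FiniteDimensional (cl E z) M]
    (hθM : θ ∈ M) (hMH : ∀ x ∈ M, x ∈ adj H θ) :
    ∃ z0 ∈ M, Ty (adj E θ) z0 ∧ z ∈ cl (adj E θ) z0 ∧ (∀ x ∈ cl (adj E θ) z0, x ∈ M) ∧
      ∀ x ∈ M, x ≠ 0 → ∃ s : ℕ, ∃ n ∈ cl (adj E θ) z0, ‖x‖ ^ (p ^ s) = ‖n‖ := by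
  have hcl := galP_isClosed_cl E z
  have hM := closed_fin hcl hT.nontriv M
  have hNM := galP_le M
  have hzM : z ∈ M.toSubfield := hNM (mem_cl E z)
  have hEM : adj E θ ≤ M.toSubfield := adj_le ((le_cl E z).trans hNM) hθM
  have hE' := le_adj E θ
  rcases hT with hI | hII
  · refine ⟨z, hzM, Or.inl ((Ty.bc ht hθ hz).1 hI), mem_cl _ _,
      fun x hx => cl_le hM hEM hzM hx, fun x hx h0 => ?_⟩
    obtain ⟨n, hn1, -, u, hu, hxu⟩ := val_alg (galP_alg M hx) h0
    have hu0 : u ≠ 0 := by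
      intro h
      rw [h, norm_zero] at hxu
      exact h0 (norm_eq_zero.1 (pow_eq_zero_iff (by omega) |>.1 hxu))
    obtain ⟨e, he, heu⟩ := valI ht hz hI hu hu0
    obtain ⟨e', he', hee⟩ := ht.dvs e he n (by omega)
    refine ⟨0, e', le_cl _ _ (hE' he'), ?_⟩
    rw [pow_zero, pow_one]
    refine (pow_left_inj₀ (norm_nonneg _) (norm_nonneg _) (by omega : n ≠ 0)).1 ?_
    rw [hxu, hee, heu]
  · obtain ⟨z0, hz0, hT0, hzz, hv⟩ := tam (ht.bc hθ) ((Ty.bc ht hθ hz).2 hII) (M := M.toSubfield)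
      hM hEM (fun x hx => hMH x hx) hzM (D := Module.finrank (cl E z) M) (by
        intro x hx h0
        obtain ⟨n, hn1, hn2, u, hu, hxu⟩ := val_alg (galP_alg M hx) h0
        have hu0 : u ≠ 0 := by
          intro h
          rw [h, norm_zero] at hxu
          exact h0 (norm_eq_zero.1 (pow_eq_zero_iff (by omega) |>.1 hxu))
        obtain ⟨e, he, -, i, hi⟩ := valII hII hu hu0
        exact ⟨n, hn1, hn2.trans (galP_deg M hx), e, hE' he, i, by rw [hxu, hi]⟩)
    refine ⟨z0, hz0, Or.inr hT0, hzz, fun x hx => cl_le hM hEM hz0 hx, fun x hx h0 => ?_⟩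
    obtain ⟨s, e, he, i, h⟩ := hv x hx h0
    refine ⟨s, e * z0 ^ i, mul_mem (le_cl _ _ he) (zpow_mem (mem_cl _ _) i), ?_⟩
    rw [h, norm_mul, norm_zpow]

/-- After adjoining `θ` the Galois closure is rational.

Proof. Let `N = cl E z`, `θ`, `M` as in `galM`, `k' = adj k θ` etc. as in `galZ`, and `z0` from
`galZ`. Let `G` be the subgroup of `Gal(M/N)` of all `σ` with `σ θ = θ` and `σ z0 = z0`. Its fixed
field is `N(θ, z0)` (Galois correspondence), and as a set this is `cl E' z0`: `N ≤ cl E' z0` by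
`cl_le`, `θ ∈ E'`; conversely `N(θ, z0)` is closed (`closed_fin`) and contains `E'` and `z0`.
All `σ ∈ G` are isometric (`norm_hom` for `N`). For `x ∈ M` nonzero and `σ ∈ G` let
`‖x‖ ^ q = ‖n‖`, `q = p ^ s`, `n ∈ cl E' z0`; `u = x ^ q / n` has norm one and lies in `adj H θ`, so
there is `c ∈ k'` with `‖u - c‖ < 1` (`HH.bc`), `σ c = c`; hence `‖σ u - u‖ < 1` and
`(σ x - x) ^ q = σ (x ^ q) - x ^ q = n * (σ u - u)` has norm less than `‖x‖ ^ q`. So
`‖σ x - x‖ < ‖x‖` and `G` is a `p`-group by `wild`. By `ptow` for `(k', E', H')`, the action of `G`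
on the subfield `M`, we get `M = cl E' ζ`. The stability: `f` restricted to `M` fixes `N ≤ H`, and
`M` is normal over `N`. -/
theorem galP {p : ℕ} [Fact p.Prime] [CharP Ω p] [IsAlgClosed Ω] [CompleteSpace Ω]
    {k E H : Subfield Ω} (ht : Tame p k E H) {z : Ω} (hz : z ∈ H) (hT : Ty E z) {y : Ω}
    (hy : y ∈ H) (hsep : IsSeparable (cl E z) y) : ∃ θ ∈ abar k, NormalG k θ ∧
      ∃ M : Subfield Ω, y ∈ M ∧ z ∈ M ∧ M ≤ adj H θ ∧ adj E θ ≤ M ∧
        (∀ f : ↥(adj H θ) →+* Ω, FixH H θ f → ∀ x : ↥(adj H θ), (x : Ω) ∈ M → f x ∈ M) ∧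
        ∃ ζ ∈ adj H θ, Ty (adj E θ) ζ ∧ M = cl (adj E θ) ζ := by
  obtain ⟨θ, hθ, hn, M, hfd, hgal, hθM, hyM, hMH⟩ := galM ht hz hy hsep
  obtain ⟨z0, hz0, hT0, hzz, hclM, hv⟩ := galZ ht hz hT hθ M hθM hMH
  have hcl := galP_isClosed_cl E z
  have hnt := hT.nontriv
  have hNM := galP_le M
  have hzM : z ∈ M.toSubfield := hNM (mem_cl E z)
  have hEM : adj E θ ≤ M.toSubfield := adj_le ((le_cl E z).trans hNM) hθM
  have ht' := ht.bc hθ
  have hNH : cl E z ≤ H := cl_le ht.hh.closed ht.EH hz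
  have hNC : cl E z ≤ cl (adj E θ) z0 :=
    cl_le (galP_isClosed_cl _ _) ((le_adj E θ).trans (le_cl _ _)) hzz
  -- the group
  obtain ⟨S, hS⟩ : ∃ S : Set M, S = {⟨θ, hθM⟩, ⟨z0, hz0⟩} := ⟨_, rfl⟩
  have hfix : ∀ x : M, (∀ g ∈ (IntermediateField.adjoin (cl E z) S).fixingSubgroup, g x = x) ↔
      (x : Ω) ∈ cl (adj E θ) z0 := by
    intro x
    refine galP_fix M S (cl (adj E θ) z0) hNC ?_ ?_ x
    · intro s hs
      rw [hS] at hs
      rcases hs with rfl | hs
      · exact le_cl _ _ (mem_adj E θ)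
      · rw [Set.mem_singleton_iff] at hs
        rw [hs]
        exact mem_cl _ _
    · intro L hL hSL x hx
      have h1 : θ ∈ L.toSubfield := hSL ⟨θ, hθM⟩ (by rw [hS]; exact Or.inl rfl)
      have h2 : z0 ∈ L.toSubfield := hSL ⟨z0, hz0⟩ (by rw [hS]; exact Or.inr rfl)
      have h3 : IsClosed (L.toSubfield : Set Ω) := closed_fin hcl hnt L
      exact cl_le h3 (adj_le ((le_cl E z).trans (galP_le L)) h1) h2 hx
  obtain ⟨G, hG⟩ : ∃ G : Subgroup (M ≃ₐ[cl E z] M),
      G = (IntermediateField.adjoin (cl E z) S).fixingSubgroup := ⟨_, rfl⟩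
  rw [← hG] at hfix
  -- the wildness
  have hwild : ∀ g ∈ G, ∀ x : M, x ≠ 0 → ‖((g x - x : M) : Ω)‖ < ‖(x : Ω)‖ := by
    intro g hg x hx0
    have hx0' : (x : Ω) ≠ 0 := fun h => hx0 (Subtype.ext h)
    obtain ⟨s, n, hn, hxn⟩ := hv x x.2 hx0'
    have hq : 0 < ‖(x : Ω)‖ ^ (p ^ s) := pow_pos (norm_pos_iff.2 hx0') _
    have hn0 : n ≠ 0 := by
      intro h
      rw [h, norm_zero] at hxn
      rw [hxn] at hq
      exact lt_irrefl _ hq
    have hgn : g ⟨n, hclM n hn⟩ = ⟨n, hclM n hn⟩ := (hfix ⟨n, hclM n hn⟩).2 hn g hg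
    obtain ⟨u, hu⟩ : ∃ u : M, u = x ^ (p ^ s) / ⟨n, hclM n hn⟩ := ⟨_, rfl⟩
    have hn0' : (⟨n, hclM n hn⟩ : M) ≠ 0 := fun h => hn0 (congrArg Subtype.val h)
    have hxu : x ^ (p ^ s) = ⟨n, hclM n hn⟩ * u := by
      rw [hu, mul_div_cancel₀ _ hn0']
    have hu1 : ‖(u : Ω)‖ = 1 := by
      have h1 : (x : Ω) ^ (p ^ s) = n * (u : Ω) := congrArg Subtype.val hxu
      have h2 := congrArg norm h1
      rw [norm_pow, norm_mul, hxn] at h2
      have h3 : ‖n‖ ≠ 0 := norm_ne_zero_iff.2 hn0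
      field_simp at h2
      exact h2.symm
    obtain ⟨c, hc, huc⟩ := ht'.hh.res (u : Ω) (hMH u u.2) hu1.le
    have hcC : c ∈ cl (adj E θ) z0 := le_cl _ _ (ht'.kE hc)
    have hgc : g ⟨c, hclM c hcC⟩ = ⟨c, hclM c hcC⟩ := (hfix ⟨c, hclM c hcC⟩).2 hcC g hg
    have h4 : ‖((g u : M) : Ω) - c‖ < 1 := by
      have h5 := galP_iso hcl hnt M g (u - ⟨c, hclM c hcC⟩)
      rw [map_sub, hgc] at h5
      have h6 : (((g u : M) - ⟨c, hclM c hcC⟩ : M) : Ω) = ((g u : M) : Ω) - c := rfl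
      have h7 : ((u - ⟨c, hclM c hcC⟩ : M) : Ω) = (u : Ω) - c := rfl
      rw [h6, h7] at h5
      rw [h5]
      exact huc
    have h8 : ‖((g u : M) : Ω) - (u : Ω)‖ < 1 := by
      have h9 : ((g u : M) : Ω) - (u : Ω) = (((g u : M) : Ω) - c) + (c - (u : Ω)) := by ring
      rw [h9]
      refine lt_of_le_of_lt (IsUltrametricDist.norm_add_le_max _ _) (max_lt h4 ?_)
      rw [norm_sub_rev]
      exact huc
    have h10 : (((g x : M) : Ω) - (x : Ω)) ^ (p ^ s) = n * (((g u : M) : Ω) - (u : Ω)) := by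
      rw [sub_pow_char_pow]
      have h11 : (g x : M) ^ (p ^ s) = ⟨n, hclM n hn⟩ * g u := by
        rw [← map_pow, hxu, map_mul, hgn]
      have h12 : ((g x : M) : Ω) ^ (p ^ s) = n * ((g u : M) : Ω) := congrArg Subtype.val h11
      have h13 : (x : Ω) ^ (p ^ s) = n * (u : Ω) := congrArg Subtype.val hxu
      rw [h12, h13]
      ring
    have h14 : ‖((g x : M) : Ω) - (x : Ω)‖ ^ (p ^ s) < ‖(x : Ω)‖ ^ (p ^ s) := by
      rw [← norm_pow, h10, norm_mul, hxn]
      have h3 : 0 < ‖n‖ := norm_pos_iff.2 hn0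
      calc ‖n‖ * ‖((g u : M) : Ω) - (u : Ω)‖ < ‖n‖ * 1 := mul_lt_mul_of_pos_left h8 h3
        _ = ‖n‖ := mul_one _
    have h15 := lt_of_pow_lt_pow_left₀ _ (norm_nonneg _) h14
    exact h15
  -- the action on the subfield
  let act : MulSemiringAction G M.toSubfield :=
    { smul := fun g x => ⟨((g : M ≃ₐ[cl E z] M) ⟨x.1, x.2⟩ : M).1, (g.1 ⟨x.1, x.2⟩ : M).2⟩
      one_smul := fun x => rfl
      mul_smul := fun g h x => rfl
      smul_zero := fun g => Subtype.ext (congrArg Subtype.val (map_zero g.1))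
      smul_add := fun g x y =>
        Subtype.ext (congrArg Subtype.val (map_add g.1 (⟨x.1, x.2⟩ : M) ⟨y.1, y.2⟩))
      smul_one := fun g => Subtype.ext (congrArg Subtype.val (map_one g.1))
      smul_mul := fun g x y =>
        Subtype.ext (congrArg Subtype.val (map_mul g.1 (⟨x.1, x.2⟩ : M) ⟨y.1, y.2⟩)) }
  have hfaith : FaithfulSMul G M.toSubfield := by
    refine ⟨fun {g h} hgh => ?_⟩
    apply Subtype.ext
    apply AlgEquiv.ext
    intro x
    have h1 := hgh ⟨x.1, x.2⟩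
    exact Subtype.ext (congrArg Subtype.val h1)
  have hpG : IsPGroup p G := by
    refine wild p (M := M.toSubfield) fun g x hx => ?_
    exact hwild g.1 g.2 ⟨x.1, x.2⟩ fun h => hx (Subtype.ext (congrArg Subtype.val h))
  obtain ⟨z1, hz1, hT1, hM1⟩ := ptow ht' (hMH z0 hz0) hT0 (M := M.toSubfield)
    (fun x hx => hMH x hx) (fun x hx => hclM x hx) hpG (by
      intro x
      rw [← hfix ⟨x.1, x.2⟩]
      constructor
      · intro h g hg
        exact Subtype.ext (congrArg Subtype.val (h ⟨g, hg⟩))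
      · intro h g
        exact Subtype.ext (congrArg Subtype.val (h g.1 g.2)))
  refine ⟨θ, hθ, hn, M.toSubfield, hyM, hzM, fun x hx => hMH x hx, hEM, ?_, z1, hz1, hT1, hM1⟩
  intro f hf x hx
  have hnorm : Normal (cl E z) M := hgal.to_normal
  let φ : M →ₐ[cl E z] Ω :=
    { toFun := fun w => f ⟨w.1, hMH w.1 w.2⟩
      map_one' := map_one f
      map_mul' := fun a b => map_mul f ⟨a.1, hMH a.1 a.2⟩ ⟨b.1, hMH b.1 b.2⟩
      map_zero' := map_zero f
      map_add' := fun a b => map_add f ⟨a.1, hMH a.1 a.2⟩ ⟨b.1, hMH b.1 b.2⟩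
      commutes' := fun a => hf ⟨a.1, hMH a.1 (hNM a.2)⟩ (hNH a.2) }
  have h1 : φ.fieldRange = M := AlgHom.fieldRange_of_normal φ
  have h2 : φ ⟨x.1, hx⟩ ∈ φ.fieldRange := ⟨_, rfl⟩
  rw [h1] at h2
  exact h2

end Pool.Agent.R4U
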