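import Pool.Agent.Lib.MP_4ed7e0_lc_U.TameL

/-!
# MP_4ed7e0_lc, project U: reduction to separable elements
-/

set_option autoImplicit false

namespace Pool.Agent.R4U

universe u

variable {Ω : Type u} [NormedField Ω] [IsUltrametricDist Ω]

omit [IsUltrametricDist Ω] in
private theorem insep_root {p : ℕ} {A : Subfield Ω} (hA : Perf p A) (n : ℕ) :
    ∀ x ∈ A, ∃ y ∈ A, y ^ p ^ n = x := by
  induction n with
  | zero => exact fun x hx => ⟨x, hx, by rw [pow_zero, pow_one]⟩
  | succ n ih =>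
    intro x hx
    obtain ⟨y, hy, hyx⟩ := ih x hx
    obtain ⟨w, hw, hwy⟩ := hA y hy
    refine ⟨w, hw, ?_⟩
    rw [pow_succ', pow_mul, hwy, hyx]

omit [IsUltrametricDist Ω] in
private theorem insep_norm {p : ℕ} [Fact p.Prime] [CharP Ω p] (n : ℕ) (x y : Ω) :
    ‖x ^ p ^ n - y ^ p ^ n‖ = ‖x - y‖ ^ p ^ n := by
  rw [← sub_pow_char_pow, norm_pow]

omit [IsUltrametricDist Ω] in
/-- Every element of `cl E z` has a `p ^ n`-th root in `cl E z'`. -/
private theorem insep_cl {p : ℕ} [Fact p.Prime] [CharP Ω p] [IsAlgClosed Ω] {E : Subfield Ω}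
    (hE : Perf p E) {z z' : Ω} {n : ℕ} (hz : z' ^ p ^ n = z) :
    ∀ x ∈ cl E z, ∃ y ∈ cl E z', y ^ p ^ n = x := by
  have hp := (Fact.out : p.Prime)
  have hq : p ^ n ≠ 0 := pow_ne_zero _ hp.ne_zero
  obtain ⟨S, hS⟩ : ∃ S : Subfield Ω, S = (cl E z').map (iterateFrobenius Ω p n) := ⟨_, rfl⟩
  have hmem : ∀ x, x ∈ S ↔ ∃ y ∈ cl E z', y ^ p ^ n = x := by
    intro x
    rw [hS, Subfield.mem_map]
    rfl
  have hcl : IsClosed (S : Set Ω) := by
    rw [← closure_subset_iff_isClosed]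
    intro x hx
    obtain ⟨w, hw⟩ := IsAlgClosed.exists_pow_nat_eq x (Nat.pos_of_ne_zero hq)
    have hwc : w ∈ closure ((cl E z' : Subfield Ω) : Set Ω) := by
      rw [Metric.mem_closure_iff] at hx ⊢
      intro ε hε
      obtain ⟨s, hs, hs1⟩ := hx (ε ^ p ^ n) (pow_pos hε _)
      obtain ⟨y, hy, hys⟩ := (hmem s).1 hs
      refine ⟨y, hy, ?_⟩
      rw [dist_eq_norm] at hs1 ⊢
      rw [← hw, ← hys, insep_norm] at hs1
      exact lt_of_pow_lt_pow_left₀ _ hε.le hs1
    have hc : IsClosed ((cl E z' : Subfield Ω) : Set Ω) :=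
      Subfield.isClosed_topologicalClosure _
    rw [hc.closure_eq] at hwc
    exact (hmem x).2 ⟨w, hwc, hw⟩
  have hle : adj E z ≤ S := by
    refine Subfield.closure_le.2 ?_
    rintro x (hx | hx)
    · obtain ⟨y, hy, hyx⟩ := insep_root hE n x hx
      exact (hmem x).2 ⟨y, Subfield.le_topologicalClosure _
        (Subfield.subset_closure (Or.inl hy)), hyx⟩
    · rw [Set.mem_singleton_iff] at hx
      rw [hx]
      exact (hmem z).2 ⟨z', Subfield.le_topologicalClosure _
        (Subfield.subset_closure (Or.inr rfl)), hz⟩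
  intro x hx
  exact (hmem x).1 (Subfield.topologicalClosure_minimal _ hle hcl hx)

omit [IsUltrametricDist Ω] in
private theorem insep_ty {p : ℕ} [Fact p.Prime] [CharP Ω p] {E : Subfield Ω}
    (hE : Perf p E) {z z' : Ω} {n : ℕ} (hz : z' ^ p ^ n = z) (hT : Ty E z) : Ty E z' := by
  have hp := (Fact.out : p.Prime)
  have hq : p ^ n ≠ 0 := pow_ne_zero _ hp.ne_zero
  rcases hT with ⟨h1, h2⟩ | ⟨h1, h2⟩
  · left
    refine ⟨fun h => h1 (hz ▸ E.pow_mem h _), fun e he => ?_⟩
    obtain ⟨e', he', hlt⟩ := h2 (e ^ p ^ n) (E.pow_mem he _)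
    obtain ⟨f, hf, hfe⟩ := insep_root hE n e' he'
    refine ⟨f, hf, ?_⟩
    rw [← hz, ← hfe, insep_norm, insep_norm] at hlt
    exact lt_of_pow_lt_pow_left₀ _ (norm_nonneg _) hlt
  · right
    refine ⟨?_, fun m hm e he h => ?_⟩
    · rintro rfl
      rw [zero_pow hq] at hz
      exact h1 hz.symm
    · refine h2 m hm (e ^ p ^ n) (E.pow_mem he _) ?_
      rw [← hz, norm_pow, norm_pow, ← h, ← zpow_natCast, ← zpow_natCast, ← zpow_mul, ← zpow_mul,
        mul_comm]

/-- After replacing `z` by a `p ^ m`-th root `z'` the algebraic element `y` becomes separable.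

Proof. Let `N = cl E z`. There is `m` such that `y ^ p ^ m` is separable over `N`
(`IsSeparable`, `exists_separable_of...`, `minpoly`: `Polynomial.exists_separable_of_irreducible`).
Let `q = p ^ m` and `z' ∈ H` with `z' ^ q = z` (`HH.perf`). Type I: `z' ∉ E`; for `e ∈ E` there is
`e' ∈ E` with `‖z - e'‖ < ‖z - e ^ q‖`, `e' = e'' ^ q` (`Tame.perf`), and
`‖z' - e''‖ ^ q = ‖z - e'‖`, `‖z' - e‖ ^ q = ‖z - e ^ q‖`. Type II: `‖z'‖ ^ q = ‖z‖`.
Let `N' = cl E z'`; `z ∈ N'`, `N ≤ N'`. Every `x ∈ N` has a `q`-th root in `N'`: the set of the `x` with a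
`q`-th root in `N'` is a subfield, closed (if `x n = (y n) ^ q` converges then `y n` is a Cauchy
sequence, `‖y n - y m‖ ^ q = ‖x n - x m‖`, and `N'` is closed), and contains `E` (perfect) and `z`.
Let `P` be the minimal polynomial of `y ^ q` over `N`, separable, and `P'` the polynomial over
`N'` whose coefficients are the `q`-th roots; `P'(y) ^ q = P(y ^ q) = 0`, and `P'` is separable
(`P = P' ` mapped by the injective homomorphism `x ↦ x ^ q`: `Polynomial.separable_map`). So `y` is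
separable over `N'`. -/
theorem insep {p : ℕ} [Fact p.Prime] [CharP Ω p] [IsAlgClosed Ω] {k E H : Subfield Ω}
    (ht : Tame p k E H) {z : Ω} (hz : z ∈ H) (hT : Ty E z) {y : Ω}
    (halg : IsAlgebraic (cl E z) y) :
    ∃ z' ∈ H, Ty E z' ∧ z ∈ cl E z' ∧ IsSeparable (cl E z') y := by
  have hp := (Fact.out : p.Prime)
  have : CharP (cl E z) p := ((cl E z).subtype.charP_iff_charP p).2 inferInstance
  have hint : IsIntegral (cl E z) y := halg.isIntegral
  obtain ⟨n, g, hg, hgf⟩ := Polynomial.exists_separable_of_irreducible p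
    (minpoly.irreducible hint) hp.ne_zero
  obtain ⟨z', hz', hzz⟩ := insep_root ht.hh.perf n z hz
  have hroot := insep_cl ht.perf (n := n) hzz
  have hzm : z' ∈ cl E z' := Subfield.le_topologicalClosure _
    (Subfield.subset_closure (Or.inr rfl))
  refine ⟨z', hz', insep_ty ht.perf hzz hT, hzz ▸ pow_mem hzm _, ?_⟩
  -- the polynomial of the roots
  obtain ⟨φ, hφ⟩ : ∃ φ : cl E z' →+* Ω, ∀ x, φ x = (x : Ω) ^ p ^ n :=
    ⟨(iterateFrobenius Ω p n).comp (cl E z').subtype, fun x => rfl⟩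
  have hlift : g.map (cl E z).subtype ∈ Polynomial.lifts φ := by
    rw [Polynomial.lifts_iff_coeff_lifts]
    intro i
    obtain ⟨w, hw, hwx⟩ := hroot (g.coeff i) (g.coeff i).2
    refine ⟨⟨w, hw⟩, ?_⟩
    rw [hφ, Polynomial.coeff_map]
    exact hwx
  obtain ⟨P, hP⟩ := (Polynomial.mem_lifts _).1 hlift
  have hPs : P.Separable := by
    rw [← Polynomial.separable_map φ, hP]
    exact hg.map
  have h0 : Polynomial.aeval (y ^ p ^ n) g = 0 := by
    rw [← Polynomial.expand_aeval, hgf, minpoly.aeval]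
  have h1 : Polynomial.aeval y P ^ p ^ n = 0 := by
    have h2 : Polynomial.aeval y P ^ p ^ n =
        iterateFrobenius Ω p n (Polynomial.eval₂ (cl E z').subtype y P) := rfl
    have h3 : (iterateFrobenius Ω p n).comp (cl E z').subtype = φ := by
      ext x
      exact (hφ x).symm
    rw [h2, Polynomial.hom_eval₂, h3, Polynomial.eval₂_eq_eval_map, hP]
    rw [← Polynomial.eval₂_eq_eval_map]
    exact h0
  have h2 : Polynomial.aeval y P = 0 := eq_zero_of_pow_eq_zero h1
  exact hPs.of_dvd (minpoly.dvd _ _ h2)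

end Pool.Agent.R4U
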