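import Pool.Agent.Lib.MP_4ed7e0_lc_U.GalP
import Pool.Agent.Lib.MP_4ed7e0_lc_U.DescI
import Pool.Agent.Lib.MP_4ed7e0_lc_U.DescII
import Pool.Agent.Lib.MP_4ed7e0_lc_U.Insep

/-!
# MP_4ed7e0_lc, project U: henselian rationality
-/

set_option autoImplicit false

namespace Pool.Agent.R4U

universe u

variable {Ω : Type u} [NormedField Ω] [IsUltrametricDist Ω]

omit [IsUltrametricDist Ω] in
private theorem HR_mono {A B : Subfield Ω} (h : A ≤ B) {x : Ω} (hx : IsAlgebraic A x) :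
    IsAlgebraic B x := by
  obtain ⟨q, hq0, hq⟩ := hx
  refine ⟨q.map (Subfield.inclusion h),
    (Polynomial.map_ne_zero_iff (Subfield.inclusion h).injective).mpr hq0, ?_⟩
  rw [Polynomial.aeval_def, Polynomial.eval₂_map]
  exact hq

private theorem HR_le_abar (E : Subfield Ω) : E ≤ abar E := fun x hx =>
  mem_abar.2 (isAlgebraic_algebraMap (⟨x, hx⟩ : E))

private theorem HR_adj_alg {k E : Subfield Ω} (hkE : k ≤ E) {θ : Ω} (hθ : θ ∈ abar k) {x : Ω}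
    (hx : x ∈ adj E θ) : IsAlgebraic E x :=
  mem_abar.1 (adj_le (HR_le_abar E) (mem_abar.2 (HR_mono hkE (mem_abar.1 hθ))) hx)

/-- The separable case.

Proof. `galP` gives `θ`, `M`, `ζ`. By `descI` or `descII` `M = cl E' w` with `w ∈ H`, `E' = adj E θ`,
`Ty E' w`. Then `Ty E w`: type II is clear (`E ≤ E'`); type I: `w ∉ E`, and for `e ∈ E` there is
`x ∈ E'` with `‖w - x‖ < ‖w - e‖`; `x` is algebraic over `E`, so there is `e' ∈ E` with
`‖w - e'‖ ≤ ‖w - x‖` (`Tame.proj`, `w ∈ H`). Let `A = cl E w ≤ H`. The field `adj A θ` is closed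
(`closed_adj`) and contains `E'` and `w`, so `M ≤ adj A θ`. So `y, z ∈ M ∩ H` are in `A` by
`mem_of_adj`. -/
theorem hr_sep {p : ℕ} [Fact p.Prime] [CharP Ω p] [IsAlgClosed Ω] [CompleteSpace Ω]
    {k E H : Subfield Ω} (ht : Tame p k E H) {z : Ω} (hz : z ∈ H) (hT : Ty E z) {y : Ω}
    (hy : y ∈ H) (hsep : IsSeparable (cl E z) y) :
    ∃ w ∈ H, Ty E w ∧ z ∈ cl E w ∧ y ∈ cl E w := by
  obtain ⟨θ, hθ, hn, M, hyM, hzM, hMH, hEM, hst, ζ, hζ, hTζ, hM⟩ := galP ht hz hT hy hsep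
  have key : ∃ w ∈ H, Ty E w ∧ M = cl (adj E θ) w := by
    rcases hTζ with hI | hII
    · obtain ⟨w, hw, hIw, hMw⟩ := descI ht hθ hn hMH hEM hst hζ hI hM
      refine ⟨w, hw, Or.inl ⟨fun h => hIw.1 (le_adj E θ h), fun e he => ?_⟩, hMw⟩
      obtain ⟨x, hx, hxe⟩ := hIw.2 e (le_adj E θ he)
      obtain ⟨e', he', hp⟩ := ht.proj (HR_adj_alg ht.kE hθ hx)
      exact ⟨e', he', (hp w hw).trans_lt hxe⟩
    · obtain ⟨w, hw, hIIw, hMw⟩ := descII ht hθ hn hMH hEM hst hζ hII hM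
      exact ⟨w, hw, Or.inr ⟨hIIw.1, fun n hn' e he => hIIw.2 n hn' e (le_adj E θ he)⟩, hMw⟩
  obtain ⟨w, hw, hTw, hMw⟩ := key
  have hAH : cl E w ≤ H := cl_le ht.hh.closed ht.EH hw
  have hkA : k ≤ cl E w := ht.kE.trans (le_cl E w)
  have hcl : IsClosed (adj (cl E w) θ : Set Ω) :=
    closed_adj ht.hh hkA hAH (isClosed_cl E w) hθ
  have hMA : M ≤ adj (cl E w) θ := by
    rw [hMw]
    exact cl_le hcl (adj_mono (le_cl E w) θ) (le_adj _ _ (mem_cl E w))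
  exact ⟨w, hw, hTw, mem_of_adj ht.hh hkA hAH hθ (hMA hzM) hz,
    mem_of_adj ht.hh hkA hAH hθ (hMA hyM) hy⟩

/-- Henselian rationality.

Proof. `insep`, then `hr_sep` for `z'`; `z ∈ cl E z' ≤ cl E w`. -/
theorem hr {p : ℕ} [Fact p.Prime] [CharP Ω p] [IsAlgClosed Ω] [CompleteSpace Ω]
    {k E H : Subfield Ω} (ht : Tame p k E H) {z : Ω} (hz : z ∈ H) (hT : Ty E z) {y : Ω}
    (hy : y ∈ H) (halg : IsAlgebraic (cl E z) y) :
    ∃ w ∈ H, Ty E w ∧ z ∈ cl E w ∧ y ∈ cl E w := by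
  obtain ⟨z', hz', hT', hzz', hsep⟩ := insep ht hz hT halg
  obtain ⟨w, hw, hTw, hz'w, hyw⟩ := hr_sep ht hz' hT' hy hsep
  exact ⟨w, hw, hTw, cl_le (isClosed_cl E w) (le_cl E w) hz'w hzz', hyw⟩

/-- Henselian rationality for finitely many elements.

Proof. Induction on `n`: apply `hr` to the element `w` for the first `n` elements (the last element
is algebraic over `cl E z ≤ cl E w`). -/
theorem hr_fin {p : ℕ} [Fact p.Prime] [CharP Ω p] [IsAlgClosed Ω] [CompleteSpace Ω]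
    {k E H : Subfield Ω} (ht : Tame p k E H) {z : Ω} (hz : z ∈ H) (hT : Ty E z) {n : ℕ}
    (y : Fin n → Ω) (hy : ∀ i, y i ∈ H) (halg : ∀ i, IsAlgebraic (cl E z) (y i)) :
    ∃ w ∈ H, Ty E w ∧ z ∈ cl E w ∧ ∀ i, y i ∈ cl E w := by
  induction n with
  | zero => exact ⟨z, hz, hT, mem_cl E z, fun i => i.elim0⟩
  | succ n ih =>
    obtain ⟨w0, hw0, hT0, hz0, hy0⟩ := ih (fun i => y i.castSucc) (fun i => hy _) fun i => halg _
    have h1 : cl E z ≤ cl E w0 := cl_le (isClosed_cl E w0) (le_cl E w0) hz0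
    obtain ⟨w, hw, hTw, hw0w, hyw⟩ := hr ht hw0 hT0 (hy (Fin.last n))
      (HR_mono h1 (halg (Fin.last n)))
    have h2 : cl E w0 ≤ cl E w := cl_le (isClosed_cl E w) (le_cl E w) hw0w
    refine ⟨w, hw, hTw, h2 hz0, fun i => ?_⟩
    induction i using Fin.lastCases with
    | last => exact hyw
    | cast i => exact h2 (hy0 i)

end Pool.Agent.R4U
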