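import Pool.Agent.Lib.MP_4ed7e0_lc_U.Hyp

/-!
# MP_4ed7e0_lc, project U: Newton's form of Hensel's lemma for power series, truncation
-/

set_option autoImplicit false

namespace Pool.Agent.R4U

universe u

open Pool.Agent.R4F

/-- A contracting map of the maximal ideal of `R[[X]]` has a fixed point. -/
private theorem Hens_fix {R : Type u} [CommRing R] (Φ : PowerSeries R → PowerSeries R)
    (h0 : ∀ u, PowerSeries.X ∣ u → PowerSeries.X ∣ Φ u)
    (h : ∀ (k : ℕ) (u u' : PowerSeries R), PowerSeries.X ∣ u → PowerSeries.X ∣ u' →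
      PowerSeries.X ^ k ∣ u - u' → PowerSeries.X ^ (k + 1) ∣ Φ u - Φ u') :
    ∃ u, PowerSeries.X ∣ u ∧ Φ u = u := by
  obtain ⟨s, hs0⟩ : ∃ s : ℕ → PowerSeries R, s = fun n => Φ^[n] 0 := ⟨_, rfl⟩
  have hs : ∀ n, s (n + 1) = Φ (s n) := by
    intro n
    rw [hs0]
    exact Function.iterate_succ_apply' Φ n 0
  have hX : ∀ n, PowerSeries.X ∣ s n := by
    intro n
    induction n with
    | zero =>
      rw [hs0]
      exact dvd_zero _
    | succ n ih =>
      rw [hs]
      exact h0 _ ih
  have h1 : ∀ n, PowerSeries.X ^ (n + 1) ∣ s (n + 1) - s n := by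
    intro n
    induction n with
    | zero =>
      rw [zero_add, pow_one]
      exact dvd_sub (hX 1) (hX 0)
    | succ n ih =>
      have h2 := h (n + 1) (s (n + 1)) (s n) (hX _) (hX _) ih
      rwa [← hs, ← hs] at h2
  have h2 : ∀ n m, n ≤ m → PowerSeries.X ^ (n + 1) ∣ s m - s n := by
    intro n m hnm
    induction m, hnm using Nat.le_induction with
    | base =>
      rw [sub_self]
      exact dvd_zero _
    | succ m hnm ih =>
      have e : s (m + 1) - s n = (s (m + 1) - s m) + (s m - s n) := by ring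
      rw [e]
      exact dvd_add (dvd_trans (pow_dvd_pow _ (by omega)) (h1 m)) ih
  obtain ⟨u, hu⟩ : ∃ u : PowerSeries R, u = PowerSeries.mk fun n => PowerSeries.coeff n (s n) :=
    ⟨_, rfl⟩
  have h3 : ∀ n, PowerSeries.X ^ (n + 1) ∣ u - s n := by
    intro n
    rw [PowerSeries.X_pow_dvd_iff]
    intro m hm
    have h4 := (PowerSeries.X_pow_dvd_iff.1 (h2 m n (by omega))) m (by omega)
    rw [map_sub] at h4
    rw [map_sub, hu, PowerSeries.coeff_mk]
    rw [sub_eq_zero] at h4 ⊢
    exact h4.symm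
  have h5 : PowerSeries.X ∣ u := by
    have h6 := h3 0
    rw [zero_add, pow_one] at h6
    have h7 := dvd_add h6 (hX 0)
    rwa [sub_add_cancel] at h7
  refine ⟨u, h5, ?_⟩
  rw [← sub_eq_zero]
  ext n
  have h7 : PowerSeries.X ^ (n + 1) ∣ Φ u - u := by
    have h8 : Φ u - u = (Φ u - Φ (s n)) - (u - s (n + 1)) := by
      rw [hs]
      ring
    rw [h8]
    exact dvd_sub (dvd_trans (pow_dvd_pow _ (by omega)) (h (n + 1) u (s n) h5 (hX n) (h3 n)))
      (dvd_trans (pow_dvd_pow _ (by omega)) (h3 (n + 1)))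
  rw [PowerSeries.X_pow_dvd_iff.1 h7 n (by omega), map_zero]

/-- Taylor's formula of order two with polynomial remainder. -/
private theorem Hens_taylor {A : Type u} [CommRing A] (f : Polynomial A) (b : A) :
    ∃ k : Polynomial A, ∀ w, f.eval (b + w) =
      f.eval b + f.derivative.eval b * w + k.eval w * w ^ 2 := by
  obtain ⟨k, hk⟩ := Polynomial.binomExpansion (f.map Polynomial.C) (Polynomial.C b) Polynomial.X
  have e1 : ∀ (q t : Polynomial A), (q.map Polynomial.C).eval t = q.comp t :=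
    fun q t => Polynomial.eval_map _ _
  rw [Polynomial.derivative_map, e1, e1, e1] at hk
  refine ⟨k, fun w => ?_⟩
  have h := congrArg (Polynomial.eval w) hk
  simp only [Polynomial.eval_comp, Polynomial.eval_add, Polynomial.eval_mul, Polynomial.eval_pow,
    Polynomial.eval_C, Polynomial.eval_X] at h
  exact h

/-- Algebra maps are compatible with `ev2`. -/
private theorem Hens_ev2_map {K A B : Type u} [CommRing K] [CommRing A] [Algebra K A]
    [CommRing B] [Algebra K B] {m : ℕ} (φ : A →ₐ[K] B) (x : Fin m → A) (y : A)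
    (F : Polynomial (MvPolynomial (Fin m) K)) :
    φ (ev2 x y F) = ev2 (fun i => φ (x i)) (φ y) F := by
  unfold ev2
  have h1 : φ.toRingHom.comp (MvPolynomial.aeval x : MvPolynomial (Fin m) K →ₐ[K] A).toRingHom =
      (MvPolynomial.aeval (fun i => φ (x i)) : MvPolynomial (Fin m) K →ₐ[K] B).toRingHom := by
    have h2 := MvPolynomial.comp_aeval (R := K) x φ
    rw [← h2]
    rfl
  rw [← h1, ← Polynomial.map_map]
  exact (Polynomial.eval₂_at_apply φ.toRingHom y).symm.trans (Polynomial.eval_map _ _).symm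

/-- Newton's form of Hensel's lemma for `R[[X]]`.

Proof. Let `f'(b) = X ^ s * v` with `v` a unit, `s ≤ r` (`h2`), and `f(b) = X ^ (2 * r + 1) * g`. By
Taylor's formula `f(b + X ^ s * u) = f(b) + X ^ (2 * s) * v * u + X ^ (2 * s) * u ^ 2 * h(u)` with a
polynomial `h` over `R[[X]]`, so it is `X ^ (2 * s)` times
`X ^ (2 * r + 1 - 2 * s) * g + v * u + u ^ 2 * h(u)`. Modulo `X` the second factor has the simple
root `u = 0`; `R[[X]]` is henselian (it is `X`-adically complete, `IsAdicComplete.henselianRing`),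
or construct `u` by successive approximation; the root `u` is divisible by `X ^ (2 * r + 1 - 2 * s)`
because `u * (v + u * h(u)) = - X ^ (2 * r + 1 - 2 * s) * g` and `v + u * h(u)` is a unit. So
`y = b + X ^ s * u` satisfies `X ^ (2 * r + 1 - s) ∣ y - b`. -/
theorem hens {R : Type u} [Field R] (f : Polynomial (PowerSeries R)) (b : PowerSeries R) (r : ℕ)
    (h1 : PowerSeries.X ^ (2 * r + 1) ∣ f.eval b)
    (h2 : ¬ PowerSeries.X ^ (r + 1) ∣ f.derivative.eval b) :
    ∃ y : PowerSeries R, f.eval y = 0 ∧ PowerSeries.X ^ (r + 1) ∣ y - b := by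
  classical
  obtain ⟨d, hd⟩ : ∃ d, d = f.derivative.eval b := ⟨_, rfl⟩
  rw [← hd] at h2
  have hex : ∃ s, ¬ PowerSeries.X ^ (s + 1) ∣ d := ⟨r, h2⟩
  obtain ⟨s, hsr, hs1, hs2⟩ :
      ∃ s, s ≤ r ∧ PowerSeries.X ^ s ∣ d ∧ ¬ PowerSeries.X ^ (s + 1) ∣ d := by
    refine ⟨Nat.find hex, Nat.find_min' hex h2, ?_, Nat.find_spec hex⟩
    rcases Nat.eq_zero_or_pos (Nat.find hex) with h | h
    · rw [h, pow_zero]
      exact one_dvd _
    · have h3 := Nat.find_min hex (m := Nat.find hex - 1) (by omega)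
      rw [not_not, Nat.sub_add_cancel h] at h3
      exact h3
  obtain ⟨v, hv⟩ := hs1
  have hvu : IsUnit v := by
    rw [PowerSeries.isUnit_iff_constantCoeff, isUnit_iff_ne_zero]
    intro h
    apply hs2
    rw [hv, pow_succ]
    exact mul_dvd_mul_left _ (PowerSeries.X_dvd_iff.2 h)
  obtain ⟨v', hv'⟩ := hvu.exists_left_inv
  obtain ⟨g, hg⟩ := h1
  obtain ⟨k, hk⟩ := Hens_taylor f b
  obtain ⟨e, he⟩ : ∃ e, 2 * r + 1 = s + s + e := ⟨2 * r + 1 - (s + s), by omega⟩
  have he1 : 1 ≤ e := by omega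
  obtain ⟨u, hu1, hu2⟩ := Hens_fix
    (fun u => -(v' * (PowerSeries.X ^ e * g + k.eval (PowerSeries.X ^ s * u) * u ^ 2)))
    (by
      intro u hu
      refine (dvd_neg.2 (dvd_mul_of_dvd_right (dvd_add ?_ ?_) _))
      · exact dvd_mul_of_dvd_left (dvd_pow_self _ (by omega)) _
      · exact dvd_mul_of_dvd_right (dvd_pow hu two_ne_zero) _)
    (by
      intro j u u' hu hu' huu
      have h3 : -(v' * (PowerSeries.X ^ e * g + k.eval (PowerSeries.X ^ s * u) * u ^ 2)) -
          -(v' * (PowerSeries.X ^ e * g + k.eval (PowerSeries.X ^ s * u') * u' ^ 2)) =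
          -(v' * (k.eval (PowerSeries.X ^ s * u) * ((u - u') * (u + u')) +
            (k.eval (PowerSeries.X ^ s * u) - k.eval (PowerSeries.X ^ s * u')) *
              (u' * u'))) := by ring
      have h4 : PowerSeries.X ^ j ∣
          k.eval (PowerSeries.X ^ s * u) - k.eval (PowerSeries.X ^ s * u') := by
        refine dvd_trans ?_ (Polynomial.sub_dvd_eval_sub _ _ k)
        rw [← mul_sub]
        exact dvd_mul_of_dvd_right huu _
      rw [h3]
      refine (dvd_neg.2 (dvd_mul_of_dvd_right (dvd_add ?_ ?_) _))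
      · rw [pow_succ]
        exact dvd_mul_of_dvd_right (mul_dvd_mul huu (dvd_add hu hu')) _
      · rw [pow_succ]
        exact mul_dvd_mul h4 (dvd_mul_of_dvd_left hu' _))
  have hu3 : v * u = -(PowerSeries.X ^ e * g + k.eval (PowerSeries.X ^ s * u) * u ^ 2) := by
    calc v * u = v * -(v' * (PowerSeries.X ^ e * g +
            k.eval (PowerSeries.X ^ s * u) * u ^ 2)) := by rw [hu2]
      _ = -((v' * v) * (PowerSeries.X ^ e * g +
            k.eval (PowerSeries.X ^ s * u) * u ^ 2)) := by ring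
      _ = _ := by rw [hv', one_mul]
  refine ⟨b + PowerSeries.X ^ s * u, ?_, ?_⟩
  · rw [hk, ← hd, hv, hg, he, pow_add, pow_add]
    have h5 : PowerSeries.X ^ s * PowerSeries.X ^ s * PowerSeries.X ^ e * g +
        PowerSeries.X ^ s * v * (PowerSeries.X ^ s * u) +
        k.eval (PowerSeries.X ^ s * u) * (PowerSeries.X ^ s * u) ^ 2 =
        PowerSeries.X ^ s * PowerSeries.X ^ s * (PowerSeries.X ^ e * g + v * u +
          k.eval (PowerSeries.X ^ s * u) * u ^ 2) := by ring
    rw [h5, hu3]
    ring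
  · rw [add_sub_cancel_left]
    have h6 : IsUnit (v + k.eval (PowerSeries.X ^ s * u) * u) := by
      rw [PowerSeries.isUnit_iff_constantCoeff, map_add,
        PowerSeries.X_dvd_iff.1 (dvd_mul_of_dvd_right hu1 _), add_zero,
        ← PowerSeries.isUnit_iff_constantCoeff]
      exact hvu
    have h7 : u * (v + k.eval (PowerSeries.X ^ s * u) * u) = -(PowerSeries.X ^ e * g) := by
      have h8 : u * (v + k.eval (PowerSeries.X ^ s * u) * u) =
          v * u + k.eval (PowerSeries.X ^ s * u) * u ^ 2 := by ring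
      rw [h8, hu3]
      ring
    have h9 : PowerSeries.X ^ e ∣ u := by
      rw [← h6.dvd_mul_right, h7]
      exact dvd_neg.2 (dvd_mul_right _ _)
    have h10 : (PowerSeries.X : PowerSeries R) ^ (r + 1) ∣
        PowerSeries.X ^ s * PowerSeries.X ^ e := by
      rw [← pow_add]
      exact pow_dvd_pow _ (by omega)
    exact dvd_trans h10 (mul_dvd_mul_left _ h9)

/-- Proof. `ev2` modulo the ideal generated by `X ^ s` depends only on the classes of the
arguments. -/
theorem ev2_congr {K R : Type u} [Field K] [Field R] [Algebra K R] {m : ℕ}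
    (F : Polynomial (MvPolynomial (Fin m) K)) {a a' : Fin m → PowerSeries R}
    {b b' : PowerSeries R} {s : ℕ} (ha : ∀ i, PowerSeries.X ^ s ∣ a i - a' i)
    (hb : PowerSeries.X ^ s ∣ b - b') : PowerSeries.X ^ s ∣ ev2 a b F - ev2 a' b' F := by
  have h1 : ∀ z : PowerSeries R, PowerSeries.X ^ s ∣ z ↔
      Ideal.Quotient.mkₐ K (Ideal.span {(PowerSeries.X : PowerSeries R) ^ s}) z = 0 := by
    intro z
    rw [Ideal.Quotient.mkₐ_eq_mk, Ideal.Quotient.eq_zero_iff_mem, Ideal.mem_span_singleton]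
  have h2 : (fun i => Ideal.Quotient.mkₐ K (Ideal.span {(PowerSeries.X : PowerSeries R) ^ s})
      (a i)) = fun i => Ideal.Quotient.mkₐ K
        (Ideal.span {(PowerSeries.X : PowerSeries R) ^ s}) (a' i) := by
    funext i
    have h3 := (h1 _).1 (ha i)
    rwa [map_sub, sub_eq_zero] at h3
  have h4 := (h1 _).1 hb
  rw [map_sub, sub_eq_zero] at h4
  rw [h1, map_sub, Hens_ev2_map, Hens_ev2_map, h2, h4, sub_self]

/-- Approximate solutions with power series give solutions with Laurent series.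

Proof. `hens` for `f = F(a, Y)` (the polynomial `F.map (aeval a)`, whose derivative is
`F.derivative.map (aeval a)`) gives `y` with `F(a, y) = 0`, `X ^ (r + 1) ∣ y - b`; by `ev2_congr`
`G(a, y)` is not divisible by `X ^ (r + 1)`, so it is not zero. Use `hS` for
`R = LaurentSeries R'` (images of `a`, `y` under the injective algebra map of power series to
Laurent series, compatible with `ev2`). -/
theorem hens_solv {K R : Type u} [Field K] [Field R] [Algebra K R] {m n : ℕ}
    {F G : Polynomial (MvPolynomial (Fin m) K)} {S : Finset (MvPolynomial (Fin n) K)}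
    (hS : ∀ (x' : Fin m → LaurentSeries R) (y' : LaurentSeries R), ev2 x' y' F = 0 →
      ev2 x' y' G ≠ 0 → Solv K (LaurentSeries R) S)
    (a : Fin m → PowerSeries R) (b : PowerSeries R) (r : ℕ)
    (h1 : PowerSeries.X ^ (2 * r + 1) ∣ ev2 a b F)
    (h2 : ¬ PowerSeries.X ^ (r + 1) ∣ ev2 a b F.derivative)
    (h3 : ¬ PowerSeries.X ^ (r + 1) ∣ ev2 a b G) : Solv K (LaurentSeries R) S := by
  obtain ⟨y, hy1, hy2⟩ := hens (F.map
    (MvPolynomial.aeval a : MvPolynomial (Fin m) K →ₐ[K] PowerSeries R).toRingHom) b r h1 (by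
      rw [Polynomial.derivative_map]
      exact h2)
  have hy3 : ev2 a y F = 0 := hy1
  have hG : ev2 a y G ≠ 0 := by
    intro h
    apply h3
    have h4 := ev2_congr G (a := a) (a' := a) (b := y) (b' := b) (s := r + 1)
      (fun i => by rw [sub_self]; exact dvd_zero _) hy2
    rw [h, zero_sub, dvd_neg] at h4
    exact h4
  let φ : PowerSeries R →ₐ[K] LaurentSeries R :=
    { HahnSeries.ofPowerSeries ℤ R with
      commutes' := fun c => rfl }
  have hφ : Function.Injective φ := HahnSeries.ofPowerSeries_injective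
  refine hS (fun i => φ (a i)) (φ y) ?_ ?_
  · rw [← Hens_ev2_map, hy3, map_zero]
  · rw [← Hens_ev2_map]
    exact fun h => hG (hφ (by rw [h, map_zero]))

end Pool.Agent.R4U
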