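import Pool.Agent.Lib.MP_4ed7e0_lc_F.Iso
import Pool.Agent.Lib.MP_4ed7e0_lc_U.Hens

/-!
# MP_4ed7e0_lc, project U: the perfect hull of a large field is large
-/

set_option autoImplicit false

namespace Pool.Agent.R4U

universe u

open Pool.Agent.R4A Pool.Agent.R4F

/-- The perfect hull is perfect. -/
theorem hull_perf (p : ℕ) [Fact p.Prime] (K : Type u) [Field K] [CharP K p] :
    ∀ x : Hull K, ∃ y, y ^ p = x := by
  intro x
  have : ExpChar K p := ExpChar.prime Fact.out
  have hp : p.Prime := Fact.out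
  obtain ⟨n, z, hz⟩ := (mem_perfectClosure_iff_pow_mem p).1 x.2
  obtain ⟨y, hy⟩ := IsAlgClosed.exists_pow_nat_eq (x : AlgebraicClosure K) hp.pos
  refine ⟨⟨y, (mem_perfectClosure_iff_pow_mem p).2 ⟨n + 1, z, ?_⟩⟩, Subtype.ext hy⟩
  rw [pow_succ', pow_mul, hy, hz]

/-- Change of the base field and of the ring in `ev2`. -/
private theorem hullL_ev2 {K K' A B : Type u} [CommRing K] [CommRing K'] [CommRing A] [CommRing B]
    [Algebra K A] [Algebra K' B] (φ : A →+* B) (ι : K →+* K')
    (h : ∀ c, φ (algebraMap K A c) = algebraMap K' B (ι c)) {m : ℕ} (x : Fin m → A) (y : A)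
    (F : Polynomial (MvPolynomial (Fin m) K)) :
    φ (ev2 x y F) = ev2 (fun i => φ (x i)) (φ y) (F.map (MvPolynomial.map ι)) := by
  rw [ev2, ev2, Polynomial.eval_map, Polynomial.eval_map, Polynomial.hom_eval₂,
    Polynomial.eval₂_map]
  congr 1
  refine MvPolynomial.ringHom_ext (fun c => ?_) (fun i => ?_)
  · simp [h]
  · simp

/-- Change of the ring in `ev2`. -/
private theorem hullL_ev2' {K A B : Type u} [CommRing K] [CommRing A] [CommRing B]
    [Algebra K A] [Algebra K B] (φ : A →+* B)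
    (h : ∀ c, φ (algebraMap K A c) = algebraMap K B c) {m : ℕ} (x : Fin m → A) (y : A)
    (F : Polynomial (MvPolynomial (Fin m) K)) :
    φ (ev2 x y F) = ev2 (fun i => φ (x i)) (φ y) F := by
  have hid : (MvPolynomial.map (RingHom.id K) : MvPolynomial (Fin m) K →+* _) = RingHom.id _ :=
    RingHom.ext fun q => MvPolynomial.map_id q
  rw [hullL_ev2 φ (RingHom.id K) h x y F, hid, Polynomial.map_id]

/-- The valuation ring of the power series. -/
private theorem hullL_val (K : Type u) [Field K] : ∃ O : ValuationSubring (LaurentSeries K),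
    (∀ c : K, algebraMap K (LaurentSeries K) c ∈ O) ∧
      ∀ x ∈ O, ∃ f : PowerSeries K, HahnSeries.ofPowerSeries ℤ K f = x := by
  refine ⟨(Valued.v : Valuation (LaurentSeries K) _).valuationSubring, fun c => ?_, fun x hx => ?_⟩
  · rw [Valuation.mem_valuationSubring_iff, LaurentSeries.val_le_one_iff_eq_coe]
    exact ⟨PowerSeries.C c, by
      rw [LaurentSeries.algebraMap_apply]
      exact HahnSeries.ofPowerSeries_C c⟩
  · rw [Valuation.mem_valuationSubring_iff, LaurentSeries.val_le_one_iff_eq_coe] at hx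
    obtain ⟨f, hf⟩ := hx
    exact ⟨f, hf⟩

/-- Polynomials with coefficients in a directed union of fields. -/
private theorem hullL_lift {K' : Type u} [Field K'] {E : ℕ → Type u} [∀ j, Field (E j)]
    (ι : ∀ j, E j →+* K') (hι : ∀ c : K', ∃ j0, ∀ j, j0 ≤ j → ∃ d : E j, ι j d = c) {m : ℕ}
    (F : Polynomial (MvPolynomial (Fin m) K')) :
    ∃ j0, ∀ j, j0 ≤ j → ∃ F' : Polynomial (MvPolynomial (Fin m) (E j)),
      F'.map (MvPolynomial.map (ι j)) = F := by
  have hadd : ∀ F G : Polynomial (MvPolynomial (Fin m) K'),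
      (∃ j0, ∀ j, j0 ≤ j → ∃ F' : Polynomial (MvPolynomial (Fin m) (E j)),
        F'.map (MvPolynomial.map (ι j)) = F) →
      (∃ j0, ∀ j, j0 ≤ j → ∃ F' : Polynomial (MvPolynomial (Fin m) (E j)),
        F'.map (MvPolynomial.map (ι j)) = G) →
      (∃ j0, ∀ j, j0 ≤ j → ∃ F' : Polynomial (MvPolynomial (Fin m) (E j)),
        F'.map (MvPolynomial.map (ι j)) = F + G) := by
    rintro F G ⟨a, ha⟩ ⟨b, hb⟩
    refine ⟨max a b, fun j hj => ?_⟩
    obtain ⟨F', hF'⟩ := ha j ((le_max_left _ _).trans hj)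
    obtain ⟨G', hG'⟩ := hb j ((le_max_right _ _).trans hj)
    exact ⟨F' + G', by rw [Polynomial.map_add, hF', hG']⟩
  have hmul : ∀ F G : Polynomial (MvPolynomial (Fin m) K'),
      (∃ j0, ∀ j, j0 ≤ j → ∃ F' : Polynomial (MvPolynomial (Fin m) (E j)),
        F'.map (MvPolynomial.map (ι j)) = F) →
      (∃ j0, ∀ j, j0 ≤ j → ∃ F' : Polynomial (MvPolynomial (Fin m) (E j)),
        F'.map (MvPolynomial.map (ι j)) = G) →
      (∃ j0, ∀ j, j0 ≤ j → ∃ F' : Polynomial (MvPolynomial (Fin m) (E j)),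
        F'.map (MvPolynomial.map (ι j)) = F * G) := by
    rintro F G ⟨a, ha⟩ ⟨b, hb⟩
    refine ⟨max a b, fun j hj => ?_⟩
    obtain ⟨F', hF'⟩ := ha j ((le_max_left _ _).trans hj)
    obtain ⟨G', hG'⟩ := hb j ((le_max_right _ _).trans hj)
    exact ⟨F' * G', by rw [Polynomial.map_mul, hF', hG']⟩
  have hC : ∀ f : MvPolynomial (Fin m) K',
      (∃ j0, ∀ j, j0 ≤ j → ∃ F' : Polynomial (MvPolynomial (Fin m) (E j)),
        F'.map (MvPolynomial.map (ι j)) = Polynomial.C f) := by
    intro f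
    induction f using MvPolynomial.induction_on with
    | C c =>
      obtain ⟨a, ha⟩ := hι c
      refine ⟨a, fun j hj => ?_⟩
      obtain ⟨d, hd⟩ := ha j hj
      exact ⟨Polynomial.C (MvPolynomial.C d), by
        rw [Polynomial.map_C, MvPolynomial.map_C, hd]⟩
    | add f g hf hg =>
      rw [map_add]
      exact hadd _ _ hf hg
    | mul_X f i hf =>
      rw [map_mul]
      refine hmul _ _ hf ⟨0, fun j _ => ⟨Polynomial.C (MvPolynomial.X i), ?_⟩⟩
      rw [Polynomial.map_C, MvPolynomial.map_X]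
  induction F using Polynomial.induction_on with
  | C f => exact hC f
  | add f g hf hg => exact hadd _ _ hf hg
  | monomial n f hf =>
    rw [pow_succ, ← mul_assoc]
    exact hmul _ _ hf ⟨0, fun j _ => ⟨Polynomial.X, Polynomial.map_X _⟩⟩

/-- The same for polynomials in one variable. -/
private theorem hullL_lift1 {K' : Type u} [Field K'] {E : ℕ → Type u} [∀ j, Field (E j)]
    (ι : ∀ j, E j →+* K') (hι : ∀ c : K', ∃ j0, ∀ j, j0 ≤ j → ∃ d : E j, ι j d = c)
    (F : Polynomial K') :
    ∃ j0, ∀ j, j0 ≤ j → ∃ F' : Polynomial (E j), F'.map (ι j) = F := by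
  induction F using Polynomial.induction_on with
  | C c =>
    obtain ⟨a, ha⟩ := hι c
    refine ⟨a, fun j hj => ?_⟩
    obtain ⟨d, hd⟩ := ha j hj
    exact ⟨Polynomial.C d, by rw [Polynomial.map_C, hd]⟩
  | add f g hf hg =>
    obtain ⟨a, ha⟩ := hf
    obtain ⟨b, hb⟩ := hg
    refine ⟨max a b, fun j hj => ?_⟩
    obtain ⟨F', hF'⟩ := ha j ((le_max_left _ _).trans hj)
    obtain ⟨G', hG'⟩ := hb j ((le_max_right _ _).trans hj)
    exact ⟨F' + G', by rw [Polynomial.map_add, hF', hG']⟩
  | monomial n f hf =>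
    obtain ⟨a, ha⟩ := hf
    refine ⟨a, fun j hj => ?_⟩
    obtain ⟨F', hF'⟩ := ha j hj
    exact ⟨F' * Polynomial.X, by
      rw [Polynomial.map_mul, Polynomial.map_X, hF', pow_succ, ← mul_assoc]⟩

/-- Divisibility by a power of `X` does not change under extension of the field. -/
private theorem hullL_dvd {R K' : Type u} [Field R] [Field K'] (ι : R →+* K') (f : PowerSeries R)
    (s : ℕ) : PowerSeries.X ^ s ∣ PowerSeries.map ι f ↔ PowerSeries.X ^ s ∣ f := by
  rw [PowerSeries.X_pow_dvd_iff, PowerSeries.X_pow_dvd_iff]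
  refine forall₂_congr fun i _ => ?_
  rw [PowerSeries.coeff_map, map_eq_zero]

/-- Truncation. -/
private theorem hullL_trunc {K' : Type u} [Field K'] (f : PowerSeries K') (s : ℕ) :
    PowerSeries.X ^ s ∣ ((PowerSeries.trunc s f : Polynomial K') : PowerSeries K') - f := by
  rw [PowerSeries.X_pow_dvd_iff]
  intro i hi
  rw [map_sub, Polynomial.coeff_coe, PowerSeries.coeff_trunc, if_pos hi, sub_self]

/-- The hypersurface system over a large field. -/
private theorem hullL_large {R : Type u} [Field R] (hR : Large R) {m : ℕ}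
    (F G : Polynomial (MvPolynomial (Fin m) R)) (a : Fin m → PowerSeries R) (b : PowerSeries R)
    (r : ℕ) (h1 : PowerSeries.X ^ (2 * r + 1) ∣ ev2 a b F)
    (h2 : ¬ PowerSeries.X ^ (r + 1) ∣ ev2 a b F.derivative)
    (h3 : ¬ PowerSeries.X ^ (r + 1) ∣ ev2 a b G) :
    ∃ (x : Fin m → R) (y : R), ev2 x y F = 0 ∧ ev2 x y G ≠ 0 := by
  classical
  -- the variables `0, ..., m - 1` are the `x_i`, `m` is `y`, `m + 1` is the inverse of `G`
  let X' : Fin m → MvPolynomial (Fin (m + 2)) R := fun i =>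
    MvPolynomial.X ⟨i, by omega⟩
  let Y' : MvPolynomial (Fin (m + 2)) R := MvPolynomial.X ⟨m, by omega⟩
  let U' : MvPolynomial (Fin (m + 2)) R := MvPolynomial.X ⟨m + 1, by omega⟩
  let S : Finset (MvPolynomial (Fin (m + 2)) R) := {ev2 X' Y' F, U' * ev2 X' Y' G - 1}
  have hS : ∀ (x' : Fin m → LaurentSeries R) (y' : LaurentSeries R), ev2 x' y' F = 0 →
      ev2 x' y' G ≠ 0 → Solv R (LaurentSeries R) S := by
    intro x' y' hF hG
    let z : Fin (m + 2) → LaurentSeries R := fun i =>
      if h : (i : ℕ) < m then x' ⟨i, h⟩ else if (i : ℕ) = m then y' else (ev2 x' y' G)⁻¹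
    have hzX : ∀ i : Fin m, MvPolynomial.aeval z (X' i) = x' i := by
      intro i
      simp [X', z]
    have hzY : MvPolynomial.aeval z Y' = y' := by
      simp [Y', z]
    have hzU : MvPolynomial.aeval z U' = (ev2 x' y' G)⁻¹ := by
      simp [U', z]
    have hev : ∀ H : Polynomial (MvPolynomial (Fin m) R),
        MvPolynomial.aeval z (ev2 X' Y' H) = ev2 x' y' H := by
      intro H
      have h := hullL_ev2' ((MvPolynomial.aeval z : MvPolynomial (Fin (m + 2)) R →ₐ[R]
        LaurentSeries R) : MvPolynomial (Fin (m + 2)) R →+* LaurentSeries R)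
        (fun c => (MvPolynomial.aeval z).commutes c) X' Y' H
      simp only [RingHom.coe_coe] at h
      rw [h, hzY]
      congr 1
      funext i
      exact hzX i
    refine ⟨z, fun q hq => ?_⟩
    simp only [S, Finset.mem_insert, Finset.mem_singleton] at hq
    rcases hq with rfl | rfl
    · rw [hev, hF]
    · rw [map_sub, map_mul, map_one, hzU, hev, inv_mul_cancel₀ hG, sub_self]
  obtain ⟨z, hz⟩ := hR (m + 2) S (hens_solv hS a b r h1 h2 h3)
  have hev : ∀ H : Polynomial (MvPolynomial (Fin m) R),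
      MvPolynomial.eval z (ev2 X' Y' H) = ev2 (fun i => MvPolynomial.eval z (X' i))
        (MvPolynomial.eval z Y') H := by
    intro H
    exact hullL_ev2' (MvPolynomial.eval z) (fun c => MvPolynomial.eval_C c) X' Y' H
  refine ⟨fun i => MvPolynomial.eval z (X' i), MvPolynomial.eval z Y', ?_, ?_⟩
  · rw [← hev]
    exact hz _ (by simp [S])
  · rw [← hev]
    intro h0
    have h4 := hz (U' * ev2 X' Y' G - 1) (by simp [S])
    rw [map_sub, map_mul, h0, mul_zero, map_one, zero_sub, neg_eq_zero] at h4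
    exact one_ne_zero h4

/-- The perfect hull of a large field is large.

Proof. Let `K' = Hull K ⊆ Ω = AlgebraicClosure K` and `K_j = Kp p K Ω j`
(MP_4ed7e0_lc_F/Iso.lean), the elements with `p ^ j`-th power in `K`: an increasing sequence of
fields with union `K'`, each isomorphic to `K` (`Kp_equiv`), so large (`Large.of_equiv`). Let `S` over `K'`
be solvable in `K'((t))`. `hyp` (`sepa_perf`, `hull_perf`) with the valuation ring of power series
gives `F, G` over `K'` and power series `x, y` over `K'` with `F(x, y) = 0`, `F_Y(x, y) ≠ 0`,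
`G(x, y) ≠ 0`. Let `r` be such that `X ^ (r + 1)` does not divide `F_Y(x, y) * G(x, y)`, and `a, b`
the truncations of `x, y` modulo `X ^ (2 * r + 2)`. All coefficients of `F, G, a, b` lie in
`K_j` for some `j`. So over the large field `R = K_j` (`hens_solv` for the system over `R`
consisting of `F(x', y') = 0` and `u * G(x', y') = 1` in `m + 2` unknowns) this system has
a solution in `R((t))`, hence in `R ⊆ K'`, and by the last property of `hyp` (for `K'`) `S` has a
solution in `K'`. -/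
theorem hull_large (p : ℕ) [Fact p.Prime] (K : Type u) [Field K] [CharP K p] (hK : Large K) :
    Large (Hull K) := by
  classical
  have hE : ExpChar K p := ExpChar.prime Fact.out
  have hch : CharP (Hull K) p := charP_of_injective_algebraMap (algebraMap K (Hull K)).injective p
  -- the fields `K_j`
  let Ω := AlgebraicClosure K
  let E : ℕ → Type u := fun j => Kp p K Ω j
  let ι : ∀ j, Kp p K Ω j →+* Hull K := fun j =>
    ((Kp p K Ω j).val.toRingHom).codRestrict (perfectClosure K Ω) (by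
      rintro ⟨x, c, hc⟩
      exact (mem_perfectClosure_iff_pow_mem p).2 ⟨j, c, hc.symm⟩)
  have hι : ∀ c : Hull K, ∃ j0, ∀ j, j0 ≤ j → ∃ d : Kp p K Ω j, ι j d = c := by
    intro c
    obtain ⟨n, z, hz⟩ := (mem_perfectClosure_iff_pow_mem p).1 c.2
    refine ⟨n, fun j hj => ⟨⟨c.1, z ^ p ^ (j - n), ?_⟩, Subtype.ext rfl⟩⟩
    rw [map_pow, hz, ← pow_mul, ← pow_add, Nat.add_sub_cancel' hj]
  intro n S hS
  obtain ⟨O, hO, hO'⟩ := hullL_val (Hull K)
  obtain ⟨m, F, G, x, y, hx, hy, hF, hF', hG, hlast⟩ :=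
    hyp p (sepa_perf p (hull_perf p K)) O hO S hS
  choose X hX using fun i => hO' (x i) (hx i)
  obtain ⟨Y, hY⟩ := hO' y hy
  have hev : ∀ H : Polynomial (MvPolynomial (Fin m) (Hull K)),
      HahnSeries.ofPowerSeries ℤ (Hull K) (ev2 X Y H) = ev2 x y H := by
    intro H
    have h := hullL_ev2' (HahnSeries.ofPowerSeries ℤ (Hull K)) (fun c => by
      rw [LaurentSeries.algebraMap_apply]
      exact HahnSeries.ofPowerSeries_C c) X Y H
    rw [h, hY]
    congr 1
    funext i
    exact hX i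
  have hF1 : ev2 X Y F = 0 := by
    apply HahnSeries.ofPowerSeries_injective (Γ := ℤ) (R := Hull K)
    rw [hev, hF, map_zero]
  have hF2 : ev2 X Y F.derivative ≠ 0 := by
    intro h
    apply hF'
    rw [← hev, h, map_zero]
  have hG2 : ev2 X Y G ≠ 0 := by
    intro h
    apply hG
    rw [← hev, h, map_zero]
  obtain ⟨r, hr⟩ : ∃ r : ℕ, PowerSeries.coeff r (ev2 X Y F.derivative * ev2 X Y G) ≠ 0 := by
    by_contra hcon
    push Not at hcon
    exact mul_ne_zero hF2 hG2 (PowerSeries.ext hcon)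
  have hr' : ¬ PowerSeries.X ^ (r + 1) ∣ ev2 X Y F.derivative * ev2 X Y G := by
    intro h
    rw [PowerSeries.X_pow_dvd_iff] at h
    exact hr (h r (Nat.lt_succ_self r))
  -- descent
  obtain ⟨j1, hj1⟩ := hullL_lift ι hι F
  obtain ⟨j2, hj2⟩ := hullL_lift ι hι G
  choose j3 hj3 using fun i => hullL_lift1 ι hι (PowerSeries.trunc (2 * r + 1) (X i))
  obtain ⟨j4, hj4⟩ := hullL_lift1 ι hι (PowerSeries.trunc (2 * r + 1) Y)
  let j : ℕ := j1 + j2 + (∑ i, j3 i) + j4
  have hj3' : ∀ i, j3 i ≤ j := by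
    intro i
    have := Finset.single_le_sum (f := j3) (fun i _ => Nat.zero_le _) (Finset.mem_univ i)
    omega
  obtain ⟨F', hF3⟩ := hj1 j (by omega)
  obtain ⟨G', hG3⟩ := hj2 j (by omega)
  choose a' ha' using fun i => hj3 i j (hj3' i)
  obtain ⟨b', hb'⟩ := hj4 j (by omega)
  have hR : Large (Kp p K Ω j) := Large.of_equiv (Kp_equiv p K Ω j).some hK
  let φ : PowerSeries (Kp p K Ω j) →+* PowerSeries (Hull K) := PowerSeries.map (ι j)
  have hφa : ∀ i, φ (a' i : PowerSeries (Kp p K Ω j)) =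
      ((PowerSeries.trunc (2 * r + 1) (X i) : Polynomial (Hull K)) : PowerSeries (Hull K)) := by
    intro i
    rw [← ha' i]
    exact (Polynomial.polynomial_map_coe).symm
  have hφb : φ (b' : PowerSeries (Kp p K Ω j)) =
      ((PowerSeries.trunc (2 * r + 1) Y : Polynomial (Hull K)) : PowerSeries (Hull K)) := by
    rw [← hb']
    exact (Polynomial.polynomial_map_coe).symm
  have hφ : ∀ H : Polynomial (MvPolynomial (Fin m) (Kp p K Ω j)),
      PowerSeries.X ^ (2 * r + 1) ∣ φ (ev2 (fun i => (a' i : PowerSeries (Kp p K Ω j)))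
        (b' : PowerSeries (Kp p K Ω j)) H) - ev2 X Y (H.map (MvPolynomial.map (ι j))) := by
    intro H
    rw [hullL_ev2 φ (ι j) (fun c => by
      change PowerSeries.map (ι j) (PowerSeries.C c) = PowerSeries.C (ι j c)
      exact PowerSeries.map_C _ _)]
    refine ev2_congr _ (fun i => ?_) ?_
    · rw [hφa i]
      exact hullL_trunc _ _
    · rw [hφb]
      exact hullL_trunc _ _
  have hr1 : ∀ f g : PowerSeries (Hull K), PowerSeries.X ^ (2 * r + 1) ∣ f - g →
      PowerSeries.X ^ (r + 1) ∣ f → PowerSeries.X ^ (r + 1) ∣ g := by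
    intro f g h1 h2
    have h3 : PowerSeries.X ^ (r + 1) ∣ f - g := (pow_dvd_pow _ (by omega)).trans h1
    have h4 := dvd_sub h2 h3
    rwa [sub_sub_cancel] at h4
  obtain ⟨x', y', hxy, hxyG⟩ := hullL_large hR F' G'
    (fun i => (a' i : PowerSeries (Kp p K Ω j))) (b' : PowerSeries (Kp p K Ω j)) r
    (by
      rw [← hullL_dvd (ι j)]
      have h := hφ F'
      rw [hF3, hF1, sub_zero] at h
      exact h)
    (by
      rw [← hullL_dvd (ι j)]
      intro h
      have h5 := hr1 _ _ (hφ F'.derivative) h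
      rw [← Polynomial.derivative_map, hF3] at h5
      exact hr' (h5.mul_right _))
    (by
      rw [← hullL_dvd (ι j)]
      intro h
      have h5 := hr1 _ _ (hφ G') h
      rw [hG3] at h5
      exact hr' (h5.mul_left _))
  obtain ⟨w, hw⟩ := hlast (Hull K) (fun i => ι j (x' i)) (ι j y')
    (by
      rw [← hF3, ← hullL_ev2 (ι j) (ι j) (fun c => rfl), hxy, map_zero])
    (by
      rw [← hG3, ← hullL_ev2 (ι j) (ι j) (fun c => rfl)]
      intro h
      exact hxyG ((map_eq_zero (ι j)).1 h))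
  refine ⟨w, fun q hq => ?_⟩
  have h6 := hw q hq
  rw [MvPolynomial.aeval_def, Algebra.algebraMap_self] at h6
  exact h6

end Pool.Agent.R4U
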