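import Pool.Agent.Lib.MP_4ed7e0_lc_U.Defs

/-!
# MP_4ed7e0_lc, project U: hypersurface models
-/

set_option autoImplicit false

namespace Pool.Agent.R4U

noncomputable section

universe u v w

open Pool.Agent.R4F

/-- The value at `(x, y)` of a polynomial in `Y` with coefficients in `K[X_1, ..., X_m]`. -/
def ev2 {K : Type u} {A : Type v} [CommRing K] [CommRing A] [Algebra K A] {m : ℕ} (x : Fin m → A)
    (y : A) (F : Polynomial (MvPolynomial (Fin m) K)) : A :=
  (F.map (MvPolynomial.aeval x : MvPolynomial (Fin m) K →ₐ[K] A).toRingHom).eval y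

/-- Proof. If `∑ c_i x_i ^ p = 0` and `c_i = d_i ^ p` then `(∑ d_i x_i) ^ p = 0`, so all `d_i = 0`. -/
theorem sepa_perf (p : ℕ) [Fact p.Prime] {K L : Type u} [Field K] [CharP K p] [Field L]
    [Algebra K L] (hK : ∀ x : K, ∃ y, y ^ p = x) : Sepa p K L := by
  have hc : CharP L p := charP_of_injective_algebraMap (algebraMap K L).injective p
  intro s hs
  rw [linearIndepOn_finset_iff] at hs ⊢
  intro f hf i hi
  choose d hd using hK
  have h1 : (∑ i ∈ s, d (f i) • i) ^ p = 0 := by
    rw [sum_pow_char p, ← hf]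
    refine Finset.sum_congr rfl fun i _ => ?_
    rw [smul_pow, hd]
  have h2 : ∑ i ∈ s, d (f i) • i = 0 := eq_zero_of_pow_eq_zero h1
  have h3 := hs (fun i => d (f i)) h2 i hi
  have h4 : d (f i) = 0 := h3
  rw [← hd (f i), h4, zero_pow (Fact.out : p.Prime).ne_zero]

private theorem Hyp_clear {K N : Type u} [Field K] [Field N] [Algebra K N] {m : ℕ}
    (x : Fin m → N) (f : Polynomial (IntermediateField.adjoin K (Set.range x))) :
    ∃ (b : MvPolynomial (Fin m) K) (P : Polynomial (MvPolynomial (Fin m) K)),
      MvPolynomial.aeval x b ≠ 0 ∧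
      P.map (MvPolynomial.aeval x : MvPolynomial (Fin m) K →ₐ[K] N).toRingHom =
        Polynomial.C (MvPolynomial.aeval x b) * f.map (algebraMap _ N) := by
  induction f using Polynomial.induction_on' with
  | add f g hf hg =>
    obtain ⟨b, P, hb, hP⟩ := hf
    obtain ⟨c, Q, hc, hQ⟩ := hg
    refine ⟨b * c, Polynomial.C c * P + Polynomial.C b * Q, ?_, ?_⟩
    · rw [map_mul]
      exact mul_ne_zero hb hc
    · rw [Polynomial.map_add, Polynomial.map_mul, Polynomial.map_mul, Polynomial.map_C,
        Polynomial.map_C, hP, hQ, Polynomial.map_add, map_mul, Polynomial.C_mul]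
      change Polynomial.C (MvPolynomial.aeval x c) * _ + Polynomial.C (MvPolynomial.aeval x b) * _
        = _
      ring
  | monomial k a =>
    obtain ⟨r, s, hrs⟩ := (IntermediateField.mem_adjoin_range_iff K x (a : N)).1 a.2
    by_cases hs : MvPolynomial.aeval x s = 0
    · refine ⟨1, 0, by rw [map_one]; exact one_ne_zero, ?_⟩
      have ha : a = 0 := by
        apply Subtype.ext
        rw [hrs, hs, div_zero]
        rfl
      rw [ha, Polynomial.monomial_zero_right, Polynomial.map_zero, Polynomial.map_zero, mul_zero]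
    · refine ⟨s, Polynomial.monomial k r, hs, ?_⟩
      rw [Polynomial.map_monomial, Polynomial.map_monomial, Polynomial.C_mul_monomial]
      congr 1
      have h1 : (algebraMap (IntermediateField.adjoin K (Set.range x)) N) a = (a : N) := rfl
      rw [h1, hrs, mul_div_cancel₀ _ hs]
      rfl

private theorem Hyp_hom {K A : Type u} [Field K] [CommRing A] [Algebra K A] {n : ℕ} (d : A)
    (P : Fin n → A) (q : MvPolynomial (Fin n) K) :
    ∃ (e : ℕ) (Q : A), ∀ (R : Type u) [Field R] [Algebra K R] (Θ : A →ₐ[K] R), Θ d ≠ 0 →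
      Θ Q = Θ d ^ e * MvPolynomial.aeval (fun i => Θ (P i) / Θ d) q := by
  induction q using MvPolynomial.induction_on with
  | C a =>
    refine ⟨0, algebraMap K A a, fun R _ _ Θ hd => ?_⟩
    rw [MvPolynomial.aeval_C, pow_zero, one_mul, AlgHom.commutes]
  | add q r hq hr =>
    obtain ⟨e, Q, hQ⟩ := hq
    obtain ⟨e', Q', hQ'⟩ := hr
    refine ⟨e + e', d ^ e' * Q + d ^ e * Q', fun R _ _ Θ hd => ?_⟩
    rw [map_add, map_mul, map_mul, map_pow, map_pow, hQ R Θ hd, hQ' R Θ hd, map_add]
    ring
  | mul_X q i hq =>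
    obtain ⟨e, Q, hQ⟩ := hq
    refine ⟨e + 1, Q * P i, fun R _ _ Θ hd => ?_⟩
    rw [map_mul, hQ R Θ hd, map_mul, MvPolynomial.aeval_X, pow_succ]
    have h1 : Θ (P i) = Θ d * (Θ (P i) / Θ d) := (mul_div_cancel₀ _ hd).symm
    conv_lhs => rw [h1]
    ring

private def Hyp_ev {K A : Type u} [CommRing K] [CommRing A] [Algebra K A] {m : ℕ}
    (x : Fin m → A) (y : A) : Polynomial (MvPolynomial (Fin m) K) →ₐ[K] A :=
  { Polynomial.eval₂RingHom (MvPolynomial.aeval x : MvPolynomial (Fin m) K →ₐ[K] A).toRingHom y with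
    commutes' := fun c => by
      change Polynomial.eval₂ (MvPolynomial.aeval x : MvPolynomial (Fin m) K →ₐ[K] A).toRingHom y
        (algebraMap K (Polynomial (MvPolynomial (Fin m) K)) c) = _
      rw [Polynomial.algebraMap_apply, Polynomial.eval₂_C]
      exact AlgHom.commutes _ c }

private theorem Hyp_ev_eq {K A : Type u} [CommRing K] [CommRing A] [Algebra K A] {m : ℕ}
    (x : Fin m → A) (y : A) (F : Polynomial (MvPolynomial (Fin m) K)) :
    ev2 x y F = Hyp_ev x y F := by
  unfold ev2
  rw [Polynomial.eval_map]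
  rfl

private theorem Hyp_core {K N : Type u} [Field K] [Field N] [Algebra K N] {m : ℕ}
    (x : Fin m → N) (hx : AlgebraicIndependent K x)
    (hsep : Algebra.IsSeparable (IntermediateField.adjoin K (Set.range x)) N)
    (hfd : FiniteDimensional (IntermediateField.adjoin K (Set.range x)) N) {n : ℕ}
    (ξ : Fin n → N) :
    ∃ (F G : Polynomial (MvPolynomial (Fin m) K)) (y : N), F.Monic ∧ ev2 x y F = 0 ∧
      ev2 x y F.derivative ≠ 0 ∧ ev2 x y G ≠ 0 ∧
      ∀ (R : Type u) [Field R] [Algebra K R] (x' : Fin m → R) (y' : R), ev2 x' y' F = 0 →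
        ev2 x' y' G ≠ 0 → ∃ ξ' : Fin n → R, ∀ q : MvPolynomial (Fin n) K,
          MvPolynomial.aeval ξ q = 0 → MvPolynomial.aeval ξ' q = 0 := by
  classical
  set ψ : MvPolynomial (Fin m) K →ₐ[K] N := MvPolynomial.aeval x with hψ
  have hinj : Function.Injective ψ := hx
  let _ : Algebra (MvPolynomial (Fin m) K) N := ψ.toRingHom.toAlgebra
  have hmap : ∀ b, algebraMap (MvPolynomial (Fin m) K) N b = ψ b := fun _ => rfl
  have hae : ∀ (z : N) (P : Polynomial (MvPolynomial (Fin m) K)),
      ev2 x z P = Polynomial.aeval z P := by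
    intro z P
    unfold ev2
    rw [Polynomial.eval_map]
    rfl
  have hfs : FaithfulSMul (MvPolynomial (Fin m) K) N :=
    (faithfulSMul_iff_algebraMap_injective _ _).2 hinj
  have hψE : ∀ b, ψ b ∈ IntermediateField.adjoin K (Set.range x) := by
    intro b
    rw [IntermediateField.mem_adjoin_range_iff]
    exact ⟨b, 1, by rw [map_one, div_one]⟩
  -- evaluation of cleared polynomials
  have hclear : ∀ (z : N) (f : Polynomial (IntermediateField.adjoin K (Set.range x)))
      (b : MvPolynomial (Fin m) K) (P : Polynomial (MvPolynomial (Fin m) K)),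
      P.map ψ.toRingHom = Polynomial.C (ψ b) * f.map (algebraMap _ N) →
      Polynomial.aeval z P = ψ b * Polynomial.aeval z f := by
    intro z f b P h
    rw [← hae]
    unfold ev2
    rw [← hψ, h, Polynomial.eval_mul, Polynomial.eval_C, Polynomial.eval_map,
      ← Polynomial.aeval_def]
  obtain ⟨α, hα⟩ := Field.exists_primitive_element (IntermediateField.adjoin K (Set.range x)) N
  have hαint : IsIntegral (IntermediateField.adjoin K (Set.range x)) α :=
    Algebra.IsIntegral.isIntegral α
  have hαalg : IsAlgebraic (MvPolynomial (Fin m) K) α := by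
    obtain ⟨b, M, hb, hM⟩ := Hyp_clear x
      (minpoly (IntermediateField.adjoin K (Set.range x)) α)
    refine ⟨M, ?_, ?_⟩
    · intro h0
      rw [h0, Polynomial.map_zero] at hM
      have h1 := hM.symm
      rw [mul_eq_zero, Polynomial.C_eq_zero] at h1
      rcases h1 with h1 | h1
      · exact hb h1
      · rw [Polynomial.map_eq_zero] at h1
        exact minpoly.ne_zero hαint h1
    · rw [hclear α _ b M hM, minpoly.aeval, mul_zero]
  obtain ⟨c, hc0, hcint⟩ := hαalg.exists_integral_multiple
  set y : N := c • α with hy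
  have hyc : y = ψ c * α := by
    rw [hy, Algebra.smul_def, hmap]
  have hψc : ψ c ≠ 0 := by
    rw [Ne, ← map_zero ψ]
    exact fun h => hc0 (hinj h)
  have hytop : IntermediateField.adjoin (IntermediateField.adjoin K (Set.range x)) {y} = ⊤ := by
    rw [eq_top_iff, ← hα, IntermediateField.adjoin_simple_le_iff]
    have h1 : α = algebraMap (IntermediateField.adjoin K (Set.range x)) N
        ⟨ψ c, hψE c⟩⁻¹ * y := by
      rw [map_inv₀, hyc]
      have h2 : algebraMap (IntermediateField.adjoin K (Set.range x)) N ⟨ψ c, hψE c⟩ = ψ c := rfl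
      rw [h2, inv_mul_cancel_left₀ hψc]
    rw [h1]
    exact mul_mem (IntermediateField.algebraMap_mem _ _)
      (IntermediateField.mem_adjoin_simple_self _ y)
  have hyint : IsIntegral (IntermediateField.adjoin K (Set.range x)) y :=
    Algebra.IsIntegral.isIntegral y
  have hrep : ∀ z : N, ∃ f : Polynomial (IntermediateField.adjoin K (Set.range x)),
      Polynomial.aeval y f = z := by
    intro z
    have h1 : z ∈ IntermediateField.adjoin (IntermediateField.adjoin K (Set.range x)) {y} := by
      rw [hytop]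
      exact IntermediateField.mem_top
    have h2 : z ∈ Algebra.adjoin (IntermediateField.adjoin K (Set.range x)) {y} := by
      rw [← IntermediateField.adjoin_simple_toSubalgebra_of_isAlgebraic hyint.isAlgebraic]
      exact h1
    rw [Algebra.adjoin_singleton_eq_range_aeval] at h2
    obtain ⟨f, hf⟩ := h2
    exact ⟨f, hf⟩
  have hdvd : ∀ Q : Polynomial (MvPolynomial (Fin m) K), Polynomial.aeval y Q = 0 →
      minpoly (MvPolynomial (Fin m) K) y ∣ Q :=
    fun Q hQ => minpoly.isIntegrallyClosed_dvd hcint hQ
  -- the coordinates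
  choose f hf using fun i => hrep (ξ i)
  choose b P hb hP using fun i => Hyp_clear x (f i)
  have hPy : ∀ i, Polynomial.aeval y (P i) = ψ (b i) * ξ i := fun i => by
    rw [hclear y _ _ _ (hP i), hf i]
  set d : Polynomial (MvPolynomial (Fin m) K) := ∏ j, Polynomial.C (b j) with hd
  set P' : Fin n → Polynomial (MvPolynomial (Fin m) K) := fun i =>
    (∏ j ∈ Finset.univ.erase i, Polynomial.C (b j)) * P i with hP'
  have hΨ : ∀ Q : Polynomial (MvPolynomial (Fin m) K), Hyp_ev x y Q = Polynomial.aeval y Q :=
      fun Q => by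
    rw [← Hyp_ev_eq, hae]
  have hC : ∀ b : MvPolynomial (Fin m) K, Hyp_ev x y (Polynomial.C b) = ψ b := fun b => by
    rw [hΨ, Polynomial.aeval_C, hmap]
  have hd0 : Hyp_ev x y d ≠ 0 := by
    rw [hd, map_prod]
    refine Finset.prod_ne_zero_iff.2 fun j _ => ?_
    rw [hC]
    exact hb j
  have hξ : ∀ i, Hyp_ev x y (P' i) / Hyp_ev x y d = ξ i := by
    intro i
    rw [div_eq_iff hd0, hP', hd]
    change Hyp_ev x y ((∏ j ∈ Finset.univ.erase i, Polynomial.C (b j)) * P i) = _
    rw [← Finset.prod_erase_mul Finset.univ _ (Finset.mem_univ i), map_mul, map_mul, hC, hΨ (P i),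
      hPy]
    ring
  refine ⟨minpoly (MvPolynomial (Fin m) K) y, d, y, minpoly.monic hcint, ?_, ?_, ?_, ?_⟩
  · rw [hae, minpoly.aeval]
  · rw [hae]
    intro h0
    obtain ⟨b', M, hb', hM⟩ := Hyp_clear x
      (minpoly (IntermediateField.adjoin K (Set.range x)) y)
    have h1 : Polynomial.aeval y M = 0 := by
      rw [hclear y _ b' M hM, minpoly.aeval, mul_zero]
    obtain ⟨H, hH⟩ := hdvd M h1
    have h2 : Polynomial.aeval y M.derivative = 0 := by
      rw [hH, Polynomial.derivative_mul, map_add, map_mul, map_mul, h0, minpoly.aeval, zero_mul,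
        zero_mul, add_zero]
    have h3 : M.derivative.map ψ.toRingHom = Polynomial.C (ψ b') *
        (minpoly (IntermediateField.adjoin K (Set.range x)) y).derivative.map
          (algebraMap _ N) := by
      rw [← Polynomial.derivative_map, hM, Polynomial.derivative_C_mul, Polynomial.derivative_map]
    rw [hclear y _ b' _ h3] at h2
    have h4 : (minpoly (IntermediateField.adjoin K (Set.range x)) y).Separable :=
      Algebra.IsSeparable.isSeparable (IntermediateField.adjoin K (Set.range x)) y
    rcases mul_eq_zero.1 h2 with h5 | h5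
    · exact hb' h5
    · exact h4.aeval_derivative_ne_zero (minpoly.aeval _ y) h5
  · rw [Hyp_ev_eq]
    exact hd0
  · intro R _ _ x' y' hF hG
    rw [Hyp_ev_eq] at hF hG
    refine ⟨fun i => Hyp_ev x' y' (P' i) / Hyp_ev x' y' d, fun q hq => ?_⟩
    obtain ⟨e, Q, hQ⟩ := Hyp_hom d P' q
    have h1 := hQ N (Hyp_ev x y) hd0
    rw [funext hξ, hq, mul_zero, hΨ] at h1
    obtain ⟨H, hH⟩ := hdvd Q h1
    have h2 := hQ R (Hyp_ev x' y') hG
    rw [hH, map_mul, hF, zero_mul] at h2
    rcases mul_eq_zero.1 h2.symm with h3 | h3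
    · exact absurd h3 (pow_ne_zero _ hG)
    · exact h3

private theorem Hyp_sepa (p : ℕ) [Fact p.Prime] {K L : Type u} [Field K] [CharP K p] [Field L]
    [Algebra K L] (hs : Sepa p K L) (N : IntermediateField K L) : Sepa p K N := by
  classical
  intro s h
  have h0 : LinearIndependent K (fun x : (s : Set N) => (x : N)) := h
  have h1 : LinearIndependent K (fun x : (s : Set N) => ((x : N) : L)) :=
    h0.map' N.val.toLinearMap (LinearMap.ker_eq_bot.2 N.val.injective)
  let t : Finset L := s.image (fun x : N => (x : L))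
  have ht : (t : Set L) = Set.range (fun x : (s : Set N) => ((x : N) : L)) := by
    ext y
    simp [t]
  have h2 : LinearIndepOn K id (t : Set L) := by
    rw [ht]
    exact (linearIndepOn_id_range_iff h1.injective).2 h1
  have h3 := hs t h2
  have h4 : LinearIndependent K (fun x : (s : Set N) => ((x : N) : L) ^ p) := by
    have h5 : LinearIndependent K (fun y : (t : Set L) => (y : L) ^ p) := h3
    let e : ↥(s : Set N) → ↥(t : Set L) := fun x => ⟨((x : N) : L), by
      rw [ht]
      exact ⟨x, rfl⟩⟩
    have he : Function.Injective e := by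
      intro x y hxy
      have h6 : ((x : N) : L) = ((y : N) : L) := congrArg (fun z : ↥(t : Set L) => (z : L)) hxy
      exact Subtype.ext (Subtype.ext h6)
    exact h5.comp e he
  have h7 : LinearIndependent K (fun x : (s : Set N) => (x : N) ^ p) := by
    refine LinearIndependent.of_comp N.val.toLinearMap ?_
    exact h4
  exact h7

/-- A separating transcendence basis with elements in the valuation ring. -/
private theorem Hyp_basis (p : ℕ) [Fact p.Prime] {K L : Type u} [Field K] [CharP K p] [Field L]
    [Algebra K L] (N : IntermediateField K L) (hN : Sepa p K N) (O : ValuationSubring L)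
    [Algebra.EssFiniteType K N] : ∃ (m : ℕ) (x : Fin m → N), (∀ i, ((x i : N) : L) ∈ O) ∧
      AlgebraicIndependent K x ∧
      Algebra.IsSeparable (IntermediateField.adjoin K (Set.range x)) N := by
  classical
  obtain ⟨s, hs1, hs2⟩ :=
    exists_isTranscendenceBasis_and_isSeparable_of_linearIndepOn_pow_of_essFiniteType
      (k := K) (K := N) p Fact.out hN
  let φ : N → N := fun z => if ((z : N) : L) ∈ O then z else z⁻¹
  have hφ1 : ∀ z : N, ((z : N) : L) ∈ O → φ z = z := fun z hz => if_pos hz
  have hφ2 : ∀ z : N, ((z : N) : L) ∉ O → φ z = z⁻¹ := fun z hz => if_neg hz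
  have hφO : ∀ z : N, ((φ z : N) : L) ∈ O := by
    intro z
    by_cases hz : ((z : N) : L) ∈ O
    · rw [hφ1 z hz]
      exact hz
    · rw [hφ2 z hz]
      exact (O.mem_or_inv_mem ((z : N) : L)).resolve_left hz
  have hadj : IntermediateField.adjoin K ((s.image φ : Finset N) : Set N) =
      IntermediateField.adjoin K (s : Set N) := by
    apply le_antisymm
    · rw [IntermediateField.adjoin_le_iff]
      intro z hz
      rw [Finset.mem_coe, Finset.mem_image] at hz
      obtain ⟨w, hw, rfl⟩ := hz
      have hw' : w ∈ IntermediateField.adjoin K (s : Set N) :=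
        IntermediateField.subset_adjoin _ _ hw
      by_cases h : ((w : N) : L) ∈ O
      · rw [hφ1 w h]
        exact hw'
      · rw [hφ2 w h]
        exact inv_mem hw'
    · rw [IntermediateField.adjoin_le_iff]
      intro w hw
      have hw' : φ w ∈ IntermediateField.adjoin K ((s.image φ : Finset N) : Set N) :=
        IntermediateField.subset_adjoin _ _ (Finset.mem_coe.2 (Finset.mem_image_of_mem φ hw))
      by_cases h : ((w : N) : L) ∈ O
      · rw [hφ1 w h] at hw'
        exact hw'
      · rw [hφ2 w h] at hw'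
        have h2 := inv_mem hw'
        rw [inv_inv] at h2
        exact h2
  have hsep : Algebra.IsSeparable
      (IntermediateField.adjoin K ((s.image φ : Finset N) : Set N)) N := by
    rw [hadj]
    exact hs2
  have halg : Algebra.IsAlgebraic (Algebra.adjoin K ((s.image φ : Finset N) : Set N)) N := by
    rw [← IntermediateField.isAlgebraic_adjoin_iff_top]
    infer_instance
  obtain ⟨u, hut, hu⟩ := exists_isTranscendenceBasis_subset (R := K)
    ((s.image φ : Finset N) : Set N)
  lift u to Finset N using (s.image φ).finite_toSet.subset hut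
  have hcard : u.card = s.card := by
    have h1 := hu.cardinalMk_eq hs1
    have h2 : (Cardinal.mk (u : Set N)) = (u.card : Cardinal) := by
      rw [Finset.coe_sort_coe, Cardinal.mk_coe_finset]
    have h3 : (Cardinal.mk s) = (s.card : Cardinal) := Cardinal.mk_coe_finset
    rw [h3] at h1
    exact Nat.cast_injective (h2.symm.trans h1)
  have hueq : u = s.image φ := by
    refine Finset.eq_of_subset_of_card_le (Finset.coe_subset.1 hut) ?_
    rw [hcard]
    exact Finset.card_image_le
  have hut' : AlgebraicIndependent K (fun z : ↥(u : Set N) => (z : N)) := hu.1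
  refine ⟨u.card, fun i => ((u.equivFin.symm i : u) : N), ?_, ?_, ?_⟩
  · intro i
    have h1 : ((u.equivFin.symm i : u) : N) ∈ s.image φ := by
      rw [← hueq]
      exact (u.equivFin.symm i).2
    obtain ⟨w, -, hw⟩ := Finset.mem_image.1 h1
    have h2 := hφO w
    rw [hw] at h2
    exact h2
  · let e : Fin u.card → ↥(u : Set N) := fun i =>
      ⟨((u.equivFin.symm i : u) : N), (u.equivFin.symm i).2⟩
    have he : Function.Injective e := fun i j hij =>
      u.equivFin.symm.injective (Subtype.ext (congrArg (fun z : ↥(u : Set N) => (z : N)) hij))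
    exact hut'.comp e he
  · have hr : Set.range (fun i => ((u.equivFin.symm i : u) : N)) =
        ((s.image φ : Finset N) : Set N) := by
      rw [← hueq]
      ext z
      constructor
      · rintro ⟨i, rfl⟩
        exact (u.equivFin.symm i).2
      · intro hz
        exact ⟨u.equivFin ⟨z, hz⟩, by simp⟩
    rw [hr]
    exact hsep

private theorem Hyp_ev2_map {K A B : Type u} [CommRing K] [CommRing A] [Algebra K A] [CommRing B]
    [Algebra K B] (g : A →ₐ[K] B) {m : ℕ} (x : Fin m → A) (y : A)
    (F : Polynomial (MvPolynomial (Fin m) K)) :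
    ev2 (fun i => g (x i)) (g y) F = g (ev2 x y F) := by
  unfold ev2
  have h := Polynomial.hom_eval₂ F
    (MvPolynomial.aeval x : MvPolynomial (Fin m) K →ₐ[K] A).toRingHom (g : A →+* B) y
  rw [Polynomial.eval_map, Polynomial.eval_map]
  refine Eq.trans ?_ h.symm
  congr 1
  have h2 := MvPolynomial.comp_aeval x g
  ext z
  · simp
  · simp

private theorem Hyp_int {K L : Type u} [Field K] [Field L] [Algebra K L]
    (O : ValuationSubring L) (hO : ∀ c : K, algebraMap K L c ∈ O) {m : ℕ} (x : Fin m → L)
    (hx : ∀ i, x i ∈ O) (y : L) {F : Polynomial (MvPolynomial (Fin m) K)} (hF : F.Monic)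
    (h0 : ev2 x y F = 0) : y ∈ O := by
  let θ : MvPolynomial (Fin m) K →+* O :=
    MvPolynomial.eval₂Hom ((algebraMap K L).codRestrict O hO) fun i => ⟨x i, hx i⟩
  have hθ : (algebraMap O L).comp θ =
      (MvPolynomial.aeval x : MvPolynomial (Fin m) K →ₐ[K] L).toRingHom := by
    apply MvPolynomial.ringHom_ext
    · intro c
      simp only [θ, RingHom.comp_apply, MvPolynomial.eval₂Hom_C]
      change _ = MvPolynomial.aeval x (MvPolynomial.C c)
      rw [MvPolynomial.aeval_C]
      rfl
    · intro i
      simp only [θ, RingHom.comp_apply, MvPolynomial.eval₂Hom_X']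
      change _ = MvPolynomial.aeval x (MvPolynomial.X i)
      rw [MvPolynomial.aeval_X]
      rfl
  have hint : IsIntegral O y := by
    refine ⟨F.map θ, hF.map θ, ?_⟩
    rw [Polynomial.eval₂_map, hθ]
    unfold ev2 at h0
    rw [Polynomial.eval_map] at h0
    exact h0
  obtain ⟨z, hz⟩ := IsIntegrallyClosed.isIntegral_iff.1 hint
  rw [← hz]
  exact z.2

/-- Hypersurface models: a solution of a system in a separable extension gives a simple point of a
hypersurface `F(X, Y) = 0`, with coordinates in a given valuation ring, such that points of the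
hypersurface outside of `G = 0` in any field give solutions of the system.

Proof. Let `ξ` be the solution and `N = K(ξ) ⊆ L`. As in `Pool.Agent.R4F.gen` (file
MP_4ed7e0_lc_F/Gen.lean) there is a separating transcendence basis `x_1, ..., x_m` of `N` over `K`
(`exists_isTranscendenceBasis_and_isSeparable_of_linearIndepOn_pow_of_essFiniteType`). Replacing
`x_i` by its inverse if necessary (this does not change `K(x_i)`) we may assume `x_i ∈ O`. `N` is
finite and separable over `K(x)`, so `N = K(x)(y)` (primitive element), and again we may assume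
`y ∈ O` (replace `y` by `y⁻¹` if `y ≠ 0`). Multiplying the minimal polynomial of `y` over `K(x)` with
a common denominator of its coefficients we get `F ∈ K[X][Y]` with `F(x, y) = 0`, `F_Y(x, y) ≠ 0`.
Write `ξ_i = P_i(x, y) / d(x)` with `P_i ∈ K[X][Y]`, `d ∈ K[X]`, `d(x) ≠ 0`. For an equation `q` of the
system let `Q = d ^ e * q(P / d) ∈ K[X][Y]` (`e` large); it vanishes at `(x, y)`, so it is divisible by
the minimal polynomial in `K(x)[Y]`: `c * Q = F * R` with `0 ≠ c ∈ K[X]`, `R ∈ K[X][Y]` (the
`x_i` are algebraically independent, `K[X] ≅ K[x]`). Let `G` be the product of `d` and all the `c`.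
If `F(x', y') = 0` and `G(x', y') ≠ 0` then `Q(x', y') = 0` and `P(x', y') / d(x')` is a solution. -/
theorem hyp (p : ℕ) [Fact p.Prime] {K L : Type u} [Field K] [CharP K p] [Field L] [Algebra K L]
    (hs : Sepa p K L) (O : ValuationSubring L) (hO : ∀ c : K, algebraMap K L c ∈ O) {n : ℕ}
    (S : Finset (MvPolynomial (Fin n) K)) (hS : Solv K L S) :
    ∃ (m : ℕ) (F G : Polynomial (MvPolynomial (Fin m) K)) (x : Fin m → L) (y : L),
      (∀ i, x i ∈ O) ∧ y ∈ O ∧ ev2 x y F = 0 ∧ ev2 x y F.derivative ≠ 0 ∧ ev2 x y G ≠ 0 ∧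
      ∀ (R : Type u) [Field R] [Algebra K R] (x' : Fin m → R) (y' : R), ev2 x' y' F = 0 →
        ev2 x' y' G ≠ 0 → Solv K R S := by
  classical
  obtain ⟨ξ, hξ⟩ := hS
  have hN := Hyp_sepa p hs (IntermediateField.adjoin K (Set.range ξ))
  have hess : Algebra.EssFiniteType K (IntermediateField.adjoin K (Set.range ξ)) := by
    rw [IntermediateField.essFiniteType_iff]
    exact IntermediateField.fg_adjoin_of_finite (Set.finite_range ξ)
  obtain ⟨m, x, hxO, hx, hsep⟩ := Hyp_basis p (IntermediateField.adjoin K (Set.range ξ)) hN O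
  have hess' : Algebra.EssFiniteType (IntermediateField.adjoin K (Set.range x))
      (IntermediateField.adjoin K (Set.range ξ)) := Algebra.EssFiniteType.of_comp K _ _
  have hfd : FiniteDimensional (IntermediateField.adjoin K (Set.range x))
      (IntermediateField.adjoin K (Set.range ξ)) :=
    Algebra.finite_of_essFiniteType_of_isAlgebraic
  have hmem : ∀ i, ξ i ∈ IntermediateField.adjoin K (Set.range ξ) := fun i =>
    IntermediateField.subset_adjoin _ _ ⟨i, rfl⟩
  obtain ⟨F, G, y, hmon, hF, hF', hG, hpts⟩ := Hyp_core x hx hsep hfd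
    (fun i => (⟨ξ i, hmem i⟩ : IntermediateField.adjoin K (Set.range ξ)))
  have hval : ∀ P : Polynomial (MvPolynomial (Fin m) K),
      ev2 (fun i => ((x i : IntermediateField.adjoin K (Set.range ξ)) : L)) (y : L) P =
        ((ev2 x y P : IntermediateField.adjoin K (Set.range ξ)) : L) := fun P =>
    Hyp_ev2_map (IntermediateField.adjoin K (Set.range ξ)).val x y P
  have hinj : ∀ z : IntermediateField.adjoin K (Set.range ξ), (z : L) = 0 → z = 0 := fun z hz =>
    Subtype.ext hz
  refine ⟨m, F, G, fun i => (x i : L), (y : L), hxO, ?_, ?_, ?_, ?_, ?_⟩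
  · refine Hyp_int O hO (fun i => (x i : L)) hxO (y : L) hmon ?_
    rw [hval, hF]
    rfl
  · rw [hval, hF]
    rfl
  · rw [hval]
    exact fun h => hF' (hinj _ h)
  · rw [hval]
    exact fun h => hG (hinj _ h)
  · intro R _ _ x' y' h1 h2
    obtain ⟨ξ', hξ'⟩ := hpts R x' y' h1 h2
    refine ⟨ξ', fun q hq => hξ' q ?_⟩
    apply hinj
    have h3 := MvPolynomial.comp_aeval_apply
      (φ := (IntermediateField.adjoin K (Set.range ξ)).val)
      (fun i => (⟨ξ i, hmem i⟩ : IntermediateField.adjoin K (Set.range ξ))) q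
    exact h3.trans (hξ q hq)

end

end Pool.Agent.R4U
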