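import Pool.Agent.Lib.MP_4ed7e0_lc_U.PE

/-!
# MP_4ed7e0_lc, project U: coordinates of algebraic elements are algebraic
-/

set_option autoImplicit false

namespace Pool.Agent.R4U

universe u

variable {Ω : Type u} [NormedField Ω] [IsUltrametricDist Ω]

open Polynomial in
/-- If `P(θ)` is algebraic over `E` then so is `P(θ')` for every root `θ'` of the minimal polynomial
of `θ` over `k`. -/
private theorem interp_root {k E H : Subfield Ω}
    (hk : Triv k) (hres : Res k H) (kE : k ≤ E) (EH : E ≤ H) {θ : Ω}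
    (hθ : θ ∈ abar k) (a : Fin (minpoly k θ).natDegree → Ω) (ha : ∀ i, a i ∈ H)
    (halg : IsAlgebraic E (∑ i, a i * θ ^ (i : ℕ))) {θ' : Ω}
    (hθ' : Polynomial.aeval θ' (minpoly k θ) = 0) :
    IsAlgebraic E (∑ i, a i * θ' ^ (i : ℕ)) := by
  have hint : IsIntegral k θ := isAlgebraic_iff_isIntegral.mp (mem_abar.mp hθ)
  obtain ⟨m, hm0, hm⟩ := halg
  refine ⟨m, hm0, ?_⟩
  obtain ⟨PH, hPH⟩ : ∃ PH : Polynomial H, PH =
      ∑ i, Polynomial.C (⟨a i, ha i⟩ : H) * Polynomial.X ^ (i : ℕ) := ⟨_, rfl⟩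
  have hPe : ∀ t : Ω, eval₂ H.subtype t PH = ∑ i, a i * t ^ (i : ℕ) := by
    intro t
    rw [hPH, eval₂_finsetSum]
    refine Finset.sum_congr rfl fun i _ => ?_
    rw [eval₂_mul, eval₂_C, eval₂_X_pow]
    rfl
  obtain ⟨RH, hRH⟩ : ∃ RH : Polynomial H, RH = (m.map (Subfield.inclusion EH)).comp PH :=
    ⟨_, rfl⟩
  have hRe : ∀ t : Ω, eval₂ H.subtype t RH = aeval (∑ i, a i * t ^ (i : ℕ)) m := by
    intro t
    rw [hRH, eval₂_comp, hPe, eval₂_map]
    rfl
  obtain ⟨QH, hQH⟩ : ∃ QH : Polynomial H, QH =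
      (minpoly k θ).map (Subfield.inclusion (kE.trans EH)) := ⟨_, rfl⟩
  have hQe : ∀ t : Ω, eval₂ H.subtype t QH = aeval t (minpoly k θ) := by
    intro t
    rw [hQH, eval₂_map]
    rfl
  have hQm : QH.Monic := by
    rw [hQH]
    exact (minpoly.monic hint).map _
  have hQd : QH.natDegree = (minpoly k θ).natDegree := by
    rw [hQH]
    exact (minpoly.monic hint).natDegree_map _
  have hQ1 : QH ≠ 1 := by
    intro h
    have h1 := minpoly.natDegree_pos hint
    rw [← hQd, h, natDegree_one] at h1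
    exact absurd h1 (lt_irrefl _)
  have hdec := modByMonic_add_div RH QH
  have hr0 : RH %ₘ QH = 0 := by
    have hdeg : (RH %ₘ QH).natDegree < (minpoly k θ).natDegree := by
      rw [← hQd]
      exact natDegree_modByMonic_lt RH hQm hQ1
    have he : eval₂ H.subtype θ (RH %ₘ QH) = 0 := by
      have h1 := congrArg (eval₂ H.subtype θ) hdec
      rw [eval₂_add, eval₂_mul, hQe, hRe, minpoly.aeval, hm, zero_mul, add_zero] at h1
      exact h1
    have hsum : eval₂ H.subtype θ (RH %ₘ QH) =
        ∑ i : Fin (minpoly k θ).natDegree, ((RH %ₘ QH).coeff (i : ℕ) : Ω) * θ ^ (i : ℕ) := by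
      rw [eval₂_eq_sum_range' H.subtype hdeg θ, Finset.sum_range]
      rfl
    rw [hsum] at he
    ext i
    by_cases hi : i < (minpoly k θ).natDegree
    · have h1 := on_pow hk (kE.trans EH) hres hθ
        (fun i : Fin (minpoly k θ).natDegree => ((RH %ₘ QH).coeff (i : ℕ) : Ω))
        (fun i => ((RH %ₘ QH).coeff (i : ℕ)).2) ⟨i, hi⟩
      rw [he, norm_zero] at h1
      have h2 : ((RH %ₘ QH).coeff i : Ω) = 0 := norm_le_zero_iff.mp h1
      rw [h2]
      simp
    · rw [coeff_eq_zero_of_natDegree_lt (lt_of_lt_of_le hdeg (not_lt.mp hi))]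
      simp
  rw [hr0, zero_add] at hdec
  rw [← hRe, ← hdec, eval₂_mul, hQe, hθ', zero_mul]

/-- The minimal polynomial over a perfect field has as many roots as its degree. -/
private theorem interp_card {p : ℕ} [Fact p.Prime] [CharP Ω p] [IsAlgClosed Ω] {k : Subfield Ω}
    (hkp : Perf p k) {θ : Ω} (hθ : θ ∈ abar k) :
    ∃ s : Finset Ω, (∀ t ∈ s, Polynomial.aeval t (minpoly k θ) = 0) ∧
      s.card = (minpoly k θ).natDegree := by
  classical
  have hint : IsIntegral k θ := isAlgebraic_iff_isIntegral.mp (mem_abar.mp hθ)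
  have hc : CharP k p := (algebraMap k Ω).charP (algebraMap k Ω).injective p
  have he : ExpChar k p := ExpChar.prime (Fact.out : p.Prime)
  have hpr : PerfectRing k p := by
    refine PerfectRing.ofSurjective k p fun x => ?_
    obtain ⟨y, hy, hyx⟩ := hkp x.1 x.2
    refine ⟨⟨y, hy⟩, ?_⟩
    apply Subtype.ext
    rw [frobenius_def]
    exact hyx
  have hpf : PerfectField k := PerfectRing.toPerfectField k p
  have hsep : (minpoly k θ).Separable :=
    PerfectField.separable_of_irreducible (minpoly.irreducible hint)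
  have h := Polynomial.card_rootSet_eq_natDegree (K := Ω) hsep (IsAlgClosed.splits _)
  refine ⟨((minpoly k θ).aroots Ω).toFinset, fun t ht => ?_, ?_⟩
  · rw [Multiset.mem_toFinset, Polynomial.mem_aroots] at ht
    exact ht.2
  · rw [← h, ← Fintype.card_coe]
    exact Fintype.card_congr (Equiv.refl _)

/-- Coordinates of an element algebraic over `E ≤ H` with respect to the powers of `θ ∈ abar k` are
algebraic over `E`.

Proof. Let `n = deg q`, `q = minpoly k θ`, and `w = ∑ i < n, a i * θ ^ i = P(θ)` with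
`P = ∑ C (a i) * X ^ i`, a polynomial over `H`. The powers `θ ^ i`, `i < n`, are linearly
independent over `H` (`on_pow`: a vanishing combination has vanishing coefficients), so `q` (mapped
to `H`) is the minimal polynomial of `θ` over `H`. Since `k` is perfect and `Ω` algebraically
closed, `q` has `n` different roots `θ_1, ..., θ_n` in `Ω` (in `abar k`). Let `m ≠ 0` be a
polynomial over `E` with `m(w) = 0`. The polynomial `m(P(X))` over `H` vanishes at `θ`, so it is
divisible by `q` and `m(P(θ_j)) = 0`: all `w_j = P(θ_j)` are algebraic over `E`. By Lagrange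
interpolation (`Lagrange.interpolate`, `Lagrange.eq_interpolate_of_eval_eq`, degree less than `n`)
`P = ∑ j, C (w_j) * ∏_{l ≠ j} C ((θ_j - θ_l)⁻¹) * (X - C θ_l)`, so the coefficients of `P` are
polynomial expressions in the `w_j`, `θ_l`, `(θ_j - θ_l)⁻¹`, which are algebraic over `E` (as
`k ≤ E`); the elements of `Ω` algebraic over `E` form a field. -/
theorem interp {p : ℕ} [Fact p.Prime] [CharP Ω p] [IsAlgClosed Ω] {k E H : Subfield Ω}
    (hk : Triv k) (hkp : Perf p k) (hres : Res k H) (kE : k ≤ E) (EH : E ≤ H) {θ : Ω}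
    (hθ : θ ∈ abar k) (a : Fin (minpoly k θ).natDegree → Ω) (ha : ∀ i, a i ∈ H)
    (halg : IsAlgebraic E (∑ i, a i * θ ^ (i : ℕ))) : ∀ i, IsAlgebraic E (a i) := by
  classical
  have hint : IsIntegral k θ := isAlgebraic_iff_isIntegral.mp (mem_abar.mp hθ)
  obtain ⟨s, hs, hcard⟩ := interp_card hkp hθ
  have hroot : ∀ t : s, Polynomial.aeval t.1 (minpoly k θ) = 0 := fun t => hs t.1 t.2
  obtain ⟨P, hP⟩ : ∃ P : Polynomial Ω, P =
      ∑ i, Polynomial.C (a i) * Polynomial.X ^ (i : ℕ) := ⟨_, rfl⟩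
  have hPe : ∀ t : Ω, P.eval t = ∑ i, a i * t ^ (i : ℕ) := by
    intro t
    rw [hP, Polynomial.eval_finsetSum]
    refine Finset.sum_congr rfl fun i _ => ?_
    simp
  have hPd : P.degree < (minpoly k θ).natDegree := by
    rw [hP]
    refine lt_of_le_of_lt (Polynomial.degree_sum_le _ _) ?_
    rw [Finset.sup_lt_iff (WithBot.bot_lt_coe _)]
    intro i _
    refine lt_of_le_of_lt (Polynomial.degree_C_mul_X_pow_le _ _) ?_
    exact_mod_cast i.2
  have hPc : ∀ i : Fin (minpoly k θ).natDegree, P.coeff (i : ℕ) = a i := by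
    intro i
    rw [hP, Polynomial.finsetSum_coeff, Finset.sum_eq_single i]
    · simp
    · intro j _ hj
      rw [Polynomial.coeff_C_mul_X_pow, if_neg]
      intro h
      exact hj (Fin.ext h.symm)
    · intro h
      exact absurd (Finset.mem_univ i) h
  obtain ⟨F, hF⟩ : ∃ F : IntermediateField E Ω, F = algebraicClosure E Ω := ⟨_, rfl⟩
  have hFm : ∀ x : Ω, x ∈ F ↔ IsAlgebraic E x := by
    intro x
    rw [hF]
    exact mem_algebraicClosure_iff
  have hθF : ∀ t : s, t.1 ∈ F := by
    intro t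
    rw [hFm]
    have h1 : IsAlgebraic k t.1 := ⟨minpoly k θ, minpoly.ne_zero hint, hroot t⟩
    obtain ⟨m, hm0, hm⟩ := h1
    refine ⟨m.map (Subfield.inclusion kE),
      (Polynomial.map_ne_zero_iff (Subfield.inclusion kE).injective).mpr hm0, ?_⟩
    rw [Polynomial.aeval_def, Polynomial.eval₂_map]
    exact hm
  have hwF : ∀ t : s, P.eval t.1 ∈ F := by
    intro t
    rw [hFm, hPe]
    exact interp_root hk hres kE EH hθ a ha halg (hroot t)
  obtain ⟨v, hv⟩ : ∃ v : s → F, v = fun t => ⟨t.1, hθF t⟩ := ⟨_, rfl⟩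
  have hvinj : Set.InjOn v (Finset.univ : Finset s) := by
    intro x _ y _ hxy
    rw [hv] at hxy
    exact Subtype.ext (congrArg (fun z : F => (z : Ω)) hxy)
  obtain ⟨PF, hPF⟩ : ∃ PF : Polynomial F, PF =
      Lagrange.interpolate Finset.univ v fun t => ⟨P.eval t.1, hwF t⟩ := ⟨_, rfl⟩
  have hPFd : PF.degree < (Finset.univ : Finset s).card := by
    rw [hPF]
    exact Lagrange.degree_interpolate_lt _ hvinj
  have hPFe : ∀ t : s, PF.eval (v t) = ⟨P.eval t.1, hwF t⟩ := by
    intro t
    rw [hPF]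
    exact Lagrange.eval_interpolate_at_node _ hvinj (Finset.mem_univ t)
  have hsc : (Finset.univ : Finset s).card = (minpoly k θ).natDegree := by
    rw [Finset.card_univ, Fintype.card_coe, hcard]
  have heq : P = PF.map (algebraMap F Ω) := by
    refine Polynomial.eq_of_degrees_lt_of_eval_index_eq (Finset.univ : Finset s)
      (v := fun t : s => t.1) (fun x _ y _ hxy => Subtype.ext hxy) ?_ ?_ ?_
    · rw [hsc]
      exact hPd
    · refine lt_of_le_of_lt (Polynomial.degree_map_le) hPFd
    · intro t _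
      have h1 : (PF.map (algebraMap F Ω)).eval (algebraMap F Ω (v t)) =
          algebraMap F Ω (PF.eval (v t)) := Polynomial.eval_map_apply _ _
      rw [hPFe] at h1
      have h2 : algebraMap F Ω (v t) = t.1 := by
        rw [hv]
        rfl
      rw [h2] at h1
      exact h1.symm
  intro i
  rw [← hFm, ← hPc i, heq, Polynomial.coeff_map]
  exact (PF.coeff (i : ℕ)).2

end Pool.Agent.R4U
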