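import Pool.Agent.Lib.MP_4ed7e0_lc_F.Defs

/-!
# MP_4ed7e0_lc, project U: the maximal `p`-extension
-/

set_option autoImplicit false

namespace Pool.Agent.R4U

noncomputable section

universe u

open Pool.Agent.R4F
open Polynomial

/-- `N` is a finite Galois extension of `K` of `p`-power degree. -/
def PGal (p : ℕ) (K : Type u) [Field K] (N : IntermediateField K (AlgebraicClosure K)) : Prop :=
  FiniteDimensional K N ∧ IsGalois K N ∧ ∃ n : ℕ, Module.finrank K N = p ^ n

/-- The maximal `p`-extension of `K`. -/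
def KPc (p : ℕ) (K : Type u) [Field K] : IntermediateField K (AlgebraicClosure K) :=
  ⨆ N : {N : IntermediateField K (AlgebraicClosure K) // PGal p K N}, N.1

/-- The fixed field of one automorphism. -/
private def KPc_fix {K : Type u} [Field K] (τ : AlgebraicClosure K ≃ₐ[K] AlgebraicClosure K) :
    IntermediateField K (AlgebraicClosure K) where
  carrier := {z | τ z = z}
  mul_mem' {a b} ha hb := by
    change τ (a * b) = a * b
    rw [map_mul, show τ a = a from ha, show τ b = b from hb]
  add_mem' {a b} ha hb := by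
    change τ (a + b) = a + b
    rw [map_add, show τ a = a from ha, show τ b = b from hb]
  algebraMap_mem' r := τ.commutes r
  inv_mem' a ha := by
    change τ a⁻¹ = a⁻¹
    rw [map_inv₀, show τ a = a from ha]

private theorem KPc_powfix {K : Type u} [Field K]
    {τ : AlgebraicClosure K ≃ₐ[K] AlgebraicClosure K} {z : AlgebraicClosure K} (h : τ z = z)
    (n : ℕ) : (τ ^ n) z = z := by
  induction n with
  | zero => rfl
  | succ n ih =>
    have e : (τ ^ (n + 1)) z = (τ ^ n) (τ z) := by
      rw [pow_succ]
      rfl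
    rw [e, h, ih]

private theorem KPc_pow (p : ℕ) {K : Type u} [Field K]
    {N : IntermediateField K (AlgebraicClosure K)} (h : PGal p K N) :
    ∃ k, ∀ σ : AlgebraicClosure K ≃ₐ[K] AlgebraicClosure K, ∀ z ∈ N, (σ ^ p ^ k) z = z := by
  obtain ⟨h1, h2, k, hk⟩ := h
  refine ⟨k, fun σ z hz => ?_⟩
  have h3 : (AlgEquiv.restrictNormalHom N σ) ^ p ^ k = 1 := by
    rw [← hk, ← IsGalois.card_aut_eq_finrank K N]
    exact pow_card_eq_one'
  rw [← map_pow] at h3
  have h4 := AlgEquiv.restrictNormalHom_apply N (σ ^ p ^ k) ⟨z, hz⟩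
  rw [h3] at h4
  exact h4.symm

private theorem KPc_crit (p : ℕ) [Fact p.Prime] {K : Type u} [Field K]
    {N : IntermediateField K (AlgebraicClosure K)} (h1 : FiniteDimensional K N)
    (h2 : IsGalois K N)
    (h : ∀ σ : AlgebraicClosure K ≃ₐ[K] AlgebraicClosure K, ∃ k, ∀ z ∈ N, (σ ^ p ^ k) z = z) :
    PGal p K N := by
  refine ⟨h1, h2, ?_⟩
  have h3 : IsPGroup p (N ≃ₐ[K] N) := by
    intro g
    obtain ⟨σ, rfl⟩ := AlgEquiv.restrictNormalHom_surjective (K₁ := N) (AlgebraicClosure K) g
    obtain ⟨k, hk⟩ := h σ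
    refine ⟨k, ?_⟩
    rw [← map_pow]
    ext z
    rw [AlgEquiv.restrictNormalHom_apply N (σ ^ p ^ k) z, hk z z.2]
    rfl
  obtain ⟨n, hn⟩ := IsPGroup.iff_card.1 h3
  exact ⟨n, by rw [← hn, IsGalois.card_aut_eq_finrank K N]⟩

/-- Proof. The compositum of two Galois extensions is Galois, and its group embeds into the product
of the two groups (restriction to both fields is injective), so its order divides a power of
`p`. -/
theorem pgal_sup (p : ℕ) [Fact p.Prime] {K : Type u} [Field K]
    {N N' : IntermediateField K (AlgebraicClosure K)} (h : PGal p K N) (h' : PGal p K N') :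
    PGal p K (N ⊔ N') := by
  obtain ⟨h1, h2, h3⟩ := h
  obtain ⟨h1', h2', h3'⟩ := h'
  obtain ⟨k, hk⟩ := KPc_pow p ⟨h1, h2, h3⟩
  obtain ⟨k', hk'⟩ := KPc_pow p ⟨h1', h2', h3'⟩
  have hfd : FiniteDimensional K (N ⊔ N' : IntermediateField K (AlgebraicClosure K)) :=
    inferInstance
  have hn : Normal K (N ⊔ N' : IntermediateField K (AlgebraicClosure K)) :=
    inferInstance
  have hs : Algebra.IsSeparable K (N ⊔ N' : IntermediateField K (AlgebraicClosure K)) :=
    inferInstance
  have hg : IsGalois K (N ⊔ N' : IntermediateField K (AlgebraicClosure K)) := ⟨⟩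
  refine KPc_crit p hfd hg fun σ => ⟨k + k', fun z hz => ?_⟩
  have hz' : (N ⊔ N' : IntermediateField K (AlgebraicClosure K)) ≤
      KPc_fix (σ ^ p ^ (k + k')) := by
    refine sup_le (fun w hw => ?_) (fun w hw => ?_)
    · change (σ ^ p ^ (k + k')) w = w
      rw [pow_add, pow_mul]
      exact KPc_powfix (hk σ w hw) _
    · change (σ ^ p ^ (k + k')) w = w
      rw [pow_add, mul_comm, pow_mul]
      exact KPc_powfix (hk' σ w hw) _
  exact hz' hz

private theorem KPc_bot (p : ℕ) {K : Type u} [Field K] :
    PGal p K (⊥ : IntermediateField K (AlgebraicClosure K)) :=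
  ⟨inferInstance, inferInstance, 0, by rw [IntermediateField.finrank_bot, pow_zero]⟩

/-- Proof. The family is directed by `pgal_sup` and not empty (`⊥`): the supremum is the union
(`IntermediateField.coe_iSup_of_directed`); for finitely many elements use `pgal_sup` again. -/
theorem kpc_fin (p : ℕ) [Fact p.Prime] {K : Type u} [Field K] {n : ℕ}
    (x : Fin n → AlgebraicClosure K) (hx : ∀ i, x i ∈ KPc p K) :
    ∃ N, PGal p K N ∧ ∀ i, x i ∈ N := by
  classical
  have hne : Nonempty {N : IntermediateField K (AlgebraicClosure K) // PGal p K N} :=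
    ⟨⟨⊥, KPc_bot p⟩⟩
  have hd : Directed (· ≤ ·)
      fun N : {N : IntermediateField K (AlgebraicClosure K) // PGal p K N} => N.1 := by
    intro N N'
    exact ⟨⟨N.1 ⊔ N'.1, pgal_sup p N.2 N'.2⟩, le_sup_left, le_sup_right⟩
  have h1 : ∀ i, ∃ N : {N : IntermediateField K (AlgebraicClosure K) // PGal p K N},
      x i ∈ N.1 := by
    intro i
    have h2 : x i ∈ ((KPc p K : IntermediateField K (AlgebraicClosure K)) :
      Set (AlgebraicClosure K)) := hx i
    unfold KPc at h2
    rw [IntermediateField.coe_iSup_of_directed hd, Set.mem_iUnion] at h2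
    exact h2
  choose N hN using h1
  obtain ⟨M, hM⟩ := hd.finset_le (Finset.univ.image N)
  exact ⟨M.1, M.2, fun i => hM (N i) (Finset.mem_image_of_mem _ (Finset.mem_univ i)) (hN i)⟩

private theorem KPc_step (p : ℕ) [Fact p.Prime] {K : Type u} [Field K] [CharP K p]
    {τ : AlgebraicClosure K ≃ₐ[K] AlgebraicClosure K} {z : AlgebraicClosure K}
    (h : τ (z ^ p - z) = z ^ p - z) : (τ ^ p) z = z := by
  have hc : CharP (AlgebraicClosure K) p := charP_of_injective_algebraMap
    (algebraMap K (AlgebraicClosure K)).injective p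
  obtain ⟨c, hce⟩ : ∃ c, c = τ z - z := ⟨_, rfl⟩
  have h1 : c ^ p = c := by
    rw [map_sub, map_pow] at h
    rw [hce, sub_pow_char]
    linear_combination h
  have h2 : τ c = c := by
    rw [← Subfield.mem_bot_iff_pow_eq_self (AlgebraicClosure K) p,
      mem_bot_iff_intCast p (AlgebraicClosure K)] at h1
    obtain ⟨n, hn⟩ := h1
    rw [← hn, map_intCast]
  have h3 : ∀ n : ℕ, (τ ^ n) z = z + n * c := by
    intro n
    induction n with
    | zero =>
      rw [Nat.cast_zero, zero_mul, add_zero]
      rfl
    | succ n ih =>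
      have e : (τ ^ (n + 1)) z = τ ((τ ^ n) z) := by
        rw [pow_succ']
        rfl
      rw [e, ih, map_add, map_mul, map_natCast, h2, Nat.cast_succ]
      have e2 : τ z = z + c := by
        rw [hce]
        ring
      rw [e2]
      ring
  rw [h3 p, CharP.cast_eq_zero, zero_mul, add_zero]

private theorem KPc_ext (p : ℕ) [Fact p.Prime] {K : Type u} [Field K] [CharP K p]
    {N : IntermediateField K (AlgebraicClosure K)} (hN : PGal p K N) {x : AlgebraicClosure K}
    (hx : x ∈ N) : ∃ N', PGal p K N' ∧ ∀ y : AlgebraicClosure K, y ^ p - y = x → y ∈ N' := by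
  obtain ⟨k, hk⟩ := KPc_pow p hN
  obtain ⟨h1, h2, -⟩ := hN
  have hp : 1 < p := (Fact.out : p.Prime).one_lt
  obtain ⟨P, hP⟩ : ∃ P, P = minpoly K x := ⟨_, rfl⟩
  have hint : IsIntegral K x := Algebra.IsIntegral.isIntegral x
  have hPs : P.Separable := by
    have h3 : (minpoly K (⟨x, hx⟩ : N)).Separable := Algebra.IsSeparable.isSeparable K _
    rw [IntermediateField.minpoly_eq] at h3
    rw [hP]
    exact h3
  obtain ⟨f, hf⟩ : ∃ f, f = P.comp (X ^ p - X) := ⟨_, rfl⟩
  have hfs : f.Separable := by
    have h3 : derivative (X ^ p - X : K[X]) = -1 := by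
      rw [derivative_sub, derivative_X_pow, derivative_X, CharP.cast_eq_zero, map_zero, zero_mul,
        zero_sub]
    have h4 : derivative f = -(derivative P).comp (X ^ p - X) := by
      rw [hf, derivative_comp, h3]
      ring
    have h5 := IsCoprime.map hPs (compRingHom (X ^ p - X : K[X]))
    rw [Polynomial.Separable, h4, hf]
    exact h5.neg_right
  have hf0 : f ≠ 0 := hfs.ne_zero
  have hsf : f.IsSplittingField K (IntermediateField.adjoin K (f.rootSet (AlgebraicClosure K))) :=
    IntermediateField.adjoin_rootSet_isSplittingField (IsAlgClosed.splits _)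
  have hfd : FiniteDimensional K
      (IntermediateField.adjoin K (f.rootSet (AlgebraicClosure K))) :=
    IsSplittingField.finiteDimensional _ f
  have hg : IsGalois K (IntermediateField.adjoin K (f.rootSet (AlgebraicClosure K))) :=
    IsGalois.of_separable_splitting_field hfs
  refine ⟨_, KPc_crit p hfd hg fun σ => ⟨k + 1, fun z hz => ?_⟩, fun y hy => ?_⟩
  · have hle : IntermediateField.adjoin K (f.rootSet (AlgebraicClosure K)) ≤
        KPc_fix (σ ^ p ^ (k + 1)) := by
      rw [IntermediateField.adjoin_le_iff]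
      intro w hw
      change (σ ^ p ^ (k + 1)) w = w
      rw [pow_succ, pow_mul]
      refine KPc_step p ?_
      have h3 : aeval (w ^ p - w) (minpoly K x) = 0 := by
        have h4 := (mem_rootSet.1 hw).2
        rw [hf, aeval_comp, map_sub, map_pow, aeval_X, hP] at h4
        exact h4
      obtain ⟨ρ, hρ⟩ := ((isConjRoot_iff_aeval_eq_zero hint).2 h3).symm.exists_algEquiv
      have h5 : w ^ p - w ∈ N := by
        rw [← hρ]
        have h6 := (IntermediateField.normal_iff_forall_map_le' (K := N)).1 inferInstance ρ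
        exact h6 ⟨x, hx, rfl⟩
      exact hk σ _ h5
    exact hle hz
  · refine IntermediateField.subset_adjoin K _ ?_
    rw [mem_rootSet]
    refine ⟨hf0, ?_⟩
    rw [hf, aeval_comp, map_sub, map_pow, aeval_X, hy, hP]
    exact minpoly.aeval K x

/-- The maximal `p`-extension has no Artin-Schreier extensions.

Proof. Let `x ∈ N`, `PGal p K N` (`kpc_fin`), and let `y ∈ AlgebraicClosure K` with
`y ^ p - y = x`. Let `N'` be generated over `N` by the roots of all the polynomials
`Y ^ p - Y - σ x`, `σ ∈ Gal(N/K)`. `N'` is normal over `K` (a `K`-automorphism of the algebraic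
closure maps the set of these roots to itself), separable (these polynomials are separable,
derivative `-1`), and its degree over `N` is a power of `p`: adjoining one root `y'` of
`Y ^ p - Y - b` adjoins all roots `y' + i`, and the degree is `1` or `p` (the polynomial is
irreducible or has a root; or: the Galois group of a compositum of such extensions is killed by
`p`, since `σ y' - y'` is in the prime field; `IsPGroup`). So `PGal p K N'` and `y ∈ KPc p K`. -/
theorem kpc_as (p : ℕ) [Fact p.Prime] {K : Type u} [Field K] [CharP K p] (x : KPc p K) :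
    ∃ y : KPc p K, y ^ p - y = x := by
  obtain ⟨N, hN, hxN⟩ := kpc_fin p (K := K) (fun _ : Fin 1 => (x : AlgebraicClosure K))
    (fun _ => x.2)
  have hx := hxN 0
  obtain ⟨N', hN', hroot⟩ := KPc_ext p hN hx
  have hp : 1 < p := (Fact.out : p.Prime).one_lt
  obtain ⟨y, hy⟩ : ∃ y : AlgebraicClosure K, y ^ p - y = x := by
    have hdeg : (X ^ p - X - C (x : AlgebraicClosure K) : (AlgebraicClosure K)[X]).degree ≠ 0 := by
      have h1 : (X ^ p - X - C (x : AlgebraicClosure K) : (AlgebraicClosure K)[X]).natDegree =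
          p := by
        rw [natDegree_sub_C, FiniteField.X_pow_card_sub_X_natDegree_eq _ hp]
      intro h
      rw [natDegree_eq_of_degree_eq_some (n := 0) h] at h1
      omega
    obtain ⟨y, hy⟩ := IsAlgClosed.exists_root _ hdeg
    refine ⟨y, ?_⟩
    rw [IsRoot.def, eval_sub, eval_sub, eval_pow, eval_X, eval_C, sub_eq_zero] at hy
    exact hy
  have hyK : y ∈ KPc p K := by
    have h1 : N' ≤ KPc p K :=
      le_iSup (fun N : {N : IntermediateField K (AlgebraicClosure K) // PGal p K N} => N.1)
        ⟨N', hN'⟩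
    exact h1 (hroot y hy)
  refine ⟨⟨y, hyK⟩, ?_⟩
  apply Subtype.ext
  exact hy

end

end Pool.Agent.R4U
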