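import Pool.Agent.Lib.MP_4ed7e0_lc_U.Defs

/-!
# MP_4ed7e0_lc, project U: rank one steps between valuation rings
-/

set_option autoImplicit false

namespace Pool.Agent.R4U

universe u

/-- The valuation ring generated by `O` and `t`. -/
private def sucV {F : Type u} [Field F] (O : ValuationSubring F) (t : F)
    (ht : 1 ≤ O.valuation t) : ValuationSubring F where
  carrier := {x | ∃ n : ℕ, O.valuation x ≤ O.valuation t ^ n}
  mul_mem' := by
    rintro a b ⟨n, hn⟩ ⟨m, hm⟩
    refine ⟨n + m, ?_⟩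
    rw [map_mul, pow_add]
    exact mul_le_mul' hn hm
  one_mem' := ⟨0, by rw [map_one, pow_zero]⟩
  add_mem' := by
    rintro a b ⟨n, hn⟩ ⟨m, hm⟩
    refine ⟨n + m, (O.valuation.map_add a b).trans (max_le (hn.trans ?_) (hm.trans ?_))⟩
    · exact pow_le_pow_right₀ ht (Nat.le_add_right _ _)
    · exact pow_le_pow_right₀ ht (Nat.le_add_left _ _)
  zero_mem' := ⟨0, by rw [map_zero]; exact zero_le'⟩
  neg_mem' := by
    rintro a ⟨n, hn⟩
    refine ⟨n, ?_⟩
    rw [Valuation.map_neg]
    exact hn
  mem_or_inv_mem' := by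
    intro x
    rcases O.mem_or_inv_mem x with h | h
    · left
      refine ⟨0, ?_⟩
      rw [pow_zero]
      exact (O.valuation_le_one_iff x).mpr h
    · right
      refine ⟨0, ?_⟩
      rw [pow_zero]
      exact (O.valuation_le_one_iff _).mpr h

private lemma sucV_mem {F : Type u} [Field F] {O : ValuationSubring F} {t : F}
    {ht : 1 ≤ O.valuation t} {x : F} :
    x ∈ sucV O t ht ↔ ∃ n : ℕ, O.valuation x ≤ O.valuation t ^ n := Iff.rfl

private lemma sucV_ge {F : Type u} [Field F] {O : ValuationSubring F} {t : F}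
    {ht : 1 ≤ O.valuation t} : O ≤ sucV O t ht := by
  intro x hx
  refine ⟨0, ?_⟩
  rw [pow_zero]
  exact (O.valuation_le_one_iff x).mpr hx

private lemma sucV_self {F : Type u} [Field F] {O : ValuationSubring F} {t : F}
    {ht : 1 ≤ O.valuation t} : t ∈ sucV O t ht := ⟨1, by rw [pow_one]⟩

private lemma suc_div {F : Type u} [Field F] {O O' : ValuationSubring F} (hle : O ≤ O') {x y : F}
    (hy : y ∈ O') (hy0 : y ≠ 0) (h : O.valuation x ≤ O.valuation y) : x ∈ O' := by
  have h1 : x / y ∈ O := by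
    rw [← O.valuation_le_one_iff, map_div₀]
    exact div_le_one_of_le₀ h zero_le'
  have h2 : x = x / y * y := by
    rw [div_mul_cancel₀ x hy0]
  rw [h2]
  exact mul_mem (hle h1) hy

private lemma suc_ne_zero {F : Type u} [Field F] {O : ValuationSubring F} {t : F}
    (ht : 1 ≤ O.valuation t) : t ≠ 0 := by
  intro h
  rw [h, map_zero] at ht
  exact not_lt.mpr ht zero_lt_one

private lemma sucV_le {F : Type u} [Field F] {O O' : ValuationSubring F} (hle : O ≤ O') {t : F}
    {ht : 1 ≤ O.valuation t} (h : t ∈ O') : sucV O t ht ≤ O' := by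
  rintro x ⟨n, hn⟩
  refine suc_div hle (pow_mem h n) (pow_ne_zero n (suc_ne_zero ht)) ?_
  rw [map_pow]
  exact hn

private lemma suc_one_lt {F : Type u} [Field F] {O : ValuationSubring F} {t : F} (ht : t ∉ O) :
    1 < O.valuation t := by
  by_contra h
  exact ht ((O.valuation_le_one_iff t).mp (not_lt.mp h))

private lemma suc_next {F : Type u} [Field F] {O : ValuationSubring F}
    (hno : ∀ O' : ValuationSubring F, ¬ O ⋖ O') {t : F} (ht : t ∉ O) :
    ∃ t' : F, t' ∉ O ∧ ∀ n : ℕ, O.valuation t' ^ n < O.valuation t := by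
  by_contra hcon
  push Not at hcon
  refine hno (sucV O t (suc_one_lt ht).le) ⟨?_, ?_⟩
  · refine lt_of_le_of_ne sucV_ge fun h => ht ?_
    have h1 : t ∈ sucV O t (suc_one_lt ht).le := sucV_self
    rwa [← h] at h1
  · intro O'' h1 h2
    obtain ⟨x, hx, hxO⟩ := SetLike.exists_of_lt h1
    obtain ⟨n, hn⟩ := hcon x hxO
    have h3 : t ∈ O'' := by
      refine suc_div h1.le (pow_mem hx n) (pow_ne_zero n (suc_ne_zero (suc_one_lt hxO).le)) ?_
      rw [map_pow]
      exact hn
    exact not_le_of_gt h2 (sucV_le h1.le h3)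

private lemma suc_prod_lt {G : Type*} [LinearOrderedCommGroupWithZero G] (w : ℕ → G)
    (h1 : ∀ i, 1 < w i) (h2 : ∀ i n : ℕ, w (i + 1) ^ n < w i) (n : ℕ) :
    ∀ (k : ℕ) (m : ℕ → ℕ), ∏ j ∈ Finset.range n, w (k + 1 + j) ^ m j < w k := by
  induction n with
  | zero =>
    intro k m
    rw [Finset.range_zero, Finset.prod_empty]
    exact h1 k
  | succ n ih =>
    intro k m
    rw [Finset.prod_range_succ', add_zero]
    have h3 := ih (k + 1) (fun j => m (j + 1))
    have h4 : ∏ j ∈ Finset.range n, w (k + 1 + (j + 1)) ^ m (j + 1) =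
        ∏ j ∈ Finset.range n, w (k + 1 + 1 + j) ^ m (j + 1) := by
      refine Finset.prod_congr rfl fun j _ => ?_
      rw [show k + 1 + (j + 1) = k + 1 + 1 + j by omega]
    rw [h4]
    have h5 : (0 : G) < w (k + 1) ^ m 0 := pow_pos (zero_lt_one.trans (h1 _)) _
    calc (∏ j ∈ Finset.range n, w (k + 1 + 1 + j) ^ m (j + 1)) * w (k + 1) ^ m 0
        < w (k + 1) * w (k + 1) ^ m 0 := mul_lt_mul_of_pos_right h3 h5
      _ = w (k + 1) ^ (m 0 + 1) := (pow_succ' _ _).symm
      _ < w k := h2 k _

private lemma suc_one_le_prod {G : Type*} [LinearOrderedCommGroupWithZero G] (w : ℕ → G)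
    (h1 : ∀ i, 1 < w i) (n k : ℕ) (m : ℕ → ℕ) :
    1 ≤ ∏ j ∈ Finset.range n, w (k + j) ^ m j := by
  induction n with
  | zero => rw [Finset.range_zero, Finset.prod_empty]
  | succ n ih =>
    rw [Finset.prod_range_succ]
    exact one_le_mul_of_one_le_of_one_le ih (one_le_pow₀ (h1 _).le)

private lemma suc_prod_aux {G : Type*} [LinearOrderedCommGroupWithZero G] (w : ℕ → G)
    (h1 : ∀ i, 1 < w i) (h2 : ∀ i n : ℕ, w (i + 1) ^ n < w i) (n k : ℕ) (m m' : ℕ → ℕ)
    (h : m 0 < m' 0) :
    (∏ j ∈ Finset.range n, w (k + 1 + j) ^ m (j + 1)) * w k ^ m 0 <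
      (∏ j ∈ Finset.range n, w (k + 1 + j) ^ m' (j + 1)) * w k ^ m' 0 := by
  have h5 : (0 : G) < w k ^ m 0 := pow_pos (zero_lt_one.trans (h1 _)) _
  calc (∏ j ∈ Finset.range n, w (k + 1 + j) ^ m (j + 1)) * w k ^ m 0
      < w k * w k ^ m 0 :=
        mul_lt_mul_of_pos_right (suc_prod_lt w h1 h2 n k fun j => m (j + 1)) h5
    _ = w k ^ (m 0 + 1) := (pow_succ' _ _).symm
    _ ≤ w k ^ m' 0 := pow_le_pow_right₀ (h1 k).le h
    _ = 1 * w k ^ m' 0 := (one_mul _).symm
    _ ≤ _ := mul_le_mul_left (suc_one_le_prod w h1 n (k + 1) fun j => m' (j + 1)) _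

private lemma suc_prod_ne {G : Type*} [LinearOrderedCommGroupWithZero G] (w : ℕ → G)
    (h1 : ∀ i, 1 < w i) (h2 : ∀ i n : ℕ, w (i + 1) ^ n < w i) (n : ℕ) :
    ∀ (k : ℕ) (m m' : ℕ → ℕ), (∃ j < n, m j ≠ m' j) →
      ∏ j ∈ Finset.range n, w (k + j) ^ m j ≠ ∏ j ∈ Finset.range n, w (k + j) ^ m' j := by
  induction n with
  | zero =>
    rintro k m m' ⟨j, hj, -⟩
    exact absurd hj (Nat.not_lt_zero j)
  | succ n ih =>
    rintro k m m' ⟨j, hj, hjm⟩
    have h4 : ∀ m : ℕ → ℕ, ∏ j ∈ Finset.range (n + 1), w (k + j) ^ m j =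
        (∏ j ∈ Finset.range n, w (k + 1 + j) ^ m (j + 1)) * w k ^ m 0 := by
      intro m
      rw [Finset.prod_range_succ', add_zero]
      congr 1
      refine Finset.prod_congr rfl fun j _ => ?_
      rw [show k + (j + 1) = k + 1 + j by omega]
    rw [h4, h4]
    rcases lt_trichotomy (m 0) (m' 0) with h | h | h
    · exact (suc_prod_aux w h1 h2 n k m m' h).ne
    · rw [h]
      intro he
      have h5 : w k ^ m' 0 ≠ 0 := pow_ne_zero _ (zero_lt_one.trans (h1 _)).ne'
      refine ih (k + 1) (fun j => m (j + 1)) (fun j => m' (j + 1)) ?_ (mul_right_cancel₀ h5 he)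
      cases j with
      | zero => exact absurd h hjm
      | succ j => exact ⟨j, by omega, hjm⟩
    · exact (suc_prod_aux w h1 h2 n k m' m h).ne'

/-- A proper valuation ring of a field of finite transcendence degree has an immediate successor.

Proof. Suppose not. For `t ∉ O` let `O[t]` be the set of all `x` with `v x ≤ v t ^ n` for some `n`
(`v` the valuation of `O`); it is the smallest valuation ring containing `O` and `t`. Let `U t` be the
set of all `x` with `v x ^ n < v t` for all `n` or `x ∈ O`, i.e. the largest valuation ring above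
`O` which does not contain `t` (`x` with `v x ≤ 1` or `v x ^ n < v t` for all `n`). Then
`U t ⋖ O[t]`: if `U t < O'' ≤ O[t]`, take `x ∈ O''`, `x ∉ U t`: some `v x ^ n ≥ v t`, so `t ∈ O''`. As
`O` has no immediate successor, `U t ≠ O` for all `t ∉ O`, so there is `t' ∈ U t`, `t' ∉ O`:
`1 < v t'`, `v t' ^ n < v t` for all `n`. So we can choose `t_1, ..., t_N ∉ O` with
`v (t_{i+1}) ^ n < v (t_i)` for all `n`. For different exponent vectors `α, β` the values
`∏ v (t_i) ^ (α i)` are different (compare the first index where they differ), and the nonzero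
elements of `K` have value one. So a nonzero polynomial over `K` has a unique dominating term at
`(t_1, ..., t_N)` and does not vanish there: the `t_i` are algebraically independent over `K`,
a contradiction to `htr`. -/
theorem succ {K F : Type u} [Field K] [Field F] [Algebra K F] (O : ValuationSubring F)
    (hKO : ∀ c : K, algebraMap K F c ∈ O) (hO : O ≠ ⊤)
    (htr : ∃ N : ℕ, ∀ t : Fin N → F, ¬ AlgebraicIndependent K t) :
    ∃ O' : ValuationSubring F, O ⋖ O' := by
  classical
  by_contra hno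
  push Not at hno
  obtain ⟨N, hN⟩ := htr
  obtain ⟨t0, ht0⟩ : ∃ t : F, t ∉ O := by
    by_contra h
    push Not at h
    exact hO (by ext x; simp [h x])
  have hnext : ∀ t : {t : F // t ∉ O}, ∃ t' : {t : F // t ∉ O},
      ∀ n : ℕ, O.valuation (t' : F) ^ n < O.valuation (t : F) := by
    rintro ⟨t, ht⟩
    obtain ⟨t', h1, h2⟩ := suc_next hno ht
    exact ⟨⟨t', h1⟩, h2⟩
  choose f hf using hnext
  let t : ℕ → {t : F // t ∉ O} := fun i => f^[i] ⟨t0, ht0⟩
  let w : ℕ → O.ValueGroup := fun i => O.valuation (t i : F)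
  have hw1 : ∀ i, 1 < w i := fun i => suc_one_lt (t i).2
  have hw2 : ∀ i n : ℕ, w (i + 1) ^ n < w i := by
    intro i n
    have h : t (i + 1) = f (t i) := Function.iterate_succ_apply' f i _
    change O.valuation (t (i + 1) : F) ^ n < O.valuation (t i : F)
    rw [h]
    exact hf (t i) n
  refine hN (fun i : Fin N => (t i : F)) ?_
  rw [algebraicIndependent_iff]
  intro q hq
  by_contra hq0
  rw [MvPolynomial.aeval_def, MvPolynomial.eval₂_eq'] at hq
  have hvK : ∀ c : K, c ≠ 0 → O.valuation (algebraMap K F c) = 1 := by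
    intro c hc
    refine le_antisymm ((O.valuation_le_one_iff _).mpr (hKO c)) ?_
    have h1 := (O.valuation_le_one_iff _).mpr (hKO c⁻¹)
    rw [map_inv₀, map_inv₀] at h1
    have h2 : O.valuation (algebraMap K F c) ≠ 0 := by
      rw [Valuation.ne_zero_iff]
      exact (map_ne_zero _).mpr hc
    exact (inv_le_one₀ (zero_lt_iff.mpr h2)).mp h1
  let φ : (Fin N →₀ ℕ) → O.ValueGroup := fun m => ∏ i : Fin N, w i ^ m i
  have hφ0 : ∀ m, φ m ≠ 0 := fun m => Finset.prod_ne_zero_iff.mpr fun i _ =>
    pow_ne_zero _ (zero_lt_one.trans (hw1 _)).ne'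
  have hφ : ∀ m m' : Fin N →₀ ℕ, m ≠ m' → φ m ≠ φ m' := by
    intro m m' hmm
    have key : ∀ m : Fin N →₀ ℕ, φ m = ∏ j ∈ Finset.range N,
        w (0 + j) ^ (if h : j < N then m ⟨j, h⟩ else 0) := by
      intro m
      rw [Finset.prod_range]
      refine Finset.prod_congr rfl fun i _ => ?_
      rw [dif_pos i.isLt, zero_add]
    rw [key, key]
    refine suc_prod_ne w hw1 hw2 N 0 _ _ ?_
    obtain ⟨i, hi⟩ := DFunLike.ne_iff.mp hmm
    refine ⟨i, i.isLt, ?_⟩
    rw [dif_pos i.isLt, dif_pos i.isLt]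
    exact hi
  let T : (Fin N →₀ ℕ) → F := fun m => algebraMap K F (q.coeff m) * ∏ i : Fin N, (t i : F) ^ m i
  have hT : ∀ m ∈ q.support, O.valuation (T m) = φ m := by
    intro m hm
    change O.valuation (algebraMap K F (q.coeff m) * ∏ i : Fin N, (t i : F) ^ m i) = _
    rw [map_mul, hvK _ (MvPolynomial.mem_support_iff.mp hm), one_mul, map_prod]
    exact Finset.prod_congr rfl fun i _ => map_pow _ _ _
  have hne : q.support.Nonempty := by
    rw [Finset.nonempty_iff_ne_empty]
    intro h
    exact hq0 (MvPolynomial.support_eq_empty.mp h)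
  obtain ⟨m0, hm0, hmax⟩ := Finset.exists_max_image q.support φ hne
  have hsum : ∑ m ∈ q.support.erase m0, T m + T m0 = 0 := by
    rw [Finset.sum_erase_add _ _ hm0]
    exact hq
  have hlt : O.valuation (∑ m ∈ q.support.erase m0, T m) < φ m0 := by
    refine Valuation.map_sum_lt _ (hφ0 m0) fun m hm => ?_
    rw [Finset.mem_erase] at hm
    rw [hT m hm.2]
    exact lt_of_le_of_ne (hmax m hm.2) (hφ _ _ hm.1)
  have heq : ∑ m ∈ q.support.erase m0, T m = -T m0 := by
    linear_combination hsum
  rw [heq, Valuation.map_neg, hT m0 hm0] at hlt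
  exact lt_irrefl _ hlt

private lemma suc_max_mem {F : Type u} [Field F] {O O' : ValuationSubring F} (hle : O ≤ O') {z : F}
    (hz : O'.valuation z < 1) : z ∈ O := by
  rcases O.mem_or_inv_mem z with h | h
  · exact h
  · by_cases hz0 : z = 0
    · rw [hz0]
      exact zero_mem O
    · exfalso
      have h1 := (O'.valuation_le_one_iff _).mpr (hle h)
      rw [map_inv₀] at h1
      have h2 : O'.valuation z ≠ 0 := (Valuation.ne_zero_iff _).mpr hz0
      exact absurd hz (not_lt.mpr ((inv_le_one₀ (zero_lt_iff.mpr h2)).mp h1))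

/-- The valuation ring induced on the residue field of a larger valuation ring. -/
private def sucK {F : Type u} [Field F] (O O' : ValuationSubring F) (hle : O ≤ O') :
    ValuationSubring (IsLocalRing.ResidueField ↥O') where
  carrier := {y | ∃ x : ↥O', (x : F) ∈ O ∧ IsLocalRing.residue ↥O' x = y}
  mul_mem' := by
    rintro a b ⟨x, hx, rfl⟩ ⟨y, hy, rfl⟩
    exact ⟨x * y, mul_mem hx hy, map_mul _ _ _⟩
  one_mem' := ⟨1, one_mem O, map_one _⟩
  add_mem' := by
    rintro a b ⟨x, hx, rfl⟩ ⟨y, hy, rfl⟩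
    exact ⟨x + y, add_mem hx hy, map_add _ _ _⟩
  zero_mem' := ⟨0, zero_mem O, map_zero _⟩
  neg_mem' := by
    rintro a ⟨x, hx, rfl⟩
    exact ⟨-x, neg_mem hx, map_neg _ _⟩
  mem_or_inv_mem' := by
    intro y
    obtain ⟨x, rfl⟩ := IsLocalRing.residue_surjective y
    rcases O.mem_or_inv_mem (x : F) with h | h
    · exact Or.inl ⟨x, h, rfl⟩
    · by_cases h0 : IsLocalRing.residue ↥O' x = 0
      · left
        rw [h0]
        exact ⟨0, zero_mem O, map_zero _⟩
      · right
        refine ⟨⟨(x : F)⁻¹, hle h⟩, h, ?_⟩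
        rw [eq_comm, inv_eq_iff_eq_inv, ← one_div, eq_div_iff, ← map_mul]
        · have h1 : x * ⟨(x : F)⁻¹, hle h⟩ = (1 : ↥O') := by
            apply Subtype.ext
            change (x : F) * (x : F)⁻¹ = 1
            refine mul_inv_cancel₀ fun hx => h0 ?_
            have : x = 0 := Subtype.ext hx
            rw [this, map_zero]
          rw [h1, map_one]
        · intro h2
          have h1 : x * ⟨(x : F)⁻¹, hle h⟩ = (1 : ↥O') := by
            apply Subtype.ext
            change (x : F) * (x : F)⁻¹ = 1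
            refine mul_inv_cancel₀ fun hx => h0 ?_
            have : x = 0 := Subtype.ext hx
            rw [this, map_zero]
          have h3 := congrArg (IsLocalRing.residue ↥O') h1
          rw [map_mul, h2, mul_zero, map_one] at h3
          exact zero_ne_one h3

private lemma sucK_mem {F : Type u} [Field F] {O O' : ValuationSubring F} (hle : O ≤ O')
    (x : ↥O') : IsLocalRing.residue ↥O' x ∈ sucK O O' hle ↔ (x : F) ∈ O := by
  constructor
  · rintro ⟨y, hy, hxy⟩
    have h1 : x - y ∈ IsLocalRing.maximalIdeal ↥O' := by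
      rw [← IsLocalRing.residue_eq_zero_iff, map_sub, hxy, sub_self]
    have h2 := suc_max_mem hle ((O'.valuation_lt_one_iff _).mp h1)
    have h3 : (x : F) = ((x - y : ↥O') : F) + y := by
      change (x : F) = ((x : F) - y) + y
      ring
    rw [h3]
    exact add_mem h2 hy
  · intro h
    exact ⟨x, h, rfl⟩

private lemma suc_res_ne {F : Type u} [Field F] {O' : ValuationSubring F} {x : ↥O'}
    (h : IsLocalRing.residue ↥O' x ≠ 0) : (x : F)⁻¹ ∈ O' ∧ (x : F) ≠ 0 := by
  have h1 : IsUnit x := by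
    by_contra hu
    exact h ((IsLocalRing.residue_eq_zero_iff x).mpr ((IsLocalRing.mem_maximalIdeal x).mpr hu))
  have h2 := (O'.valuation_eq_one_iff x).mp h1
  refine ⟨?_, ?_⟩
  · rw [← O'.valuation_le_one_iff, map_inv₀, h2, inv_one]
  · intro h0
    rw [h0, map_zero] at h2
    exact zero_ne_one h2

private lemma suc_res_inv {F : Type u} [Field F] {O' : ValuationSubring F} {x : ↥O'}
    (h : IsLocalRing.residue ↥O' x ≠ 0) :
    (IsLocalRing.residue ↥O' x)⁻¹ = IsLocalRing.residue ↥O' ⟨(x : F)⁻¹, (suc_res_ne h).1⟩ := by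
  have h1 : x * ⟨(x : F)⁻¹, (suc_res_ne h).1⟩ = (1 : ↥O') := by
    apply Subtype.ext
    change (x : F) * (x : F)⁻¹ = 1
    exact mul_inv_cancel₀ (suc_res_ne h).2
  refine inv_eq_of_mul_eq_one_right ?_
  rw [← map_mul, h1, map_one]

private lemma sucK_lt {F : Type u} [Field F] {O O' : ValuationSubring F} (hle : O ≤ O')
    (x : ↥O') : (sucK O O' hle).valuation (IsLocalRing.residue ↥O' x) < 1 ↔
      O.valuation (x : F) < 1 := by
  by_cases h : IsLocalRing.residue ↥O' x = 0
  · have h1 : O'.valuation (x : F) < 1 :=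
      (O'.valuation_lt_one_iff _).mp ((IsLocalRing.residue_eq_zero_iff x).mp h)
    have h2 : O.valuation (x : F) < 1 := by
      by_contra h3
      rw [not_lt] at h3
      have hx0 : (x : F) ≠ 0 := suc_ne_zero h3
      have h4 : (x : F)⁻¹ ∈ O := by
        rw [← O.valuation_le_one_iff, map_inv₀]
        exact inv_le_one_of_one_le₀ h3
      have h5 := (O'.valuation_le_one_iff _).mpr (hle h4)
      rw [map_inv₀] at h5
      have h6 : O'.valuation (x : F) ≠ 0 := (Valuation.ne_zero_iff _).mpr hx0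
      exact absurd h1 (not_lt.mpr ((inv_le_one₀ (zero_lt_iff.mpr h6)).mp h5))
    rw [h, map_zero]
    exact iff_of_true zero_lt_one h2
  · have hx := suc_res_ne h
    have e1 : (sucK O O' hle).valuation (IsLocalRing.residue ↥O' x) < 1 ↔
        ¬ (IsLocalRing.residue ↥O' x)⁻¹ ∈ sucK O O' hle := by
      rw [← (sucK O O' hle).valuation_le_one_iff, map_inv₀,
        inv_le_one₀ (zero_lt_iff.mpr ((Valuation.ne_zero_iff _).mpr h)), not_le]
    have e2 : O.valuation (x : F) < 1 ↔ ¬ (x : F)⁻¹ ∈ O := by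
      rw [← O.valuation_le_one_iff, map_inv₀,
        inv_le_one₀ (zero_lt_iff.mpr ((Valuation.ne_zero_iff _).mpr hx.2)), not_le]
    rw [e1, e2, suc_res_inv h, sucK_mem]

private lemma sucK_arch {F : Type u} [Field F] {O O' : ValuationSubring F} (h : O ⋖ O') :
    MulArchimedean (sucK O O' h.le).ValueGroup := by
  refine ⟨fun a b hb => ?_⟩
  obtain ⟨a', rfl⟩ := (sucK O O' h.le).valuation_surjective a
  obtain ⟨b', rfl⟩ := (sucK O O' h.le).valuation_surjective b
  obtain ⟨x, rfl⟩ := IsLocalRing.residue_surjective a'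
  obtain ⟨y, rfl⟩ := IsLocalRing.residue_surjective b'
  have hy0 : IsLocalRing.residue ↥O' y ≠ 0 := by
    intro h0
    rw [h0, map_zero] at hb
    exact not_lt.mpr zero_le' hb
  have hyO : (y : F) ∉ O := by
    intro h1
    exact not_le.mpr hb (((sucK O O' h.le).valuation_le_one_iff _).mpr
      ((sucK_mem h.le y).mpr h1))
  have hV : sucV O (y : F) (suc_one_lt hyO).le = O' := by
    have h1 : sucV O (y : F) (suc_one_lt hyO).le ≤ O' := sucV_le h.le y.2
    rcases lt_or_eq_of_le h1 with h2 | h2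
    · exfalso
      refine h.2 (lt_of_le_of_ne sucV_ge fun h3 => hyO ?_) h2
      have h4 : (y : F) ∈ sucV O (y : F) (suc_one_lt hyO).le := sucV_self
      rwa [← h3] at h4
    · exact h2
  have hx : (x : F) ∈ sucV O (y : F) (suc_one_lt hyO).le := by
    rw [hV]
    exact x.2
  obtain ⟨n, hn⟩ := sucV_mem.mp hx
  refine ⟨n, ?_⟩
  have hyi := suc_res_inv hy0
  have hyn := suc_res_ne hy0
  have h5 : IsLocalRing.residue ↥O' (x * ⟨(y : F)⁻¹, hyn.1⟩ ^ n) ∈ sucK O O' h.le := by
    rw [sucK_mem]
    change (x : F) * ((y : F)⁻¹) ^ n ∈ O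
    rw [← O.valuation_le_one_iff, map_mul, map_pow, map_inv₀, inv_pow]
    have h6 : O.valuation (y : F) ^ n ≠ 0 :=
      pow_ne_zero n ((Valuation.ne_zero_iff _).mpr hyn.2)
    calc O.valuation (x : F) * (O.valuation (y : F) ^ n)⁻¹
        ≤ O.valuation (y : F) ^ n * (O.valuation (y : F) ^ n)⁻¹ := mul_le_mul_left hn _
      _ = 1 := mul_inv_cancel₀ h6
  rw [map_mul, map_pow, ← hyi, inv_pow] at h5
  have h7 := ((sucK O O' h.le).valuation_le_one_iff _).mpr h5
  rw [map_mul, map_inv₀, map_pow] at h7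
  have h8 : (sucK O O' h.le).valuation (IsLocalRing.residue ↥O' y) ^ n ≠ 0 :=
    pow_ne_zero n ((Valuation.ne_zero_iff _).mpr hy0)
  calc (sucK O O' h.le).valuation (IsLocalRing.residue ↥O' x)
      = (sucK O O' h.le).valuation (IsLocalRing.residue ↥O' x) *
        ((sucK O O' h.le).valuation (IsLocalRing.residue ↥O' y) ^ n)⁻¹ *
        (sucK O O' h.le).valuation (IsLocalRing.residue ↥O' y) ^ n := by
        rw [inv_mul_cancel_right₀ h8]
    _ ≤ 1 * (sucK O O' h.le).valuation (IsLocalRing.residue ↥O' y) ^ n :=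
        mul_le_mul_left h7 _
    _ = _ := one_mul _

/-- The residue field of the larger ring has a real valued norm.

Proof. Let `v` be the valuation of `O`. The elements of `O' \ m'` with values modulo the values of the
units of `O` form a linearly ordered group which is archimedean: if `x, y ∈ O'` are units of `O'`
with `v x > 1` then `y` is in the valuation ring `O[x] = {z | v z ≤ v x ^ n for some n}`, which
contains `O` strictly and is contained in `O'`, so it is `O'`: `v y ≤ v x ^ n`. Let `κ` be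
the residue field of `O'`, `π` the residue map, and `Oκ` the image of `O` (`m' ⊆ O`), a
valuation ring of `κ` with archimedean value group, nontrivial. By Hölder's theorem
(`Archimedean.exists_orderAddMonoidHom_real_injective`, or `Valuation.RankOne` and
`Valuation.nonempty_rankOne_iff_mulArchimedean`, Mathlib.RingTheory.Valuation.RankOne) the value
group embeds in `ℝ`; this gives an absolute value on `κ`, from which a `NontriviallyNormedField`
structure is built (`Valued.toNormedField`, or `NormedField` from an absolute value by hand). -/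
theorem rank_one {F : Type u} [Field F] {O O' : ValuationSubring F} (h : O ⋖ O') :
    ∃ (κ : Type u) (_ : NontriviallyNormedField κ) (_ : IsUltrametricDist κ) (π : ↥O' →+* κ),
      Function.Surjective π ∧ (∀ x : ↥O', π x = 0 ↔ O'.valuation (x : F) < 1) ∧
      (∀ x : ↥O', ‖π x‖ ≤ 1 ↔ (x : F) ∈ O) ∧
      ∀ x : ↥O', ‖π x‖ < 1 ↔ O.valuation (x : F) < 1 := by
  classical
  let κ : Type u := IsLocalRing.ResidueField ↥O'
  let V : ValuationSubring κ := sucK O O' h.le
  letI hval : Valued κ V.ValueGroup := Valued.mk' V.valuation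
  have hv : (Valued.v : Valuation κ V.ValueGroup) = V.valuation := rfl
  have harch : MulArchimedean V.ValueGroup := sucK_arch h
  have hnt : (Valued.v : Valuation κ V.ValueGroup).IsNontrivial := by
    obtain ⟨x, hx, hxO⟩ := SetLike.exists_of_lt h.lt
    refine ⟨⟨IsLocalRing.residue ↥O' ⟨x, hx⟩, ?_, ?_⟩⟩
    · rw [hv]
      intro h0
      have h1 : V.valuation (IsLocalRing.residue ↥O' ⟨x, hx⟩) ≤ 1 := by
        rw [h0]
        exact zero_le'
      exact hxO ((sucK_mem h.le ⟨x, hx⟩).mp ((V.valuation_le_one_iff _).mp h1))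
    · rw [hv]
      intro h0
      exact hxO ((sucK_mem h.le ⟨x, hx⟩).mp ((V.valuation_le_one_iff _).mp h0.le))
  have harch2 : MulArchimedean (MonoidWithZeroHom.ValueGroup₀
      (.ofClass (Valued.v : Valuation κ V.ValueGroup))) :=
    MulArchimedean.comap (MonoidWithZeroHom.ValueGroup₀.embedding
      (f := .ofClass (Valued.v : Valuation κ V.ValueGroup))).toMonoidHom
      MonoidWithZeroHom.ValueGroup₀.embedding_strictMono
  obtain ⟨hrk⟩ := (Valuation.nonempty_rankOne_iff_mulArchimedean
    (v := (Valued.v : Valuation κ V.ValueGroup))).mpr harch2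
  letI := hrk
  refine ⟨κ, Valued.toNontriviallyNormedField κ V.ValueGroup, ?_, IsLocalRing.residue ↥O',
    IsLocalRing.residue_surjective, ?_, ?_, ?_⟩
  · infer_instance
  · intro x
    rw [IsLocalRing.residue_eq_zero_iff, ValuationSubring.valuation_lt_one_iff]
  · intro x
    refine Iff.trans (Valued.toNormedField.norm_le_one_iff (x := IsLocalRing.residue ↥O' x)) ?_
    rw [hv, ValuationSubring.valuation_le_one_iff]
    exact sucK_mem h.le x
  · intro x
    refine Iff.trans (Valued.toNormedField.norm_lt_one_iff (x := IsLocalRing.residue ↥O' x)) ?_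
    rw [hv]
    exact sucK_lt h.le x

end Pool.Agent.R4U
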