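import Pool.Agent.Lib.MP_4ed7e0_lc_U.R1
import Pool.Agent.Lib.MP_4ed7e0_lc_U.Succ
import Pool.Agent.Lib.MP_4ed7e0_lc_U.HullL
import Pool.Agent.Lib.MP_4ed7e0_lc_F.Main

/-!
# MP_4ed7e0_lc, project U: Kuhlmann's theorem for perfect large fields
-/

set_option autoImplicit false

namespace Pool.Agent.R4U

universe u

open Pool.Agent.R4A Pool.Agent.R4F

/-- `K` is existentially closed in the residue field of `O`. -/
def ECres (K : Type u) [Field K] {F : Type u} [Field F] [Algebra K F] (O : ValuationSubring F) :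
    Prop :=
  ∀ (n : ℕ) (S : Finset (MvPolynomial (Fin n) K)),
    (∃ x : Fin n → F, (∀ i, x i ∈ O) ∧ ∀ q ∈ S, O.valuation (MvPolynomial.aeval x q) < 1) →
      Solv K K S

private theorem lt_iff {F : Type u} [Field F] (O : ValuationSubring F) (a : F) :
    O.valuation a < 1 ↔ a = 0 ∨ a⁻¹ ∉ O := by
  by_cases h : a = 0
  · simp [h]
  · rw [← ValuationSubring.valuation_le_one_iff, map_inv₀, not_le]
    have h0 : 0 < O.valuation a := by
      rw [zero_lt_iff]
      exact (Valuation.ne_zero_iff _).2 h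
    rw [one_lt_inv₀ h0]
    simp [h]

private theorem lt_mono {F : Type u} [Field F] {O O' : ValuationSubring F} (h : O ≤ O') {a : F}
    (ha : O'.valuation a < 1) : O.valuation a < 1 := by
  rw [lt_iff] at ha ⊢
  exact ha.imp id fun h1 h2 => h1 (h h2)

/-- The structure map into a valuation ring. -/
private def inc {K F : Type u} [Field K] [Field F] [Algebra K F] (O : ValuationSubring F)
    (hK : ∀ c : K, algebraMap K F c ∈ O) : K →+* ↥O where
  toFun c := ⟨algebraMap K F c, hK c⟩
  map_one' := Subtype.ext (map_one _)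
  map_mul' a b := Subtype.ext (map_mul _ a b)
  map_zero' := Subtype.ext (map_zero _)
  map_add' a b := Subtype.ext (map_add _ a b)

private theorem coe_eval {K F : Type u} [Field K] [Field F] [Algebra K F]
    (O : ValuationSubring F) (hK : ∀ c : K, algebraMap K F c ∈ O) {n : ℕ} (x : Fin n → ↥O)
    (q : MvPolynomial (Fin n) K) :
    ((MvPolynomial.eval₂ (inc O hK) x q : ↥O) : F) =
      MvPolynomial.aeval (fun i => (x i : F)) q := by
  have h := MvPolynomial.hom_eval₂ q (inc O hK) O.subtype x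
  rw [MvPolynomial.aeval_def]
  exact h

private theorem cong {K F : Type u} [Field K] [Field F] [Algebra K F]
    (O : ValuationSubring F) (hK : ∀ c : K, algebraMap K F c ∈ O) {n : ℕ} (x y : Fin n → F)
    (hx : ∀ i, x i ∈ O) (hy : ∀ i, y i ∈ O) (h : ∀ i, O.valuation (x i - y i) < 1)
    (q : MvPolynomial (Fin n) K) :
    O.valuation (MvPolynomial.aeval x q - MvPolynomial.aeval y q) < 1 := by
  have hx' := coe_eval O hK (fun i => (⟨x i, hx i⟩ : ↥O)) q
  have hy' := coe_eval O hK (fun i => (⟨y i, hy i⟩ : ↥O)) q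
  have key : IsLocalRing.residue ↥O
      (MvPolynomial.eval₂ (inc O hK) (fun i => (⟨x i, hx i⟩ : ↥O)) q) =
      IsLocalRing.residue ↥O
      (MvPolynomial.eval₂ (inc O hK) (fun i => (⟨y i, hy i⟩ : ↥O)) q) := by
    rw [MvPolynomial.hom_eval₂, MvPolynomial.hom_eval₂]
    congr 1
    funext i
    have h1 : (⟨x i, hx i⟩ : ↥O) - ⟨y i, hy i⟩ ∈ IsLocalRing.maximalIdeal ↥O :=
      (O.valuation_lt_one_iff _).2 (h i)
    rw [← IsLocalRing.residue_eq_zero_iff, map_sub, sub_eq_zero] at h1
    exact h1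
  rw [← sub_eq_zero, ← map_sub, IsLocalRing.residue_eq_zero_iff, O.valuation_lt_one_iff] at key
  rw [← hx', ← hy']
  exact key

/-- The union of a nonempty chain of valuation rings. -/
private theorem union {F : Type u} [Field F] (c : Set (ValuationSubring F))
    (hc : IsChain (· ≤ ·) c) (y : ValuationSubring F) (hy : y ∈ c) :
    ∃ U : ValuationSubring F, ∀ x : F, x ∈ U ↔ ∃ O ∈ c, x ∈ O := by
  have hdir : ∀ {a b : F}, (∃ O ∈ c, a ∈ O) → (∃ O ∈ c, b ∈ O) → ∃ O ∈ c, a ∈ O ∧ b ∈ O := by
    rintro a b ⟨O, hO, ha⟩ ⟨O', hO', hb⟩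
    rcases hc.total hO hO' with h | h
    · exact ⟨O', hO', h ha, hb⟩
    · exact ⟨O, hO, ha, h hb⟩
  refine ⟨{ carrier := {x | ∃ O ∈ c, x ∈ O}
            mul_mem' := ?_
            one_mem' := ⟨y, hy, one_mem _⟩
            add_mem' := ?_
            zero_mem' := ⟨y, hy, zero_mem _⟩
            neg_mem' := ?_
            mem_or_inv_mem' := ?_ }, fun x => Iff.rfl⟩
  · intro a b ha hb
    obtain ⟨O, hO, h1, h2⟩ := hdir ha hb
    exact ⟨O, hO, mul_mem h1 h2⟩
  · intro a b ha hb
    obtain ⟨O, hO, h1, h2⟩ := hdir ha hb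
    exact ⟨O, hO, add_mem h1 h2⟩
  · rintro a ⟨O, hO, ha⟩
    exact ⟨O, hO, neg_mem ha⟩
  · intro a
    rcases y.mem_or_inv_mem a with h | h
    · exact Or.inl ⟨y, hy, h⟩
    · exact Or.inr ⟨y, hy, h⟩

private theorem fin_mem {F : Type u} [Field F] (c : Set (ValuationSubring F))
    (hc : IsChain (· ≤ ·) c) (y : ValuationSubring F) (hy : y ∈ c) (s : Finset F)
    (hs : ∀ x ∈ s, ∃ O ∈ c, x ∈ O) : ∃ O ∈ c, ∀ x ∈ s, x ∈ O := by
  classical
  induction s using Finset.induction_on with
  | empty => exact ⟨y, hy, by simp⟩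
  | insert a s _ ih =>
    obtain ⟨O, hO, h⟩ := ih fun x hx => hs x (Finset.mem_insert_of_mem hx)
    obtain ⟨O', hO', h'⟩ := hs a (Finset.mem_insert_self _ _)
    rcases hc.total hO hO' with hle | hle
    · refine ⟨O', hO', fun x hx => ?_⟩
      rcases Finset.mem_insert.1 hx with rfl | hx
      · exact h'
      · exact hle (h x hx)
    · refine ⟨O, hO, fun x hx => ?_⟩
      rcases Finset.mem_insert.1 hx with rfl | hx
      · exact hle h'
      · exact h x hx

private theorem ec_base {K F : Type u} [Field K] [Field F] [Algebra K F]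
    (O : ValuationSubring F) (hO : IsRat K O) : ECres K O := by
  intro n S hS
  obtain ⟨x, hx, hq⟩ := hS
  choose c hc using fun i => hO.2 (x i) (hx i)
  refine ⟨c, fun q hqS => ?_⟩
  have h1 := cong O hO.1 x (fun i => algebraMap K F (c i)) hx (fun i => hO.1 _) hc q
  have h2 := hq q hqS
  have h3 : MvPolynomial.aeval (fun i => algebraMap K F (c i)) q =
      algebraMap K F (MvPolynomial.aeval c q) := by
    rw [MvPolynomial.aeval_def, MvPolynomial.aeval_def, MvPolynomial.hom_eval₂]
    rfl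
  have h4 : O.valuation (algebraMap K F (MvPolynomial.aeval c q)) < 1 := by
    have h5 : algebraMap K F (MvPolynomial.aeval c q) = MvPolynomial.aeval x q -
        (MvPolynomial.aeval x q - MvPolynomial.aeval (fun i => algebraMap K F (c i)) q) := by
      rw [← h3]
      ring
    rw [h5]
    exact lt_of_le_of_lt (Valuation.map_sub _ _ _) (max_lt h2 h1)
  rw [lt_iff] at h4
  rcases h4 with h | h
  · exact (algebraMap K F).injective (by rw [h, map_zero])
  · rw [← map_inv₀] at h
    exact absurd (hO.1 _) h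

private theorem ec_union {K F : Type u} [Field K] [Field F] [Algebra K F]
    (c : Set (ValuationSubring F)) (hc : IsChain (· ≤ ·) c) (y : ValuationSubring F) (hy : y ∈ c)
    (hec : ∀ O ∈ c, ECres K O) (U : ValuationSubring F) (hU : ∀ x : F, x ∈ U ↔ ∃ O ∈ c, x ∈ O) :
    ECres K U := by
  classical
  intro n S hS
  obtain ⟨x, hx, hq⟩ := hS
  obtain ⟨O, hO, hxO⟩ := fin_mem c hc y hy (Finset.univ.image x) (by
    intro z hz
    obtain ⟨i, -, rfl⟩ := Finset.mem_image.1 hz
    exact (hU _).1 (hx i))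
  refine hec O hO n S ⟨x, fun i => hxO _ (Finset.mem_image_of_mem _ (Finset.mem_univ i)),
    fun q hqS => ?_⟩
  exact lt_mono (fun z hz => (hU z).2 ⟨O, hO, hz⟩) (hq q hqS)

private theorem ec_step {p : ℕ} [Fact p.Prime] {K F : Type u} [Field K] [CharP K p]
    (hp : ∀ x : K, ∃ y, y ^ p = x) (hL : Large K) [Field F] [Algebra K F]
    (hpF : ∀ x : F, ∃ y, y ^ p = x) {O O' : ValuationSubring F} (h : O ⋖ O')
    (hK : ∀ c : K, algebraMap K F c ∈ O) (hec : ECres K O) : ECres K O' := by
  obtain ⟨κ, _, _, π, hπ, hker, h1, h2⟩ := rank_one h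
  have hle : O ≤ O' := h.lt.le
  have hp0 : p ≠ 0 := (Fact.out : p.Prime).ne_zero
  let i' : K →+* ↥O' := inc O' fun c => hle (hK c)
  let _ : Algebra K κ := (π.comp i').toAlgebra
  have halg : ∀ c : K, algebraMap K κ c = π (i' c) := fun _ => rfl
  have hev : ∀ {n : ℕ} (x : Fin n → ↥O') (q : MvPolynomial (Fin n) K),
      π (MvPolynomial.eval₂ i' x q) = MvPolynomial.aeval (fun i => π (x i)) q := by
    intro n x q
    rw [MvPolynomial.hom_eval₂, MvPolynomial.aeval_def]
    rfl
  have hpκ : ∀ x : κ, ∃ y, y ^ p = x := by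
    intro x
    obtain ⟨y, rfl⟩ := hπ x
    obtain ⟨z, hz⟩ := hpF y
    have hzO : z ∈ O' := by
      rw [← ValuationSubring.valuation_le_one_iff]
      have h3 : O'.valuation z ^ p ≤ 1 := by
        rw [← map_pow, hz]
        exact (ValuationSubring.valuation_le_one_iff _ _).2 y.2
      exact (pow_le_one_iff hp0).1 h3
    refine ⟨π ⟨z, hzO⟩, ?_⟩
    rw [← map_pow]
    congr 1
    exact Subtype.ext hz
  have htriv : ∀ c : K, c ≠ 0 → ‖algebraMap K κ c‖ = 1 := by
    intro c hc
    have h3 : ‖algebraMap K κ c‖ ≤ 1 := (h1 _).2 (hK c)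
    have h4 : ‖algebraMap K κ c⁻¹‖ ≤ 1 := (h1 _).2 (hK c⁻¹)
    have h5 : ‖algebraMap K κ c‖ * ‖algebraMap K κ c⁻¹‖ = 1 := by
      rw [← norm_mul, ← map_mul, mul_inv_cancel₀ hc, map_one, norm_one]
    refine le_antisymm h3 ?_
    calc (1 : ℝ) = ‖algebraMap K κ c‖ * ‖algebraMap K κ c⁻¹‖ := h5.symm
      _ ≤ ‖algebraMap K κ c‖ * 1 := mul_le_mul_of_nonneg_left h4 (norm_nonneg _)
      _ = ‖algebraMap K κ c‖ := mul_one _
  have hr1 : Tr K κ K := by
    refine r1 hp hL hpκ htriv ?_
    intro n S hS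
    obtain ⟨x, hx, hq⟩ := hS
    choose y hy using fun i => hπ (x i)
    have hxy : x = fun i => π (y i) := funext fun i => (hy i).symm
    refine hec n S ⟨fun i => (y i : F), fun i => ?_, fun q hqS => ?_⟩
    · rw [← h1, hy]
      exact hx i
    · have h3 := hq q hqS
      rw [hxy, ← hev, h2, coe_eval] at h3
      exact h3
  intro n S hS
  obtain ⟨x, hx, hq⟩ := hS
  apply hr1 n S
  refine ⟨fun i => π ⟨x i, hx i⟩, fun q hqS => ?_⟩
  rw [← hev, hker, coe_eval]
  exact hq q hqS

/-- Perfect fields of finite transcendence degree.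

Proof. Let `𝓢` be the set of the valuation rings `O' ≥ O` with `ECres K O'`. `O ∈ 𝓢`: if `x i ∈ O`,
choose `c i ∈ K` with `v (x i - c i) < 1`; then `q(c) ∈ K` has value `< 1`, so it is zero. The union
`U` of a nonempty chain in `𝓢` is in `𝓢`: the maximal ideal of `U` is contained in the maximal
ideals of all members, and the coordinates `x i ∈ U` lie in one member `O'`; for `q ∈ S` the value
`q(x)` is in the maximal ideal of `U`, so in that of `O'`. By Zorn there is a maximal `O₁ ∈ 𝓢`. If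
`O₁ = ⊤` then `v x < 1` means `x = 0` and we are done. Otherwise `succ` gives `O₁ ⋖ O₂`, `rank_one`
a normed field `κ` with `π : O₂ → κ`, an algebra over `K` (`K ⊆ O₂`). `κ` is perfect since `F` and
so `O₂` is. Nonzero elements of `K` are units of `O₁`, so of norm one. `r1` (its hypothesis `hres`
follows from `ECres K O₁` and the properties of `π`: lift the `x i ∈ κ`, `‖x i‖ ≤ 1`, to
elements of `O₁`) gives `Tr K κ K`. So `ECres K O₂`: for `x i ∈ O₂` with `q(x)` in the maximal
ideal of `O₂` the `π (x i)` solve `S` in `κ`. This contradicts the maximality of `O₁`. -/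
theorem coarse {p : ℕ} [Fact p.Prime] {K F : Type u} [Field K] [CharP K p]
    (hp : ∀ x : K, ∃ y, y ^ p = x) (hL : Large K) [Field F] [Algebra K F]
    (hpF : ∀ x : F, ∃ y, y ^ p = x)
    (htr : ∃ N : ℕ, ∀ t : Fin N → F, ¬ AlgebraicIndependent K t) (O : ValuationSubring F)
    (hO : IsRat K O) : Tr K F K := by
  classical
  obtain ⟨O₁, hle, hmax⟩ := zorn_le_nonempty₀ {O' : ValuationSubring F | O ≤ O' ∧ ECres K O'} (by
    intro c hcs hc y hy
    obtain ⟨U, hU⟩ := union c hc y hy
    refine ⟨U, ⟨fun z hz => (hU z).2 ⟨y, hy, (hcs hy).1 hz⟩,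
      ec_union c hc y hy (fun O' hO' => (hcs hO').2) U hU⟩, fun z hz x hx => (hU x).2 ⟨z, hz, hx⟩⟩)
    O ⟨le_rfl, ec_base O hO⟩
  have hec : ECres K O₁ := hmax.prop.2
  have hK : ∀ c : K, algebraMap K F c ∈ O₁ := fun c => hle (hO.1 c)
  by_cases htop : O₁ = ⊤
  · intro n S hS
    obtain ⟨x, hx⟩ := hS
    refine hec n S ⟨x, fun i => ?_, fun q hq => ?_⟩
    · rw [htop]
      exact ValuationSubring.mem_top _
    · rw [hx q hq, map_zero]
      exact zero_lt_one
  · exfalso
    obtain ⟨O₂, h12⟩ := succ O₁ hK htop htr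
    have hec2 : ECres K O₂ := ec_step hp hL hpF h12 hK hec
    have := hmax.le_of_ge ⟨hle.trans h12.lt.le, hec2⟩ h12.lt.le
    exact absurd this (not_le_of_gt h12.lt)

/-- Kuhlmann's theorem: perfect large fields of characteristic `p` are existentially closed in all
extensions with a rational place.

Proof. Let `S` be solvable in `L` by `ξ_1, ..., ξ_n`, `L₀ = K(ξ)` (`IntermediateField.adjoin`),
`O₀ = O ∩ L₀` (`ValuationSubring.comap`), again `IsRat K O₀`. Let `F = Hull L₀` and `O'` as in
`hull_ring` (MP_4ed7e0_lc_F/PerfPl.lean); `F` is an algebra over `K` through `L₀`. `IsRat K O'`: for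
`x ∈ O'` with `x ^ q = y ∈ O₀` (`q` a power of `p`) choose `c ∈ K` with `v (y - c) < 1` and `d ∈ K`
with `d ^ q = c`; `(x - d) ^ q = y - c`. `F` is algebraic over `K(ξ)`, so `n + 1` elements of `F`
are never algebraically independent over `K`. `coarse` gives `Tr K F K`, and `S` is solvable in
`F`. -/
theorem kuhl {p : ℕ} [Fact p.Prime] {K L : Type u} [Field K] [CharP K p]
    (hp : ∀ x : K, ∃ y, y ^ p = x) (hL : Large K) [Field L] [Algebra K L]
    (O : ValuationSubring L) (hO : IsRat K O) : EC K L := by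
  classical
  intro n S hS
  obtain ⟨ξ, hξ⟩ := hS
  have hp1 : p.Prime := Fact.out
  let L₀ : IntermediateField K L := IntermediateField.adjoin K (Set.range ξ)
  have hmem : ∀ i, ξ i ∈ L₀ := fun i =>
    IntermediateField.subset_adjoin K _ (Set.mem_range_self i)
  let O₀ : ValuationSubring L₀ := O.comap (algebraMap L₀ L)
  have hmemO : ∀ x : L₀, x ∈ O₀ ↔ (x : L) ∈ O := fun x => Iff.rfl
  have hO₀ : IsRat K O₀ := by
    refine ⟨fun a => hO.1 a, fun x hx => ?_⟩
    obtain ⟨a, ha⟩ := hO.2 (x : L) hx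
    refine ⟨a, ?_⟩
    rw [lt_iff] at ha ⊢
    rcases ha with ha | ha
    · exact Or.inl (Subtype.ext ha)
    · exact Or.inr ha
  have : CharP L₀ p := charP_of_injective_algebraMap (algebraMap K L₀).injective p
  have : CharP (Hull L₀) p :=
    charP_of_injective_algebraMap (algebraMap L₀ (Hull L₀)).injective p
  have : ExpChar L₀ p := ExpChar.prime hp1
  obtain ⟨O', hO'⟩ := hull_ring p O₀
  have hroot : ∀ (m : ℕ) (c : K), ∃ d : K, d ^ p ^ m = c := by
    intro m
    induction m with
    | zero => exact fun c => ⟨c, by simp⟩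
    | succ m ih =>
      intro c
      obtain ⟨e, rfl⟩ := ih c
      obtain ⟨d, rfl⟩ := hp e
      exact ⟨d, by rw [← pow_mul, pow_succ, mul_comm p]⟩
  have htow : ∀ a : K, algebraMap K (Hull L₀) a =
      algebraMap L₀ (Hull L₀) (algebraMap K L₀ a) := fun a => rfl
  have hrat : IsRat K O' := by
    constructor
    · intro a
      exact (hO' _).2 ⟨0, algebraMap K L₀ a, hO₀.1 a, by rw [pow_zero, pow_one, htow]⟩
    · intro x hx
      obtain ⟨m, y, hy, hxy⟩ := (hO' x).1 hx
      obtain ⟨c, hc⟩ := hO₀.2 y hy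
      obtain ⟨d, hd⟩ := hroot m c
      refine ⟨d, ?_⟩
      have hw : (x - algebraMap K (Hull L₀) d) ^ p ^ m =
          algebraMap L₀ (Hull L₀) (y - algebraMap K L₀ c) := by
        rw [sub_pow_char_pow, hxy, ← map_pow, hd, htow, map_sub]
      rw [lt_iff] at hc ⊢
      by_cases h0 : x - algebraMap K (Hull L₀) d = 0
      · exact Or.inl h0
      refine Or.inr fun hinv => ?_
      obtain ⟨k, y', hy', hxy'⟩ := (hO' _).1 hinv
      have h1 : (y - algebraMap K L₀ c) ^ p ^ k * y' ^ p ^ m = 1 := by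
        apply (algebraMap L₀ (Hull L₀)).injective
        rw [map_mul, map_pow, map_pow, ← hw, ← hxy', ← pow_mul, ← pow_mul, map_one,
          mul_comm (p ^ k) (p ^ m), ← mul_pow, mul_inv_cancel₀ h0, one_pow]
      have hy0 : y - algebraMap K L₀ c ≠ 0 := by
        intro h2
        rw [h2, zero_pow (pow_pos hp1.pos k).ne', zero_mul] at h1
        exact zero_ne_one h1
      rcases hc with hc | hc
      · exact hy0 hc
      · apply hc
        have h3 : ((y - algebraMap K L₀ c)⁻¹) ^ p ^ k ∈ O₀ := by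
          have h4 : ((y - algebraMap K L₀ c)⁻¹) ^ p ^ k = y' ^ p ^ m := by
            rw [inv_pow]
            exact inv_eq_iff_eq_inv.2 (eq_inv_of_mul_eq_one_left h1)
          rw [h4]
          exact pow_mem hy' _
        rw [← ValuationSubring.valuation_le_one_iff, map_pow] at h3
        rw [← ValuationSubring.valuation_le_one_iff]
        exact (pow_le_one_iff (pow_pos hp1.pos k).ne').1 h3
  have htr : ∃ N : ℕ, ∀ t : Fin N → Hull L₀, ¬ AlgebraicIndependent K t := by
    refine ⟨n + 1, fun t ht => ?_⟩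
    let s : Set (Hull L₀) := Set.range fun i => algebraMap L₀ (Hull L₀) ⟨ξ i, hmem i⟩
    have hs : Cardinal.mk s ≤ n := by
      have h1 := Cardinal.mk_range_le_lift
        (f := fun i : Fin n => algebraMap L₀ (Hull L₀) ⟨ξ i, hmem i⟩)
      simpa using h1
    have hz : ∀ z : L₀, IsAlgebraic (Algebra.adjoin K s) (algebraMap L₀ (Hull L₀) z) := by
      rintro ⟨z, hz⟩
      refine IntermediateField.adjoin_induction K (s := Set.range ξ) (p := fun z hz =>
        IsAlgebraic (Algebra.adjoin K s) (algebraMap L₀ (Hull L₀) ⟨z, hz⟩)) ?_ ?_ ?_ ?_ ?_ hz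
      · rintro _ ⟨i, rfl⟩
        have h1 : algebraMap L₀ (Hull L₀) ⟨ξ i, hmem i⟩ ∈ Algebra.adjoin K s :=
          Algebra.subset_adjoin ⟨i, rfl⟩
        exact isAlgebraic_algebraMap
          (⟨algebraMap L₀ (Hull L₀) ⟨ξ i, hmem i⟩, h1⟩ : Algebra.adjoin K s)
      · intro c
        exact isAlgebraic_algebraMap (algebraMap K (Algebra.adjoin K s) c)
      · intro x y hx hy h1 h2
        have h3 := h1.add h2
        rw [← map_add] at h3
        exact h3
      · intro x hx h1
        have h3 := h1.inv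
        rw [← map_inv₀] at h3
        exact h3
      · intro x y hx hy h1 h2
        have h3 := h1.mul h2
        rw [← map_mul] at h3
        exact h3
    have halg : Algebra.IsAlgebraic (Algebra.adjoin K s) (Hull L₀) := by
      constructor
      intro x
      obtain ⟨m, z, hxz⟩ := (mem_perfectClosure_iff_pow_mem p).1 x.2
      have hxz' : x ^ p ^ m = algebraMap L₀ (Hull L₀) z := Subtype.ext hxz.symm
      have h1 : IsAlgebraic (Algebra.adjoin K s) (x ^ p ^ m) := by
        rw [hxz']
        exact hz z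
      exact h1.of_pow (pow_pos hp1.pos m)
    have h2 := Algebra.IsAlgebraic.trdeg_le_cardinalMk K s
    have h3 := (ht.lift_cardinalMk_le_trdeg).trans (Cardinal.lift_le.2 (h2.trans hs))
    rw [Cardinal.mk_fin, Cardinal.lift_natCast, Cardinal.lift_natCast, Nat.cast_le] at h3
    omega
  have hpF : ∀ x : Hull L₀, ∃ y, y ^ p = x := hull_perf p L₀
  have hTr := coarse hp hL hpF htr O' hrat
  apply hTr n S
  refine ⟨fun i => algebraMap L₀ (Hull L₀) ⟨ξ i, hmem i⟩, fun q hq => ?_⟩
  have h1 : MvPolynomial.aeval (fun i => (⟨ξ i, hmem i⟩ : L₀)) q = 0 := by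
    apply (algebraMap L₀ L).injective
    rw [map_zero, ← hξ q hq, MvPolynomial.aeval_def, MvPolynomial.aeval_def,
      MvPolynomial.hom_eval₂]
    rfl
  have h2 : MvPolynomial.aeval (fun i => algebraMap L₀ (Hull L₀) ⟨ξ i, hmem i⟩) q =
      algebraMap L₀ (Hull L₀) (MvPolynomial.aeval (fun i => (⟨ξ i, hmem i⟩ : L₀)) q) := by
    rw [MvPolynomial.aeval_def, MvPolynomial.aeval_def, MvPolynomial.hom_eval₂]
    rfl
  rw [h2, h1, map_zero]

/-- The main theorem: hypothesis (R4) for large fields with finitely many Artin-Schreier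
extensions. -/
theorem main (p : ℕ) [Fact p.Prime] {K : Type u} [Field K] [CharP K p] (hK : Large K)
    (hT : FewAS p K) (L : Type u) [Field L] [Algebra K L] (O : ValuationSubring L)
    (hO : IsRat K O) : EC K L := by
  have : CharP (Hull K) p :=
    charP_of_injective_algebraMap (algebraMap K (Hull K)).injective p
  exact main2 p hK hT
    (fun E _ _ O' hO' => kuhl (hull_perf p K) (hull_large p K hK) O' hO') L O hO

end Pool.Agent.R4U
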