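import Pool.Agent.Lib.MP_4ed7e0_lc_F.Pts

/-!
# MP_4ed7e0_lc, project U: finite extensions of large fields are large
-/

set_option autoImplicit false

namespace Pool.Agent.R4U

universe u

open Pool.Agent.R4A Pool.Agent.R4F

/-- Coordinates of the coefficients of a polynomial. -/
private theorem lFin_coord {K F : Type u} [Field K] [Field F] [Algebra K F] {ι τ : Type*}
    [Fintype ι] (b : Module.Basis ι K F) (P : MvPolynomial τ F) :
    ∃ Q : ι → MvPolynomial τ K,
      P = ∑ i, MvPolynomial.C (b i) * MvPolynomial.map (algebraMap K F) (Q i) := by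
  induction P using MvPolynomial.induction_on with
  | C a =>
    refine ⟨fun i => MvPolynomial.C (b.repr a i), ?_⟩
    simp_rw [MvPolynomial.map_C, ← MvPolynomial.C_mul, ← map_sum]
    congr 1
    conv_lhs => rw [← b.sum_repr a]
    refine Finset.sum_congr rfl fun i _ => ?_
    rw [Algebra.smul_def, mul_comm]
  | add p q hp hq =>
    obtain ⟨P, hP⟩ := hp
    obtain ⟨Q, hQ⟩ := hq
    refine ⟨fun i => P i + Q i, ?_⟩
    conv_lhs => rw [hP, hQ]
    rw [← Finset.sum_add_distrib]
    refine Finset.sum_congr rfl fun i _ => ?_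
    rw [map_add, mul_add]
  | mul_X p j hp =>
    obtain ⟨P, hP⟩ := hp
    refine ⟨fun i => P i * MvPolynomial.X j, ?_⟩
    conv_lhs => rw [hP, Finset.sum_mul]
    refine Finset.sum_congr rfl fun i _ => ?_
    rw [map_mul, MvPolynomial.map_X, mul_assoc]

/-- Values of a polynomial given by its coordinates. -/
private theorem lFin_eval {K F A B : Type u} [Field K] [Field F] [Algebra K F] [CommRing A]
    [Algebra K A] [CommRing B] [Algebra F B] (ψ : A →+* B)
    (hψ : ψ.comp (algebraMap K A) = (algebraMap F B).comp (algebraMap K F)) {ι τ : Type*}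
    [Fintype ι] (b : ι → F) (Q : ι → MvPolynomial τ K) (x : τ → A) :
    MvPolynomial.aeval (fun t => ψ (x t))
      (∑ i, MvPolynomial.C (b i) * MvPolynomial.map (algebraMap K F) (Q i)) =
      ∑ i, algebraMap F B (b i) * ψ (MvPolynomial.aeval x (Q i)) := by
  rw [map_sum]
  refine Finset.sum_congr rfl fun i _ => ?_
  rw [map_mul, MvPolynomial.algHom_C, MvPolynomial.aeval_def, MvPolynomial.eval₂_map,
    MvPolynomial.aeval_def, MvPolynomial.eval₂_comp_left, hψ]
  rfl

/-- The coefficientwise map of Laurent series. -/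
private noncomputable def lFinMap (K F : Type u) [Field K] [Field F] [Algebra K F] :
    LaurentSeries K →+* LaurentSeries F where
  toFun f := f.map ((algebraMap K F : K →+* F) : K →ₙ+* F)
  map_one' := by
    ext n
    rw [HahnSeries.map_coeff, HahnSeries.coeff_one, HahnSeries.coeff_one]
    split_ifs
    · exact map_one (algebraMap K F)
    · exact map_zero (algebraMap K F)
  map_mul' x y := HahnSeries.map_mul _
  map_zero' := by
    ext n
    rw [HahnSeries.map_coeff]
    exact map_zero (algebraMap K F)
  map_add' x y := by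
    ext n
    rw [HahnSeries.map_coeff, HahnSeries.coeff_add, HahnSeries.coeff_add, HahnSeries.map_coeff,
      HahnSeries.map_coeff]
    exact map_add (algebraMap K F) _ _

private theorem lFinMap_coeff (K F : Type u) [Field K] [Field F] [Algebra K F]
    (f : LaurentSeries K) (n : ℤ) : (lFinMap K F f).coeff n = algebraMap K F (f.coeff n) := rfl

private theorem lFin_alg_coeff (F : Type u) [Field F] (c : F) (f : LaurentSeries F) (n : ℤ) :
    (algebraMap F (LaurentSeries F) c * f).coeff n = c * f.coeff n := by
  have h : algebraMap F (LaurentSeries F) c = HahnSeries.C c := by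
    rw [HahnSeries.algebraMap_apply', ← PowerSeries.C_eq_algebraMap,
      HahnSeries.ofPowerSeries_C]
  rw [h, HahnSeries.C_mul_eq_smul, HahnSeries.coeff_smul, smul_eq_mul]

private theorem lFin_sum_coeff {F : Type u} [Field F] {ι : Type*} (s : Finset ι)
    (f : ι → LaurentSeries F) (n : ℤ) : (∑ i ∈ s, f i).coeff n = ∑ i ∈ s, (f i).coeff n := by
  classical
  induction s using Finset.induction_on with
  | empty => rw [Finset.sum_empty, Finset.sum_empty, HahnSeries.coeff_zero]
  | insert a s ha ih => rw [Finset.sum_insert ha, Finset.sum_insert ha, HahnSeries.coeff_add, ih]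

private theorem lFinMap_comp (K F : Type u) [Field K] [Field F] [Algebra K F] :
    (lFinMap K F).comp (algebraMap K (LaurentSeries K)) =
      (algebraMap F (LaurentSeries F)).comp (algebraMap K F) := by
  ext a n
  rw [RingHom.comp_apply, RingHom.comp_apply, lFinMap_coeff]
  have h1 := lFin_alg_coeff K a 1 n
  have h2 := lFin_alg_coeff F (algebraMap K F a) 1 n
  rw [mul_one] at h1 h2
  rw [h1, h2, HahnSeries.coeff_one, HahnSeries.coeff_one]
  split_ifs
  · rw [mul_one, mul_one]
  · rw [mul_zero, mul_zero, map_zero]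

/-- Coordinates of Laurent series. -/
private theorem lFin_coordL {K F : Type u} [Field K] [Field F] [Algebra K F] {ι : Type*}
    [Fintype ι] (b : Module.Basis ι K F) (f : LaurentSeries F) :
    ∃ g : ι → LaurentSeries K,
      f = ∑ i, algebraMap F (LaurentSeries F) (b i) * lFinMap K F (g i) := by
  refine ⟨fun i => f.map (b.coord i), ?_⟩
  ext n
  rw [lFin_sum_coeff]
  conv_lhs => rw [← b.sum_repr (f.coeff n)]
  refine Finset.sum_congr rfl fun i _ => ?_
  rw [lFin_alg_coeff, lFinMap_coeff, Algebra.smul_def, mul_comm]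
  rfl

/-- Linear independence. -/
private theorem lFin_indep {K F : Type u} [Field K] [Field F] [Algebra K F] {ι : Type*}
    [Fintype ι] (b : Module.Basis ι K F) (g : ι → LaurentSeries K)
    (h : ∑ i, algebraMap F (LaurentSeries F) (b i) * lFinMap K F (g i) = 0) (i : ι) :
    g i = 0 := by
  ext n
  have h1 := congrArg (fun f : LaurentSeries F => f.coeff n) h
  simp only [HahnSeries.coeff_zero] at h1
  rw [lFin_sum_coeff] at h1
  have h2 : ∑ i, (g i).coeff n • b i = 0 := by
    rw [← h1]
    refine Finset.sum_congr rfl fun i _ => ?_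
    rw [lFin_alg_coeff, lFinMap_coeff, Algebra.smul_def, mul_comm]
  have h3 := Fintype.linearIndependent_iff.1 b.linearIndependent (fun i => (g i).coeff n) h2 i
  rw [h3, HahnSeries.coeff_zero]

/-- Finite extensions of large fields are large.

Proof. Let `e i` (`i` in a finite type `ι`) be a basis of `F` over `K`. A Laurent series over `F` is
`∑ i, e i * f i` with unique Laurent series `f i` over `K` (coordinates of the coefficients). For a
polynomial `q` over `F` in `n` variables there are polynomials `q i` over `K` in the variables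
`(j, l)`, `j < n`, `l ∈ ι`, such that `q(∑ l, e l * X_jl) = ∑ i, e i * q i`, for all values of the
variables in `K` and in `LaurentSeries K` (by induction on `q`, or by expressing the coefficients of
`MvPolynomial.aeval (fun j => ∑ l, C (e l) * X (j, l)) q` in the basis). If `x` is a solution of `S`
in `LaurentSeries F` with coordinates `x j l` then the `q i` (`q ∈ S`, `i ∈ ι`) vanish at
`(x j l)`, by `large_any` they have a common zero `(z j l)` in `K`, and `z j = ∑ l, e l * z j l` is a
solution of `S` in `F`. -/
theorem large_fin {K F : Type u} [Field K] [Field F] [Algebra K F] [FiniteDimensional K F]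
    (hK : Large K) : Large F := by
  classical
  intro n S hS
  obtain ⟨x, hx⟩ := hS
  let b := Module.finBasis K F
  let d := Module.finrank K F
  let τ : Type u := ULift.{u} (Fin n × Fin d)
  let Φ : MvPolynomial (Fin n) F →ₐ[F] MvPolynomial τ F :=
    MvPolynomial.aeval fun j => ∑ l, MvPolynomial.C (b l) * MvPolynomial.X ⟨(j, l)⟩
  have hΦ : ∀ {B : Type u} [CommRing B] [Algebra F B] (y : τ → B) (q : MvPolynomial (Fin n) F),
      MvPolynomial.aeval y (Φ q) =
        MvPolynomial.aeval (fun j => ∑ l, algebraMap F B (b l) * y ⟨(j, l)⟩) q := by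
    intro B _ _ y q
    have h1 : (MvPolynomial.aeval y).comp Φ =
        MvPolynomial.aeval (fun j => ∑ l, algebraMap F B (b l) * y ⟨(j, l)⟩) := by
      ext j
      rw [AlgHom.comp_apply, MvPolynomial.aeval_X, MvPolynomial.aeval_X, map_sum]
      refine Finset.sum_congr rfl fun l _ => ?_
      rw [map_mul, MvPolynomial.algHom_C, MvPolynomial.aeval_X]
    exact DFunLike.congr_fun h1 q
  have hQ := fun q => lFin_coord b (Φ q)
  choose Q hQ using hQ
  have hf := fun j => lFin_coordL b (x j)
  choose f hf using hf
  have hT : ∀ r ∈ S.biUnion (fun q => Finset.univ.image (Q q)),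
      MvPolynomial.aeval (fun t : τ => f t.down.1 t.down.2) r = 0 := by
    intro r hr
    obtain ⟨q, hq, hr⟩ := Finset.mem_biUnion.1 hr
    obtain ⟨i, _, rfl⟩ := Finset.mem_image.1 hr
    have h1 := hΦ (fun t : τ => lFinMap K F (f t.down.1 t.down.2)) q
    have h2 : (fun j => ∑ l, algebraMap F (LaurentSeries F) (b l) * lFinMap K F (f j l)) = x :=
      funext fun j => (hf j).symm
    have h3 : MvPolynomial.aeval (fun t : τ => lFinMap K F (f t.down.1 t.down.2)) (Φ q) = 0 := by
      rw [h1]
      have h4 := hx q hq
      rw [← h2] at h4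
      exact h4
    rw [hQ q, lFin_eval (lFinMap K F) (lFinMap_comp K F)] at h3
    exact lFin_indep b _ h3 i
  obtain ⟨z, hz⟩ := large_any hK _ _ hT
  refine ⟨fun j => ∑ l, b l * algebraMap K F (z ⟨(j, l)⟩), fun q hq => ?_⟩
  have h1 := hΦ (fun t : τ => algebraMap K F (z t)) q
  rw [hQ q, lFin_eval (K := K) (F := F) (algebraMap K F) (RingHom.ext fun a => rfl)] at h1
  have h2 : ∀ i, MvPolynomial.aeval z (Q q i) = 0 := fun i =>
    hz _ (Finset.mem_biUnion.2 ⟨q, hq, Finset.mem_image.2 ⟨i, Finset.mem_univ i, rfl⟩⟩)
  have h3 : MvPolynomial.aeval (fun j => ∑ l, algebraMap F F (b l) *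
      algebraMap K F (z ⟨(j, l)⟩)) q = 0 := by
    rw [← h1]
    refine Finset.sum_eq_zero fun i _ => ?_
    rw [h2 i, map_zero, mul_zero]
  rw [MvPolynomial.aeval_def] at h3
  exact h3

end Pool.Agent.R4U
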