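import Pool.Agent.Lib.MP_4ed7e0_lc_U.Trunc

/-!
# MP_4ed7e0_lc, project U: Laurent series over existentially closed extensions
-/

set_option autoImplicit false

namespace Pool.Agent.R4U

universe u

open Pool.Agent.R4A Pool.Agent.R4F

private theorem LS_map {K A B : Type u} [CommRing K] [CommRing A] [Algebra K A]
    [CommRing B] [Algebra K B] (φ : A →ₐ[K] B) {m : ℕ} (x : Fin m → A) (y : A)
    (F : Polynomial (MvPolynomial (Fin m) K)) :
    φ (ev2 x y F) = ev2 (fun i => φ (x i)) (φ y) F := by
  unfold ev2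
  rw [Polynomial.eval_map, Polynomial.eval_map]
  have h := Polynomial.hom_eval₂ F (MvPolynomial.aeval x : MvPolynomial (Fin m) K →ₐ[K] A).toRingHom
    φ.toRingHom y
  have h2 : φ.toRingHom.comp (MvPolynomial.aeval x : MvPolynomial (Fin m) K →ₐ[K] A).toRingHom =
      (MvPolynomial.aeval (fun i => φ (x i)) : MvPolynomial (Fin m) K →ₐ[K] B).toRingHom := by
    refine MvPolynomial.ringHom_ext (fun r => ?_) (fun i => ?_)
    · simp
    · simp
  rw [h2] at h
  exact h

private theorem LS_mul {K A : Type u} [CommRing K] [CommRing A] [Algebra K A]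
    {m : ℕ} (x : Fin m → A) (y : A) (F G : Polynomial (MvPolynomial (Fin m) K)) :
    ev2 x y (F * G) = ev2 x y F * ev2 x y G := by
  unfold ev2
  rw [Polynomial.map_mul, Polynomial.eval_mul]

/-- If `K` is perfect and large and existentially closed in `M` then it is existentially closed in
`M((t))`.

Proof. Let `S` be solvable in `M((t))`. `hyp` (with `sepa_perf`) for `L = LaurentSeries M` and the
valuation ring `O` of the power series (the range of `PowerSeries M → LaurentSeries M`; every nonzero
Laurent series is `t ^ i` times a unit of `PowerSeries M`) gives `F, G` over `K` and `x, y` in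
`PowerSeries M` with `F(x, y) = 0`, `F_Y(x, y) ≠ 0 ≠ G(x, y)`. Let `Q = F.derivative * G`,
`l` with `coeff l (ev2 x y Q) ≠ 0` and `s = 2 * l + 1`. `trunc_tr` gives `a', b'` over `K` with
`X ^ s ∣ F(a', b')` and `coeff l (Q(a', b')) ≠ 0`, so `X ^ (l + 1)` divides neither `F_Y(a', b')` nor
`G(a', b')`. By `hens_solv` `S` is solvable in `K((t))`, so in `K` (`Large K`;
`MvPolynomial.eval` and `aeval` agree). -/
theorem ls {p : ℕ} [Fact p.Prime] {K M : Type u} [Field K] [CharP K p] [Field M] [Algebra K M]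
    (hp : ∀ x : K, ∃ y, y ^ p = x) (hL : Large K) (hec : Tr K M K) :
    Tr K (LaurentSeries M) K := by
  intro n S hS
  classical
  obtain ⟨O, hO⟩ : ∃ O : ValuationSubring (LaurentSeries M), ∀ x, x ∈ O ↔
      ∃ f : PowerSeries M, HahnSeries.ofPowerSeries ℤ M f = x :=
    ⟨(Valued.v : Valuation (LaurentSeries M) _).valuationSubring, fun x => by
      rw [Valuation.mem_valuationSubring_iff]
      exact LaurentSeries.val_le_one_iff_eq_coe M x⟩
  let φ : PowerSeries M →ₐ[K] LaurentSeries M :=
    { HahnSeries.ofPowerSeries ℤ M with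
      commutes' := fun c => rfl }
  have hφ : Function.Injective φ := HahnSeries.ofPowerSeries_injective
  have hOK : ∀ c : K, algebraMap K (LaurentSeries M) c ∈ O := by
    intro c
    rw [hO]
    exact ⟨algebraMap K (PowerSeries M) c, rfl⟩
  obtain ⟨m, F, G, x, y, hx, hy, hF, hF', hG, hR⟩ :=
    hyp p (sepa_perf p hp) O hOK S hS
  choose a ha using fun i => (hO _).1 (hx i)
  obtain ⟨b, hb⟩ := (hO _).1 hy
  have hxa : x = fun i => φ (a i) := by
    funext i
    exact (ha i).symm
  have hyb : y = φ b := hb.symm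
  have hQ : ∀ H : Polynomial (MvPolynomial (Fin m) K), ev2 x y H = φ (ev2 a b H) := by
    intro H
    rw [hxa, hyb]
    exact (LS_map φ a b H).symm
  have hFa : ev2 a b F = 0 := by
    apply hφ
    rw [← hQ, hF, map_zero]
  have hne : ev2 a b (F.derivative * G) ≠ 0 := by
    intro h
    rw [LS_mul] at h
    rcases mul_eq_zero.1 h with h | h
    · exact hF' (by rw [hQ, h, map_zero])
    · exact hG (by rw [hQ, h, map_zero])
  obtain ⟨l, hl⟩ : ∃ l, PowerSeries.coeff l (ev2 a b (F.derivative * G)) ≠ 0 := by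
    by_contra hcon
    push Not at hcon
    exact hne (PowerSeries.ext fun i => by rw [hcon i, map_zero])
  obtain ⟨a', b', h1, h2⟩ := trunc_tr hec F (F.derivative * G) a b
    (s := 2 * l + 1) (l := l) (by omega) (by rw [hFa]; exact dvd_zero _) hl
  have h3 : ¬ PowerSeries.X ^ (l + 1) ∣ ev2 a' b' (F.derivative * G) := by
    intro h
    exact h2 (PowerSeries.X_pow_dvd_iff.1 h l (by omega))
  rw [LS_mul] at h3
  have h4 := hens_solv (R := K) (S := S) (F := F) (G := G) (hR (LaurentSeries K)) a' b' l h1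
    (fun h => h3 (dvd_mul_of_dvd_left h _)) (fun h => h3 (dvd_mul_of_dvd_right h _))
  obtain ⟨z, hz⟩ := h4
  obtain ⟨w, hw⟩ := hL n S ⟨z, hz⟩
  exact ⟨w, fun q hq => by rw [← hw q hq]; rfl⟩

end Pool.Agent.R4U
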