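import Pool.Agent.Lib.MP_4ed7e0_lc_U.PE

/-!
# MP_4ed7e0_lc, project U: maximal fields with residue field `k`
-/

set_option autoImplicit false

namespace Pool.Agent.R4U

universe u

variable {Ω : Type u} [NormedField Ω]

/-- `H` is a maximal subfield with residue field `k`. -/
structure MaxH (p : ℕ) (k H : Subfield Ω) : Prop where
  kH : k ≤ H
  triv : Triv k
  kperf : Perf p k
  res : Res k H
  max : ∀ H' : Subfield Ω, H ≤ H' → Res k H' → H' ≤ H

variable [IsUltrametricDist Ω]

/-- Proof. Zorn (`zorn_le_nonempty₀`): the union of a nonempty chain of subfields with `Res k` has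
`Res k` (`Subfield.mem_sSup_of_directedOn`). -/
theorem exists_max (p : ℕ) {k F : Subfield Ω} (hkF : k ≤ F) (ht : Triv k) (hp : Perf p k)
    (h : Res k F) : ∃ H, F ≤ H ∧ MaxH p k H := by
  obtain ⟨H, hFH, hH⟩ := zorn_le_nonempty₀ {A : Subfield Ω | Res k A} (by
    intro c hc hchain y hy
    refine ⟨sSup c, ?_, fun z hz => le_sSup hz⟩
    intro x hx hx1
    have hdir : DirectedOn (· ≤ ·) c := hchain.directedOn
    rw [Subfield.mem_sSup_of_directedOn ⟨y, hy⟩ hdir] at hx
    obtain ⟨A, hA, hxA⟩ := hx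
    exact hc hA x hxA hx1) F h
  refine ⟨H, hFH, hkF.trans hFH, ht, hp, hH.prop, ?_⟩
  intro H' hHH' hR
  exact hH.le_of_ge hR hHH'

/-- Proof. `Res k (adj H w)`: let `x` have norm at most one; if the norm is less than one take
`c = 0`. Otherwise there is `h ∈ H` with `‖x - h‖ < 1`, so `‖h‖ = 1`, and `c ∈ k` with
`‖h - c‖ < 1`. So `adj H w ≤ H`. -/
theorem MaxH.mem_of_unit {p : ℕ} {k H : Subfield Ω} (hm : MaxH p k H) {w : Ω}
    (hw : ∀ x ∈ adj H w, ‖x‖ = 1 → ∃ h ∈ H, ‖x - h‖ < 1) : w ∈ H := by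
  have hle : H ≤ adj H w := fun x hx => Subfield.subset_closure (Or.inl hx)
  have hw' : w ∈ adj H w := Subfield.subset_closure (Or.inr rfl)
  refine hm.max (adj H w) hle ?_ hw'
  intro x hx hx1
  rcases lt_or_eq_of_le hx1 with hlt | heq
  · exact ⟨0, k.zero_mem, by simpa using hlt⟩
  · obtain ⟨h, hh, hxh⟩ := hw x hx heq
    have hh1 : ‖h‖ ≤ 1 := by
      have : h = x + (h - x) := by ring
      rw [this]
      refine (IsUltrametricDist.norm_add_le_max x (h - x)).trans (max_le hx1 ?_)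
      rw [norm_sub_rev]
      exact hxh.le
    obtain ⟨c, hc, hhc⟩ := hm.res h hh hh1
    refine ⟨c, hc, ?_⟩
    have : x - c = (x - h) + (h - c) := by ring
    rw [this]
    exact lt_of_le_of_lt (IsUltrametricDist.norm_add_le_max _ _) (max_lt hxh hhc)

/-- Proof. Let `H'` be the subfield of all `u` with `u ^ p ∈ H` (`Subfield.comap` of the Frobenius
homomorphism). If `u ∈ H'`, `‖u‖ ≤ 1` there are `c ∈ k` with `‖u ^ p - c‖ < 1` and `d ∈ k` with
`d ^ p = c`, so `‖u - d‖ ^ p = ‖u ^ p - c‖ < 1`. So `H' ≤ H` by maximality. -/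
theorem MaxH.perf {p : ℕ} [Fact p.Prime] [CharP Ω p] [IsAlgClosed Ω] {k H : Subfield Ω}
    (hm : MaxH p k H) : Perf p H := by
  intro x hx
  have hp : p.Prime := Fact.out
  obtain ⟨y, hy⟩ := IsAlgClosed.exists_pow_nat_eq x hp.pos
  refine ⟨y, ?_, hy⟩
  have key : H.comap (frobenius Ω p) ≤ H := by
    refine hm.max _ ?_ ?_
    · intro z hz
      rw [Subfield.mem_comap, frobenius_def]
      exact pow_mem hz p
    · intro u hu hu1
      rw [Subfield.mem_comap, frobenius_def] at hu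
      obtain ⟨c, hc, huc⟩ := hm.res (u ^ p) hu (by
        rw [norm_pow]; exact pow_le_one₀ (norm_nonneg u) hu1)
      obtain ⟨d, hd, hdc⟩ := hm.kperf c hc
      refine ⟨d, hd, ?_⟩
      rw [← hdc, ← sub_pow_char, norm_pow] at huc
      by_contra hcon
      rw [not_lt] at hcon
      exact absurd huc (not_lt.mpr (one_le_pow₀ hcon))
  apply key
  rw [Subfield.mem_comap, frobenius_def, hy]
  exact hx

end Pool.Agent.R4U
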