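import Pool.Agent.Lib.MP_4ed7e0_lc_U.Newt
import Pool.Agent.Lib.MP_4ed7e0_lc_U.PE

/-!
# MP_4ed7e0_lc, project U: Newton step, type I
-/

set_option autoImplicit false

namespace Pool.Agent.R4U

universe u

variable {Ω : Type u} [NormedField Ω] [IsUltrametricDist Ω]

omit [IsUltrametricDist Ω] in
private theorem newI_natCast_norm (p : ℕ) [Fact p.Prime] [CharP Ω p] {n : ℕ} (hn : ¬ p ∣ n) :
    ‖(n : Ω)‖ = 1 := by
  have hp := (Fact.out : p.Prime)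
  have h1 : (n : ZMod p) ≠ 0 := by
    rwa [Ne, ZMod.natCast_eq_zero_iff]
  have h2 := ZMod.pow_card_sub_one_eq_one h1
  have h3 : (n : Ω) ^ (p - 1) = 1 := by
    have h4 := congrArg (ZMod.castHom (dvd_refl p) Ω) h2
    simpa using h4
  have h5 : ‖(n : Ω)‖ ^ (p - 1) = 1 := by rw [← norm_pow, h3, norm_one]
  exact (pow_eq_one_iff_of_nonneg (norm_nonneg _) (by have := hp.two_le; omega)).1 h5

omit [IsUltrametricDist Ω] in
private theorem newI_coeff (I : Finset ℕ) (D : ℕ → Ω) (e b : Ω) {i : ℕ} (hi : 1 ≤ i) :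
    (Polynomial.taylor b (∑ l ∈ I, Polynomial.C (D l) * Polynomial.X ^ l +
      Polynomial.C e)).coeff i = ∑ l ∈ I, D l * (b ^ (l - i) * (l.choose i : Ω)) := by
  rw [map_add, Polynomial.taylor_C, Polynomial.coeff_add, Polynomial.coeff_C,
    if_neg (by omega), add_zero, map_sum, Polynomial.finsetSum_coeff]
  refine Finset.sum_congr rfl fun l _ => ?_
  rw [Polynomial.taylor_mul, Polynomial.taylor_C, Polynomial.taylor_X_pow,
    Polynomial.coeff_C_mul, Polynomial.coeff_X_add_C_pow]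

private theorem newI_term (d b : Ω) (l i : ℕ) :
    ‖d * (b ^ (l - i) * (l.choose i : Ω))‖ * ‖b‖ ^ i ≤ ‖d‖ * ‖b‖ ^ l := by
  have h1 : ‖((l.choose i : ℕ) : Ω)‖ ≤ 1 := IsUltrametricDist.norm_natCast_le_one Ω _
  rcases le_or_gt i l with h | h
  · rw [norm_mul, norm_mul, norm_pow]
    calc ‖d‖ * (‖b‖ ^ (l - i) * ‖((l.choose i : ℕ) : Ω)‖) * ‖b‖ ^ i
        ≤ ‖d‖ * (‖b‖ ^ (l - i) * 1) * ‖b‖ ^ i := by gcongr
      _ = ‖d‖ * (‖b‖ ^ (l - i) * ‖b‖ ^ i) := by ring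
      _ = ‖d‖ * ‖b‖ ^ l := by rw [← pow_add, Nat.sub_add_cancel h]
  · rw [Nat.choose_eq_zero_of_lt h, Nat.cast_zero, mul_zero, mul_zero, norm_zero, zero_mul]
    positivity

/-- If `ϑ ^ p - ϑ` is a polynomial in `x` over `E` with exponents prime to `p` and a unique
dominating term, and `x` is approximated by `x0 ∈ E`, then `x` lies in the closure of `E(ϑ)`.

Proof. `newton_mem` with `A = cl E ϑ` (closed), `b = x0`, `w = x` and
`Q = ∑ i ∈ I, C (D i) * X ^ i + C (d0 - (ϑ ^ p - ϑ))`. Let `ρ = ‖x‖ = ‖x0‖ > 0`. For `i ≥ 1` the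
Taylor coefficient of `Q` at `x0` is `∑ l ∈ I, (l.choose i) * D l * x0 ^ (l - i)` (`l ≥ i`). For
`i = 1` the term `l = j` has norm `‖D j‖ * ρ ^ (j - 1)` (`‖(j : Ω)‖ = 1` because `p ∤ j`), the
others are smaller by `hdom`; so the coefficient has norm `‖D j‖ * ρ ^ (j - 1) > 0`. For `i ≥ 2`
the norm is at most `‖D j‖ * ρ ^ j / ρ ^ i`, and `‖x - x0‖ ^ (i - 1) < ρ ^ (i - 1)`. -/
theorem newI {p : ℕ} [Fact p.Prime] [CharP Ω p] {E : Subfield Ω} {x x0 ϑ : Ω} (I : Finset ℕ)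
    (D : ℕ → Ω) {d0 : Ω} (hD : ∀ i ∈ I, D i ∈ E) (hI : ∀ i ∈ I, ¬ p ∣ i) (hd0 : d0 ∈ E) {j : ℕ}
    (hj : j ∈ I) (hj0 : D j ≠ 0)
    (hdom : ∀ i ∈ I, i ≠ j → ‖D i‖ * ‖x‖ ^ i < ‖D j‖ * ‖x‖ ^ j) (hx0 : x0 ∈ E)
    (hx : ‖x - x0‖ < ‖x‖) (heq : ϑ ^ p - ϑ = d0 + ∑ i ∈ I, D i * x ^ i) : x ∈ cl E ϑ := by
  have hρ : 0 < ‖x‖ := (norm_nonneg _).trans_lt hx
  have hxx : ‖x0‖ = ‖x‖ := by
    have h1 : x0 = x + -(x - x0) := by ring
    have h2 : ‖x + -(x - x0)‖ = max ‖x‖ ‖-(x - x0)‖ :=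
      IsUltrametricDist.norm_add_eq_max_of_norm_ne_norm (by rw [norm_neg]; exact hx.ne')
    rw [h1, h2, norm_neg, max_eq_left hx.le]
  have hAE : E ≤ cl E ϑ := le_cl E ϑ
  have hϑ : ϑ ∈ cl E ϑ := mem_cl E ϑ
  have hj1 : 1 ≤ j := by
    rcases Nat.eq_zero_or_pos j with h | h
    · exact absurd (h ▸ dvd_zero p) (hI j hj)
    · exact h
  set Q : Polynomial Ω := ∑ l ∈ I, Polynomial.C (D l) * Polynomial.X ^ l +
      Polynomial.C (d0 - (ϑ ^ p - ϑ)) with hQ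
  have hM : 0 < ‖D j‖ * ‖x‖ ^ j := mul_pos (norm_pos_iff.2 hj0) (pow_pos hρ _)
  -- all coefficients
  have hle : ∀ i, 1 ≤ i → ‖(Polynomial.taylor x0 Q).coeff i‖ * ‖x‖ ^ i ≤ ‖D j‖ * ‖x‖ ^ j := by
    intro i hi
    rw [hQ, newI_coeff I D _ x0 hi, ← le_div_iff₀ (pow_pos hρ i)]
    refine IsUltrametricDist.norm_sum_le_of_forall_le_of_nonneg (by positivity) fun l hl => ?_
    rw [le_div_iff₀ (pow_pos hρ i)]
    have h1 := newI_term (D l) x0 l i
    rw [hxx] at h1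
    refine h1.trans ?_
    by_cases hlj : l = j
    · rw [hlj]
    · exact (hdom l hl hlj).le
  -- the first coefficient
  have h1 : ‖(Polynomial.taylor x0 Q).coeff 1‖ * ‖x‖ = ‖D j‖ * ‖x‖ ^ j := by
    rw [hQ, newI_coeff I D _ x0 le_rfl, ← Finset.add_sum_erase I _ hj]
    have ht : ‖D j * (x0 ^ (j - 1) * (j.choose 1 : Ω))‖ * ‖x‖ = ‖D j‖ * ‖x‖ ^ j := by
      rw [Nat.choose_one_right, norm_mul, norm_mul, newI_natCast_norm p (hI j hj), norm_pow,
        hxx, mul_one, mul_assoc, ← pow_succ, Nat.sub_add_cancel hj1]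
    rcases (I.erase j).eq_empty_or_nonempty with he | hne
    · rw [he, Finset.sum_empty, add_zero, ht]
    · obtain ⟨l, hl, hle2⟩ := IsUltrametricDist.exists_norm_finsetSum_le_of_nonempty hne
        (fun l => D l * (x0 ^ (l - 1) * (l.choose 1 : Ω)))
      have hl' := Finset.mem_erase.1 hl
      have h3 := newI_term (D l) x0 l 1
      rw [hxx, pow_one] at h3
      have h4 : ‖∑ l ∈ I.erase j, D l * (x0 ^ (l - 1) * (l.choose 1 : Ω))‖ <
          ‖D j * (x0 ^ (j - 1) * (j.choose 1 : Ω))‖ := by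
        refine hle2.trans_lt ?_
        refine lt_of_mul_lt_mul_right ?_ hρ.le
        rw [ht]
        exact h3.trans_lt (hdom l hl'.2 hl'.1)
      rw [IsUltrametricDist.norm_add_eq_max_of_norm_ne_norm h4.ne', max_eq_left h4.le, ht]
  have hc1 : 0 < ‖(Polynomial.taylor x0 Q).coeff 1‖ := by
    rw [← h1] at hM
    exact lt_of_mul_lt_mul_right (by rwa [zero_mul]) hρ.le
  refine newton_mem (isClosed_cl E ϑ) (Q := Q) (b := x0) (w := x) ?_ (hAE hx0) ?_ ?_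
  · intro i
    rw [hQ, Polynomial.coeff_add, Polynomial.finsetSum_coeff, Polynomial.coeff_C]
    refine (cl E ϑ).add_mem ((cl E ϑ).sum_mem fun l hl => ?_) ?_
    · rw [Polynomial.coeff_C_mul, Polynomial.coeff_X_pow]
      refine (cl E ϑ).mul_mem (hAE (hD l hl)) ?_
      split_ifs
      · exact (cl E ϑ).one_mem
      · exact (cl E ϑ).zero_mem
    · split_ifs
      · exact (cl E ϑ).sub_mem (hAE hd0) ((cl E ϑ).sub_mem ((cl E ϑ).pow_mem hϑ p) hϑ)
      · exact (cl E ϑ).zero_mem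
  · rw [hQ, Polynomial.eval_add, Polynomial.eval_finsetSum, Polynomial.eval_C, heq]
    simp
  · intro i hi
    rcases (norm_nonneg ((Polynomial.taylor x0 Q).coeff i)).eq_or_lt with h0 | h0
    · rw [← h0, zero_mul]
      exact hc1
    · refine lt_of_mul_lt_mul_right ?_ hρ.le
      rw [h1]
      refine lt_of_lt_of_le ?_ (hle i (by omega))
      have h5 : ‖x‖ ^ i = ‖x‖ ^ (i - 1) * ‖x‖ := by
        rw [← pow_succ, Nat.sub_add_cancel (by omega)]
      rw [h5, ← mul_assoc]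
      refine mul_lt_mul_of_pos_right ?_ hρ
      refine mul_lt_mul_of_pos_left ?_ h0
      exact pow_lt_pow_left₀ hx (norm_nonneg _) (by omega)

end Pool.Agent.R4U
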