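import Pool.Agent.Lib.MP_4ed7e0_lc_U.Lau
import Pool.Agent.Lib.MP_4ed7e0_lc_U.HAlg

/-!
# MP_4ed7e0_lc, project U: the ramified Artin-Schreier step, type II
-/

set_option autoImplicit false

namespace Pool.Agent.R4U

universe u

variable {Ω : Type u} [NormedField Ω] [IsUltrametricDist Ω]

private lemma newII_lift (N : Subfield Ω) {q : Polynomial Ω} (hc : Coef N q) (hm : q.Monic) :
    ∃ q0 : Polynomial N, q0.map N.subtype = q ∧ q0.natDegree = q.natDegree ∧ q0.Monic := by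
  refine Polynomial.lifts_and_natDegree_eq_and_monic ?_ hm
  rw [Polynomial.lifts_iff_coeff_lifts]
  intro i
  exact ⟨⟨q.coeff i, hc i⟩, rfl⟩

private lemma newII_root (N : Subfield Ω) {q0 : Polynomial N} {y : Ω}
    (hy : (q0.map N.subtype).eval y = 0) : Polynomial.aeval y q0 = 0 := by
  rw [Polynomial.eval_map] at hy
  rw [Polynomial.aeval_def]
  exact hy

private lemma newII_alg (N : Subfield Ω) {q : Polynomial Ω} (hc : Coef N q) (hm : q.Monic)
    {y : Ω} (hy : q.eval y = 0) : IsAlgebraic N y := by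
  obtain ⟨q0, h1, -, h3⟩ := newII_lift N hc hm
  rw [← h1] at hy
  exact ⟨q0, h3.ne_zero, newII_root N hy⟩

private lemma newII_adj_le (H : Subfield Ω) (w : Ω) {x : Ω} (hx : x ∈ adj H w) :
    x ∈ IntermediateField.adjoin H {w} := by
  have h : adj H w ≤ (IntermediateField.adjoin H {w}).toSubfield := by
    unfold adj
    rw [Subfield.closure_le]
    rintro y (hy | hy)
    · exact (IntermediateField.adjoin H {w}).algebraMap_mem ⟨y, hy⟩
    · rw [Set.mem_singleton_iff] at hy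
      rw [hy]
      exact IntermediateField.mem_adjoin_simple_self H w
  exact h hx

private lemma newII_sum (N : Subfield Ω) {q : Polynomial Ω} (hc : Coef N q) (hm : q.Monic)
    {n : ℕ} (hn : 0 < n) (hd : q.natDegree = n) {y : Ω} (hy : q.eval y = 0) {x : Ω}
    (hx : x ∈ adj N y) :
    ∃ a : ℕ → Ω, (∀ i, a i ∈ N) ∧ x = ∑ i ∈ Finset.range n, a i * y ^ i := by
  obtain ⟨q0, h1, h2, h3⟩ := newII_lift N hc hm
  rw [← h1] at hy
  have hroot := newII_root N hy
  have halg : IsAlgebraic N y := ⟨q0, h3.ne_zero, hroot⟩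
  have hx1 := newII_adj_le N y hx
  rw [← IntermediateField.mem_toSubalgebra,
    IntermediateField.adjoin_simple_toSubalgebra_of_isAlgebraic halg,
    Algebra.adjoin_singleton_eq_range_aeval] at hx1
  obtain ⟨r, hr⟩ := hx1
  have hr' : Polynomial.aeval y r = x := hr
  have hne1 : q0 ≠ 1 := by
    intro e
    rw [e, Polynomial.natDegree_one, hd] at h2
    omega
  have hlt := Polynomial.natDegree_modByMonic_lt r h3 hne1
  rw [h2, hd] at hlt
  refine ⟨fun i => ((r %ₘ q0).coeff i : N), fun i => SetLike.coe_mem _, ?_⟩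
  rw [← hr', ← Polynomial.aeval_modByMonic_eq_self_of_root hroot,
    Polynomial.aeval_eq_sum_range' hlt]
  rfl

private lemma newII_norm {u : Ω} (hu : ‖u - 1‖ < 1) : ‖u‖ = 1 := by
  have h1 : ‖(1 : Ω)‖ = 1 := norm_one
  have e : u = (u - 1) + 1 := by ring
  rw [e, IsUltrametricDist.norm_add_eq_max_of_norm_ne_norm (by rw [h1]; exact hu.ne), h1]
  exact max_eq_right hu.le

private lemma newII_npow {u : Ω} (hu : ‖u - 1‖ < 1) (m : ℕ) : ‖u ^ m - 1‖ ≤ ‖u - 1‖ := by
  induction m with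
  | zero => simp
  | succ m ih =>
    have e : u ^ (m + 1) - 1 = u * (u ^ m - 1) + (u - 1) := by ring
    rw [e]
    refine (IsUltrametricDist.norm_add_le_max _ _).trans (max_le ?_ le_rfl)
    rw [norm_mul, newII_norm hu, one_mul]
    exact ih

private lemma newII_zpow {u : Ω} (hu : ‖u - 1‖ < 1) (m : ℤ) : ‖u ^ m - 1‖ ≤ ‖u - 1‖ := by
  have hu0 : u ≠ 0 := by
    intro h
    have := newII_norm hu
    rw [h, norm_zero] at this
    exact zero_ne_one this
  obtain ⟨n, rfl | rfl⟩ := m.eq_nat_or_neg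
  · rw [zpow_natCast]
    exact newII_npow hu n
  · have h0 : u ^ n ≠ 0 := pow_ne_zero n hu0
    have e : u ^ (-(n : ℤ)) - 1 = -((u ^ n)⁻¹ * (u ^ n - 1)) := by
      rw [zpow_neg, zpow_natCast, mul_sub, inv_mul_cancel₀ h0]
      ring
    rw [e, norm_neg, norm_mul, norm_inv, norm_pow, newII_norm hu, one_pow, inv_one, one_mul]
    exact newII_npow hu n

/-- An element `y` whose `p`-th power is `z ^ j * u` with `p ∤ j` and a 1-unit `u`, over the field
`N = cl E z` of type II: then `N(y) = cl E z1` with `z1 = y ^ a * z ^ b`, `a * j + b * p = 1`.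

Proof. Let `c = ‖u - 1‖ < 1`; `‖u ^ m - 1‖ ≤ c` for all `m ∈ ℤ`. From `y ^ p * z ^ (-j) = u` and
`z1 = y ^ a * z ^ b` we get `y = z1 ^ j * u ^ b`, `z = z1 ^ p * u ^ (-a)`. `z1 ^ p = z * u ^ a`, so
`‖z1‖ ^ p = ‖z‖`, and `z1` is of type II over `E`. The field `B = adj (cl E z) y` is closed
(`closed_adj_alg`: `y` is algebraic over `cl E z`, which is closed and not trivially normed since
`‖z‖ ≠ 1`; `hyalg`) and contains `A = cl E z1`. `B` consists of the sums `∑ l < p, n l * y ^ l` with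
`n l ∈ cl E z` if `y` is a root of a polynomial of degree `p` over `cl E z`; so the set `W` of all
finite sums `w = ∑ e i l * z ^ i * y ^ l` (over a finite set of pairs `(i, l)`, `i ∈ ℤ`,
`0 ≤ l < p`, `e i l ∈ E`) is dense in `B` (`denseII`). Nonzero terms of such a sum have different
norms: if `‖e * z ^ i * y ^ l‖ = ‖e' * z ^ i' * y ^ l'‖` then taking `p`-th powers
(`‖y‖ ^ p = ‖z‖ ^ j`) `‖z‖ ^ (p * (i - i') + j * (l - l')) = ‖e' / e‖ ^ p`, so
`p * (i - i') + j * (l - l') = 0`, `p ∣ l - l'`, `l = l'`, `i = i'`. So `‖w‖` is the largest norm of a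
term. Put `w'' = ∑ e i l * z1 ^ (p * i + j * l) ∈ A`; as
`z ^ i * y ^ l = z1 ^ (p * i + j * l) * u ^ (b * l - a * i)`, `‖w - w''‖ ≤ c * ‖w‖`. `dense_c`. -/
theorem newII {p : ℕ} [Fact p.Prime] [CharP Ω p] [IsAlgClosed Ω] [CompleteSpace Ω]
    {E : Subfield Ω} {z y u : Ω} (hII : TyII E z) (hyalg : ∃ q : Polynomial Ω, Coef (cl E z) q ∧
      q.Monic ∧ q.natDegree = p ∧ q.eval y = 0) {j : ℤ} (hj : ¬ (p : ℤ) ∣ j)
    (hu : ‖u - 1‖ < 1) (huN : u ∈ adj (cl E z) y) (hy : y ^ p = z ^ j * u) :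
    ∃ z1 ∈ adj (cl E z) y, TyII E z1 ∧ cl E z1 = adj (cl E z) y := by
  classical
  obtain ⟨q, hqc, hqm, hqd, hqy⟩ := hyalg
  have hp : p.Prime := Fact.out
  have hz0 : z ≠ 0 := hII.1
  have hu1 : ‖u‖ = 1 := newII_norm hu
  have hu0 : u ≠ 0 := by
    intro h
    rw [h, norm_zero] at hu1
    exact zero_ne_one hu1
  have hy0 : y ≠ 0 := by
    intro h
    rw [h, zero_pow hp.ne_zero] at hy
    exact mul_ne_zero (zpow_ne_zero j hz0) hu0 hy.symm
  have hcop : IsCoprime (p : ℤ) j := (Nat.prime_iff_prime_int.mp hp).coprime_iff_not_dvd.mpr hj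
  obtain ⟨b, a, hab'⟩ := hcop
  have hab : a * j + b * p = 1 := by rw [add_comm]; exact hab'
  have hyp : y ^ (p : ℤ) = z ^ j * u := by
    rw [zpow_natCast]
    exact hy
  obtain ⟨z1, hz1⟩ : ∃ z1 : Ω, z1 = y ^ a * z ^ b := ⟨_, rfl⟩
  have hz10 : z1 ≠ 0 := by
    rw [hz1]
    exact mul_ne_zero (zpow_ne_zero a hy0) (zpow_ne_zero b hz0)
  have hz1p : z1 ^ (p : ℤ) = z * u ^ a := by
    have e1 : z1 ^ (p : ℤ) = (y ^ (p : ℤ)) ^ a * z ^ (b * (p : ℤ)) := by
      rw [hz1, mul_zpow, ← zpow_mul, ← zpow_mul, ← zpow_mul, mul_comm a (p : ℤ)]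
    have e2 : (y ^ (p : ℤ)) ^ a = z ^ (a * j) * u ^ a := by
      rw [hyp, mul_zpow, ← zpow_mul, mul_comm j a]
    have e3 : z ^ (a * j) * z ^ (b * (p : ℤ)) = z := by
      rw [← zpow_add₀ hz0, hab, zpow_one]
    rw [e1, e2]
    calc z ^ (a * j) * u ^ a * z ^ (b * (p : ℤ)) = (z ^ (a * j) * z ^ (b * (p : ℤ))) * u ^ a := by
          ring
      _ = z * u ^ a := by rw [e3]
  have hyz : y = z1 ^ j * u ^ b := by
    have e1 : y = y ^ (a * j) * (y ^ (p : ℤ)) ^ b := by
      rw [← zpow_mul, ← zpow_add₀ hy0, mul_comm (p : ℤ) b, hab, zpow_one]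
    have e2 : (y ^ (p : ℤ)) ^ b = z ^ (b * j) * u ^ b := by
      rw [hyp, mul_zpow, ← zpow_mul, mul_comm j b]
    have e3 : z1 ^ j = y ^ (a * j) * z ^ (b * j) := by
      rw [hz1, mul_zpow, ← zpow_mul, ← zpow_mul]
    rw [e3]
    calc y = y ^ (a * j) * (y ^ (p : ℤ)) ^ b := e1
      _ = y ^ (a * j) * (z ^ (b * j) * u ^ b) := by rw [e2]
      _ = _ := by ring
  have hzz : z = z1 ^ (p : ℤ) * u ^ (-a) := by
    rw [hz1p, mul_assoc, ← zpow_add₀ hu0, add_neg_cancel, zpow_zero, mul_one]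
  have hterm : ∀ (n : ℤ) (l : ℕ), z ^ n * y ^ l =
      z1 ^ ((p : ℤ) * n + j * l) * u ^ (-(a * n) + b * l) := by
    intro n l
    have h1 : z ^ n = z1 ^ ((p : ℤ) * n) * u ^ (-(a * n)) := by
      conv_lhs => rw [hzz]
      rw [mul_zpow, ← zpow_mul, ← zpow_mul, neg_mul]
    have h2 : y ^ l = z1 ^ (j * l) * u ^ (b * l) := by
      conv_lhs => rw [hyz]
      rw [mul_pow, ← zpow_natCast, ← zpow_natCast, ← zpow_mul, ← zpow_mul]
    rw [h1, h2, zpow_add₀ hz10, zpow_add₀ hu0]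
    ring
  have huz : ∀ m : ℤ, ‖u ^ m‖ = 1 := by
    intro m
    rw [norm_zpow, hu1, one_zpow]
  have hnt : ∀ (n : ℤ) (l : ℕ), ‖z ^ n * y ^ l‖ = ‖z1‖ ^ ((p : ℤ) * n + j * l) := by
    intro n l
    rw [hterm, norm_mul, huz, mul_one, norm_zpow]
  have hz1n : ‖z‖ = ‖z1‖ ^ (p : ℤ) := by
    rw [← norm_zpow, hz1p, norm_mul, huz, mul_one]
  have hII1 : TyII E z1 := by
    refine ⟨hz10, fun n hn e he h => ?_⟩
    refine hII.2 n hn (e ^ p) (pow_mem he p) ?_
    rw [hz1n, ← zpow_mul, mul_comm, zpow_mul, h, zpow_natCast, norm_pow]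
  have hEN : E ≤ cl E z := le_cl E z
  have hNB : cl E z ≤ adj (cl E z) y := le_adj _ _
  have hyB : y ∈ adj (cl E z) y := mem_adj _ _
  have hzB : z ∈ adj (cl E z) y := hNB (mem_cl E z)
  have hz1B : z1 ∈ adj (cl E z) y := by
    rw [hz1]
    exact mul_mem (zpow_mem hyB a) (zpow_mem hzB b)
  have hznorm : ‖z‖ ≠ 1 := by
    have h := hII.2 1 one_ne_zero 1 (one_mem E)
    rw [zpow_one, norm_one] at h
    exact h
  have hntN : ∃ a ∈ cl E z, 1 < ‖a‖ := by
    rcases lt_or_gt_of_ne hznorm with h | h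
    · refine ⟨z⁻¹, inv_mem (mem_cl E z), ?_⟩
      rw [norm_inv]
      exact (one_lt_inv₀ (norm_pos_iff.mpr hz0)).mpr h
    · exact ⟨z, mem_cl E z, h⟩
  have hBcl : IsClosed (adj (cl E z) y : Set Ω) :=
    closed_adj_alg (isClosed_cl E z) hntN (newII_alg _ hqc hqm hqy)
  have hAB : cl E z1 ≤ adj (cl E z) y := cl_le hBcl (hEN.trans hNB) hz1B
  refine ⟨z1, hz1B, hII1, ?_⟩
  let W : Set Ω := {w | ∃ (J : ℕ → Finset ℤ) (e : ℕ → ℤ → Ω), (∀ l n, e l n ∈ E) ∧
    w = ∑ l ∈ Finset.range p, ∑ n ∈ J l, e l n * (z ^ n * y ^ l)}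
  refine dense_c (isClosed_cl E z1) hAB (W := W) ?_ (norm_nonneg (u - 1)) hu ?_
  · -- density
    intro x hx
    rw [Metric.mem_closure_iff]
    intro ε hε
    obtain ⟨c, hc, hxc⟩ := newII_sum _ hqc hqm hp.pos hqd hqy (SetLike.mem_coe.mp hx)
    have hex : ∀ l : ℕ, ∃ (J : Finset ℤ) (e : ℤ → Ω), (∀ n, e n ∈ E) ∧
        ‖c l - ∑ n ∈ J, e n * z ^ n‖ < ε / 2 / (‖y‖ ^ l + 1) := fun l =>
      denseII hII (hc l) (by positivity)
    choose J e he hJe using hex
    refine ⟨∑ l ∈ Finset.range p, ∑ n ∈ J l, e l n * (z ^ n * y ^ l), ⟨J, e, he, rfl⟩, ?_⟩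
    rw [dist_eq_norm, hxc, ← Finset.sum_sub_distrib]
    refine lt_of_le_of_lt (IsUltrametricDist.norm_sum_le_of_forall_le_of_nonneg
      (C := ε / 2) (by positivity) ?_) (by linarith)
    intro l _
    have e1 : c l * y ^ l - ∑ n ∈ J l, e l n * (z ^ n * y ^ l) =
        (c l - ∑ n ∈ J l, e l n * z ^ n) * y ^ l := by
      rw [sub_mul, Finset.sum_mul]
      congr 1
      exact Finset.sum_congr rfl fun n _ => by ring
    rw [e1, norm_mul, norm_pow]
    have hyl : (0 : ℝ) ≤ ‖y‖ ^ l := by positivity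
    calc ‖c l - ∑ n ∈ J l, e l n * z ^ n‖ * ‖y‖ ^ l
        ≤ ε / 2 / (‖y‖ ^ l + 1) * (‖y‖ ^ l + 1) :=
          mul_le_mul (hJe l).le (by linarith) hyl (by positivity)
      _ = ε / 2 := by
          field_simp
  · -- approximation
    rintro w ⟨J, e, he, rfl⟩
    let s : Finset (Σ _ : ℕ, ℤ) := (Finset.range p).sigma J
    let f : (Σ _ : ℕ, ℤ) → Ω := fun i => e i.1 i.2 * (z ^ i.2 * y ^ i.1)
    let g : (Σ _ : ℕ, ℤ) → Ω := fun i => e i.1 i.2 * z1 ^ ((p : ℤ) * i.2 + j * i.1)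
    have hws : ∑ l ∈ Finset.range p, ∑ n ∈ J l, e l n * (z ^ n * y ^ l) = ∑ i ∈ s, f i := by
      rw [Finset.sum_sigma]
    rw [hws]
    have hg : ∀ i, g i ∈ cl E z1 := fun i =>
      mul_mem (le_cl E z1 (he _ _)) (zpow_mem (mem_cl E z1) _)
    refine ⟨∑ i ∈ s, g i, sum_mem fun i _ => hg i, ?_⟩
    rw [← Finset.sum_sub_distrib]
    have hfg : ∀ i, ‖f i - g i‖ ≤ ‖u - 1‖ * ‖f i‖ := by
      intro i
      have e1 : f i - g i = (u ^ (-(a * i.2) + b * i.1) - 1) * g i := by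
        change e i.1 i.2 * (z ^ i.2 * y ^ i.1) - e i.1 i.2 * z1 ^ ((p : ℤ) * i.2 + j * i.1) =
          (u ^ (-(a * i.2) + b * i.1) - 1) * (e i.1 i.2 * z1 ^ ((p : ℤ) * i.2 + j * i.1))
        rw [hterm]
        ring
      have e2 : ‖g i‖ = ‖f i‖ := by
        change ‖e i.1 i.2 * z1 ^ ((p : ℤ) * i.2 + j * i.1)‖ =
          ‖e i.1 i.2 * (z ^ i.2 * y ^ i.1)‖
        rw [norm_mul, norm_mul, hnt, norm_zpow]
      rw [e1, norm_mul, e2]
      exact mul_le_mul_of_nonneg_right (newII_zpow hu _) (norm_nonneg _)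
    by_cases hall : ∀ i ∈ s, f i = 0
    · rw [Finset.sum_eq_zero hall, norm_zero, mul_zero]
      rw [Finset.sum_eq_zero fun i hi => ?_, norm_zero]
      have := hfg i
      rw [hall i hi, norm_zero, mul_zero] at this
      have h2 := norm_le_zero_iff.mp this
      rw [hall i hi]
      exact h2
    · push Not at hall
      have hdis : ∀ i ∈ s, ∀ k ∈ s, i ≠ k → f i ≠ 0 → ‖f i‖ ≠ ‖f k‖ := by
        rintro ⟨l, n⟩ hi ⟨l', n'⟩ hk hik hfi hn
        have hl : l < p := Finset.mem_range.mp (Finset.mem_sigma.mp hi).1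
        have hl' : l' < p := Finset.mem_range.mp (Finset.mem_sigma.mp hk).1
        have hfk : f ⟨l', n'⟩ ≠ 0 := by
          intro h0
          rw [h0, norm_zero] at hn
          exact hfi (norm_eq_zero.mp hn)
        have he1 : e l n ≠ 0 := fun h0 => hfi (by
          change e l n * (z ^ n * y ^ l) = 0
          rw [h0, zero_mul])
        have he2 : e l' n' ≠ 0 := fun h0 => hfk (by
          change e l' n' * (z ^ n' * y ^ l') = 0
          rw [h0, zero_mul])
        have hn' : ‖e l n‖ * ‖z1‖ ^ ((p : ℤ) * n + j * l) =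
            ‖e l' n'‖ * ‖z1‖ ^ ((p : ℤ) * n' + j * l') := by
          have h := hn
          change ‖e l n * (z ^ n * y ^ l)‖ = ‖e l' n' * (z ^ n' * y ^ l')‖ at h
          rw [norm_mul (e l n), norm_mul (e l' n'), hnt, hnt] at h
          exact h
        have ht : ‖z1‖ ≠ 0 := norm_ne_zero_iff.mpr hz10
        have hq : ‖z1‖ ^ (((p : ℤ) * n + j * l) - ((p : ℤ) * n' + j * l')) =
            ‖e l' n' / e l n‖ := by
          rw [zpow_sub₀ ht, norm_div, div_eq_div_iff (zpow_ne_zero _ ht)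
            (norm_ne_zero_iff.mpr he1), mul_comm]
          exact hn'
        have hM : ((p : ℤ) * n + j * l) - ((p : ℤ) * n' + j * l') = 0 := by
          by_contra hne
          exact hII1.2 _ hne _ (div_mem (he l' n') (he l n)) hq
        have hdvd : (p : ℤ) ∣ j * ((l' : ℤ) - l) := ⟨n - n', by linear_combination -hM⟩
        have hdvd' : (p : ℤ) ∣ (l' : ℤ) - l :=
          ((Nat.prime_iff_prime_int.mp hp).dvd_or_dvd hdvd).resolve_left hj
        have hll : (l' : ℤ) - l = 0 := by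
          refine Int.eq_zero_of_abs_lt_dvd hdvd' ?_
          rw [abs_lt]
          constructor <;> omega
        have hll' : l = l' := by omega
        subst hll'
        have hnn : n = n' := by
          have h0 : (p : ℤ) * (n - n') = 0 := by linear_combination hM
          rcases mul_eq_zero.mp h0 with h | h
          · exact absurd (by exact_mod_cast h : p = 0) hp.ne_zero
          · omega
        subst hnn
        exact hik rfl
      obtain ⟨i0, hi0, -, hlt, -, hsum⟩ := unique_dom s f hdis hall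
      rw [hsum]
      refine IsUltrametricDist.norm_sum_le_of_forall_le_of_nonneg (by positivity) ?_
      intro i hi
      refine (hfg i).trans (mul_le_mul_of_nonneg_left ?_ (norm_nonneg _))
      by_cases h : i = i0
      · rw [h]
      · exact (hlt i hi h).le

end Pool.Agent.R4U
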