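import Pool.Agent.Lib.MP_4ed7e0_lc_U.BanSph
import Pool.Agent.Lib.MP_4ed7e0_lc_U.BanAlg
import Mathlib.Analysis.Normed.Unbundled.SpectralNorm

/-!
# MP_4ed7e0_lc, project U: the universal normed field
-/

set_option autoImplicit false

namespace Pool.Agent.R4U

universe u

open Filter Topology

/-- The algebraic closure of a complete field with the spectral norm. -/
private theorem omega_closure (B : Type u) [NontriviallyNormedField B] [IsUltrametricDist B]
    [CompleteSpace B] :
    ∃ (C : Type u) (_ : NormedField C) (_ : IsUltrametricDist C) (_ : IsAlgClosed C)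
      (i : B →+* C), ∀ x, ‖i x‖ = ‖x‖ := by
  let nC : NormedField (AlgebraicClosure B) := spectralNorm.normedField B (AlgebraicClosure B)
  refine ⟨AlgebraicClosure B, nC, ?_, ?_, algebraMap B (AlgebraicClosure B), ?_⟩
  · exact IsUltrametricDist.isUltrametricDist_of_isNonarchimedean_norm
      (isNonarchimedean_spectralNorm (K := B) (L := AlgebraicClosure B))
  · exact AlgebraicClosure.isAlgClosed B
  · intro x
    exact spectralNorm_extends (K := B) (L := AlgebraicClosure B) x

/-- Every nontrivially normed ultrametric field embeds isometrically in a spherically complete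
algebraically closed one.

Proof. Let `B` be the Banach ultrapower of `F` (`ban`), complete by `IsBan.sph` and
`complete_of_sph`, nontrivially normed because it contains `F`. Let `C = AlgebraicClosure B` with
the spectral norm (`spectralNorm.normedField B C`, ultrametric by
`isNonarchimedean_spectralNorm`, extends the norm of `B` by `spectralNorm_extends`). Let `Ω` be the
Banach ultrapower of `C`. -/
theorem omega (F : Type u) [NontriviallyNormedField F] [IsUltrametricDist F] :
    ∃ (Ω : Type u) (_ : NormedField Ω) (_ : IsUltrametricDist Ω) (_ : CompleteSpace Ω)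
      (_ : IsAlgClosed Ω) (i : F →+* Ω), (∀ x, ‖i x‖ = ‖x‖) ∧ Sph (Set.univ : Set Ω) := by
  obtain ⟨B, nB, uB, π, hB⟩ := ban F
  obtain ⟨i, hi⟩ := hB.emb
  have cB : CompleteSpace B := complete_of_sph hB.sph
  let nnB : NontriviallyNormedField B :=
    { nB with
      non_trivial := by
        obtain ⟨x, hx⟩ := NontriviallyNormedField.non_trivial (α := F)
        exact ⟨i x, by rw [hi]; exact hx⟩ }
  obtain ⟨C, nC, uC, aC, j, hj⟩ := omega_closure B
  obtain ⟨Ω, nΩ, uΩ, ρ, hΩ⟩ := ban C
  obtain ⟨k, hk⟩ := hΩ.emb
  refine ⟨Ω, nΩ, uΩ, complete_of_sph hΩ.sph, hΩ.algClosed, (k.comp j).comp i, fun x => ?_, hΩ.sph⟩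
  rw [RingHom.comp_apply, RingHom.comp_apply, hk, hj, hi]

end Pool.Agent.R4U
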