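import Pool.Agent.Lib.MP_4ed7e0_lc_U.Kuhl
import Pool.Agent.Lib.MP_4ed7e0_lc_U.LAlg
import Pool.Agent.Lib.MP_4ed7e0_lc_U.KPc

/-!
# MP_4ed7e0_lc, project U: solutions in finite Galois extensions of `p`-power degree
-/

set_option autoImplicit false

namespace Pool.Agent.R4U

universe u

open Pool.Agent.R4A Pool.Agent.R4F

private theorem PExt_hull_map (p : ℕ) [Fact p.Prime] {K L : Type u} [Field K] [CharP K p]
    [Field L] [Algebra K L] : ∃ g : Hull K →+* Hull L,
      ∀ a : K, g (algebraMap K (Hull K) a) = algebraMap L (Hull L) (algebraMap K L a) := by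
  have : CharP L p := charP_of_injective_algebraMap (algebraMap K L).injective p
  have : ExpChar K p := ExpChar.prime Fact.out
  have : ExpChar L p := ExpChar.prime Fact.out
  let f : AlgebraicClosure K →ₐ[K] AlgebraicClosure L := IsAlgClosed.lift
  have hf : ∀ x : Hull K, f x.1 ∈ perfectClosure L (AlgebraicClosure L) := by
    intro x
    obtain ⟨n, z, hz⟩ := (mem_perfectClosure_iff_pow_mem p).1 x.2
    refine (mem_perfectClosure_iff_pow_mem p).2 ⟨n, algebraMap K L z, ?_⟩
    rw [← map_pow, ← hz, f.commutes, ← IsScalarTower.algebraMap_apply]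
  let g : Hull K →+* Hull L :=
    { toFun := fun x => ⟨f x.1, hf x⟩
      map_one' := Subtype.ext (map_one f)
      map_mul' := fun a b => Subtype.ext (map_mul f a.1 b.1)
      map_zero' := Subtype.ext (map_zero f)
      map_add' := fun a b => Subtype.ext (map_add f a.1 b.1) }
  refine ⟨g, fun a => Subtype.ext ?_⟩
  change f (algebraMap K (AlgebraicClosure K) a) =
    algebraMap L (AlgebraicClosure L) (algebraMap K L a)
  rw [f.commutes, ← IsScalarTower.algebraMap_apply]

open scoped TensorProduct in
private theorem PExt_aux (p : ℕ) [Fact p.Prime] {K F : Type u} [Field K] [CharP K p] [Field F]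
    [Algebra K F] [CharP F p] (hlarge : Large F) (hfew : FewAS p F) {C : Type u} [CommRing C]
    [Algebra K C] [Algebra.FiniteType K C] [Algebra.FormallySmooth K C] (f : C →ₐ[K] Hull K) :
    Nonempty (C →ₐ[K] F) := by
  obtain ⟨g, hg⟩ := PExt_hull_map p (K := K) (L := F)
  let gA : Hull K →ₐ[K] Hull F :=
    { g with
      commutes' := fun a => by
        change g (algebraMap K (Hull K) a) = _
        rw [hg]
        exact (IsScalarTower.algebraMap_apply K F (Hull F) a).symm }
  let f' : F ⊗[K] C →ₐ[F] Hull F :=
    Algebra.TensorProduct.lift (Algebra.ofId F (Hull F)) (gA.comp f)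
      (fun _ _ => Commute.all _ _)
  obtain ⟨h⟩ := tower p hlarge hfew (C := F ⊗[K] C) f'
  exact ⟨(h.restrictScalars K).comp Algebra.TensorProduct.includeRight⟩

/-- Points of smooth algebras in the perfect hull give points in the maximal `p`-extension.

Proof. Let `F = KPc p K`, of characteristic `p`, large by `large_alg`, and `FewAS p F` with
`T = {0}` by `kpc_as`. The algebra `F ⊗[K] C` is of finite type and formally smooth over `F` and
has a point in `Hull F ⊇ Hull K`; use `tower` for `F`. -/
theorem pext_alg (p : ℕ) [Fact p.Prime] {K : Type u} [Field K] [CharP K p] (hK : Large K)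
    {C : Type u} [CommRing C] [Algebra K C] [Algebra.FiniteType K C] [Algebra.FormallySmooth K C]
    (f : C →ₐ[K] Hull K) : Nonempty (C →ₐ[K] KPc p K) := by
  have halg : Algebra.IsAlgebraic K (KPc p K) :=
    Algebra.IsAlgebraic.tower_bot_of_injective (A := AlgebraicClosure K)
      (algebraMap (KPc p K) (AlgebraicClosure K)).injective
  have hchar : CharP (KPc p K) p :=
    charP_of_injective_algebraMap (algebraMap K (KPc p K)).injective p
  have hlarge : Large (KPc p K) := large_alg p hK
  have hfew : FewAS p (KPc p K) := by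
    refine ⟨{0}, fun x => ⟨0, Finset.mem_singleton_self _, ?_⟩⟩
    obtain ⟨y, hy⟩ := kpc_as p x
    exact ⟨y, by rw [hy, zero_add]⟩
  exact PExt_aux p hlarge hfew f

/-- Systems solvable in a separable extension `L` all of whose systems are solvable in the perfect
hull of `K` are solvable in a finite Galois extension of `p`-power degree.

Proof. `gen` (MP_4ed7e0_lc_F/Gen.lean) for `S`: a smooth algebra `C` with a point in `L`; `pts`
with `hT` gives a point in `Hull K`, `pext_alg` a point in `KPc p K`; so `S` has a solution `x` in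
`KPc p K`. By `kpc_fin` its coordinates lie in some `N` with `PGal p K N`, and `x` is a solution of
`S` in `N` (injectivity of `N → AlgebraicClosure K`). -/
theorem pext_sep (p : ℕ) [Fact p.Prime] {K L : Type u} [Field K] [CharP K p] (hK : Large K)
    [Field L] [Algebra K L] (hs : Sepa p K L) (hT : Tr K L (Hull K)) {n : ℕ}
    (S : Finset (MvPolynomial (Fin n) K)) (hS : Solv K L S) :
    ∃ N : IntermediateField K (AlgebraicClosure K), PGal p K N ∧ Solv K N S := by
  classical
  obtain ⟨C, _, _, hft, hsm, ⟨f⟩, hC⟩ := gen p hs S hS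
  obtain ⟨g⟩ := pts (k := K) (K := K) hT f
  obtain ⟨y, hy⟩ := hC (KPc p K) (pext_alg p hK g)
  obtain ⟨N, hN, hmem⟩ := kpc_fin p (fun i => (y i : AlgebraicClosure K)) (fun i => (y i).2)
  refine ⟨N, hN, fun i => ⟨y i, hmem i⟩, fun q hq => ?_⟩
  have h4 := hy q hq
  apply (algebraMap N (AlgebraicClosure K)).injective
  have h5 := MvPolynomial.aeval_algebraMap_apply (AlgebraicClosure K)
    (fun i => (⟨y i, hmem i⟩ : N)) q
  have h6 := MvPolynomial.aeval_algebraMap_apply (AlgebraicClosure K) y q
  rw [h4, map_zero] at h6
  rw [map_zero, ← h5]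
  exact h6

/-- The second main theorem.

Proof. `pext_sep` with `ratSep` and `perfPl` (as in `main2`, MP_4ed7e0_lc_F/Main.lean; the
hypothesis on the perfect hull is `kuhl` with `hull_perf`, `hull_large`). -/
theorem pext (p : ℕ) [Fact p.Prime] {K : Type u} [Field K] [CharP K p] (hK : Large K)
    (L : Type u) [Field L] [Algebra K L] (O : ValuationSubring L) (hO : IsRat K O) {n : ℕ}
    (S : Finset (MvPolynomial (Fin n) K)) (hS : Solv K L S) :
    ∃ N : IntermediateField K (AlgebraicClosure K), PGal p K N ∧ Solv K N S := by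
  have : CharP (Hull K) p :=
    charP_of_injective_algebraMap (algebraMap K (Hull K)).injective p
  exact pext_sep p hK (ratSep p hO) (perfPl p O hO
    (fun E _ _ O' hO' => kuhl (hull_perf p K) (hull_large p K hK) O' hO')) S hS

end Pool.Agent.R4U
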