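import Pool.Agent.Lib.MP_4ed7e0_lc_U.Spec
import Pool.Agent.Lib.MP_4ed7e0_lc_U.Stab
import Pool.Agent.Lib.MP_4ed7e0_lc_U.Lau

/-!
# MP_4ed7e0_lc, project U: `E` is existentially closed in `cl E z`
-/

set_option autoImplicit false

namespace Pool.Agent.R4U

universe u v

open Filter Topology

variable {Ω : Type u} [NormedField Ω] [IsUltrametricDist Ω]

/-- Proof. `spec` with `R = Polynomial E`, `π = aeval z`; dense by `denseI`; for a finite set `T`
choose `e ∈ E` near `z` with `‖P(e)‖ = ‖P(z)‖` for all `P ∈ T` (`stab_norm`) and `φ = aeval e`. -/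
theorem specI {p : ℕ} [Fact p.Prime] [CharP Ω p] [IsAlgClosed Ω] {k E H : Subfield Ω}
    (ht : Tame p k E H) {z : Ω} (hz : z ∈ H) (hI : TyI E z) {K : Type u} [Field K] [Algebra K Ω]
    (hK : ∀ c : K, algebraMap K Ω c ∈ E) : TrIn K (cl E z) E := by
  have hev : ∀ (q : Polynomial E) (e : Ω),
      Polynomial.aeval e q = (q.map (algebraMap E Ω)).eval e := by
    intro q e
    rw [Polynomial.eval_map, Polynomial.aeval_def]
  have hcoef : ∀ q : Polynomial E, Coef E (q.map (algebraMap E Ω)) := by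
    intro q i
    rw [Polynomial.coeff_map]
    exact (q.coeff i).2
  refine spec (p := p) (R := Polynomial E) ht.closed ht.perf (le_cl E z) (Polynomial.aeval z)
    ?_ ?_ hK
  · intro x hx ε hε
    obtain ⟨Q, hQ, h⟩ := denseI ht hz hI hx hε
    have hl : Q ∈ Polynomial.lifts (algebraMap E Ω) := by
      rw [Polynomial.lifts_iff_coeff_lifts]
      exact fun n => ⟨⟨Q.coeff n, hQ n⟩, rfl⟩
    obtain ⟨q, rfl⟩ := (Polynomial.mem_lifts Q).1 hl
    exact ⟨q, by rw [hev]; exact h⟩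
  · intro T
    have h1 : ∀ᶠ e in nr E z, ∀ t ∈ T,
        ‖(t.map (algebraMap E Ω)).eval e‖ = ‖(t.map (algebraMap E Ω)).eval z‖ :=
      (Filter.eventually_all_finset T).2 fun t _ => (stab_norm ht hz hI (hcoef t)).1
    obtain ⟨e, he, heE⟩ := (h1.and nr_mem).exists
    refine ⟨Polynomial.aeval e, fun r => ?_, fun t htT => ?_⟩
    · rw [hev, Polynomial.eval_eq_sum]
      exact E.sum_mem fun i _ => E.mul_mem (hcoef r i) (E.pow_mem heE i)
    · rw [hev, hev, he t htT]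
      have := norm_nonneg ((t.map (algebraMap E Ω)).eval z)
      constructor <;> linarith

/-- The norms of a divisible nontrivially normed field are dense.

Proof. Let `a ∈ E`, `‖a‖ > 1`, and `‖b‖ ^ n = ‖a‖`, `b ∈ E`, `n` large: `1 < ‖b‖ < 1 + δ`. The powers
`‖b‖ ^ i`, `i ∈ ℤ`, are dense up to a factor `1 + δ`. -/
theorem dense_val {E : Subfield Ω} (hd : Dvs E) (hnt : ∃ a ∈ E, 1 < ‖a‖) {r r' : ℝ} (hr : 0 < r)
    (h : r < r') : ∃ e ∈ E, r < ‖e‖ ∧ ‖e‖ < r' := by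
  obtain ⟨a, ha, ha1⟩ := hnt
  have hq : 1 < r' / r := (one_lt_div hr).2 h
  obtain ⟨n, hn⟩ := pow_unbounded_of_one_lt ‖a‖ hq
  have hn0 : n ≠ 0 := by
    rintro rfl
    rw [pow_zero] at hn
    exact absurd hn (not_lt.2 ha1.le)
  obtain ⟨b, hb, hba⟩ := hd a ha n (Nat.pos_of_ne_zero hn0)
  have hb1 : 1 < ‖b‖ := by
    by_contra hcon
    have h1 : ‖b‖ ^ n ≤ 1 := pow_le_one₀ (norm_nonneg _) (not_lt.1 hcon)
    rw [hba] at h1
    exact absurd ha1 (not_lt.2 h1)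
  have hbq : ‖b‖ < r' / r := by
    refine lt_of_pow_lt_pow_left₀ n (lt_trans one_pos hq).le ?_
    rw [hba]
    exact hn
  obtain ⟨i, hi1, hi2⟩ := exists_mem_Ico_zpow hr hb1
  refine ⟨b ^ (i + 1), E.zpow_mem hb _, ?_, ?_⟩
  · rw [norm_zpow]
    exact hi2
  · have hb0 : ‖b‖ ≠ 0 := (lt_trans one_pos hb1).ne'
    rw [norm_zpow, zpow_add₀ hb0, zpow_one]
    calc ‖b‖ ^ i * ‖b‖ ≤ r * ‖b‖ := mul_le_mul_of_nonneg_right hi1 (norm_nonneg _)
      _ < r * (r' / r) := mul_lt_mul_of_pos_left hbq hr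
      _ = r' := mul_div_cancel₀ r' hr.ne'

/-- The evaluation of Laurent polynomials. -/
private noncomputable def spect_hom (E : Subfield Ω) (z : Ω) (hz : z ≠ 0) :
    AddMonoidAlgebra E ℤ →ₐ[E] Ω :=
  AddMonoidAlgebra.lift E Ω ℤ ((Units.coeHom Ω).comp (zpowersHom Ωˣ (Units.mk0 z hz)))

omit [IsUltrametricDist Ω] in
private theorem spect_hom_apply (E : Subfield Ω) (z : Ω) (hz : z ≠ 0)
    (f : AddMonoidAlgebra E ℤ) :
    spect_hom E z hz f = ∑ n ∈ f.coeff.support, ((f.coeff n : E) : Ω) * z ^ n := by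
  unfold spect_hom
  rw [AddMonoidAlgebra.lift_apply, Finsupp.sum]
  refine Finset.sum_congr rfl fun n _ => ?_
  have h : (((Units.coeHom Ω).comp (zpowersHom Ωˣ (Units.mk0 z hz))) (Multiplicative.ofAdd n))
      = z ^ n := by
    simp [zpowersHom_apply]
  rw [h]
  rfl

omit [IsUltrametricDist Ω] in
private theorem spect_hom_single (E : Subfield Ω) (z : Ω) (hz : z ≠ 0) (n : ℤ) (e : E) :
    spect_hom E z hz (AddMonoidAlgebra.single n e) = (e : Ω) * z ^ n := by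
  unfold spect_hom
  rw [AddMonoidAlgebra.lift_single]
  have h : (((Units.coeHom Ω).comp (zpowersHom Ωˣ (Units.mk0 z hz))) (Multiplicative.ofAdd n))
      = z ^ n := by
    simp [zpowersHom_apply]
  rw [h]
  rfl

private theorem spect_dom {ι : Type*} (s : Finset ι) (f : ι → Ω) {j : ι} (hj : j ∈ s)
    (h0 : 0 < ‖f j‖) (h : ∀ i ∈ s, i ≠ j → ‖f i‖ < ‖f j‖) : ‖∑ i ∈ s, f i‖ = ‖f j‖ := by
  classical
  rw [← Finset.add_sum_erase s f hj]
  have h1 : ‖∑ i ∈ s.erase j, f i‖ < ‖f j‖ := by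
    rcases (s.erase j).eq_empty_or_nonempty with he | hne
    · rw [he, Finset.sum_empty, norm_zero]
      exact h0
    · obtain ⟨i, hi, hle⟩ := IsUltrametricDist.exists_norm_finsetSum_le_of_nonempty hne f
      exact lt_of_le_of_lt hle (h i (Finset.mem_of_mem_erase hi) (Finset.ne_of_mem_erase hi))
  rw [IsUltrametricDist.norm_add_eq_max_of_norm_ne_norm (ne_of_gt h1), max_eq_left h1.le]

private theorem spect_near {E : Subfield Ω} {z : Ω} (hII : TyII E z)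
    (t : AddMonoidAlgebra E ℤ) : ∀ᶠ ρ in 𝓝 ‖z‖, ∀ (e : Ω) (he : e ≠ 0), ‖e‖ = ρ →
      ‖spect_hom E e he t‖ ≤ 2 * ‖spect_hom E z hII.1 t‖ ∧
        ‖spect_hom E z hII.1 t‖ ≤ 2 * ‖spect_hom E e he t‖ := by
  have hzn : 0 < ‖z‖ := norm_pos_iff.2 hII.1
  by_cases ht0 : t = 0
  · subst ht0
    refine Filter.Eventually.of_forall fun ρ e he _ => ?_
    rw [map_zero, map_zero, norm_zero, mul_zero]
    exact ⟨le_rfl, le_rfl⟩
  have hne : ∃ j ∈ t.coeff.support, ((t.coeff j : E) : Ω) ≠ 0 := by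
    have hs : t.coeff.support.Nonempty := by
      rw [Finsupp.support_nonempty_iff]
      intro h
      apply ht0
      exact (by simpa using h)
    obtain ⟨j, hj⟩ := hs
    refine ⟨j, hj, ?_⟩
    intro h
    exact (Finsupp.mem_support_iff.1 hj) (by exact_mod_cast h)
  obtain ⟨j, hj, hj0, hdom, -, hnorm⟩ := orthII hII t.coeff.support
    (a := fun n => ((t.coeff n : E) : Ω)) (fun n => (t.coeff n).2) hne
  have hcont : ∀ i : ℤ, ContinuousAt (fun ρ : ℝ => ‖((t.coeff i : E) : Ω)‖ * ρ ^ i) ‖z‖ :=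
    fun i => continuousAt_const.mul (continuousAt_zpow₀ _ _ (Or.inl hzn.ne'))
  have haj : 0 < ‖((t.coeff j : E) : Ω)‖ * ‖z‖ ^ j :=
    mul_pos (norm_pos_iff.2 hj0) (zpow_pos hzn j)
  have e1 : ∀ᶠ ρ in 𝓝 ‖z‖, ∀ i ∈ t.coeff.support, i ≠ j →
      ‖((t.coeff i : E) : Ω)‖ * ρ ^ i < ‖((t.coeff j : E) : Ω)‖ * ρ ^ j := by
    refine (Filter.eventually_all_finset _).2 fun i hi => ?_
    by_cases hij : i = j
    · exact Filter.Eventually.of_forall fun ρ h => absurd hij h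
    · have h1 := hdom i hi hij
      simp only [norm_mul, norm_zpow] at h1
      filter_upwards [(hcont i).eventually_lt (hcont j) h1] with ρ hρ _
      exact hρ
  have e2 : ∀ᶠ ρ in 𝓝 ‖z‖, ‖((t.coeff j : E) : Ω)‖ * ρ ^ j <
      2 * (‖((t.coeff j : E) : Ω)‖ * ‖z‖ ^ j) :=
    (hcont j).eventually_lt continuousAt_const (by linarith)
  have e3 : ∀ᶠ ρ in 𝓝 ‖z‖, ‖((t.coeff j : E) : Ω)‖ * ‖z‖ ^ j <
      2 * (‖((t.coeff j : E) : Ω)‖ * ρ ^ j) :=
    continuousAt_const.eventually_lt (continuousAt_const.mul (hcont j)) (by linarith)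
  filter_upwards [e1, e2, e3] with ρ h1 h2 h3 e he hρ
  have hz' : ‖spect_hom E z hII.1 t‖ = ‖((t.coeff j : E) : Ω)‖ * ‖z‖ ^ j := by
    rw [spect_hom_apply]
    exact hnorm.trans (by rw [norm_mul, norm_zpow])
  have hen : 0 < ‖e‖ := norm_pos_iff.2 he
  have he' : ‖spect_hom E e he t‖ = ‖((t.coeff j : E) : Ω)‖ * ρ ^ j := by
    rw [spect_hom_apply, spect_dom t.coeff.support
      (fun n => ((t.coeff n : E) : Ω) * e ^ n) hj]
    · simp only [norm_mul, norm_zpow, hρ]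
    · simp only [norm_mul, norm_zpow]
      exact mul_pos (norm_pos_iff.2 hj0) (zpow_pos hen j)
    · intro i hi hij
      simp only [norm_mul, norm_zpow, hρ]
      exact h1 i hi hij
  rw [hz', he']
  exact ⟨h2.le, h3.le⟩

/-- Proof. `spec` with `R = LaurentPolynomial E`, `π` the evaluation at the unit `z`
(`LaurentPolynomial.eval₂` or the lift `AddMonoidAlgebra.lift`); dense by `denseII`. For a finite
set `T` of Laurent polynomials each nonzero `P ∈ T` has a dominating term at `z` (`orthII`); for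
`ρ = ‖e‖` close enough to `‖z‖` the same term dominates at `e`, so `‖P(e)‖ = ‖a j‖ * ‖e‖ ^ j` is
within a factor 2 of `‖P(z)‖ = ‖a j‖ * ‖z‖ ^ j`. Choose such an `e ∈ E` by `dense_val`. -/
theorem specII {p : ℕ} [Fact p.Prime] [CharP Ω p] [IsAlgClosed Ω] {k E H : Subfield Ω}
    (ht : Tame p k E H) (hnt : ∃ a ∈ E, 1 < ‖a‖) {z : Ω} (hII : TyII E z) {K : Type u}
    [Field K] [Algebra K Ω] (hK : ∀ c : K, algebraMap K Ω c ∈ E) : TrIn K (cl E z) E := by
  have hz0 : z ≠ 0 := hII.1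
  have hzn : 0 < ‖z‖ := norm_pos_iff.2 hz0
  refine spec (p := p) (R := AddMonoidAlgebra E ℤ) ht.closed ht.perf (le_cl E z)
    (spect_hom E z hz0) ?_ ?_ hK
  · intro x hx ε hε
    obtain ⟨J, a, ha, h⟩ := denseII hII hx hε
    refine ⟨∑ n ∈ J, AddMonoidAlgebra.single n (⟨a n, ha n⟩ : E), ?_⟩
    rw [map_sum, Finset.sum_congr rfl fun n _ => spect_hom_single E z hz0 n ⟨a n, ha n⟩]
    exact h
  · intro T
    have h1 : ∀ᶠ ρ in 𝓝 ‖z‖, ∀ t ∈ T, ∀ (e : Ω) (he : e ≠ 0), ‖e‖ = ρ →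
        ‖spect_hom E e he t‖ ≤ 2 * ‖spect_hom E z hz0 t‖ ∧
          ‖spect_hom E z hz0 t‖ ≤ 2 * ‖spect_hom E e he t‖ :=
      (Filter.eventually_all_finset T).2 fun t _ => spect_near hII t
    obtain ⟨l, u, hlu, hsub⟩ := mem_nhds_iff_exists_Ioo_subset.1 h1
    have hr0 : 0 < max l (‖z‖ / 2) := lt_of_lt_of_le (half_pos hzn) (le_max_right _ _)
    have hrz : max l (‖z‖ / 2) < u :=
      lt_trans (max_lt hlu.1 (half_lt_self hzn)) hlu.2
    obtain ⟨e, heE, he1, he2⟩ := dense_val ht.dvs hnt hr0 hrz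
    have he0 : e ≠ 0 := norm_pos_iff.1 (hr0.trans he1)
    refine ⟨spect_hom E e he0, fun r => ?_, fun t htT => ?_⟩
    · rw [spect_hom_apply]
      exact E.sum_mem fun i _ => E.mul_mem (r.coeff i).2 (E.zpow_mem heE i)
    · exact hsub ⟨lt_of_le_of_lt (le_max_left _ _) he1, he2⟩ t htT e he0 rfl

end Pool.Agent.R4U
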