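import Pool.Agent.Lib.MP_4ed7e0_lc_U.HR
import Pool.Agent.Lib.MP_4ed7e0_lc_U.SpecT
import Pool.Agent.Lib.MP_4ed7e0_lc_U.Dens
import Pool.Agent.Lib.MP_4ed7e0_lc_U.Base

/-!
# MP_4ed7e0_lc, project U: `K` is existentially closed in `H`
-/

set_option autoImplicit false

namespace Pool.Agent.R4U

universe u

open Pool.Agent.R4F

variable {Ω : Type u} [NormedField Ω] [IsUltrametricDist Ω]

/-- The relatively algebraically closed subfields of `H` over `k` in which `K` is existentially
closed. -/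
structure Ecl (K : Type u) [Field K] [Algebra K Ω] (k H A : Subfield Ω) : Prop where
  kA : k ≤ A
  AH : A ≤ H
  rac : ∀ x ∈ H, IsAlgebraic A x → x ∈ A
  ec : ∀ (n : ℕ) (S : Finset (MvPolynomial (Fin n) K)), SolvIn K A S → Solv K K S

omit [IsUltrametricDist Ω] in
private theorem zornS_mono {A B : Subfield Ω} (h : A ≤ B) {x : Ω} (hx : IsAlgebraic A x) :
    IsAlgebraic B x := by
  obtain ⟨q, hq0, hq⟩ := hx
  refine ⟨q.map (Subfield.inclusion h),
    (Polynomial.map_ne_zero_iff (Subfield.inclusion h).injective).mpr hq0, ?_⟩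
  rw [Polynomial.aeval_def, Polynomial.eval₂_map]
  exact hq

omit [IsUltrametricDist Ω] in
private theorem zornS_abar {F : Subfield Ω} {x : Ω} (hx : IsAlgebraic (abar F) x) :
    IsAlgebraic F x := by
  have h : IsAlgebraic (algebraicClosure F Ω) x := hx
  exact h.restrictScalars F

omit [IsUltrametricDist Ω] in
/-- Transfer of a solution in a subfield which maps to `k((t))` over `k`. -/
private theorem zornS_hkt {k F : Subfield Ω} (hkF : k ≤ F) (φ : F →+* LaurentSeries ↥k)
    (hφ : ∀ c : ↥k, φ ⟨c, hkF c.2⟩ = algebraMap ↥k (LaurentSeries ↥k) c)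
    {K : Type u} [Field K] [Algebra K Ω] (i : K →+* ↥k)
    (hi : ∀ c : K, algebraMap K Ω c = (i c : Ω)) {n : ℕ} {S : Finset (MvPolynomial (Fin n) K)}
    (hS : SolvIn K F S) : ∃ x : Fin n → LaurentSeries ↥k, ∀ q ∈ S,
        MvPolynomial.aeval x (MvPolynomial.map i q) = 0 := by
  obtain ⟨x, hx, hq⟩ := hS
  refine ⟨fun j => φ ⟨x j, hx j⟩, fun q hqS => ?_⟩
  have h1 : (algebraMap ↥k (LaurentSeries ↥k)) = φ.comp (Subfield.inclusion hkF) := by
    ext1 c
    exact (hφ c).symm
  have h2 : MvPolynomial.eval₂ ((Subfield.inclusion hkF).comp i) (fun j => (⟨x j, hx j⟩ : F)) q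
      = 0 := by
    have h3 := hq q hqS
    rw [MvPolynomial.aeval_def] at h3
    have h4 := MvPolynomial.eval₂_comp_left F.subtype ((Subfield.inclusion hkF).comp i)
      (fun j => (⟨x j, hx j⟩ : F)) q
    have h5 : F.subtype.comp ((Subfield.inclusion hkF).comp i) = algebraMap K Ω := by
      ext1 c
      exact (hi c).symm
    have h6 : (F.subtype ∘ fun j => (⟨x j, hx j⟩ : F)) = x := rfl
    rw [h5, h6, h3] at h4
    exact Subtype.ext h4
  rw [MvPolynomial.aeval_def, MvPolynomial.eval₂_map, h1, RingHom.comp_assoc]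
  have h7 := MvPolynomial.eval₂_comp_left φ ((Subfield.inclusion hkF).comp i)
      (fun j => (⟨x j, hx j⟩ : F)) q
  rw [h2, map_zero] at h7
  exact h7.symm

omit [IsUltrametricDist Ω] in
private theorem zornS_fin {c : Set (Subfield Ω)} (hc : IsChain (· ≤ ·) c) (hne : c.Nonempty)
    (T : Finset Ω) (hT : ∀ t ∈ T, t ∈ sSup c) : ∃ A ∈ c, ∀ t ∈ T, t ∈ A := by
  classical
  induction T using Finset.induction_on with
  | empty =>
    obtain ⟨A, hA⟩ := hne
    exact ⟨A, hA, by simp⟩
  | insert a T _ ih =>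
    obtain ⟨A, hA, hAT⟩ := ih fun t ht => hT t (Finset.mem_insert_of_mem ht)
    obtain ⟨B, hB, haB⟩ := (Subfield.mem_sSup_of_directedOn hne hc.directedOn).1
      (hT a (Finset.mem_insert_self a T))
    rcases hc.total hA hB with h | h
    · refine ⟨B, hB, fun t ht => ?_⟩
      rcases Finset.mem_insert.1 ht with rfl | ht
      · exact haB
      · exact h (hAT t ht)
    · refine ⟨A, hA, fun t ht => ?_⟩
      rcases Finset.mem_insert.1 ht with rfl | ht
      · exact h haB
      · exact hAT t ht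

omit [IsUltrametricDist Ω] in
private theorem zornS_alg {c : Set (Subfield Ω)} (hc : IsChain (· ≤ ·) c) (hne : c.Nonempty)
    {x : Ω} (hx : IsAlgebraic ↥(sSup c) x) : ∃ A ∈ c, IsAlgebraic A x := by
  classical
  obtain ⟨P, hP0, hP⟩ := hx
  obtain ⟨A, hA, hT⟩ := zornS_fin hc hne ((Finset.range (P.natDegree + 1)).image
    fun j => ((P.coeff j : ↥(sSup c)) : Ω)) (by
      intro t ht
      obtain ⟨j, _, rfl⟩ := Finset.mem_image.1 ht
      exact (P.coeff j).2)
  have hco : ∀ j, ((P.coeff j : ↥(sSup c)) : Ω) ∈ A := by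
    intro j
    rcases Nat.lt_or_ge P.natDegree j with h | h
    · rw [Polynomial.coeff_eq_zero_of_natDegree_lt h]
      exact A.zero_mem
    · exact hT _ (Finset.mem_image.2 ⟨j, Finset.mem_range.2 (by omega), rfl⟩)
  have hl : P.map (sSup c).subtype ∈ Polynomial.lifts A.subtype := by
    rw [Polynomial.lifts_iff_coeff_lifts]
    intro j
    rw [Polynomial.coeff_map]
    exact ⟨⟨_, hco j⟩, rfl⟩
  obtain ⟨Q, hQ⟩ := (Polynomial.mem_lifts _).1 hl
  refine ⟨A, hA, Q, ?_, ?_⟩
  · rintro rfl
    rw [Polynomial.map_zero] at hQ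
    exact hP0 ((Polynomial.map_eq_zero_iff (sSup c).subtype.injective).1 hQ.symm)
  · rw [Polynomial.aeval_def] at hP ⊢
    have h1 : Polynomial.eval₂ (algebraMap A Ω) x Q = Polynomial.eval x (Q.map A.subtype) := by
      rw [Polynomial.eval_map]
      rfl
    have h2 : Polynomial.eval₂ (algebraMap ↥(sSup c) Ω) x P =
        Polynomial.eval x (P.map (sSup c).subtype) := by
      rw [Polynomial.eval_map]
      rfl
    rw [h1, hQ, ← h2, hP]

/-- The step.

Proof. `Tame p k A H` holds. Let `B` be the field of all `x ∈ H` algebraic over `adj A z`; it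
contains `A` and `z`, and it is relatively algebraically closed in `H`. Let `S` be solvable in
`B`, `x i ∈ H` algebraic over `adj A z ≤ cl A z`. By `dich` there is `z'`, equal to `z` or `z - e`
(`e ∈ A`), in `H`, with `Ty A z'` and `cl A z' = cl A z` (`cl_sub`). `hr_fin` gives `w ∈ H`, `Ty A
w`, with all `x i ∈ cl A w`, so `S` is solvable in `cl A w`. If `A` contains an element of norm `>
1` then by `specI` or `specII` `S` is solvable in `A`, and `Ecl.ec`. Otherwise `A` is trivially
normed (inverses), so `A = k`: for `x ∈ A`, `‖x‖ ≤ 1`, take `c ∈ k` with `‖x - c‖ < 1`, so `x =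
c`. Then `w` is of type II over `k` (`TyI.nontriv`), so `‖w‖ ≠ 1`, and replacing `w` by `w⁻¹` (`cl
k w⁻¹ = cl k w`) we may assume `‖w‖ < 1`. The homomorphism of `base` maps the solution in `cl k w`
to a solution of the system over `k` obtained by `i` in `LaurentSeries k`; `hkt`. -/
theorem ecl_step {p : ℕ} [Fact p.Prime] [CharP Ω p] [IsAlgClosed Ω] [CompleteSpace Ω]
    {k H A : Subfield Ω} (hh : HH p k H) {K : Type u} [Field K] [Algebra K Ω] (i : K →+* ↥k)
    (hi : ∀ c : K, algebraMap K Ω c = (i c : Ω))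
    (hkt : ∀ (n : ℕ) (S : Finset (MvPolynomial (Fin n) K)),
      (∃ x : Fin n → LaurentSeries ↥k, ∀ q ∈ S,
        MvPolynomial.aeval x (MvPolynomial.map i q) = 0) → Solv K K S)
    (hA : Ecl K k H A) (hcl : IsClosed (A : Set Ω)) {z : Ω} (hz : z ∈ H) (hzA : z ∉ A) :
    ∃ B, Ecl K k H B ∧ A ≤ B ∧ z ∈ B := by
  have ht : Tame p k A H := ⟨hh, hA.kA, hA.AH, hcl, hA.rac⟩
  have hadjH : adj A z ≤ H := adj_le hA.AH hz
  have hsub : adj A z ≤ abar (adj A z) := fun x hx =>
    mem_abar.2 (isAlgebraic_algebraMap (⟨x, hx⟩ : adj A z))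
  refine ⟨abar (adj A z) ⊓ H, ⟨?_, inf_le_right, ?_, ?_⟩, ?_, ?_⟩
  · exact le_inf ((hA.kA.trans (le_adj A z)).trans hsub) hh.kH
  · intro x hx halg
    exact ⟨mem_abar.2 (zornS_abar (zornS_mono inf_le_left halg)), hx⟩
  · intro n S hS
    obtain ⟨x, hx, hq⟩ := hS
    have hz' : ∃ z' ∈ H, Ty A z' ∧ cl A z' = cl A z := by
      rcases dich ht hz hzA with h | ⟨e, he, h⟩
      · exact ⟨z, hz, Or.inl h, rfl⟩
      · exact ⟨z - e, sub_mem hz (hA.AH he), Or.inr h, cl_sub he⟩
    obtain ⟨z', hzH, hT, hclz⟩ := hz'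
    have halg : ∀ j, IsAlgebraic (cl A z') (x j) := by
      intro j
      rw [hclz]
      exact zornS_mono (Subfield.le_topologicalClosure _) (mem_abar.1 (hx j).1)
    obtain ⟨w, hw, hTw, -, hxw⟩ := hr_fin ht hzH hT x (fun j => (hx j).2) halg
    have hSw : SolvIn K (cl A w) S := ⟨x, hxw, hq⟩
    have hK : ∀ c : K, algebraMap K Ω c ∈ A := by
      intro c
      rw [hi c]
      exact hA.kA (i c).2
    by_cases hnt : ∃ a ∈ A, 1 < ‖a‖
    · rcases hTw with hI | hII
      · exact hA.ec n S (specI ht hw hI hK n S hSw)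
      · exact hA.ec n S (specII ht hnt hII hK n S hSw)
    · have hAk : A ≤ k := by
        intro a ha
        have h1 : ‖a‖ ≤ 1 := by
          by_contra h
          exact hnt ⟨a, ha, not_le.1 h⟩
        obtain ⟨c, hc, hac⟩ := hh.res a (hA.AH ha) h1
        by_cases h0 : a - c = 0
        · rw [sub_eq_zero.1 h0]
          exact hc
        · exfalso
          refine hnt ⟨(a - c)⁻¹, inv_mem (sub_mem ha (hA.kA hc)), ?_⟩
          rw [norm_inv]
          exact (one_lt_inv₀ (norm_pos_iff.2 h0)).2 hac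
      obtain rfl : A = k := le_antisymm hAk hA.kA
      have hII : TyII A w := by
        rcases hTw with hI | hII
        · exact absurd hI.nontriv hnt
        · exact hII
      have hw1 : ‖w‖ ≠ 1 := by
        have h := hII.2 1 one_ne_zero 1 A.one_mem
        rwa [zpow_one, norm_one] at h
      have hw' : ∃ w' : Ω, w' ≠ 0 ∧ ‖w'‖ < 1 ∧ cl A w ≤ cl A w' := by
        rcases lt_or_gt_of_ne hw1 with h | h
        · exact ⟨w, hII.1, h, le_rfl⟩
        · refine ⟨w⁻¹, inv_ne_zero hII.1, ?_, ?_⟩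
          · rw [norm_inv]
            exact inv_lt_one_of_one_lt₀ h
          · refine cl_le (isClosed_cl _ _) (le_cl _ _) ?_
            have h2 := inv_mem (mem_cl A w⁻¹)
            rwa [inv_inv] at h2
      obtain ⟨w', hw0, hw1', hle⟩ := hw'
      obtain ⟨φ, hφ⟩ := base hh.triv hw0 hw1'
      exact hkt n S (zornS_hkt (le_cl A w') φ hφ i hi ⟨x, fun j => hle (hxw j), hq⟩)
  · exact le_inf ((le_adj A z).trans hsub) hA.AH
  · exact ⟨hsub (mem_adj A z), hz⟩

/-- `K` is existentially closed in `H`.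

Proof. Zorn for `Ecl K k H`. First `k` itself: `x ∈ H` algebraic over `k` is in `k` (`norm_alg`:
`‖x‖ ≤ 1`, `c ∈ k` with `‖x - c‖ < 1`, `x - c` is algebraic over `k`, so zero), and systems solvable
in `k` are solvable in `k((t))`, so in `K` by `hkt`. The union of a nonempty chain is in `Ecl`
(finitely many coordinates, and finitely many coefficients of an algebraic relation, lie in
one member). Let `A` be maximal. By `dens_rac` and `dens` its closure is in `Ecl` too
(`SolvIn K A.topologicalClosure S → SolvIn K A S`), so `A` is closed. By `ecl_step` `A = H`. -/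
theorem ec_in {p : ℕ} [Fact p.Prime] [CharP Ω p] [IsAlgClosed Ω] [CompleteSpace Ω]
    {k H : Subfield Ω} (hh : HH p k H) {K : Type u} [Field K] [Algebra K Ω] (i : K →+* ↥k)
    (hi : ∀ c : K, algebraMap K Ω c = (i c : Ω))
    (hkt : ∀ (n : ℕ) (S : Finset (MvPolynomial (Fin n) K)),
      (∃ x : Fin n → LaurentSeries ↥k, ∀ q ∈ S,
        MvPolynomial.aeval x (MvPolynomial.map i q) = 0) → Solv K K S)
    {n : ℕ} (S : Finset (MvPolynomial (Fin n) K)) (hS : SolvIn K H S) : Solv K K S := by
  have hk0 : Ecl K k H k := by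
    refine ⟨le_rfl, hh.kH, ?_, ?_⟩
    · intro x hx halg
      by_cases hx0 : x = 0
      · rw [hx0]
        exact k.zero_mem
      · obtain ⟨c, hc, hxc⟩ := hh.res x hx (norm_alg hh.triv halg hx0).le
        have hal : IsAlgebraic k (x - c) :=
          halg.sub (isAlgebraic_algebraMap (⟨c, hc⟩ : k))
        by_cases h0 : x - c = 0
        · rw [sub_eq_zero.1 h0]
          exact hc
        · exact absurd (norm_alg hh.triv hal h0) hxc.ne
    · intro n S hS
      exact hkt n S (zornS_hkt le_rfl (algebraMap ↥k (LaurentSeries ↥k)) (fun c => rfl) i hi hS)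
  obtain ⟨A, -, hA, hmax⟩ := zorn_le_nonempty₀ {A | Ecl K k H A} (by
    intro c hc hch A0 hA0
    have hne : c.Nonempty := ⟨A0, hA0⟩
    refine ⟨sSup c, ⟨?_, ?_, ?_, ?_⟩, fun B hB => le_sSup hB⟩
    · exact (hc hA0).kA.trans (le_sSup hA0)
    · exact sSup_le fun B hB => (hc hB).AH
    · intro x hx halg
      obtain ⟨B, hB, hxB⟩ := zornS_alg hch hne halg
      exact le_sSup hB ((hc hB).rac x hx hxB)
    · intro n S hS
      classical
      obtain ⟨x, hx, hq⟩ := hS
      obtain ⟨B, hB, hT⟩ := zornS_fin hch hne (Finset.univ.image x) (by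
        intro t ht
        obtain ⟨j, _, rfl⟩ := Finset.mem_image.1 ht
        exact hx j)
      exact (hc hB).ec n S
        ⟨x, fun j => hT _ (Finset.mem_image.2 ⟨j, Finset.mem_univ j, rfl⟩), hq⟩) k hk0
  have hA' : Ecl K k H A := hA
  have hK : ∀ c : K, algebraMap K Ω c ∈ A := by
    intro c
    rw [hi c]
    exact hA'.kA (i c).2
  obtain ⟨hCH, hCr⟩ := dens_rac (p := p) hh.closed hh.perf hA'.AH hA'.rac
  have hC : Ecl K k H A.topologicalClosure :=
    ⟨hA'.kA.trans (Subfield.le_topologicalClosure A), hCH, hCr, fun n S hS =>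
      hA'.ec n S (dens (p := p) hh.closed hh.perf hA'.AH hA'.rac hK n S hS)⟩
  have hCA : A.topologicalClosure ≤ A := hmax hC (Subfield.le_topologicalClosure A)
  have hAC : A.topologicalClosure = A := le_antisymm hCA (Subfield.le_topologicalClosure A)
  have hcl : IsClosed (A : Set Ω) := by
    rw [← hAC]
    exact Subfield.isClosed_topologicalClosure A
  have hHA : H ≤ A := by
    intro z hz
    by_contra hzA
    obtain ⟨B, hB, hAB, hzB⟩ := ecl_step hh i hi hkt hA' hcl hz hzA
    exact hzA (hmax hB hAB hzB)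
  obtain ⟨x, hx, hq⟩ := hS
  exact hA'.ec n S ⟨x, fun j => hHA (hx j), hq⟩

end Pool.Agent.R4U
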