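import Pool.Agent.Lib.MP_4ed7e0_lc_U.Omega
import Pool.Agent.Lib.MP_4ed7e0_lc_U.HAlg
import Pool.Agent.Lib.MP_4ed7e0_lc_U.Coef1
import Pool.Agent.Lib.MP_4ed7e0_lc_U.ZornS
import Pool.Agent.Lib.MP_4ed7e0_lc_U.LS

/-!
# MP_4ed7e0_lc, project U: the rank one theorem
-/

set_option autoImplicit false

namespace Pool.Agent.R4U

universe u

open Pool.Agent.R4A Pool.Agent.R4F

/-- Polynomials with coefficients of norm at most one at two close points. -/
private theorem r1_close {K Ω : Type u} [Field K] [NormedField Ω] [IsUltrametricDist Ω]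
    [Algebra K Ω] (hc : ∀ c : K, ‖algebraMap K Ω c‖ ≤ 1) {n : ℕ} {y z : Fin n → Ω}
    (hy : ∀ j, ‖y j‖ ≤ 1) (hz : ∀ j, ‖z j‖ ≤ 1) (hyz : ∀ j, ‖y j - z j‖ < 1)
    (q : MvPolynomial (Fin n) K) :
    ‖MvPolynomial.aeval y q‖ ≤ 1 ∧ ‖MvPolynomial.aeval z q‖ ≤ 1 ∧
      ‖MvPolynomial.aeval y q - MvPolynomial.aeval z q‖ < 1 := by
  induction q using MvPolynomial.induction_on with
  | C a =>
    refine ⟨?_, ?_, ?_⟩
    · rw [MvPolynomial.aeval_C]; exact hc a
    · rw [MvPolynomial.aeval_C]; exact hc a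
    · rw [MvPolynomial.aeval_C, MvPolynomial.aeval_C, sub_self, norm_zero]
      exact one_pos
  | add q r hq hr =>
    rw [map_add, map_add]
    refine ⟨(IsUltrametricDist.norm_add_le_max _ _).trans (max_le hq.1 hr.1),
      (IsUltrametricDist.norm_add_le_max _ _).trans (max_le hq.2.1 hr.2.1), ?_⟩
    rw [add_sub_add_comm]
    exact lt_of_le_of_lt (IsUltrametricDist.norm_add_le_max _ _) (max_lt hq.2.2 hr.2.2)
  | mul_X q j hq =>
    rw [map_mul, map_mul, MvPolynomial.aeval_X, MvPolynomial.aeval_X]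
    refine ⟨?_, ?_, ?_⟩
    · rw [norm_mul]
      exact mul_le_one₀ hq.1 (norm_nonneg _) (hy j)
    · rw [norm_mul]
      exact mul_le_one₀ hq.2.1 (norm_nonneg _) (hz j)
    · have h : MvPolynomial.aeval y q * y j - MvPolynomial.aeval z q * z j =
          (MvPolynomial.aeval y q - MvPolynomial.aeval z q) * y j +
            MvPolynomial.aeval z q * (y j - z j) := by ring
      rw [h]
      refine lt_of_le_of_lt (IsUltrametricDist.norm_add_le_max _ _) (max_lt ?_ ?_)
      · rw [norm_mul]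
        exact lt_of_le_of_lt (mul_le_of_le_one_right (norm_nonneg _) (hy j)) hq.2.2
      · rw [norm_mul]
        exact lt_of_le_of_lt (mul_le_of_le_one_left (norm_nonneg _) hq.2.1) (hyz j)

/-- Density of the range in its closure. -/
private theorem r1_dense {κ Ω : Type u} [Field κ] [NormedField Ω] (i : κ →+* Ω) {x : Ω}
    (hx : x ∈ i.fieldRange.topologicalClosure) {ε : ℝ} (hε : 0 < ε) :
    ∃ a : κ, ‖x - i a‖ < ε := by
  have h1 : x ∈ closure (i.fieldRange : Set Ω) := hx
  obtain ⟨b, hb, hxb⟩ := Metric.mem_closure_iff.1 h1 ε hε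
  obtain ⟨a, rfl⟩ := hb
  exact ⟨a, by rwa [dist_eq_norm] at hxb⟩

/-- The closure of the image of a perfect field is perfect. -/
private theorem r1_perf {p : ℕ} [Fact p.Prime] {κ Ω : Type u} [Field κ] [NormedField Ω]
    [CharP Ω p] [IsAlgClosed Ω] (i : κ →+* Ω) (hpκ : ∀ x : κ, ∃ y, y ^ p = x) :
    Perf p i.fieldRange.topologicalClosure := by
  intro x hx
  have hp : p.Prime := Fact.out
  obtain ⟨y, hy⟩ := IsAlgClosed.exists_pow_nat_eq x hp.pos
  refine ⟨y, ?_, hy⟩
  change y ∈ closure (i.fieldRange : Set Ω)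
  rw [Metric.mem_closure_iff]
  intro ε hε
  obtain ⟨a, ha⟩ := r1_dense i hx (pow_pos hε p)
  obtain ⟨b, hb⟩ := hpκ a
  refine ⟨i b, ⟨b, rfl⟩, ?_⟩
  rw [dist_eq_norm]
  have h : ‖y - i b‖ ^ p < ε ^ p := by
    rw [← norm_pow, sub_pow_char, hy, ← map_pow, hb]
    exact ha
  exact lt_of_pow_lt_pow_left₀ p hε.le h

/-- The rank one theorem.

Proof. Let `Ω ⊇ κ` be as in `omega`, `i : κ → Ω` isometric; `Ω` is an algebra over `K`, of
characteristic `p`, not trivially normed. Let `F` be the closure of `i(κ)`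
(`(RingHom.fieldRange i).topologicalClosure`), perfect (limits of `p`-th roots), and `k` the image
of `K`, trivially normed. `coef` gives `k₁` with `k ≤ k₁ ≤ F`, `Triv`, `Perf`, `Res k₁ F`, and
`exists_max` gives `H ≥ F` with `MaxH p k₁ H`, so `HH p k₁ H` by `MaxH.hh`. Claim:
systems `S` over `K` solvable in `k₁` (an algebra over `K`) are solvable in `K`. If `c j ∈ k₁` is a
solution, choose `x j ∈ κ` with `‖c j - i (x j)‖ < 1` (density); then `‖x j‖ ≤ 1` and
`‖q(i x)‖ = ‖q(i x) - q(c)‖ < 1` for the equations `q ∈ S` (coefficients of norm at most one), so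
`hres` applies. So `Tr K k₁ K`, and by `ls` `Tr K (LaurentSeries k₁) K`. `ec_in` gives: systems
solvable in `H` are solvable in `K`; a solution in `κ` gives a solution in `i(κ) ⊆ H`. -/
theorem r1 {p : ℕ} [Fact p.Prime] {K κ : Type u} [Field K] [CharP K p]
    (hp : ∀ x : K, ∃ y, y ^ p = x) (hL : Large K) [NontriviallyNormedField κ]
    [IsUltrametricDist κ] [Algebra K κ] (hpκ : ∀ x : κ, ∃ y, y ^ p = x)
    (htriv : ∀ c : K, c ≠ 0 → ‖algebraMap K κ c‖ = 1)
    (hres : ∀ (n : ℕ) (S : Finset (MvPolynomial (Fin n) K)),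
      (∃ x : Fin n → κ, (∀ i, ‖x i‖ ≤ 1) ∧ ∀ q ∈ S, ‖MvPolynomial.aeval x q‖ < 1) →
        Solv K K S) : Tr K κ K := by
  obtain ⟨Ω, nΩ, uΩ, cΩ, aΩ, i, hi, hsph⟩ := omega κ
  let algΩ : Algebra K Ω := (i.comp (algebraMap K κ)).toAlgebra
  have halg : ∀ c : K, algebraMap K Ω c = i (algebraMap K κ c) := fun c => rfl
  have hchar : CharP Ω p := charP_of_injective_ringHom (algebraMap K Ω).injective p
  have hnorm : ∀ c : K, c ≠ 0 → ‖algebraMap K Ω c‖ = 1 := fun c hc => by
    rw [halg, hi]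
    exact htriv c hc
  have hnorm1 : ∀ c : K, ‖algebraMap K Ω c‖ ≤ 1 := fun c => by
    rcases eq_or_ne c 0 with h | h
    · rw [h, map_zero, norm_zero]
      exact zero_le_one
    · exact (hnorm c h).le
  let iA : κ →ₐ[K] Ω := { i with commutes' := fun c => rfl }
  have hiA : ∀ x : κ, iA x = i x := fun x => rfl
  have hev : ∀ {n : ℕ} (x : Fin n → κ) (q : MvPolynomial (Fin n) K),
      MvPolynomial.aeval (fun j => i (x j)) q = i (MvPolynomial.aeval x q) := fun x q =>
    (MvPolynomial.comp_aeval_apply (φ := iA) x q).symm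
  have hrF : ∀ x : κ, i x ∈ i.fieldRange.topologicalClosure := fun x =>
    Subfield.le_topologicalClosure _ ⟨x, rfl⟩
  have hkF : (algebraMap K Ω).fieldRange ≤ i.fieldRange.topologicalClosure := by
    rintro _ ⟨c, rfl⟩
    exact hrF _
  have hk : Triv (algebraMap K Ω).fieldRange := by
    rintro _ ⟨c, rfl⟩ hc
    refine hnorm c fun h => hc ?_
    rw [h, map_zero]
  obtain ⟨k₁, hkk, hk₁F, ht, hP, hR⟩ := coef
    (Subfield.isClosed_topologicalClosure i.fieldRange) (r1_perf i hpκ) hkF hk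
  obtain ⟨H, hFH, hm⟩ := exists_max p hk₁F ht hP hR
  have hh : HH p k₁ H := hm.hh hsph (by
    obtain ⟨a, ha⟩ := NontriviallyNormedField.non_trivial (α := κ)
    exact ⟨i a, by rw [hi]; exact ha⟩)
  let i' : K →+* ↥k₁ := (algebraMap K Ω).codRestrict k₁ fun c => hkk ⟨c, rfl⟩
  have hi' : ∀ c : K, algebraMap K Ω c = (i' c : Ω) := fun c => rfl
  let algk : Algebra K ↥k₁ := i'.toAlgebra
  have hec : Tr K ↥k₁ K := by
    intro n S hS
    obtain ⟨c, hc⟩ := hS
    have hcx : ∀ j, ∃ a : κ, ‖(c j : Ω) - i a‖ < 1 := fun j =>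
      r1_dense i (hk₁F (c j).2) one_pos
    choose x hx using hcx
    have hc1 : ∀ j, ‖(c j : Ω)‖ ≤ 1 := fun j => by
      rcases eq_or_ne (c j : Ω) 0 with h | h
      · rw [h, norm_zero]
        exact zero_le_one
      · exact (ht _ (c j).2 h).le
    have hx1 : ∀ j, ‖i (x j)‖ ≤ 1 := fun j => by
      have h : i (x j) = (c j : Ω) + -((c j : Ω) - i (x j)) := by ring
      rw [h]
      refine (IsUltrametricDist.norm_add_le_max _ _).trans (max_le (hc1 j) ?_)
      rw [norm_neg]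
      exact (hx j).le
    refine hres n S ⟨x, fun j => by rw [← hi]; exact hx1 j, fun q hq => ?_⟩
    have h1 := (r1_close hnorm1 hc1 hx1 hx q).2.2
    let jA : ↥k₁ →ₐ[K] Ω := { k₁.subtype with commutes' := fun c => rfl }
    have h2 : MvPolynomial.aeval (fun j => (c j : Ω)) q = 0 := by
      have h3 := MvPolynomial.comp_aeval_apply (φ := jA) c q
      rw [hc q hq, map_zero] at h3
      exact h3.symm
    rw [h2, zero_sub, norm_neg, hev, hi] at h1
    exact h1
  have hls : Tr K (LaurentSeries ↥k₁) K := ls hp hL hec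
  intro n S hS
  obtain ⟨x, hx⟩ := hS
  refine ec_in hh i' hi' ?_ S ⟨fun j => i (x j), fun j => hFH (hrF _), fun q hq => ?_⟩
  · intro m T hT
    obtain ⟨y, hy⟩ := hT
    refine hls m T ⟨y, fun q hq => ?_⟩
    have h1 := hy q hq
    have h2 : algebraMap K (LaurentSeries ↥k₁) =
        (algebraMap ↥k₁ (LaurentSeries ↥k₁)).comp i' := RingHom.ext fun c => by
      rw [RingHom.comp_apply, HahnSeries.algebraMap_apply', HahnSeries.algebraMap_apply',
        PowerSeries.algebraMap_apply, PowerSeries.algebraMap_apply]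
      rfl
    rw [MvPolynomial.aeval_def, MvPolynomial.eval₂_map, ← h2] at h1
    rw [MvPolynomial.aeval_def]
    exact h1
  · rw [hev, hx q hq, map_zero]

end Pool.Agent.R4U
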