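import Pool.Agent.Lib.MP_4ed7e0_lc_U.Hyp
import Pool.Agent.Lib.MP_4ed7e0_lc_U.Newt

/-!
# MP_4ed7e0_lc, project U: specialization of points
-/

set_option autoImplicit false

namespace Pool.Agent.R4U

universe u v

open Pool.Agent.R4F

variable {Ω : Type u} [NormedField Ω] [IsUltrametricDist Ω]

private theorem Spec_ev2_eval₂ {K : Type u} {A : Type v} [CommRing K] [CommRing A] [Algebra K A]
    {m : ℕ} (x : Fin m → A) (y : A) (F : Polynomial (MvPolynomial (Fin m) K)) :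
    ev2 x y F = F.eval₂ (MvPolynomial.aeval x : MvPolynomial (Fin m) K →ₐ[K] A).toRingHom y := by
  unfold ev2
  rw [Polynomial.eval_map]

private theorem Spec_ev2_hom {K : Type u} {A : Type v} {B : Type*} [CommRing K] [CommRing A]
    [CommRing B] [Algebra K A] [Algebra K B] (f : A →ₐ[K] B) {m : ℕ} (x : Fin m → A) (y : A)
    (F : Polynomial (MvPolynomial (Fin m) K)) :
    f (ev2 x y F) = ev2 (fun i => f (x i)) (f y) F := by
  rw [Spec_ev2_eval₂, Spec_ev2_eval₂]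
  have h1 : f (F.eval₂ (MvPolynomial.aeval x : MvPolynomial (Fin m) K →ₐ[K] A).toRingHom y) =
      F.eval₂ (f.toRingHom.comp
        (MvPolynomial.aeval x : MvPolynomial (Fin m) K →ₐ[K] A).toRingHom) (f y) :=
    Polynomial.hom_eval₂ F _ f.toRingHom y
  rw [h1]
  congr 1
  have h2 : f.comp (MvPolynomial.aeval x : MvPolynomial (Fin m) K →ₐ[K] A) =
      MvPolynomial.aeval (fun i => f (x i)) := MvPolynomial.comp_aeval x f
  rw [← h2]
  rfl

private theorem Spec_taylor {K : Type u} {A : Type v} [CommRing K] [CommRing A] [Algebra K A]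
    {m : ℕ} (x : Fin m → A) (y : A) (F : Polynomial (MvPolynomial (Fin m) K)) (i : ℕ) :
    (Polynomial.taylor y
      (F.map (MvPolynomial.aeval x : MvPolynomial (Fin m) K →ₐ[K] A).toRingHom)).coeff i =
      ev2 x y (Polynomial.hasseDeriv i F) := by
  rw [Polynomial.taylor_coeff]
  unfold ev2
  congr 1
  ext n
  rw [Polynomial.coeff_map, Polynomial.hasseDeriv_coeff, Polynomial.hasseDeriv_coeff,
    Polynomial.coeff_map, map_mul, map_natCast]

private theorem Spec_hasse_one {K : Type u} [CommRing K] {m : ℕ}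
    (F : Polynomial (MvPolynomial (Fin m) K)) : Polynomial.hasseDeriv 1 F = F.derivative := by
  rw [Polynomial.hasseDeriv_one]

omit [IsUltrametricDist Ω] in
private theorem Spec_cont {E : Subfield Ω} {m : ℕ} (H : Polynomial (MvPolynomial (Fin m) E)) :
    Continuous fun v : (Fin m → Ω) × Ω => ev2 v.1 v.2 H := by
  have h1 : (fun v : (Fin m → Ω) × Ω => ev2 v.1 v.2 H) = fun v : (Fin m → Ω) × Ω =>
      ∑ i ∈ Finset.range (H.natDegree + 1),
        MvPolynomial.eval v.1 (MvPolynomial.map (algebraMap E Ω) (H.coeff i)) * v.2 ^ i := by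
    funext v
    rw [Spec_ev2_eval₂, Polynomial.eval₂_eq_sum_range]
    refine Finset.sum_congr rfl fun i _ => ?_
    congr 1
    have h2 : (MvPolynomial.aeval v.1 : MvPolynomial (Fin m) E →ₐ[E] Ω) (H.coeff i) =
        MvPolynomial.eval v.1 (MvPolynomial.map (algebraMap E Ω) (H.coeff i)) := by
      rw [MvPolynomial.aeval_def, MvPolynomial.eval_map]
    exact h2
  rw [h1]
  refine continuous_finsetSum _ fun i _ => ?_
  exact ((MvPolynomial.continuous_eval _).comp continuous_fst).mul (continuous_snd.pow i)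

omit [IsUltrametricDist Ω] in
private theorem Spec_coef {E : Subfield Ω} {m : ℕ} (F : Polynomial (MvPolynomial (Fin m) E))
    {a : Fin m → Ω} (ha : ∀ i, a i ∈ E) :
    Coef E (F.map (MvPolynomial.aeval a : MvPolynomial (Fin m) E →ₐ[E] Ω).toRingHom) := by
  intro i
  rw [Polynomial.coeff_map]
  have h1 : (MvPolynomial.aeval a : MvPolynomial (Fin m) E →ₐ[E] Ω) (F.coeff i) =
      ((MvPolynomial.aeval (fun j => (⟨a j, ha j⟩ : E)) : MvPolynomial (Fin m) E →ₐ[E] E)
        (F.coeff i) : Ω) := by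
    have h2 := MvPolynomial.comp_aeval (R := E) (fun j => (⟨a j, ha j⟩ : E)) (Algebra.ofId E Ω)
    have h3 := DFunLike.congr_fun h2 (F.coeff i)
    exact h3.symm
  have h4 : (MvPolynomial.aeval a : MvPolynomial (Fin m) E →ₐ[E] Ω) (F.coeff i) ∈ E := by
    rw [h1]
    exact SetLike.coe_mem _
  exact h4

private theorem Spec_eval {K : Type u} {A : Type v} [CommRing K] [CommRing A] [Algebra K A]
    {m : ℕ} (x : Fin m → A) (y y' : A) (H : Polynomial (MvPolynomial (Fin m) K)) :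
    ev2 x y' H = (Polynomial.taylor y
      (H.map (MvPolynomial.aeval x : MvPolynomial (Fin m) K →ₐ[K] A).toRingHom)).eval
        (y' - y) := by
  rw [Polynomial.taylor_eval, sub_add_cancel]
  rfl

private theorem Spec_newton [IsAlgClosed Ω] {E : Subfield Ω} (hE : IsClosed (E : Set Ω)) {m : ℕ}
    (F G : Polynomial (MvPolynomial (Fin m) E)) {a : Fin m → Ω} (ha : ∀ i, a i ∈ E) {b : Ω}
    (hb : b ∈ E) {η c1 c2 Bd : ℝ} (hη0 : 0 < η) (hη1 : η ≤ 1 / 2) (hBd0 : 0 < Bd)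
    (hη2 : 16 * Bd * η ≤ c1) (hη3 : 16 * Bd * η ≤ c2) (w0 : ‖ev2 a b F‖ ≤ η * c1 / 4)
    (w1 : c1 / 4 < ‖ev2 a b F.derivative‖) (w2 : c2 / 4 < ‖ev2 a b G‖)
    (w3 : ∀ i, ‖ev2 a b (Polynomial.hasseDeriv i F)‖ ≤ 2 * Bd)
    (w4 : ∀ i, ‖ev2 a b (Polynomial.hasseDeriv i G)‖ ≤ 2 * Bd) :
    ∃ y0 ∈ E, ev2 a y0 F = 0 ∧ ev2 a y0 G ≠ 0 := by
  have hBη : 0 < Bd * η := mul_pos hBd0 hη0
  have n1 : ‖(F.map (MvPolynomial.aeval a : MvPolynomial (Fin m) E →ₐ[E] Ω).toRingHom).eval b‖ ≤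
      η * ‖(Polynomial.taylor b
        (F.map (MvPolynomial.aeval a : MvPolynomial (Fin m) E →ₐ[E] Ω).toRingHom)).coeff 1‖ := by
    rw [Spec_taylor, Spec_hasse_one]
    have h1 : η * (c1 / 4) ≤ η * ‖ev2 a b F.derivative‖ :=
      mul_le_mul_of_nonneg_left w1.le hη0.le
    have h2 : ‖ev2 a b F‖ ≤ η * ‖ev2 a b F.derivative‖ := by linarith
    exact h2
  have n2 : ∀ i, 2 ≤ i → ‖(Polynomial.taylor b
        (F.map (MvPolynomial.aeval a : MvPolynomial (Fin m) E →ₐ[E] Ω).toRingHom)).coeff i‖ *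
          η ^ (i - 1) < ‖(Polynomial.taylor b
        (F.map (MvPolynomial.aeval a : MvPolynomial (Fin m) E →ₐ[E] Ω).toRingHom)).coeff 1‖ := by
    intro i hi
    rw [Spec_taylor, Spec_taylor, Spec_hasse_one]
    have h3 : η ^ (i - 1) ≤ η := by
      obtain ⟨j, rfl⟩ : ∃ j, i = j + 2 := ⟨i - 2, by omega⟩
      have h2 : η ^ (j + 2 - 1) = η ^ j * η := by
        rw [← pow_succ]
        congr 1
      rw [h2]
      exact mul_le_of_le_one_left hη0.le (pow_le_one₀ hη0.le (by linarith))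
    have h1 : ‖ev2 a b (Polynomial.hasseDeriv i F)‖ * η ^ (i - 1) ≤ 2 * Bd * η :=
      mul_le_mul (w3 i) h3 (pow_nonneg hη0.le _) (by linarith)
    have h4 : 2 * Bd * η < c1 / 4 := by nlinarith
    exact lt_of_le_of_lt h1 (h4.trans w1)
  obtain ⟨y0, hy0E, hy0, hy0b⟩ := newton hE (Spec_coef F ha) hb n1 n2
  refine ⟨y0, hy0E, hy0, fun hzero => ?_⟩
  have h1 := Spec_eval a b y0 G
  rw [hzero, Polynomial.eval_eq_sum_range, Finset.sum_range_succ', pow_zero, mul_one,
    Spec_taylor, Polynomial.hasseDeriv_zero'] at h1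
  have h2 : ‖ev2 a b G‖ ≤ 2 * Bd * η := by
    have h3 : ev2 a b G = -∑ i ∈ Finset.range (Polynomial.taylor b
      (G.map (MvPolynomial.aeval a : MvPolynomial (Fin m) E →ₐ[E] Ω).toRingHom)).natDegree,
      (Polynomial.taylor b (G.map
        (MvPolynomial.aeval a : MvPolynomial (Fin m) E →ₐ[E] Ω).toRingHom)).coeff (i + 1) *
        (y0 - b) ^ (i + 1) := by
      linear_combination -h1
    rw [h3, norm_neg]
    refine IsUltrametricDist.norm_sum_le_of_forall_le_of_nonneg (by linarith) fun i _ => ?_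
    rw [norm_mul, norm_pow, Spec_taylor]
    have h5 : ‖y0 - b‖ ^ (i + 1) ≤ η := by
      rw [pow_succ]
      have h4 : ‖y0 - b‖ ^ i ≤ 1 := pow_le_one₀ (norm_nonneg _) (by linarith)
      calc ‖y0 - b‖ ^ i * ‖y0 - b‖ ≤ 1 * η := mul_le_mul h4 hy0b (norm_nonneg _) zero_le_one
        _ = η := one_mul η
    exact mul_le_mul (w4 _) h5 (by positivity) (by linarith)
  linarith

/-- Specialization: if a ring `R` is dense in `N` (via `π`) and has specializations to the closed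
perfect field `E` which nearly preserve the norms of finitely many elements then systems
solvable in `N` are solvable in `E`.

Proof. Map the system to a system over the field `E` (`hK`) and apply `hyp` to the perfect field
`E` (`sepa_perf`), the extension `N` and the valuation ring `⊤`: `F, G` over `E`, `x i, y ∈ N`. For
`r : Fin m → R`, `s : R` put `F(r, s) = ev2 r s F ∈ R`; `π (F(r, s)) = F(π r, π s)` (`π` is a
homomorphism of `E`-algebras). By density and continuity choose `r, s` with `π r, π s` so close to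
`x, y` that `‖F(π r, π s)‖ < ε`, `‖F_Y(π r, π s)‖ = ‖F_Y(x, y)‖ =: c₁ > 0`,
`‖G(π r, π s)‖ = ‖G(x, y)‖ =: c₂ > 0`, and all Taylor coefficients in `Y` at `(π r, π s)` of `F` and
`G` (values of the Hasse derivatives, finitely many) have norm at most `B`, where `B ≥ 1` does not
depend on `ε`. Let `T` be the set of all these elements of `R`, and `φ` the specialization for `T`;
`a = φ r`, `b = φ s` in `E`. Then `‖F(a, b)‖ ≤ 2 ε`, `‖F_Y(a, b)‖ ≥ c₁ / 2`, `‖G(a, b)‖ ≥ c₂ / 2`,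
the
Taylor coefficients at `(a, b)` have norm at most `2 B`. By `newton` (closed field `E`, polynomial
`F(a, Y)`, `η = 4 ε / c₁`, small) there is `y₀ ∈ E` with `F(a, y₀) = 0`, `‖y₀ - b‖ ≤ η`, and
`G(a, y₀) ≠ 0` for `ε` small enough (`‖G(a, y₀) - G(a, b)‖ ≤ 2 B * η`). So the system has a
solution in `E`. -/
theorem spec {p : ℕ} [Fact p.Prime] [CharP Ω p] [IsAlgClosed Ω] {E N : Subfield Ω}
    (hE : IsClosed (E : Set Ω)) (hperf : Perf p E) (hEN : E ≤ N) {R : Type u} [CommRing R]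
    [Algebra E R] (π : R →ₐ[E] Ω) (hdense : ∀ x ∈ N, ∀ ε : ℝ, 0 < ε → ∃ r, ‖x - π r‖ < ε)
    (hsp : ∀ T : Finset R, ∃ φ : R →ₐ[E] Ω, (∀ r, φ r ∈ E) ∧
      ∀ t ∈ T, ‖φ t‖ ≤ 2 * ‖π t‖ ∧ ‖π t‖ ≤ 2 * ‖φ t‖)
    {K : Type u} [Field K] [Algebra K Ω] (hK : ∀ c : K, algebraMap K Ω c ∈ E) : TrIn K N E := by
  classical
  intro n S hS
  -- the field `E`, the extension `N`
  have hcharE : CharP E p := (E.subtype.charP_iff E.subtype.injective p).2 inferInstance
  let _ : Algebra E N := (Subfield.inclusion hEN).toAlgebra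
  have hNalg : ∀ c : E, ((algebraMap E N c : N) : Ω) = (c : Ω) := fun _ => rfl
  let ι : N →ₐ[E] Ω := { N.subtype with commutes' := fun c => rfl }
  let ψ : K →+* E := (algebraMap K Ω).codRestrict E hK
  have hsepa : Sepa p E N := by
    refine sepa_perf p fun x => ?_
    obtain ⟨y, hy, hyx⟩ := hperf x x.2
    exact ⟨⟨y, hy⟩, Subtype.ext hyx⟩
  have hmap : ∀ (x : Fin n → Ω) (q : MvPolynomial (Fin n) K),
      MvPolynomial.aeval x (MvPolynomial.map ψ q) = MvPolynomial.aeval x q := by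
    intro x q
    rw [MvPolynomial.aeval_def, MvPolynomial.eval₂_map, MvPolynomial.aeval_def]
    rfl
  obtain ⟨ξ, hξN, hξ⟩ := hS
  have hS' : Solv E N (S.image (MvPolynomial.map ψ)) := by
    refine ⟨fun i => ⟨ξ i, hξN i⟩, fun q hq => ?_⟩
    obtain ⟨q0, hq0, rfl⟩ := Finset.mem_image.1 hq
    apply Subtype.ext
    have h1 := DFunLike.congr_fun
      (MvPolynomial.comp_aeval (R := E) (fun i => (⟨ξ i, hξN i⟩ : N)) ι) (MvPolynomial.map ψ q0)
    have h2 : (MvPolynomial.aeval ξ : MvPolynomial (Fin n) E →ₐ[E] Ω)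
        (MvPolynomial.map ψ q0) = 0 := by
      rw [hmap]
      exact hξ q0 hq0
    exact h1.trans h2
  obtain ⟨m, F, G, x, y, -, -, hF0, hF1, hG, hsol⟩ := hyp p hsepa ⊤ (fun _ => trivial) _ hS'
  -- the point in `Ω`
  set xΩ : Fin m → Ω := fun i => (x i : Ω) with hxΩ
  set yΩ : Ω := (y : Ω) with hyΩ
  have hev : ∀ H : Polynomial (MvPolynomial (Fin m) E), ev2 xΩ yΩ H = ((ev2 x y H : N) : Ω) :=
    fun H => (Spec_ev2_hom ι x y H).symm
  have e0 : ev2 xΩ yΩ F = 0 := by rw [hev, hF0]; rfl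
  have e1 : 0 < ‖ev2 xΩ yΩ F.derivative‖ := by
    rw [norm_pos_iff, hev]
    exact fun h => hF1 (Subtype.ext h)
  have e2 : 0 < ‖ev2 xΩ yΩ G‖ := by
    rw [norm_pos_iff, hev]
    exact fun h => hG (Subtype.ext h)
  obtain ⟨c1, hc1⟩ : ∃ c : ℝ, c = ‖ev2 xΩ yΩ F.derivative‖ := ⟨_, rfl⟩
  obtain ⟨c2, hc2⟩ : ∃ c : ℝ, c = ‖ev2 xΩ yΩ G‖ := ⟨_, rfl⟩
  rw [← hc1] at e1
  rw [← hc2] at e2
  obtain ⟨D, hD⟩ : ∃ D : ℕ, D = max F.natDegree G.natDegree := ⟨_, rfl⟩
  obtain ⟨Bd, hBd⟩ : ∃ Bd : ℝ, Bd = 1 + ∑ i ∈ Finset.range (D + 1),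
      (‖ev2 xΩ yΩ (Polynomial.hasseDeriv i F)‖ + ‖ev2 xΩ yΩ (Polynomial.hasseDeriv i G)‖) :=
    ⟨_, rfl⟩
  have hBd1 : 1 ≤ Bd := by
    rw [hBd]
    have : 0 ≤ ∑ i ∈ Finset.range (D + 1), (‖ev2 xΩ yΩ (Polynomial.hasseDeriv i F)‖ +
      ‖ev2 xΩ yΩ (Polynomial.hasseDeriv i G)‖) := Finset.sum_nonneg fun i _ => by positivity
    linarith
  have hBd0 : 0 < Bd := by linarith
  have hBi : ∀ i ∈ Finset.range (D + 1), ‖ev2 xΩ yΩ (Polynomial.hasseDeriv i F)‖ < Bd ∧
      ‖ev2 xΩ yΩ (Polynomial.hasseDeriv i G)‖ < Bd := by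
    intro i hi
    have h1 := Finset.single_le_sum (f := fun i => ‖ev2 xΩ yΩ (Polynomial.hasseDeriv i F)‖ +
      ‖ev2 xΩ yΩ (Polynomial.hasseDeriv i G)‖) (fun i _ => by positivity) hi
    have h2 := norm_nonneg (ev2 xΩ yΩ (Polynomial.hasseDeriv i F))
    have h3 := norm_nonneg (ev2 xΩ yΩ (Polynomial.hasseDeriv i G))
    constructor <;> (rw [hBd]; linarith)
  -- constants
  obtain ⟨η, hη⟩ : ∃ η : ℝ, η = min (1 / 2) (min (c1 / (16 * Bd)) (c2 / (16 * Bd))) := ⟨_, rfl⟩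
  have hη0 : 0 < η := by rw [hη]; positivity
  have hη1 : η ≤ 1 / 2 := hη.le.trans (min_le_left _ _)
  have hη2 : 16 * Bd * η ≤ c1 := by
    have h1 : η ≤ c1 / (16 * Bd) := hη.le.trans <| (min_le_right _ _).trans (min_le_left _ _)
    rw [le_div_iff₀ (by positivity)] at h1
    linarith
  have hη3 : 16 * Bd * η ≤ c2 := by
    have h1 : η ≤ c2 / (16 * Bd) := hη.le.trans <| (min_le_right _ _).trans (min_le_right _ _)
    rw [le_div_iff₀ (by positivity)] at h1
    linarith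
  have hε : 0 < η * c1 / 8 := by positivity
  -- the neighbourhood
  have hnb : ∀ᶠ v : (Fin m → Ω) × Ω in nhds (xΩ, yΩ), ‖ev2 v.1 v.2 F‖ < η * c1 / 8 ∧
      c1 / 2 < ‖ev2 v.1 v.2 F.derivative‖ ∧ c2 / 2 < ‖ev2 v.1 v.2 G‖ ∧
      ∀ i ∈ Finset.range (D + 1), ‖ev2 v.1 v.2 (Polynomial.hasseDeriv i F)‖ < Bd ∧
        ‖ev2 v.1 v.2 (Polynomial.hasseDeriv i G)‖ < Bd := by
    have hc : ∀ H : Polynomial (MvPolynomial (Fin m) E),
        ContinuousAt (fun v : (Fin m → Ω) × Ω => ‖ev2 v.1 v.2 H‖) (xΩ, yΩ) :=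
      fun H => (Spec_cont H).norm.continuousAt
    refine Filter.Eventually.and ?_ (Filter.Eventually.and ?_ (Filter.Eventually.and ?_ ?_))
    · refine (hc F).eventually_lt continuousAt_const ?_
      simp only
      rw [e0, norm_zero]
      exact hε
    · refine continuousAt_const.eventually_lt (hc F.derivative) ?_
      simp only
      rw [← hc1]
      linarith
    · refine continuousAt_const.eventually_lt (hc G) ?_
      simp only
      rw [← hc2]
      linarith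
    · rw [Filter.eventually_all_finset]
      intro i hi
      exact ((hc _).eventually_lt continuousAt_const (hBi i hi).1).and
        ((hc _).eventually_lt continuousAt_const (hBi i hi).2)
  obtain ⟨δ, hδ, hnb⟩ := Metric.eventually_nhds_iff.1 hnb
  choose r hr using fun i => hdense (xΩ i) (x i).2 δ hδ
  obtain ⟨s, hs⟩ := hdense yΩ y.2 δ hδ
  have hv := hnb (y := (fun i => π (r i), π s)) (by
    rw [Prod.dist_eq, max_lt_iff]
    constructor
    · rw [dist_pi_lt_iff hδ]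
      intro i
      rw [dist_comm, dist_eq_norm]
      exact hr i
    · rw [dist_comm, dist_eq_norm]
      exact hs)
  obtain ⟨v0, v1, v2, v3⟩ := hv
  simp only at v0 v1 v2 v3
  -- the specialization
  let T : Finset R := {ev2 r s F, ev2 r s F.derivative, ev2 r s G} ∪
    ((Finset.range (D + 1)).image fun i => ev2 r s (Polynomial.hasseDeriv i F)) ∪
    ((Finset.range (D + 1)).image fun i => ev2 r s (Polynomial.hasseDeriv i G))
  obtain ⟨φ, hφE, hφ⟩ := hsp T
  set a : Fin m → Ω := fun i => φ (r i) with ha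
  set b : Ω := φ s with hb
  have hab : ∀ H : Polynomial (MvPolynomial (Fin m) E), ev2 r s H ∈ T →
      ‖ev2 a b H‖ ≤ 2 * ‖ev2 (fun i => π (r i)) (π s) H‖ ∧
        ‖ev2 (fun i => π (r i)) (π s) H‖ ≤ 2 * ‖ev2 a b H‖ := by
    intro H hH
    have h1 := hφ _ hH
    rwa [Spec_ev2_hom, Spec_ev2_hom] at h1
  have t0 : ev2 r s F ∈ T := by simp [T]
  have t1 : ev2 r s F.derivative ∈ T := by simp [T]
  have t2 : ev2 r s G ∈ T := by simp [T]
  have t3 : ∀ i ∈ Finset.range (D + 1), ev2 r s (Polynomial.hasseDeriv i F) ∈ T := by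
    intro i hi
    refine Finset.mem_union_left _ (Finset.mem_union_right _ ?_)
    exact Finset.mem_image_of_mem _ hi
  have t4 : ∀ i ∈ Finset.range (D + 1), ev2 r s (Polynomial.hasseDeriv i G) ∈ T := by
    intro i hi
    exact Finset.mem_union_right _ (Finset.mem_image_of_mem _ hi)
  have w0 : ‖ev2 a b F‖ ≤ η * c1 / 4 := by linarith [(hab F t0).1]
  have w1 : c1 / 4 < ‖ev2 a b F.derivative‖ := by linarith [(hab _ t1).2]
  have w2 : c2 / 4 < ‖ev2 a b G‖ := by linarith [(hab _ t2).2]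
  have w3 : ∀ i ∈ Finset.range (D + 1), ‖ev2 a b (Polynomial.hasseDeriv i F)‖ ≤ 2 * Bd :=
    fun i hi => by linarith [(hab _ (t3 i hi)).1, (v3 i hi).1]
  have w4 : ∀ i ∈ Finset.range (D + 1), ‖ev2 a b (Polynomial.hasseDeriv i G)‖ ≤ 2 * Bd :=
    fun i hi => by linarith [(hab _ (t4 i hi)).1, (v3 i hi).2]
  -- Taylor coefficients are bounded
  have hbound : ∀ H : Polynomial (MvPolynomial (Fin m) E), H.natDegree ≤ D →
      (∀ i ∈ Finset.range (D + 1), ‖ev2 a b (Polynomial.hasseDeriv i H)‖ ≤ 2 * Bd) →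
      ∀ i, ‖ev2 a b (Polynomial.hasseDeriv i H)‖ ≤ 2 * Bd := by
    intro H hH hi i
    by_cases h1 : i ∈ Finset.range (D + 1)
    · exact hi i h1
    · rw [Finset.mem_range, not_lt] at h1
      have h2 : Polynomial.hasseDeriv i H = 0 :=
        Polynomial.hasseDeriv_eq_zero_of_lt_natDegree _ _ (by omega)
      rw [h2]
      have h3 : ev2 a b (0 : Polynomial (MvPolynomial (Fin m) E)) = 0 := by
        unfold ev2
        rw [Polynomial.map_zero, Polynomial.eval_zero]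
      rw [h3, norm_zero]
      positivity
  have w3' := hbound F (hD ▸ le_max_left _ _) w3
  have w4' := hbound G (hD ▸ le_max_right _ _) w4
  obtain ⟨y0, hy0E, hy0, hGy⟩ := Spec_newton hE F G (a := a) (fun i => hφE (r i)) (b := b)
    (hφE s) hη0 hη1 hBd0 hη2 hη3 w0 w1 w2 w3' w4'
  -- the solution
  have hco : ∀ H : Polynomial (MvPolynomial (Fin m) E),
      ((ev2 (fun i => (⟨a i, hφE (r i)⟩ : E)) (⟨y0, hy0E⟩ : E) H : E) : Ω) = ev2 a y0 H :=
    fun H => Spec_ev2_hom (Algebra.ofId E Ω) _ _ H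
  obtain ⟨z, hz⟩ := hsol E (fun i => (⟨a i, hφE (r i)⟩ : E)) (⟨y0, hy0E⟩ : E)
    (Subtype.ext ((hco F).trans hy0))
    (fun h => hGy ((hco G).symm.trans (congrArg Subtype.val h)))
  refine ⟨fun i => (z i : Ω), fun i => (z i).2, fun q hq => ?_⟩
  have h1 := hz _ (Finset.mem_image_of_mem _ hq)
  have h2 := DFunLike.congr_fun
    (MvPolynomial.comp_aeval (R := E) z (Algebra.ofId E Ω)) (MvPolynomial.map ψ q)
  rw [← hmap]
  refine h2.symm.trans ?_
  rw [AlgHom.comp_apply, h1, map_zero]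

end Pool.Agent.R4U
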