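import Pool.Agent.Lib.MP_4ed7e0_lc_U.Newt
import Pool.Agent.Lib.MP_4ed7e0_lc_U.Interp

/-!
# MP_4ed7e0_lc, project U: properties of tame pairs
-/

set_option autoImplicit false

namespace Pool.Agent.R4U

universe u

variable {Ω : Type u} [NormedField Ω] [IsUltrametricDist Ω]

omit [IsUltrametricDist Ω] in
private theorem tameL_mono {E H : Subfield Ω} (h : E ≤ H) {w : Ω} (hw : IsAlgebraic E w) :
    IsAlgebraic H w := by
  obtain ⟨q, hq0, hq⟩ := hw
  refine ⟨q.map (Subfield.inclusion h),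
    (Polynomial.map_ne_zero_iff (Subfield.inclusion h).injective).mpr hq0, ?_⟩
  rw [Polynomial.aeval_def, Polynomial.eval₂_map]
  exact hq

omit [IsUltrametricDist Ω] in
private theorem tameL_pow {E : Subfield Ω} {w : Ω} {n : ℕ} (hn : 0 < n) (h : w ^ n ∈ E) :
    IsAlgebraic E w := by
  have h1 : IsAlgebraic E (w ^ n) := isAlgebraic_algebraMap (⟨w ^ n, h⟩ : E)
  exact IsAlgebraic.of_pow hn h1

/-- Proof. The `p`-th root of `x ∈ E` in `H` (`HH.perf`) is algebraic over `E`. -/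
theorem Tame.perf {p : ℕ} [Fact p.Prime] {k E H : Subfield Ω} (ht : Tame p k E H) :
    Perf p E := by
  intro x hx
  obtain ⟨y, hy, hyx⟩ := ht.hh.perf x (ht.EH hx)
  have hp := (Fact.out : p.Prime)
  refine ⟨y, ht.rac y hy (tameL_pow hp.pos ?_), hyx⟩
  rw [hyx]
  exact hx

/-- Proof. Let `x ∈ E`, not zero, and `n = m * p ^ s` with `p ∤ m`. By `HH.dvs` there is `h ∈ H` with
`‖h‖ ^ m = ‖x‖`; `u = h ^ m / x ∈ H` has norm one, so there is `c ∈ k` with `‖u - c‖ < 1`, `‖c‖ = 1`,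
`‖u / c - 1‖ < 1`. By `root_unit` in the closed field `H` there is `v ∈ H` with `v ^ m = u / c`,
`‖v‖ = 1`. So `(h / v) ^ m = c * x ∈ E`, hence `h / v ∈ E` by `ht.rac`, and `‖h / v‖ ^ m = ‖x‖`. Take
`p`-th roots `s` times with `Tame.perf`. -/
theorem Tame.dvs {p : ℕ} [Fact p.Prime] [CharP Ω p] [IsAlgClosed Ω] {k E H : Subfield Ω}
    (ht : Tame p k E H) : Dvs E := by
  intro x hx n hn
  have hp := (Fact.out : p.Prime)
  by_cases hx0 : x = 0
  · refine ⟨0, E.zero_mem, ?_⟩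
    rw [hx0, norm_zero, zero_pow hn.ne']
  obtain ⟨s, m, hm, hnm⟩ := Nat.exists_eq_pow_mul_and_not_dvd hn.ne' p hp.ne_one
  have hm0 : 0 < m := by
    rcases Nat.eq_zero_or_pos m with h | h
    · exact absurd (h ▸ dvd_zero p) hm
    · exact h
  have hxn : 0 < ‖x‖ := norm_pos_iff.2 hx0
  obtain ⟨h, hh, hhx⟩ := ht.hh.dvs x (ht.EH hx) m hm0
  have hh0 : h ≠ 0 := by
    rintro rfl
    rw [norm_zero, zero_pow hm0.ne'] at hhx
    exact hxn.ne hhx
  have huH : h ^ m / x ∈ H := H.div_mem (H.pow_mem hh m) (ht.EH hx)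
  have hu1 : ‖h ^ m / x‖ = 1 := by
    rw [norm_div, norm_pow, hhx, div_self hxn.ne']
  obtain ⟨c, hck, hc⟩ := ht.hh.res _ huH hu1.le
  have hc0 : c ≠ 0 := by
    rintro rfl
    rw [sub_zero, hu1] at hc
    exact lt_irrefl _ hc
  have hc1 : ‖c‖ = 1 := ht.hh.triv c hck hc0
  have hcH : c ∈ H := ht.hh.kH hck
  have huc : ‖h ^ m / x / c - 1‖ < 1 := by
    have h1 : h ^ m / x / c - 1 = (h ^ m / x - c) / c := by
      field_simp
    rw [h1, norm_div, hc1, div_one]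
    exact hc
  obtain ⟨v, hvH, hv, -⟩ := root_unit p ht.hh.closed (H.div_mem huH hcH) huc hm
  have hv1 : ‖v‖ = 1 := by
    have h1 : ‖v‖ ^ m = 1 := by
      rw [← norm_pow, hv, norm_div, hu1, hc1, div_one]
    exact (pow_eq_one_iff_of_nonneg (norm_nonneg _) hm0.ne').1 h1
  have hv0 : v ≠ 0 := by
    rintro rfl
    rw [norm_zero] at hv1
    exact zero_ne_one hv1
  have hpow : (h / v) ^ m = c * x := by
    rw [div_pow, hv]
    field_simp
  have hE : h / v ∈ E := by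
    refine ht.rac _ (H.div_mem hh hvH) (tameL_pow hm0 ?_)
    rw [hpow]
    exact E.mul_mem (ht.kE hck) hx
  have hnorm : ‖h / v‖ ^ m = ‖x‖ := by
    rw [← norm_pow, hpow, norm_mul, hc1, one_mul]
  have hroot : ∀ s : ℕ, ∃ e ∈ E, e ^ p ^ s = h / v := by
    intro s
    induction s with
    | zero => exact ⟨h / v, hE, by rw [pow_zero, pow_one]⟩
    | succ s ih =>
      obtain ⟨e, he, hes⟩ := ih
      obtain ⟨f, hf, hfe⟩ := ht.perf e he
      refine ⟨f, hf, ?_⟩
      rw [pow_succ', pow_mul, hfe, hes]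
  obtain ⟨e, he, hes⟩ := hroot s
  refine ⟨e, he, ?_⟩
  rw [hnm, pow_mul, ← norm_pow, hes, hnorm]

/-- Elements algebraic over `E` are in the `E`-span of the algebraic closure of `k`.

Proof. `w` is algebraic over `H`, so in `spn H k` (`HH.alg`), so in `adj H θ` for some `θ ∈ abar k`
(`pe_fin` with `m = 1`), `w = ∑ a i * θ ^ i` (`adj_rep`), `a i ∈ H`. By `interp` the `a i` are
algebraic over `E`, so in `E`. -/
theorem Tame.alg {p : ℕ} [Fact p.Prime] [CharP Ω p] [IsAlgClosed Ω] {k E H : Subfield Ω}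
    (ht : Tame p k E H) {w : Ω} (hw : IsAlgebraic E w) :
    ∃ θ ∈ abar k, ∃ a : Fin (minpoly k θ).natDegree → Ω, (∀ i, a i ∈ E) ∧
      w = ∑ i, a i * θ ^ (i : ℕ) := by
  have hwH : w ∈ spn H k := ht.hh.alg w (tameL_mono ht.EH hw)
  obtain ⟨θ, hθ, -, hw1⟩ := pe_fin p ht.hh.kH ht.hh.kperf (m := 1) (fun _ => w)
    (fun _ => hwH)
  obtain ⟨a, ha, hwa⟩ := adj_rep ht.hh.kH hθ (hw1 0)
  refine ⟨θ, hθ, a, ?_, hwa⟩
  have halg : IsAlgebraic E (∑ i, a i * θ ^ (i : ℕ)) := by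
    rw [← hwa]
    exact hw
  intro i
  exact ht.rac _ (ha i) (interp ht.hh.triv ht.hh.kperf ht.hh.res ht.kE ht.EH hθ a ha halg i)

/-- Every element `w` algebraic over `E` has a projection `e ∈ E`, closer than `w` to all elements of
`H`.

Proof. Write `w = ∑ a i * θ ^ i` (`Tame.alg`) and `e = a 0`. For `h ∈ H` the coordinates of `h - w` are
`h - a 0` and `- a i`, so `‖h - a 0‖ ≤ ‖h - w‖` by `on_pow`. -/
theorem Tame.proj {p : ℕ} [Fact p.Prime] [CharP Ω p] [IsAlgClosed Ω] {k E H : Subfield Ω}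
    (ht : Tame p k E H) {w : Ω} (hw : IsAlgebraic E w) :
    ∃ e ∈ E, ∀ h ∈ H, ‖h - e‖ ≤ ‖h - w‖ := by
  obtain ⟨θ, hθ, a, ha, hwa⟩ := ht.alg hw
  have hint : IsIntegral k θ := (mem_abar.1 hθ).isIntegral
  have hpos : 0 < (minpoly k θ).natDegree := minpoly.natDegree_pos hint
  refine ⟨a ⟨0, hpos⟩, ha _, ?_⟩
  intro h hh
  obtain ⟨b, hb⟩ : ∃ b : Fin (minpoly k θ).natDegree → Ω,
      b = fun i => (if i = ⟨0, hpos⟩ then h else 0) - a i := ⟨_, rfl⟩
  have hbH : ∀ i, b i ∈ H := by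
    intro i
    rw [hb]
    refine H.sub_mem ?_ (ht.EH (ha i))
    split_ifs
    · exact hh
    · exact H.zero_mem
  have hsum : ∑ i, b i * θ ^ (i : ℕ) = h - w := by
    rw [hwa, hb]
    simp only [sub_mul, Finset.sum_sub_distrib, ite_mul, zero_mul, Finset.sum_ite_eq',
      Finset.mem_univ, if_true, pow_zero, mul_one]
  have h1 := on_pow ht.hh.triv ht.hh.kH ht.hh.res hθ b hbH ⟨0, hpos⟩
  rw [hsum, hb] at h1
  simpa using h1

/-- Every element of `E` is congruent modulo the elements `a ^ p - a` of `E` to an element of norm at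
most one.

Proof. Let `β ∈ Ω` be a root of `X ^ p - X - d`, algebraic over `E`, and `e` its projection. Then
`‖β - e‖ ≤ ‖β - e'‖` for all `e' ∈ E`, because `‖e' - e‖ ≤ ‖e' - β‖`. Put `β' = β - e`,
`d' = β' ^ p - β' = d - (e ^ p - e) ∈ E`, `r = ‖β'‖`. Suppose `r > 1`. Then `‖d'‖ = r ^ p`; by
`Tame.dvs` there is `ε ∈ E` with `‖ε‖ ^ p = ‖d'‖`, so `‖ε‖ = r`. There are `c ∈ k` with
`‖d' / ε ^ p - c‖ < 1` and `c₁ ∈ k` with `c₁ ^ p = c`. As
`‖β' ^ p / ε ^ p - d' / ε ^ p‖ = r / r ^ p < 1` we get `‖β' / ε - c₁‖ ^ p < 1`, so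
`‖β - (e + c₁ * ε)‖ < r`, a contradiction. So `r ≤ 1` and `a = e` works. -/
theorem Tame.const {p : ℕ} [Fact p.Prime] [CharP Ω p] [IsAlgClosed Ω] {k E H : Subfield Ω}
    (ht : Tame p k E H) {d : Ω} (hd : d ∈ E) : ∃ a ∈ E, ‖d - (a ^ p - a)‖ ≤ 1 := by
  have hp := (Fact.out : p.Prime)
  have hdeg : (Polynomial.X ^ p - Polynomial.X - Polynomial.C d : Polynomial Ω).degree ≠ 0 := by
    have h1 : (Polynomial.X ^ p - Polynomial.X - Polynomial.C d : Polynomial Ω).coeff 1 ≠ 0 := by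
      rw [Polynomial.coeff_sub, Polynomial.coeff_sub, Polynomial.coeff_X_pow,
        Polynomial.coeff_C, Polynomial.coeff_X_one, if_neg hp.one_lt.ne, if_neg one_ne_zero]
      simp
    intro h2
    rw [Polynomial.eq_C_of_degree_eq_zero h2, Polynomial.coeff_C, if_neg one_ne_zero] at h1
    exact h1 rfl
  obtain ⟨β, hβ⟩ := IsAlgClosed.exists_root _ hdeg
  have hβ1 : β ^ p - β = d := by
    have h1 : β ^ p - β - d = 0 := by simpa using hβ
    exact sub_eq_zero.1 h1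
  have halg : IsAlgebraic E β := by
    refine ⟨Polynomial.X ^ p - Polynomial.X - Polynomial.C (⟨d, hd⟩ : E), ?_, ?_⟩
    · intro h2
      have h1 := congrArg (fun q => Polynomial.coeff q 1) h2
      simp only [Polynomial.coeff_sub, Polynomial.coeff_X_pow, Polynomial.coeff_C,
        Polynomial.coeff_X_one, if_neg hp.one_lt.ne, if_neg (one_ne_zero : (1 : ℕ) ≠ 0),
        Polynomial.coeff_zero, zero_sub, sub_zero] at h1
      exact (neg_ne_zero.2 one_ne_zero) h1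
    · simp only [map_sub, map_pow, Polynomial.aeval_X, Polynomial.aeval_C]
      change β ^ p - β - d = 0
      rw [hβ1, sub_self]
  obtain ⟨e, he, hproj⟩ := ht.proj halg
  have hmin : ∀ e' ∈ E, ‖β - e‖ ≤ ‖β - e'‖ := by
    intro e' he'
    have h1 : β - e = (β - e') + (e' - e) := by ring
    rw [h1]
    refine (IsUltrametricDist.norm_add_le_max _ _).trans (max_le le_rfl ?_)
    refine (hproj e' (ht.EH he')).trans ?_
    rw [norm_sub_rev]
  have hfrob : ∀ x y : Ω, (x - y) ^ p = x ^ p - y ^ p := fun x y => sub_pow_char x y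
  have hd' : (β - e) ^ p - (β - e) = d - (e ^ p - e) := by
    rw [hfrob, ← hβ1]
    ring
  have hd'E : (β - e) ^ p - (β - e) ∈ E := by
    rw [hd']
    exact E.sub_mem hd (E.sub_mem (E.pow_mem he p) he)
  have hr : ‖β - e‖ ≤ 1 := by
    by_contra hr
    push Not at hr
    have hr0 : 0 < ‖β - e‖ := lt_trans one_pos hr
    have hrp : ‖β - e‖ < ‖β - e‖ ^ p := by
      have h1 := pow_lt_pow_right₀ hr hp.one_lt
      rwa [pow_one] at h1
    have hnd : ‖(β - e) ^ p - (β - e)‖ = ‖β - e‖ ^ p := by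
      rw [← norm_pow] at hrp ⊢
      rw [sub_eq_add_neg]
      have h1 : ‖-(β - e)‖ < ‖(β - e) ^ p‖ := by
        rw [norm_neg]
        exact hrp
      rw [IsUltrametricDist.norm_add_eq_max_of_norm_ne_norm h1.ne', max_eq_left h1.le]
    obtain ⟨ε, hε, hεn⟩ := ht.dvs _ hd'E p hp.pos
    have hεr : ‖ε‖ = ‖β - e‖ := by
      rw [hnd] at hεn
      exact (pow_left_inj₀ (norm_nonneg _) (norm_nonneg _) hp.ne_zero).1 hεn
    have hε0 : ε ≠ 0 := by
      rintro rfl
      rw [norm_zero] at hεr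
      exact hr0.ne hεr
    have hq1 : ‖((β - e) ^ p - (β - e)) / ε ^ p‖ = 1 := by
      rw [norm_div, norm_pow, hεn, div_self]
      rw [hnd]
      positivity
    obtain ⟨c, hck, hc⟩ := ht.hh.res _
      (H.div_mem (ht.EH hd'E) (H.pow_mem (ht.EH hε) p)) hq1.le
    obtain ⟨c₁, hc₁k, hc₁⟩ := ht.hh.kperf c hck
    have h2 : ((β - e) / ε - c₁) ^ p =
        (β - e) / ε ^ p + (((β - e) ^ p - (β - e)) / ε ^ p - c) := by
      rw [hfrob, div_pow, hc₁, sub_div]
      ring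
    have h3 : ‖(β - e) / ε ^ p‖ < 1 := by
      rw [norm_div, norm_pow, hεr, div_lt_one (by positivity)]
      exact hrp
    have h4 : ‖(β - e) / ε - c₁‖ ^ p < 1 := by
      rw [← norm_pow, h2]
      exact (IsUltrametricDist.norm_add_le_max _ _).trans_lt (max_lt h3 hc)
    have h5 : ‖(β - e) / ε - c₁‖ < 1 := by
      by_contra h6
      push Not at h6
      exact absurd (one_le_pow₀ h6 (n := p)) (not_le.2 h4)
    have h6 : ‖β - (e + c₁ * ε)‖ < ‖β - e‖ := by
      have h7 : β - (e + c₁ * ε) = ε * ((β - e) / ε - c₁) := by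
        field_simp
        ring
      rw [h7, norm_mul, hεr]
      calc ‖β - e‖ * ‖(β - e) / ε - c₁‖ < ‖β - e‖ * 1 := mul_lt_mul_of_pos_left h5 hr0
        _ = ‖β - e‖ := mul_one _
    have h8 := hmin (e + c₁ * ε) (E.add_mem he (E.mul_mem (ht.kE hc₁k) hε))
    exact absurd h6 (not_lt.2 h8)
  refine ⟨e, he, ?_⟩
  rw [← hd', sub_eq_add_neg]
  refine (IsUltrametricDist.norm_add_le_max _ _).trans (max_le ?_ ?_)
  · rw [norm_pow]
    exact pow_le_one₀ (norm_nonneg _) hr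
  · rw [norm_neg]
    exact hr

end Pool.Agent.R4U
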