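import Pool.Agent.Lib.MP_4ed7e0_lc_U.Hens

/-!
# MP_4ed7e0_lc, project U: transfer of truncated solutions
-/

set_option autoImplicit false

namespace Pool.Agent.R4U

universe u

open Pool.Agent.R4F

private theorem Trunc_nat {K A B : Type u} [Field K] [CommRing A] [CommRing B] [Algebra K A]
    [Algebra K B] (φ : A →ₐ[K] B) {m : ℕ} (F : Polynomial (MvPolynomial (Fin m) K))
    (x : Fin m → A) (y : A) : φ (ev2 x y F) = ev2 (fun i => φ (x i)) (φ y) F := by
  unfold ev2
  rw [Polynomial.eval_map, Polynomial.eval_map]
  have h := Polynomial.hom_eval₂ F (MvPolynomial.aeval x : MvPolynomial (Fin m) K →ₐ[K] A).toRingHom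
    φ.toRingHom y
  have h2 : φ.toRingHom.comp (MvPolynomial.aeval x : MvPolynomial (Fin m) K →ₐ[K] A).toRingHom =
      (MvPolynomial.aeval (fun i => φ (x i)) : MvPolynomial (Fin m) K →ₐ[K] B).toRingHom := by
    refine MvPolynomial.ringHom_ext (fun r => ?_) (fun i => ?_)
    · simp
    · simp
  rw [h2] at h
  exact h

private theorem Trunc_solv {K M : Type u} [Field K] [Field M] [Algebra K M] (hec : Tr K M K)
    {σ : Type} [Fintype σ] (S : Finset (MvPolynomial σ K)) (x : σ → M)
    (hx : ∀ q ∈ S, MvPolynomial.aeval x q = 0) :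
    ∃ y : σ → K, ∀ q ∈ S, MvPolynomial.aeval y q = 0 := by
  classical
  let e := Fintype.equivFin σ
  obtain ⟨y, hy⟩ := hec (Fintype.card σ) (S.image (MvPolynomial.rename e))
    ⟨fun i => x (e.symm i), by
      intro q hq
      obtain ⟨q', hq', rfl⟩ := Finset.mem_image.1 hq
      rw [MvPolynomial.aeval_rename]
      have : (fun i => x (e.symm i)) ∘ e = x := by
        funext i
        simp
      rw [this]
      exact hx q' hq'⟩
  refine ⟨y ∘ e, fun q hq => ?_⟩
  rw [← MvPolynomial.aeval_rename]
  exact hy _ (Finset.mem_image_of_mem _ hq)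

/-- The universal truncated power series. -/
private noncomputable def Trunc_u (K : Type u) [Field K] (m s : ℕ) (i : Option (Fin m)) :
    PowerSeries (MvPolynomial (Option (Option (Fin m) × Fin s)) K) :=
  PowerSeries.mk (fun j => if h : j < s then MvPolynomial.X (some (i, ⟨j, h⟩)) else 0)

/-- If systems over `K` solvable in `M` are solvable in `K` then approximate solutions in power
series over `M` can be transferred to power series over `K`.

Proof. By `ev2_congr` (with `s`, `l < s`) we may replace `a`, `b` by their truncations, sums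
`∑ j < s, c_ij * X ^ j`. For unknowns `c = (c_ij)` (index set `Fin (m + 1) × Fin s`) the
coefficients of index `< s` of `ev2 (∑ j, c_ij X ^ j) (∑ j, c_mj X ^ j) F` are the values at `c` of
polynomials over `K` (work in `PowerSeries (MvPolynomial _ K)` with the universal power series
`∑ j < s, C (X_ij) * X ^ j` and map coefficients). The conditions that the coefficients of
index `< s` of `F` vanish and `u` times the coefficient of index `l` of `Q` is one form a finite
system over `K` in the unknowns `c, u`, solvable in `M`, hence in `K` (transport the index set to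
`Fin N`). -/
theorem trunc_tr {K M : Type u} [Field K] [Field M] [Algebra K M] (hec : Tr K M K) {m : ℕ}
    (F Q : Polynomial (MvPolynomial (Fin m) K)) (a : Fin m → PowerSeries M) (b : PowerSeries M)
    {s l : ℕ} (hl : l < s) (h1 : PowerSeries.X ^ s ∣ ev2 a b F)
    (h2 : PowerSeries.coeff l (ev2 a b Q) ≠ 0) :
    ∃ (a' : Fin m → PowerSeries K) (b' : PowerSeries K), PowerSeries.X ^ s ∣ ev2 a' b' F ∧
      PowerSeries.coeff l (ev2 a' b' Q) ≠ 0 := by
  classical
  set P : ℕ → Polynomial (MvPolynomial (Fin m) K) →
      MvPolynomial (Option (Option (Fin m) × Fin s)) K := fun i G =>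
    PowerSeries.coeff i (ev2 (fun i => Trunc_u K m s (some i)) (Trunc_u K m s none) G) with hP
  have key : ∀ (B : Type u) [Field B] [Algebra K B]
      (c : Option (Option (Fin m) × Fin s) → B) (G : Polynomial (MvPolynomial (Fin m) K)) (i : ℕ),
      PowerSeries.coeff i (ev2
        (fun i => PowerSeries.map (MvPolynomial.aeval c : MvPolynomial _ K →ₐ[K] B).toRingHom
          (Trunc_u K m s (some i)))
        (PowerSeries.map (MvPolynomial.aeval c : MvPolynomial _ K →ₐ[K] B).toRingHom
          (Trunc_u K m s none)) G) = MvPolynomial.aeval c (P i G) := by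
    intro B _ _ c G i
    have h := Trunc_nat (PowerSeries.mapAlgHom (MvPolynomial.aeval c : MvPolynomial _ K →ₐ[K] B)) G
      (fun i => Trunc_u K m s (some i)) (Trunc_u K m s none)
    have h' := congrArg (PowerSeries.coeff i) h
    refine Eq.trans h'.symm ?_
    rfl
  set c : Option (Option (Fin m) × Fin s) → M := fun o =>
    match o with
    | none => (PowerSeries.coeff l (ev2 a b Q))⁻¹
    | some (some i, j) => PowerSeries.coeff j (a i)
    | some (none, j) => PowerSeries.coeff j b with hc
  have ha : ∀ i, PowerSeries.X ^ s ∣ a i - PowerSeries.map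
      (MvPolynomial.aeval c : MvPolynomial _ K →ₐ[K] M).toRingHom (Trunc_u K m s (some i)) := by
    intro i
    rw [PowerSeries.X_pow_dvd_iff]
    intro j hj
    rw [map_sub, PowerSeries.coeff_map, Trunc_u, PowerSeries.coeff_mk, dif_pos hj]
    simp [hc]
  have hb : PowerSeries.X ^ s ∣ b - PowerSeries.map
      (MvPolynomial.aeval c : MvPolynomial _ K →ₐ[K] M).toRingHom (Trunc_u K m s none) := by
    rw [PowerSeries.X_pow_dvd_iff]
    intro j hj
    rw [map_sub, PowerSeries.coeff_map, Trunc_u, PowerSeries.coeff_mk, dif_pos hj]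
    simp [hc]
  have hcomp : ∀ (G : Polynomial (MvPolynomial (Fin m) K)) (i : ℕ), i < s →
      MvPolynomial.aeval c (P i G) = PowerSeries.coeff i (ev2 a b G) := by
    intro G i hi
    have h := ev2_congr G ha hb
    rw [PowerSeries.X_pow_dvd_iff] at h
    have h' := h i hi
    rw [map_sub, key M c G i, sub_eq_zero] at h'
    exact h'.symm
  obtain ⟨y, hy⟩ := Trunc_solv hec
    (insert (MvPolynomial.X none * P l Q - 1) ((Finset.range s).image (fun i => P i F))) c (by
      intro q hq
      rcases Finset.mem_insert.1 hq with rfl | hq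
      · rw [map_sub, map_mul, map_one, MvPolynomial.aeval_X, hcomp Q l hl]
        have : c none = (PowerSeries.coeff l (ev2 a b Q))⁻¹ := rfl
        rw [this, inv_mul_cancel₀ h2, sub_self]
      · obtain ⟨i, hi, rfl⟩ := Finset.mem_image.1 hq
        rw [hcomp F i (Finset.mem_range.1 hi)]
        exact (PowerSeries.X_pow_dvd_iff.1 h1) i (Finset.mem_range.1 hi))
  refine ⟨fun i => PowerSeries.map (MvPolynomial.aeval y : MvPolynomial _ K →ₐ[K] K).toRingHom
      (Trunc_u K m s (some i)), PowerSeries.map
        (MvPolynomial.aeval y : MvPolynomial _ K →ₐ[K] K).toRingHom (Trunc_u K m s none), ?_, ?_⟩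
  · rw [PowerSeries.X_pow_dvd_iff]
    intro i hi
    rw [key K y F i]
    exact hy _ (Finset.mem_insert_of_mem (Finset.mem_image_of_mem _ (Finset.mem_range.2 hi)))
  · rw [key K y Q l]
    have h := hy _ (Finset.mem_insert_self _ _)
    rw [map_sub, map_mul, map_one, sub_eq_zero] at h
    intro h0
    rw [h0, mul_zero] at h
    exact zero_ne_one h

end Pool.Agent.R4U
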